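import Pool.Agent.MP_154433_an.t4.Spec

/-! Rows for commuting maps, part A1. -/

section PkBasT

/-! The action, factors, embeddings, invariant functions. -/

set_option autoImplicit false
set_option linter.unusedVariables false
set_option warn.classDefReducibility false

open MeasureTheory ProbabilityTheory Filter Topology Function Finset ComplexConjugate
open scoped BigOperators
open Fib27 (BM sup pr Oc Orow F23 LInd Mem)

noncomputable section

namespace T4x

open T3x

variable [Grp]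

namespace BasTx

lemma cancel (X : Sys) (n : Γ) (x : X.X) : X.Tz (-n) (X.Tz n x) = x := by
  rw [← X.add, neg_add_cancel, X.zero]

lemma cancel' (X : Sys) (n : Γ) (x : X.X) : X.Tz n (X.Tz (-n) x) = x := by
  rw [← X.add, add_neg_cancel, X.zero]

lemma res (hT : T3x.BasT) (X : Sys) (u : Γ) (n : ℤ) : (X.res u).Tz n = X.Tz (n • u) := by
  have h1 : ∀ x, (X.res u).Tz 1 x = X.Tz u x := fun x => hT.one (X.res u) x
  have hm : ∀ x, (X.res u).Tz (-1) x = X.Tz (-u) x := fun x => by
    have e : (X.res u).Tz (-1) ((X.res u).Tz 1 (X.Tz (-u) x)) = X.Tz (-u) x := by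
      rw [← hT.add (X.res u), neg_add_cancel, hT.zero (X.res u)]
    rwa [h1, cancel'] at e
  induction n using Int.induction_on with
  | zero =>
    funext x
    rw [zero_smul, X.zero]
    exact hT.zero (X.res u) x
  | succ k ih =>
    funext x
    rw [add_smul, one_smul, X.add, ← ih, ← h1]
    exact hT.add (X.res u) _ _ x
  | pred k ih =>
    funext x
    rw [sub_eq_add_neg, add_smul, neg_smul 1 u, one_smul, X.add, ← ih, ← hm]
    exact hT.add (X.res u) _ _ x

lemma inv (X : Sys) (B : MeasurableSpace X.X) (n : Γ) (hB : Fac X B) :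
    B.comap (X.Tz n) = B := by
  refine le_antisymm (hB.inv n) fun A hA => ?_
  refine ⟨X.Tz (-n) ⁻¹' A, hB.inv (-n) _ ⟨A, hA, rfl⟩, ?_⟩
  ext x
  simp only [Set.mem_preimage, cancel]

lemma pull_tz (X : Sys) (B : MeasurableSpace X.X) (n : Γ) (hB : Fac X B) :
    pull X.μ (X.Tz n) B = B := by
  rw [pull, inv X B n hB]
  exact sup_eq_left.2 hB.nl

lemma nul_comap (X : Sys) (n : Γ) : (nul X.μ).comap (X.Tz n) ≤ nul X.μ := by
  rw [nul, MeasurableSpace.comap_generateFrom]
  refine MeasurableSpace.generateFrom_mono ?_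
  rintro _ ⟨A, ⟨hA, h0⟩, rfl⟩
  exact ⟨(X.mp n).measurable hA, (X.mp n).quasiMeasurePreserving.preimage_null h0⟩

lemma fisup (X : Sys) (ι : Type) (B : MeasurableSpace X.X) (C : ι → MeasurableSpace X.X)
    (P : ι → Prop) (hB : Fac X B) (hC : ∀ i, P i → Fac X (C i)) :
    Fac X (B ⊔ ⨆ i, ⨆ _ : P i, C i) := by
  refine ⟨sup_le hB.le (iSup₂_le fun i hi => (hC i hi).le), hB.nl.trans le_sup_left, fun n => ?_⟩
  rw [MeasurableSpace.comap_sup, MeasurableSpace.comap_iSup]
  refine sup_le_sup (hB.inv n) (iSup_mono fun i => ?_)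
  rw [MeasurableSpace.comap_iSup]
  exact iSup_mono fun hi => (hC i hi).inv n

lemma inv_le (X : Sys) (H : Set Γ) : Inv X H ≤ X.ms := fun A hA => hA.1

lemma nul_inv (X : Sys) (H : Set Γ) : nul X.μ ≤ Inv X H := by
  refine MeasurableSpace.generateFrom_le ?_
  rintro A ⟨hA, h0⟩
  refine ⟨hA, fun h _ => ?_⟩
  exact (ae_eq_empty.2 ((X.mp h).quasiMeasurePreserving.preimage_null h0)).trans
    (ae_eq_empty.2 h0).symm

lemma finv (X : Sys) (H : Set Γ) : Fac X (Inv X H) := by
  refine ⟨inv_le X H, nul_inv X H, fun n => ?_⟩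
  rintro _ ⟨A, hA, rfl⟩
  refine ⟨(X.mp n).measurable hA.1, fun h hh => ?_⟩
  have e : X.Tz h ⁻¹' (X.Tz n ⁻¹' A) = X.Tz n ⁻¹' (X.Tz h ⁻¹' A) := by
    ext x
    simp only [Set.mem_preimage, ← X.add, add_comm n h]
  rw [e]
  exact (X.mp n).quasiMeasurePreserving.preimage_ae_eq (hA.2 h hh)

lemma ce (hA : BasA) (X : Sys) (B : MeasurableSpace X.X) (n : Γ) (f : X.X → ℂ) (hB : Fac X B)
    (hf : Integrable f X.μ) :
    X.μ[fun x => f (X.Tz n x) | B] =ᵐ[X.μ] fun x => (X.μ[f | B]) (X.Tz n x) := by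
  have h := hA.ce_comp B X.μ X.μ (X.Tz n) f (X.mp n) hB.le hf
  rwa [pull_tz X B n hB] at h

lemma inv_iff (hA : BasA) (X : Sys) (H : Set Γ) (f : X.X → ℂ) (hf : AEStronglyMeasurable f X.μ) :
    AEStronglyMeasurable[Inv X H] f X.μ ↔ ∀ h ∈ H, (fun x => f (X.Tz h x)) =ᵐ[X.μ] f := by
  constructor
  · intro hI h hh
    exact hA.keq_fun (Inv X H) X.μ X.μ (X.Tz h) id f (X.mp h) (MeasurePreserving.id _)
      (fun A hA' => hA'.2 h hh) hI
  · intro h
    obtain ⟨g, hg, hfg⟩ := hf
    have hm : Measurable[Inv X H] g := by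
      intro s hs
      refine ⟨hg.measurable hs, fun u hu => ?_⟩
      have hgT : (fun x => g (X.Tz u x)) =ᵐ[X.μ] g := by
        filter_upwards [hfg, (X.mp u).quasiMeasurePreserving.ae hfg, h u hu] with x h1 h2 h3
        rw [← h1, ← h2, h3]
      exact hgT.preimage s
    exact ⟨g, hm.stronglyMeasurable, hfg⟩

lemma inv_anti (X : Sys) (H H' : Set Γ) (h : H ⊆ H') : Inv X H' ≤ Inv X H :=
  fun A hA => ⟨hA.1, fun u hu => hA.2 u (h hu)⟩

lemma inv_cl (X : Sys) (H : Set Γ) : Inv X (AddSubgroup.closure H : Set Γ) = Inv X H := by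
  refine le_antisymm (inv_anti X _ _ AddSubgroup.subset_closure) fun A hA => ⟨hA.1, fun u hu => ?_⟩
  induction hu using AddSubgroup.closure_induction with
  | mem x hx => exact hA.2 x hx
  | zero =>
    have e : X.Tz 0 ⁻¹' A = A := by
      ext x
      rw [Set.mem_preimage, X.zero]
    rw [e]
  | add x y _ _ hx hy =>
    have e : X.Tz (x + y) ⁻¹' A = X.Tz y ⁻¹' (X.Tz x ⁻¹' A) := by
      ext z
      simp only [Set.mem_preimage, X.add]
    rw [e]
    exact ((X.mp y).quasiMeasurePreserving.preimage_ae_eq hx).trans hy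
  | neg x _ hx =>
    have e : A = X.Tz (-x) ⁻¹' (X.Tz x ⁻¹' A) := by
      ext z
      simp only [Set.mem_preimage, cancel']
    have h := (X.mp (-x)).quasiMeasurePreserving.preimage_ae_eq hx
    rw [← e] at h
    exact h.symm

lemma inv_res (hA : BasA) (X : Sys) (u : Γ) : Inv X {u} = T3x.Inv (X.res u) := by
  have hle : MeasurableSpace.invariants (X.Tz u) ≤ X.ms := MeasurableSpace.invariants_le _
  refine le_antisymm (fun A hI => ?_) (sup_le (fun A hI => ⟨hI.1, fun h hh => ?_⟩) (nul_inv X _))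
  · obtain ⟨t, ht, hts, htT⟩ := (X.mp u).quasiMeasurePreserving.exists_preimage_eq_of_preimage_ae
      hI.1.nullMeasurableSet (hI.2 u rfl)
    exact (hA.mem _ X.μ hle _).2 ⟨hI.1, t, ⟨ht, htT⟩, hts.symm⟩
  · have e : X.Tz u ⁻¹' A = A := hI.2
    rw [Set.mem_singleton_iff.1 hh, e]

lemma inv_ce (hA : BasA) (X : Sys) (H H' : Set Γ) (f : X.X → ℂ) :
    X.μ[X.μ[f | Inv X H] | Inv X H'] =ᵐ[X.μ] X.μ[f | Inv X (H ∪ H')] := by
  have m1 : AEStronglyMeasurable[Inv X H] (X.μ[f | Inv X H]) X.μ :=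
    stronglyMeasurable_condExp.aestronglyMeasurable
  have m2 : AEStronglyMeasurable[Inv X H'] (X.μ[X.μ[f | Inv X H] | Inv X H']) X.μ :=
    stronglyMeasurable_condExp.aestronglyMeasurable
  have i1 := (inv_iff hA X H _ integrable_condExp.aestronglyMeasurable).1 m1
  have i2 := (inv_iff hA X H' _ integrable_condExp.aestronglyMeasurable).1 m2
  have m3 : AEStronglyMeasurable[Inv X (H ∪ H')] (X.μ[X.μ[f | Inv X H] | Inv X H']) X.μ := by
    refine (inv_iff hA X _ _ integrable_condExp.aestronglyMeasurable).2 ?_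
    rintro h (hh | hh)
    · exact (ce hA X _ h _ (finv X H') integrable_condExp).symm.trans
        (condExp_congr_ae (i1 h hh))
    · exact i2 h hh
  have l1 : Inv X (H ∪ H') ≤ Inv X H := inv_anti X _ _ Set.subset_union_left
  have l2 : Inv X (H ∪ H') ≤ Inv X H' := inv_anti X _ _ Set.subset_union_right
  have t1 : X.μ[X.μ[f | Inv X H] | Inv X (H ∪ H')] =ᵐ[X.μ] X.μ[f | Inv X (H ∪ H')] :=
    condExp_condExp_of_le l1 (inv_le X H)
  have t2 : X.μ[X.μ[X.μ[f | Inv X H] | Inv X H'] | Inv X (H ∪ H')] =ᵐ[X.μ]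
      X.μ[X.μ[f | Inv X H] | Inv X (H ∪ H')] := condExp_condExp_of_le l2 (inv_le X H')
  have t3 := condExp_of_aestronglyMeasurable' (inv_le X (H ∪ H')) m3 integrable_condExp
  exact t3.symm.trans (t2.trans t1)

end BasTx

lemma BasTx.emb_meas {Y X : Sys} {p : Y.X → X.X} (hp : Emb Y X p) : Measurable p :=
  hp.mp.measurable

open BasTx in
theorem basT : BasTS := fun hA hT =>
  { mp := fun X => X.mp
    zero := fun X => X.zero
    add := fun X => X.add
    res := res hT
    inv := inv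
    bm := fun X B n f hB hf => by
      have h := hA.bm_comp B X.μ X.μ (X.Tz n) f (X.mp n) hf
      rwa [pull_tz X B n hB] at h
    ce := ce hA
    emb_z := fun Y X p n hp => hp.eqv n
    emb_id := fun X => ⟨MeasurePreserving.id _, fun n A hA => EventuallyEq.rfl⟩
    emb_comp := fun Z Y X p q hp hq =>
      ⟨hq.mp.comp hp.mp, fun n A hA =>
        (hp.eqv n _ (hq.mp.measurable hA)).trans
          (hp.mp.quasiMeasurePreserving.preimage_ae_eq (hq.eqv n A hA))⟩
    top := fun X => ⟨le_rfl, hA.nul_le X.μ, fun n => (X.mp n).measurable.comap_le⟩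
    bot := fun X => ⟨hA.nul_le X.μ, le_rfl, nul_comap X⟩
    finv := finv
    fpull := fun Y X p B hp hB => by
      refine ⟨hA.pull_le B Y.μ X.μ p hp.mp hB.le, le_sup_right, fun n => ?_⟩
      rw [pull, MeasurableSpace.comap_sup]
      refine sup_le ?_ ((nul_comap Y n).trans le_sup_right)
      rintro _ ⟨_, ⟨A, hA', rfl⟩, rfl⟩
      have hm : @Measurable _ _ Y.ms X.ms p := emb_meas hp
      have hle : B.comap p ≤ Y.ms := (MeasurableSpace.comap_mono hB.le).trans hm.comap_le
      refine (hA.mem (B.comap p) Y.μ hle _).2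
        ⟨(Y.mp n).measurable (hm (hB.le A hA')), p ⁻¹' (X.Tz n ⁻¹' A),
          ⟨_, hB.inv n _ ⟨A, hA', rfl⟩, rfl⟩, ?_⟩
      exact hp.eqv n A (hB.le A hA')
    fsup := fun X B C hB hC => by
      refine ⟨sup_le hB.le hC.le, hB.nl.trans le_sup_left, fun n => ?_⟩
      rw [MeasurableSpace.comap_sup]
      exact sup_le_sup (hB.inv n) (hC.inv n)
    fisup := fun X ι B C hB hC => by
      simpa using fisup X ι B C (fun _ => True) hB fun i _ => hC i
    fsSup := fun X 𝒞 hne hC => by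
      obtain ⟨B, hB⟩ := hne
      have h := fisup X _ B id (fun C => C ∈ 𝒞) (hC B hB) hC
      simp only [id] at h
      rwa [← sSup_eq_iSup, sup_eq_right.2 (le_sSup hB)] at h
    fsp := fun X ι B C S hB hC => by
      rw [sup_comm]
      exact fisup X ι B C (fun i => i ∈ S) hB fun i _ => hC i
    inv_iff := inv_iff hA
    inv_anti := inv_anti
    inv_cl := inv_cl
    inv_res := inv_res hA
    inv_ce := fun X H H' f _ => inv_ce hA X H H' f }

end T4x

end

end PkBasT

section PkMet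

/-! Row Met: mean ergodic theorem and correlations for commuting maps. -/

set_option autoImplicit false
set_option linter.unusedVariables false
set_option warn.classDefReducibility false

open MeasureTheory ProbabilityTheory Filter Topology Function Finset ComplexConjugate
open scoped BigOperators
open Fib27 (BM sup pr Oc Orow F23 LInd Mem)

noncomputable section

namespace T4x

open T3x

namespace Met

theorem int_comp {Ω : Type} {m : MeasurableSpace Ω} {μ : Measure Ω} {p : Ω → Ω}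
    (h : MeasurePreserving p μ μ) {f : Ω → ℂ} (hf : BM μ m f) :
    ∫ x, f (p x) ∂μ = ∫ y, f y ∂μ := by
  conv_rhs => rw [← h.map_eq]
  rw [integral_map h.measurable.aemeasurable (by rw [h.map_eq]; exact hf.1)]

theorem bm_comp {Ω : Type} {m : MeasurableSpace Ω} {μ : Measure Ω} {p : Ω → Ω}
    (h : MeasurePreserving p μ μ) {f : Ω → ℂ} (hf : BM μ m f) : BM μ m fun x => f (p x) := by
  obtain ⟨h1, C, hC⟩ := hf
  exact ⟨h1.comp_measurePreserving h, C, h.quasiMeasurePreserving.ae hC⟩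

theorem av_le (ν : Wt) (M : ℕ) (φ : ℤ → ℂ) (c : ℝ) (h : ∀ d, ‖φ d‖ ≤ c) : ‖ν.av M φ‖ ≤ c := by
  refine (norm_sum_le_of_le _ (n := fun d => ν.w M d * c) fun d _ => ?_).trans ?_
  · rw [norm_smul, Real.norm_of_nonneg (ν.nn M d)]
    exact mul_le_mul_of_nonneg_left (h d) (ν.nn M d)
  · rw [← sum_mul, ν.one, one_mul]

theorem av_sub (ν : Wt) (M : ℕ) (φ : ℤ → ℂ) (c : ℂ) :
    (ν.av M fun d => φ d - c) = ν.av M φ - c := by
  simp only [Wt.av, smul_sub, sum_sub_distrib]
  rw [← sum_smul, ν.one, one_smul]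

theorem bm_av {Ω : Type} {m : MeasurableSpace Ω} {μ : Measure Ω} (ν : Wt) (M : ℕ)
    {F : ℤ → Ω → ℂ} (h : ∀ d, AEStronglyMeasurable (F d) μ) {C : ℝ}
    (hC : ∀ d, ∀ᵐ x ∂μ, ‖F d x‖ ≤ C) :
    AEStronglyMeasurable (fun x => ν.av M fun d => F d x) μ ∧
      ∀ᵐ x ∂μ, ‖ν.av M fun d => F d x‖ ≤ C := by
  refine ⟨Finset.aestronglyMeasurable_fun_sum _ fun d _ => (h d).const_smul (ν.w M d), ?_⟩
  filter_upwards [ae_all_iff.2 hC] with x hx
  exact av_le ν M _ _ hx

theorem int_av {Ω : Type} {m : MeasurableSpace Ω} {μ : Measure Ω} (ν : Wt) (M : ℕ)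
    {F : ℤ → Ω → ℂ} (h : ∀ d, Integrable (F d) μ) :
    (ν.av M fun d => ∫ x, F d x ∂μ) = ∫ x, (ν.av M fun d => F d x) ∂μ := by
  simp only [Wt.av]
  refine Eq.trans ?_ (integral_finsetSum (f := fun d z => ν.w M d • F d z) _
    fun d _ => (h d).smul (ν.w M d)).symm
  exact sum_congr rfl fun d _ => (integral_smul _ _).symm

theorem l1_lim {Ω : Type} {m : MeasurableSpace Ω} {μ : Measure Ω} [IsProbabilityMeasure μ]
    {a : ℕ → Ω → ℂ} (ha : ∀ M, BM μ m (a M))
    (h : Tendsto (fun M => ∫ x, ‖a M x‖ ^ 2 ∂μ) atTop (𝓝 0)) :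
    Tendsto (fun M => ∫ x, ‖a M x‖ ∂μ) atTop (𝓝 0) := by
  have l := h.sqrt
  rw [Real.sqrt_zero] at l
  refine squeeze_zero (fun M => integral_nonneg fun x => norm_nonneg _) (fun M => ?_) l
  refine Real.le_sqrt_of_sq_le ?_
  have v := variance_nonneg (fun z => ‖a M z‖) μ
  rw [variance_eq_sub ((ha M).memLp 2).norm] at v
  exact sub_nonneg.1 v

/-- products of two convergent sequences -/
theorem mul_lim {Ω : Type} {m : MeasurableSpace Ω} {μ : Measure Ω} [IsProbabilityMeasure μ]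
    {a b : ℕ → Ω → ℂ} {a0 b0 : Ω → ℂ} {C : ℝ} (ha : ∀ M, BM μ m (a M)) (hb : ∀ M, BM μ m (b M))
    (ha0 : BM μ m a0) (hb0 : BM μ m b0) (hC : ∀ M, ∀ᵐ x ∂μ, ‖b M x‖ ≤ C)
    (h : Tendsto (fun M => ∫ x, ‖a M x - a0 x‖ ^ 2 ∂μ) atTop (𝓝 0))
    (h' : Tendsto (fun M => ∫ x, ‖b M x - b0 x‖ ^ 2 ∂μ) atTop (𝓝 0)) :
    Tendsto (fun M => ∫ x, a M x * b M x ∂μ) atTop (𝓝 (∫ x, a0 x * b0 x ∂μ)) := by
  obtain ⟨-, D, hD⟩ := id ha0
  have l := ((l1_lim (fun M => (ha M).sub ha0) h).mul_const C).add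
    ((l1_lim (fun M => (hb M).sub hb0) h').const_mul D)
  rw [zero_mul, mul_zero, add_zero] at l
  rw [tendsto_iff_norm_sub_tendsto_zero]
  refine squeeze_zero (fun M => norm_nonneg _) (fun M => ?_) l
  have i1 := (((ha M).sub ha0).integrable.norm).mul_const C
  have i2 := (((hb M).sub hb0).integrable.norm).const_mul D
  rw [← integral_sub ((ha M).mul (hb M)).integrable (ha0.mul hb0).integrable,
    ← integral_mul_const, ← integral_const_mul, ← integral_add i1 i2]
  refine norm_integral_le_of_norm_le (i1.add i2) ?_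
  filter_upwards [hC M, hD] with x h1 h2
  have e : a M x * b M x - a0 x * b0 x = (a M x - a0 x) * b M x + a0 x * (b M x - b0 x) := by ring
  rw [e]
  refine (norm_add_le _ _).trans (add_le_add ?_ ?_)
  · rw [norm_mul]
    exact mul_le_mul_of_nonneg_left h1 (norm_nonneg _)
  · rw [norm_mul]
    exact mul_le_mul_of_nonneg_right h2 (norm_nonneg _)

variable [Grp]

theorem zero (b : Bas) (o : One) {ν : Wt} (erg : ERG ν) (X : Sys) (u : Γ) (f : X.X → ℂ)
    (hf : MemLp f 2 X.μ)
    (h : ∀ g : X.X → ℂ, MemLp g 2 X.μ → (fun x => g (X.Tz u x)) =ᵐ[X.μ] g →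
      ∫ x, f x * g x ∂X.μ = 0) :
    Tendsto (fun M => ∫ x, ‖ν.av M fun d => f (X.Tz (d • u) x)‖ ^ 2 ∂X.μ) atTop (𝓝 0) := by
  have l := (o.mix ν erg).zero (X.res u) 1 f hf fun g hg hi => h g hg (by
    rw [b.t.res, one_smul] at hi
    exact hi)
  simp only [b.t.res, one_mul] at l
  exact l

/-- single averages converge to the projection -/
theorem conv (b : Bas) (o : One) {ν : Wt} (erg : ERG ν) (X : Sys) (u : Γ) {f : X.X → ℂ}
    (hf : BM X.μ X.ms f) :
    Tendsto (fun M => ∫ x, ‖(ν.av M fun d => f (X.Tz (d • u) x)) - (X.μ[f | Inv X {u}]) x‖ ^ 2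
      ∂X.μ) atTop (𝓝 0) := by
  have hle := (b.t.finv X {u}).le
  have hP := hf.ce (Inv X {u})
  have hb := hf.sub (hP.mono hle)
  have l := zero b o erg X u (fun x => f x - (X.μ[f | Inv X {u}]) x) (hb.memLp 2) fun g hg hi => by
    have gm : AEStronglyMeasurable[Inv X {u}] g X.μ :=
      (b.t.inv_iff X {u} g hg.1).2 fun h hh => by
        rw [Set.mem_singleton_iff.1 hh]
        exact hi
    have hI : Integrable (fun x => g x * (f x - (X.μ[f | Inv X {u}]) x)) X.μ :=
      hg.integrable_mul (hb.memLp 2)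
    have e : X.μ[fun x => g x * (f x - (X.μ[f | Inv X {u}]) x) | Inv X {u}] =ᵐ[X.μ] fun x =>
        g x * (X.μ[fun x => f x - (X.μ[f | Inv X {u}]) x | Inv X {u}]) x :=
      condExp_bilin_of_aestronglyMeasurable_left (ContinuousLinearMap.mul ℝ ℂ) gm hI hb.integrable
    simp only [mul_comm _ (g _)]
    rw [← integral_condExp hle, integral_congr_ae e]
    refine integral_eq_zero_of_ae ?_
    filter_upwards [(Fib27.perp_sub_ce hle hf).ce hle hb] with x hx
    rw [hx, mul_zero]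
    rfl
  refine l.congr fun M => integral_congr_ae ?_
  have hc : AEStronglyMeasurable[Inv X (AddSubgroup.closure {u} : Set Γ)] (X.μ[f | Inv X {u}])
      X.μ := by
    rw [b.t.inv_cl]
    exact hP.1
  have hi := (b.t.inv_iff X _ _ (hP.mono hle).1).1 hc
  have hd : ∀ d : ℤ, ∀ᵐ x ∂X.μ,
      (X.μ[f | Inv X {u}]) (X.Tz (d • u) x) = (X.μ[f | Inv X {u}]) x := fun d =>
    hi _ (AddSubgroup.zsmul_mem _ (AddSubgroup.subset_closure (Set.mem_singleton u)) d)
  filter_upwards [ae_all_iff.2 hd] with x hx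
  simp only [hx]
  rw [av_sub]

theorem proj (b : Bas) (X : Sys) (v v' : Γ) {f g : X.X → ℂ} (hf : BM X.μ X.ms f)
    (hg : BM X.μ X.ms g) :
    ∫ x, (X.μ[f | Inv X {v}]) x * (X.μ[g | Inv X {v'}]) x ∂X.μ =
      ∫ x, (X.μ[f | Inv X {v, v'}]) x * (X.μ[g | Inv X {v, v'}]) x ∂X.μ := by
  have h1 := (b.t.finv X {v}).le
  have h2 := (b.t.finv X {v'}).le
  have h3 := (b.t.finv X {v, v'}).le
  have h4 : Inv X {v, v'} ≤ Inv X {v'} := b.t.inv_anti X _ _ (Set.subset_insert _ _)
  have e : X.μ[X.μ[f | Inv X {v}] | Inv X {v'}] =ᵐ[X.μ] X.μ[f | Inv X {v, v'}] :=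
    b.t.inv_ce X {v} {v'} f hf
  rw [← Fib27.int_ce_mul h2 ((hf.ce _).mono h1) (hg.ce _),
    Fib27.int_mul_ce h3 (hf.ce _) hg, ← Fib27.int_mul_ce h2 ((hf.ce _).mono h4) hg]
  refine integral_congr_ae ?_
  filter_upwards [e] with x hx
  rw [hx]

/-- two independent labels -/
theorem two (b : Bas) (o : One) {ν : Wt} (erg : ERG ν) (X : Sys) (v v' : Γ) {f g : X.X → ℂ}
    (hf : BM X.μ X.ms f) (hg : BM X.μ X.ms g) :
    Tendsto (fun M => ν.av M fun d => ν.av M fun d' =>
      ∫ x, f (X.Tz (d • v) x) * g (X.Tz (d' • v') x) ∂X.μ) atTop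
      (𝓝 (∫ x, (X.μ[f | Inv X {v, v'}]) x * (X.μ[g | Inv X {v, v'}]) x ∂X.μ)) := by
  have hT : ∀ (n : Γ) {f}, BM X.μ X.ms f → BM X.μ X.ms fun z => f (X.Tz n z) := fun n f hf =>
    bm_comp (X.mp n) hf
  obtain ⟨-, C, hC⟩ := id hf
  obtain ⟨-, D, hD⟩ := id hg
  have A := fun M => bm_av ν M (F := fun d x => f (X.Tz (d • v) x)) (fun d => (hT _ hf).1)
    fun d => (X.mp (d • v)).quasiMeasurePreserving.ae hC
  have B := fun M => bm_av ν M (F := fun d x => g (X.Tz (d • v') x)) (fun d => (hT _ hg).1)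
    fun d => (X.mp (d • v')).quasiMeasurePreserving.ae hD
  have bA : ∀ M, BM X.μ X.ms fun x => ν.av M fun d => f (X.Tz (d • v) x) := fun M =>
    ⟨(A M).1, C, (A M).2⟩
  have bB : ∀ M, BM X.μ X.ms fun x => ν.av M fun d => g (X.Tz (d • v') x) := fun M =>
    ⟨(B M).1, D, (B M).2⟩
  rw [← proj b X v v' hf hg]
  refine (mul_lim bA bB ((hf.ce _).mono (b.t.finv X {v}).le) ((hg.ce _).mono (b.t.finv X {v'}).le)
    (fun M => (B M).2) (conv b o erg X v hf) (conv b o erg X v' hg)).congr fun M => ?_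
  have e1 : ∀ d : ℤ, (ν.av M fun d' => ∫ x, f (X.Tz (d • v) x) * g (X.Tz (d' • v') x) ∂X.μ) =
      ∫ x, f (X.Tz (d • v) x) * (ν.av M fun d' => g (X.Tz (d' • v') x)) ∂X.μ := fun d => by
    rw [int_av ν M fun d' => ((hT _ hf).mul (hT _ hg)).integrable]
    simp only [Wt.av, mul_sum, mul_smul_comm]
  simp only [e1]
  rw [int_av ν M fun d => ((hT _ hf).mul (bB M)).integrable]
  simp only [Wt.av, sum_mul, smul_mul_assoc]

theorem inv0 (b : Bas) (X : Sys) (u : Γ) : Inv X {0, u} = Inv X {u} := by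
  rw [← b.t.inv_cl X {0, u}, AddSubgroup.closure_insert_zero, b.t.inv_cl]

theorem shift (X : Sys) (r r' : Γ) (d d' : ℤ) {f g : X.X → ℂ} (hf : BM X.μ X.ms f)
    (hg : BM X.μ X.ms g) :
    ∫ x, f (X.Tz (d' • (0 : Γ)) x) * g (X.Tz (d • (r' - r)) x) ∂X.μ =
      ∫ x, f (X.Tz (d • r) x) * g (X.Tz (d • r') x) ∂X.μ := by
  rw [← int_comp (X.mp (d • r)) ((bm_comp (X.mp _) hf).mul (bm_comp (X.mp _) hg))]
  simp only [← X.add, smul_zero, zero_add, ← smul_add, sub_add_cancel]

end Met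

variable [Grp]

theorem met : MetR := by
  intro b o X u f hf
  have l := o.met (X.res u) f hf
  simp only [b.t.res, ← b.t.inv_res] at l
  exact l

open Met in
theorem mix : MixR := by
  intro b o ν erg
  refine ⟨zero b o erg, ?_⟩
  rintro X ⟨r, _ | _⟩ ⟨r', _ | _⟩ f g hf hg
  · have l := two b o erg X 0 (r' - r) hf hg
    rw [inv0 b] at l
    simp only [shift X r r' _ _ hf hg] at l
    exact l
  · have l := two b o erg X r' r hg hf
    rw [Set.pair_comm] at l
    simp only [mul_comm (g _), mul_comm ((X.μ[g | _]) _)] at l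
    exact l
  · exact two b o erg X r r' hf hg
  · have l := two b o erg X (r' - r) 0 hg hf
    rw [Set.pair_comm, inv0 b] at l
    simp only [mul_comm (g _), mul_comm ((X.μ[g | _]) _), shift X r r' _ _ hf hg] at l
    exact l

end T4x

end

end PkMet

section PkReal

/-! Realisation of a positive functional on the space of characters. -/

set_option autoImplicit false
set_option linter.unusedVariables false
set_option warn.classDefReducibility false

open MeasureTheory ProbabilityTheory Filter Topology Function Finset ComplexConjugate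
open scoped BigOperators CompactlySupported

noncomputable section

namespace T4x

open T3x

namespace Real0

/-- the two parts of the basic calculus that are used -/
structure B2 : Prop where
  a : BasA
  d : BasD

/-- a positive functional on functions on `S` gives a measure on a compact space -/
lemma rmk {S Y : Type} [TopologicalSpace Y] [T2Space Y] [CompactSpace Y] [MeasurableSpace Y]
    [BorelSpace Y] (ev : S → Y) (P : Submodule ℝ (S → ℝ)) (L : P →ₗ[ℝ] ℝ)
    (hc : ∀ c : ℝ, (fun _ => c) ∈ P) (hp : ∀ u : P, (∀ s, 0 ≤ u.1 s) → 0 ≤ L u) :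
    ∃ ν : Measure Y, IsFiniteMeasure ν ∧ ∀ (g : Y → ℝ), Continuous g →
      ∀ h : (fun s => g (ev s)) ∈ P, ∫ y, g y ∂ν = L ⟨_, h⟩ := by
  let r : C_c(Y, ℝ) →ₗ[ℝ] (S → ℝ) :=
    { toFun := fun g s => g (ev s), map_add' := fun _ _ => rfl, map_smul' := fun _ _ => rfl }
  let f : C_c(Y, ℝ) →ₗ.[ℝ] ℝ :=
    { domain := P.comap r
      toFun := L.comp ((r.domRestrict (P.comap r)).codRestrict P fun x => x.2) }
  let K : PointedCone ℝ C_c(Y, ℝ) :=
    { carrier := {u | ∀ z, 0 ≤ u z}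
      add_mem' := fun {u v} hu hv z => add_nonneg (hu z) (hv z)
      zero_mem' := fun z => le_rfl
      smul_mem' := fun c u hu z => mul_nonneg c.2 (hu z) }
  obtain ⟨g, hg, hg0⟩ := riesz_extension K f
    (fun x hx => hp _ fun s => hx (ev s)) (by
      intro y
      obtain ⟨C, hC⟩ := isCompact_univ.exists_bound_of_continuousOn
        (f := fun z => y z) y.continuous.continuousOn
      refine ⟨⟨⟨⟨fun _ => C, continuous_const⟩, HasCompactSupport.of_compactSpace _⟩, hc C⟩, ?_⟩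
      intro z
      have := (abs_le.1 (hC z trivial)).1
      change (0 : ℝ) ≤ C + y z
      linarith)
  have hg' : ∀ x, 0 ≤ x → 0 ≤ g x := fun x hx =>
    hg0 x fun z => CompactlySupportedContinuousMap.le_def.1 hx z
  refine ⟨RealRMK.rieszMeasure (PositiveLinearMap.mk₀ g hg'), inferInstance, fun u hu h => ?_⟩
  let u' : C_c(Y, ℝ) := ⟨⟨u, hu⟩, HasCompactSupport.of_compactSpace _⟩
  exact (RealRMK.integral_rieszMeasure (PositiveLinearMap.mk₀ g hg') u').trans (hg ⟨u', h⟩)

section Alg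

variable {S : Type} {A : Set (S → ℂ)}

lemma smul_mem (hA : SAlg A) (c : ℂ) {F : S → ℂ} (hF : F ∈ A) : (fun s => c * F s) ∈ A :=
  hA.mul _ (hA.const c) _ hF

lemma sub_mem (hA : SAlg A) {F G : S → ℂ} (hF : F ∈ A) (hG : G ∈ A) :
    (fun s => F s - G s) ∈ A := by
  have h := hA.add _ hF _ (smul_mem hA (-1) hG)
  simpa only [neg_mul, one_mul, ← sub_eq_add_neg] using h

lemma re_mem (hA : SAlg A) {F : S → ℂ} (hF : F ∈ A) : (fun s => ((F s).re : ℂ)) ∈ A := by
  have h := smul_mem hA (1 / 2) (hA.add _ hF _ (hA.cj _ hF))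
  have e : (fun s => ((F s).re : ℂ)) = fun s => 1 / 2 * (F s + conj (F s)) := by
    funext s
    rw [Complex.add_conj]
    push_cast
    ring
  rwa [e]

lemma im_mem (hA : SAlg A) {F : S → ℂ} (hF : F ∈ A) : (fun s => ((F s).im : ℂ)) ∈ A := by
  have h := re_mem hA (smul_mem hA (-Complex.I) hF)
  simpa using h

lemma ch_sub (hA : SAlg A) {χ : (S → ℂ) → ℂ} (hχ : IsChar A χ) {F G : S → ℂ} (hF : F ∈ A)
    (hG : G ∈ A) : χ (fun s => F s - G s) = χ F - χ G := by
  have h := hχ.add _ (sub_mem hA hF hG) _ hG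
  simp only [sub_add_cancel] at h
  exact eq_sub_of_add_eq h.symm

lemma salg_bdd (Ω : Type) [MeasurableSpace Ω] : SAlg (Bdd Ω) where
  const c := ⟨measurable_const, ‖c‖, fun _ => le_rfl⟩
  add := fun F ⟨h, C, hC⟩ G ⟨h', C', hC'⟩ =>
    ⟨h.add h', C + C', fun x => norm_add_le_of_le (hC x) (hC' x)⟩
  mul := fun F ⟨h, C, hC⟩ G ⟨h', C', hC'⟩ =>
    ⟨h.mul h', C * C', fun x => norm_mul_le_of_le (hC x) (hC' x)⟩
  cj := fun F ⟨h, C, hC⟩ =>
    ⟨Complex.continuous_conj.measurable.comp h, C, fun x => by simpa using hC x⟩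
  bdd F h := h.2

lemma bdd_int {Ω : Type} [MeasurableSpace Ω] (μ : Measure Ω) [IsFiniteMeasure μ] {F : Ω → ℂ}
    (h : F ∈ Bdd Ω) : Integrable F μ := by
  obtain ⟨h1, C, hC⟩ := h
  exact Integrable.of_bound h1.aestronglyMeasurable C (Eventually.of_forall hC)

/-- measures are determined by the integrals of a generating algebra -/
lemma uniq (hb : B2) {Ω : Type} [m0 : MeasurableSpace Ω] {T : Set (Ω → ℂ)} (hT : SAlg T)
    (hm : ∀ φ ∈ T, Measurable φ) (hg : m0 ≤ gen T id) (μ ν : Measure Ω) [IsProbabilityMeasure μ]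
    [IsProbabilityMeasure ν] (h : ∀ φ ∈ T, ∫ x, φ x ∂μ = ∫ x, φ x ∂ν) : μ = ν := by
  let ρ : Measure Ω := (2 : ENNReal)⁻¹ • (μ + ν)
  have h2 : (2 : ENNReal)⁻¹ ≠ 0 := by simp
  have : IsProbabilityMeasure ρ := ⟨by
    simp only [ρ, Measure.smul_apply, Measure.add_apply, measure_univ, smul_eq_mul,
      one_add_one_eq_two]
    exact ENNReal.inv_mul_cancel (by simp) (by simp)⟩
  have a1 : μ ≪ ρ := (Measure.absolutelyContinuous_of_le (Measure.le_add_right le_rfl)).trans
    (Measure.absolutelyContinuous_smul h2)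
  have a2 : ν ≪ ρ := (Measure.absolutelyContinuous_of_le (Measure.le_add_left le_rfl)).trans
    (Measure.absolutelyContinuous_smul h2)
  let g : Ω → ℂ := fun x => ((μ.rnDeriv ρ x).toReal : ℂ) - ((ν.rnDeriv ρ x).toReal : ℂ)
  have key : ∀ φ ∈ Bdd Ω, ∫ x, g x * φ x ∂ρ = ∫ x, φ x ∂μ - ∫ x, φ x ∂ν := by
    intro φ hφ
    rw [← integral_rnDeriv_smul a1, ← integral_rnDeriv_smul a2, ← integral_sub
      ((integrable_rnDeriv_smul_iff a1).2 (bdd_int μ hφ))
      ((integrable_rnDeriv_smul_iff a2).2 (bdd_int ν hφ))]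
    simp only [g, Complex.real_smul, sub_mul]
  have gi : Integrable g ρ :=
    Measure.integrable_toReal_rnDeriv.ofReal.sub Measure.integrable_toReal_rnDeriv.ofReal
  have hB : ∀ φ ∈ T, φ ∈ Bdd Ω := fun φ hφ => ⟨hm φ hφ, hT.bdd φ hφ⟩
  have h0 := hb.d.perp ρ T hB ⟨_, hT.const 1, EventuallyEq.rfl⟩
    (fun φ hφ φ' hφ' => ⟨_, hT.mul φ hφ φ' hφ', EventuallyEq.rfl⟩)
    (fun φ hφ => ⟨_, hT.cj φ hφ, EventuallyEq.rfl⟩) g gi
    (fun φ hφ => by rw [key φ (hB φ hφ), h φ hφ, sub_self])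
  have e : gen T id ⊔ nul ρ = m0 := le_antisymm
    (sup_le (iSup₂_le fun φ hφ => (hm φ hφ).comap_le) (hb.a.nul_le ρ)) (hg.trans le_sup_left)
  rw [e] at h0
  have h1 : g =ᵐ[ρ] 0 := (condExp_of_aestronglyMeasurable' le_rfl gi.1 gi).symm.trans h0
  ext s hs
  have h3 := key (s.indicator fun _ => 1) ⟨measurable_const.indicator hs, 1, fun x => by
    by_cases hx : x ∈ s <;> simp [hx]⟩
  have h4 : ∫ x, g x * s.indicator (fun _ => (1 : ℂ)) x ∂ρ = 0 := by
    refine integral_eq_zero_of_ae (h1.mono fun x hx => ?_)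
    simp [hx]
  rw [h4, integral_indicator_const _ hs, integral_indicator_const _ hs, eq_comm, sub_eq_zero] at h3
  simp only [Complex.real_smul, mul_one, Complex.ofReal_inj] at h3
  exact (measureReal_eq_measureReal_iff (measure_ne_top _ _) (measure_ne_top _ _)).1 h3

end Alg

section Sp

variable {S : Type} (A : Set (S → ℂ))

/-- characters that vanish outside the algebra -/
def Gd : Set ((S → ℂ) → ℂ) := {χ | IsChar A χ ∧ ∀ F, F ∉ A → χ F = 0}

lemma closed_gd : IsClosed (Gd A) := by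
  have e : Gd A = {χ | ∀ c : ℂ, χ (fun _ => c) = c} ∩
      ({χ | ∀ F ∈ A, ∀ G ∈ A, χ (fun s => F s + G s) = χ F + χ G} ∩
      ({χ | ∀ F ∈ A, ∀ G ∈ A, χ (fun s => F s * G s) = χ F * χ G} ∩
      ({χ | ∀ F ∈ A, χ (fun s => conj (F s)) = conj (χ F)} ∩
      ({χ | ∀ F ∈ A, ∀ C : ℝ, (∀ s, ‖F s‖ ≤ C) → ‖χ F‖ ≤ C} ∩
      {χ | ∀ F, F ∉ A → χ F = 0})))) := by
    ext χ
    exact ⟨fun h => ⟨h.1.1, h.1.2, h.1.3, h.1.4, h.1.5, h.2⟩,
      fun h => ⟨⟨h.1, h.2.1, h.2.2.1, h.2.2.2.1, h.2.2.2.2.1⟩, h.2.2.2.2.2⟩⟩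
  rw [e]
  simp only [Set.ofPred_forall]
  refine IsClosed.inter ?_ (IsClosed.inter ?_ (IsClosed.inter ?_ (IsClosed.inter ?_
    (IsClosed.inter ?_ ?_))))
  · exact isClosed_iInter fun c => isClosed_eq (continuous_apply _) continuous_const
  · exact isClosed_iInter fun F => isClosed_iInter fun _ => isClosed_iInter fun G =>
      isClosed_iInter fun _ =>
        isClosed_eq (continuous_apply _) ((continuous_apply F).add (continuous_apply G))
  · exact isClosed_iInter fun F => isClosed_iInter fun _ => isClosed_iInter fun G =>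
      isClosed_iInter fun _ =>
        isClosed_eq (continuous_apply _) ((continuous_apply F).mul (continuous_apply G))
  · exact isClosed_iInter fun F => isClosed_iInter fun _ =>
      isClosed_eq (continuous_apply _) (Complex.continuous_conj.comp (continuous_apply F))
  · exact isClosed_iInter fun F => isClosed_iInter fun _ => isClosed_iInter fun C =>
      isClosed_iInter fun _ => isClosed_le (continuous_apply F).norm continuous_const
  · exact isClosed_iInter fun F => isClosed_iInter fun _ =>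
      isClosed_eq (continuous_apply _) continuous_const

variable {A}

lemma compact_gd (hA : SAlg A) : IsCompact (Gd A) := by
  have h : ∀ F : S → ℂ, ∃ C : ℝ, ∀ χ ∈ Gd A, ‖χ F‖ ≤ C := by
    intro F
    by_cases hF : F ∈ A
    · obtain ⟨C, hC⟩ := hA.bdd F hF
      exact ⟨C, fun χ hχ => hχ.1.bdd F hF C hC⟩
    · exact ⟨0, fun χ hχ => by simp [hχ.2 F hF]⟩
  choose C hC using h
  refine (isCompact_univ_pi fun F : S → ℂ =>
    isCompact_closedBall (0 : ℂ) (C F)).of_isClosed_subset (closed_gd A) ?_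
  intro χ hχ F _
  exact mem_closedBall_zero_iff.2 (hC F χ hχ)

/-- the space of characters -/
def Y (A : Set (S → ℂ)) : Type := Gd A

instance : TopologicalSpace (Y A) := inferInstanceAs (TopologicalSpace (Gd A))
instance : T2Space (Y A) := inferInstanceAs (T2Space (Gd A))

def hat (F : S → ℂ) (y : Y A) : ℂ := (show Gd A from y).1 F

lemma hat_ch (y : Y A) : IsChar A fun F => hat F y := (show Gd A from y).2.1

lemma hat_out (y : Y A) {F : S → ℂ} (h : F ∉ A) : hat F y = 0 := (show Gd A from y).2.2 F h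

lemma hat_cont (F : S → ℂ) : Continuous (hat (A := A) F) :=
  (continuous_apply F).comp continuous_subtype_val

lemma Y_ext {y y' : Y A} (h : ∀ F, hat F y = hat F y') : y = y' := Subtype.ext (funext h)

open Classical in
/-- the point of a character -/
def pt (hA : SAlg A) (χ : (S → ℂ) → ℂ) (hχ : IsChar A χ) : Y A :=
  show Gd A from ⟨fun F => if F ∈ A then χ F else 0,
    { const := fun c => by rw [if_pos (hA.const c), hχ.const]
      add := fun F hF G hG => by
        rw [if_pos (hA.add F hF G hG), if_pos hF, if_pos hG, hχ.add F hF G hG]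
      mul := fun F hF G hG => by
        rw [if_pos (hA.mul F hF G hG), if_pos hF, if_pos hG, hχ.mul F hF G hG]
      cj := fun F hF => by rw [if_pos (hA.cj F hF), if_pos hF, hχ.cj F hF]
      bdd := fun F hF C hC => by
        rw [if_pos hF]
        exact hχ.bdd F hF C hC }, fun F hF => if_neg hF⟩

lemma hat_pt (hA : SAlg A) (χ : (S → ℂ) → ℂ) (hχ : IsChar A χ) {F : S → ℂ} (hF : F ∈ A) :
    hat F (pt hA χ hχ) = χ F := if_pos hF

lemma ev_ch (s : S) : IsChar A fun F => F s :=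
  ⟨fun _ => rfl, fun _ _ _ _ => rfl, fun _ _ _ _ => rfl, fun _ _ => rfl, fun _ _ _ h => h s⟩

lemma exists_meas (hA : SAlg A) (Λ : (S → ℂ) → ℂ)
    (h1 : ∀ F ∈ A, ∀ G ∈ A, Λ (fun s => F s + G s) = Λ F + Λ G)
    (h2 : ∀ (c : ℂ), ∀ F ∈ A, Λ (fun s => c * F s) = c * Λ F) (h3 : Λ (fun _ => 1) = 1)
    (h4 : ∀ F ∈ A, (∀ s, 0 ≤ (F s).re ∧ (F s).im = 0) → 0 ≤ (Λ F).re ∧ (Λ F).im = 0) :
    ∃ μ : @Measure (Y A) (gen A hat), IsProbabilityMeasure μ ∧
      ∀ F ∈ A, ∫ y, hat F y ∂μ = Λ F := by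
  let mB : MeasurableSpace (Y A) := borel _
  have : BorelSpace (Y A) := ⟨rfl⟩
  have : CompactSpace (Y A) := isCompact_iff_compactSpace.1 (compact_gd hA)
  let P : Submodule ℝ (S → ℝ) :=
    { carrier := {u | (fun s => (u s : ℂ)) ∈ A}
      add_mem' := fun {u v} hu hv => by simpa using hA.add _ hu _ hv
      zero_mem' := by simpa using hA.const 0
      smul_mem' := fun c u hu => by simpa using smul_mem hA (c : ℂ) hu }
  let L : P →ₗ[ℝ] ℝ :=
    { toFun := fun u => (Λ fun s => (u.1 s : ℂ)).re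
      map_add' := fun u v => by
        rw [← Complex.add_re, ← h1 _ u.2 _ v.2]
        simp
      map_smul' := fun c u => by
        have := h2 (c : ℂ) _ u.2
        simp only [Submodule.coe_smul, Pi.smul_apply, smul_eq_mul, Complex.ofReal_mul, this,
          Complex.re_ofReal_mul, RingHom.id_apply] }
  obtain ⟨ν, hν, hi⟩ := rmk (fun s => pt hA _ (ev_ch s)) P L (fun c => hA.const c)
    (fun u hu => (h4 _ u.2 fun s => ⟨by simpa using hu s, by simp⟩).1)
  have hc : ∀ c : ℂ, Λ (fun _ => c) = c := fun c => by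
    have := h2 c _ (hA.const 1)
    simpa [h3] using this
  have him : ∀ u : S → ℝ, (fun s => (u s : ℂ)) ∈ A → (Λ fun s => (u s : ℂ)).im = 0 := by
    intro u hu
    obtain ⟨C, hC⟩ := hA.bdd _ hu
    have h5 := (h4 _ (hA.add _ hu _ (hA.const C)) fun s => ⟨by
      have := (abs_le.1 (show |u s| ≤ C by simpa using hC s)).1
      simp only [Complex.add_re, Complex.ofReal_re]
      linarith, by simp⟩).2
    rw [h1 _ hu _ (hA.const C), hc] at h5
    simpa using h5
  have hint : ∀ F ∈ A, ∫ y, hat F y ∂ν = Λ F := by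
    intro F hF
    have iF : Integrable (hat (A := A) F) ν :=
      (hat_cont F).integrable_of_hasCompactSupport (HasCompactSupport.of_compactSpace _)
    have e1 : (fun s => (hat F (pt hA _ (ev_ch s))).re) = fun s => (F s).re :=
      funext fun s => by rw [hat_pt hA _ _ hF]
    have e2 : (fun s => (hat F (pt hA _ (ev_ch s))).im) = fun s => (F s).im :=
      funext fun s => by rw [hat_pt hA _ _ hF]
    have r1 := hi (fun y => (hat F y).re) (Complex.continuous_re.comp (hat_cont F))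
      (by rw [e1]; exact re_mem hA hF)
    have r2 := hi (fun y => (hat F y).im) (Complex.continuous_im.comp (hat_cont F))
      (by rw [e2]; exact im_mem hA hF)
    have r1' : ∫ y, (hat F y).re ∂ν = (Λ fun s => ((F s).re : ℂ)).re := by
      rw [r1]
      simp only [L, LinearMap.coe_mk, AddHom.coe_mk, hat_pt hA _ _ hF]
    have r2' : ∫ y, (hat F y).im ∂ν = (Λ fun s => ((F s).im : ℂ)).re := by
      rw [r2]
      simp only [L, LinearMap.coe_mk, AddHom.coe_mk, hat_pt hA _ _ hF]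
    have e3 : Λ F = Λ (fun s => ((F s).re : ℂ)) + Complex.I * Λ fun s => ((F s).im : ℂ) := by
      rw [← h2 _ _ (im_mem hA hF), ← h1 _ (re_mem hA hF) _ (smul_mem hA _ (im_mem hA hF))]
      congr 1
      funext s
      rw [mul_comm, Complex.re_add_im]
    have i1 := him _ (re_mem hA hF)
    have i2 := him _ (im_mem hA hF)
    apply Complex.ext
    · rw [e3, ← RCLike.re_to_complex, ← integral_re iF]
      simp [r1', i2]
    · rw [e3, ← RCLike.im_to_complex, ← integral_im iF]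
      simp [r2', i1]
  have hle : gen A hat ≤ mB := iSup₂_le fun F _ => (hat_cont F).measurable.comap_le
  have : IsProbabilityMeasure ν := ⟨by
    have h5 := hint _ (hA.const 1)
    simp only [(hat_ch _).const, h3, integral_const, Complex.real_smul, mul_one,
      Complex.ofReal_eq_one] at h5
    exact (ENNReal.toReal_eq_one_iff _).1 h5⟩
  refine ⟨ν.trim hle, ⟨?_⟩, fun F hF => ?_⟩
  · rw [trim_measurableSet_eq hle MeasurableSet.univ, measure_univ]
  rw [← integral_trim hle, hint F hF]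
  exact Measurable.stronglyMeasurable (Measurable.of_comap_le (le_iSup₂ (f := fun F (_ : F ∈ A) =>
    MeasurableSpace.comap (hat F) inferInstance) F hF))

instance : MeasurableSpace (Y A) := gen A hat

lemma hat_meas {F : S → ℂ} (hF : F ∈ A) : Measurable (hat (A := A) F) :=
  Measurable.of_comap_le (le_iSup₂ (f := fun F (_ : F ∈ A) =>
    MeasurableSpace.comap (hat F) inferInstance) F hF)

lemma meas_to {Z : Type} [MeasurableSpace Z] {p : Z → Y A}
    (h : ∀ F ∈ A, Measurable fun z => hat F (p z)) : Measurable p := by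
  refine Measurable.of_comap_le ?_
  show MeasurableSpace.comap p (gen A hat) ≤ _
  simp only [gen, MeasurableSpace.comap_iSup, MeasurableSpace.comap_comp]
  exact iSup₂_le fun F hF => (h F hF).comap_le

lemma hat_bdd (hA : SAlg A) {F : S → ℂ} (hF : F ∈ A) : hat F ∈ Bdd (Y A) := by
  obtain ⟨C, hC⟩ := hA.bdd F hF
  exact ⟨hat_meas hF, C, fun y => (hat_ch y).bdd F hF C hC⟩

lemma salg_im (hA : SAlg A) : SAlg (hat (A := A) '' A) where
  const c := ⟨_, hA.const c, funext fun y => (hat_ch y).const c⟩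
  add := by
    rintro _ ⟨F, hF, rfl⟩ _ ⟨G, hG, rfl⟩
    exact ⟨_, hA.add F hF G hG, funext fun y => (hat_ch y).add F hF G hG⟩
  mul := by
    rintro _ ⟨F, hF, rfl⟩ _ ⟨G, hG, rfl⟩
    exact ⟨_, hA.mul F hF G hG, funext fun y => (hat_ch y).mul F hF G hG⟩
  cj := by
    rintro _ ⟨F, hF, rfl⟩
    exact ⟨_, hA.cj F hF, funext fun y => (hat_ch y).cj F hF⟩
  bdd := by
    rintro _ ⟨F, hF, rfl⟩
    exact (hat_bdd hA hF).2

lemma gen_im : (inferInstance : MeasurableSpace (Y A)) ≤ gen (hat (A := A) '' A) id :=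
  iSup₂_le fun F hF => le_iSup₂ (f := fun φ (_ : φ ∈ hat (A := A) '' A) =>
    MeasurableSpace.comap (id φ) inferInstance) (hat F) ⟨F, hF, rfl⟩

lemma mp_of (hb : B2) (hA : SAlg A) {Z : Type} [MeasurableSpace Z] (κ : Measure Z)
    [IsProbabilityMeasure κ] (μ : Measure (Y A)) [IsProbabilityMeasure μ] {p : Z → Y A}
    (h : ∀ F ∈ A, Measurable fun z => hat F (p z))
    (hi : ∀ F ∈ A, ∫ z, hat F (p z) ∂κ = ∫ y, hat F y ∂μ) : MeasurePreserving p κ μ := by
  have hp := meas_to h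
  have := Measure.isProbabilityMeasure_map (μ := κ) hp.aemeasurable
  refine ⟨hp, uniq hb (salg_im hA) ?_ gen_im _ _ ?_⟩
  · rintro _ ⟨F, hF, rfl⟩
    exact hat_meas hF
  · rintro _ ⟨F, hF, rfl⟩
    rw [integral_map hp.aemeasurable (hat_meas hF).aestronglyMeasurable, hi F hF]

/-- composition with a map of the set that has a right inverse -/
def tr (t t' : S → S) (e : ∀ s, t (t' s) = s) (h1 : ∀ F ∈ A, (fun s => F (t s)) ∈ A)
    (h2 : ∀ F ∈ A, (fun s => F (t' s)) ∈ A) (y : Y A) : Y A :=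
  show Gd A from ⟨fun F => hat (fun s => F (t s)) y,
    { const := fun c => (hat_ch y).const c
      add := fun F hF G hG => (hat_ch y).add _ (h1 F hF) _ (h1 G hG)
      mul := fun F hF G hG => (hat_ch y).mul _ (h1 F hF) _ (h1 G hG)
      cj := fun F hF => (hat_ch y).cj _ (h1 F hF)
      bdd := fun F hF C hC => (hat_ch y).bdd _ (h1 F hF) C fun s => hC _ },
    fun F hF => hat_out y fun h => hF (by simpa only [e] using h2 _ h)⟩

lemma hat_tr (t t' : S → S) (e : ∀ s, t (t' s) = s) (h1 : ∀ F ∈ A, (fun s => F (t s)) ∈ A)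
    (h2 : ∀ F ∈ A, (fun s => F (t' s)) ∈ A) (y : Y A) (F : S → ℂ) :
    hat F (tr t t' e h1 h2 y) = hat (fun s => F (t s)) y := rfl

lemma span_le {Ω : Type} {T : Set (Ω → ℂ)} (hT : SAlg T) {φ : Ω → ℂ}
    (h : φ ∈ Submodule.span ℂ T) : φ ∈ T := by
  induction h using Submodule.span_induction with
  | mem x hx => exact hx
  | zero => exact hT.const 0
  | add x y _ _ hx hy => exact hT.add x hx y hy
  | smul c x _ hx => exact smul_mem hT c hx

lemma sq_int {Ω : Type} [MeasurableSpace Ω] (μ : Measure Ω) [IsFiniteMeasure μ] {F : Ω → ℂ}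
    (h : F ∈ Bdd Ω) : Integrable (fun x => ‖F x‖ ^ 2) μ := by
  obtain ⟨h1, C, hC⟩ := h
  refine Integrable.of_bound (h1.norm.pow_const 2).aestronglyMeasurable (C ^ 2)
    (Eventually.of_forall fun x => ?_)
  rw [norm_pow, norm_norm]
  exact pow_le_pow_left₀ (norm_nonneg _) (hC x) 2

lemma nice (hb : B2) (hA : SAlg A) (μ : Measure (Y A)) [IsProbabilityMeasure μ]
    (Z : Type) [MeasurableSpace Z] (κ : Measure Z) [IsProbabilityMeasure κ]
    (φ : (Y A → ℂ) → Z → ℂ) (h1 : ∀ z, IsChar (Bdd (Y A)) fun F => φ F z)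
    (h2 : ∀ F ∈ Bdd (Y A), Measurable (φ F))
    (h3 : ∀ F ∈ Bdd (Y A), ∫ z, φ F z ∂κ = ∫ x, F x ∂μ) :
    ∃ p : Z → Y A, MeasurePreserving p κ μ ∧
      ∀ F ∈ Bdd (Y A), (fun z => F (p z)) =ᵐ[κ] φ F := by
  have hc : ∀ z, IsChar A fun F => φ (hat F) z := fun z =>
    { const := fun c => by
        rw [show hat (A := A) (fun _ => c) = fun _ => c from funext fun y => (hat_ch y).const c]
        exact (h1 z).const c
      add := fun F hF G hG => by
        rw [show hat (A := A) (fun s => F s + G s) = fun y => hat F y + hat G y from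
          funext fun y => (hat_ch y).add F hF G hG]
        exact (h1 z).add _ (hat_bdd hA hF) _ (hat_bdd hA hG)
      mul := fun F hF G hG => by
        rw [show hat (A := A) (fun s => F s * G s) = fun y => hat F y * hat G y from
          funext fun y => (hat_ch y).mul F hF G hG]
        exact (h1 z).mul _ (hat_bdd hA hF) _ (hat_bdd hA hG)
      cj := fun F hF => by
        rw [show hat (A := A) (fun s => conj (F s)) = fun y => conj (hat F y) from
          funext fun y => (hat_ch y).cj F hF]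
        exact (h1 z).cj _ (hat_bdd hA hF)
      bdd := fun F hF C hC => (h1 z).bdd _ (hat_bdd hA hF) C fun y => (hat_ch y).bdd F hF C hC }
  let p : Z → Y A := fun z => pt hA _ (hc z)
  have hp : ∀ F ∈ A, (fun z => hat F (p z)) = φ (hat F) :=
    fun F hF => funext fun z => hat_pt hA _ (hc z) hF
  have mp : MeasurePreserving p κ μ := mp_of hb hA κ μ
    (fun F hF => by rw [hp F hF]; exact h2 _ (hat_bdd hA hF))
    (fun F hF => by rw [hp F hF]; exact h3 _ (hat_bdd hA hF))
  refine ⟨p, mp, fun F hF => ?_⟩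
  have bφ : ∀ G ∈ Bdd (Y A), φ G ∈ Bdd Z := fun G hG => by
    obtain ⟨C, hC⟩ := hG.2
    exact ⟨h2 G hG, C, fun z => (h1 z).bdd G hG C hC⟩
  have bp : ∀ G ∈ Bdd (Y A), (fun z => G (p z)) ∈ Bdd Z := fun G hG => by
    obtain ⟨C, hC⟩ := hG.2
    exact ⟨hG.1.comp mp.measurable, C, fun z => hC _⟩
  have hZ := salg_bdd Z
  have hY := salg_bdd (Y A)
  have hD := sub_mem hZ (bp F hF) (bφ F hF)
  have key : ∀ ε : ℝ, 0 < ε → ∫ z, ‖F (p z) - φ F z‖ ^ 2 ∂κ ≤ 4 * ε := by
    intro ε hε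
    obtain ⟨C, hC⟩ := hF.2
    obtain ⟨G, hG, hGe⟩ := hb.d.apx μ (hat '' A) (by
        rintro _ ⟨F, hF, rfl⟩
        exact hat_bdd hA hF) ⟨_, (salg_im hA).const 1, EventuallyEq.rfl⟩
      (fun a ha b hb => ⟨_, (salg_im hA).mul a ha b hb, EventuallyEq.rfl⟩)
      (fun a ha => ⟨_, (salg_im hA).cj a ha, EventuallyEq.rfl⟩) F
      (MemLp.of_bound hF.1.aestronglyMeasurable C (Eventually.of_forall hC))
      (hF.1.aestronglyMeasurable.mono (gen_im.trans le_sup_left)) ε hε
    obtain ⟨G0, hG0, rfl⟩ := span_le (salg_im hA) hG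
    have hG := hat_bdd hA hG0
    have hd := sub_mem hY hF hG
    have e1 : ∫ z, ‖F (p z) - hat G0 (p z)‖ ^ 2 ∂κ = ∫ y, ‖F y - hat G0 y‖ ^ 2 ∂μ := by
      conv_rhs => rw [← mp.map_eq]
      rw [integral_map mp.measurable.aemeasurable (hd.1.norm.pow_const 2).aestronglyMeasurable]
    have e2 : ∫ z, ‖φ F z - φ (hat G0) z‖ ^ 2 ∂κ = ∫ y, ‖F y - hat G0 y‖ ^ 2 ∂μ := by
      have h5 := h3 _ (hY.mul _ hd _ (hY.cj _ hd))
      have h6 : ∀ z, φ (fun y => (F y - hat G0 y) * conj (F y - hat G0 y)) z =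
          ((‖φ F z - φ (hat G0) z‖ ^ 2 : ℝ) : ℂ) := fun z => by
        rw [(h1 z).mul _ hd _ (hY.cj _ hd), (h1 z).cj _ hd, ch_sub hY (h1 z) hF hG,
          Complex.mul_conj, Complex.normSq_eq_norm_sq]
      simp only [h6] at h5
      simp only [Complex.mul_conj, Complex.normSq_eq_norm_sq] at h5
      rw [integral_complex_ofReal, integral_complex_ofReal] at h5
      exact_mod_cast h5
    have i1 := sq_int κ (sub_mem hZ (bp F hF) (bp _ hG))
    have i2 := sq_int κ (sub_mem hZ (bφ F hF) (bφ _ hG))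
    calc _ ≤ ∫ z, (2 * ‖F (p z) - hat G0 (p z)‖ ^ 2 + 2 * ‖φ F z - φ (hat G0) z‖ ^ 2) ∂κ := by
          refine integral_mono (sq_int κ hD) ((i1.const_mul 2).add (i2.const_mul 2)) fun z => ?_
          have e : F (p z) - φ F z = (F (p z) - hat G0 (p z)) - (φ F z - φ (hat G0) z) := by
            rw [← congrFun (hp G0 hG0) z]
            ring
          have h7 := norm_sub_le (F (p z) - hat G0 (p z)) (φ F z - φ (hat G0) z)
          rw [← e] at h7
          have h8 := pow_le_pow_left₀ (norm_nonneg _) h7 2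
          nlinarith [sq_nonneg (‖F (p z) - hat G0 (p z)‖ - ‖φ F z - φ (hat G0) z‖)]
      _ ≤ 4 * ε := by
          rw [integral_add (i1.const_mul 2) (i2.const_mul 2), integral_const_mul,
            integral_const_mul, e1, e2]
          linarith
  have h0 : ∫ z, ‖F (p z) - φ F z‖ ^ 2 ∂κ = 0 := by
    refine le_antisymm (le_of_forall_pos_le_add fun ε hε => ?_)
      (integral_nonneg fun z => sq_nonneg _)
    have := key (ε / 4) (by positivity)
    linarith
  rw [integral_eq_zero_iff_of_nonneg (fun z => sq_nonneg _) (sq_int κ hD)] at h0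
  filter_upwards [h0] with z hz
  simpa [sub_eq_zero] using hz

end Sp

end Real0

variable [Grp]

open Real0 in
theorem real : RealR := by
  intro hb0 S A Λ t hA h1 h2 h3 h4 h0 hadd h5 h7
  have hb : B2 := ⟨hb0.a, hb0.d⟩
  obtain ⟨μ, hμ, hi⟩ := exists_meas hA Λ h1 h2 h3 h4
  have e : ∀ n s, t n (t (-n) s) = s := fun n s => by rw [← hadd, add_neg_cancel, h0]
  let T : Γ → Y A → Y A := fun n => tr (t n) (t (-n)) (e n) (h5 n) (h5 (-n))
  have hT : ∀ n y F, hat F (T n y) = hat (fun s => F (t n s)) y := fun n y F => rfl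
  have mp : ∀ n, MeasurePreserving (T n) μ μ := fun n => mp_of hb hA μ μ
    (fun F hF => hat_meas (h5 n F hF))
    (fun F hF => (hi _ (h5 n F hF)).trans ((h7 n F hF).trans (hi F hF).symm))
  have z : ∀ y, T 0 y = y := fun y => Y_ext fun F => by simp only [hT, h0]
  have ad : ∀ n m y, T (n + m) y = T n (T m y) := fun n m y => Y_ext fun F => by
    simp only [hT, hadd]
  refine ⟨{ X := Y A, μ := μ, Tz := T, mp := mp, zero := z, add := ad }, hat, ?_, hat_ch, ?_, rfl,
    hi, fun n F hF w => rfl⟩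
  · intro Z _ κ _ φ a1 a2 a3
    exact nice hb hA μ Z κ φ a1 a2 a3
  · exact fun χ hχ => ⟨pt hA χ hχ, fun F hF => hat_pt hA χ hχ hF⟩

end T4x

end

end PkReal

section PkKf

/-! Row Kf: weak mixing in one direction, read off from the system of one map. -/

set_option autoImplicit false
set_option linter.unusedVariables false
set_option warn.classDefReducibility false

open MeasureTheory ProbabilityTheory Filter Topology Function Finset ComplexConjugate
open scoped BigOperators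
open Fib27 (BM sup pr Oc Orow F23 LInd Mem)

noncomputable section

namespace T4x

open T3x

variable [Grp]

namespace Kf

theorem wm_res (b : BasT) (X : Sys) (u : Γ) (C : MeasurableSpace X.X) (f : X.X → ℂ) :
    WM X u C f ↔ T3x.WM (X.res u) C f := by
  unfold WM T3x.WM
  simp only [b.res]
  rfl

theorem kk_res (b : BasT) (X : Sys) (u : Γ) (C : MeasurableSpace X.X) :
    KK X u C = T3x.KK (X.res u) C := by
  unfold KK T3x.KK
  simp only [wm_res b]
  rfl

theorem fac_res (b : BasT) (X : Sys) (u : Γ) {C : MeasurableSpace X.X} (h : Fac X C) :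
    T3x.Fac (X.res u) C :=
  ⟨h.le, h.nl, by rw [b.res]; exact h.inv _, by rw [b.res]; exact h.inv _⟩

theorem pair_res {X Z : Sys} (u : Γ) {C : MeasurableSpace X.X} {p : Bool → Z.X → X.X}
    (h : Pair X C Z p) : T3x.Pair (X.res u) C (Z.res u) p :=
  ⟨h.nice, fun i => ⟨(h.emb i).mp, (h.emb i).eqv u⟩, h.com, h.ind, h.gn⟩

omit [Grp] in
theorem int_comp {Ω E : Type} [NormedAddCommGroup E] [NormedSpace ℝ E] {m : MeasurableSpace Ω}
    {μ : Measure Ω} {p : Ω → Ω} (h : MeasurePreserving p μ μ) {f : Ω → E}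
    (hf : AEStronglyMeasurable f μ) : ∫ x, f (p x) ∂μ = ∫ y, f y ∂μ := by
  conv_rhs => rw [← h.map_eq]
  rw [integral_map h.measurable.aemeasurable (by rw [h.map_eq]; exact hf)]

/-- weak mixing is kept by the action -/
theorem wm_shift (b : BasT) (X : Sys) (u n : Γ) {C : MeasurableSpace X.X} (hC : Fac X C)
    {f : X.X → ℂ} (hf : WM X u C f) : WM X u C fun x => f (X.Tz n x) := by
  refine ⟨hf.1.comp_measurePreserving (X.mp n), fun g hg => ?_⟩
  have hg' : BM X.μ X.ms fun x => g (X.Tz (-n) x) := b.bm X X.ms (-n) g (b.top X) hg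
  refine (hf.2 _ hg').congr fun N => ?_
  congr 1
  refine sum_congr rfl fun k _ => ?_
  have hi : Integrable (fun y => f (X.Tz ((k : ℤ) • u) y) * g (X.Tz (-n) y)) X.μ :=
    (hf.1.comp_measurePreserving (X.mp ((k : ℤ) • u))).integrable_mul (hg'.memLp 2)
  have e := b.ce X C n _ hC hi
  have e1 : (fun x => f (X.Tz ((k : ℤ) • u) (X.Tz n x)) * g (X.Tz (-n) (X.Tz n x))) =
      fun y => f (X.Tz n (X.Tz ((k : ℤ) • u) y)) * g y := by
    funext y
    rw [← X.add (-n) n, neg_add_cancel, X.zero, ← X.add, ← X.add, add_comm]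
  rw [e1] at e
  rw [← int_comp (X.mp n) (f := fun x =>
    ‖(X.μ[fun y => f (X.Tz ((k : ℤ) • u) y) * g (X.Tz (-n) y) | C]) x‖)
    integrable_condExp.aestronglyMeasurable.norm]
  exact integral_congr_ae (e.mono fun x hx => by simp only [hx])

theorem bdd_shift (X : Sys) (n : Γ) {g : X.X → ℂ} (hg : g ∈ Bdd X.X) :
    (fun x => g (X.Tz n x)) ∈ Bdd X.X := by
  obtain ⟨hm, K, hK⟩ := hg
  exact ⟨hm.comp (X.mp n).measurable, K, fun x => hK _⟩

theorem kk_inv (b : BasT) (X : Sys) (u n : Γ) {C : MeasurableSpace X.X} (hC : Fac X C) :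
    (KK X u C).comap (X.Tz n) ≤ KK X u C := by
  unfold KK
  rw [MeasurableSpace.comap_sup]
  refine sup_le_sup ?_ ((b.bot X).inv n)
  unfold gen
  simp only [MeasurableSpace.comap_iSup, MeasurableSpace.comap_comp]
  refine iSup₂_le fun g hg => ?_
  obtain ⟨⟨hm, K, hK⟩, h0⟩ := hg
  refine le_iSup₂_of_le (fun x => g (X.Tz n x))
    ⟨bdd_shift X n ⟨hm, K, hK⟩, fun f hf => ?_⟩ le_rfl
  have h1 := h0 _ (wm_shift b X u (-n) hC hf)
  have h2 : AEStronglyMeasurable[X.ms] (fun x => f (X.Tz (-n) x) * g x) X.μ :=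
    (hf.1.1.comp_measurePreserving (X.mp (-n))).mul hm.aestronglyMeasurable
  rw [← int_comp (X.mp n) h2] at h1
  refine Eq.trans (integral_congr_ae (ae_of_all _ fun x => ?_)) h1
  simp only [← X.add, neg_add_cancel, X.zero]

end Kf

open Kf

theorem kfA : KfAR := by
  intro b o
  refine ⟨fun X u C Z p hC hp f hf => ?_, fun X C Z p hC hp H g hH hg => ?_,
    fun X u C Z p hX hC hp f H g k hf hH hg hk hs => ?_, fun X u C hX hC f hf h => ?_⟩
  · rw [wm_res b.t, b.t.inv_res]
    exact o.ka.wm_iff (X.res u) C (Z.res u) p (fac_res b.t X u hC) (pair_res u hp) f hf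
  · exact o.ka.star (X.res 0) C (Z.res 0) p (fac_res b.t X 0 hC) (pair_res 0 hp) H g hH hg
  · rw [wm_res b.t] at hf ⊢
    rw [b.t.inv_res] at hH
    exact o.ka.mul (X.res u) C (Z.res u) p hX (fac_res b.t X u hC) (pair_res u hp) f H g k hf hH
      hg hk hs
  · rw [wm_res b.t]
    refine o.ka.weak (X.res u) C hX (fac_res b.t X u hC) f hf fun ε hε => ?_
    simp only [b.t.res]
    exact h ε hε

theorem kfB : KfBR := by
  intro b o
  refine ⟨fun X u C hX hC => ?_, fun X u C hX hC => ?_, fun X u C hX hC => ?_,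
    fun X u C C' hX hC hC' h => ?_, fun X u C hX hC f hf => ?_, fun X u C hX hC g hg h => ?_,
    fun X u C Z p hX hC hp k hk ε hε => ?_, fun X u C hX hC f hf h => ?_⟩
  · have h := o.kb.fac (X.res u) C hX (fac_res b.t X u hC)
    rw [← kk_res b.t] at h
    exact ⟨h.le, h.nl, fun n => kk_inv b.t X u n hC⟩
  · rw [kk_res b.t]
    exact o.kb.le (X.res u) C hX (fac_res b.t X u hC)
  · rw [kk_res b.t, b.t.inv_res]
    exact o.kb.inv (X.res u) C hX (fac_res b.t X u hC)
  · rw [kk_res b.t, kk_res b.t]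
    exact o.kb.mono (X.res u) C C' hX (fac_res b.t X u hC) (fac_res b.t X u hC') h
  · rw [kk_res b.t, wm_res b.t]
    exact o.kb.wm (X.res u) C hX (fac_res b.t X u hC) f hf
  · rw [kk_res b.t]
    exact o.kb.mem (X.res u) C hX (fac_res b.t X u hC) g hg fun f hf =>
      h f ((wm_res b.t X u C f).2 hf)
  · rw [kk_res b.t] at hk
    rw [b.t.inv_res]
    exact o.kb.span (X.res u) C (Z.res u) p hX (fac_res b.t X u hC) (pair_res u hp) k hk ε hε
  · rw [wm_res b.t]
    refine o.kb.lin (X.res u) C hX (fac_res b.t X u hC) f hf fun ε hε => ?_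
    obtain ⟨n, a, ha, h'⟩ := h ε hε
    exact ⟨n, a, fun i => (wm_res b.t X u C _).1 (ha i), h'⟩

end T4x

end

end PkKf
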