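import Pool.Agent.MP_154433_an.t4.Spec

/-! Rows for commuting maps, part A2. -/

section PkLim

/-! Rows `Nice0` and `Lim` for commuting maps: nice models and inverse limits. -/

set_option autoImplicit false
set_option linter.unusedVariables false
set_option warn.classDefReducibility false

open MeasureTheory ProbabilityTheory Filter Topology Function Finset ComplexConjugate
open scoped BigOperators

noncomputable section

namespace T4x

open T3x

variable [Grp]

namespace LimRow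

theorem int_bdd {Ω : Type} [MeasurableSpace Ω] (μ : Measure Ω) [IsFiniteMeasure μ] {f : Ω → ℂ}
    (hf : Measurable f) {C : ℝ} (hC : ∀ x, ‖f x‖ ≤ C) : Integrable f μ :=
  Integrable.of_bound hf.aestronglyMeasurable C (Eventually.of_forall hC)

theorem int_pos {Ω : Type} [MeasurableSpace Ω] (μ : Measure Ω) {f : Ω → ℂ}
    (hf : Integrable f μ) (h : ∀ x, 0 ≤ (f x).re ∧ (f x).im = 0) :
    0 ≤ (∫ x, f x ∂μ).re ∧ (∫ x, f x ∂μ).im = 0 := by
  have h1 := integral_re hf
  have h2 := integral_im hf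
  simp only [RCLike.re_to_complex, RCLike.im_to_complex] at h1 h2
  refine ⟨?_, ?_⟩
  · rw [← h1]; exact integral_nonneg fun x => (h x).1
  · rw [← h2]; simp [fun x => (h x).2]

theorem salg_bdd (Ω : Type) [MeasurableSpace Ω] : SAlg (Bdd Ω) where
  const c := ⟨measurable_const, ‖c‖, fun _ => le_rfl⟩
  add := by
    rintro F ⟨hF, C, hC⟩ G ⟨hG, D, hD⟩
    exact ⟨hF.add hG, C + D, fun x => (norm_add_le _ _).trans (add_le_add (hC x) (hD x))⟩
  mul := by
    rintro F ⟨hF, C, hC⟩ G ⟨hG, D, hD⟩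
    refine ⟨hF.mul hG, C * D, fun x => ?_⟩
    rw [norm_mul]
    exact mul_le_mul (hC x) (hD x) (norm_nonneg _) ((norm_nonneg _).trans (hC x))
  cj := by
    rintro F ⟨hF, C, hC⟩
    exact ⟨Complex.continuous_conj.measurable.comp hF, C, fun x => by simpa using hC x⟩
  bdd F hF := hF.2

theorem hat_meas {S : Type} {A : Set (S → ℂ)} {Λ : (S → ℂ) → ℂ} {t : Γ → S → S} {W : Sys}
    {hat : (S → ℂ) → W.X → ℂ} (R : Realz A Λ t W hat) {F : S → ℂ} (hF : F ∈ A) :
    Measurable (hat F) := by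
  have h : MeasurableSpace.comap (hat F) inferInstance ≤ W.ms := by
    rw [R.gn]
    exact le_iSup₂_of_le (f := fun F (_ : F ∈ A) =>
      MeasurableSpace.comap (hat F) (inferInstance : MeasurableSpace ℂ)) F hF le_rfl
  exact Measurable.of_comap_le h

/-- functions at distance zero have the same transform -/
theorem hat_congr {S : Type} {A : Set (S → ℂ)} {Λ : (S → ℂ) → ℂ} {t : Γ → S → S} {W : Sys}
    {hat : (S → ℂ) → W.X → ℂ} (hA : SAlg A) (R : Realz A Λ t W hat) {F G : S → ℂ} (hF : F ∈ A)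
    (hG : G ∈ A)
    (h0 : Λ (fun s => (F s + (-1) * G s) * conj (F s + (-1) * G s)) = 0) :
    hat F =ᵐ[W.μ] hat G := by
  have hm : (fun s => (-1) * G s) ∈ A := hA.mul _ (hA.const (-1)) _ hG
  have hd : (fun s => F s + (-1) * G s) ∈ A := hA.add _ hF _ hm
  have hc := hA.cj _ hd
  have hH := hA.mul _ hd _ hc
  have e1 : ∀ w, hat (fun s => F s + (-1) * G s) w = hat F w - hat G w := by
    intro w
    have a1 := (R.ch w).add _ hF _ hm
    have a2 := (R.ch w).mul _ (hA.const (-1)) _ hG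
    have a3 := (R.ch w).const (-1)
    rw [a1, a2, a3]; ring
  have e2 : ∀ w, hat (fun s => (F s + (-1) * G s) * conj (F s + (-1) * G s)) w =
      ((‖hat F w - hat G w‖ ^ 2 : ℝ) : ℂ) := by
    intro w
    have a1 := (R.ch w).mul _ hd _ hc
    have a2 := (R.ch w).cj _ hd
    rw [a1, a2, e1, Complex.mul_conj, Complex.normSq_eq_norm_sq]
  have hI := R.int _ hH
  rw [h0] at hI
  simp only [e2] at hI
  rw [integral_complex_ofReal] at hI
  have hI' : ∫ w, ‖hat F w - hat G w‖ ^ 2 ∂W.μ = 0 := by exact_mod_cast hI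
  obtain ⟨C, hC⟩ := hA.bdd _ hd
  have hb : ∀ w, ‖hat F w - hat G w‖ ≤ C := fun w => by
    rw [← e1]; exact (R.ch w).bdd _ hd C hC
  have hmeas : Measurable fun w => ‖hat F w - hat G w‖ ^ 2 :=
    (((hat_meas R hF).sub (hat_meas R hG)).norm).pow_const 2
  have hint : Integrable (fun w => ‖hat F w - hat G w‖ ^ 2) W.μ :=
    Integrable.of_bound hmeas.aestronglyMeasurable (C ^ 2) (Eventually.of_forall fun w => by
      rw [Real.norm_eq_abs, abs_of_nonneg (by positivity)]
      exact pow_le_pow_left₀ (norm_nonneg _) (hb w) 2)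
  have := (integral_eq_zero_iff_of_nonneg (fun w => by positivity) hint).1 hI'
  filter_upwards [this] with w hw
  have : ‖hat F w - hat G w‖ = 0 := by simpa using hw
  exact sub_eq_zero.1 (norm_eq_zero.1 this)

/-- two probability measures that agree on a generating algebra are equal -/
theorem meas_ext (b : Bas) {Ω : Type} {m0 : MeasurableSpace Ω} (ν1 ν2 : Measure Ω)
    [IsProbabilityMeasure ν1] [IsProbabilityMeasure ν2] (T : Set (Ω → ℂ))
    (hb : ∀ φ ∈ T, φ ∈ Bdd Ω) (h1 : (fun _ => 1) ∈ T)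
    (hm : ∀ φ ∈ T, ∀ φ' ∈ T, (fun x => φ x * φ' x) ∈ T)
    (hc : ∀ φ ∈ T, (fun x => conj (φ x)) ∈ T) (hg : m0 ≤ gen T id)
    (h : ∀ φ ∈ T, ∫ x, φ x ∂ν1 = ∫ x, φ x ∂ν2) : ν1 = ν2 := by
  set κ : Measure Ω := (2⁻¹ : ENNReal) • (ν1 + ν2) with hκ
  have : IsProbabilityMeasure κ := ⟨by
    simp only [hκ, Measure.smul_apply, Measure.add_apply, measure_univ, smul_eq_mul]
    rw [one_add_one_eq_two, ENNReal.inv_mul_cancel (by simp) (by simp)]⟩
  have hs : ν1 + ν2 ≪ κ := Measure.absolutelyContinuous_smul (by simp)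
  have a1 : ν1 ≪ κ := (Measure.absolutelyContinuous_of_le (Measure.le_add_right le_rfl)).trans hs
  have a2 : ν2 ≪ κ := (Measure.absolutelyContinuous_of_le (Measure.le_add_left le_rfl)).trans hs
  have i1 : Integrable (fun x => (((ν1.rnDeriv κ x).toReal : ℝ) : ℂ)) κ :=
    (Measure.integrable_toReal_rnDeriv (μ := ν1) (ν := κ)).ofReal
  have i2 : Integrable (fun x => (((ν2.rnDeriv κ x).toReal : ℝ) : ℂ)) κ :=
    (Measure.integrable_toReal_rnDeriv (μ := ν2) (ν := κ)).ofReal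
  have hz := b.d.perp κ T hb ⟨_, h1, EventuallyEq.rfl⟩
    (fun φ hφ φ' hφ' => ⟨_, hm φ hφ φ' hφ', EventuallyEq.rfl⟩)
    (fun φ hφ => ⟨_, hc φ hφ, EventuallyEq.rfl⟩)
    (fun x => (((ν1.rnDeriv κ x).toReal : ℝ) : ℂ) - (((ν2.rnDeriv κ x).toReal : ℝ) : ℂ))
    (i1.sub i2) (by
      intro φ hφ
      obtain ⟨hφm, C, hC⟩ := hb φ hφ
      have j1 := i1.mul_bdd hφm.aestronglyMeasurable (Eventually.of_forall hC)
      have j2 := i2.mul_bdd hφm.aestronglyMeasurable (Eventually.of_forall hC)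
      simp only [sub_mul]
      rw [integral_sub j1 j2]
      have k1 := integral_rnDeriv_smul (f := φ) a1
      have k2 := integral_rnDeriv_smul (f := φ) a2
      simp only [Complex.real_smul] at k1 k2
      rw [k1, k2, h φ hφ, sub_self])
  have hle : gen T id ⊔ nul κ = m0 := by
    refine le_antisymm (sup_le ?_ (b.a.nul_le κ)) (hg.trans le_sup_left)
    refine iSup₂_le fun φ hφ => ?_
    exact (hb φ hφ).1.comap_le
  rw [hle] at hz
  have hself := condExp_of_aestronglyMeasurable' (m := m0) (μ := κ) le_rfl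
    (i1.sub i2).aestronglyMeasurable (i1.sub i2)
  have hd : ν1.rnDeriv κ =ᵐ[κ] ν2.rnDeriv κ := by
    filter_upwards [hz, hself, Measure.rnDeriv_lt_top ν1 κ, Measure.rnDeriv_lt_top ν2 κ] with
      x h1 h2 h3 h4
    have h5 : (((ν1.rnDeriv κ x).toReal : ℝ) : ℂ) - (((ν2.rnDeriv κ x).toReal : ℝ) : ℂ) = 0 :=
      h2.symm.trans h1
    have h6 : (ν1.rnDeriv κ x).toReal = (ν2.rnDeriv κ x).toReal := by
      exact_mod_cast sub_eq_zero.1 h5
    exact (ENNReal.toReal_eq_toReal_iff' h3.ne h4.ne).1 h6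
  rw [← Measure.withDensity_rnDeriv_eq _ _ a1, ← Measure.withDensity_rnDeriv_eq _ _ a2,
    withDensity_congr_ae hd]

/-- maps that agree on the generating functions pull back the same sets -/
theorem keq_gen {S Ω Ω' : Type} {m0 : MeasurableSpace Ω} (μ : Measure Ω) (A : Set (S → ℂ))
    (hat : (S → ℂ) → Ω' → ℂ) (p p' : Ω → Ω') (h : ∀ F ∈ A, ∀ x, hat F (p x) = hat F (p' x)) :
    KEq μ (gen A hat) p p' := by
  let M : MeasurableSpace Ω' :=
    { MeasurableSet' := fun B => p ⁻¹' B = p' ⁻¹' B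
      measurableSet_empty := rfl
      measurableSet_compl := fun B hB => by simp only [Set.preimage_compl, hB]
      measurableSet_iUnion := fun f hf => by simp only [Set.preimage_iUnion, hf] }
  have hle : gen A hat ≤ M := by
    refine iSup₂_le fun F hF => ?_
    rintro B ⟨s, -, rfl⟩
    show p ⁻¹' (hat F ⁻¹' s) = p' ⁻¹' (hat F ⁻¹' s)
    ext x
    simp only [Set.mem_preimage, h F hF x]
  intro B hB
  have : p ⁻¹' B = p' ⁻¹' B := hle B hB
  rw [this]

end LimRow

open LimRow in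
theorem nice0 : Nice0R := by
  intro b hR X
  obtain ⟨W, hat, R⟩ := hR X.X (Bdd X.X) (fun F => ∫ x, F x ∂X.μ) X.Tz (salg_bdd _)
    (by
      rintro F ⟨hF, C, hC⟩ G ⟨hG, D, hD⟩
      exact integral_add (int_bdd _ hF hC) (int_bdd _ hG hD))
    (fun c F _ => integral_const_mul c F) (by simp)
    (by
      rintro F ⟨hF, C, hC⟩ h
      exact int_pos _ (int_bdd _ hF hC) h)
    X.zero X.add
    (by
      rintro n F ⟨hF, C, hC⟩
      exact ⟨hF.comp (X.mp n).measurable, C, fun x => hC _⟩)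
    (fun n F _ => (show MeasurePreserving (X.eq n) X.μ X.μ from X.mp n).integral_comp' F)
  have hx : ∀ x : X.X, ∃ w, ∀ F ∈ Bdd X.X, hat F w = F x := fun x =>
    R.all (fun F => F x) ⟨fun _ => rfl, fun _ _ _ _ => rfl, fun _ _ _ _ => rfl, fun _ _ => rfl,
      fun _ _ C hC => hC x⟩
  choose e he using hx
  have hem : Measurable e := by
    refine Measurable.of_comap_le ?_
    rw [R.gn]
    unfold gen
    simp only [MeasurableSpace.comap_iSup, MeasurableSpace.comap_comp]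
    refine iSup₂_le fun F hF => ?_
    have : hat F ∘ e = F := funext fun x => he x F hF
    rw [this]
    exact hF.1.comap_le
  have hbd : ∀ F ∈ Bdd X.X, hat F ∈ Bdd W.X := fun F hF => by
    obtain ⟨C, hC⟩ := hF.2
    exact ⟨hat_meas R hF, C, fun w => (R.ch w).bdd F hF C hC⟩
  have sa := salg_bdd X.X
  refine ⟨W, e, R.nice, ⟨⟨hem, ?_⟩, ?_⟩, fun f hf => ⟨hat f, hbd f hf, fun x => he x f hf⟩⟩
  · have := Measure.isProbabilityMeasure_map (μ := X.μ) hem.aemeasurable
    refine meas_ext b _ _ (hat '' Bdd X.X) ?_ ?_ ?_ ?_ ?_ ?_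
    · rintro _ ⟨F, hF, rfl⟩
      exact hbd F hF
    · exact ⟨fun _ => 1, sa.const 1, funext fun w => (R.ch w).const 1⟩
    · rintro _ ⟨F, hF, rfl⟩ _ ⟨G, hG, rfl⟩
      exact ⟨_, sa.mul F hF G hG, funext fun w => (R.ch w).mul F hF G hG⟩
    · rintro _ ⟨F, hF, rfl⟩
      exact ⟨_, sa.cj F hF, funext fun w => (R.ch w).cj F hF⟩
    · refine R.gn.le.trans (iSup₂_le fun F hF => ?_)
      exact le_iSup₂_of_le (f := fun φ (_ : φ ∈ hat '' Bdd X.X) =>
        MeasurableSpace.comap (id φ) (inferInstance : MeasurableSpace ℂ)) (hat F) ⟨F, hF, rfl⟩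
        le_rfl
    · rintro _ ⟨F, hF, rfl⟩
      rw [integral_map hem.aemeasurable (hat_meas R hF).aestronglyMeasurable, R.int F hF]
      simp only [he _ F hF]
  · intro n B hB
    refine keq_gen X.μ (Bdd X.X) hat (e ∘ X.Tz n) (W.Tz n ∘ e) (fun F hF x => ?_) B
      (R.gn.le B hB)
    have hT : (fun s => F (X.Tz n s)) ∈ Bdd X.X := by
      obtain ⟨hF, C, hC⟩ := hF
      exact ⟨hF.comp (X.mp n).measurable, C, fun x => hC _⟩
    show hat F (e (X.Tz n x)) = hat F (W.Tz n (e x))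
    rw [← R.eqv n F hF, he _ F hF, he _ _ hT]

namespace LimRow

variable {X : ℕ → Sys} (p : ∀ k, (X (k + 1)).X → (X k).X)

/-- bounded measurable families that are compatible from level `k0` on -/
structure Cp (k0 : ℕ) (F : (Σ k, (X k).X) → ℂ) : Prop where
  ms : ∀ k, Measurable fun x : (X k).X => F ⟨k, x⟩
  bd : ∃ C : ℝ, ∀ s, ‖F s‖ ≤ C
  cp : ∀ k, k0 ≤ k → (fun x => F ⟨k + 1, x⟩) =ᵐ[(X (k + 1)).μ] fun x => F ⟨k, p k x⟩

def Al : Set ((Σ k, (X k).X) → ℂ) := {F | ∃ k0, Cp p k0 F}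

def Lam (F : (Σ k, (X k).X) → ℂ) : ℂ := limUnder atTop fun k => ∫ x, F ⟨k, x⟩ ∂(X k).μ

def tt (X : ℕ → Sys) (n : Γ) (s : Σ k, (X k).X) : Σ k, (X k).X := ⟨s.1, (X s.1).Tz n s.2⟩

variable {p}

theorem Cp.mono {k0 k1 : ℕ} {F : (Σ k, (X k).X) → ℂ} (h : Cp p k0 F) (hk : k0 ≤ k1) :
    Cp p k1 F := ⟨h.ms, h.bd, fun k hk' => h.cp k (hk.trans hk')⟩

theorem Cp.int {k0 : ℕ} {F : (Σ k, (X k).X) → ℂ} (h : Cp p k0 F) (k : ℕ) :
    Integrable (fun x : (X k).X => F ⟨k, x⟩) (X k).μ := by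
  obtain ⟨C, hC⟩ := h.bd
  exact int_bdd _ (h.ms k) fun x => hC _

theorem Cp.const (k0 : ℕ) (c : ℂ) : Cp p k0 fun _ => c :=
  ⟨fun _ => measurable_const, ⟨‖c‖, fun _ => le_rfl⟩, fun _ _ => EventuallyEq.rfl⟩

theorem Cp.add {k0 : ℕ} {F G : (Σ k, (X k).X) → ℂ} (hF : Cp p k0 F) (hG : Cp p k0 G) :
    Cp p k0 fun s => F s + G s := by
  obtain ⟨C, hC⟩ := hF.bd
  obtain ⟨D, hD⟩ := hG.bd
  refine ⟨fun k => (hF.ms k).add (hG.ms k),
    ⟨C + D, fun x => (norm_add_le _ _).trans (add_le_add (hC x) (hD x))⟩, fun k hk => ?_⟩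
  filter_upwards [hF.cp k hk, hG.cp k hk] with x h1 h2
  rw [h1, h2]

theorem Cp.mul {k0 : ℕ} {F G : (Σ k, (X k).X) → ℂ} (hF : Cp p k0 F) (hG : Cp p k0 G) :
    Cp p k0 fun s => F s * G s := by
  obtain ⟨C, hC⟩ := hF.bd
  obtain ⟨D, hD⟩ := hG.bd
  refine ⟨fun k => (hF.ms k).mul (hG.ms k), ⟨C * D, fun x => ?_⟩, fun k hk => ?_⟩
  · rw [norm_mul]
    exact mul_le_mul (hC x) (hD x) (norm_nonneg _) ((norm_nonneg _).trans (hC x))
  · filter_upwards [hF.cp k hk, hG.cp k hk] with x h1 h2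
    rw [h1, h2]

theorem Cp.cj {k0 : ℕ} {F : (Σ k, (X k).X) → ℂ} (hF : Cp p k0 F) :
    Cp p k0 fun s => conj (F s) := by
  obtain ⟨C, hC⟩ := hF.bd
  refine ⟨fun k => Complex.continuous_conj.measurable.comp (hF.ms k),
    ⟨C, fun x => by simpa using hC x⟩, fun k hk => ?_⟩
  filter_upwards [hF.cp k hk] with x h1
  rw [h1]

theorem salg_al : SAlg (Al p) where
  const c := ⟨0, Cp.const 0 c⟩
  add := by
    rintro F ⟨k, hF⟩ G ⟨l, hG⟩
    exact ⟨max k l, (hF.mono (le_max_left _ _)).add (hG.mono (le_max_right _ _))⟩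
  mul := by
    rintro F ⟨k, hF⟩ G ⟨l, hG⟩
    exact ⟨max k l, (hF.mono (le_max_left _ _)).mul (hG.mono (le_max_right _ _))⟩
  cj := by
    rintro F ⟨k, hF⟩
    exact ⟨k, hF.cj⟩
  bdd := by
    rintro F ⟨k, hF⟩
    exact hF.bd

theorem Cp.lam (hp : ∀ k, Emb (X (k + 1)) (X k) (p k)) {k0 : ℕ} {F : (Σ k, (X k).X) → ℂ}
    (hF : Cp p k0 F) : Lam F = ∫ x, F ⟨k0, x⟩ ∂(X k0).μ := by
  have h : ∀ k, k0 ≤ k → ∫ x, F ⟨k, x⟩ ∂(X k).μ = ∫ x, F ⟨k0, x⟩ ∂(X k0).μ := by
    intro k hk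
    induction k, hk using Nat.le_induction with
    | base => rfl
    | succ k hk ih =>
      rw [integral_congr_ae (hF.cp k hk), ← ih, ← (hp k).mp.map_eq,
        integral_map (hp k).mp.measurable.aemeasurable (hF.ms k).aestronglyMeasurable]
  refine Tendsto.limUnder_eq ?_
  exact tendsto_const_nhds.congr' ((eventually_ge_atTop k0).mono fun k hk => (h k hk).symm)

theorem comm_T (b : Bas) {Y Z : Sys} {q : Y.X → Z.X} (hq : Emb Y Z q) {f : Z.X → ℂ}
    (hf : Measurable f) (n : Γ) :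
    (fun y => f (q (Y.Tz n y))) =ᵐ[Y.μ] fun y => f (Z.Tz n (q y)) :=
  b.a.keq_fun Z.ms Y.μ Z.μ (q ∘ Y.Tz n) (Z.Tz n ∘ q) f (hq.mp.comp (Y.mp n))
    ((Z.mp n).comp hq.mp) (hq.eqv n) hf.aestronglyMeasurable

theorem Cp.fwd (b : Bas) (hp : ∀ k, Emb (X (k + 1)) (X k) (p k)) {k0 : ℕ}
    {F : (Σ k, (X k).X) → ℂ} (hF : Cp p k0 F) (n : Γ) : Cp p k0 fun s => F (tt X n s) := by
  obtain ⟨C, hC⟩ := hF.bd
  refine ⟨fun k => (hF.ms k).comp ((X k).mp n).measurable, ⟨C, fun s => hC _⟩, fun k hk => ?_⟩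
  have h1 := ((X (k + 1)).mp n).quasiMeasurePreserving.ae_eq_comp (hF.cp k hk)
  exact h1.trans (comm_T b (hp k) (hF.ms k) n)

variable (p)

/-- the projection to level `k`, with a fixed point below -/
def rr (k : ℕ) (x0 : (X k).X) : ∀ j, (X j).X → (X k).X
  | 0 => if h : 0 = k then fun x => h ▸ x else fun _ => x0
  | j + 1 => if h : j + 1 = k then fun x => h ▸ x else fun x => rr k x0 j (p j x)

theorem rr_self (k : ℕ) (x0 x : (X k).X) : rr p k x0 k x = x := by
  cases k with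
  | zero => simp [rr]
  | succ k => simp [rr]

theorem rr_succ (k : ℕ) (x0 : (X k).X) (j : ℕ) (h : k ≤ j) (x : (X (j + 1)).X) :
    rr p k x0 (j + 1) x = rr p k x0 j (p j x) := by
  rw [rr, dif_neg (by omega)]

theorem rr_meas (hp : ∀ k, Measurable (p k)) (k : ℕ) (x0 : (X k).X) (j : ℕ) :
    Measurable (rr p k x0 j) := by
  induction j with
  | zero =>
    rw [rr]
    split_ifs with h
    · subst h; exact measurable_id
    · exact measurable_const
  | succ j ih =>
    rw [rr]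
    split_ifs with h
    · subst h; exact measurable_id
    · exact ih.comp (hp j)

variable {p}

theorem cp_up (hp : ∀ k, Emb (X (k + 1)) (X k) (p k)) (k : ℕ) (x0 : (X k).X) {f : (X k).X → ℂ}
    (hf : f ∈ Bdd (X k).X) : Cp p k fun s => f (rr p k x0 s.1 s.2) := by
  obtain ⟨hf, C, hC⟩ := hf
  refine ⟨fun j => hf.comp (rr_meas p (fun k => (hp k).mp.measurable) k x0 j),
    ⟨C, fun s => hC _⟩, fun j hj => Eventually.of_forall fun x => ?_⟩
  simp only [rr_succ p k x0 j hj]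

theorem cp_congr (hp : ∀ k, Emb (X (k + 1)) (X k) (p k)) {W : Sys}
    {hat : ((Σ k, (X k).X) → ℂ) → W.X → ℂ} (R : Realz (Al p) Lam (tt X) W hat) {k : ℕ}
    {F G : (Σ k, (X k).X) → ℂ} (hF : Cp p k F) (hG : Cp p k G)
    (h : ∀ x, F ⟨k, x⟩ = G ⟨k, x⟩) : hat F =ᵐ[W.μ] hat G := by
  refine hat_congr salg_al R ⟨k, hF⟩ ⟨k, hG⟩ ?_
  have hd := hF.add ((Cp.const k (-1)).mul hG)
  rw [(hd.mul hd.cj).lam hp]
  simp [h]

end LimRow

open LimRow in
theorem limS : LimR := by
  intro b hR X p hN hp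
  obtain ⟨W, hat, R⟩ := hR (Σ k, (X k).X) (Al p) Lam (tt X) salg_al
    (by
      rintro F ⟨k, hF⟩ G ⟨l, hG⟩
      have hF' := hF.mono (le_max_left k l)
      have hG' := hG.mono (le_max_right k l)
      rw [(hF'.add hG').lam hp, hF'.lam hp, hG'.lam hp]
      exact integral_add (hF'.int _) (hG'.int _))
    (by
      rintro c F ⟨k, hF⟩
      rw [((Cp.const k c).mul hF).lam hp, hF.lam hp]
      exact integral_const_mul c _)
    (by rw [(Cp.const (p := p) 0 1).lam hp]; simp)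
    (by
      rintro F ⟨k, hF⟩ h
      rw [hF.lam hp]
      exact int_pos _ (hF.int k) fun x => h _)
    (fun s => congrArg (Sigma.mk s.1) ((X s.1).zero s.2))
    (fun n m s => congrArg (Sigma.mk s.1) ((X s.1).add n m s.2))
    (by
      rintro n F ⟨k, hF⟩
      exact ⟨k, hF.fwd b hp n⟩)
    (by
      rintro n F ⟨k, hF⟩
      rw [(hF.fwd b hp n).lam hp, hF.lam hp]
      exact (show MeasurePreserving ((X k).eq n) (X k).μ (X k).μ from (X k).mp n).integral_comp'
        fun x => F ⟨k, x⟩)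
  have x0 : ∀ k, (X k).X := fun k => Classical.choice (nonempty_of_isProbabilityMeasure (X k).μ)
  have hu : ∀ k, ∀ f ∈ Bdd (X k).X, (fun s : Σ k, (X k).X => f (rr p k (x0 k) s.1 s.2)) ∈ Al p :=
    fun k f hf => ⟨k, cp_up hp k (x0 k) hf⟩
  have he : ∀ k, ∃ e : W.X → (X k).X, MeasurePreserving e W.μ (X k).μ ∧ ∀ f ∈ Bdd (X k).X,
      (fun w => f (e w)) =ᵐ[W.μ] hat fun s => f (rr p k (x0 k) s.1 s.2) := by
    intro k
    refine hN k W.X W.μ (fun f => hat fun s => f (rr p k (x0 k) s.1 s.2)) (fun w => ?_)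
      (fun f hf => hat_meas R (hu k f hf)) (fun f hf => ?_)
    · exact ⟨fun c => (R.ch w).const c,
        fun f hf g hg => (R.ch w).add _ (hu k f hf) _ (hu k g hg),
        fun f hf g hg => (R.ch w).mul _ (hu k f hf) _ (hu k g hg),
        fun f hf => (R.ch w).cj _ (hu k f hf),
        fun f hf C hC => (R.ch w).bdd _ (hu k f hf) C fun s => hC _⟩
    · rw [R.int _ (hu k f hf), (cp_up hp k (x0 k) hf).lam hp]
      simp only [rr_self]
  choose e hmp he using he
  refine ⟨W, e, R.nice, fun k => ⟨hmp k, fun n => ?_⟩, fun k => ?_, ?_⟩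
  · refine b.a.keq_of _ _ _ _ fun f hf h1 => ?_
    have hf1 : f ∈ Bdd (X k).X := ⟨hf, 1, h1⟩
    have hf2 : (fun x => f ((X k).Tz n x)) ∈ Bdd (X k).X :=
      ⟨hf.comp ((X k).mp n).measurable, 1, fun x => h1 _⟩
    have e1 := (W.mp n).quasiMeasurePreserving.ae_eq_comp (he k f hf1)
    have e2 := he k _ hf2
    have e3 := cp_congr hp R ((cp_up hp k (x0 k) hf1).fwd b hp n) (cp_up hp k (x0 k) hf2)
      (fun x => by
        show f (rr p k (x0 k) k ((X k).Tz n x)) = f ((X k).Tz n (rr p k (x0 k) k x))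
        simp only [rr_self])
    filter_upwards [e1, e2, e3] with w a1 a2 a3
    simp only [comp_apply] at a1 a2 a3 ⊢
    rw [a1, a2, ← a3, ← R.eqv n _ (hu k f hf1)]
  · refine b.a.keq_of _ _ _ _ fun f hf h1 => ?_
    have hf1 : f ∈ Bdd (X k).X := ⟨hf, 1, h1⟩
    have hf2 : (fun x => f (p k x)) ∈ Bdd (X (k + 1)).X :=
      ⟨hf.comp (hp k).mp.measurable, 1, fun x => h1 _⟩
    have e3 := cp_congr hp R (cp_up hp (k + 1) (x0 (k + 1)) hf2)
      ((cp_up hp k (x0 k) hf1).mono (Nat.le_succ k))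
      (fun x => by
        show f (p k (rr p (k + 1) (x0 (k + 1)) (k + 1) x)) = f (rr p k (x0 k) (k + 1) x)
        rw [rr_succ p k (x0 k) k le_rfl, rr_self, rr_self])
    exact ((he (k + 1) _ hf2).trans e3).trans (he k f hf1).symm
  · refine R.gn.le.trans (iSup₂_le ?_)
    rintro F ⟨k, hF⟩
    refine le_iSup_of_le k ?_
    have hf1 : (fun x => F ⟨k, x⟩) ∈ Bdd (X k).X := by
      obtain ⟨C, hC⟩ := hF.bd
      exact ⟨hF.ms k, C, fun x => hC _⟩
    have e3 := cp_congr hp R (cp_up hp k (x0 k) hf1) hF (fun x => by simp only [rr_self])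
    have e4 := (he k _ hf1).trans e3
    rintro _ ⟨s, hs, rfl⟩
    refine (b.a.mem _ W.μ (hmp k).measurable.comap_le _).2
      ⟨hat_meas R ⟨k, hF⟩ hs, e k ⁻¹' ((fun x => F ⟨k, x⟩) ⁻¹' s), ⟨_, hF.ms k hs, rfl⟩, ?_⟩
    filter_upwards [e4] with w hw
    show (hat F w ∈ s) = (F ⟨k, e k w⟩ ∈ s)
    rw [← hw]

end T4x

end

end PkLim

section PkRP

/-! Row RP: existence of relative products. -/

set_option autoImplicit false
set_option linter.unusedVariables false
set_option linter.unusedSectionVars false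
set_option linter.unnecessarySeqFocus false

open MeasureTheory ProbabilityTheory Filter Topology Function Finset ComplexConjugate
open scoped BigOperators
open Fib27 (BM ce_mul ce_eq_of_tests eq_zero_of_int_conj)

noncomputable section

namespace T4x

open T3x

variable [Grp]

namespace RP

theorem bm_of {Ω : Type} {m m0 : MeasurableSpace Ω} {μ : Measure Ω} {f : Ω → ℂ}
    (h : Measurable[m] f) (hb : ∃ C : ℝ, ∀ x, ‖f x‖ ≤ C) : BM μ m f :=
  ⟨h.stronglyMeasurable.aestronglyMeasurable, hb.imp fun _ h => ae_of_all _ h⟩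

section bdd

variable {Ω Ω' : Type} [MeasurableSpace Ω] [MeasurableSpace Ω'] {f g : Ω → ℂ}

theorem bdd_one : (fun _ => (1 : ℂ)) ∈ Bdd Ω := ⟨measurable_const, 1, fun _ => by simp⟩

theorem bdd_mul (hf : f ∈ Bdd Ω) (hg : g ∈ Bdd Ω) : (fun x => f x * g x) ∈ Bdd Ω := by
  obtain ⟨h1, a, ha⟩ := hf
  obtain ⟨h2, b, hb⟩ := hg
  exact ⟨h1.mul h2, a * b, fun x => (norm_mul_le _ _).trans
    (mul_le_mul (ha x) (hb x) (norm_nonneg _) ((norm_nonneg _).trans (ha x)))⟩

theorem bdd_cj (hf : f ∈ Bdd Ω) : (fun x => conj (f x)) ∈ Bdd Ω :=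
  ⟨Complex.continuous_conj.measurable.comp hf.1, hf.2.imp fun _ h x => by simpa using h x⟩

theorem bdd_cmp (hf : f ∈ Bdd Ω) {p : Ω' → Ω} (hp : Measurable p) :
    (fun x => f (p x)) ∈ Bdd Ω' := ⟨hf.1.comp hp, hf.2.imp fun _ h x => h (p x)⟩

end bdd

/-- A multilinear form keeps closed convex hulls. -/
theorem multi {ι 𝒜 : Type} [Fintype 𝒜] (T : Finset ι) (c : 𝒜 → ℂ) (R : ι → Set (𝒜 → ℂ))
    {K : Set ℂ} (hc : Convex ℝ K) (hK : IsClosed K)
    (h : ∀ v : ι → 𝒜 → ℂ, (∀ i ∈ T, v i ∈ R i) → ∑ a, c a * ∏ i ∈ T, v i a ∈ K)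
    (v : ι → 𝒜 → ℂ) (hv : ∀ i ∈ T, v i ∈ closure (convexHull ℝ (R i))) :
    ∑ a, c a * ∏ i ∈ T, v i a ∈ K := by
  classical
  have key : ∀ (T' : Finset ι) (v : ι → 𝒜 → ℂ),
      (∀ i ∈ T, i ∈ T' → v i ∈ closure (convexHull ℝ (R i))) → (∀ i ∈ T, i ∉ T' → v i ∈ R i) →
      ∑ a, c a * ∏ i ∈ T, v i a ∈ K := fun T' => by
    induction T' using Finset.induction_on with
    | empty => exact fun v _ h2 => h v fun i hi => h2 i hi (notMem_empty i)
    | insert j T' hj ih =>
      intro v h1 h2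
      by_cases hT : j ∈ T
      · let L : (𝒜 → ℂ) →ₗ[ℝ] ℂ := ∑ a, (LinearMap.mulLeft ℝ (c a * ∏ i ∈ T.erase j, v i a)) ∘ₗ
          LinearMap.proj a
        have e : ∀ u, L u = ∑ a, c a * ∏ i ∈ T, update v j u i a := fun u => by
          simp only [L, LinearMap.sum_apply, LinearMap.comp_apply, LinearMap.proj_apply,
            LinearMap.mulLeft_apply]
          refine sum_congr rfl fun a _ => ?_
          have : ∏ i ∈ T.erase j, update v j u i a = ∏ i ∈ T.erase j, v i a :=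
            prod_congr rfl fun i hi => by rw [update_of_ne (ne_of_mem_erase hi)]
          rw [← mul_prod_erase T (fun i => update v j u i a) hT, update_self, this]
          ring
        have h3 : R j ⊆ L ⁻¹' K := fun u hu => by
          rw [Set.mem_preimage, e]
          refine ih _ (fun i hi hi' => ?_) fun i hi hi' => ?_
          · rw [update_of_ne (ne_of_mem_of_not_mem hi' hj)]
            exact h1 i hi (mem_insert_of_mem hi')
          · by_cases hij : i = j
            · subst hij; rwa [update_self]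
            · rw [update_of_ne hij]
              exact h2 i hi fun h => (mem_insert.1 h).elim hij hi'
        have h4 := closure_minimal (convexHull_min h3 (hc.linear_preimage L))
          (hK.preimage L.continuous_of_finiteDimensional) (h1 j hT (mem_insert_self _ _))
        rwa [Set.mem_preimage, e, update_eq_self] at h4
      · exact ih v (fun i hi hi' => h1 i hi (mem_insert_of_mem hi')) fun i hi hi' =>
          h2 i hi fun h => (mem_insert.1 h).elim (fun e => hT (e ▸ hi)) hi'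
  exact key T v (fun i hi _ => hv i hi) fun i hi hi' => absurd hi hi'

/-- the data, with chosen versions of the conditional expectations -/
structure Dat where
  ι : Type
  X : ι → Sys
  C : Sys
  D : MeasurableSpace C.X
  q : ∀ i, (X i).X → C.X
  fac : Fac C D
  mp : ∀ i, @MeasurePreserving _ _ (X i).ms C.ms (q i) (X i).μ C.μ
  eqv : ∀ i n, KEq (X i).μ D (q i ∘ (X i).Tz n) (C.Tz n ∘ q i)
  E : ∀ i, ((X i).X → ℂ) → C.X → ℂ
  one : ∀ i, E i (fun _ => 1) = fun _ => 1
  ms : ∀ i, ∀ f ∈ Bdd (X i).X, Measurable[D] (E i f)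
  bd : ∀ i, ∀ f ∈ Bdd (X i).X, ∃ c : ℝ, ∀ y, ‖E i f y‖ ≤ c
  ce : ∀ i, ∀ f ∈ Bdd (X i).X,
    (X i).μ[f | pull (X i).μ (q i) D] =ᵐ[(X i).μ] fun x => E i f (q i x)

variable {d : Dat}

theorem Dat.mem (d : Dat) (i : d.ι) {f : (d.X i).X → ℂ} (hf : f ∈ Bdd (d.X i).X) :
    d.E i f ∈ Bdd d.C.X := ⟨(d.ms i f hf).mono d.fac.le le_rfl, d.bd i f hf⟩

theorem Dat.push (d : Dat) (i : d.ι) {P : d.C.X → Prop} (hP : MeasurableSet {y | P y})
    (h : ∀ᵐ x ∂(d.X i).μ, P (d.q i x)) : ∀ᵐ y ∂d.C.μ, P y := by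
  rw [← (d.mp i).map_eq]
  exact (ae_map_iff (d.mp i).measurable.aemeasurable hP).2 h

theorem Dat.hull (B : Bas) (d : Dat) (i : d.ι) {𝒜 : Type} [Fintype 𝒜]
    (f : 𝒜 → (d.X i).X → ℂ) (hf : ∀ a, f a ∈ Bdd (d.X i).X) : ∀ᵐ y ∂d.C.μ,
    (fun a => d.E i (f a) y) ∈ closure (convexHull ℝ (Set.range fun x a => f a x)) := by
  have hF : Integrable (fun x a => f a x) (d.X i).μ :=
    integrable_pi_iff.2 fun a => (bm_of (hf a).1 (hf a).2).integrable
  have h1 := (convex_convexHull ℝ (Set.range fun x a => f a x)).closure.condExp_mem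
    (B.a.pull_le d.D _ _ _ (d.mp i) d.fac.le) hF isClosed_closure
    (ae_of_all _ fun x => subset_closure (subset_convexHull _ _ ⟨x, rfl⟩))
  have h2 := fun a => (ContinuousLinearMap.proj a : (𝒜 → ℂ) →L[ℝ] ℂ).comp_condExp_comm
    (m := pull (d.X i).μ (d.q i) d.D) hF
  refine d.push i (isClosed_closure.measurableSet.preimage
    (measurable_pi_lambda _ fun a => (d.mem i (hf a)).1)) ?_
  filter_upwards [h1, ae_all_iff.2 h2, ae_all_iff.2 fun a => d.ce i _ (hf a)] with x h1 h2 h3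
  convert h1 using 1
  funext a
  exact (h3 a).symm.trans (h2 a).symm

theorem Dat.pullout (B : Bas) (d : Dat) (i : d.ι) {g : d.C.X → ℂ} (hg : Measurable[d.D] g)
    (hb : ∃ c : ℝ, ∀ y, ‖g y‖ ≤ c) {f : (d.X i).X → ℂ} (hf : f ∈ Bdd (d.X i).X) :
    d.E i (fun x => g (d.q i x) * f x) =ᵐ[d.C.μ] fun y => g y * d.E i f y := by
  have hg' : g ∈ Bdd d.C.X := ⟨hg.mono d.fac.le le_rfl, hb⟩
  have h1 := bdd_mul (bdd_cmp hg' (d.mp i).measurable) hf
  refine d.push i (measurableSet_eq_fun (d.mem i h1).1 (hg'.1.mul (d.mem i hf).1)) ?_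
  filter_upwards [d.ce i _ h1, d.ce i _ hf, ce_mul (B.a.pull_le d.D _ _ _ (d.mp i) d.fac.le)
    (B.a.bm_comp d.D _ _ _ g (d.mp i) (bm_of hg hb)) (bm_of hf.1 hf.2)] with x h2 h3 h4
  rw [← h2, h4, h3]

theorem Dat.shift (B : Bas) (d : Dat) (i : d.ι) (n : Γ) {f : (d.X i).X → ℂ}
    (hf : f ∈ Bdd (d.X i).X) :
    d.E i (fun x => f ((d.X i).Tz n x)) =ᵐ[d.C.μ] fun y => d.E i f (d.C.Tz n y) := by
  have h1 := bdd_cmp hf ((d.X i).mp n).measurable
  have m1 := (d.mp i).comp (B.t.mp (d.X i) n)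
  have m2 := (B.t.mp d.C n).comp (d.mp i)
  have e : pull (d.X i).μ ((d.X i).Tz n) (pull (d.X i).μ (d.q i) d.D) =
      pull (d.X i).μ (d.q i) d.D := by
    rw [B.a.pull_comp _ _ _ _ _ (B.t.mp _ n), B.a.keq_pull d.D _ _ _
      ((MeasurableSpace.comap_mono d.fac.le).trans m1.measurable.comap_le)
      ((MeasurableSpace.comap_mono d.fac.le).trans m2.measurable.comap_le) (d.eqv i n),
      ← B.a.pull_comp _ _ _ _ _ (d.mp i)]
    congr 1
    rw [pull, B.t.inv _ _ n d.fac, sup_eq_left.2 d.fac.nl]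
  have h2 := B.a.ce_comp _ _ _ _ f ((d.X i).mp n) (B.a.pull_le d.D _ _ _ (d.mp i) d.fac.le)
    (bm_of hf.1 hf.2).integrable
  rw [e] at h2
  have h3 := B.a.keq_fun d.D _ _ _ _ (d.E i f) m1 m2 (d.eqv i n)
    (d.ms i f hf).stronglyMeasurable.aestronglyMeasurable
  refine d.push i (measurableSet_eq_fun (d.mem i h1).1
    ((d.mem i hf).1.comp (d.C.mp n).measurable)) ?_
  filter_upwards [d.ce i _ h1, h2, h3, ((d.X i).mp n).quasiMeasurePreserving.ae (d.ce i _ hf)]
    with x h4 h5 h6 h7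
  rw [← h4, h5, h7]
  exact h6

/-- a product of functions of single coordinates -/
structure Mon (d : Dat) where
  S : Finset d.ι
  f : ∀ i, (d.X i).X → ℂ
  bd : ∀ i, f i ∈ Bdd (d.X i).X
  one : ∀ i, i ∉ S → f i = fun _ => 1

abbrev Pt (d : Dat) : Type := ∀ i, (d.X i).X

namespace Mon

def ev (m : Mon d) (s : Pt d) : ℂ := ∏ i ∈ m.S, m.f i (s i)

def e (m : Mon d) (y : d.C.X) : ℂ := ∏ i ∈ m.S, d.E i (m.f i) y

theorem ev_eq (m : Mon d) {T : Finset d.ι} (h : m.S ⊆ T) (s : Pt d) :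
    m.ev s = ∏ i ∈ T, m.f i (s i) := prod_subset h fun i _ hi => by rw [m.one i hi]

theorem e_eq (m : Mon d) {T : Finset d.ι} (h : m.S ⊆ T) (y : d.C.X) :
    m.e y = ∏ i ∈ T, d.E i (m.f i) y := prod_subset h fun i _ hi => by rw [m.one i hi, d.one]

theorem bm (m : Mon d) : BM d.C.μ d.D m.e :=
  BM.pr (ρ := fun i => d.E i (m.f i)) fun i _ => bm_of (d.ms i _ (m.bd i)) (d.bd i _ (m.bd i))

open Classical in
def mul (m n : Mon d) : Mon d :=
  ⟨m.S ∪ n.S, fun i x => m.f i x * n.f i x, fun i => bdd_mul (m.bd i) (n.bd i), fun i hi => by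
    rw [m.one i fun h => hi (mem_union_left _ h), n.one i fun h => hi (mem_union_right _ h)]
    simp⟩

theorem ev_mul (m n : Mon d) (s : Pt d) : (m.mul n).ev s = m.ev s * n.ev s := by
  classical
  rw [m.ev_eq (T := (m.mul n).S) fun i hi => by simp [mul, hi], n.ev_eq (T := (m.mul n).S)
    fun i hi => by simp [mul, hi], ← prod_mul_distrib]
  rfl

def cj (m : Mon d) : Mon d :=
  ⟨m.S, fun i x => conj (m.f i x), fun i => bdd_cj (m.bd i), fun i hi => by simp [m.one i hi]⟩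

def cmp (m : Mon d) (g : ∀ i, (d.X i).X → (d.X i).X) (hg : ∀ i, Measurable (g i)) : Mon d :=
  ⟨m.S, fun i x => m.f i (g i x), fun i => bdd_cmp (m.bd i) (hg i), fun i hi => by
    simp [m.one i hi]⟩

open Classical in
def sg (j : d.ι) (f : (d.X j).X → ℂ) (hf : f ∈ Bdd (d.X j).X) : Mon d :=
  ⟨{j}, update (fun _ _ => 1) j f, fun i => by
    by_cases h : i = j
    · subst h; rwa [update_self]
    · rw [update_of_ne h]; exact bdd_one,
    fun i hi => update_of_ne (by simpa using hi) _ _⟩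

theorem ev_sg (j : d.ι) (f : (d.X j).X → ℂ) (hf : f ∈ Bdd (d.X j).X) :
    (sg j f hf).ev = fun s => f (s j) := funext fun s => by simp [sg, ev]

theorem e_sg (j : d.ι) (f : (d.X j).X → ℂ) (hf : f ∈ Bdd (d.X j).X) :
    (sg j f hf).e = d.E j f := funext fun s => by simp [sg, e]

theorem e_mul (B : Bas) (m : Mon d) (j : d.ι) {g : d.C.X → ℂ} (hg : Measurable[d.D] g)
    (hb : ∃ c : ℝ, ∀ y, ‖g y‖ ≤ c) (h : (fun x => g (d.q j x)) ∈ Bdd (d.X j).X) :
    ((sg j _ h).mul m).e =ᵐ[d.C.μ] fun y => g y * m.e y := by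
  classical
  filter_upwards [d.pullout B j hg hb (m.bd j)] with y hy
  have hj : j ∈ ((sg j _ h).mul m).S := by simp [mul, sg]
  rw [m.e_eq (T := ((sg j _ h).mul m).S) fun i hi => by simp [mul, hi], e,
    ← mul_prod_erase _ _ hj, ← mul_prod_erase _ _ hj, ← mul_assoc, ← hy]
  congr 1
  · simp [mul, sg]
  · exact prod_congr rfl fun i hi => by simp [mul, sg, update_of_ne (ne_of_mem_erase hi)]

end Mon

theorem key (B : Bas) (c : Mon d →₀ ℂ) {K : Set ℂ} (hc : Convex ℝ K) (hK : IsClosed K)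
    (h : ∀ s, Finsupp.linearCombination ℂ Mon.ev c s ∈ K) :
    Finsupp.linearCombination ℂ (fun m : Mon d => ∫ y, m.e y ∂d.C.μ) c ∈ K := by
  classical
  let T := c.support.biUnion Mon.S
  have hT : ∀ a : c.support, a.1.S ⊆ T := fun a => subset_biUnion_of_mem Mon.S a.2
  have hi : ∀ a : c.support, Integrable a.1.e d.C.μ := fun a => (a.1.bm.mono d.fac.le).integrable
  have ne : ∀ i, Nonempty (d.X i).X := fun i => nonempty_of_isProbabilityMeasure (d.X i).μ
  rw [Finsupp.linearCombination_apply, Finsupp.sum, ← sum_coe_sort]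
  simp only [smul_eq_mul, ← integral_const_mul]
  rw [← integral_finsetSum _ fun a _ => (hi a).const_mul _]
  refine hc.integral_mem hK ?_ (integrable_finsetSum _ fun a _ => (hi a).const_mul _)
  filter_upwards [(eventually_all_finset T).2 fun i _ =>
    d.hull B i (fun a : c.support => a.1.f i) fun a => a.1.bd i] with y hy
  simp only [fun a : c.support => a.1.e_eq (hT a)]
  refine multi T (fun a : c.support => c a) _ hc hK (fun v hv => ?_)
    (fun i a => d.E i (a.1.f i) y) hy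
  have : ∀ i, ∃ x : (d.X i).X, i ∈ T → (fun a : c.support => a.1.f i x) = v i := fun i => by
    by_cases h : i ∈ T
    · exact (hv i h).imp fun _ e _ => e
    · exact (ne i).elim fun x => ⟨x, fun h' => absurd h' h⟩
  choose s hs using this
  have h1 := h s
  rw [Finsupp.linearCombination_apply, Finsupp.sum, ← sum_coe_sort, Finset.sum_apply] at h1
  convert h1 using 2 with a
  rw [Pi.smul_apply, smul_eq_mul, a.1.ev_eq (hT a)]
  congr 1
  exact prod_congr rfl fun i hi => (congrFun (hs i hi) a).symm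

def Alg (d : Dat) : Submodule ℂ (Pt d → ℂ) := Submodule.span ℂ (Set.range Mon.ev)

theorem ev_mem (m : Mon d) : m.ev ∈ Alg d := Submodule.subset_span ⟨m, rfl⟩

theorem exists_lam (B : Bas) (d : Dat) : ∃ Λ : (Pt d → ℂ) →ₗ[ℂ] ℂ,
    (∀ m : Mon d, Λ m.ev = ∫ y, m.e y ∂d.C.μ) ∧ ∀ F ∈ Alg d, ∀ K : Set ℂ, Convex ℝ K →
      IsClosed K → (∀ s, F s ∈ K) → Λ F ∈ K := by
  let u := Finsupp.linearCombination ℂ (Mon.ev (d := d))
  let w := Finsupp.linearCombination ℂ fun m : Mon d => ∫ y, m.e y ∂d.C.μ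
  have h : LinearMap.ker u ≤ LinearMap.ker w := fun c hc =>
    key B c (convex_singleton 0) isClosed_singleton fun s => congrFun hc s
  obtain ⟨Λ, hΛ⟩ := ((LinearMap.ker u).liftQ w h ∘ₗ u.quotKerEquivRange.symm.toLinearMap).exists_extend
  have e : ∀ c, Λ (u c) = w c := fun c => by
    refine (LinearMap.congr_fun hΛ ⟨u c, c, rfl⟩).trans ?_
    exact congrArg ((LinearMap.ker u).liftQ w h)
      (u.quotKerEquivRange_symm_apply_image c ⟨c, rfl⟩)
  refine ⟨Λ, fun m => by simpa [u, w] using e (Finsupp.single m 1), fun F hF K h1 h2 h3 => ?_⟩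
  rw [Alg, ← Finsupp.range_linearCombination] at hF
  obtain ⟨c, rfl⟩ := hF
  exact e c ▸ key B c h1 h2 h3

theorem ind {P : (Pt d → ℂ) → Prop} (h1 : ∀ m : Mon d, P m.ev)
    (h2 : ∀ F ∈ Alg d, ∀ G ∈ Alg d, P F → P G → P fun s => F s + G s)
    (h3 : ∀ c : ℂ, ∀ F ∈ Alg d, P F → P fun s => c * F s) : ∀ F ∈ Alg d, P F := fun F hF => by
  induction hF using Submodule.span_induction with
  | mem F hF => obtain ⟨m, rfl⟩ := hF; exact h1 m
  | zero =>
    let m : Mon d := ⟨∅, fun _ _ => 1, fun _ => bdd_one, fun _ _ => rfl⟩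
    convert h3 0 _ (ev_mem m) (h1 m) using 1
    funext s; simp
  | add F G hF hG a b => exact h2 F hF G hG a b
  | smul c F hF a => exact h3 c F hF a

theorem cmp_mem (g : ∀ i, (d.X i).X → (d.X i).X) (hg : ∀ i, Measurable (g i)) :
    ∀ F ∈ Alg d, (fun s => F fun i => g i (s i)) ∈ Alg d :=
  ind (fun m => ev_mem (m.cmp g hg)) (fun _ _ _ _ a b => add_mem a b)
    fun c _ _ a => Submodule.smul_mem _ c a

theorem salg (d : Dat) : SAlg (Alg d : Set (Pt d → ℂ)) where
  const c := by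
    show _ ∈ Alg d
    convert (Alg d).smul_mem c (ev_mem ⟨∅, fun _ _ => 1, fun _ => bdd_one, fun _ _ => rfl⟩) using 1
    funext s; simp [Mon.ev]
  add F hF G hG := add_mem hF hG
  mul F hF G hG := by
    have := Submodule.mul_mem_mul hF hG
    rw [Alg, Submodule.span_mul_span] at this
    refine Submodule.span_mono ?_ this
    rintro _ ⟨_, ⟨m, rfl⟩, _, ⟨n, rfl⟩, rfl⟩
    exact ⟨m.mul n, funext (m.ev_mul n)⟩
  cj := ind (P := fun F => (fun s => conj (F s)) ∈ Alg d)
    (fun m => by convert ev_mem m.cj using 1; funext s; simp [Mon.ev, Mon.cj])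
    (fun _ _ _ _ a b => by simp only [map_add]; exact add_mem a b)
    fun c _ _ a => by simp only [map_mul]; exact Submodule.smul_mem _ (conj c) a
  bdd := ind (fun m => by
      choose b hb using fun i => (m.bd i).2
      exact ⟨∏ i ∈ m.S, b i, fun s => (Finset.norm_prod_le _ _).trans
        (prod_le_prod (fun _ _ => norm_nonneg _) fun i _ => hb i _)⟩)
    (fun _ _ _ _ ⟨a, ha⟩ ⟨b, hb⟩ => ⟨a + b, fun s => norm_add_le_of_le (ha s) (hb s)⟩)
    fun c _ _ ⟨a, ha⟩ => ⟨‖c‖ * a, fun s => (norm_mul_le _ _).trans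
      (mul_le_mul_of_nonneg_left (ha s) (norm_nonneg _))⟩

theorem crd_mem (i : d.ι) {f : (d.X i).X → ℂ} (hf : f ∈ Bdd (d.X i).X) :
    (fun s : Pt d => f (s i)) ∈ Alg d := Mon.ev_sg i f hf ▸ ev_mem _

theorem hat_ev {χ : (Pt d → ℂ) → ℂ} (h : IsChar (Alg d : Set (Pt d → ℂ)) χ) (m : Mon d) :
    χ m.ev = ∏ i ∈ m.S, χ fun s => m.f i (s i) := by
  classical
  have : ∀ S : Finset d.ι, (fun s : Pt d => ∏ i ∈ S, m.f i (s i)) ∈ Alg d ∧
      χ (fun s => ∏ i ∈ S, m.f i (s i)) = ∏ i ∈ S, χ fun s => m.f i (s i) := fun S => by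
    induction S using Finset.induction_on with
    | empty => exact ⟨(salg d).const 1, h.const 1⟩
    | insert j S hj ih =>
      simp only [prod_insert hj]
      exact ⟨(salg d).mul _ (crd_mem j (m.bd j)) _ ih.1, by
        rw [h.mul _ (crd_mem j (m.bd j)) _ ih.1, ih.2]⟩
  exact (this m.S).2

theorem main (B : Bas) (R : RealS) (d : Dat) (i0 : d.ι) (hn : ∀ i, Nice (d.X i)) :
    ∃ (Z : Sys) (p : ∀ i, Z.X → (d.X i).X), IsRP d.X d.C d.D d.q i0 Z p := by
  classical
  obtain ⟨Λ, h1, h2⟩ := exists_lam B d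
  let t : Γ → Pt d → Pt d := fun n s i => (d.X i).Tz n (s i)
  obtain ⟨W, hat, H⟩ := R _ (Alg d) Λ t (salg d) (fun F _ G _ => Λ.map_add F G)
    (fun c F _ => Λ.map_smul c F)
    (h2 _ ((salg d).const 1) {1} (convex_singleton _) isClosed_singleton fun _ => rfl)
    (fun F hF => h2 F hF {z | 0 ≤ z.re ∧ z.im = 0}
      ((convex_halfSpace_re_ge 0).inter (convex_hyperplane Complex.imLm.isLinear 0))
      ((isClosed_le continuous_const Complex.continuous_re).inter
        (isClosed_eq Complex.continuous_im continuous_const)))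
    (fun s => funext fun i => (d.X i).zero _) (fun n m s => funext fun i => (d.X i).add n m _)
    (fun n => cmp_mem _ fun i => ((d.X i).mp n).measurable)
    (fun n => ind (fun m => by
        rw [h1]
        refine (h1 (m.cmp _ fun i => ((d.X i).mp n).measurable)).trans ?_
        rw [← MeasurePreserving.integral_comp' (f := d.C.eq n) (d.C.mp n) m.e]
        refine integral_congr_ae ?_
        filter_upwards [(eventually_all_finset m.S).2 fun i _ => d.shift B i n (m.bd i)] with y hy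
        exact prod_congr rfl hy)
      (fun F _ G _ a b => (Λ.map_add (fun s => F (t n s)) fun s => G (t n s)).trans
        (by rw [a, b]; exact (Λ.map_add F G).symm))
      fun c F _ a => (Λ.map_smul c fun s => F (t n s)).trans
        (by rw [a]; exact (Λ.map_smul c F).symm))
  have hm : ∀ F ∈ Alg d, Measurable (hat F) := fun F hF =>
    measurable_iff_comap_le.2 ((le_iSup₂ (f := fun F (_ : F ∈ (Alg d : Set (Pt d → ℂ))) =>
      MeasurableSpace.comap (hat F) inferInstance) F hF).trans H.gn.ge)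
  have tr : ∀ {Y : Sys} {r : Y.X → d.C.X} (hr : MeasurePreserving r Y.μ d.C.μ) {g : d.C.X → ℂ},
      BM d.C.μ d.D g → ∫ x, g (r x) ∂Y.μ = ∫ y, g y ∂d.C.μ := fun hr g hg => by
    rw [← hr.map_eq]
    exact (integral_map hr.measurable.aemeasurable (hr.map_eq ▸ (hg.mono d.fac.le).1)).symm
  choose p hp hp' using fun i => hn i W.X W.μ (fun F => hat fun s => F (s i))
    (fun w => ⟨(H.ch w).const, fun F hF G hG => (H.ch w).add _ (crd_mem i hF) _ (crd_mem i hG),
      fun F hF G hG => (H.ch w).mul _ (crd_mem i hF) _ (crd_mem i hG),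
      fun F hF => (H.ch w).cj _ (crd_mem i hF),
      fun F hF c hc => (H.ch w).bdd _ (crd_mem i hF) c fun s => hc _⟩)
    (fun F hF => hm _ (crd_mem i hF)) fun F hF => by
      rw [H.int _ (crd_mem i hF), ← Mon.ev_sg i F hF, h1, Mon.e_sg,
        ← tr (d.mp i) (bm_of (d.ms i F hF) (d.bd i F hF)), ← integral_congr_ae (d.ce i F hF),
        integral_condExp (B.a.pull_le d.D _ _ _ (d.mp i) d.fac.le)]
  have mq := fun i => (d.mp i).comp (hp i)
  have i1 : ∀ m : Mon d, ∫ z, m.ev (fun i => p i z) ∂W.μ = ∫ y, m.e y ∂d.C.μ := fun m => by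
    rw [← h1, ← H.int _ (ev_mem m)]
    refine integral_congr_ae ?_
    filter_upwards [(eventually_all_finset m.S).2 fun i _ => hp' i _ (m.bd i)] with z hz
    rw [hat_ev (H.ch z)]
    exact prod_congr rfl hz
  have cq : ∀ (j : d.ι) {g : d.C.X → ℂ}, Measurable[d.D] g → (∃ c : ℝ, ∀ y, ‖g y‖ ≤ c) →
      (fun x => g (d.q j x)) ∈ Bdd (d.X j).X := fun j g hg hb =>
    bdd_cmp ⟨hg.mono d.fac.le le_rfl, hb⟩ (d.mp j).measurable
  have i2 : ∀ (m : Mon d) (j : d.ι) {g : d.C.X → ℂ}, Measurable[d.D] g →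
      (∃ c : ℝ, ∀ y, ‖g y‖ ≤ c) → ∫ z, g (d.q j (p j z)) * m.ev (fun i => p i z) ∂W.μ =
        ∫ y, g y * m.e y ∂d.C.μ := fun m j g hg hb => by
    rw [← integral_congr_ae (m.e_mul B j hg hb (cq j hg hb)), ← i1]
    simp only [Mon.ev_mul, Mon.ev_sg]
  have com : ∀ i, KEq W.μ d.D (d.q i ∘ p i) (d.q i0 ∘ p i0) := fun i =>
    B.a.keq_of _ _ _ _ fun g hg hb => by
      have hg' : Measurable[d.D] fun y => conj (g y) :=
        Complex.continuous_conj.measurable.comp hg
      have hb' : ∃ c : ℝ, ∀ y, ‖conj (g y)‖ ≤ c := ⟨1, fun y => by simpa using hb y⟩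
      have b : ∀ j, BM W.μ W.ms fun z => g (d.q j (p j z)) := fun j =>
        bm_of ((cq j hg ⟨1, hb⟩).1.comp (hp j).measurable) ⟨1, fun _ => hb _⟩
      have e : ∀ j k, ∫ z, g (d.q j (p j z)) * conj (g (d.q k (p k z))) ∂W.μ =
          ∫ y, g y * conj (g y) ∂d.C.μ := fun j k => by
        have := i2 (Mon.sg k _ (cq k hg' hb')) j hg ⟨1, hb⟩
        rw [Mon.ev_sg, Mon.e_sg] at this
        rw [this]
        refine integral_congr_ae ?_
        have h3 := d.pullout B k hg' hb' bdd_one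
        simp only [mul_one, d.one] at h3
        filter_upwards [h3] with y hy
        rw [hy]
      have h0 := eq_zero_of_int_conj ((b i).sub (b i0)) (by
        simp only [map_sub, mul_sub, sub_mul]
        rw [integral_sub (((b i).mul (b i).conj).sub ((b i0).mul (b i).conj)).integrable
          (((b i).mul (b i0).conj).sub ((b i0).mul (b i0).conj)).integrable,
          integral_sub ((b i).mul (b i).conj).integrable ((b i0).mul (b i).conj).integrable,
          integral_sub ((b i).mul (b i0).conj).integrable ((b i0).mul (b i0).conj).integrable,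
          e, e, e, e, sub_self])
      filter_upwards [h0] with z hz using sub_eq_zero.1 hz
  refine ⟨W, p, H.nice, fun i => ⟨hp i, fun n => B.a.keq_of _ _ _ _ fun f hf hb => ?_⟩, com,
    fun S f hf => ?_, ?_⟩
  · have hf' : f ∈ Bdd (d.X i).X := ⟨hf, 1, hb⟩
    filter_upwards [(W.mp n).quasiMeasurePreserving.ae (hp' i f hf'),
      hp' i _ (bdd_cmp hf' ((d.X i).mp n).measurable)] with w a b
    exact a.trans ((H.eqv n _ (crd_mem i hf') w).symm.trans b.symm)
  · have : ∀ i, ∃ f' ∈ Bdd (d.X i).X, (i ∉ S → f' = fun _ => 1) ∧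
        (i ∈ S → f i =ᵐ[(d.X i).μ] f') := fun i => by
      by_cases h : i ∈ S
      · obtain ⟨a, c, hc⟩ := hf i h
        obtain ⟨f', b1, b2, b3⟩ := B.a.rep _ _ (f i) (max c 0) (le_max_right _ _) a
          (hc.mono fun _ h => h.trans (le_max_left _ _))
        exact ⟨f', ⟨b1, _, b2⟩, fun h' => absurd h h', fun _ => b3⟩
      · exact ⟨_, bdd_one, fun _ => rfl, fun h' => absurd h' h⟩
    choose f' b1 b2 b3 using this
    let m : Mon d := ⟨S, f', b1, b2⟩
    have hle := B.a.pull_le d.D _ _ _ (mq i0) d.fac.le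
    have e1 : (fun z => ∏ i ∈ S, f i (p i z)) =ᵐ[W.μ] fun z => m.ev fun i => p i z := by
      filter_upwards [(eventually_all_finset S).2 fun i hi =>
        (hp i).quasiMeasurePreserving.ae (b3 i hi)] with z hz
      exact prod_congr rfl hz
    have e2 : (fun z => ∏ i ∈ S, ((d.X i).μ[f i | pull (d.X i).μ (d.q i) d.D]) (p i z)) =ᵐ[W.μ]
        fun z => m.e (d.q i0 (p i0 z)) := by
      filter_upwards [(eventually_all_finset S).2 fun i hi =>
        ((hp i).quasiMeasurePreserving.ae ((condExp_congr_ae (b3 i hi)).trans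
          (d.ce i _ (b1 i)))).and (B.a.keq_fun d.D _ _ _ _ _ (mq i) (mq i0) (com i)
          (d.ms i _ (b1 i)).stronglyMeasurable.aestronglyMeasurable)] with z hz
      exact prod_congr rfl fun i hi => (hz i hi).1.trans (hz i hi).2
    refine (condExp_congr_ae e1).trans (EventuallyEq.trans (ce_eq_of_tests hle
      (BM.pr (ρ := fun i z => f' i (p i z)) fun i _ => bm_of ((b1 i).1.comp (hp i).measurable)
        ((b1 i).2.imp fun _ h _ => h _)) (B.a.bm_comp d.D _ _ _ _ (mq i0) m.bm) ?_) e2.symm)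
    rintro a ⟨a1, c, hc⟩
    obtain ⟨g, g1, g2, g3⟩ := B.a.fact d.D W.μ _ a (max c 0) (le_sup_left.trans hle)
      (le_max_right _ _) a1 (hc.mono fun _ h => h.trans (le_max_left _ _))
    have := (i2 m i0 g1 ⟨_, g2⟩).trans (tr (mq i0) ((bm_of g1 ⟨_, g2⟩).mul m.bm)).symm
    refine (integral_congr_ae ?_).trans (this.trans (integral_congr_ae ?_)) <;>
      · filter_upwards [g3] with z hz
        rw [hz, mul_comm] <;> rfl
  · refine H.gn.le.trans (iSup₂_le fun F hF => measurable_iff_comap_le.1 (ind (P := fun F =>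
      Measurable[⨆ i, pull W.μ (p i) (d.X i).ms] (hat F)) (fun m => ?_)
      (fun F hF G hG a b => ?_) (fun c F hF a => ?_) F hF))
    · rw [show hat m.ev = _ from funext fun w => hat_ev (H.ch w) m]
      refine Finset.measurable_prod _ fun i _ => Measurable.mono (fun A hA => ?_)
        (le_iSup (fun i => pull W.μ (p i) (d.X i).ms) i) le_rfl
      refine (B.a.mem _ _ (hp i).measurable.comap_le _).2 ⟨hm _ (crd_mem i (m.bd i)) hA, _,
        ⟨_, (m.bd i).1 hA, rfl⟩, ?_⟩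
      filter_upwards [hp' i _ (m.bd i)] with w hw
      exact congrArg (· ∈ A) hw.symm
    · rw [show hat (fun s => F s + G s) = _ from funext fun w => (H.ch w).add F hF G hG]
      exact a.add b
    · rw [show hat (fun s => c * F s) = _ from funext fun w =>
        ((H.ch w).mul _ ((salg d).const c) F hF).trans (by rw [(H.ch w).const])]
      exact a.const_mul c

end RP

theorem rp : RPR := by
  intro B R ι X C D q i0 hn hD hq he
  classical
  have : ∀ (i : ι) (f : (X i).X → ℂ), ∃ g : C.X → ℂ, ((f = fun _ => 1) → g = fun _ => 1) ∧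
      (f ∈ Bdd (X i).X → Measurable[D] g ∧ (∃ c : ℝ, ∀ y, ‖g y‖ ≤ c) ∧
        (X i).μ[f | pull (X i).μ (q i) D] =ᵐ[(X i).μ] fun x => g (q i x)) := fun i f => by
    have hle := B.a.pull_le D _ _ _ (hq i) hD.le
    by_cases h1 : f = fun _ => 1
    · exact ⟨_, fun _ => rfl, fun _ => ⟨measurable_const, ⟨1, fun _ => by simp⟩, by
        rw [h1, condExp_const hle]⟩⟩
    by_cases hf : f ∈ Bdd (X i).X
    · obtain ⟨a, c, hc⟩ := (RP.bm_of (μ := (X i).μ) hf.1 hf.2).ce (pull (X i).μ (q i) D)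
      obtain ⟨g, g1, g2, g3⟩ := B.a.fact D _ _ _ (max c 0) (le_sup_left.trans hle)
        (le_max_right _ _) a (hc.mono fun _ h => h.trans (le_max_left _ _))
      exact ⟨g, fun h => absurd h h1, fun _ => ⟨g1, ⟨_, g2⟩, g3⟩⟩
    · exact ⟨0, fun h => absurd h h1, fun h => absurd h hf⟩
  choose E h1 h2 using this
  exact RP.main B R ⟨ι, X, C, D, q, hD, hq, he, E, fun i => h1 i _ rfl, fun i f h => (h2 i f h).1,
    fun i f h => (h2 i f h).2.1, fun i f h => (h2 i f h).2.2⟩ i0 hn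

end T4x

end

end PkRP

section PkLine

/-! Existence of the limit system of the labelled families. -/

set_option autoImplicit false
set_option linter.unusedVariables false
set_option linter.unusedSectionVars false

open MeasureTheory ProbabilityTheory Filter Topology Function Finset ComplexConjugate
open scoped BigOperators

noncomputable section

namespace T4x

open T3x

variable [Grp]

namespace Line

variable (ν : Wt) (M : ℕ)

lemma av_const (c : ℂ) : ν.av M (fun _ => c) = c := by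
  rw [Wt.av, ← Finset.sum_smul, ν.one, one_smul]

lemma av_add (φ ψ : ℤ → ℂ) : ν.av M (fun d => φ d + ψ d) = ν.av M φ + ν.av M ψ := by
  simp only [Wt.av, smul_add, Finset.sum_add_distrib]

lemma av_mul (c : ℂ) (φ : ℤ → ℂ) : ν.av M (fun d => c * φ d) = c * ν.av M φ := by
  simp only [Wt.av, Finset.mul_sum, mul_smul_comm]

lemma av_mem {K : Set ℂ} (hK : Convex ℝ K) {φ : ℤ → ℂ} (h : ∀ d, φ d ∈ K) : ν.av M φ ∈ K :=
  hK.sum_mem (fun d _ => ν.nn M d) (ν.one M) fun d _ => h d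

lemma av2_mem {K : Set ℂ} (hK : Convex ℝ K) {φ : Lab → ℂ} (h : ∀ d, φ d ∈ K) : ν.av2 M φ ∈ K :=
  av_mem ν M hK fun _ => av_mem ν M hK fun _ => h _

variable {X : Sys}

lemma intg {F : Lab × X.X → ℂ} (hF : F ∈ FamS X.ms) (l : Lab) :
    Integrable (fun x => F (l, x)) X.μ := by
  obtain ⟨h, C, hC⟩ := hF
  exact Integrable.of_bound (h l).aestronglyMeasurable C (Eventually.of_forall fun x => hC _)

lemma salg : SAlg (FamS X.ms) where
  const c := ⟨fun _ => measurable_const, ‖c‖, fun _ => le_rfl⟩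
  add := by
    rintro F ⟨h, C, hC⟩ G ⟨h', C', hC'⟩
    exact ⟨fun l => (h l).add (h' l), C + C', fun s =>
      (norm_add_le _ _).trans (add_le_add (hC s) (hC' s))⟩
  mul := by
    rintro F ⟨h, C, hC⟩ G ⟨h', C', hC'⟩
    exact ⟨fun l => (h l).mul (h' l), C * C', fun s => (norm_mul_le _ _).trans
      (mul_le_mul (hC s) (hC' s) (norm_nonneg _) ((norm_nonneg _).trans (hC s)))⟩
  cj := by
    rintro F ⟨h, C, hC⟩
    exact ⟨fun l => Complex.continuous_conj.measurable.comp (h l), C, fun s => by simpa using hC s⟩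
  bdd F hF := hF.2

lemma ex_lim (U : Ultrafilter ℕ) (F : Lab × X.X → ℂ) : ∃ a : ℂ, F ∈ FamS X.ms →
    Tendsto (fun M => ν.av2 M fun l => ∫ x, F (l, x) ∂X.μ) U (𝓝 a) := by
  by_cases hF : F ∈ FamS X.ms
  · obtain ⟨C, hC⟩ := hF.2
    obtain ⟨a, -, ha⟩ := (isCompact_closedBall (0 : ℂ) C).ultrafilter_le_nhds
      (U.map fun M => ν.av2 M fun l => ∫ x, F (l, x) ∂X.μ) (by
        rw [Ultrafilter.coe_map, le_principal_iff, Filter.mem_map]
        refine Eventually.of_forall fun M => av2_mem ν M (convex_closedBall _ _) fun l => ?_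
        rw [mem_closedBall_zero_iff]
        simpa using norm_integral_le_of_norm_le_const (μ := X.μ)
          (Eventually.of_forall fun x => hC (l, x)))
    exact ⟨a, fun _ => ha⟩
  · exact ⟨0, fun h => (hF h).elim⟩

end Line

open Line

theorem line : LineR := by
  intro bas real ν U X nice
  choose Λ hΛ using ex_lim ν (X := X) U
  have A := salg (X := X)
  have uq : ∀ F ∈ FamS X.ms, ∀ a, Tendsto (fun M => ν.av2 M fun l => ∫ x, F (l, x) ∂X.μ) U (𝓝 a) →
      Λ F = a := fun F hF a h => tendsto_nhds_unique (hΛ F hF) h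
  have cs : ∀ F ∈ FamS X.ms, ∀ a, (∀ l, ∫ x, F (l, x) ∂X.μ = a) → Λ F = a := fun F hF a h =>
    uq F hF a (by simp only [h, Wt.av2, av_const]; exact tendsto_const_nhds)
  let t : Γ → Lab × X.X → Lab × X.X := fun n s => (s.1, X.Tz n s.2)
  have ht : ∀ n, ∀ F ∈ FamS X.ms, (fun s => F (t n s)) ∈ FamS X.ms := fun n F hF =>
    ⟨fun l => (hF.1 l).comp (X.mp n).measurable, hF.2.imp fun C h s => h _⟩
  obtain ⟨W, hat, R⟩ := real (Lab × X.X) (FamS X.ms) Λ t A
    (fun F hF G hG => uq _ (A.add F hF G hG) _ (by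
      simp only [fun l => integral_add (intg hF l) (intg hG l), Wt.av2, av_add]
      exact (hΛ F hF).add (hΛ G hG)))
    (fun c F hF => uq _ (A.mul _ (A.const c) F hF) _ (by
      simp only [integral_const_mul, Wt.av2, av_mul]
      exact (hΛ F hF).const_mul c))
    (cs _ (A.const 1) 1 fun l => by simp)
    (fun F hF h => by
      have hK : Convex ℝ {z : ℂ | 0 ≤ z.re ∧ z.im = 0} :=
        (convex_halfSpace_re_ge 0).inter (convex_hyperplane (IsLinearMap.mk Complex.add_im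
          Complex.smul_im) 0)
      have hc : IsClosed {z : ℂ | 0 ≤ z.re ∧ z.im = 0} :=
        (isClosed_le continuous_const Complex.continuous_re).inter
          (isClosed_eq Complex.continuous_im continuous_const)
      refine hc.mem_of_tendsto (hΛ F hF) (Eventually.of_forall fun M => av2_mem ν M hK fun l => ?_)
      have h1 := integral_re (intg hF l)
      have h2 := integral_im (intg hF l)
      simp only [RCLike.re_to_complex, RCLike.im_to_complex] at h1 h2
      refine ⟨h1 ▸ integral_nonneg fun x => (h _).1, h2 ▸ ?_⟩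
      simp only [(h _).2, integral_zero])
    (fun s => Prod.ext rfl (X.zero _)) (fun n m s => Prod.ext rfl (X.add _ _ _)) ht
    (fun n F hF => uq _ (ht n F hF) _ (by
      have : ∀ l, ∫ x, F (t n (l, x)) ∂X.μ = ∫ x, F (l, x) ∂X.μ := fun l => by
        have h := X.mp n
        have h1 : AEStronglyMeasurable (fun x => F (l, x)) (X.μ.map (X.Tz n)) :=
          (hF.1 l).aestronglyMeasurable
        have h2 := integral_map h.measurable.aemeasurable h1
        rw [h.map_eq] at h2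
        exact h2.symm
      simp only [this]
      exact hΛ F hF))
  have up : ∀ (s : Slot), ∀ f ∈ Bdd X.X,
      (fun z : Lab × X.X => f (X.Tz (rho s z.1) z.2)) ∈ FamS X.ms := fun s f hf =>
    ⟨fun l => hf.1.comp (bas.t.mp X (rho s l)).measurable, hf.2.imp fun C h z => h _⟩
  have ms : ∀ F ∈ FamS X.ms, Measurable (hat F) := fun F hF =>
    measurable_iff_comap_le.2 (le_of_le_of_eq (le_iSup₂ (f := fun F (_ : F ∈ FamS X.ms) =>
      MeasurableSpace.comap (hat F) inferInstance) F hF) R.gn.symm)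
  have sl : ∀ s : Slot, ∃ p : W.X → X.X, MeasurePreserving p W.μ X.μ ∧ ∀ f ∈ Bdd X.X,
      (fun w => f (p w)) =ᵐ[W.μ] hat fun z => f (X.Tz (rho s z.1) z.2) := fun s =>
    nice W.X W.μ (fun f => hat fun z => f (X.Tz (rho s z.1) z.2))
      (fun w => ⟨(R.ch w).const, fun F hF G hG => (R.ch w).add _ (up s F hF) _ (up s G hG),
        fun F hF G hG => (R.ch w).mul _ (up s F hF) _ (up s G hG),
        fun F hF => (R.ch w).cj _ (up s F hF),
        fun F hF C h => (R.ch w).bdd _ (up s F hF) C fun z => h _⟩)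
      (fun f hf => ms _ (up s f hf)) fun f hf => by
        rw [R.int _ (up s f hf)]
        refine cs _ (up s f hf) _ fun l => ?_
        have h := bas.t.mp X (rho s l)
        rw [← integral_map h.measurable.aemeasurable hf.1.aestronglyMeasurable, h.map_eq]
  choose π hπ hs using sl
  refine ⟨⟨W, hat, π, R.nice, R.ch, R.all, R.gn, fun F hF => R.int F hF ▸ hΛ F hF, R.eqv,
    fun s => ⟨hπ s, fun n => bas.a.keq_of _ _ _ _ fun f hf hb => ?_⟩, hs⟩⟩
  have h1 : f ∈ Bdd X.X := ⟨hf, 1, hb⟩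
  have h2 : (fun x => f (X.Tz n x)) ∈ Bdd X.X :=
    ⟨hf.comp (X.mp n).measurable, 1, fun x => hb _⟩
  filter_upwards [(W.mp n).quasiMeasurePreserving.ae_eq_comp (hs s f h1), hs s _ h2] with w e1 e2
  refine e1.trans (Eq.trans ?_ e2.symm)
  refine (R.eqv n _ (up s f h1) w).symm.trans ?_
  congr 1
  funext z
  change f (X.Tz (rho s z.1) (X.Tz n z.2)) = _
  rw [← X.add, ← X.add, add_comm]

end T4x

end

end PkLine
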