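import Pool.Agent.MP_154433_an.t4.Spec

/-! Rows for commuting maps, part A3. -/

section PkLfA

/-! Lifts of embeddings to the lines. -/

set_option autoImplicit false
set_option linter.unusedVariables false
set_option warn.classDefReducibility false

open MeasureTheory ProbabilityTheory Filter Topology Function Finset ComplexConjugate
open scoped BigOperators ENNReal NNReal

noncomputable section

namespace T4x

open T3x

variable [Grp]

namespace LfAx

/-- the sets whose two preimages agree up to null sets -/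
def ks {Ω Ω' : Type} {m0 : MeasurableSpace Ω} (μ : Measure Ω) (a a' : Ω → Ω') :
    MeasurableSpace Ω' where
  MeasurableSet' A := a ⁻¹' A =ᵐ[μ] a' ⁻¹' A
  measurableSet_empty := by simp
  measurableSet_compl A h := by simpa using h.compl
  measurableSet_iUnion f h := by
    simp only [Set.preimage_iUnion]
    exact Filter.EventuallyEq.countable_iUnion h

lemma keq_gen {Ω W S : Type} {m0 : MeasurableSpace Ω} (μ : Measure Ω) (A : Set (S → ℂ))
    (hat : (S → ℂ) → W → ℂ) (a a' : Ω → W)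
    (h : ∀ F ∈ A, (fun x => hat F (a x)) =ᵐ[μ] fun x => hat F (a' x)) :
    KEq μ (gen A hat) a a' := by
  have h1 : gen A hat ≤ ks μ a a' := by
    refine iSup₂_le fun F hF => ?_
    rintro _ ⟨E, hE, rfl⟩
    change a ⁻¹' (hat F ⁻¹' E) =ᵐ[μ] a' ⁻¹' (hat F ⁻¹' E)
    refine eventuallyEq_set.2 ((h F hF).mono fun x hx => ?_)
    simp only [Set.mem_preimage] at hx ⊢
    rw [hx]
  exact fun E hE => h1 E hE

lemma meas_gen {W S : Type} (A : Set (S → ℂ)) (hat : (S → ℂ) → W → ℂ) {F : S → ℂ} (hF : F ∈ A) :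
    Measurable[gen A hat] (hat F) :=
  measurable_iff_comap_le.2
    (le_iSup₂ (f := fun F (_ : F ∈ A) => MeasurableSpace.comap (hat F) inferInstance) F hF)

/-- two probability measures that agree on a generating algebra are equal -/
lemma ext_gen (hb : Bas) {W S : Type} [m : MeasurableSpace W] (A : Set (S → ℂ)) (hA : SAlg A)
    (hat : (S → ℂ) → W → ℂ) (ch : ∀ w, IsChar A fun F => hat F w) (gn : m = gen A hat)
    (μ1 μ2 : Measure W) [IsProbabilityMeasure μ1] [IsProbabilityMeasure μ2]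
    (h : ∀ F ∈ A, ∫ w, hat F w ∂μ1 = ∫ w, hat F w ∂μ2) : μ1 = μ2 := by
  have hm : ∀ F ∈ A, Measurable (hat F) := fun F hF => by
    have := meas_gen A hat hF
    rwa [← gn] at this
  have hbd : ∀ F ∈ A, ∃ C : ℝ, ∀ w, ‖hat F w‖ ≤ C := fun F hF => by
    obtain ⟨C, hC⟩ := hA.bdd F hF
    exact ⟨C, fun w => (ch w).bdd F hF C hC⟩
  set κ : Measure W := (2⁻¹ : ℝ≥0∞) • (μ1 + μ2) with hκ
  have : IsProbabilityMeasure κ := ⟨by
    simp only [hκ, Measure.smul_apply, Measure.add_apply, measure_univ, smul_eq_mul]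
    rw [one_add_one_eq_two]
    exact ENNReal.inv_mul_cancel (by norm_num) (by norm_num)⟩
  have a0 : μ1 + μ2 ≪ κ := Measure.absolutelyContinuous_smul (by norm_num)
  have a1 : μ1 ≪ κ := (Measure.absolutelyContinuous_of_le (Measure.le_add_right le_rfl)).trans a0
  have a2 : μ2 ≪ κ := (Measure.absolutelyContinuous_of_le (Measure.le_add_left le_rfl)).trans a0
  set g : W → ℂ := fun w => (((μ1.rnDeriv κ w).toReal : ℝ) : ℂ) - (((μ2.rnDeriv κ w).toReal : ℝ) : ℂ)
    with hg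
  have i1 : Integrable (fun w => (((μ1.rnDeriv κ w).toReal : ℝ) : ℂ)) κ :=
    (Measure.integrable_toReal_rnDeriv (μ := μ1) (ν := κ)).ofReal
  have i2 : Integrable (fun w => (((μ2.rnDeriv κ w).toReal : ℝ) : ℂ)) κ :=
    (Measure.integrable_toReal_rnDeriv (μ := μ2) (ν := κ)).ofReal
  have gi : Integrable g κ := i1.sub i2
  have e : gen (hat '' A) id ⊔ nul κ = m := by
    refine le_antisymm (sup_le ?_ (hb.a.nul_le κ)) (le_sup_of_le_left ?_)
    · refine iSup₂_le ?_
      rintro _ ⟨F, hF, rfl⟩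
      exact measurable_iff_comap_le.1 (hm F hF)
    · rw [gn]
      refine iSup₂_le fun F hF => ?_
      exact measurable_iff_comap_le.1 (meas_gen (hat '' A) id ⟨F, hF, rfl⟩)
  have key := hb.d.perp κ (hat '' A) ?_ ?_ ?_ ?_ g gi ?_
  · rw [e] at key
    have k2 : g =ᵐ[κ] 0 :=
      (condExp_of_aestronglyMeasurable' le_rfl gi.aestronglyMeasurable gi).symm.trans key
    have k3 : μ1.rnDeriv κ =ᵐ[κ] μ2.rnDeriv κ := by
      filter_upwards [k2, Measure.rnDeriv_lt_top μ1 κ, Measure.rnDeriv_lt_top μ2 κ] with w h0 h1 h2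
      have h3 : (μ1.rnDeriv κ w).toReal = (μ2.rnDeriv κ w).toReal := by
        have h4 : g w = 0 := h0
        rw [hg] at h4
        exact_mod_cast sub_eq_zero.1 h4
      exact (ENNReal.toReal_eq_toReal_iff' h1.ne h2.ne).1 h3
    rw [← Measure.withDensity_rnDeriv_eq μ1 κ a1, ← Measure.withDensity_rnDeriv_eq μ2 κ a2]
    exact withDensity_congr_ae k3
  · rintro _ ⟨F, hF, rfl⟩
    exact ⟨hm F hF, hbd F hF⟩
  · exact ⟨_, ⟨_, hA.const 1, rfl⟩, Eventually.of_forall fun w => (ch w).const 1⟩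
  · rintro _ ⟨F, hF, rfl⟩ _ ⟨G, hG, rfl⟩
    exact ⟨_, ⟨_, hA.mul F hF G hG, rfl⟩, Eventually.of_forall fun w => (ch w).mul F hF G hG⟩
  · rintro _ ⟨F, hF, rfl⟩
    exact ⟨_, ⟨_, hA.cj F hF, rfl⟩, Eventually.of_forall fun w => (ch w).cj F hF⟩
  · rintro _ ⟨F, hF, rfl⟩
    obtain ⟨C, hC⟩ := hbd F hF
    have j1 := i1.mul_bdd (hm F hF).aestronglyMeasurable (Eventually.of_forall hC)
    have j2 := i2.mul_bdd (hm F hF).aestronglyMeasurable (Eventually.of_forall hC)
    have r1 := integral_rnDeriv_smul (f := hat F) a1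
    have r2 := integral_rnDeriv_smul (f := hat F) a2
    simp only [Complex.real_smul] at r1 r2
    simp only [hg, sub_mul]
    rw [integral_sub j1 j2, r1, r2, h F hF, sub_self]

lemma salg {Ω : Type} (B : MeasurableSpace Ω) : SAlg (FamS B) where
  const c := ⟨fun l => measurable_const, ‖c‖, fun _ => le_rfl⟩
  add := by
    rintro F ⟨h1, C, hC⟩ G ⟨h2, D, hD⟩
    exact ⟨fun l => (h1 l).add (h2 l), C + D, fun s => (norm_add_le _ _).trans
      (add_le_add (hC s) (hD s))⟩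
  mul := by
    rintro F ⟨h1, C, hC⟩ G ⟨h2, D, hD⟩
    refine ⟨fun l => (h1 l).mul (h2 l), C * D, fun s => ?_⟩
    rw [norm_mul]
    exact mul_le_mul (hC s) (hD s) (norm_nonneg _) ((norm_nonneg _).trans (hC s))
  cj := by
    rintro F ⟨h1, C, hC⟩
    exact ⟨fun l => Complex.continuous_conj.measurable.comp (h1 l), C, fun s => by
      simpa using hC s⟩
  bdd F hF := hF.2

lemma fam_comp {Ω Ω' : Type} {B : MeasurableSpace Ω} {B' : MeasurableSpace Ω'} {p : Ω' → Ω}
    (hp : Measurable[B', B] p) {F : Lab × Ω → ℂ} (hF : F ∈ FamS B) :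
    (fun z : Lab × Ω' => F (z.1, p z.2)) ∈ FamS B' := by
  obtain ⟨h1, C, hC⟩ := hF
  exact ⟨fun l => (h1 l).comp hp, C, fun s => hC _⟩

lemma fam_mono {Ω : Type} {B B' : MeasurableSpace Ω} (h : B ≤ B') {F : Lab × Ω → ℂ}
    (hF : F ∈ FamS B) : F ∈ FamS B' :=
  ⟨fun l => (hF.1 l).mono h le_rfl, hF.2⟩

lemma hat_meas {ν : Wt} {U : Ultrafilter ℕ} {X : Sys} (L : Ln ν U X) {F : Lab × X.X → ℂ}
    (hF : F ∈ FamS X.ms) : Measurable (L.hat F) := by
  have := meas_gen (FamS X.ms) L.hat hF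
  rwa [← L.gn] at this

/-- families pulled back along equivalent maps have the same internal function -/
lemma hat_keq (hb : Bas) (hl : LfB) {ν : Wt} {U : Ultrafilter ℕ} {X' : Sys} (L' : Ln ν U X')
    {Ω : Type} {m : MeasurableSpace Ω} (μ : Measure Ω) (a a' : Lab → X'.X → Ω)
    (ha : ∀ l, MeasurePreserving (a l) X'.μ μ) (ha' : ∀ l, MeasurePreserving (a' l) X'.μ μ)
    (hk : ∀ l, KEq X'.μ m (a l) (a' l)) {F : Lab × Ω → ℂ} (hF : F ∈ FamS m) :
    L'.hat (fun z => F (z.1, a z.1 z.2)) =ᵐ[L'.W.μ] L'.hat (fun z => F (z.1, a' z.1 z.2)) := by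
  obtain ⟨h1, C, hC⟩ := hF
  refine hl.congr L' _ ⟨fun l => (h1 l).comp (ha l).measurable, C, fun s => hC _⟩ _
    ⟨fun l => (h1 l).comp (ha' l).measurable, C, fun s => hC _⟩ fun l => ?_
  exact hb.a.keq_fun m X'.μ μ (a l) (a' l) (fun x => F (l, x)) (ha l) (ha' l) (hk l)
    (h1 l).aestronglyMeasurable

lemma ex (hb : Bas) (hl : LfB) {ν : Wt} {U : Ultrafilter ℕ} {X' X : Sys} (L' : Ln ν U X')
    (L : Ln ν U X) (p : X'.X → X.X) (hp : Emb X' X p) : ∃ Lp, IsLift L' L p Lp := by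
  have hc : ∀ F ∈ FamS X.ms, (fun z : Lab × X'.X => F (z.1, p z.2)) ∈ FamS X'.ms :=
    fun F hF => fam_comp hp.mp.measurable hF
  have hch : ∀ w', IsChar (FamS X.ms) fun F => L'.hat (fun z => F (z.1, p z.2)) w' := fun w' =>
    { const := fun c => (L'.ch w').const c
      add := fun F hF G hG => (L'.ch w').add _ (hc F hF) _ (hc G hG)
      mul := fun F hF G hG => (L'.ch w').mul _ (hc F hF) _ (hc G hG)
      cj := fun F hF => (L'.ch w').cj _ (hc F hF)
      bdd := fun F hF C hC => (L'.ch w').bdd _ (hc F hF) C fun s => hC _ }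
  choose Lp hLp using fun w' => L.all _ (hch w')
  have hm : Measurable Lp := by
    refine measurable_iff_comap_le.2 ?_
    have e : MeasurableSpace.comap Lp L.W.ms = MeasurableSpace.comap Lp (gen (FamS X.ms) L.hat) :=
      congrArg _ L.gn
    refine e.trans_le ?_
    simp only [gen, MeasurableSpace.comap_iSup, MeasurableSpace.comap_comp]
    refine iSup₂_le fun F hF => ?_
    have e2 : L.hat F ∘ Lp = L'.hat fun z => F (z.1, p z.2) := funext fun w => hLp w F hF
    rw [e2]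
    exact measurable_iff_comap_le.1 (hat_meas L' (hc F hF))
  have hmp : MeasurePreserving Lp L'.W.μ L.W.μ := by
    refine ⟨hm, ?_⟩
    have : IsProbabilityMeasure (L'.W.μ.map Lp) := Measure.isProbabilityMeasure_map hm.aemeasurable
    refine ext_gen hb (FamS X.ms) (salg _) L.hat L.ch L.gn _ _ fun F hF => ?_
    rw [integral_map hm.aemeasurable (hat_meas L hF).aestronglyMeasurable]
    have e2 : (fun w => L.hat F (Lp w)) = L'.hat fun z => F (z.1, p z.2) :=
      funext fun w => hLp w F hF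
    rw [e2]
    have t1 := L'.lim _ (hc F hF)
    have t2 := L.lim F hF
    have e3 : (fun M => ν.av2 M fun l => ∫ x, F (l, p x) ∂X'.μ) =
        fun M => ν.av2 M fun l => ∫ x, F (l, x) ∂X.μ := by
      funext M
      congr 1
      funext l
      rw [← hp.mp.map_eq, integral_map hp.mp.measurable.aemeasurable
        (hF.1 l).aestronglyMeasurable]
    exact tendsto_nhds_unique (e3 ▸ t1) t2
  refine ⟨Lp, ⟨hmp, fun n => ?_⟩, fun F hF => Eventually.of_forall fun w => hLp w F hF⟩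
  have k := keq_gen L'.W.μ (FamS X.ms) L.hat (Lp ∘ L'.W.Tz n) (L.W.Tz n ∘ Lp) fun F hF => ?_
  · rwa [← L.gn] at k
  have hT : (fun s : Lab × X.X => F (s.1, X.Tz n s.2)) ∈ FamS X.ms :=
    fam_comp (X.mp n).measurable hF
  have k2 := hat_keq hb hl L' X.μ (fun _ => p ∘ X'.Tz n) (fun _ => X.Tz n ∘ p)
    (fun _ => hp.mp.comp (X'.mp n)) (fun _ => (X.mp n).comp hp.mp) (fun _ => hp.eqv n) hF
  refine k2.mono fun w hw => ?_
  simp only [Function.comp_apply] at hw ⊢
  rw [hLp _ F hF, ← L'.eqv n _ (hc F hF), ← L.eqv n F hF, hLp _ _ hT]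
  exact hw

lemma slot (hb : Bas) (hl : LfB) {ν : Wt} {U : Ultrafilter ℕ} {X' X : Sys} (L' : Ln ν U X')
    (L : Ln ν U X) (p : X'.X → X.X) (Lp : L'.W.X → L.W.X) (s : Slot) (hp : Emb X' X p)
    (h : IsLift L' L p Lp) : KEq L'.W.μ X.ms (L.π s ∘ Lp) (p ∘ L'.π s) := by
  refine hb.a.keq_of X.ms L'.W.μ _ _ fun f hf hf1 => ?_
  have f1 : f ∈ Bdd X.X := ⟨hf, 1, hf1⟩
  have f2 : (fun x => f (p x)) ∈ Bdd X'.X := ⟨hf.comp hp.mp.measurable, 1, fun x => hf1 _⟩
  have f3 : (fun z : Lab × X.X => f (X.Tz (rho s z.1) z.2)) ∈ FamS X.ms :=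
    ⟨fun l => hf.comp (hb.t.mp X (rho s l)).measurable, 1, fun z => hf1 _⟩
  have f4 : (fun z : Lab × X.X => f z.2) ∈ FamS X.ms := ⟨fun l => hf, 1, fun z => hf1 _⟩
  have k1 := h.emb.mp.quasiMeasurePreserving.ae_eq_comp (L.slot s f f1)
  have k2 := h.hat _ f3
  have k3 := hat_keq hb hl L' X.μ (fun l => p ∘ X'.Tz (rho s l)) (fun l => X.Tz (rho s l) ∘ p)
    (fun l => hp.mp.comp (hb.t.mp X' _)) (fun l => (hb.t.mp X _).comp hp.mp)
    (fun l => hb.t.emb_z X' X p _ hp) f4
  have k4 := L'.slot s _ f2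
  filter_upwards [k1, k2, k3, k4] with w h1 h2 h3 h4
  simp only [Function.comp_apply] at h1 h2 h3 h4 ⊢
  rw [h1, h2, h4]
  exact h3.symm

lemma shp (hb : Bas) {ν : Wt} {U : Ultrafilter ℕ} {X' X : Sys} (L' : Ln ν U X')
    (L : Ln ν U X) (p : X'.X → X.X) (Lp : L'.W.X → L.W.X) (B : MeasurableSpace X.X)
    (B' : MeasurableSpace X'.X) (h : IsLift L' L p Lp) (hB : Fac X B) (hB' : Fac X' B')
    (hle : pull X'.μ p B ≤ B') : pull L'.W.μ Lp (L.shp B) ≤ L'.shp B' := by
  have g1 : gen (FamS B') L'.hat ≤ L'.W.ms := iSup₂_le fun F hF =>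
    measurable_iff_comap_le.1 (hat_meas L' (fam_mono hB'.le hF))
  have hp : Measurable[B', B] p := measurable_iff_comap_le.2 (le_sup_left.trans hle)
  refine sup_le ?_ le_sup_right
  rw [Ln.shp, MeasurableSpace.comap_sup]
  refine sup_le ?_ (le_sup_of_le_right ?_)
  · simp only [gen, MeasurableSpace.comap_iSup, MeasurableSpace.comap_comp]
    refine iSup₂_le fun F hF => ?_
    rintro _ ⟨E, hE, rfl⟩
    have F0 := fam_mono hB.le hF
    refine (hb.a.mem _ L'.W.μ g1 _).2 ⟨((hat_meas L F0).comp h.emb.mp.measurable) hE,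
      _, meas_gen (FamS B') L'.hat (fam_comp hp hF) hE, ?_⟩
    refine eventuallyEq_set.2 ((h.hat F F0).mono fun w hw => ?_)
    simp only [Set.mem_preimage, Function.comp_apply] at hw ⊢
    rw [hw]
  · rw [nul, MeasurableSpace.comap_generateFrom]
    refine MeasurableSpace.generateFrom_mono ?_
    rintro _ ⟨A, ⟨h1, h2⟩, rfl⟩
    exact ⟨h.emb.mp.measurable h1, by rw [h.emb.mp.measure_preimage h1.nullMeasurableSet, h2]⟩

end LfAx

theorem lfA : LfAR := fun hb hl =>
  { ex := fun L' L p hp => LfAx.ex hb hl L' L p hp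
    slot := fun L' L p Lp s hp h => LfAx.slot hb hl L' L p Lp s hp h
    shp := fun L' L p Lp B B' _ h hB hB' hle => LfAx.shp hb L' L p Lp B B' h hB hB' hle
    uniq := by
      intro ν U X' X L' L p p' Lp Lp' hp hp' hk h h'
      have k := LfAx.keq_gen L'.W.μ (FamS X.ms) L.hat Lp Lp' fun F hF =>
        (h.hat F hF).trans ((LfAx.hat_keq hb hl L' X.μ (fun _ => p) (fun _ => p')
          (fun _ => hp.mp) (fun _ => hp'.mp) (fun _ => hk) hF).trans (h'.hat F hF).symm)
      rwa [← L.gn] at k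
    comp := by
      intro ν U X'' X' X L'' L' L q p Lq Lp hq hp h1 h2
      refine ⟨hb.t.emb_comp _ _ _ _ _ h1.emb h2.emb, fun F hF => ?_⟩
      have k1 := h1.emb.mp.quasiMeasurePreserving.ae_eq_comp (h2.hat F hF)
      have k2 := h1.hat _ (LfAx.fam_comp hp.mp.measurable hF)
      exact k1.trans k2 }

end T4x

end

end PkLfA

section PkLfB

/-! Row LfB: internal functions on the limit system. -/

set_option autoImplicit false
set_option linter.unusedVariables false
set_option warn.classDefReducibility false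

open MeasureTheory ProbabilityTheory Filter Topology Function Finset ComplexConjugate
open scoped BigOperators
open Fib27 (BM)

noncomputable section

namespace T4x

open T3x

namespace LfBx

section Alg

variable {Ω : Type} {B : MeasurableSpace Ω} {F G : Lab × Ω → ℂ}

theorem fam_const (B : MeasurableSpace Ω) (c : ℂ) : (fun _ => c) ∈ FamS B :=
  ⟨fun _ => measurable_const, ‖c‖, fun _ => le_rfl⟩

theorem fam_add (hF : F ∈ FamS B) (hG : G ∈ FamS B) : (fun s => F s + G s) ∈ FamS B := by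
  obtain ⟨h1, C, hC⟩ := hF
  obtain ⟨h2, D, hD⟩ := hG
  exact ⟨fun l => (h1 l).add (h2 l), C + D,
    fun s => (norm_add_le _ _).trans (add_le_add (hC s) (hD s))⟩

theorem fam_mul (hF : F ∈ FamS B) (hG : G ∈ FamS B) : (fun s => F s * G s) ∈ FamS B := by
  obtain ⟨h1, C, hC⟩ := hF
  obtain ⟨h2, D, hD⟩ := hG
  refine ⟨fun l => (h1 l).mul (h2 l), C * D, fun s => ?_⟩
  rw [norm_mul]
  exact mul_le_mul (hC s) (hD s) (norm_nonneg _) ((norm_nonneg _).trans (hC s))

theorem fam_map (hF : F ∈ FamS B) {φ : ℂ → ℂ} (hφ : Continuous φ) :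
    (fun s => φ (F s)) ∈ FamS B := by
  obtain ⟨h1, C, hC⟩ := hF
  obtain ⟨D, hD⟩ := (isCompact_closedBall (0 : ℂ) C).exists_bound_of_continuousOn hφ.continuousOn
  exact ⟨fun l => hφ.measurable.comp (h1 l), D, fun s => hD _ (by simpa using hC s)⟩

theorem fam_cmul (c : ℂ) (hF : F ∈ FamS B) : (fun s => c * F s) ∈ FamS B :=
  fam_mul (fam_const B c) hF

theorem fam_cj (hF : F ∈ FamS B) : (fun s => conj (F s)) ∈ FamS B :=
  fam_map hF Complex.continuous_conj

theorem fam_sub (hF : F ∈ FamS B) (hG : G ∈ FamS B) : (fun s => F s - G s) ∈ FamS B := by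
  have := fam_add hF (fam_cmul (-1) hG)
  simpa [sub_eq_add_neg] using this

theorem fam_nrm (hF : F ∈ FamS B) : (fun s => (‖F s‖ : ℂ)) ∈ FamS B :=
  fam_map hF (φ := fun z => (‖z‖ : ℂ)) (Complex.continuous_ofReal.comp continuous_norm)

theorem fam_mono {B' : MeasurableSpace Ω} (h : B ≤ B') (hF : F ∈ FamS B) : F ∈ FamS B' :=
  ⟨fun l => (hF.1 l).mono h le_rfl, hF.2⟩

variable {χ : (Lab × Ω → ℂ) → ℂ}

theorem ch_cmul (h : IsChar (FamS B) χ) (c : ℂ) (hF : F ∈ FamS B) :
    χ (fun s => c * F s) = c * χ F := by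
  have := h.mul _ (fam_const B c) _ hF
  rw [h.const] at this
  exact this

theorem ch_sub (h : IsChar (FamS B) χ) (hF : F ∈ FamS B) (hG : G ∈ FamS B) :
    χ (fun s => F s - G s) = χ F - χ G := by
  have h1 := h.add _ hF _ (fam_cmul (-1) hG)
  rw [ch_cmul h _ hG] at h1
  simpa [sub_eq_add_neg] using h1

theorem ch_pos (h : IsChar (FamS B) χ) {r : Lab × Ω → ℝ} (hr : ∀ s, 0 ≤ r s)
    (hF : (fun s => (r s : ℂ)) ∈ FamS B) : ∃ t : ℝ, 0 ≤ t ∧ χ (fun s => (r s : ℂ)) = t := by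
  have h1 := h.cj _ hF
  simp only [Complex.conj_ofReal] at h1
  obtain ⟨C, hC⟩ := hF.2
  have hC' : ∀ s, r s ≤ C := fun s => by
    have := hC s
    rw [Complex.norm_real, Real.norm_eq_abs] at this
    exact (le_abs_self _).trans this
  have h2 := h.bdd _ (fam_sub (fam_const B (C : ℂ)) hF) C fun s => by
    rw [← Complex.ofReal_sub, Complex.norm_real, Real.norm_eq_abs, abs_le]
    constructor <;> linarith [hr s, hC' s]
  rw [ch_sub h (fam_const B _) hF, h.const] at h2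
  have h3 := (Complex.re_le_norm _).trans h2
  simp only [Complex.sub_re, Complex.ofReal_re] at h3
  exact ⟨(χ fun s => (r s : ℂ)).re, by linarith, (Complex.conj_eq_iff_re.1 h1.symm).symm⟩

theorem ch_nrm (h : IsChar (FamS B) χ) (hF : F ∈ FamS B) :
    χ (fun s => (‖F s‖ : ℂ)) = (‖χ F‖ : ℂ) := by
  obtain ⟨t, ht, e⟩ := ch_pos h (fun s => norm_nonneg (F s)) (fam_nrm hF)
  have h1 := h.mul _ (fam_nrm hF) _ (fam_nrm hF)
  have h2 := h.mul _ hF _ (fam_cj hF)
  have h3 : (fun s => (‖F s‖ : ℂ) * (‖F s‖ : ℂ)) = fun s => F s * conj (F s) := by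
    funext s
    rw [Complex.mul_conj, Complex.normSq_eq_norm_sq]
    push_cast
    ring
  rw [h3, h2, h.cj _ hF, e, Complex.mul_conj, Complex.normSq_eq_norm_sq] at h1
  have h4 : ‖χ F‖ ^ 2 = t ^ 2 := by
    have : ((‖χ F‖ ^ 2 : ℝ) : ℂ) = ((t ^ 2 : ℝ) : ℂ) := by
      rw [h1]
      push_cast
      ring
    exact_mod_cast this
  rw [e, (pow_left_inj₀ (norm_nonneg _) ht two_ne_zero).1 h4]

/-- radial retraction to the disc of radius `C` -/
def clip (C : ℝ) (z : ℂ) : ℂ := ((C / max C ‖z‖ : ℝ) : ℂ) * z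

theorem max_eq (C : ℝ) (z : ℂ) : ((max C ‖z‖ : ℝ) : ℂ) =
    (1 / 2 : ℂ) * (((C : ℂ) + (‖z‖ : ℂ)) + (‖(C : ℂ) - (‖z‖ : ℂ)‖ : ℂ)) := by
  rw [← Complex.ofReal_sub, Complex.norm_real, Real.norm_eq_abs]
  have : max C ‖z‖ = (1 / 2 : ℝ) * ((C + ‖z‖) + |C - ‖z‖|) := by
    rcases le_total C ‖z‖ with h | h
    · rw [max_eq_right h, abs_of_nonpos (by linarith)]; ring
    · rw [max_eq_left h, abs_of_nonneg (by linarith)]; ring
  rw [this]
  push_cast
  ring

theorem clip_cont {C : ℝ} (hC : 0 < C) : Continuous (clip C) := by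
  refine Continuous.mul (Complex.continuous_ofReal.comp ?_) continuous_id
  exact continuous_const.div (continuous_const.max continuous_norm)
    fun z => (lt_max_of_lt_left hC).ne'

theorem clip_le {C : ℝ} (hC : 0 < C) (z : ℂ) : ‖clip C z‖ ≤ C := by
  have hm : 0 < max C ‖z‖ := lt_max_of_lt_left hC
  rw [clip, norm_mul, Complex.norm_real, Real.norm_of_nonneg (div_pos hC hm).le,
    div_mul_eq_mul_div, div_le_iff₀ hm]
  exact mul_le_mul_of_nonneg_left (le_max_right _ _) hC.le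

theorem clip_near {C : ℝ} (hC : 0 < C) (g z : ℂ) (hg : ‖g‖ ≤ C) :
    ‖g - clip C z‖ ≤ 2 * ‖g - z‖ := by
  rcases le_total ‖z‖ C with h | h
  · rw [clip, max_eq_left h, div_self hC.ne']
    simp only [Complex.ofReal_one, one_mul]
    linarith [norm_nonneg (g - z)]
  · have hz : 0 < ‖z‖ := hC.trans_le h
    have h1 : ‖z - clip C z‖ = ‖z‖ - C := by
      have : z - clip C z = ((1 - C / ‖z‖ : ℝ) : ℂ) * z := by
        rw [clip, max_eq_right h]
        push_cast
        ring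
      rw [this, norm_mul, Complex.norm_real,
        Real.norm_of_nonneg (sub_nonneg.2 ((div_le_one hz).2 h))]
      field_simp
    have h2 : ‖z‖ - ‖g‖ ≤ ‖g - z‖ := by
      rw [norm_sub_rev]
      exact norm_sub_norm_le _ _
    have h3 : ‖g - clip C z‖ ≤ ‖g - z‖ + ‖z - clip C z‖ := norm_sub_le_norm_sub_add_norm_sub _ _ _
    linarith

theorem ch_clip (h : IsChar (FamS B) χ) {C : ℝ} (hC : 0 < C) (hF : F ∈ FamS B) :
    χ (fun s => clip C (F s)) = clip C (χ F) := by
  have hm : ∀ z : ℂ, ((max C ‖z‖ : ℝ) : ℂ) ≠ 0 := fun z => by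
    exact_mod_cast (lt_max_of_lt_left hC).ne'
  have a1 := fam_add (fam_const B (C : ℂ)) (fam_nrm hF)
  have a2 := fam_sub (fam_const B (C : ℂ)) (fam_nrm hF)
  have a3 := fam_add a1 (fam_nrm a2)
  have h1 : χ (fun s => ((max C ‖F s‖ : ℝ) : ℂ)) = ((max C ‖χ F‖ : ℝ) : ℂ) := by
    simp only [max_eq]
    rw [ch_cmul h _ a3, h.add _ a1 _ (fam_nrm a2), h.add _ (fam_const B _) _ (fam_nrm hF),
      ch_nrm h a2, ch_sub h (fam_const B _) (fam_nrm hF), h.const, ch_nrm h hF]
  have a4 : (fun s => ((max C ‖F s‖ : ℝ) : ℂ)) ∈ FamS B := by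
    simp only [max_eq]
    exact fam_cmul _ a3
  have h2 := h.mul _ (fam_map hF (clip_cont hC)) _ a4
  have h3 : (fun s => clip C (F s) * ((max C ‖F s‖ : ℝ) : ℂ)) = fun s => (C : ℂ) * F s := by
    funext s
    have := hm (F s)
    rw [clip, Complex.ofReal_div]
    field_simp
  rw [h3, ch_cmul h _ hF, h1] at h2
  have := hm (χ F)
  rw [clip, Complex.ofReal_div]
  field_simp
  exact h2.symm

end Alg

theorem gen_meas {S Ω : Type} {A : Set (S → ℂ)} (hat : (S → ℂ) → Ω → ℂ) {F : S → ℂ}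
    (hF : F ∈ A) : Measurable[gen A hat] (hat F) :=
  measurable_iff_comap_le.2 (le_iSup₂_of_le (f := fun F (_ : F ∈ A) =>
    MeasurableSpace.comap (hat F) (inferInstance : MeasurableSpace ℂ)) F hF le_rfl)

theorem gen_le {S Ω : Type} {A : Set (S → ℂ)} (hat : (S → ℂ) → Ω → ℂ) {m : MeasurableSpace Ω}
    (h : ∀ F ∈ A, Measurable[m] (hat F)) : gen A hat ≤ m :=
  iSup₂_le fun F hF => measurable_iff_comap_le.1 (h F hF)

theorem gen_image {S Ω : Type} (A : Set (S → ℂ)) (hat : (S → ℂ) → Ω → ℂ) :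
    gen (hat '' A) id = gen A hat := by
  unfold gen
  rw [iSup_image]
  rfl

variable [Grp] {ν : Wt} {U : Ultrafilter ℕ} {X : Sys}

theorem hat_meas (L : Ln ν U X) {F : Lab × X.X → ℂ} (hF : F ∈ FamS X.ms) :
    Measurable[L.W.ms] (L.hat F) := by
  rw [L.gn]
  exact gen_meas _ hF

theorem hat_bdd (L : Ln ν U X) {F : Lab × X.X → ℂ} (hF : F ∈ FamS X.ms) :
    L.hat F ∈ @Bdd L.W.X L.W.ms := by
  obtain ⟨C, hC⟩ := hF.2
  exact ⟨hat_meas L hF, C, fun w => (L.ch w).bdd F hF C hC⟩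

theorem hat_bm (L : Ln ν U X) {F : Lab × X.X → ℂ} (hF : F ∈ FamS X.ms) :
    BM L.W.μ L.W.ms (L.hat F) := by
  obtain ⟨h1, C, hC⟩ := hat_bdd L hF
  exact ⟨h1.aestronglyMeasurable, C, Eventually.of_forall hC⟩

theorem int_zero (L : Ln ν U X) {F : Lab × X.X → ℂ} (hF : F ∈ FamS X.ms)
    (h : ∀ l, ∫ x, F (l, x) ∂X.μ = 0) : ∫ w, L.hat F w ∂L.W.μ = 0 := by
  have h1 := L.lim F hF
  simp only [h, Wt.av2, Wt.av, smul_zero, sum_const_zero] at h1
  exact tendsto_nhds_unique h1 tendsto_const_nhds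

theorem shp_le (a : BasA) (L : Ln ν U X) {B : MeasurableSpace X.X} (h : B ≤ X.ms) :
    L.shp B ≤ L.W.ms :=
  sup_le (gen_le _ fun F hF => hat_meas L (fam_mono h hF)) (a.nul_le _)

theorem hat_shp (L : Ln ν U X) {B : MeasurableSpace X.X} {F : Lab × X.X → ℂ} (hF : F ∈ FamS B) :
    Measurable[L.shp B] (L.hat F) := (gen_meas L.hat hF).mono le_sup_left le_rfl

theorem fam_tz (t : BasT) {B : MeasurableSpace X.X} (h : Fac X B) {F : Lab × X.X → ℂ}
    (hF : F ∈ FamS B) (n : Lab → Γ) : (fun s : Lab × X.X => F (s.1, X.Tz (n s.1) s.2)) ∈ FamS B := by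
  obtain ⟨h1, C, hC⟩ := hF
  refine ⟨fun l => ?_, C, fun s => hC _⟩
  have hm : Measurable[B, B] (X.Tz (n l)) := measurable_iff_comap_le.2 (t.inv X B (n l) h).le
  exact (h1 l).comp hm

theorem fam_bm {B : MeasurableSpace X.X} {F : Lab × X.X → ℂ} (hF : F ∈ FamS B) (l : Lab) :
    BM X.μ B fun x => F (l, x) := by
  obtain ⟨h1, C, hC⟩ := hF
  exact ⟨(h1 l).stronglyMeasurable.aestronglyMeasurable, C, Eventually.of_forall fun x => hC _⟩

theorem cong (L : Ln ν U X) {F F' : Lab × X.X → ℂ} (hF : F ∈ FamS X.ms) (hF' : F' ∈ FamS X.ms)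
    (h : ∀ l, (fun x => F (l, x)) =ᵐ[X.μ] fun x => F' (l, x)) : L.hat F =ᵐ[L.W.μ] L.hat F' := by
  have hD := fam_sub hF hF'
  have h0 := int_zero L (fam_mul hD (fam_cj hD)) fun l => by
    refine integral_eq_zero_of_ae ?_
    filter_upwards [h l] with x hx
    simp [hx]
  have h1 : ∀ w, L.hat (fun s => (F s - F' s) * conj (F s - F' s)) w =
      (L.hat F w - L.hat F' w) * conj (L.hat F w - L.hat F' w) := fun w => by
    have e1 := (L.ch w).mul _ hD _ (fam_cj hD)
    have e2 := (L.ch w).cj _ hD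
    have e3 := ch_sub (L.ch w) hF hF'
    rw [e1, e2, e3]
  simp only [h1] at h0
  filter_upwards [Fib27.eq_zero_of_int_conj ((hat_bm L hF).sub (hat_bm L hF')) h0] with w hw
  exact sub_eq_zero.1 hw

theorem fac (b : Bas) (L : Ln ν U X) {B : MeasurableSpace X.X} (h : Fac X B) :
    Fac L.W (L.shp B) := by
  have hb := b.t.bot L.W
  refine ⟨shp_le b.a L h.le, le_sup_right, fun n => ?_⟩
  unfold Ln.shp
  rw [MeasurableSpace.comap_sup]
  refine sup_le_sup ?_ (b.t.inv L.W _ n hb).le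
  refine MeasurableSpace.comap_le_iff_le_map.2 (gen_le _ fun F hF => ?_)
  have h1 : Measurable[gen (FamS B) L.hat] (L.hat fun s => F (s.1, X.Tz n s.2)) :=
    gen_meas _ (fam_tz b.t h hF fun _ => n)
  have h2 : (L.hat fun s => F (s.1, X.Tz n s.2)) = L.hat F ∘ L.W.Tz n :=
    funext fun w => L.eqv n F (fam_mono h.le hF) w
  rw [h2] at h1
  exact h1

theorem ind_bdd {A : Set X.X} (hA : MeasurableSet[X.ms] A) :
    (A.indicator fun _ => (1 : ℂ)) ∈ @Bdd X.X X.ms := by
  refine ⟨measurable_const.indicator hA, 1, fun x => ?_⟩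
  by_cases h : x ∈ A <;> simp [h]

theorem slot (b : Bas) (L : Ln ν U X) {B : MeasurableSpace X.X} (s : Slot) (h : Fac X B) :
    pull L.W.μ (L.π s) B ≤ L.shp B := by
  refine sup_le ?_ le_sup_right
  rintro _ ⟨A, hA, rfl⟩
  have hg : gen (FamS B) L.hat ≤ L.W.ms := le_sup_left.trans (shp_le b.a L h.le)
  have hF0 : (fun z : Lab × X.X => A.indicator (fun _ => (1 : ℂ)) z.2) ∈ FamS B :=
    ⟨fun l => Measurable.indicator (m := B) measurable_const hA, 1, fun z => by
      by_cases h : z.2 ∈ A <;> simp [h]⟩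
  have hF := fam_tz b.t h hF0 (rho s)
  have hπ : Measurable[L.W.ms, X.ms] (L.π s) :=
    @MeasurePreserving.measurable _ _ L.W.ms X.ms _ _ _ (L.emb s).mp
  refine (b.a.mem _ L.W.μ hg _).2 ⟨hπ (h.le _ hA),
    _, gen_meas L.hat hF (measurableSet_singleton 1), ?_⟩
  filter_upwards [L.slot s _ (ind_bdd (h.le _ hA))] with w hw
  refine propext ?_
  change L.π s w ∈ A ↔ L.hat _ w = 1
  rw [← hw]
  by_cases h : L.π s w ∈ A <;> simp [h]

theorem tset (L : Ln ν U X) {B : MeasurableSpace X.X} (h : B ≤ X.ms) :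
    (∀ φ ∈ L.hat '' FamS B, φ ∈ @Bdd L.W.X L.W.ms) ∧
    (∃ φ ∈ L.hat '' FamS B, φ =ᵐ[L.W.μ] fun _ => 1) ∧
    (∀ φ ∈ L.hat '' FamS B, ∀ φ' ∈ L.hat '' FamS B, ∃ χ ∈ L.hat '' FamS B,
      χ =ᵐ[L.W.μ] fun x => φ x * φ' x) ∧
    (∀ φ ∈ L.hat '' FamS B, ∃ χ ∈ L.hat '' FamS B, χ =ᵐ[L.W.μ] fun x => conj (φ x)) := by
  refine ⟨?_, ⟨_, ⟨_, fam_const B 1, rfl⟩, Eventually.of_forall fun w => (L.ch w).const 1⟩, ?_, ?_⟩
  · rintro _ ⟨F, hF, rfl⟩
    exact hat_bdd L (fam_mono h hF)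
  · rintro _ ⟨F, hF, rfl⟩ _ ⟨G, hG, rfl⟩
    exact ⟨_, ⟨_, fam_mul hF hG, rfl⟩, Eventually.of_forall fun w =>
      (L.ch w).mul _ (fam_mono h hF) _ (fam_mono h hG)⟩
  · rintro _ ⟨F, hF, rfl⟩
    exact ⟨_, ⟨_, fam_cj hF, rfl⟩, Eventually.of_forall fun w => (L.ch w).cj _ (fam_mono h hF)⟩

theorem ce (b : Bas) (L : Ln ν U X) {B : MeasurableSpace X.X} (h : Fac X B)
    {F F' : Lab × X.X → ℂ} (hF : F ∈ FamS X.ms) (hF' : F' ∈ FamS B)
    (e : ∀ l, (fun x => F' (l, x)) =ᵐ[X.μ] X.μ[fun x => F (l, x) | B]) :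
    L.W.μ[L.hat F | L.shp B] =ᵐ[L.W.μ] L.hat F' := by
  obtain ⟨t1, t2, t3, t4⟩ := tset L h.le
  have hF'' := fam_mono h.le hF'
  have hg := (hat_bm L hF).sub (hat_bm L hF'')
  have h0 := b.d.perp L.W.μ _ t1 t2 t3 t4 _ hg.integrable (by
    rintro _ ⟨G, hG, rfl⟩
    have hG' := fam_mono h.le hG
    have h1 := int_zero L (fam_mul (fam_sub hF hF'') hG') fun l => by
      rw [Fib27.int_sub_mul (fam_bm hF l) (fam_bm hF'' l) (fam_bm hG' l),
        ← Fib27.int_ce_mul h.le (fam_bm hF l) (fam_bm hG l), sub_eq_zero]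
      refine integral_congr_ae ?_
      filter_upwards [e l] with x hx
      rw [hx]
    rw [← h1]
    refine integral_congr_ae (Eventually.of_forall fun w => ?_)
    have e1 := (L.ch w).mul _ (fam_sub hF hF'') _ hG'
    have e3 := ch_sub (L.ch w) hF hF''
    simp only at e1 e3 ⊢
    rw [e1, e3])
  rw [gen_image] at h0
  have hle := shp_le b.a L h.le
  refine Fib27.ce_eq_of_perp hle (hat_bm L hF) ((hat_bm L hF'').of_aesm
    (hat_shp L hF').stronglyMeasurable.aestronglyMeasurable) (Fib27.perp_of_ce hle hg h0)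

theorem cex (b : Bas) (X : Sys) {B : MeasurableSpace X.X} (h : Fac X B) {F : Lab × X.X → ℂ}
    (hF : F ∈ FamS X.ms) : ∃ F' ∈ FamS B,
    ∀ l, (fun x => F' (l, x)) =ᵐ[X.μ] X.μ[fun x => F (l, x) | B] := by
  obtain ⟨h1, C, hC⟩ := hF
  have hC' : ∀ z, ‖F z‖ ≤ max C 0 := fun z => (hC z).trans (le_max_left _ _)
  have : ∀ l : Lab, ∃ f' : X.X → ℂ, Measurable[B] f' ∧ (∀ x, ‖f' x‖ ≤ max C 0) ∧
      X.μ[fun x => F (l, x) | B] =ᵐ[X.μ] f' := fun l =>
    b.a.rep B X.μ _ _ (le_max_right _ _) stronglyMeasurable_condExp.aestronglyMeasurable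
      (ae_bdd_norm_condExp_of_ae_bdd_norm (Eventually.of_forall fun x => hC' _))
  choose f hf1 hf2 hf3 using this
  exact ⟨fun z => f z.1 z.2, ⟨hf1, _, fun z => hf2 _ _⟩, fun l => (hf3 l).symm⟩

theorem span_mem (L : Ln ν U X) {B : MeasurableSpace X.X} (h : B ≤ X.ms) {φ : L.W.X → ℂ}
    (hφ : φ ∈ Submodule.span ℂ (L.hat '' FamS B)) : φ ∈ L.hat '' FamS B := by
  induction hφ using Submodule.span_induction with
  | mem x hx => exact hx
  | zero => exact ⟨_, fam_const B 0, funext fun w => (L.ch w).const 0⟩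
  | add x y _ _ hx hy =>
    obtain ⟨F, hF, rfl⟩ := hx
    obtain ⟨G, hG, rfl⟩ := hy
    exact ⟨_, fam_add hF hG, funext fun w => (L.ch w).add _ (fam_mono h hF) _ (fam_mono h hG)⟩
  | smul c x _ hx =>
    obtain ⟨F, hF, rfl⟩ := hx
    exact ⟨_, fam_cmul c hF, funext fun w => ch_cmul (L.ch w) c (fam_mono h hF)⟩

theorem apx (b : Bas) (L : Ln ν U X) {B : MeasurableSpace X.X} (h : Fac X B) (g : L.W.X → ℂ)
    (C ε : ℝ) (hC : 0 ≤ C) (hε : 0 < ε) (hg : AEStronglyMeasurable[L.shp B] g L.W.μ)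
    (hb : ∀ᵐ w ∂L.W.μ, ‖g w‖ ≤ C) :
    ∃ F ∈ FamS B, (∀ z, ‖F z‖ ≤ C) ∧ ∫ w, ‖g w - L.hat F w‖ ^ 2 ∂L.W.μ ≤ ε := by
  rcases hC.eq_or_lt with rfl | hC
  · refine ⟨_, fam_const B 0, fun z => by simp, ?_⟩
    have : ∫ w, ‖g w - L.hat (fun _ => 0) w‖ ^ 2 ∂L.W.μ = 0 := by
      refine integral_eq_zero_of_ae ?_
      filter_upwards [hb] with w hw
      have e := (L.ch w).const 0
      simp [e, norm_le_zero_iff.1 hw]
    rw [this]
    exact hε.le
  obtain ⟨t1, t2, t3, t4⟩ := tset L h.le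
  have hg0 : BM L.W.μ L.W.ms g := ⟨hg.mono (shp_le b.a L h.le), C, hb⟩
  obtain ⟨φ, hφ, hi⟩ := b.d.apx L.W.μ _ t1 t2 t3 t4 g (hg0.memLp 2)
    (by rw [gen_image]; exact hg) (ε / 4) (by positivity)
  obtain ⟨F, hF, rfl⟩ := span_mem L h.le hφ
  have hF' := fam_mono h.le hF
  refine ⟨_, fam_map hF (clip_cont hC), fun z => clip_le hC _, ?_⟩
  have hI : Integrable (fun w => ‖g w - L.hat F w‖ ^ 2) L.W.μ :=
    ((hg0.sub (hat_bm L hF')).memLp 2).integrable_norm_pow (by norm_num)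
  calc _ ≤ ∫ w, 4 * ‖g w - L.hat F w‖ ^ 2 ∂L.W.μ := by
        refine integral_mono_of_nonneg (Eventually.of_forall fun w => by positivity)
          (hI.const_mul 4) ?_
        filter_upwards [hb] with w hw
        have e := ch_clip (L.ch w) hC hF'
        rw [e]
        have := pow_le_pow_left₀ (norm_nonneg _) (clip_near hC _ (L.hat F w) hw) 2
        linarith [mul_pow 2 ‖g w - L.hat F w‖ 2]
    _ ≤ ε := by
        rw [integral_const_mul]
        linarith

theorem inv (b : Bas) (L : Ln ν U X) (s s' : Slot) :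
    KEq L.W.μ (Inv X Set.univ) (L.π s) (L.π s') := by
  intro A hA
  obtain ⟨m1, m2⟩ : MeasurableSet[X.ms] A ∧ ∀ h ∈ Set.univ, X.Tz h ⁻¹' A =ᵐ[X.μ] A := hA
  have hF0 : (fun z : Lab × X.X => A.indicator (fun _ => (1 : ℂ)) z.2) ∈ FamS X.ms :=
    ⟨fun l => Measurable.indicator measurable_const m1, 1, fun z => by
      by_cases h : z.2 ∈ A <;> simp [h]⟩
  have key : ∀ s : Slot, L.π s ⁻¹' A =ᵐ[L.W.μ]
      {w | L.hat (fun z => A.indicator (fun _ => (1 : ℂ)) z.2) w = 1} := fun s => by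
    have e2 := L.slot s _ (ind_bdd m1)
    have e3 := cong L (fam_tz b.t (b.t.top X) hF0 (rho s)) hF0 fun l => by
      filter_upwards [m2 (rho s l) (Set.mem_univ _)] with x hx
      have hx' : X.Tz (rho s l) x ∈ A ↔ x ∈ A := iff_of_eq hx
      by_cases h : x ∈ A
      · simp [h, hx'.2 h]
      · simp [h, mt hx'.1 h]
    filter_upwards [e2, e3] with w hw hw'
    refine propext ?_
    change L.π s w ∈ A ↔ L.hat _ w = 1
    rw [← hw', ← hw]
    by_cases h : L.π s w ∈ A <;> simp [h]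
  exact (key s).trans (key s').symm

end LfBx

variable [Grp]

theorem lfB : LfBR := fun b =>
  { congr := fun L F hF F' hF' h => LfBx.cong L hF hF' h
    nrm := fun L F hF w => LfBx.ch_nrm (L.ch w) hF
    fac := fun L B h => LfBx.fac b L h
    top := fun L => le_antisymm (LfBx.shp_le b.a L le_rfl) (le_sup_left.trans_eq' L.gn.symm)
    mono := fun L B B' h => sup_le_sup_right
      (LfBx.gen_le _ fun F hF => LfBx.gen_meas _ (LfBx.fam_mono h hF)) _
    slot := fun L B s h => LfBx.slot b L s h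
    ce := fun L B h F hF F' hF' e => LfBx.ce b L h hF hF' e
    cex := fun X B h F hF => LfBx.cex b X h hF
    apx := fun L B h g C ε hC hε hg hb => LfBx.apx b L h g C ε hC hε hg hb
    inv := fun L s s' => LfBx.inv b L s s' }

end T4x

end

end PkLfB

section PkLfC

/-! Internal sets of a line. -/

set_option autoImplicit false
set_option linter.unusedVariables false
set_option linter.unusedSectionVars false
set_option warn.classDefReducibility false

open MeasureTheory Filter Topology Function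

noncomputable section

namespace T4x

open T3x

variable [Grp]

namespace LfC

variable {ν : Wt} {U : Ultrafilter ℕ} {X : Sys} (L : Ln ν U X)

/-- the indicator of a family of sets -/
def ind {Ω : Type} (A : Lab → Set Ω) : Lab × Ω → ℂ :=
  fun z => (A z.1).indicator (fun _ => (1 : ℂ)) z.2

theorem ind_mem {Ω : Type} {B : MeasurableSpace Ω} {A : Lab → Set Ω}
    (h : ∀ l, MeasurableSet[B] (A l)) : ind A ∈ FamS B :=
  ⟨fun l => measurable_const.indicator (h l), 1, fun s => by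
    unfold ind
    by_cases e : s.2 ∈ A s.1 <;> simp [e]⟩

theorem fam_mono {Ω : Type} {B C : MeasurableSpace Ω} (h : B ≤ C) {F : Lab × Ω → ℂ}
    (hF : F ∈ FamS B) : F ∈ FamS C := ⟨fun l => (hF.1 l).mono h le_rfl, hF.2⟩

variable {A A' : Lab → Set X.X}

theorem hsInd (h : ∀ l, MeasurableSet (A l)) (w : L.W.X) :
    L.hat (ind A) w = (L.hs A).indicator (fun _ => (1 : ℂ)) w := by
  by_cases e : w ∈ L.hs A
  · rw [Set.indicator_of_mem e]
    exact e
  rw [Set.indicator_of_notMem e]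
  have h1 := (L.ch w).mul _ (ind_mem h) _ (ind_mem h)
  rw [show (fun s => ind A s * ind A s) = ind A from funext fun s => by
    unfold ind
    by_cases e : s.2 ∈ A s.1 <;> simp [e]] at h1
  exact by_contra fun h0 => e (mul_left_cancel₀ h0 ((mul_one _).trans h1)).symm

theorem hsMeas (B : MeasurableSpace X.X) (h : ∀ l, MeasurableSet[B] (A l)) :
    MeasurableSet[gen (FamS B) L.hat] (L.hs A) :=
  (le_iSup₂ (f := fun F (_ : F ∈ FamS B) => MeasurableSpace.comap (L.hat F) inferInstance)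
    (ind A) (ind_mem h)) _ ⟨{1}, measurableSet_singleton _, rfl⟩

theorem hsMeas' (h : ∀ l, MeasurableSet (A l)) : MeasurableSet (L.hs A) :=
  L.gn.ge _ (hsMeas L X.ms h)

theorem hsLim (h : ∀ l, MeasurableSet (A l)) :
    Tendsto (fun M => ν.av2 M fun l => X.μ.real (A l)) U (𝓝 (L.W.μ.real (L.hs A))) := by
  have h1 := (Complex.continuous_re.tendsto _).comp (L.lim _ (ind_mem h))
  rw [show L.hat (ind A) = _ from funext (hsInd L h), integral_indicator_const _ (hsMeas' L h)] at h1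
  have h2 : ∀ l, ∫ x, ind A (l, x) ∂X.μ = (X.μ.real (A l) : ℂ) := fun l =>
    (integral_indicator_const _ (h l)).trans (by simp)
  simpa [h2, Wt.av2, Wt.av, Function.comp_def, Finset.mul_sum] using h1

theorem hsInter (h : ∀ l, MeasurableSet (A l)) (h' : ∀ l, MeasurableSet (A' l)) :
    L.hs (fun l => A l ∩ A' l) = L.hs A ∩ L.hs A' := by
  ext w
  have h1 := (L.ch w).mul _ (ind_mem h) _ (ind_mem h')
  rw [show (fun s => ind A s * ind A' s) = ind fun l => A l ∩ A' l from funext fun s => by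
    unfold ind
    by_cases e : s.2 ∈ A s.1 <;> by_cases e' : s.2 ∈ A' s.1 <;> simp [e, e']] at h1
  change L.hat (ind fun l => A l ∩ A' l) w = 1 ↔ _
  rw [h1, hsInd L h, hsInd L h']
  by_cases e : w ∈ L.hs A <;> by_cases e' : w ∈ L.hs A' <;> simp [e, e']

theorem hsCompl (h : ∀ l, MeasurableSet (A l)) : L.hs (fun l => (A l)ᶜ) = (L.hs A)ᶜ := by
  ext w
  have h1 := (L.ch w).add _ (ind_mem fun l => (h l).compl) _ (ind_mem h)
  rw [show (fun s => ind (fun l => (A l)ᶜ) s + ind A s) = fun _ => 1 from funext fun s => by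
    unfold ind
    by_cases e : s.2 ∈ A s.1 <;> simp [e], (L.ch w).const, hsInd L h] at h1
  change L.hat (ind fun l => (A l)ᶜ) w = 1 ↔ _
  rw [← sub_eq_iff_eq_add.2 h1]
  by_cases e : w ∈ L.hs A <;> simp [e]

theorem hsSd (h : ∀ l, MeasurableSet (A l)) (h' : ∀ l, MeasurableSet (A' l)) :
    L.hs (fun l => symmDiff (A l) (A' l)) = symmDiff (L.hs A) (L.hs A') := by
  have e : ∀ {α : Type} (s t : Set α), symmDiff s t = ((s ∩ tᶜ)ᶜ ∩ (t ∩ sᶜ)ᶜ)ᶜ := fun s t => by
    ext x
    simp only [Set.mem_symmDiff, Set.mem_compl_iff, Set.mem_inter_iff]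
    tauto
  have a := fun l => (h l).inter (h' l).compl
  have a' := fun l => (h' l).inter (h l).compl
  simp only [e]
  rw [hsCompl L fun l => (a l).compl.inter (a' l).compl,
    hsInter L (fun l => (a l).compl) fun l => (a' l).compl, hsCompl L a, hsCompl L a',
    hsInter L h fun l => (h' l).compl, hsInter L h' fun l => (h l).compl, hsCompl L h, hsCompl L h']

/-- a bound on the members of a family is a bound on the internal set -/
theorem loc (h : ∀ l, MeasurableSet (A l)) {F : Lab × X.X → ℂ} (hF : F ∈ FamS X.ms) {C : ℝ}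
    (h0 : 0 ≤ C) (hC : ∀ z : Lab × X.X, z.2 ∈ A z.1 → ‖F z‖ ≤ C) {w : L.W.X} (hw : w ∈ L.hs A) :
    ‖L.hat F w‖ ≤ C := by
  have b : ∀ s, ‖F s * ind A s‖ ≤ C := fun s => by
    unfold ind
    by_cases e : s.2 ∈ A s.1 <;> simp [e, h0, hC]
  have h1 := (L.ch w).bdd (fun s => F s * ind A s)
    ⟨fun l => (hF.1 l).mul ((ind_mem h).1 l), C, b⟩ C b
  rwa [(L.ch w).mul _ hF _ (ind_mem h), show L.hat (ind A) w = 1 from hw, mul_one] at h1

theorem apx (h : LfB) (B : MeasurableSpace X.X) (hB : Fac X B) {E : Set L.W.X}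
    (hE : MeasurableSet[L.shp B] E) {ε : ℝ} (hε : 0 < ε) : ∃ A : Lab → Set X.X,
      (∀ l, MeasurableSet[B] (A l)) ∧ L.W.μ.real (symmDiff E (L.hs A)) ≤ ε := by
  have b1 : ∀ w, ‖E.indicator (fun _ => (1 : ℂ)) w‖ ≤ 1 := fun w => by
    by_cases e : w ∈ E <;> simp [e]
  obtain ⟨F, hF, h1, h2⟩ := h.apx L B hB (E.indicator fun _ => 1) 1 (1 / 4 * ε) zero_le_one
    (by positivity) (stronglyMeasurable_const.indicator hE).aestronglyMeasurable
    (Eventually.of_forall b1)
  have hF' := fam_mono hB.le hF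
  have m : ∀ l, MeasurableSet[B] {x | 1 / 2 < ‖F (l, x)‖} := fun l =>
    measurableSet_lt measurable_const (hF.1 l).norm
  have m' := fun l => hB.le _ (m l)
  refine ⟨_, m, ?_⟩
  have mF : Measurable (L.hat F) := fun s hs => L.gn.ge _
    ((le_iSup₂ (f := fun F (_ : F ∈ FamS X.ms) => MeasurableSpace.comap (L.hat F) inferInstance)
      F hF') _ ⟨s, hs, rfl⟩)
  have hi : Integrable (fun w => ‖E.indicator (fun _ => (1 : ℂ)) w - L.hat F w‖ ^ 2) L.W.μ := by
    refine Integrable.of_bound (((measurable_const.indicator ((h.fac L B hB).le _ hE)).sub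
      mF).norm.pow_const 2).aestronglyMeasurable (2 ^ 2) (Eventually.of_forall fun w => ?_)
    rw [norm_pow, norm_norm]
    gcongr
    linarith [norm_sub_le (E.indicator (fun _ => (1 : ℂ)) w) (L.hat F w), b1 w,
      (L.ch w).bdd F hF' 1 h1]
  have h3 := (mul_meas_ge_le_integral_of_nonneg (Eventually.of_forall fun w => sq_nonneg _) hi
    (1 / 4)).trans h2
  refine (measureReal_mono fun w hw => ?_).trans (le_of_mul_le_mul_left h3 (by norm_num))
  change 1 / 4 ≤ ‖_‖ ^ 2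
  rw [show (1 / 4 : ℝ) = (1 / 2) ^ 2 by norm_num]
  gcongr
  rcases hw with ⟨e, e'⟩ | ⟨e', e⟩
  · have := loc L (fun l => (m' l).compl) hF' (C := 1 / 2) (by norm_num) (fun z hz => not_lt.1 hz)
      (w := w) (hsCompl L m' ▸ e')
    have h4 := norm_sub_norm_le (1 : ℂ) (L.hat F w)
    rw [Set.indicator_of_mem e]
    rw [norm_one] at h4
    linarith
  · have hG : (fun z => (‖F z‖ : ℂ)) ∈ FamS X.ms :=
      fam_mono hB.le ⟨fun l => Complex.measurable_ofReal.comp (hF.1 l).norm, 1, fun s => by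
        simpa using h1 s⟩
    have hc : (fun _ => (-1 : ℂ)) ∈ FamS X.ms := ⟨fun l => measurable_const, 1, fun s => by simp⟩
    have := loc L m' (F := fun z => (‖F z‖ : ℂ) + -1) ⟨fun l => (hG.1 l).add (hc.1 l), 2, fun s =>
      (norm_add_le _ _).trans (by simp; linarith [h1 s])⟩ (C := 1 / 2) (by norm_num) (fun z hz => by
        have h5 : 1 / 2 < ‖F z‖ := hz
        rw [← Complex.ofReal_one, ← Complex.ofReal_neg, ← Complex.ofReal_add, Complex.norm_real,
          Real.norm_eq_abs, abs_le]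
        constructor <;> linarith [h1 z]) e'
    rw [(L.ch w).add _ hG _ hc, (L.ch w).const, h.nrm L F hF', ← Complex.ofReal_one,
      ← Complex.ofReal_neg, ← Complex.ofReal_add, Complex.norm_real, Real.norm_eq_abs,
      abs_le] at this
    rw [Set.indicator_of_notMem e, zero_sub, norm_neg]
    linarith [this.1]

theorem sat (h : LfB) (B : MeasurableSpace X.X) (hU : (U : Filter ℕ) ≤ atTop) (hB : Fac X B)
    (E : Set L.W.X) (hE : MeasurableSet[L.shp B] E) :
    ∃ A : Lab → Set X.X, (∀ l, MeasurableSet[B] (A l)) ∧ E =ᵐ[L.W.μ] L.hs A := by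
  classical
  have pos : ∀ k : ℕ, 0 < 1 / ((k : ℝ) + 1) := fun k => by positivity
  choose A m hA using fun k : ℕ => apx L h B hB hE (pos k)
  have m' := fun k l => hB.le _ (m k l)
  let P : ℕ → ℕ → Prop := fun M n => ∀ j ≤ n,
    (ν.av2 M fun l => X.μ.real (symmDiff (A j l) (A n l))) < 3 * (1 / ((j : ℝ) + 1))
  have hP : ∀ n, ∀ᶠ M in (U : Filter ℕ), P M n := fun n => by
    refine (eventually_all_finite (Set.finite_Iic n)).2 fun j hj => ?_
    refine (hsLim L fun l => (m' j l).symmDiff (m' n l)).eventually (gt_mem_nhds ?_)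
    rw [hsSd L (m' j) (m' n)]
    have h1 := measureReal_symmDiff_le (μ := L.W.μ) (s := L.hs (A j)) (t := E) (L.hs (A n))
      (measure_ne_top _ _) (measure_ne_top _ _)
    rw [symmDiff_comm (L.hs (A j)) E] at h1
    have h2 : 1 / ((n : ℝ) + 1) ≤ 1 / ((j : ℝ) + 1) := Nat.one_div_le_one_div hj
    linarith [hA j, hA n, pos j]
  obtain ⟨N, hN⟩ : ∃ N : ℕ → ℕ, ∀ j, ∀ᶠ M in (U : Filter ℕ), j ≤ N M ∧ P M (N M) :=
    ⟨fun M => Nat.findGreatest (P M) M, fun j =>
      ((hP j).and (hU (eventually_ge_atTop j))).mono fun M hM =>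
        ⟨Nat.le_findGreatest hM.2 hM.1, Nat.findGreatest_spec hM.2 hM.1⟩⟩
  refine ⟨fun l => A (N l.1) l, fun l => m _ l, ?_⟩
  rw [← measure_symmDiff_eq_zero_iff, ← measureReal_eq_zero_iff]
  refine le_antisymm (ge_of_tendsto' (x := atTop) (tendsto_one_div_add_atTop_nhds_zero_nat.const_mul
    (4 : ℝ)) (fun j => ?_) |>.trans_eq (mul_zero _)) measureReal_nonneg
  have h1 := le_of_tendsto (b := 3 * (1 / ((j : ℝ) + 1)))
    (hsLim L fun l => (m' j l).symmDiff (m' (N l.1) l)) ((hN j).mono fun M hM => by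
      have := (hM.2 j hM.1).le
      simp only [Wt.av2] at this ⊢
      exact this)
  rw [hsSd L (m' j) fun l => m' _ l] at h1
  have h2 := measureReal_symmDiff_le (μ := L.W.μ) (s := E) (t := L.hs (A j))
    (L.hs fun l => A (N l.1) l) (measure_ne_top _ _) (measure_ne_top _ _)
  linarith [hA j]

end LfC

open LfC in
theorem lfC : LfCR := fun b h =>
  { hs_ind := fun L A m => hsInd L m
    hs_meas := fun L B A _ m => (le_sup_left : _ ≤ L.shp B) _ (hsMeas L B m)
    hs_lim := fun L A m => hsLim L m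
    hs_inter := fun L A A' m m' => hsInter L m m'
    hs_compl := fun L A m => hsCompl L m
    hs_slot := fun L s A m => by
      refine eventuallyEq_set.2 ((L.slot s (A.indicator fun _ => 1)
        ⟨measurable_const.indicator m, 1, fun x => ?_⟩).mono fun w hw => ?_)
      · by_cases e : x ∈ A <;> simp [e]
      · refine (iff_of_eq (congrArg (· = (1 : ℂ)) hw.symm)).trans ?_
        by_cases e : L.π s w ∈ A <;> simp [e]
    hs_T := fun L n A m => Set.ext fun w =>
      iff_of_eq (congrArg (· = (1 : ℂ)) (L.eqv n _ (ind_mem m) w))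
    hs_lift := fun L' L p Lp A _ l m => eventuallyEq_set.2 ((l.hat _ (ind_mem m)).mono fun w hw =>
      iff_of_eq (congrArg (· = (1 : ℂ)) hw.symm))
    satu := fun L B => sat L h B }

end T4x

end

end PkLfC

section PkProd

/-! Independent relatively weakly mixing extensions stay independent over the hull. -/

set_option autoImplicit false
set_option linter.unusedVariables false

open MeasureTheory ProbabilityTheory Filter Topology Function Finset ComplexConjugate
open scoped BigOperators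
open Fib27 (BM sup pr Perp)

noncomputable section

namespace T4x

open T3x

variable [Grp]

namespace Prod

/-- a weakly mixing factor makes an independent product weakly mixing -/
theorem wm (b : Bas) (ka : KfA) (Z : Sys) (t : Γ) (Y D R C : MeasurableSpace Z.X)
    (hZ : Nice Z)
    (hC : Fac Z C) (hY : Fac Z Y) (hR : Fac Z R) (cp : CP Y D C Z.μ)
    (ind : ∀ f g : Z.X → ℂ, BM Z.μ Y f → BM Z.μ R g →
      Z.μ[fun x => f x * g x | C] =ᵐ[Z.μ] fun x => (Z.μ[f | C]) x * (Z.μ[g | C]) x)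
    {u v : Z.X → ℂ} (hu : BM Z.μ Y u) (hw : WM Z t D u) (hv : BM Z.μ R v) :
    WM Z t C fun x => u x * v x := by
  obtain ⟨B, hB⟩ := hv.2
  have l := (hw.2 _ (hu.conj.mono hY.le)).const_mul (B * B)
  rw [mul_zero] at l
  refine ka.weak Z t C hZ hC _ ((hu.mono hY.le).mul (hv.mono hR.le)) fun ε hε =>
    ((l.eventually (gt_mem_nhds hε)).mono fun N hN => le_trans ?_ hN.le).frequently
  rw [mul_left_comm, mul_sum _ _ (B * B)]
  refine mul_le_mul_of_nonneg_left (sum_le_sum fun n _ => ?_) (by positivity)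
  have a1 := (b.t.bm Z Y ((n : ℤ) • t) u hY hu).mul hu.conj
  have a2 := (b.t.bm Z R ((n : ℤ) • t) v hR hv).mul hv.conj
  have a3 : ∀ᵐ x ∂Z.μ, ‖v (Z.Tz ((n : ℤ) • t) x) * conj (v x)‖ ≤ B * B := by
    filter_upwards [hB, (@MeasurePreserving.quasiMeasurePreserving _ _ Z.ms Z.ms _ _ _
      (b.t.mp Z ((n : ℤ) • t))).ae hB] with x h1 h2
    rw [norm_mul, Complex.norm_conj]
    exact mul_le_mul h2 h1 (norm_nonneg _) ((norm_nonneg _).trans h1)
  have e : (fun y => u (Z.Tz ((n : ℤ) • t) y) * v (Z.Tz ((n : ℤ) • t) y) * conj (u y * v y)) =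
      fun y => u (Z.Tz ((n : ℤ) • t) y) * conj (u y) * (v (Z.Tz ((n : ℤ) • t) y) * conj (v y)) := funext fun y => by
    rw [map_mul, mul_mul_mul_comm]
  rw [← integral_const_mul, e]
  refine integral_mono_ae integrable_condExp.norm (integrable_condExp.norm.const_mul _) ?_
  filter_upwards [ind _ _ a1 a2, cp _ a1, ae_bdd_norm_condExp_of_ae_bdd_norm (m := C) a3]
    with x h1 h2 h3
  rw [h1, h2, norm_mul, mul_comm]
  exact mul_le_mul_of_nonneg_right h3 (norm_nonneg _)

end Prod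

theorem prodS : ProdR := by
  classical
  intro b ka kb hf Z ι Y D S C hZ hC hY hD hDY hDC rwm cp ci
  have hK := fun t : Γ => (kb.fac Z t C hZ hC).le
  have hCK := fun t : Γ => kb.le Z t C hZ hC
  have fs := fun S' => b.t.fsp Z ι C Y S' hC hY
  have key : ∀ t ∈ 𝒰, ∀ g, BM Z.μ (KK Z t C) g → Perp Z.μ C g →
      ∀ S' ⊆ S, Perp Z.μ (sup Y S' ⊔ C) g := by
    intro t ht g hg h0 S'
    have hK := hK t
    induction S' using Finset.induction_on with
    | empty => exact fun _ => by rwa [Fib27.sup_empty', bot_sup_eq]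
    | insert j S' hj ih =>
      intro hS
      have hjS := hS (mem_insert_self _ _)
      have hS' := (subset_insert _ _).trans hS
      rw [Fib27.sup_insert', sup_assoc]
      refine Fib27.perp_sup (hY j).le (fs S').le (hg.mono hK) fun a c ha hc => ?_
      have a0 := ha.mono (hY j).le
      have a1 := ha.ce (D j)
      have a2 := ha.sub (a1.mono (hDY j))
      have w := Prod.wm b ka Z t (Y j) (D j) _ C hZ hC (hY j) (fs S') (cp j hjS)
        (fun f f' p q => b.c.grp C Y S {j} S' Z.μ hC.le (fun i => (hY i).le) ci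
          (singleton_subset_iff.2 hjS) hS' (disjoint_singleton_left.2 hj) f f'
          (p.mono ((Fib27.le_sup' Y (mem_singleton_self j)).trans le_sup_left)) q) a2
        (rwm j _ a2 ((Fib27.perp_sub_ce (hD j).le a0).ce (hD j).le (a2.mono (hY j).le)) t ht) hc
      have c0 := hc.mono (fs S').le
      have e1 := Fib27.perp_of_ce hK ((a2.mono (hY j).le).mul c0)
        ((kb.wm Z t C hZ hC _ w.1).1 w) g hg
      have e2 := ih hS' _ ((a1.mono ((hDC j hjS).trans le_sup_right)).mul hc)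
      simp only [sub_mul] at e1
      rw [integral_sub ((a0.mul c0).mul (hg.mono hK)).integrable
        (((a1.mono (hD j).le).mul c0).mul (hg.mono hK)).integrable] at e1
      simp only [mul_comm (g _)] at e2 ⊢
      rwa [e2, sub_zero] at e1
  have c2 : CP (sup Y S ⊔ C) C (hull Z C) Z.μ := by
    refine hf.disj Z _ C C hZ (fs S) hC hC le_sup_right le_rfl (fun f h1 h2 t ht => ?_)
      fun f _ => EventuallyEq.rfl
    have hK := hK t
    have hCK := hCK t
    have f0 := h1.mono (fs S).le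
    refine (kb.wm Z t C hZ hC f (f0.memLp 2)).2 (Perp.ce (fun k hk => ?_) hK f0)
    have k0 := hk.mono hK
    have e1 := key t ht _ (hk.sub ((hk.ce C).mono hCK)) (Fib27.perp_sub_ce hC.le k0) S Subset.rfl f h1
    have e2 := Fib27.perp_of_ce hC.le f0 h2 _ (hk.ce C)
    rw [Fib27.int_sub_mul k0 ((hk.ce C).mono hC.le) f0] at e1
    simp only [mul_comm (f _)] at e2 ⊢
    rwa [e2, sub_zero] at e1
  have c3 : ∀ i ∈ S, CP (Y i) C (hull Z C) Z.μ := fun i hi f h =>
    c2 f (h.mono ((Fib27.le_sup' Y hi).trans le_sup_left))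
  refine ⟨fun f h => ?_, c2, fun i hi f h => (c3 i hi f h).trans (cp i hi f h)⟩
  filter_upwards [c2 _ ((BM.pr_sup h).mono le_sup_left), ci f h,
    (Finset.eventually_all S).2 fun i hi => c3 i hi (f i) (h i hi)] with x h1 h2 h3
  rw [h1, h2]
  exact prod_congr rfl fun i hi => (h3 i hi).symm

end T4x

end

end PkProd
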