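import Pool.Agent.MP_154433_an.t4.Spec

/-! Rows for commuting maps, part A4. -/

section PkLfD

/-! Commuting squares for lifts of embeddings to the lines. -/

set_option autoImplicit false
set_option linter.unusedVariables false
set_option warn.classDefReducibility false

open MeasureTheory ProbabilityTheory Filter Topology Function Finset ComplexConjugate
open scoped BigOperators
open Fib27 (BM sup pr Perp)

noncomputable section

namespace T4x

open T3x

variable [Grp]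

namespace LfDAux

variable {ν : Wt} {U : Ultrafilter ℕ}

theorem mp_meas {Ω Ω' : Type} {m0 : MeasurableSpace Ω} {m0' : MeasurableSpace Ω'}
    {μ : Measure Ω} {μ' : Measure Ω'} {p : Ω → Ω'} (hp : MeasurePreserving p μ μ') :
    Measurable p := hp.measurable

theorem mp_ae {Ω Ω' : Type} {m0 : MeasurableSpace Ω} {m0' : MeasurableSpace Ω'}
    {μ : Measure Ω} {μ' : Measure Ω'} {p : Ω → Ω'} (hp : MeasurePreserving p μ μ')
    {f g : Ω' → ℂ} (h : f =ᵐ[μ'] g) : (fun x => f (p x)) =ᵐ[μ] fun x => g (p x) :=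
  hp.quasiMeasurePreserving.ae_eq_comp h

theorem fam_mono {Ω : Type} {B B' : MeasurableSpace Ω} (h : B ≤ B') {F : Lab × Ω → ℂ}
    (hF : F ∈ FamS B) : F ∈ FamS B' :=
  ⟨fun l => (hF.1 l).mono h le_rfl, hF.2⟩

theorem fam_one {Ω : Type} (B : MeasurableSpace Ω) : (fun _ => (1 : ℂ)) ∈ FamS B :=
  ⟨fun _ => measurable_const, 1, fun _ => by simp⟩

theorem fam_mul {Ω : Type} {B : MeasurableSpace Ω} {F G : Lab × Ω → ℂ} (hF : F ∈ FamS B)
    (hG : G ∈ FamS B) : (fun s => F s * G s) ∈ FamS B := by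
  obtain ⟨h1, C, hC⟩ := hF
  obtain ⟨h2, D, hD⟩ := hG
  refine ⟨fun l => (h1 l).mul (h2 l), C * D, fun s => ?_⟩
  rw [norm_mul]
  exact mul_le_mul (hC s) (hD s) (norm_nonneg _) ((norm_nonneg _).trans (hC s))

theorem fam_cj {Ω : Type} {B : MeasurableSpace Ω} {F : Lab × Ω → ℂ} (hF : F ∈ FamS B) :
    (fun s => conj (F s)) ∈ FamS B := by
  obtain ⟨h1, C, hC⟩ := hF
  refine ⟨fun l => Complex.continuous_conj.measurable.comp (h1 l), C, fun s => ?_⟩
  rw [RCLike.norm_conj]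
  exact hC s

theorem fam_prod {Ω ι : Type} {B : MeasurableSpace Ω} {F : ι → Lab × Ω → ℂ} (S : Finset ι)
    (hF : ∀ k ∈ S, F k ∈ FamS B) : (fun s => ∏ k ∈ S, F k s) ∈ FamS B := by
  classical
  induction S using Finset.induction_on with
  | empty => simpa using fam_one B
  | insert j S hj ih =>
    simp only [Finset.prod_insert hj]
    exact fam_mul (hF j (mem_insert_self _ _)) (ih fun k hk => hF k (mem_insert_of_mem hk))

theorem fam_bm {Ω : Type} {B m0 : MeasurableSpace Ω} (μ : Measure Ω) {F : Lab × Ω → ℂ}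
    (hF : F ∈ FamS B) (l : Lab) : BM μ B fun x => F (l, x) := by
  obtain ⟨h1, C, hC⟩ := hF
  exact ⟨(h1 l).stronglyMeasurable.aestronglyMeasurable, C, Eventually.of_forall fun x => hC _⟩

theorem hat_prod {X : Sys} (L : Ln ν U X) {ι : Type} {F : ι → Lab × X.X → ℂ} (S : Finset ι)
    (hF : ∀ k ∈ S, F k ∈ FamS X.ms) (w : L.W.X) :
    L.hat (fun s => ∏ k ∈ S, F k s) w = ∏ k ∈ S, L.hat (F k) w := by
  classical
  induction S using Finset.induction_on with
  | empty => simpa using (L.ch w).const 1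
  | insert j S hj ih =>
    simp only [Finset.prod_insert hj]
    have h2 := fun k hk => hF k (mem_insert_of_mem (b := j) hk)
    rw [← ih h2]
    exact (L.ch w).mul _ (hF j (mem_insert_self _ _)) _ (fam_prod S h2)

theorem hat_meas {X : Sys} (L : Ln ν U X) {B : MeasurableSpace X.X} {F : Lab × X.X → ℂ}
    (hF : F ∈ FamS B) : Measurable[L.shp B] (L.hat F) := by
  refine measurable_iff_comap_le.2 (le_trans ?_ le_sup_left)
  exact le_iSup₂_of_le (f := fun G (_ : G ∈ FamS B) =>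
    MeasurableSpace.comap (L.hat G) inferInstance) F hF le_rfl

theorem hat_meas0 {X : Sys} (L : Ln ν U X) {F : Lab × X.X → ℂ}
    (hF : F ∈ FamS X.ms) : Measurable[L.W.ms] (L.hat F) := by
  refine measurable_iff_comap_le.2 ?_
  rw [L.gn]
  exact le_iSup₂_of_le (f := fun G (_ : G ∈ FamS X.ms) =>
    MeasurableSpace.comap (L.hat G) inferInstance) F hF le_rfl

theorem hat_bd {X : Sys} (L : Ln ν U X) {F : Lab × X.X → ℂ} (hF : F ∈ FamS X.ms) :
    ∃ C : ℝ, ∀ w, ‖L.hat F w‖ ≤ C := by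
  obtain ⟨C, hC⟩ := hF.2
  exact ⟨C, fun w => (L.ch w).bdd F hF C hC⟩

theorem hat_bm {X : Sys} (L : Ln ν U X) {B : MeasurableSpace X.X} (hB : B ≤ X.ms)
    {F : Lab × X.X → ℂ} (hF : F ∈ FamS B) : BM L.W.μ (L.shp B) (L.hat F) := by
  obtain ⟨C, hC⟩ := hat_bd L (fam_mono hB hF)
  exact ⟨(hat_meas L hF).stronglyMeasurable.aestronglyMeasurable, C, Eventually.of_forall hC⟩

/-- tests against internal functions are enough -/
theorem perp_hat (b : Bas) (lb : LfB) {X : Sys} (L : Ln ν U X) {B : MeasurableSpace X.X}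
    (hB : Fac X B) {g : L.W.X → ℂ} (hg : BM L.W.μ L.W.ms g)
    (h : ∀ F ∈ FamS B, ∫ w, g w * L.hat F w ∂L.W.μ = 0) : Perp L.W.μ (L.shp B) g := by
  have h1 := b.d.perp L.W.μ (L.hat '' FamS B) ?_ ?_ ?_ ?_ g hg.integrable ?_
  · have e : gen (L.hat '' FamS B) id = gen (FamS B) L.hat := by
      simp only [gen, iSup_image, id]
    rw [e] at h1
    exact Fib27.perp_of_ce (lb.fac L B hB).le hg h1
  · rintro _ ⟨F, hF, rfl⟩
    exact ⟨hat_meas0 L (fam_mono hB.le hF), hat_bd L (fam_mono hB.le hF)⟩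
  · exact ⟨_, ⟨_, fam_one B, rfl⟩, Eventually.of_forall fun w => (L.ch w).const 1⟩
  · rintro _ ⟨F, hF, rfl⟩ _ ⟨G, hG, rfl⟩
    exact ⟨_, ⟨_, fam_mul hF hG, rfl⟩, Eventually.of_forall fun w =>
      (L.ch w).mul F (fam_mono hB.le hF) G (fam_mono hB.le hG)⟩
  · rintro _ ⟨F, hF, rfl⟩
    exact ⟨_, ⟨_, fam_cj hF, rfl⟩, Eventually.of_forall fun w =>
      (L.ch w).cj F (fam_mono hB.le hF)⟩
  · rintro _ ⟨F, hF, rfl⟩
    exact h F hF

/-- the pull-back of an internal base along a lift -/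
theorem pull_shp (b : Bas) (la : LfA) (lb : LfB) {X' X : Sys} (L' : Ln ν U X') (L : Ln ν U X)
    {p : X'.X → X.X} {Lp : L'.W.X → L.W.X} (hp : Emb X' X p) (hL : IsLift L' L p Lp)
    {B : MeasurableSpace X.X} (hB : Fac X B) :
    pull L'.W.μ Lp (L.shp B) = L'.shp (pull X'.μ p B) := by
  have hY := b.t.fpull X' X p B hp hB
  refine le_antisymm (la.shp L' L p Lp B _ hp hL hB hY le_rfl) (sup_le ?_ le_sup_right)
  refine iSup₂_le fun F' hF' => ?_
  obtain ⟨h1, C, hC⟩ := hF'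
  have hC0 : ∀ s, ‖F' s‖ ≤ max C 0 := fun s => (hC s).trans (le_max_left _ _)
  have h2 : ∀ l : Lab, ∃ f' : X.X → ℂ, Measurable[B] f' ∧ (∀ x, ‖f' x‖ ≤ max C 0) ∧
      (fun x => F' (l, x)) =ᵐ[X'.μ] fun x => f' (p x) := fun l =>
    b.a.fact B X'.μ p _ _ (le_sup_left.trans hY.le) (le_max_right _ _)
      (h1 l).stronglyMeasurable.aestronglyMeasurable (Eventually.of_forall fun x => hC0 _)
  choose f hf1 hf2 hf3 using h2
  have hF : (fun z : Lab × X.X => f z.1 z.2) ∈ FamS B := ⟨hf1, _, fun s => hf2 _ _⟩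
  have hF0 := fam_mono hB.le hF
  have hF1 : F' ∈ FamS X'.ms := fam_mono hY.le ⟨h1, C, hC⟩
  have hG : (fun z : Lab × X'.X => f z.1 (p z.2)) ∈ FamS X'.ms :=
    ⟨fun l => ((hf1 l).mono hB.le le_rfl).comp (mp_meas hp.mp), _, fun s => hf2 _ _⟩
  have e : L'.hat F' =ᵐ[L'.W.μ] fun w => L.hat (fun z : Lab × X.X => f z.1 z.2) (Lp w) :=
    (lb.congr L' F' hF1 _ hG hf3).trans (hL.hat _ hF0).symm
  have hle : (L.shp B).comap Lp ≤ L'.W.ms :=
    le_sup_left.trans (b.a.pull_le _ L'.W.μ L.W.μ Lp hL.emb.mp (lb.fac L B hB).le)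
  rintro A ⟨s, hs, rfl⟩
  refine (b.a.mem _ L'.W.μ hle _).2 ⟨hat_meas0 L' hF1 hs, _, ⟨_, hat_meas L hF hs, rfl⟩, ?_⟩
  filter_upwards [e] with w hw
  exact congrArg (· ∈ s) hw

theorem pull_top (b : Bas) (la : LfA) (lb : LfB) {X' X : Sys} (L' : Ln ν U X') (L : Ln ν U X)
    {p : X'.X → X.X} {Lp : L'.W.X → L.W.X} (hp : Emb X' X p) (hL : IsLift L' L p Lp) :
    pull L'.W.μ Lp L.W.ms = L'.shp (pull X'.μ p X.ms) := by
  rw [← pull_shp b la lb L' L hp hL (b.t.top X), lb.top]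

theorem cp_shp (b : Bas) (lb : LfB) {X : Sys} (L : Ln ν U X) {Y D C : MeasurableSpace X.X}
    (hY : Fac X Y) (hD : Fac X D) (hC : Fac X C) (hDC : D ≤ C) (h : CP Y D C X.μ) :
    CP (L.shp Y) (L.shp D) (L.shp C) L.W.μ := by
  have hY' := (lb.fac L Y hY).le
  have hD' := (lb.fac L D hD).le
  have hC' := (lb.fac L C hC).le
  intro f hf
  have hf0 := hf.mono hY'
  refine Fib27.ce_eq_of_tests hC' hf0 ((hf.ce _).mono (lb.mono L D C hDC)) fun c hc => ?_
  have hc0 := hc.mono hC'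
  have hc1 := (hc.ce (L.shp D)).mono hD'
  have h1 : Perp L.W.μ (L.shp Y) fun w => c w - (L.W.μ[c | L.shp D]) w := by
    refine perp_hat b lb L hY (hc0.sub hc1) fun F hF => ?_
    have hF0 := fam_mono hY.le hF
    have hFb := (hat_bm L hY.le hF).mono hY'
    obtain ⟨F', hF', e⟩ := lb.cex X D hD F hF0
    have e1 := lb.ce L D hD F hF0 F' hF' e
    have e2 := lb.ce L C hC F hF0 F' (fam_mono hDC hF') fun l =>
      (e l).trans (h _ (fam_bm X.μ hF l)).symm
    rw [Fib27.int_sub_mul hc0 hc1 hFb, Fib27.int_ce_symm hD' hc0 hFb,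
      ← Fib27.int_mul_ce hC' hc hFb, sub_eq_zero]
    refine integral_congr_ae ?_
    filter_upwards [e1, e2] with w a a'
    rw [a, a']
  have h2 := h1 f hf
  rw [Fib27.int_sub_mul hc0 hc1 hf0, sub_eq_zero, Fib27.int_ce_symm hD' hc0 hf0] at h2
  simpa only [mul_comm] using h2

theorem cind_shp (b : Bas) (lb : LfB) {X : Sys} (L : Ln ν U X) {ι : Type}
    {B : MeasurableSpace X.X} {Y : ι → MeasurableSpace X.X} {S : Finset ι} (hB : Fac X B)
    (hY : ∀ i, Fac X (Y i)) (h : CInd B Y S X.μ) :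
    CInd (L.shp B) (fun i => L.shp (Y i)) S L.W.μ := by
  classical
  have hB' := (lb.fac L B hB).le
  have hY' := fun i => (lb.fac L (Y i) (hY i)).le
  have key : ∀ (T : Finset ι) (f : ι → L.W.X → ℂ), (∀ k ∈ S, BM L.W.μ (L.shp (Y k)) (f k)) →
      (∀ k ∈ S, k ∉ T → ∃ F ∈ FamS (Y k), f k = L.hat F) →
      L.W.μ[pr f S | L.shp B] =ᵐ[L.W.μ] fun x => ∏ k ∈ S, (L.W.μ[f k | L.shp B]) x := by
    intro T
    induction T using Finset.induction_on with
    | empty =>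
      intro f _ hf
      choose! F hF eF using fun k hk => hf k hk (notMem_empty k)
      have hF0 := fun k hk => fam_mono (hY k).le (hF k hk)
      choose! F' hF' eF' using fun k (hk : k ∈ S) => lb.cex X B hB (F k) (hF0 k hk)
      have e1 : pr f S = L.hat fun s => ∏ k ∈ S, F k s := by
        funext w
        rw [hat_prod L S hF0]
        exact Finset.prod_congr rfl fun k hk => by rw [eF k hk]
      have e2 := lb.ce L B hB _ (fam_prod S hF0) _ (fam_prod S hF') fun l => by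
        have a := h (fun k x => F k (l, x)) fun k hk => fam_bm X.μ (hF k hk) l
        refine EventuallyEq.trans ?_ a.symm
        filter_upwards [(Finset.eventually_all S).2 fun k hk => eF' k hk l] with x hx
        exact Finset.prod_congr rfl hx
      rw [e1]
      filter_upwards [e2, (Finset.eventually_all S).2 fun k hk =>
        lb.ce L B hB _ (hF0 k hk) _ (hF' k hk) (eF' k hk)] with w a a'
      rw [a, hat_prod L S fun k hk => fam_mono hB.le (hF' k hk)]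
      exact Finset.prod_congr rfl fun k hk => by rw [eF k hk, a' k hk]
    | insert j T hj ih =>
      intro f hf hf'
      by_cases hjS : j ∈ S
      swap
      · refine ih f hf fun k hk hkT => hf' k hk ?_
        simp only [mem_insert, not_or]
        exact ⟨by rintro rfl; exact hjS hk, hkT⟩
      have hf0 := fun k hk => (hf k hk).mono (hY' k)
      have hE : ∀ (g : ι → L.W.X → ℂ) (R : Finset ι),
          (∀ k ∈ R, BM L.W.μ L.W.ms (g k)) →
          BM L.W.μ (L.shp B) (pr (fun k => L.W.μ[g k | L.shp B]) R) :=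
        fun g R hg => BM.pr fun k hk => (hg k hk).ce _
      refine Fib27.ce_eq_of_tests hB' (BM.pr hf0) (hE f S hf0) fun c hc => ?_
      have hc0 := hc.mono hB'
      have hr0 : ∀ k ∈ S.erase j, BM L.W.μ L.W.ms (f k) := fun k hk => hf0 k (mem_of_mem_erase hk)
      have hA : BM L.W.μ L.W.ms fun w => pr f (S.erase j) w * c w := (BM.pr hr0).mul hc0
      have hBm : BM L.W.μ (L.shp B) fun w =>
          pr (fun k => L.W.μ[f k | L.shp B]) (S.erase j) w * c w := (hE f _ hr0).mul hc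
      -- the two sides for an arbitrary function in slot `j`
      have s1 : ∀ u : L.W.X → ℂ, ∫ w, pr (update f j u) S w * c w ∂L.W.μ =
          ∫ w, (pr f (S.erase j) w * c w) * u w ∂L.W.μ := fun u => by
        refine integral_congr_ae (Eventually.of_forall fun w => ?_)
        simp only [Fib27.pr_erase _ hjS w, Fib27.pr_update f (notMem_erase j S), update_self]
        ring
      have s2 : ∀ u : L.W.X → ℂ, BM L.W.μ L.W.ms u →
          ∫ w, (∏ k ∈ S, (L.W.μ[update f j u k | L.shp B]) w) * c w ∂L.W.μ =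
          ∫ w, (pr (fun k => L.W.μ[f k | L.shp B]) (S.erase j) w * c w) * u w ∂L.W.μ :=
        fun u hu => by
          rw [← Fib27.int_mul_ce hB' hBm hu]
          refine integral_congr_ae (Eventually.of_forall fun w => ?_)
          simp only [← Finset.mul_prod_erase S _ hjS, update_self, pr]
          rw [Finset.prod_congr rfl fun k hk => by rw [update_of_ne (ne_of_mem_erase hk)]]
          ring
      have h1 : Perp L.W.μ (L.shp (Y j)) fun w => pr f (S.erase j) w * c w -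
          pr (fun k => L.W.μ[f k | L.shp B]) (S.erase j) w * c w := by
        refine perp_hat b lb L (hY j) (hA.sub (hBm.mono hB')) fun F hF => ?_
        have hFb := hat_bm L (hY j).le hF
        have hu : ∀ k ∈ S, BM L.W.μ (L.shp (Y k)) (update f j (L.hat F) k) := fun k hk => by
          by_cases e : k = j
          · subst e
            rw [update_self]
            exact hFb
          · rw [update_of_ne e]
            exact hf k hk
        have h2 := ih (update f j (L.hat F)) hu fun k hk hkT => by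
          by_cases e : k = j
          · subst e
            exact ⟨F, hF, update_self _ _ _⟩
          · rw [update_of_ne e]
            exact hf' k hk (by simp [e, hkT])
        rw [Fib27.int_sub_mul hA (hBm.mono hB') (hFb.mono (hY' j)), ← s1,
          ← s2 _ (hFb.mono (hY' j)), sub_eq_zero,
          ← Fib27.int_ce_mul hB' (BM.pr fun k hk => (hu k hk).mono (hY' k)) hc]
        refine integral_congr_ae ?_
        filter_upwards [h2] with w hw
        rw [hw]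
      have h3 := h1 (f j) (hf j hjS)
      rw [Fib27.int_sub_mul hA (hBm.mono hB') (hf0 j hjS), ← s1, ← s2 _ (hf0 j hjS), sub_eq_zero,
        update_eq_self] at h3
      exact h3
  exact fun f hf => key S f hf fun k hk hk' => absurd hk hk'

theorem rep_bm (b : Bas) {Ω : Type} {B m0 : MeasurableSpace Ω} {μ : Measure Ω} {f : Ω → ℂ}
    (hf : BM μ B f) : ∃ f' : Ω → ℂ, Measurable[B] f' ∧ (∃ C : ℝ, ∀ x, ‖f' x‖ ≤ C) ∧ f =ᵐ[μ] f' := by
  obtain ⟨h1, C, hC⟩ := hf
  obtain ⟨f', a1, a2, a3⟩ := b.a.rep B μ f (max C 0) (le_max_right _ _) h1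
    (hC.mono fun x hx => hx.trans (le_max_left _ _))
  exact ⟨f', a1, ⟨_, a2⟩, a3⟩

/-- conditional expectation of a slot function over the internal base -/
theorem ce_slot (b : Bas) (lb : LfB) {X : Sys} (L : Ln ν U X) {Y : MeasurableSpace X.X}
    (hY : Fac X Y) (s : Slot) {g : X.X → ℂ} (hg : BM X.μ X.ms g) :
    L.W.μ[fun w => g (L.π s w) | L.shp Y] =ᵐ[L.W.μ] fun w => (X.μ[g | Y]) (L.π s w) := by
  obtain ⟨g1, a1, ⟨C, a2⟩, a3⟩ := rep_bm b hg
  obtain ⟨g2, c1, ⟨D, c2⟩, c3⟩ := rep_bm b (hg.ce Y)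
  have q := (L.emb s).mp
  have hF : (fun z : Lab × X.X => g1 (X.Tz (rho s z.1) z.2)) ∈ FamS X.ms :=
    ⟨fun l => a1.comp (mp_meas (b.t.mp X (rho s l))), C, fun z => a2 _⟩
  have hF' : (fun z : Lab × X.X => g2 (X.Tz (rho s z.1) z.2)) ∈ FamS Y :=
    ⟨fun l => c1.comp (measurable_iff_comap_le.2 (b.t.inv X Y (rho s l) hY).le), D,
      fun z => c2 _⟩
  have e := lb.ce L Y hY _ hF _ hF' fun l => by
    have q' := b.t.mp X (rho s l)
    have e1 := b.t.ce X Y (rho s l) g hY hg.integrable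
    exact (mp_ae q' c3).symm.trans (e1.symm.trans (condExp_congr_ae (mp_ae q' a3)))
  have e1 := L.slot s g1 ⟨a1, C, a2⟩
  have e2 := L.slot s g2 ⟨c1.mono hY.le le_rfl, D, c2⟩
  exact (condExp_congr_ae ((mp_ae q a3).trans e1)).trans
    (e.trans (e2.symm.trans (mp_ae q c3).symm))

theorem int_comp {Ω Ω' : Type} {m0 : MeasurableSpace Ω} {m0' : MeasurableSpace Ω'}
    {μ : Measure Ω} {μ' : Measure Ω'} {p : Ω → Ω'} (hp : MeasurePreserving p μ μ') {f : Ω' → ℂ}
    (hf : BM μ' m0' f) : ∫ x, f (p x) ∂μ = ∫ y, f y ∂μ' := by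
  rw [← hp.map_eq, integral_map hp.measurable.aemeasurable (by rw [hp.map_eq]; exact hf.1)]

theorem fact_bm (b : Bas) {Ω Ω' : Type} {m0 : MeasurableSpace Ω} {m0' : MeasurableSpace Ω'}
    {μ : Measure Ω} {μ' : Measure Ω'} {p : Ω → Ω'} (hp : MeasurePreserving p μ μ') {f : Ω → ℂ}
    (hf : BM μ (pull μ p m0') f) : ∃ f' : Ω' → ℂ, BM μ' m0' f' ∧ f =ᵐ[μ] fun x => f' (p x) := by
  obtain ⟨h1, C, hC⟩ := hf
  obtain ⟨f', a1, a2, a3⟩ := b.a.fact m0' μ p f (max C 0) hp.measurable.comap_le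
    (le_max_right _ _) h1 (hC.mono fun x hx => hx.trans (le_max_left _ _))
  exact ⟨f', ⟨a1.stronglyMeasurable.aestronglyMeasurable, _, Eventually.of_forall a2⟩, a3⟩

theorem cs1 (b : Bas) (la : LfA) (lb : LfB) {X' X : Sys} (L' : Ln ν U X') (L : Ln ν U X)
    {p : X'.X → X.X} {Lp : L'.W.X → L.W.X} (s : Slot) (hp : Emb X' X p) (hL : IsLift L' L p Lp)
    {g : X'.X → ℂ} {g0 : X.X → ℂ} (hg : BM X'.μ X'.ms g)
    (e : (fun x => g0 (p x)) =ᵐ[X'.μ] X'.μ[g | pull X'.μ p X.ms]) :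
    L'.W.μ[fun w => g (L'.π s w) | pull L'.W.μ Lp L.W.ms] =ᵐ[L'.W.μ]
      fun w => g0 (p (L'.π s w)) := by
  rw [pull_top b la lb L' L hp hL]
  exact (ce_slot b lb L' (b.t.fpull X' X p _ hp (b.t.top X)) s hg).trans
    ((L'.emb s).mp.quasiMeasurePreserving.ae_eq_comp e).symm

theorem cs2 (b : Bas) (la : LfA) (lb : LfB) {X' X : Sys} (L' : Ln ν U X') (L : Ln ν U X)
    {p : X'.X → X.X} {Lp : L'.W.X → L.W.X} (s : Slot) (hp : Emb X' X p) (hL : IsLift L' L p Lp)
    {g : L.W.X → ℂ} {g0 : X.X → ℂ} (hg : BM L.W.μ L.W.ms g) (hg0 : BM X.μ X.ms g0)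
    (e : (fun w => g0 (L.π s w)) =ᵐ[L.W.μ] L.W.μ[g | L.P s]) :
    L'.W.μ[fun w => g (Lp w) | L'.P s] =ᵐ[L'.W.μ] fun w => g0 (p (L'.π s w)) := by
  have m1 := (L'.emb s).mp
  have m2 := (L.emb s).mp
  have m3 := hL.emb.mp
  have m4 := hp.mp
  have l1 : L'.P s ≤ L'.W.ms := b.a.pull_le _ _ _ _ m1 le_rfl
  have l2 : L.P s ≤ L.W.ms := b.a.pull_le _ _ _ _ m2 le_rfl
  have l3 : pull L'.W.μ Lp L.W.ms ≤ L'.W.ms := b.a.pull_le _ _ _ _ m3 le_rfl
  have l4 : pull X'.μ p X.ms ≤ X'.ms := b.a.pull_le _ _ _ _ m4 le_rfl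
  have g1 := b.a.bm_comp _ _ _ Lp g m3 hg
  have g2 := b.a.bm_comp _ _ _ p g0 m4 hg0
  have g3 := b.a.bm_comp _ _ _ (L'.π s) _ m1 (g2.mono l4)
  refine Fib27.ce_eq_of_tests l1 (g1.mono l3) g3 fun c hc => ?_
  obtain ⟨c', hc', e1⟩ := fact_bm b m1 hc
  obtain ⟨c0, hc0, e2⟩ := fact_bm b m4 (hc'.ce (pull X'.μ p X.ms))
  have e3 := cs1 b la lb L' L s hp hL hc' e2.symm
  have e4 := b.a.keq_fun X.ms L'.W.μ X.μ _ _ c0 (m2.comp m3) (m4.comp m1)
    (la.slot L' L p Lp s hp hL) hc0.1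
  have g4 := b.a.bm_comp _ _ _ (L.π s) c0 m2 hc0
  have g5 := b.a.bm_comp _ _ _ (L'.π s) c' m1 hc'
  calc ∫ w, g (Lp w) * c w ∂L'.W.μ = ∫ w, g (Lp w) * c' (L'.π s w) ∂L'.W.μ :=
        integral_congr_ae (by filter_upwards [e1] with w hw; rw [hw])
    _ = ∫ w, g (Lp w) * c0 (L.π s (Lp w)) ∂L'.W.μ := by
        rw [← Fib27.int_mul_ce l3 g1 (g5.mono l1)]
        refine integral_congr_ae ?_
        filter_upwards [e3, e4] with w a a'
        rw [a]
        exact congrArg _ a'.symm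
    _ = ∫ w, g w * c0 (L.π s w) ∂L.W.μ := int_comp m3 (hg.mul (g4.mono l2))
    _ = ∫ w, g0 (L.π s w) * c0 (L.π s w) ∂L.W.μ := by
        rw [← Fib27.int_ce_mul l2 hg g4]
        refine integral_congr_ae ?_
        filter_upwards [e] with w a
        rw [← a]
    _ = ∫ x, g0 x * c0 x ∂X.μ := int_comp m2 (hg0.mul hc0)
    _ = ∫ x, g0 (p x) * c0 (p x) ∂X'.μ := (int_comp m4 (hg0.mul hc0)).symm
    _ = ∫ x, g0 (p x) * c' x ∂X'.μ := by
        rw [← Fib27.int_mul_ce l4 g2 hc']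
        refine integral_congr_ae ?_
        filter_upwards [e2] with x a
        rw [a]
    _ = ∫ w, g0 (p (L'.π s w)) * c' (L'.π s w) ∂L'.W.μ :=
        (int_comp m1 ((g2.mono l4).mul hc')).symm
    _ = _ := integral_congr_ae (by filter_upwards [e1] with w hw; rw [hw])

end LfDAux

open LfDAux

theorem lfD : LfDR := fun b la lb =>
  { cs := fun L' L p Lp s hp hL g g0 hg _ e => cs1 b la lb L' L s hp hL hg e
    cs' := fun L' L p Lp s hp hL g g0 hg hg0 e => cs2 b la lb L' L s hp hL hg hg0 e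
    base := fun L' L p Lp B B' hp hL hB hB' hle h => by
      rw [pull_top b la lb L' L hp hL, pull_shp b la lb L' L hp hL hB]
      exact cp_shp b lb L' (b.t.fpull _ _ p _ hp (b.t.top _)) (b.t.fpull _ _ p _ hp hB) hB' hle h
    cind := fun L' L ι p Lp S B' hp hL hB' h => by
      simp only [fun i => pull_top b la lb L' L (hp i) (hL i)]
      exact cind_shp b lb L' hB' (fun i => b.t.fpull _ _ (p i) _ (hp i) (b.t.top _)) h }

end T4x

end

end PkLfD

section PkHf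

/-! Row Hf: facts on the hull. -/

set_option autoImplicit false
set_option linter.unusedVariables false
set_option warn.classDefReducibility false
set_option linter.unusedSectionVars false

open MeasureTheory ProbabilityTheory Filter Topology Function Finset ComplexConjugate
open scoped BigOperators
open Fib27 (BM sup pr Oc Orow F23 LInd Mem)

noncomputable section

namespace T4x

open T3x

variable [Grp]

namespace HfP

theorem pull_mono {Ω Ω' : Type} {B C : MeasurableSpace Ω'} {m0 : MeasurableSpace Ω}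
    (μ : Measure Ω) (p : Ω → Ω') (h : B ≤ C) : pull μ p B ≤ pull μ p C :=
  sup_le_sup_right (MeasurableSpace.comap_mono h) _

theorem le_hull (X : Sys) (B : MeasurableSpace X.X) : B ≤ hull X B :=
  le_sInf fun _ hC => hC.1

theorem hull_min (X : Sys) (B C : MeasurableSpace X.X) (h : B ≤ C) (hC : KC X C) :
    hull X B ≤ C := sInf_le ⟨h, hC⟩

theorem hull_mono (X : Sys) (B C : MeasurableSpace X.X) (h : B ≤ C) : hull X B ≤ hull X C :=
  sInf_le_sInf fun _ hD => ⟨h.trans hD.1, hD.2⟩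

theorem kc (b : Bas) (kb : KfB) (X : Sys) (B : MeasurableSpace X.X) (hX : Nice X)
    (hB : Fac X B) : KC X (hull X B) := by
  have ht : KC X X.ms := ⟨b.t.top X, fun u _ => (kb.fac X u X.ms hX (b.t.top X)).le⟩
  have hF : Fac X (hull X B) :=
    ⟨hull_min X B X.ms hB.le ht, le_sInf fun C hC => hC.2.1.nl,
      fun n => le_sInf fun C hC =>
        (MeasurableSpace.comap_mono (hull_min X B C hC.1 hC.2)).trans (hC.2.1.inv n)⟩
  exact ⟨hF, fun u hu => le_sInf fun C hC =>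
    (kb.mono X u _ C hX hF hC.2.1 (hull_min X B C hC.1 hC.2)).trans (hC.2.2 u hu)⟩

theorem ind (b : Bas) (kb : KfB) (X : Sys) (B : MeasurableSpace X.X)
    (Q : MeasurableSpace X.X → Prop) (hX : Nice X) (hB : Fac X B) (h0 : Q B)
    (h1 : ∀ u ∈ 𝒰, ∀ C, Fac X C → B ≤ C → Q C → Q (KK X u C))
    (h2 : ∀ 𝒞 : Set (MeasurableSpace X.X), 𝒞.Nonempty → IsChain (· ≤ ·) 𝒞 →
      (∀ C ∈ 𝒞, Fac X C ∧ B ≤ C ∧ Q C) → Q (sSup 𝒞)) : Q (hull X B) := by
  have hk := kc b kb X B hX hB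
  obtain ⟨M, -, hM⟩ := zorn_le_nonempty₀
    {C : MeasurableSpace X.X | Fac X C ∧ B ≤ C ∧ C ≤ hull X B ∧ Q C}
    (fun c hc hch y hy => ⟨sSup c, ⟨b.t.fsSup X c ⟨y, hy⟩ fun C hC => (hc hC).1,
      (hc hy).2.1.trans (le_sSup hy), sSup_le fun C hC => (hc hC).2.2.1,
      h2 c ⟨y, hy⟩ hch fun C hC => ⟨(hc hC).1, (hc hC).2.1, (hc hC).2.2.2⟩⟩,
      fun z hz => le_sSup hz⟩) B ⟨hB, le_rfl, le_hull X B, h0⟩
  obtain ⟨hF, hBM, hMh, hQ⟩ := hM.1
  have hK : ∀ u ∈ 𝒰, KK X u M ≤ M := fun u hu =>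
    hM.2 ⟨kb.fac X u M hX hF, hBM.trans (kb.le X u M hX hF),
      (kb.mono X u M _ hX hF hk.1 hMh).trans (hk.2 u hu), h1 u hu M hF hBM hQ⟩ (kb.le X u M hX hF)
  have : hull X B = M := le_antisymm (hull_min X B M hBM ⟨hF, hK⟩) hMh
  rwa [this]

/-- a function whose square norm is below every positive number vanishes -/
theorem ae_eq_of_sq {Ω : Type} {m0 : MeasurableSpace Ω} (μ : Measure Ω) [IsProbabilityMeasure μ]
    (f g : Ω → ℂ) (hf : BM μ m0 f) (hg : BM μ m0 g)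
    (h : ∀ ε : ℝ, 0 < ε → ∫ x, ‖f x - g x‖ ^ 2 ∂μ ≤ ε) : f =ᵐ[μ] g := by
  have hi : Integrable (fun x => ‖f x - g x‖ ^ 2) μ :=
    ((hf.sub hg).memLp 2).integrable_norm_pow two_ne_zero
  have h0 : ∫ x, ‖f x - g x‖ ^ 2 ∂μ = 0 :=
    le_antisymm (le_of_forall_pos_le_add fun ε hε => by simpa using h ε hε)
      (integral_nonneg fun x => by positivity)
  rw [integral_eq_zero_iff_of_nonneg (fun x => by positivity) hi] at h0
  filter_upwards [h0] with x hx
  simpa [sub_eq_zero] using hx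

theorem freq_of_tendsto {u : ℕ → ℝ} (h : Tendsto u atTop (𝓝 0)) (ε : ℝ) (hε : 0 < ε) :
    ∃ᶠ N : ℕ in atTop, u N ≤ ε :=
  ((h.eventually (gt_mem_nhds hε)).mono fun _ hN => hN.le).frequently

theorem disj (b : Bas) (ka : KfA) (kb : KfB) (X : Sys) (Y D C : MeasurableSpace X.X)
    (hX : Nice X) (hY : Fac X Y) (hD : Fac X D) (hC : Fac X C) (hDY : D ≤ Y) (hDC : D ≤ C)
    (hr : RWM X Y D) (hcp : CP Y D C X.μ) : CP Y D (hull X C) X.μ := by
  refine ind b kb X C (fun C' => CP Y D C' X.μ) hX hC hcp ?_ ?_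
  · intro u hu C' hC' hle hq f hf
    have hK := kb.fac X u C' hX hC'
    have hDK : D ≤ KK X u C' := hDC.trans (hle.trans (kb.le X u C' hX hC'))
    have hE : BM X.μ D (X.μ[f | D]) := hf.ce D
    have hf0 : BM X.μ Y fun x => f x - (X.μ[f | D]) x := hf.sub (hE.mono hDY)
    have hz : X.μ[fun x => f x - (X.μ[f | D]) x | D] =ᵐ[X.μ] 0 := by
      filter_upwards [Fib27.ce_sub (hf.mono hY.le) (hE.mono hD.le) D, hE.ce_self hD.le]
        with x h1 h2
      rw [h1, h2]; simp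
    have hw := hr _ hf0 hz u hu
    have hw' : WM X u C' fun x => f x - (X.μ[f | D]) x := by
      refine ka.weak X u C' hX hC' _ (hf0.mono hY.le) fun ε hε => ?_
      refine (freq_of_tendsto (hw.2 _ (hf0.mono hY.le).conj) ε hε).mono fun N hN => ?_
      refine le_of_eq_of_le ?_ hN
      congr 1
      refine sum_congr rfl fun n _ => integral_congr_ae ?_
      filter_upwards [hq _ ((b.t.bm X Y _ _ hY hf0).mul hf0.conj)] with x hx
      exact congrArg _ hx
    have hz' := (kb.wm X u C' hX hC' _ hw'.1).1 hw'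
    filter_upwards [Fib27.ce_sub (hf.mono hY.le) (hE.mono hD.le) (KK X u C'),
      (hE.mono hDK).ce_self hK.le, hz'] with x h1 h2 h3
    rw [h1, h2] at h3
    exact sub_eq_zero.1 h3
  · intro 𝒞 hne hch h𝒞 f hf
    have hs : sSup 𝒞 ≤ X.ms := sSup_le fun C' hC' => (h𝒞 C' hC').1.le
    refine ae_eq_of_sq X.μ _ _ ((hf.ce _).mono hs) ((hf.ce _).mono hD.le) fun ε hε => ?_
    obtain ⟨C', hC', h⟩ := b.d.chain 𝒞 X.μ hne hch.directedOn (fun C' hC' => (h𝒞 C' hC').1.le) f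
      ((hf.mono hY.le).memLp 2) ε hε
    refine le_of_eq_of_le (integral_congr_ae ?_) (h C' hC' le_rfl)
    filter_upwards [(h𝒞 C' hC').2.2 f hf] with x hx
    rw [hx]

/-- bounded functions of the pull-back factor through the embedding -/
theorem fact (b : Bas) {X' X : Sys} {p : X'.X → X.X} (hp : Emb X' X p) {f : X'.X → ℂ}
    (hf : BM X'.μ (pull X'.μ p X.ms) f) :
    ∃ f0 : X.X → ℂ, BM X.μ X.ms f0 ∧ f =ᵐ[X'.μ] fun x => f0 (p x) := by
  obtain ⟨h1, C, hC⟩ := hf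
  obtain ⟨f0, hm, hb, he⟩ := b.a.fact X.ms X'.μ p f (max C 0) hp.mp.measurable.comap_le
    (le_max_right _ _) h1 (hC.mono fun x hx => hx.trans (le_max_left _ _))
  exact ⟨f0, ⟨hm.aestronglyMeasurable, max C 0, Eventually.of_forall hb⟩, he⟩

theorem bm_up (b : Bas) {X' X : Sys} {p : X'.X → X.X} (hp : Emb X' X p) {f : X.X → ℂ}
    (hf : BM X.μ X.ms f) : BM X'.μ X'.ms fun x => f (p x) :=
  (b.a.bm_comp X.ms X'.μ X.μ p f hp.mp hf).mono (b.a.pull_le X.ms X'.μ X.μ p hp.mp le_rfl)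

theorem shift (b : Bas) {X' X : Sys} {p : X'.X → X.X} (hp : Emb X' X p) {f : X.X → ℂ}
    (hf : BM X.μ X.ms f) (n : Γ) :
    (fun x => f (p (X'.Tz n x))) =ᵐ[X'.μ] fun x => f (X.Tz n (p x)) :=
  b.a.keq_fun X.ms X'.μ X.μ (p ∘ X'.Tz n) (X.Tz n ∘ p) f (hp.mp.comp (b.t.mp X' n))
    ((b.t.mp X n).comp hp.mp) (b.t.emb_z X' X p n hp) hf.1

theorem int_up {E : Type} [NormedAddCommGroup E] [NormedSpace ℝ E] {X' X : Sys}
    {p : X'.X → X.X} (hp : Emb X' X p) {φ : X.X → E} (h : AEStronglyMeasurable φ X.μ) :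
    ∫ x, φ (p x) ∂X'.μ = ∫ x, φ x ∂X.μ := by
  rw [← hp.mp.map_eq] at h
  rw [← integral_map hp.mp.measurable.aemeasurable h, hp.mp.map_eq]

theorem ae_up {X' X : Sys} {p : X'.X → X.X} (hp : Emb X' X p) {P : X.X → Prop}
    (h : ∀ᵐ x ∂X.μ, P x) : ∀ᵐ x ∂X'.μ, P (p x) := hp.mp.quasiMeasurePreserving.ae h

theorem meas_up {X' X : Sys} {p : X'.X → X.X} (hp : Emb X' X p) {s : Set X.X}
    (h : MeasurableSet s) : MeasurableSet (p ⁻¹' s) := hp.mp.measurable h

/-- the correlation integrals agree upstairs and downstairs -/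
theorem corr (b : Bas) {X' X : Sys} {p : X'.X → X.X} (hp : Emb X' X p)
    {C : MeasurableSpace X.X} (hC : Fac X C) {f g : X.X → ℂ} (hf : BM X.μ X.ms f)
    (hg : BM X.μ X.ms g) (n : Γ) :
    ∫ x, ‖(X'.μ[fun y => f (p (X'.Tz n y)) * g (p y) | pull X'.μ p C]) x‖ ∂X'.μ =
      ∫ x, ‖(X.μ[fun y => f (X.Tz n y) * g y | C]) x‖ ∂X.μ := by
  have hb : BM X.μ X.ms fun y => f (X.Tz n y) * g y := (b.t.bm X X.ms n f (b.t.top X) hf).mul hg
  have h1 := b.a.ce_comp C X'.μ X.μ p _ hp.mp hC.le hb.integrable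
  have h2 : X'.μ[fun y => f (p (X'.Tz n y)) * g (p y) | pull X'.μ p C] =ᵐ[X'.μ]
      X'.μ[fun y => f (X.Tz n (p y)) * g (p y) | pull X'.μ p C] := by
    refine condExp_congr_ae ?_
    filter_upwards [shift b hp hf n] with y hy
    rw [hy]
  rw [← int_up hp ((hb.ce C).mono hC.le).1.norm]
  refine integral_congr_ae ?_
  filter_upwards [h1, h2] with x h1 h2
  rw [h2, h1]

theorem ae_down {X' X : Sys} {p : X'.X → X.X} (hp : Emb X' X p) {g : X.X → ℂ}
    (hg : StronglyMeasurable g) (h : (fun x => g (p x)) =ᵐ[X'.μ] 0) : g =ᵐ[X.μ] 0 := by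
  rw [← hp.mp.map_eq]
  refine (ae_map_iff hp.mp.measurable.aemeasurable ?_).2 h
  exact hg.measurable (measurableSet_singleton (0 : ℂ))

theorem rwm (b : Bas) (ka : KfA) (kb : KfB) (X' X : Sys) (p : X'.X → X.X)
    (B : MeasurableSpace X.X) (hX' : Nice X') (hX : Nice X) (hp : Emb X' X p) (hB : KC X B) :
    RWM X' (pull X'.μ p X.ms) (pull X'.μ p B) := by
  intro f hf hz u hu
  obtain ⟨f0, h0, he⟩ := fact b hp hf
  have hK : KK X u B = B := le_antisymm (hB.2 u hu) (kb.le X u B hX hB.1)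
  have h1 := b.a.ce_comp B X'.μ X.μ p f0 hp.mp hB.1.le h0.integrable
  have h2 : X.μ[f0 | B] =ᵐ[X.μ] 0 :=
    ae_down hp (stronglyMeasurable_condExp.mono hB.1.le)
      (h1.symm.trans ((condExp_congr_ae he).symm.trans hz))
  have hw : WM X u B f0 := (kb.wm X u B hX hB.1 f0 (h0.memLp 2)).2 (by rwa [hK])
  have hfm : BM X'.μ X'.ms f := hf.mono (b.a.pull_le X.ms X'.μ X.μ p hp.mp le_rfl)
  refine ka.weak X' u _ hX' (b.t.fpull X' X p B hp hB.1) f hfm fun ε hε => ?_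
  refine (freq_of_tendsto (hw.2 _ h0.conj) ε hε).mono fun N hN => ?_
  refine le_of_eq_of_le ?_ hN
  congr 1
  refine sum_congr rfl fun n _ => ?_
  rw [← corr b hp hB.1 h0 h0.conj ((n : ℤ) • u)]
  refine integral_congr_ae ?_
  have h3 : (fun y => f (X'.Tz ((n : ℤ) • u) y) * conj (f y)) =ᵐ[X'.μ]
      fun y => f0 (p (X'.Tz ((n : ℤ) • u) y)) * conj (f0 (p y)) := by
    filter_upwards [he, (b.t.mp X' ((n : ℤ) • u)).quasiMeasurePreserving.ae he] with y h1 h2
    rw [h1, h2]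
  filter_upwards [condExp_congr_ae (m := pull X'.μ p B) h3] with x hx
  rw [hx]

/-- the projection of a weakly mixing function is weakly mixing -/
theorem wm_down (b : Bas) {X' X : Sys} {p : X'.X → X.X} (hp : Emb X' X p)
    {C : MeasurableSpace X.X} (hC : Fac X C) {f : X'.X → ℂ} (hf : BM X'.μ X'.ms f)
    {u : Γ} (hw : WM X' u (pull X'.μ p C) f) {f0 : X.X → ℂ} (h0 : BM X.μ X.ms f0)
    (he : X'.μ[f | pull X'.μ p X.ms] =ᵐ[X'.μ] fun x => f0 (p x)) : WM X u C f0 := by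
  refine ⟨h0.memLp 2, fun g hg => ?_⟩
  have hP : Fac X' (pull X'.μ p X.ms) := b.t.fpull X' X p X.ms hp (b.t.top X)
  have hgp : BM X'.μ (pull X'.μ p X.ms) fun x => g (p x) := b.a.bm_comp X.ms X'.μ X.μ p g hp.mp hg
  refine (hw.2 _ (hgp.mono hP.le)).congr fun N => ?_
  congr 1
  refine sum_congr rfl fun n _ => ?_
  generalize (n : ℤ) • u = n
  rw [← corr b hp hC h0 hg n]
  refine integral_congr_ae ?_
  have hfn : BM X'.μ X'.ms fun y => f (X'.Tz n y) := b.t.bm X' X'.ms n f (b.t.top X') hf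
  have h1 : X'.μ[fun y => f (X'.Tz n y) * g (p y) | pull X'.μ p X.ms] =ᵐ[X'.μ]
      fun y => f0 (p (X'.Tz n y)) * g (p y) := by
    filter_upwards [Fib27.ce_mul' hP.le hfn hgp, b.t.ce X' _ n f hP hf.integrable,
      (b.t.mp X' n).quasiMeasurePreserving.ae he] with y h1 h2 h3
    rw [h1, h2, h3]
  have h2 := condExp_condExp_of_le (μ := X'.μ) (f := fun y => f (X'.Tz n y) * g (p y))
    (pull_mono X'.μ p hC.le) hP.le
  filter_upwards [h2, condExp_congr_ae (m := pull X'.μ p C) h1] with x h2 h3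
  rw [← h2, h3]

theorem kk_pull (b : Bas) (kb : KfB) {X' X : Sys} {p : X'.X → X.X} (hX' : Nice X') (hX : Nice X)
    (hp : Emb X' X p) {C : MeasurableSpace X.X} (hC : Fac X C) (u : Γ) :
    pull X'.μ p (KK X u C) ≤ KK X' u (pull X'.μ p C) := by
  have hC' : Fac X' (pull X'.μ p C) := b.t.fpull X' X p C hp hC
  have hK' := kb.fac X' u _ hX' hC'
  have hK := kb.fac X u C hX hC
  have hP : Fac X' (pull X'.μ p X.ms) := b.t.fpull X' X p X.ms hp (b.t.top X)
  refine sup_le ?_ hK'.nl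
  rintro _ ⟨s, hs, rfl⟩
  have hg : BM X.μ (KK X u C) (s.indicator fun _ => (1 : ℂ)) := Fib27.BM.indicator hs
  have hG : BM X'.μ (pull X'.μ p X.ms) fun x => s.indicator (fun _ => (1 : ℂ)) (p x) :=
    b.a.bm_comp X.ms X'.μ X.μ p _ hp.mp (hg.mono hK.le)
  set G : X'.X → ℂ := fun x => s.indicator (fun _ => (1 : ℂ)) (p x) with hGd
  have hGm := hG.mono hP.le
  have hE : BM X'.μ (KK X' u (pull X'.μ p C)) (X'.μ[G | KK X' u (pull X'.μ p C)]) := hG.ce _
  have hh : BM X'.μ X'.ms fun x => G x - (X'.μ[G | KK X' u (pull X'.μ p C)]) x :=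
    hGm.sub (hE.mono hK'.le)
  set h : X'.X → ℂ := fun x => G x - (X'.μ[G | KK X' u (pull X'.μ p C)]) x with hhd
  have hz : X'.μ[h | KK X' u (pull X'.μ p C)] =ᵐ[X'.μ] 0 := by
    filter_upwards [Fib27.ce_sub hGm (hE.mono hK'.le) (KK X' u (pull X'.μ p C)),
      hE.ce_self hK'.le] with x h1 h2
    rw [hhd, h1, h2]; simp
  have hzc : X'.μ[fun x => conj (h x) | KK X' u (pull X'.μ p C)] =ᵐ[X'.μ] 0 := by
    filter_upwards [Fib27.ce_conj hK'.le hh, hz] with x h1 h2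
    rw [h1, h2]; simp
  have hw : WM X' u (pull X'.μ p C) fun x => conj (h x) :=
    (kb.wm X' u _ hX' hC' _ (hh.conj.memLp 2)).2 hzc
  obtain ⟨f0, h0, he⟩ := fact b hp (hh.conj.ce (pull X'.μ p X.ms))
  have hw0 := wm_down b hp hC hh.conj hw h0 he
  have hz0 := (kb.wm X u C hX hC f0 hw0.1).1 hw0
  have i1 : ∫ x, f0 x * s.indicator (fun _ => (1 : ℂ)) x ∂X.μ = 0 :=
    Fib27.perp_of_ce hK.le h0 hz0 _ hg
  have i2 : ∫ x, conj (h x) * G x ∂X'.μ = 0 := by
    rw [← Fib27.int_ce_mul hP.le hh.conj hG, ← i1, ← int_up hp (h0.mul (hg.mono hK.le)).1]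
    refine integral_congr_ae ?_
    filter_upwards [he] with x hx
    rw [hx]
  have i3 : ∫ x, conj (h x) * (X'.μ[G | KK X' u (pull X'.μ p C)]) x ∂X'.μ = 0 :=
    Fib27.perp_of_ce hK'.le hh.conj hzc _ hE
  have i4 : ∫ x, h x * conj (h x) ∂X'.μ = 0 := by
    have := Fib27.int_sub_mul hGm (hE.mono hK'.le) hh.conj
    rw [hhd] at this ⊢
    rw [this]
    simp only [mul_comm (G _), mul_comm ((X'.μ[G | KK X' u (pull X'.μ p C)]) _)]
    rw [hhd] at i2 i3
    rw [i2, i3, sub_zero]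
  have h5 := Fib27.eq_zero_of_int_conj hh i4
  have h6 : MeasurableSet[KK X' u (pull X'.μ p C) ⊔ nul X'.μ] (p ⁻¹' s) := by
    refine (b.a.mem _ X'.μ hK'.le _).2 ⟨meas_up hp (hK.le s hs),
      X'.μ[G | KK X' u (pull X'.μ p C)] ⁻¹' {1},
      stronglyMeasurable_condExp.measurable (measurableSet_singleton _), ?_⟩
    filter_upwards [h5] with x hx
    have hx' : (X'.μ[G | KK X' u (pull X'.μ p C)]) x = G x := (sub_eq_zero.1 hx).symm
    refine propext ?_
    change p x ∈ s ↔ (X'.μ[G | KK X' u (pull X'.μ p C)]) x = 1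
    rw [hx', hGd]
    by_cases hxs : p x ∈ s <;> simp [hxs]
  rwa [sup_eq_left.2 hK'.nl] at h6

theorem fn (b : Bas) (kb : KfB) (X' X : Sys) (p : X'.X → X.X) (B : MeasurableSpace X.X)
    (hX' : Nice X') (hX : Nice X) (hp : Emb X' X p) (hB : Fac X B) :
    pull X'.μ p (hull X B) ≤ hull X' (pull X'.μ p B) := by
  have hH := kc b kb X' _ hX' (b.t.fpull X' X p B hp hB)
  refine ind b kb X B (fun C => pull X'.μ p C ≤ hull X' (pull X'.μ p B)) hX hB (le_hull _ _) ?_ ?_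
  · intro u hu C hC _ hq
    exact (kk_pull b kb hX' hX hp hC u).trans
      ((kb.mono X' u _ _ hX' (b.t.fpull X' X p C hp hC) hH.1 hq).trans (hH.2 u hu))
  · intro 𝒞 _ _ h𝒞
    refine sup_le (MeasurableSpace.comap_le_iff_le_map.2 (sSup_le fun C hC => ?_)) hH.1.nl
    exact MeasurableSpace.comap_le_iff_le_map.1 (le_sup_left.trans (h𝒞 C hC).2.2)

theorem trans (b : Bas) (X'' X' X : Sys) (B'' : MeasurableSpace X''.X)
    (B' : MeasurableSpace X'.X) (B : MeasurableSpace X.X) (q : X''.X → X'.X) (p : X'.X → X.X)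
    (hB : Fac X B) (h2 : Adm X'' B'' X' B' q) (hB' : B' ≤ X'.ms) (h1 : Adm X' B' X B p) :
    Adm X'' B'' X B (p ∘ q) := by
  have he := b.t.emb_comp X'' X' X q p h2.emb h1.emb
  have e1 : ∀ D : MeasurableSpace X.X, pull X''.μ q (pull X'.μ p D) = pull X''.μ (p ∘ q) D :=
    fun D => b.a.pull_comp D X''.μ X'.μ q p h2.emb.mp
  refine ⟨h2.nice, he, h2.kc, ?_, fun f hf => ?_⟩
  · rw [← e1]
    exact (pull_mono X''.μ q h1.le).trans h2.le
  · obtain ⟨f0, h0, hf0⟩ := fact b he hf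
    have hP : pull X'.μ p X.ms ≤ X'.ms := b.a.pull_le X.ms X'.μ X.μ p h1.emb.mp le_rfl
    have hPB : pull X'.μ p B ≤ X'.ms := b.a.pull_le B X'.μ X.μ p h1.emb.mp hB.le
    have hf' : BM X''.μ (pull X''.μ q X'.ms) f := by
      refine hf.mono ?_
      rw [← e1]
      exact pull_mono X''.μ q hP
    have hg : BM X'.μ (pull X'.μ p X.ms) fun x => f0 (p x) :=
      b.a.bm_comp X.ms X'.μ X.μ p f0 h1.emb.mp h0
    have a1 := h2.cp f hf'
    have a2 := b.a.ce_comp B' X''.μ X'.μ q _ h2.emb.mp hB' (hg.mono hP).integrable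
    have a3 := ae_up h2.emb (h1.cp _ hg)
    have a4 := b.a.ce_comp (pull X'.μ p B) X''.μ X'.μ q _ h2.emb.mp hPB (hg.mono hP).integrable
    rw [e1] at a4
    filter_upwards [a1, a2, a3, a4, condExp_congr_ae (m := pull X''.μ q B') hf0,
      condExp_congr_ae (m := pull X''.μ (p ∘ q) B) hf0] with x a1 a2 a3 a4 a5 a6
    rw [a1, a5, a6]
    exact a2.trans (a3.trans a4.symm)

end HfP

theorem hf : HfR := fun b ka kb =>
  { kc := HfP.kc b kb
    le := HfP.le_hull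
    min := HfP.hull_min
    mono := HfP.hull_mono
    ind := HfP.ind b kb
    disj := HfP.disj b ka kb
    rwm := HfP.rwm b ka kb
    fn := HfP.fn b kb
    adm := fun X' X p B C hX' hX hp hB hC hle hcp =>
      ⟨hX', hp, HfP.kc b kb X' C hX' hC, hle.trans (HfP.le_hull X' C),
        HfP.disj b ka kb X' _ _ C hX' (b.t.fpull X' X p X.ms hp (b.t.top X))
          (b.t.fpull X' X p B hp hB.1) hC (HfP.pull_mono X'.μ p hB.1.le) hle
          (HfP.rwm b ka kb X' X p B hX' hX hp hB) hcp⟩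
    trans := fun X'' X' X B'' B' B q p hB h2 h1 =>
      HfP.trans b X'' X' X B'' B' B q p hB h2 h1.kc.1.le h1 }

end T4x

end

end PkHf

section PkInd2

/-! Row Ind2: two slots are independent over the internal base. -/

set_option autoImplicit false
set_option linter.unusedVariables false
set_option warn.classDefReducibility false

open MeasureTheory ProbabilityTheory Filter Topology Function Finset ComplexConjugate
open scoped BigOperators
open Fib27 (BM sup pr Oc Orow F23 LInd Mem)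

noncomputable section

namespace T4x

open T3x

namespace Ind2

theorem ae_comp {Ω Ω' : Type} {m : MeasurableSpace Ω} {m' : MeasurableSpace Ω'} {μ : Measure Ω}
    {μ' : Measure Ω'} {p : Ω → Ω'} (h : MeasurePreserving p μ μ') {f g : Ω' → ℂ}
    (e : f =ᵐ[μ'] g) : (fun x => f (p x)) =ᵐ[μ] fun x => g (p x) :=
  h.quasiMeasurePreserving.ae_eq_comp e

theorem int_comp {Ω Ω' : Type} {m : MeasurableSpace Ω} {m' : MeasurableSpace Ω'} {μ : Measure Ω}
    {μ' : Measure Ω'} {p : Ω → Ω'} (h : MeasurePreserving p μ μ') {f : Ω' → ℂ}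
    (hf : BM μ' m' f) : ∫ x, f (p x) ∂μ = ∫ y, f y ∂μ' := by
  rw [← h.map_eq, integral_map h.measurable.aemeasurable (by rw [h.map_eq]; exact hf.1)]

theorem bm_comp {Ω Ω' : Type} {m : MeasurableSpace Ω} {m' : MeasurableSpace Ω'} {μ : Measure Ω}
    {μ' : Measure Ω'} {p : Ω → Ω'} (h : MeasurePreserving p μ μ') {f : Ω' → ℂ}
    (hf : BM μ' m' f) : BM μ m fun x => f (p x) := by
  obtain ⟨h1, C, hC⟩ := hf
  exact ⟨h1.comp_measurePreserving h, C, h.quasiMeasurePreserving.ae hC⟩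

theorem rep (a : BasA) {Ω : Type} (B : MeasurableSpace Ω) {m0 : MeasurableSpace Ω} {μ : Measure Ω}
    {f : Ω → ℂ} (hf : BM μ B f) : ∃ f' ∈ @Bdd Ω B, f =ᵐ[μ] f' := by
  obtain ⟨h1, D, hD⟩ := hf
  obtain ⟨f', m, b, e⟩ := a.rep B μ f (max D 0) (le_max_right _ _) h1
    (hD.mono fun x hx => hx.trans (le_max_left _ _))
  exact ⟨f', ⟨m, _, b⟩, e⟩

theorem bdd_bm {Ω : Type} {B m0 : MeasurableSpace Ω} (μ : Measure Ω) {f : Ω → ℂ}
    (hf : f ∈ @Bdd Ω B) : BM μ B f := by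
  obtain ⟨m, D, b⟩ := hf
  exact ⟨m.stronglyMeasurable.aestronglyMeasurable, D, Eventually.of_forall b⟩

theorem fam_mul {Ω : Type} {B : MeasurableSpace Ω} {F G : Lab × Ω → ℂ} (hF : F ∈ FamS B)
    (hG : G ∈ FamS B) : (fun s => F s * G s) ∈ FamS B := by
  obtain ⟨h1, C, hC⟩ := hF
  obtain ⟨h2, D, hD⟩ := hG
  refine ⟨fun l => (h1 l).mul (h2 l), C * D, fun s => ?_⟩
  rw [norm_mul]
  exact mul_le_mul (hC s) (hD s) (norm_nonneg _) ((norm_nonneg _).trans (hC s))

theorem fam_cj {Ω : Type} {B : MeasurableSpace Ω} {F : Lab × Ω → ℂ} (hF : F ∈ FamS B) :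
    (fun s => conj (F s)) ∈ FamS B := by
  obtain ⟨h1, C, hC⟩ := hF
  exact ⟨fun l => Complex.continuous_conj.measurable.comp (h1 l), C, fun s => by simpa using hC s⟩

theorem fam_mono {Ω : Type} {B B' : MeasurableSpace Ω} (h : B ≤ B') {F : Lab × Ω → ℂ}
    (hF : F ∈ FamS B) : F ∈ FamS B' := ⟨fun l => (hF.1 l).mono h le_rfl, hF.2⟩

theorem perp_l2 {Ω : Type} (I : MeasurableSpace Ω) {m0 : MeasurableSpace Ω} (μ : Measure Ω)
    [IsProbabilityMeasure μ] (hle : I ≤ m0) {Φ G : Ω → ℂ} (hb : BM μ m0 Φ) (hp : Fib27.Perp μ I Φ)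
    (hG : MemLp G 2 μ) (hGm : AEStronglyMeasurable[I] G μ) : ∫ z, Φ z * G z ∂μ = 0 := by
  have z0 := hp.ce hle hb
  have hI : Integrable (fun z => G z * Φ z) μ := hG.integrable_mul (hb.memLp 2)
  have e := condExp_bilin_of_aestronglyMeasurable_left (ContinuousLinearMap.mul ℝ ℂ) hGm hI
    hb.integrable
  simp only [mul_comm _ (G _)]
  rw [← integral_condExp hle]
  refine (integral_congr_ae e).trans (integral_eq_zero_of_ae ?_)
  filter_upwards [z0] with z hz
  simp [hz]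

theorem av_le (ν : Wt) (M : ℕ) (φ : ℤ → ℂ) (c : ℝ) (h : ∀ d, ‖φ d‖ ≤ c) : ‖ν.av M φ‖ ≤ c := by
  refine (norm_sum_le_of_le _ (n := fun d => ν.w M d * c) fun d _ => ?_).trans ?_
  · rw [norm_smul, Real.norm_of_nonneg (ν.nn M d)]
    exact mul_le_mul_of_nonneg_left (h d) (ν.nn M d)
  · rw [← sum_mul, ν.one, one_mul]

def lab (b : Bool) (M : ℕ) (d d' : ℤ) : Lab := if b then (M, d, d') else (M, d', d)

theorem av2_eq (ν : Wt) (M : ℕ) (b : Bool) (φ : Lab → ℂ) :
    ν.av2 M φ = ν.av M fun d' => ν.av M fun d => φ (lab b M d d') := by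
  cases b
  · rfl
  · simp only [Wt.av2, Wt.av, lab, if_true, smul_sum]
    rw [sum_comm]
    exact sum_congr rfl fun d _ => sum_congr rfl fun d' _ => smul_comm _ _ _

variable [Grp]

theorem fam_of (t : BasT) (X : Sys) {B : MeasurableSpace X.X} (hB : Fac X B) (n : Lab → Γ)
    {g : X.X → ℂ} (hg : g ∈ @Bdd X.X B) :
    (fun z : Lab × X.X => g (X.Tz (n z.1) z.2)) ∈ FamS B := by
  obtain ⟨m, D, b⟩ := hg
  exact ⟨fun l => m.comp (Measurable.of_comap_le (t.inv X B (n l) hB).le), D, fun z => b _⟩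

/-- one slot -/
theorem one (fd : Fd) {ν : Wt} {U : Ultrafilter ℕ} {X : Sys} (L : Ln ν U X)
    (B : MeasurableSpace X.X) (hB : Fac X B) (s : Slot) (f : X.X → ℂ) (hf : BM X.μ X.ms f) :
    L.W.μ[fun w => f (L.π s w) | L.shp B] =ᵐ[L.W.μ] fun w => (X.μ[f | B]) (L.π s w) := by
  obtain ⟨f', hf', e⟩ := rep fd.a X.ms hf
  obtain ⟨k, hk, e'⟩ := rep fd.a B (hf.ce B)
  have h := fd.lb.ce L B hB _ (fam_of fd.t X (fd.t.top X) (rho s) hf') _
    (fam_of fd.t X hB (rho s) hk) fun l =>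
      ((fd.t.ce X B (rho s l) f' hB (bdd_bm X.μ hf').integrable).trans
        (ae_comp (fd.t.mp X (rho s l)) ((condExp_congr_ae e.symm).trans e'))).symm
  exact (condExp_congr_ae ((ae_comp (L.emb s).mp e).trans (L.slot s f' hf'))).trans (h.trans
    ((L.slot s k ⟨hk.1.mono hB.le le_rfl, hk.2⟩).symm.trans (ae_comp (L.emb s).mp e').symm))

/-- orthogonality to the functions that are invariant in one direction -/
theorem orth (fd : Fd) {X Z : Sys} {B : MeasurableSpace X.X} {p : Bool → Z.X → X.X}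
    (hB : Fac X B) (hp : Pair X B Z p) {h k : X.X → ℂ} (hh : BM X.μ X.ms h) {u : Γ}
    (hw : WM X u B h) (hk : BM X.μ X.ms k) (G : Z.X → ℂ) (hG : MemLp G 2 Z.μ)
    (hi : (fun z => G (Z.Tz u z)) =ᵐ[Z.μ] G) :
    ∫ z, h (p false z) * k (p true z) * G z ∂Z.μ = 0 := by
  have o := (fd.ka.wm_iff X u B Z p hB hp h hw.1).1 hw
  have hb : BM Z.μ Z.ms fun z => h (p false z) * k (p true z) :=
    (bm_comp (hp.emb false).mp hh).mul (bm_comp (hp.emb true).mp hk)
  refine @perp_l2 Z.X (Inv Z {u}) Z.ms Z.μ Z.pr (fd.t.finv Z {u}).le _ _ hb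
    (fun c hc => ?_) hG
    ((fd.t.inv_iff Z {u} G hG.1).2 fun v hv => by rw [Set.mem_singleton_iff.1 hv]; exact hi)
  exact (integral_congr_ae (Eventually.of_forall fun z => mul_right_comm _ _ _)).trans (o c k hc hk)

/-- integrals in the relative square -/
theorem int_pair (fd : Fd) {X Z : Sys} {B : MeasurableSpace X.X} {p : Bool → Z.X → X.X}
    (hB : Fac X B) (hp : Pair X B Z p) {a b : X.X → ℂ} (ha : BM X.μ X.ms a) (hb : BM X.μ X.ms b) :
    ∫ z, a (p false z) * b (p true z) ∂Z.μ = ∫ x, (X.μ[a | B]) x * (X.μ[b | B]) x ∂X.μ := by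
  have e : pull X.μ id B = B := by
    rw [pull, MeasurableSpace.comap_id]
    exact sup_eq_left.2 hB.nl
  have h := hp.ind univ (fun i => _root_.cond i b a) (by rintro (_ | _) _ <;> assumption)
  simp only [Fintype.prod_bool, cond_true, cond_false, e] at h
  have hle := fd.a.pull_le B Z.μ X.μ (id ∘ p false) (hp.emb false).mp hB.le
  have k := fd.a.keq_fun B Z.μ X.μ (id ∘ p true) (id ∘ p false) (X.μ[b | B]) (hp.emb true).mp
    (hp.emb false).mp (hp.com true) (hb.ce B).1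
  simp only [mul_comm (a _)]
  rw [← integral_condExp hle, integral_congr_ae h,
    ← int_comp (hp.emb false).mp (((ha.ce B).mul (hb.ce B)).mono hB.le)]
  refine integral_congr_ae ?_
  filter_upwards [k] with z hz
  rw [mul_comm]
  exact congrArg _ hz

/-- the direction that separates two slots -/
def Dir (s s' : Slot) (u : Γ) : Prop := (s.2 = s'.2 ∧ u = s.1 - s'.1) ∨ (s.2 ≠ s'.2 ∧ u = s.1)

/-- correlations along two different slots -/
theorem corr (t : BasT) (ν : Wt) (Z : Sys) {s s' : Slot} {u : Γ} (hs : Dir s s' u)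
    {H G : Z.X → ℂ} (hH : BM Z.μ Z.ms H) (hG : BM Z.μ Z.ms G)
    (hz : Tendsto (fun M => ∫ z, ‖ν.av M fun d => H (Z.Tz (d • u) z)‖ ^ 2 ∂Z.μ) atTop (𝓝 0)) :
    Tendsto (fun M => ν.av2 M fun l => ∫ z, H (Z.Tz (rho s l) z) * G (Z.Tz (rho s' l) z) ∂Z.μ)
      atTop (𝓝 0) := by
  have hT : ∀ (n : Γ) {f}, BM Z.μ Z.ms f → BM Z.μ Z.ms fun z => f (Z.Tz n z) := fun n f hf =>
    bm_comp (t.mp Z n) hf
  obtain ⟨k, e⟩ : ∃ k : ℤ → Γ, ∀ M d d',
      ∫ z, H (Z.Tz (rho s (lab s.2 M d d')) z) * G (Z.Tz (rho s' (lab s.2 M d d')) z) ∂Z.μ =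
        ∫ z, H (Z.Tz (d • u) z) * G (Z.Tz (k d') z) ∂Z.μ := by
    obtain ⟨r, b⟩ := s
    obtain ⟨r', b'⟩ := s'
    rcases hs with ⟨hb, hu⟩ | ⟨hb, hu⟩
    · dsimp only at hb hu
      subst hb hu
      refine ⟨fun _ => 0, fun M d d' => ?_⟩
      rw [← int_comp (t.mp Z (d • r')) ((hT (d • (r - r')) hH).mul (hT 0 hG))]
      simp only [← t.add]
      cases b <;> simp [rho, lab, smul_sub]
    · dsimp only at hb hu
      subst hu
      refine ⟨fun d' => d' • r', fun M d d' => ?_⟩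
      cases b <;> cases b' <;> simp [rho, lab] at hb ⊢
  obtain ⟨-, C, hC⟩ := id hG
  have l := (hz.sqrt).mul_const (max C 0)
  rw [Real.sqrt_zero, zero_mul] at l
  refine squeeze_zero_norm (fun M => ?_) l
  rw [av2_eq ν M s.2]
  refine av_le ν M _ _ fun d' => ?_
  simp only [e]
  have hA : MemLp (fun z => ν.av M fun d => H (Z.Tz (d • u) z)) 2 Z.μ :=
    memLp_finsetSum _ fun d _ => ((hT (d • u) hH).memLp 2).const_smul (ν.w M d)
  have e2 : (ν.av M fun d => ∫ z, H (Z.Tz (d • u) z) * G (Z.Tz (k d') z) ∂Z.μ) =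
      ∫ z, (ν.av M fun d => H (Z.Tz (d • u) z)) * G (Z.Tz (k d') z) ∂Z.μ := by
    simp only [Wt.av, sum_mul, smul_mul_assoc]
    refine Eq.trans ?_ (integral_finsetSum (f := fun d z => ν.w M d • (H (Z.Tz (d • u) z) *
      G (Z.Tz (k d') z))) _ fun d _ => ((hT _ hH).mul (hT _ hG)).integrable.smul (ν.w M d)).symm
    exact sum_congr rfl fun d _ => (integral_smul _ _).symm
  rw [e2]
  have hI := (hA.integrable (by norm_num)).norm
  refine (norm_integral_le_of_norm_le (hI.mul_const (max C 0)) ?_).trans ?_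
  · filter_upwards [(t.mp Z (k d')).quasiMeasurePreserving.ae hC] with z hz
    rw [norm_mul]
    exact mul_le_mul_of_nonneg_left (hz.trans (le_max_left _ _)) (norm_nonneg _)
  · rw [integral_mul_const]
    refine mul_le_mul_of_nonneg_right (Real.le_sqrt_of_sq_le ?_) (le_max_right _ _)
    have v := variance_nonneg (fun z => ‖ν.av M fun d => H (Z.Tz (d • u) z)‖) Z.μ
    rw [variance_eq_sub hA.norm] at v
    exact sub_nonneg.1 v

theorem bm_sq {X Z : Sys} {B : MeasurableSpace X.X} {p : Bool → Z.X → X.X} (hp : Pair X B Z p)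
    {f : X.X → ℂ} (hf : BM X.μ X.ms f) :
    BM Z.μ Z.ms fun z => f (p false z) * conj (f (p true z)) :=
  (bm_comp (hp.emb false).mp hf).mul (bm_comp (hp.emb true).mp hf.conj)

theorem emb_fun (fd : Fd) {X Z : Sys} {p : Z.X → X.X} (hp : Emb Z X p) (n : Γ) {f : X.X → ℂ}
    (hf : BM X.μ X.ms f) : (fun z => f (p (Z.Tz n z))) =ᵐ[Z.μ] fun z => f (X.Tz n (p z)) :=
  fd.a.keq_fun X.ms Z.μ X.μ (p ∘ Z.Tz n) (X.Tz n ∘ p) f (hp.mp.comp (fd.t.mp Z n))
    ((fd.t.mp X n).comp hp.mp) (fd.t.emb_z Z X p n hp) hf.1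

theorem sq_int (fd : Fd) {X Z : Sys} {B : MeasurableSpace X.X} {p : Bool → Z.X → X.X}
    (hB : Fac X B) (hp : Pair X B Z p) {h g k : X.X → ℂ} (bh : BM X.μ X.ms h) (bg : BM X.μ X.ms g)
    (n n' : Γ) (e : k =ᵐ[X.μ] X.μ[fun x => h (X.Tz n x) * g (X.Tz n' x) | B]) :
    ∫ x, k x * conj (k x) ∂X.μ =
      ∫ z, h (p false (Z.Tz n z)) * conj (h (p true (Z.Tz n z))) *
        (g (p false (Z.Tz n' z)) * conj (g (p true (Z.Tz n' z)))) ∂Z.μ := by
  have b : BM X.μ X.ms fun x => h (X.Tz n x) * g (X.Tz n' x) :=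
    (bm_comp (fd.t.mp X n) bh).mul (bm_comp (fd.t.mp X n') bg)
  refine Eq.trans (integral_congr_ae ?_) ((int_pair fd hB hp b b.conj).symm.trans
    (integral_congr_ae ?_))
  · filter_upwards [e, Fib27.ce_conj hB.le b] with x h1 h2
    rw [h2, h1]
  · filter_upwards [emb_fun fd (hp.emb false) n bh, emb_fun fd (hp.emb true) n bh,
      emb_fun fd (hp.emb false) n' bg, emb_fun fd (hp.emb true) n' bg] with z h1 h2 h3 h4
    rw [h1, h2, h3, h4, map_mul]
    ring

theorem sq_lim (fd : Fd) {ν : Wt} (erg : ERG ν) {X : Sys} (B : MeasurableSpace X.X) (hn : Nice X)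
    (hB : KC X B) {s s' : Slot} {u : Γ} (hs : Dir s s' u) (hu : u ∈ 𝒰) {h g : X.X → ℂ}
    (bh : BM X.μ X.ms h)
    (bg : BM X.μ X.ms g) (hz : X.μ[h | B] =ᵐ[X.μ] 0) (k : Lab × X.X → ℂ)
    (e : ∀ l, (fun x => k (l, x)) =ᵐ[X.μ]
      X.μ[fun x => h (X.Tz (rho s l) x) * g (X.Tz (rho s' l) x) | B]) :
    Tendsto (fun M => ν.av2 M fun l => ∫ x, k (l, x) * conj (k (l, x)) ∂X.μ) atTop (𝓝 0) := by
  obtain ⟨Z, p, hp⟩ : ∃ Z p, Pair X B Z p := fd.rp Bool (fun _ => X) X B (fun _ => id) false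
    (fun _ => hn) hB.1 (fun _ => (fd.t.emb_id X).mp) fun _ n A _ => EventuallyEq.rfl
  have hw : WM X u B h := (fd.kb.wm X u B hn hB.1 h (bh.memLp 2)).2
    (by rwa [le_antisymm (hB.2 u hu) (fd.kb.le X u B hn hB.1)])
  have l0 := (fd.mix ν erg).zero Z u (fun z => h (p false z) * conj (h (p true z)))
      ((bm_sq hp bh).memLp 2) fun G hG hi => orth fd hB.1 hp bh hw bh.conj G hG hi
  have l := corr fd.t ν Z hs (bm_sq hp bh) (bm_sq hp bg) l0
  have e3 : (fun l => ∫ x, k (l, x) * conj (k (l, x)) ∂X.μ) = _ :=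
    funext fun l => sq_int fd hB.1 hp bh bg _ _ (e l)
  rw [e3]
  exact l

/-- a function of conditional mean zero in one of two slots -/
theorem key (fd : Fd) {ν : Wt} {U : Ultrafilter ℕ} (hU : (U : Filter ℕ) ≤ atTop) (erg : ERG ν)
    {X : Sys} (L : Ln ν U X) (B : MeasurableSpace X.X) (hn : Nice X) (hB : KC X B) {s s' : Slot}
    {u : Γ} (hs : Dir s s' u) (hu : u ∈ 𝒰) {h g : X.X → ℂ} (hh : h ∈ @Bdd X.X X.ms)
    (hg : g ∈ @Bdd X.X X.ms)
    (hz : X.μ[h | B] =ᵐ[X.μ] 0) :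
    L.W.μ[fun w => h (L.π s w) * g (L.π s' w) | L.shp B] =ᵐ[L.W.μ] 0 := by
  have bh := bdd_bm X.μ hh
  have bg := bdd_bm X.μ hg
  have F1 := fam_of fd.t X (fd.t.top X) (rho s) hh
  have F2 := fam_of fd.t X (fd.t.top X) (rho s') hg
  obtain ⟨F', hF', e⟩ := fd.lb.cex X B hB.1 _ (fam_mul F1 F2)
  have e1 : (fun w => h (L.π s w) * g (L.π s' w)) =ᵐ[L.W.μ]
      L.hat fun z => h (X.Tz (rho s z.1) z.2) * g (X.Tz (rho s' z.1) z.2) := by
    filter_upwards [L.slot s h hh, L.slot s' g hg] with w h1 h2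
    rw [h1, h2, (L.ch w).mul _ F1 _ F2]
  have e2 := (condExp_congr_ae (m := L.shp B) e1).trans (fd.lb.ce L B hB.1 _ (fam_mul F1 F2) F' hF' e)
  have hm := fam_mono hB.1.le hF'
  have z0 := tendsto_nhds_unique (L.lim _ (fam_mul hm (fam_cj hm)))
    ((sq_lim fd erg B hn hB hs hu bh bg hz F' e).mono_left hU)
  have bb := ((bm_comp (L.emb s).mp bh).mul (bm_comp (L.emb s').mp bg)).ce (L.shp B)
  refine Fib27.eq_zero_of_int_conj (bb.mono (fd.lb.fac L B hB.1).le) ((integral_congr_ae ?_).trans z0)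
  filter_upwards [e2] with w hw
  rw [hw, (L.ch w).mul _ hm _ (fam_cj hm), (L.ch w).cj _ hm]

end Ind2

variable [Grp]

open Ind2 in
theorem ind2 : Ind2R := by
  intro fd ν U hU erg X B L ι sl S hn hB hi hc f hf
  classical
  have hle := (fd.lb.fac L B hB.1).le
  rcases (show S.card = 0 ∨ S.card = 1 ∨ S.card = 2 by omega) with h | h | h
  · rw [card_eq_zero.1 h]
    simp only [prod_empty]
    rw [condExp_const hle]
  · obtain ⟨i, rfl⟩ := card_eq_one.1 h
    simp only [prod_singleton]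
    exact one fd L B hB.1 _ _ (hf i (mem_singleton_self i))
  obtain ⟨i, j, hij, rfl⟩ := card_eq_two.1 h
  simp only [prod_pair hij]
  have mi : i ∈ ({i, j} : Finset ι) := by simp
  have mj : j ∈ ({i, j} : Finset ι) := by simp
  have bf := hf i mi
  have bg := hf j mj
  have be := (bf.ce B).mono hB.1.le
  obtain ⟨h', hh', eh⟩ := rep fd.a X.ms (bf.sub be)
  obtain ⟨g', hg', eg⟩ := rep fd.a X.ms bg
  obtain ⟨u, hd, hu⟩ : ∃ u, Dir (sl i) (sl j) u ∧ u ∈ 𝒰 := by
    by_cases e : (sl i).2 = (sl j).2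
    · exact ⟨_, Or.inl ⟨e, rfl⟩, (hi i mi j mj hij).1 e⟩
    · exact ⟨_, Or.inr ⟨e, rfl⟩, (hi i mi j mj hij).2 e⟩
  have k := key fd hU erg L B hn hB hd hu hh' hg'
    ((condExp_congr_ae eh.symm).trans
      ((Fib27.perp_sub_ce hB.1.le bf).ce hB.1.le (bf.sub be)))
  have pi := (L.emb (sl i)).mp
  have pj := (L.emb (sl j)).mp
  have b1 := (fd.a.bm_comp B L.W.μ X.μ _ _ pi (bf.ce B)).mono (fd.lb.slot L B (sl i) hB.1)
  have k1 := Fib27.ce_mul hle b1 (bm_comp pj bg)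
  have e : (fun w => f i (L.π (sl i) w) * f j (L.π (sl j) w)) =ᵐ[L.W.μ]
      (fun w => (X.μ[f i | B]) (L.π (sl i) w) * f j (L.π (sl j) w)) +
        fun w => h' (L.π (sl i) w) * g' (L.π (sl j) w) := by
    filter_upwards [ae_comp pi eh, ae_comp pj eg] with w h1 h2
    rw [Pi.add_apply, ← h1, ← h2]
    ring
  filter_upwards [condExp_congr_ae (m := L.shp B) e, condExp_add
    ((b1.mono hle).mul (bm_comp pj bg)).integrable ((bm_comp pi (bdd_bm X.μ hh')).mul
      (bm_comp pj (bdd_bm X.μ hg'))).integrable (L.shp B), k, k1,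
    one fd L B hB.1 (sl j) _ bg] with w h1 h2 h3 h4 h5
  rw [h1, h2, Pi.add_apply, h3, h4, h5, Pi.zero_apply, add_zero]

end T4x

end

end PkInd2
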