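import Pool.Agent.MP_154433_an.t4.Spec

/-! Rows for commuting maps, part A5. -/

section PkSatA

/-! Row SatA: growth of the rest of a line, inheritance of failure, amalgamation, limits. -/

set_option autoImplicit false
set_option linter.unusedVariables false
set_option warn.classDefReducibility false
set_option linter.unusedSectionVars false

open MeasureTheory ProbabilityTheory Filter Topology Function Finset ComplexConjugate
open scoped BigOperators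
open Fib27 (BM sup pr Oc Orow F23 LInd Mem)

noncomputable section

namespace T4x

open T3x

variable [Grp]

namespace SatAx

theorem pull_mono {Ω Ω' : Type} {B C : MeasurableSpace Ω'} {m0 : MeasurableSpace Ω}
    (μ : Measure Ω) (p : Ω → Ω') (h : B ≤ C) : pull μ p B ≤ pull μ p C :=
  sup_le_sup_right (MeasurableSpace.comap_mono h) _

theorem comap_le {Ω Ω' : Type} {B : MeasurableSpace Ω'} {m0 : MeasurableSpace Ω}
    {m0' : MeasurableSpace Ω'} {μ : Measure Ω} {μ' : Measure Ω'} {p : Ω → Ω'}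
    (hp : MeasurePreserving p μ μ') (h : B ≤ m0') : B.comap p ≤ m0 :=
  (MeasurableSpace.comap_mono h).trans hp.measurable.comap_le

theorem mpc {Ω Ω' Ω'' : Type} {m0 : MeasurableSpace Ω} {m0' : MeasurableSpace Ω'}
    {m0'' : MeasurableSpace Ω''} {μ : Measure Ω} {μ' : Measure Ω'} {μ'' : Measure Ω''}
    {p : Ω → Ω'} {q : Ω' → Ω''} (hq : MeasurePreserving q μ' μ'') (hp : MeasurePreserving p μ μ') :
    MeasurePreserving (q ∘ p) μ μ'' := hq.comp hp

theorem keq_mono {Ω Ω' : Type} {B C : MeasurableSpace Ω'} {m0 : MeasurableSpace Ω}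
    {μ : Measure Ω} {p p' : Ω → Ω'} (h : KEq μ C p p') (hB : B ≤ C) : KEq μ B p p' :=
  fun A hA => h A (hB A hA)

theorem int_comp {Ω Ω' : Type} {m0 : MeasurableSpace Ω} {m0' : MeasurableSpace Ω'}
    {μ : Measure Ω} {μ' : Measure Ω'} {p : Ω → Ω'} (hp : MeasurePreserving p μ μ') {f : Ω' → ℂ}
    (hf : BM μ' m0' f) : ∫ x, f (p x) ∂μ = ∫ y, f y ∂μ' := by
  have h1 : AEStronglyMeasurable f (μ.map p) := by rw [hp.map_eq]; exact hf.1
  rw [← hp.map_eq, integral_map hp.measurable.aemeasurable h1]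

theorem ae_comp {Ω Ω' : Type} {m0 : MeasurableSpace Ω} {m0' : MeasurableSpace Ω'}
    {μ : Measure Ω} {μ' : Measure Ω'} {p : Ω → Ω'} (hp : MeasurePreserving p μ μ') {f g : Ω' → ℂ}
    (h : f =ᵐ[μ'] g) : (fun x => f (p x)) =ᵐ[μ] fun x => g (p x) :=
  hp.quasiMeasurePreserving.ae_eq_comp h

theorem fact (a : BasA) {Ω Ω' : Type} {B : MeasurableSpace Ω'} {m0 : MeasurableSpace Ω}
    {m0' : MeasurableSpace Ω'} {μ : Measure Ω} {μ' : Measure Ω'} {p : Ω → Ω'}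
    (hp : MeasurePreserving p μ μ') (h : B ≤ m0') {f : Ω → ℂ} (hf : BM μ (pull μ p B) f) :
    ∃ f' : Ω' → ℂ, BM μ' B f' ∧ f =ᵐ[μ] fun x => f' (p x) := by
  obtain ⟨h1, C, hC⟩ := hf
  obtain ⟨f', h2, h3, h4⟩ := a.fact B μ p f (max C 0) (comap_le hp h) (le_max_right _ _) h1
    (hC.mono fun x hx => hx.trans (le_max_left _ _))
  exact ⟨f', ⟨h2.stronglyMeasurable.aestronglyMeasurable, _, Eventually.of_forall h3⟩, h4⟩

/-- conditional independence is pulled back -/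
theorem cp_pull (a : BasA) {Ω Ω' : Type} {Y D C : MeasurableSpace Ω'} {m0 : MeasurableSpace Ω}
    {m0' : MeasurableSpace Ω'} {μ : Measure Ω} {μ' : Measure Ω'} [IsProbabilityMeasure μ]
    [IsProbabilityMeasure μ'] {p : Ω → Ω'} (hp : MeasurePreserving p μ μ') (hY : Y ≤ m0')
    (hD : D ≤ m0') (hC : C ≤ m0') (h : CP Y D C μ') :
    CP (pull μ p Y) (pull μ p D) (pull μ p C) μ := by
  intro f hf
  obtain ⟨f', h1, h2⟩ := fact a hp hY hf
  have hi : Integrable f' μ' := (h1.mono hY).integrable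
  exact (condExp_congr_ae h2).trans ((a.ce_comp C μ μ' p f' hp hC hi).trans
    ((ae_comp hp (h f' h1)).trans ((a.ce_comp D μ μ' p f' hp hD hi).symm.trans
      (condExp_congr_ae h2).symm)))

/-- conditional independence from a join, tested on products -/
theorem cp_iSup (d : BasD) {Ω ι : Type} {Y D : MeasurableSpace Ω} {p : ι → MeasurableSpace Ω}
    {m0 : MeasurableSpace Ω} {μ : Measure Ω} [IsProbabilityMeasure μ] (hY : Y ≤ m0)
    (hp : ∀ i, p i ≤ m0) (hD : D ≤ Y) (hD' : D ≤ ⨆ i, p i)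
    (h : ∀ g, BM μ Y g → Fib27.Perp μ D g → ∀ (S : Finset ι) (f : ι → Ω → ℂ),
      (∀ i ∈ S, BM μ (p i) (f i)) → ∫ x, g x * pr f S x ∂μ = 0) : CP Y D (⨆ i, p i) μ := by
  intro f hf
  have hC : (⨆ i, p i) ≤ m0 := iSup_le hp
  have hg : BM μ Y fun x => f x - (μ[f | D]) x := hf.sub ((hf.ce D).mono hD)
  have h1 := d.iperp p μ hp _ (hg.mono hY).integrable
    (h _ hg (Fib27.perp_sub_ce (hD.trans hY) (hf.mono hY)))
  exact Fib27.ce_eq_of_perp hC (hf.mono hY) ((hf.ce D).mono hD')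
    (Fib27.perp_of_ce hC (hg.mono hY) h1)

theorem ob (fd : Fd) {ν : Wt} {U : Ultrafilter ℕ} {X' X : Sys} (L' : Ln ν U X') (L : Ln ν U X)
    (B' : MeasurableSpace X'.X) (B : MeasurableSpace X.X) (p : X'.X → X.X)
    (Lp : L'.W.X → L.W.X) {ι : Type} [Fintype ι] [DecidableEq ι] (sl : ι → Slot) (q : ι)
    (hB : Fac X B) (hB' : Fac X' B') (hp : Emb X' X p) (hle : pull X'.μ p B ≤ B')
    (hL : IsLift L' L p Lp) : pull L'.W.μ Lp (L.OB B sl q) ≤ L'.OB B' sl q ∧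
      pull L'.W.μ Lp (L.B2 B) ≤ L'.B2 B' := by
  have h2 : pull L'.W.μ Lp (L.B2 B) ≤ L'.B2 B' :=
    (fd.h.fn L'.W L.W Lp (L.shp B) L'.nice L.nice hL.emb (fd.lb.fac L B hB)).trans
      (fd.h.mono L'.W _ _ (fd.la.shp L' L p Lp B B' hp hL hB hB' hle))
  refine ⟨?_, h2⟩
  have h3 : ∀ s, pull L'.W.μ Lp (L.P s) ≤ L'.P s := fun s => by
    have e1 : pull L'.W.μ Lp (L.P s) = pull L'.W.μ (L.π s ∘ Lp) X.ms :=
      fd.a.pull_comp X.ms L'.W.μ L.W.μ Lp (L.π s) hL.emb.mp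
    have e2 : pull L'.W.μ (L.π s ∘ Lp) X.ms = pull L'.W.μ (p ∘ L'.π s) X.ms :=
      fd.a.keq_pull X.ms L'.W.μ _ _ (comap_le (mpc (L.emb s).mp hL.emb.mp) le_rfl)
        (comap_le (mpc hp.mp (L'.emb s).mp) le_rfl) (fd.la.slot L' L p Lp s hp hL)
    have e3 : pull L'.W.μ (L'.π s) (pull X'.μ p X.ms) = pull L'.W.μ (p ∘ L'.π s) X.ms :=
      fd.a.pull_comp X.ms L'.W.μ X'.μ (L'.π s) p (L'.emb s).mp
    rw [e1, e2, ← e3]
    exact pull_mono _ _ (fd.a.pull_le X.ms X'.μ X.μ p hp.mp le_rfl)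
  unfold Ln.OB
  rw [fd.a.pull_sup]
  refine sup_le ?_ (h2.trans le_sup_right)
  refine sup_le ?_ ((le_sup_right.trans h2).trans le_sup_right)
  refine le_trans ?_ le_sup_left
  unfold Fib27.sup
  simp only [MeasurableSpace.comap_iSup]
  exact iSup₂_mono fun k _ => le_sup_left.trans (h3 (sl k))

theorem fail (fd : Fd) {ν : Wt} {U : Ultrafilter ℕ} {X' X : Sys} (L' : Ln ν U X')
    (L : Ln ν U X) (B' : MeasurableSpace X'.X) (B : MeasurableSpace X.X) (p : X'.X → X.X)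
    {ι : Type} [Fintype ι] (sl : ι → Slot) (hX : Nice X) (hB : KC X B) (ad : Adm X' B' X B p)
    (h : IndOver L' B' (L'.shp B') sl univ) : IndOver L B (L.shp B) sl univ := by
  obtain ⟨Lp, hL⟩ := fd.la.ex L' L p ad.emb
  intro f hf
  have hS := fd.lb.fac L B hB.1
  have hS' := fd.lb.fac L' B' ad.kc.1
  have hF : BM L.W.μ L.W.ms fun w => ∏ i, f i (L.π (sl i) w) :=
    BM.pr (ρ := fun i w => f i (L.π (sl i) w)) fun i hi =>
      (fd.a.bm_comp X.ms L.W.μ X.μ _ _ (L.emb _).mp (hf i hi)).mono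
        (fd.a.pull_le X.ms L.W.μ X.μ _ (L.emb _).mp le_rfl)
  have hG : BM L.W.μ (L.shp B) fun w => ∏ i, (X.μ[f i | B]) (L.π (sl i) w) :=
    BM.pr (ρ := fun i w => (X.μ[f i | B]) (L.π (sl i) w)) fun i hi =>
      (fd.a.bm_comp B L.W.μ X.μ _ _ (L.emb _).mp ((hf i hi).ce B)).mono
        (fd.lb.slot L B _ hB.1)
  have hf' : ∀ i ∈ (univ : Finset ι), BM X'.μ X'.ms fun x => f i (p x) := fun i hi =>
    (fd.a.bm_comp X.ms X'.μ X.μ p _ ad.emb.mp (hf i hi)).mono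
      (fd.a.pull_le X.ms X'.μ X.μ p ad.emb.mp le_rfl)
  have k1 := h (fun i x => f i (p x)) hf'
  have sw : ∀ (g : X.X → ℂ) (s : Slot), BM X.μ X.ms g →
      (fun w => g (L.π s (Lp w))) =ᵐ[L'.W.μ] fun w => g (p (L'.π s w)) := fun g s hg =>
    fd.a.keq_fun X.ms L'.W.μ X.μ (L.π s ∘ Lp) (p ∘ L'.π s) g (mpc (L.emb s).mp hL.emb.mp)
      (mpc ad.emb.mp (L'.emb s).mp) (fd.la.slot L' L p Lp s ad.emb hL) hg.1
  have k2 : (fun w => ∏ i, f i (L.π (sl i) (Lp w))) =ᵐ[L'.W.μ]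
      fun w => ∏ i, f i (p (L'.π (sl i) w)) :=
    Fib27.pr_congr_ae (ρ := fun i w => f i (L.π (sl i) (Lp w)))
      (ρ' := fun i w => f i (p (L'.π (sl i) w))) fun i hi => sw _ _ (hf i hi)
  have k3 : (fun w => ∏ i, (X'.μ[fun x => f i (p x) | B']) (L'.π (sl i) w)) =ᵐ[L'.W.μ]
      fun w => ∏ i, (X.μ[f i | B]) (L.π (sl i) (Lp w)) :=
    Fib27.pr_congr_ae (ρ := fun i w => (X'.μ[fun x => f i (p x) | B']) (L'.π (sl i) w))
      (ρ' := fun i w => (X.μ[f i | B]) (L.π (sl i) (Lp w))) fun i hi => by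
        have e1 := (ad.cp _ (fd.a.bm_comp X.ms X'.μ X.μ p _ ad.emb.mp (hf i hi))).trans
          (fd.a.ce_comp B X'.μ X.μ p (f i) ad.emb.mp hB.1.le (hf i hi).integrable)
        exact (ae_comp (L'.emb _).mp e1).trans (sw _ _ (((hf i hi).ce B).mono hB.1.le)).symm
  have k4 := (condExp_congr_ae (m := L'.shp B') k2).trans (k1.trans k3)
  refine Fib27.ce_eq_of_tests hS.le hF hG fun c hc => ?_
  have hc' : BM L'.W.μ (L'.shp B') fun w => c (Lp w) :=
    (fd.a.bm_comp _ L'.W.μ L.W.μ Lp c hL.emb.mp hc).mono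
      (fd.la.shp L' L p Lp B B' ad.emb hL hB.1 ad.kc.1 ad.le)
  have hF' : BM L'.W.μ L'.W.ms fun w => ∏ i, f i (L.π (sl i) (Lp w)) :=
    (fd.a.bm_comp _ L'.W.μ L.W.μ Lp _ hL.emb.mp hF).mono
      (fd.a.pull_le _ L'.W.μ L.W.μ Lp hL.emb.mp le_rfl)
  rw [← int_comp hL.emb.mp (hF.mul (hc.mono hS.le)),
    ← int_comp hL.emb.mp ((hG.mul hc).mono hS.le), ← Fib27.int_ce_mul hS'.le hF' hc']
  refine integral_congr_ae ?_
  filter_upwards [k4] with w hw
  rw [hw]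

theorem amal0 (fd : Fd) (X : Sys) (B : MeasurableSpace X.X) (κ : Type) (Y : κ → Sys)
    (D : ∀ k, MeasurableSpace (Y k).X) (p : ∀ k, (Y k).X → X.X) (i0 : κ) (hX : Nice X)
    (hB : KC X B) (ad : ∀ k, Adm (Y k) (D k) X B (p k)) :
    ∃ (Z : Sys) (C : MeasurableSpace Z.X) (q : Z.X → X.X) (e : ∀ k, Z.X → (Y k).X),
      Adm Z C X B q ∧ ∀ k, Emb Z (Y k) (e k) ∧ pull Z.μ (e k) (D k) ≤ C ∧
        KEq Z.μ X.ms (p k ∘ e k) q := by
  obtain ⟨Z, e, rp⟩ := fd.rp κ Y X X.ms p i0 (fun k => (ad k).nice) (fd.t.top X)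
    (fun k => (ad k).emb.mp) fun k n => fd.t.emb_z _ _ _ n (ad k).emb
  have hq : Emb Z X (p i0 ∘ e i0) := fd.t.emb_comp _ _ _ _ _ (rp.emb i0) (ad i0).emb
  have hf : ∀ k, Fac Z (pull Z.μ (e k) (D k)) := fun k =>
    fd.t.fpull _ _ _ _ (rp.emb k) (ad k).kc.1
  have hC : Fac Z (⨆ k, pull Z.μ (e k) (D k)) := by
    have := fd.t.fisup Z κ _ _ (hf i0) hf
    rwa [sup_of_le_right (le_iSup (fun k => pull Z.μ (e k) (D k)) i0)] at this
  have hb : ∀ k, pull Z.μ (e k) (pull (Y k).μ (p k) B) = pull Z.μ (p i0 ∘ e i0) B := fun k => by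
    rw [fd.a.pull_comp B Z.μ (Y k).μ (e k) (p k) (rp.emb k).mp]
    exact fd.a.keq_pull B Z.μ _ _ (comap_le (mpc (ad k).emb.mp (rp.emb k).mp) hB.1.le)
      (comap_le hq.mp hB.1.le) (keq_mono (rp.com k) hB.1.le)
  have hle : pull Z.μ (p i0 ∘ e i0) B ≤ ⨆ k, pull Z.μ (e k) (D k) := by
    rw [← hb i0]
    exact (pull_mono _ _ (ad i0).le).trans (le_iSup (fun k => pull Z.μ (e k) (D k)) i0)
  have hY : pull Z.μ (p i0 ∘ e i0) X.ms ≤ Z.ms := fd.a.pull_le X.ms Z.μ X.μ _ hq.mp le_rfl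
  refine ⟨Z, hull Z (⨆ k, pull Z.μ (e k) (D k)), p i0 ∘ e i0, e,
    fd.h.adm Z X _ B _ rp.nice hX hq hB hC hle ?_, fun k => ⟨rp.emb k,
      (le_iSup (fun k => pull Z.μ (e k) (D k)) k).trans (fd.h.le Z _), rp.com k⟩⟩
  refine cp_iSup fd.d hY (fun k => (hf k).le) (pull_mono _ _ hB.1.le) hle fun g hg hp S f hS => ?_
  have ex : ∀ k, ∃ f' : (Y k).X → ℂ, k ∈ S →
      BM (Y k).μ (D k) f' ∧ f k =ᵐ[Z.μ] fun x => f' (e k x) := fun k => by
    by_cases hk : k ∈ S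
    · obtain ⟨f', h1⟩ := fact fd.a (rp.emb k).mp (ad k).kc.1.le (hS k hk)
      exact ⟨f', fun _ => h1⟩
    · exact ⟨0, fun h => (hk h).elim⟩
  choose f' hf' using ex
  have k1 := rp.ind S f' fun k hk => (hf' k hk).1.mono (ad k).kc.1.le
  have k2 : pr f S =ᵐ[Z.μ] fun z => ∏ k ∈ S, f' k (e k z) :=
    Fib27.pr_congr_ae (ρ' := fun k z => f' k (e k z)) fun k hk => (hf' k hk).2
  have k3 : BM Z.μ (pull Z.μ (p i0 ∘ e i0) B)
      fun z => ∏ k ∈ S, ((Y k).μ[f' k | pull (Y k).μ (p k) X.ms]) (e k z) :=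
    BM.pr (ρ := fun k z => ((Y k).μ[f' k | pull (Y k).μ (p k) X.ms]) (e k z)) fun k hk => by
      have e1 := fd.c.cp_symm _ _ _ (Y k).μ (fd.a.pull_le X.ms (Y k).μ X.μ _ (ad k).emb.mp le_rfl)
        (ad k).kc.1.le (ad k).le (pull_mono _ _ hB.1.le) (ad k).cp _ (hf' k hk).1
      rw [← hb k]
      exact fd.a.bm_comp _ Z.μ (Y k).μ (e k) _ (rp.emb k).mp
        (((hf' k hk).1.ce _).congr e1.symm)
  have k4 : BM Z.μ Z.ms (pr f S) := BM.pr fun k hk => (hS k hk).mono (hf k).le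
  rw [← Fib27.int_mul_ce hY hg k4, ← hp _ k3]
  refine integral_congr_ae ?_
  filter_upwards [(condExp_congr_ae k2).trans k1] with z hz
  rw [hz]

theorem adm_id (fd : Fd) (X : Sys) (B : MeasurableSpace X.X) (hX : Nice X) (hB : KC X B) :
    Adm X B X B id := by
  have e : pull X.μ id B = B := by
    unfold pull
    rw [MeasurableSpace.comap_id, sup_of_le_left hB.1.nl]
  refine ⟨hX, fd.t.emb_id X, hB, e.le, fun f hf => ?_⟩
  rw [e]

theorem lim (fd : Fd) (X : ℕ → Sys) (B : ∀ k, MeasurableSpace (X k).X)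
    (p : ∀ k, (X (k + 1)).X → (X k).X) (hX : Nice (X 0)) (hB : KC (X 0) (B 0))
    (ad : ∀ k, Adm (X (k + 1)) (B (k + 1)) (X k) (B k) (p k)) :
    ∃ (Z : Sys) (C : MeasurableSpace Z.X) (e : ∀ k, Z.X → (X k).X),
      (∀ k, Adm Z C (X k) (B k) (e k)) ∧ (∀ k, KEq Z.μ (X k).ms (p k ∘ e (k + 1)) (e k)) ∧
      Z.ms ≤ ⨆ k, pull Z.μ (e k) (X k).ms := by
  have hN : ∀ k, Nice (X k) := fun k => by
    cases k with
    | zero => exact hX
    | succ k => exact (ad k).nice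
  have hK : ∀ k, KC (X k) (B k) := fun k => by
    cases k with
    | zero => exact hB
    | succ k => exact (ad k).kc
  obtain ⟨Z, e, hZ, he, hq, hg⟩ := fd.lim X p hN fun k => (ad k).emb
  have hf : ∀ k, Fac Z (pull Z.μ (e k) (B k)) := fun k => fd.t.fpull _ _ _ _ (he k) (hK k).1
  have hC : Fac Z (⨆ k, pull Z.μ (e k) (B k)) := by
    have := fd.t.fisup Z ℕ _ _ (hf 0) hf
    rwa [sup_of_le_right (le_iSup (fun k => pull Z.μ (e k) (B k)) 0)] at this
  have hb : ∀ k (A : MeasurableSpace (X k).X), A ≤ (X k).ms →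
      pull Z.μ (e (k + 1)) (pull (X (k + 1)).μ (p k) A) = pull Z.μ (e k) A := fun k A hA => by
    rw [fd.a.pull_comp A Z.μ (X (k + 1)).μ (e (k + 1)) (p k) (he _).mp]
    exact fd.a.keq_pull A Z.μ _ _ (comap_le (mpc (ad k).emb.mp (he _).mp) hA)
      (comap_le (he k).mp hA) (keq_mono (hq k) hA)
  have hpl : ∀ k, pull (X (k + 1)).μ (p k) (X k).ms ≤ (X (k + 1)).ms := fun k =>
    fd.a.pull_le _ _ (X k).μ _ (ad k).emb.mp le_rfl
  have mD : Monotone fun k => pull Z.μ (e k) (B k) := monotone_nat_of_le_succ fun k => by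
    rw [← hb k _ (hK k).1.le]
    exact pull_mono _ _ (ad k).le
  have mY : Monotone fun k => pull Z.μ (e k) (X k).ms := monotone_nat_of_le_succ fun k => by
    rw [← hb k _ le_rfl]
    exact pull_mono _ _ (hpl k)
  have st : ∀ k, CP (pull Z.μ (e k) (X k).ms) (pull Z.μ (e k) (B k))
      (pull Z.μ (e (k + 1)) (B (k + 1))) Z.μ := fun k => by
    have := cp_pull fd.a (he (k + 1)).mp (hpl k) ((ad k).le.trans (hK _).1.le) (hK _).1.le
      (ad k).cp
    rwa [hb k _ le_rfl, hb k _ (hK k).1.le] at this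
  have st2 : ∀ k j, k ≤ j → CP (pull Z.μ (e k) (X k).ms) (pull Z.μ (e k) (B k))
      (pull Z.μ (e j) (B j)) Z.μ := fun k j hj => by
    induction j, hj using Nat.le_induction with
    | base => exact fun f hf => EventuallyEq.rfl
    | succ j hj ih => exact fun f hf => (st j f (hf.mono (mY hj))).trans (ih f hf)
  refine ⟨Z, hull Z (⨆ k, pull Z.μ (e k) (B k)), e, fun k => fd.h.adm Z (X k) _ (B k) _ hZ (hN k)
    (he k) (hK k) hC (le_iSup (fun k => pull Z.μ (e k) (B k)) k) ?_, hq, hg⟩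
  have hY : pull Z.μ (e k) (X k).ms ≤ Z.ms := fd.a.pull_le _ Z.μ (X k).μ _ (he k).mp le_rfl
  refine cp_iSup fd.d hY (fun k => (hf k).le) (pull_mono _ _ (hK k).1.le)
    (le_iSup (fun k => pull Z.μ (e k) (B k)) k) fun g hg hp S f hS => ?_
  have h1 : k ≤ max k (S.sup id) := le_max_left _ _
  have h2 : BM Z.μ (pull Z.μ (e (max k (S.sup id))) (B (max k (S.sup id)))) (pr f S) :=
    BM.pr fun i hi => (hS i hi).mono (mD ((Finset.le_sup (f := id) hi).trans (le_max_right _ _)))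
  exact Fib27.perp_of_ce (hf _).le (hg.mono hY)
    ((st2 k _ h1 g hg).trans (hp.ce (hf k).le (hg.mono hY))) _ h2

end SatAx

theorem satA : SatAR := by
  intro fd
  refine ⟨fun L' L B' B p Lp ι _ _ sl q => SatAx.ob fd L' L B' B p Lp sl q,
    fun L' L B' B p ι _ sl => SatAx.fail fd L' L B' B p sl, ?_, SatAx.lim fd⟩
  intro X B κ Y D p hX hB ad
  rcases isEmpty_or_nonempty κ with h | ⟨⟨i0⟩⟩
  · exact ⟨X, B, id, fun k => h.elim k, SatAx.adm_id fd X B hX hB, fun k => h.elim k⟩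
  · exact SatAx.amal0 fd X B κ Y D p i0 hX hB ad

end T4x

end

end PkSatA

section PkSat

/-! Saturated extensions exist (row Sat of note 154433_EC_h6). -/

set_option autoImplicit false
set_option linter.unusedVariables false
set_option warn.classDefReducibility false
set_option linter.unusedSectionVars false

open MeasureTheory ProbabilityTheory Filter Topology Function Finset ComplexConjugate
open scoped BigOperators
open Fib27 (BM sup pr)

noncomputable section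

namespace T4x

open T3x

variable [Grp]

namespace Sat

variable {ν : Wt} {U : Ultrafilter ℕ} {ι : Type} [Fintype ι] [DecidableEq ι]

theorem pull_mono {Ω Ω' : Type} {B C : MeasurableSpace Ω'} {m0 : MeasurableSpace Ω}
    (μ : Measure Ω) (p : Ω → Ω') (h : B ≤ C) : pull μ p B ≤ pull μ p C :=
  sup_le_sup_right (MeasurableSpace.comap_mono h) _

theorem P_le (F : Fd) {X : Sys} (L : Ln ν U X) (s : Slot) : L.P s ≤ L.W.ms :=
  F.a.pull_le X.ms L.W.μ X.μ (L.π s) (L.emb s).mp le_rfl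

theorem OB_le (F : Fd) {X : Sys} (L : Ln ν U X) (B : MeasurableSpace X.X) (hB : Fac X B)
    (sl : ι → Slot) (q : ι) : L.OB B sl q ≤ L.W.ms :=
  sup_le (Fib27.sup_le' fun k _ => P_le F L _) (F.h.kc _ _ L.nice (F.lb.fac L B hB)).1.le

theorem comap_le {Ω Ω' : Type} {m0 : MeasurableSpace Ω} {m0' : MeasurableSpace Ω'}
    {μ : Measure Ω} {μ' : Measure Ω'} {p : Ω → Ω'} (h : MeasurePreserving p μ μ') :
    m0'.comap p ≤ m0 := h.measurable.comap_le

theorem mae {Ω Ω' : Type} {m0 : MeasurableSpace Ω} {m0' : MeasurableSpace Ω'}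
    {μ : Measure Ω} {μ' : Measure Ω'} {p : Ω → Ω'} (h : MeasurePreserving p μ μ') {P : Ω' → Prop}
    (hP : ∀ᵐ x ∂μ', P x) : ∀ᵐ x ∂μ, P (p x) := h.quasiMeasurePreserving.ae hP

theorem mcomp {Ω Ω' Ω'' : Type} {m0 : MeasurableSpace Ω} {m0' : MeasurableSpace Ω'}
    {m0'' : MeasurableSpace Ω''} {μ : Measure Ω} {μ' : Measure Ω'} {μ'' : Measure Ω''}
    {p : Ω → Ω'} {q : Ω' → Ω''} (h : MeasurePreserving q μ' μ'') (h' : MeasurePreserving p μ μ') :
    MeasurePreserving (q ∘ p) μ μ'' := h.comp h'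

theorem mint {Ω Ω' : Type} {m0 : MeasurableSpace Ω} {m0' : MeasurableSpace Ω'}
    {μ : Measure Ω} {μ' : Measure Ω'} {p : Ω → Ω'} (h : MeasurePreserving p μ μ') {g : Ω' → ℂ}
    (hg : BM μ' m0' g) : ∫ x, ‖g (p x)‖ ^ 2 ∂μ = ∫ y, ‖g y‖ ^ 2 ∂μ' := by
  have m1 : AEStronglyMeasurable (fun y => ‖g y‖ ^ 2) (μ.map p) := by
    rw [h.map_eq]
    exact (continuous_pow 2).comp_aestronglyMeasurable hg.1.norm
  have m2 := integral_map h.measurable.aemeasurable m1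
  rw [h.map_eq] at m2
  exact m2.symm

theorem pull_P (F : Fd) {X' X : Sys} (L' : Ln ν U X') (L : Ln ν U X) (p : X'.X → X.X)
    (Lp : L'.W.X → L.W.X) (s : Slot) (he : Emb X' X p) (hL : IsLift L' L p Lp) :
    pull L'.W.μ Lp (L.P s) ≤ L'.P s := by
  have h1 : pull L'.W.μ Lp (L.P s) = pull L'.W.μ (L.π s ∘ Lp) X.ms :=
    F.a.pull_comp X.ms L'.W.μ L.W.μ Lp (L.π s) hL.emb.mp
  have h2 : pull L'.W.μ (L.π s ∘ Lp) X.ms = pull L'.W.μ (p ∘ L'.π s) X.ms :=
    F.a.keq_pull X.ms L'.W.μ _ _ (comap_le ((L.emb s).mp.comp hL.emb.mp))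
      (comap_le (he.mp.comp (L'.emb s).mp)) (F.la.slot L' L p Lp s he hL)
  have h3 : pull L'.W.μ (L'.π s) (pull X'.μ p X.ms) = pull L'.W.μ (p ∘ L'.π s) X.ms :=
    F.a.pull_comp X.ms L'.W.μ X'.μ (L'.π s) p (L'.emb s).mp
  rw [h1, h2, ← h3]
  exact pull_mono _ _ (F.a.pull_le X.ms X'.μ X.μ p he.mp le_rfl)

theorem ob (F : Fd) {X' X : Sys} (L' : Ln ν U X') (L : Ln ν U X) (B' : MeasurableSpace X'.X)
    (B : MeasurableSpace X.X) (p : X'.X → X.X) (Lp : L'.W.X → L.W.X) (sl : ι → Slot) (q : ι)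
    (he : Emb X' X p) (hB : Fac X B) (hB' : Fac X' B') (hle : pull X'.μ p B ≤ B')
    (hL : IsLift L' L p Lp) : pull L'.W.μ Lp (L.OB B sl q) ≤ L'.OB B' sl q := by
  have h2 : pull L'.W.μ Lp (L.B2 B) ≤ L'.B2 B' :=
    (F.h.fn L'.W L.W Lp (L.shp B) L'.nice L.nice hL.emb (F.lb.fac L B hB)).trans
      (F.h.mono L'.W _ _ (F.la.shp L' L p Lp B B' he hL hB hB' hle))
  unfold Ln.OB
  rw [F.a.pull_sup]
  refine sup_le (sup_le ?_ ?_) (h2.trans le_sup_right)
  · refine le_trans ?_ le_sup_left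
    unfold Fib27.sup
    simp only [MeasurableSpace.comap_iSup]
    refine iSup₂_le fun k hk => le_trans ?_ (le_iSup₂_of_le k hk le_rfl)
    exact le_trans le_sup_left (pull_P F L' L p Lp (sl k) he hL)
  · exact (le_trans le_sup_right h2).trans le_sup_right

/-- the energy of a function in one slot with respect to the other slots and the base -/
def en {X : Sys} (L : Ln ν U X) (B : MeasurableSpace X.X) (sl : ι → Slot) (q : ι)
    (g : X.X → ℂ) : ℝ :=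
  ∫ w, ‖(L.W.μ[fun v => g (L.π (sl q) v) | L.OB B sl q]) w‖ ^ 2 ∂L.W.μ

theorem en_congr {X : Sys} (L : Ln ν U X) (B : MeasurableSpace X.X) (sl : ι → Slot) (q : ι)
    {g g' : X.X → ℂ} (h : g =ᵐ[X.μ] g') : en L B sl q g = en L B sl q g' := by
  have h1 : (fun v => g (L.π (sl q) v)) =ᵐ[L.W.μ] fun v => g' (L.π (sl q) v) :=
    mae (L.emb (sl q)).mp h
  refine integral_congr_ae ?_
  filter_upwards [condExp_congr_ae (m := L.OB B sl q) h1] with w hw
  rw [hw]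

theorem en_le {X : Sys} (L : Ln ν U X) (B : MeasurableSpace X.X) (sl : ι → Slot) (q : ι)
    {g : X.X → ℂ} {C : ℝ} (h : ∀ᵐ x ∂X.μ, ‖g x‖ ≤ C) : en L B sl q g ≤ C ^ 2 := by
  have h1 : ∀ᵐ v ∂L.W.μ, ‖g (L.π (sl q) v)‖ ≤ C :=
    mae (L.emb (sl q)).mp h
  have h2 := ae_bdd_norm_condExp_of_ae_bdd_norm (m := L.OB B sl q) h1
  have h3 : en L B sl q g ≤ ∫ _w, C ^ 2 ∂L.W.μ := by
    refine integral_mono_of_nonneg (Eventually.of_forall fun w => by positivity)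
      (integrable_const _) ?_
    filter_upwards [h2] with w hw
    exact pow_le_pow_left₀ (norm_nonneg _) hw 2
  simpa using h3

theorem bm_comp (F : Fd) {X' X : Sys} {p : X'.X → X.X} (hp : MeasurePreserving p X'.μ X.μ)
    {g : X.X → ℂ} (hg : BM X.μ X.ms g) : BM X'.μ X'.ms fun x => g (p x) :=
  (F.a.bm_comp X.ms X'.μ X.μ p g hp hg).mono (F.a.pull_le X.ms X'.μ X.μ p hp le_rfl)

theorem key (F : Fd) {X' X : Sys} (L' : Ln ν U X') (L : Ln ν U X) (B' : MeasurableSpace X'.X)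
    (B : MeasurableSpace X.X) (p : X'.X → X.X) (Lp : L'.W.X → L.W.X) (sl : ι → Slot) (q : ι)
    (he : Emb X' X p) (hB : Fac X B) (hB' : Fac X' B') (hle : pull X'.μ p B ≤ B')
    (hL : IsLift L' L p Lp) (g : X.X → ℂ) (hg : BM X.μ X.ms g) :
    en L B sl q g ≤ en L' B' sl q (fun x => g (p x)) ∧
      (en L' B' sl q (fun x => g (p x)) ≤ en L B sl q g →
        L'.W.μ[fun w => g (L.π (sl q) (Lp w)) | L'.OB B' sl q] =ᵐ[L'.W.μ]
          L'.W.μ[fun w => g (L.π (sl q) (Lp w)) | pull L'.W.μ Lp (L.OB B sl q)]) := by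
  have b1 : BM L.W.μ L.W.ms fun v => g (L.π (sl q) v) := bm_comp F (L.emb (sl q)).mp hg
  have b2 : BM L'.W.μ L'.W.ms fun w => g (L.π (sl q) (Lp w)) := bm_comp F hL.emb.mp b1
  have e1 := F.a.ce_comp (L.OB B sl q) L'.W.μ L.W.μ Lp (fun v => g (L.π (sl q) v)) hL.emb.mp
    (OB_le F L B hB sl q) b1.integrable
  have e2 : (fun w => g (L.π (sl q) (Lp w))) =ᵐ[L'.W.μ] fun w => g (p (L'.π (sl q) w)) :=
    F.a.keq_fun X.ms L'.W.μ X.μ (L.π (sl q) ∘ Lp) (p ∘ L'.π (sl q)) g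
      (mcomp (L.emb (sl q)).mp hL.emb.mp) (mcomp he.mp (L'.emb (sl q)).mp)
      (F.la.slot L' L p Lp (sl q) he hL) hg.1
  have e3 : en L B sl q g = ∫ w, ‖(L'.W.μ[fun w => g (L.π (sl q) (Lp w)) |
      pull L'.W.μ Lp (L.OB B sl q)]) w‖ ^ 2 ∂L'.W.μ := by
    unfold en
    rw [← mint hL.emb.mp ((b1.ce (L.OB B sl q)).mono (OB_le F L B hB sl q))]
    refine integral_congr_ae ?_
    filter_upwards [e1] with w hw
    rw [hw]
  have e4 : en L' B' sl q (fun x => g (p x)) = ∫ w, ‖(L'.W.μ[fun w => g (L.π (sl q) (Lp w)) |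
      L'.OB B' sl q]) w‖ ^ 2 ∂L'.W.μ := by
    refine integral_congr_ae ?_
    filter_upwards [condExp_congr_ae (m := L'.OB B' sl q) e2] with w hw
    rw [hw]
  rw [e3, e4]
  exact F.d.eqn _ _ L'.W.μ (ob F L' L B' B p Lp sl q he hB hB' hle hL) (OB_le F L' B' hB' sl q) _
    (b2.memLp 2)

theorem en_mono (F : Fd) {X' X : Sys} (L' : Ln ν U X') (L : Ln ν U X) (B' : MeasurableSpace X'.X)
    (B : MeasurableSpace X.X) (p : X'.X → X.X) (sl : ι → Slot) (q : ι)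
    (he : Emb X' X p) (hB : Fac X B) (hB' : Fac X' B') (hle : pull X'.μ p B ≤ B')
    (g : X.X → ℂ) (hg : BM X.μ X.ms g) : en L B sl q g ≤ en L' B' sl q (fun x => g (p x)) := by
  obtain ⟨Lp, hL⟩ := F.la.ex L' L p he
  exact (key F L' L B' B p Lp sl q he hB hB' hle hL g hg).1

/-- the extension `Z` maximises every energy among the admissible extensions of `X` -/
def Mx (ν : Wt) (U : Ultrafilter ℕ) (sl : ι → Slot) (Z : Sys) (C : MeasurableSpace Z.X) (X : Sys)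
    (B : MeasurableSpace X.X) (r : Z.X → X.X) : Prop :=
  ∀ (LZ : Ln ν U Z) (Y : Sys) (D : MeasurableSpace Y.X) (p : Y.X → X.X) (LY : Ln ν U Y),
    Adm Y D X B p → ∀ (q : ι) (f : X.X → ℂ), BM X.μ X.ms f →
    en LY D sl q (fun y => f (p y)) ≤ en LZ C sl q fun z => f (r z)

theorem near (F : Fd) (A : SatA) (sl : ι → Slot) (X : Sys) (B : MeasurableSpace X.X)
    (hX : Nice X) (hB : KC X B) (q : ι) (f : X.X → ℂ) (hf : BM X.μ X.ms f) (ε : ℝ) (hε : 0 < ε) :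
    ∃ (Y : Sys) (D : MeasurableSpace Y.X) (p : Y.X → X.X) (LY : Ln ν U Y), Adm Y D X B p ∧
      ∀ (Y' : Sys) (D' : MeasurableSpace Y'.X) (p' : Y'.X → X.X) (LY' : Ln ν U Y'),
        Adm Y' D' X B p' →
        en LY' D' sl q (fun y => f (p' y)) ≤ en LY D sl q (fun y => f (p y)) + ε := by
  let S : Set ℝ := {e | ∃ (Y : Sys) (D : MeasurableSpace Y.X) (p : Y.X → X.X) (LY : Ln ν U Y),
    Adm Y D X B p ∧ e = en LY D sl q fun y => f (p y)}
  have hne : S.Nonempty := by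
    obtain ⟨Z, C, r, e, h, -⟩ := A.amal X B Empty (fun k => k.elim) (fun k => k.elim)
      (fun k => k.elim) hX hB (fun k => k.elim)
    obtain ⟨LZ⟩ := F.line ν U Z h.nice
    exact ⟨_, Z, C, r, LZ, h, rfl⟩
  obtain ⟨_, C, hC⟩ := hf
  have hbd : BddAbove S := by
    refine ⟨C ^ 2, ?_⟩
    rintro _ ⟨Y, D, p, LY, h, rfl⟩
    exact en_le LY D sl q (mae h.emb.mp hC)
  obtain ⟨_, ⟨Y, D, p, LY, h, rfl⟩, hlt⟩ :=
    exists_lt_of_lt_csSup hne (show sSup S - ε < sSup S by linarith)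
  refine ⟨Y, D, p, LY, h, fun Y' D' p' LY' h' => ?_⟩
  have := le_csSup hbd (show _ ∈ S from ⟨Y', D', p', LY', h', rfl⟩)
  linarith

theorem step (F : Fd) (A : SatA) (ν : Wt) (U : Ultrafilter ℕ) (sl : ι → Slot) (X : Sys)
    (B : MeasurableSpace X.X) (hX : Nice X) (hB : KC X B) :
    ∃ (Z : Sys) (C : MeasurableSpace Z.X) (r : Z.X → X.X), Adm Z C X B r ∧ Mx ν U sl Z C X B r := by
  have h := fun k : ι × {f : X.X → ℂ // BM X.μ X.ms f} × {ε : ℝ // 0 < ε} =>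
    near (ν := ν) (U := U) F A sl X B hX hB k.1 k.2.1.1 k.2.1.2 k.2.2.1 k.2.2.2
  choose Y D p LY h1 h2 using h
  obtain ⟨Z, C, r, e, hZ, he⟩ := A.amal X B _ Y D p hX hB h1
  refine ⟨Z, C, r, hZ, fun LZ Y' D' p' LY' h' q f hf => ?_⟩
  refine le_of_forall_pos_le_add fun ε hε => ?_
  let k : ι × {f : X.X → ℂ // BM X.μ X.ms f} × {ε : ℝ // 0 < ε} := (q, ⟨f, hf⟩, ⟨ε, hε⟩)
  have a1 := h2 k Y' D' p' LY' h'
  have a2 := en_mono F LZ (LY k) C (D k) (e k) sl q (he k).1 (h1 k).kc.1 hZ.kc.1 (he k).2.1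
    (fun y => f (p k y)) (bm_comp F (h1 k).emb.mp hf)
  have a3 : (fun z => f (p k (e k z))) =ᵐ[Z.μ] fun z => f (r z) :=
    F.a.keq_fun X.ms Z.μ X.μ (p k ∘ e k) r f (mcomp (h1 k).emb.mp (he k).1.mp) hZ.emb.mp
      (he k).2.2 hf.1
  have a4 := en_congr LZ C sl q a3
  simp only [k] at a1 a2 a4
  linarith

/-- an identity of conditional expectations passes to limits in the mean -/
theorem close (F : Fd) {Ω : Type} (A O : MeasurableSpace Ω) {m0 : MeasurableSpace Ω}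
    (μ : Measure Ω) [IsProbabilityMeasure μ] (hA : A ≤ O) (hO : O ≤ m0) (h : Ω → ℂ)
    (hh : BM μ m0 h) (ap : ∀ ε : ℝ, 0 < ε → ∃ h', BM μ m0 h' ∧ μ[h' | O] =ᵐ[μ] μ[h' | A] ∧
      ∫ x, ‖h x - h' x‖ ^ 2 ∂μ ≤ ε) : μ[h | O] =ᵐ[μ] μ[h | A] := by
  have m : AEStronglyMeasurable[A] (μ[h | O]) μ := by
    refine F.d.closed A μ (hA.trans hO) _ (((hh.ce O).mono hO).memLp 2) fun ε hε => ?_
    obtain ⟨h', b', e', l'⟩ := ap ε hε
    refine ⟨μ[h' | A], ((b'.ce A).mono (hA.trans hO)).memLp 2, (b'.ce A).1, le_trans ?_ l'⟩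
    have c1 := (F.d.eqn O m0 μ hO le_rfl _ ((hh.sub b').memLp 2)).1
    have c2 : ∫ x, ‖(μ[fun x => h x - h' x | m0]) x‖ ^ 2 ∂μ = ∫ x, ‖h x - h' x‖ ^ 2 ∂μ := by
      refine integral_congr_ae ?_
      filter_upwards [Fib27.BM.ce_self le_rfl (hh.sub b')] with x hx
      rw [hx]
    rw [← c2]
    refine le_trans (le_of_eq (integral_congr_ae ?_)) c1
    filter_upwards [Fib27.ce_sub hh b' O, e'] with x h1 h2
    rw [h1, h2]
  have t1 : μ[μ[h | O] | A] =ᵐ[μ] μ[h | A] := condExp_condExp_of_le hA hO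
  have t2 : μ[μ[h | O] | A] =ᵐ[μ] μ[h | O] :=
    condExp_of_aestronglyMeasurable' (hA.trans hO) m integrable_condExp
  exact t2.symm.trans t1

/-- functions of the finite levels are dense in the limit -/
theorem dense (F : Fd) (X : ℕ → Sys) (p : ∀ k, (X (k + 1)).X → (X k).X) (Z : Sys)
    (e : ∀ k, Z.X → (X k).X) (hp : ∀ k, Emb (X (k + 1)) (X k) (p k)) (he : ∀ k, Emb Z (X k) (e k))
    (hk : ∀ k, KEq Z.μ (X k).ms (p k ∘ e (k + 1)) (e k))
    (hg : Z.ms ≤ ⨆ k, pull Z.μ (e k) (X k).ms) (f : Z.X → ℂ) (hf : BM Z.μ Z.ms f) (ε : ℝ)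
    (hε : 0 < ε) : ∃ (k : ℕ) (g : (X k).X → ℂ), BM (X k).μ (X k).ms g ∧
      ∫ z, ‖f z - g (e k z)‖ ^ 2 ∂Z.μ ≤ ε := by
  let c : ℕ → MeasurableSpace Z.X := fun k => pull Z.μ (e k) (X k).ms
  have hle : ∀ k, c k ≤ Z.ms := fun k => F.a.pull_le (X k).ms Z.μ (X k).μ (e k) (he k).mp le_rfl
  have hm : Monotone c := by
    refine monotone_nat_of_le_succ fun k => ?_
    have h1 : pull Z.μ (p k ∘ e (k + 1)) (X k).ms = pull Z.μ (e k) (X k).ms :=
      F.a.keq_pull (X k).ms Z.μ _ _ (comap_le ((hp k).mp.comp (he (k + 1)).mp))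
        (comap_le (he k).mp) (hk k)
    have h2 := F.a.pull_comp (X k).ms Z.μ (X (k + 1)).μ (e (k + 1)) (p k) (he (k + 1)).mp
    show pull Z.μ (e k) (X k).ms ≤ pull Z.μ (e (k + 1)) (X (k + 1)).ms
    rw [← h1, ← h2]
    exact pull_mono _ _ (F.a.pull_le (X k).ms (X (k + 1)).μ (X k).μ (p k) (hp k).mp le_rfl)
  have hs : sSup (Set.range c) = Z.ms := le_antisymm (iSup_le hle) hg
  obtain ⟨_, ⟨k, rfl⟩, hC⟩ := F.d.chain (Set.range c) Z.μ (Set.range_nonempty c)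
    (directedOn_range.2 hm.directed_le) (by rintro _ ⟨k, rfl⟩; exact hle k) f (hf.memLp 2) ε hε
  have h3 := hC (c k) ⟨k, rfl⟩ le_rfl
  rw [hs] at h3
  obtain ⟨m, C, hb⟩ := hf.ce (c k)
  obtain ⟨g, g1, g2, g3⟩ := F.a.fact (X k).ms Z.μ (e k) (Z.μ[f | c k]) (max C 0)
    (comap_le (he k).mp) (le_max_right _ _) m (hb.mono fun x hx => hx.trans (le_max_left _ _))
  refine ⟨k, g, ⟨g1.aestronglyMeasurable, _, Eventually.of_forall g2⟩, le_trans (le_of_eq ?_) h3⟩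
  refine integral_congr_ae ?_
  filter_upwards [Fib27.BM.ce_self le_rfl hf, g3] with z h1 h2
  rw [h1, h2]

theorem fin (F : Fd) (sl : ι → Slot) (X : ℕ → Sys) (B : ∀ k, MeasurableSpace (X k).X)
    (p : ∀ k, (X (k + 1)).X → (X k).X) (hn : ∀ k, Nice (X k)) (hB : ∀ k, KC (X k) (B k))
    (hp : ∀ k, Adm (X (k + 1)) (B (k + 1)) (X k) (B k) (p k))
    (hm : ∀ k, Mx ν U sl (X (k + 1)) (B (k + 1)) (X k) (B k) (p k)) (Z : Sys)
    (C : MeasurableSpace Z.X) (e : ∀ k, Z.X → (X k).X) (he : ∀ k, Adm Z C (X k) (B k) (e k))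
    (hk : ∀ k, KEq Z.μ (X k).ms (p k ∘ e (k + 1)) (e k))
    (hg : Z.ms ≤ ⨆ k, pull Z.μ (e k) (X k).ms) (LZ : Ln ν U Z) : SAT LZ C sl := by
  intro Y D r LY Lr hr hL q f hf
  have hC : Fac Z C := (he 0).kc.1
  have mp := mcomp (LZ.emb (sl q)).mp hL.emb.mp
  have b1 : BM LZ.W.μ LZ.W.ms fun v => f (LZ.π (sl q) v) := bm_comp F (LZ.emb (sl q)).mp hf
  refine EventuallyEq.trans ?_ (F.a.ce_comp (LZ.OB C sl q) LY.W.μ LZ.W.μ Lr
    (fun v => f (LZ.π (sl q) v)) hL.emb.mp (OB_le F LZ C hC sl q) b1.integrable)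
  refine close F _ _ LY.W.μ (ob F LY LZ D C r Lr sl q hr.emb hC hr.kc.1 hr.le hL)
    (OB_le F LY D hr.kc.1 sl q) _ (bm_comp F mp hf) fun ε hε => ?_
  obtain ⟨k, g, hg1, hg2⟩ := dense F X p Z e (fun k => (hp k).emb) (fun k => (he k).emb) hk hg f hf
    ε hε
  have b2 : BM Z.μ Z.ms fun z => g (e k z) := bm_comp F (he k).emb.mp hg1
  refine ⟨fun w => g (e k (LZ.π (sl q) (Lr w))), bm_comp F mp b2, ?_, le_trans (le_of_eq ?_) hg2⟩
  · refine (key F LY LZ D C r Lr sl q hr.emb hC hr.kc.1 hr.le hL _ b2).2 ?_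
    obtain ⟨L1⟩ := F.line ν U (X (k + 1)) (hn (k + 1))
    have a1 := hm k L1 Y D (e k ∘ r) LY (F.h.trans Y Z (X k) D C (B k) r (e k) (hB k).1 hr (he k))
      q g hg1
    have a2 := en_mono F LZ L1 C (B (k + 1)) (e (k + 1)) sl q (he (k + 1)).emb (hB (k + 1)).1 hC
      (he (k + 1)).le (fun y => g (p k y)) (bm_comp F (hp k).emb.mp hg1)
    have a3 : (fun z => g (p k (e (k + 1) z))) =ᵐ[Z.μ] fun z => g (e k z) :=
      F.a.keq_fun (X k).ms Z.μ (X k).μ (p k ∘ e (k + 1)) (e k) g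
        (mcomp (hp k).emb.mp (he (k + 1)).emb.mp) (he k).emb.mp (hk k) hg1.1
    exact (a1.trans a2).trans (le_of_eq (en_congr LZ C sl q a3))
  · exact mint mp (hf.sub b2)

/-- a nice system with a closed base -/
structure Ob where
  X : Sys
  B : MeasurableSpace X.X
  nice : Nice X
  kc : KC X B

end Sat

theorem sat : SatR := by
  intro F A ν U X B ι _ _ sl hX hB
  have h := fun o : Sat.Ob => Sat.step F A ν U sl o.X o.B o.nice o.kc
  choose Z C r h1 h2 using h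
  let s : ℕ → Sat.Ob := fun k =>
    Nat.rec ⟨X, B, hX, hB⟩ (fun _ o => ⟨Z o, C o, (h1 o).nice, (h1 o).kc⟩) k
  obtain ⟨Y, D, e, he, hk, hg⟩ := A.lim (fun k => (s k).X) (fun k => (s k).B) (fun k => r (s k))
    hX hB fun k => h1 (s k)
  obtain ⟨LY⟩ := F.line ν U Y (he 0).nice
  exact ⟨Y, D, e 0, LY, he 0, Sat.fin F sl (fun k => (s k).X) (fun k => (s k).B) (fun k => r (s k))
    (fun k => (s k).nice) (fun k => (s k).kc) (fun k => h1 (s k)) (fun k => h2 (s k)) Y D e he hk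
    hg LY⟩

end T4x

end

end PkSat

section PkGI

/-! Independence in the line and in the grid. -/

set_option autoImplicit false
set_option linter.unusedSectionVars false
set_option linter.unusedVariables false

open MeasureTheory ProbabilityTheory Filter Topology Function Finset
open Fib27 (BM sup pr)

noncomputable section

namespace T4x

open T3x

variable [Grp]

namespace GI

theorem pull_mono {Ω Ω' : Type} {B C : MeasurableSpace Ω'} {m0 : MeasurableSpace Ω}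
    (μ : Measure Ω) (p : Ω → Ω') (h : B ≤ C) : pull μ p B ≤ pull μ p C :=
  sup_le_sup_right (MeasurableSpace.comap_mono h) _

/-- a bounded function of the point is a pulled back function -/
theorem fact (a : BasA) {Y X : Sys} {p : Y.X → X.X} (hp : MeasurePreserving p Y.μ X.μ)
    {f : Y.X → ℂ} (hf : BM Y.μ (pull Y.μ p X.ms) f) :
    ∃ f' : X.X → ℂ, BM X.μ X.ms f' ∧ f =ᵐ[Y.μ] fun y => f' (p y) := by
  obtain ⟨h1, C, hC⟩ := hf
  obtain ⟨f', m, b, e⟩ := a.fact X.ms Y.μ p f (max C 0) hp.measurable.comap_le (le_max_right _ _)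
    h1 (hC.mono fun _ h => h.trans (le_max_left _ _))
  exact ⟨f', ⟨m.stronglyMeasurable.aestronglyMeasurable, _, Eventually.of_forall b⟩, e⟩

theorem cp_of (a : BasA) {Y X : Sys} {p : Y.X → X.X} (hp : MeasurePreserving p Y.μ X.μ)
    {B : MeasurableSpace X.X} (hB : B ≤ X.ms) {D : MeasurableSpace Y.X}
    (h : ∀ f, BM X.μ X.ms f →
      Y.μ[fun y => f (p y) | D] =ᵐ[Y.μ] fun y => (X.μ[f | B]) (p y)) :
    CP (pull Y.μ p X.ms) (pull Y.μ p B) D Y.μ := by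
  intro f hf
  obtain ⟨f', b, e⟩ := fact a hp hf
  exact ((condExp_congr_ae e).trans (h f' b)).trans
    ((condExp_congr_ae e).trans (a.ce_comp B Y.μ X.μ p f' hp hB b.integrable)).symm

theorem of_cp (a : BasA) {Y X : Sys} {p : Y.X → X.X} (hp : MeasurePreserving p Y.μ X.μ)
    {B : MeasurableSpace X.X} (hB : B ≤ X.ms) {D : MeasurableSpace Y.X}
    (h : CP (pull Y.μ p X.ms) (pull Y.μ p B) D Y.μ) (f : X.X → ℂ) (hf : BM X.μ X.ms f) :
    Y.μ[fun y => f (p y) | D] =ᵐ[Y.μ] fun y => (X.μ[f | B]) (p y) :=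
  (h _ (a.bm_comp X.ms Y.μ X.μ p f hp hf)).trans (a.ce_comp B Y.μ X.μ p f hp hB hf.integrable)

variable {ν : Wt} {U : Ultrafilter ℕ}

theorem cind_of (a : BasA) {X : Sys} (L : Ln ν U X) {B : MeasurableSpace X.X} (hB : B ≤ X.ms)
    {D : MeasurableSpace L.W.X} {ι : Type} (sl : ι → Slot) (S : Finset ι)
    (h : IndOver L B D sl S) (hc : ∀ i ∈ S, CP (L.P (sl i)) (pull L.W.μ (L.π (sl i)) B) D L.W.μ) :
    CInd D (fun i => L.P (sl i)) S L.W.μ := by
  classical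
  intro f hf
  have : ∀ i, ∃ f' : X.X → ℂ, i ∈ S → BM X.μ X.ms f' ∧ f i =ᵐ[L.W.μ] fun y => f' (L.π (sl i) y) := by
    intro i
    by_cases hi : i ∈ S
    · obtain ⟨f', h1⟩ := fact a (L.emb (sl i)).mp (hf i hi)
      exact ⟨f', fun _ => h1⟩
    · exact ⟨0, fun h => absurd h hi⟩
  choose f' hf' using this
  have e1 : pr f S =ᵐ[L.W.μ] fun w => ∏ i ∈ S, f' i (L.π (sl i) w) :=
    Fib27.pr_congr_ae (ρ' := fun i w => f' i (L.π (sl i) w)) fun k hk => (hf' k hk).2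
  have e2 : ∀ i ∈ S, L.W.μ[f i | D] =ᵐ[L.W.μ] fun w => (X.μ[f' i | B]) (L.π (sl i) w) :=
    fun i hi => (condExp_congr_ae (hf' i hi).2).trans
      (of_cp a (L.emb (sl i)).mp hB (hc i hi) _ (hf' i hi).1)
  filter_upwards [(condExp_congr_ae e1).trans (h f' fun i hi => (hf' i hi).1),
    (Finset.eventually_all S).2 e2] with w h1 h2
  rw [h1]
  exact Finset.prod_congr rfl fun i hi => (h2 i hi).symm

theorem ind_of (a : BasA) {X : Sys} (L : Ln ν U X) {B : MeasurableSpace X.X} (hB : B ≤ X.ms)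
    {D : MeasurableSpace L.W.X} {ι : Type} (sl : ι → Slot) (S : Finset ι)
    (h : CInd D (fun i => L.P (sl i)) S L.W.μ)
    (hc : ∀ i ∈ S, CP (L.P (sl i)) (pull L.W.μ (L.π (sl i)) B) D L.W.μ) :
    IndOver L B D sl S := by
  intro f hf
  have e1 := h (fun i w => f i (L.π (sl i) w)) fun i hi =>
    a.bm_comp X.ms L.W.μ X.μ _ _ (L.emb (sl i)).mp (hf i hi)
  have e2 : ∀ i ∈ S, L.W.μ[fun w => f i (L.π (sl i) w) | D] =ᵐ[L.W.μ]
      fun w => (X.μ[f i | B]) (L.π (sl i) w) :=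
    fun i hi => of_cp a (L.emb (sl i)).mp hB (hc i hi) _ (hf i hi)
  filter_upwards [e1, (Finset.eventually_all S).2 e2] with w h1 h2
  exact h1.trans (Finset.prod_congr rfl h2)

/-- a proper part of the line is independent over the hull of the internal base -/
theorem line (fd : Fd) {n : ℕ} (hi : IND ν U n) (hn : 1 ≤ n) {X : Sys} (L : Ln ν U X)
    {B : MeasurableSpace X.X} (hX : Nice X) (hB : KC X B) {ι : Type} (sl : ι → Slot)
    (hs : ∀ S, Cov sl S) (S : Finset ι) (hS : S.card ≤ n) :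
    CInd (L.B2 B) (fun i => L.P (sl i)) S L.W.μ ∧
      ∀ i ∈ S, CP (L.P (sl i)) (pull L.W.μ (L.π (sl i)) B) (L.B2 B) L.W.μ := by
  have hc : ∀ i ∈ S, CP (L.P (sl i)) (pull L.W.μ (L.π (sl i)) B) (L.shp B) L.W.μ := by
    intro i _
    refine cp_of fd.a (L.emb (sl i)).mp hB.1.le fun f hf => ?_
    have := hi X B L ι sl {i} hX hB (hs _) (by simpa using hn)
      (fun _ => f) fun _ _ => hf
    simpa using this
  have hI := cind_of fd.a L hB.1.le sl S (hi X B L ι sl S hX hB (hs _) hS) hc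
  obtain ⟨h1, -, h3⟩ := fd.prod L.W ι (fun i => L.P (sl i)) (fun i => pull L.W.μ (L.π (sl i)) B) S
    (L.shp B) L.nice (fd.lb.fac L B hB.1)
    (fun i => fd.t.fpull _ _ _ _ (L.emb _) (fd.t.top X))
    (fun i => fd.t.fpull _ _ _ _ (L.emb _) hB.1)
    (fun i => pull_mono _ _ hB.1.le) (fun i _ => fd.lb.slot L B _ hB.1)
    (fun i => fd.h.rwm _ _ _ _ L.nice hX (L.emb _) hB) hc hI
  exact ⟨h1, h3⟩

theorem cov (c : Ctx) (S : Finset c.ι) : Cov c.sl S :=
  fun i _ j _ => c.nrm.cov i (Finset.mem_univ i) j (Finset.mem_univ j)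

theorem card_le (c : Ctx) {S : Finset c.ι} (h : S ≠ univ) : S.card ≤ Fintype.card c.ι - 1 := by
  have := Finset.card_lt_card (Finset.ssubset_univ_iff.2 h)
  rw [Finset.card_univ] at this
  omega

theorem one_ne (c : Ctx) (j : c.ι) : ({j} : Finset c.ι) ≠ univ := by
  intro h
  have := congrArg Finset.card h
  rw [Finset.card_singleton, Finset.card_univ] at this
  have := c.three
  omega

theorem kc2 (fd : Fd) (c : Ctx) : KC c.W c.B2 :=
  fd.h.kc _ _ c.L.nice (fd.lb.fac c.L c.B c.kc.1)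

theorem kcβ (fd : Fd) (c : Ctx) : KC c.W2 c.β :=
  fd.h.kc _ _ c.L2.nice (fd.lb.fac c.L2 c.B2 (kc2 fd c).1)

theorem slot2 (fd : Fd) (c : Ctx) (j : c.ι) : pull c.W.μ (c.π j) c.B ≤ c.B2 :=
  (fd.lb.slot c.L c.B _ c.kc.1).trans (fd.h.le _ _)

theorem colS (fd : Fd) (c : Ctx) (j : c.ι) :
    pull c.W2.μ (c.Bc j) (c.L.shp c.B) ≤ c.L2.shp c.B2 :=
  fd.la.shp c.L2 c.L _ _ c.B c.B2 (c.L.emb _) (c.lift j) c.kc.1 (kc2 fd c).1 (slot2 fd c j)

theorem colB (fd : Fd) (c : Ctx) (j : c.ι) : pull c.W2.μ (c.Bc j) c.B2 ≤ c.β :=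
  (fd.h.fn c.W2 c.W (c.Bc j) _ c.L2.nice c.L.nice (c.lift j).emb
    (fd.lb.fac c.L c.B c.kc.1)).trans (fd.h.mono _ _ _ (colS fd c j))

theorem cols (fd : Fd) (c : Ctx) (S : Finset c.ι) (hS : S ≠ univ) :
    CInd c.β (fun j => pull c.W2.μ (c.Bc j) c.W.ms) S c.W2.μ ∧
      ∀ j ∈ S, CP (pull c.W2.μ (c.Bc j) c.W.ms) (pull c.W2.μ (c.Bc j) c.B2) c.β c.W2.μ := by
  have h1 : 1 ≤ Fintype.card c.ι - 1 := by have := c.three; omega
  obtain ⟨hI, hc⟩ := line fd c.ind h1 c.L c.nice c.kc c.sl (cov c) S (card_le c hS)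
  have k2 := kc2 fd c
  have fS : Fac c.W2 (c.L2.shp c.B2) := fd.lb.fac c.L2 c.B2 k2.1
  have fY : ∀ j, Fac c.W2 (pull c.W2.μ (c.Bc j) c.W.ms) :=
    fun j => fd.t.fpull _ _ _ _ (c.lift j).emb (fd.t.top _)
  have fD : ∀ j, Fac c.W2 (pull c.W2.μ (c.Bc j) c.B2) :=
    fun j => fd.t.fpull _ _ _ _ (c.lift j).emb k2.1
  have DY : ∀ j, pull c.W2.μ (c.Bc j) c.B2 ≤ pull c.W2.μ (c.Bc j) c.W.ms :=
    fun j => pull_mono _ _ k2.1.le
  have I2 : CInd (c.L2.shp c.B2) (fun j => pull c.W2.μ (c.Bc j) c.W.ms) S c.W2.μ :=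
    fd.ld.cind c.L2 c.L c.π c.Bc S c.B2 (fun i => c.L.emb _) c.lift k2.1 hI
  obtain ⟨I3, c3⟩ := fd.c.grow (c.L2.shp c.B2) (fun j => pull c.W2.μ (c.Bc j) c.W.ms)
    (fun j => pull c.W2.μ (c.Bc j) c.B2) S c.W2.μ fS.le (fun j => (fY j).le) DY I2
  have c4 : ∀ j ∈ S, CP (pull c.W2.μ (c.Bc j) c.W.ms) (pull c.W2.μ (c.Bc j) c.B2)
      (sup (fun j => pull c.W2.μ (c.Bc j) c.B2) S ⊔ c.L2.shp c.B2) c.W2.μ := by
    intro j hj f hf
    have b := fd.ld.base c.L2 c.L (c.π j) (c.Bc j) c.B c.B2 (c.L.emb _) (c.lift j) c.kc.1 k2.1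
      (slot2 fd c j) (hc j hj)
    have le : pull c.W2.μ (c.Bc j) (c.L.shp c.B) ≤ pull c.W2.μ (c.Bc j) c.B2 :=
      pull_mono _ _ (fd.h.le _ _)
    have d := fd.c.drop _ _ _ (pull c.W2.μ (c.Bc j) c.B2) c.W2.μ (fY j).le fS.le (colS fd c j)
      (le.trans (DY j)) (DY j) b
    rw [sup_eq_left.2 le] at d
    exact (c3 j hj f hf).trans (d f hf)
  have e : hull c.W2 (sup (fun j => pull c.W2.μ (c.Bc j) c.B2) S ⊔ c.L2.shp c.B2) = c.β :=
    le_antisymm (fd.h.min _ _ _ (sup_le (Fib27.sup_le' fun j _ => colB fd c j) (fd.h.le _ _))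
      (kcβ fd c)) (fd.h.mono _ _ _ le_sup_right)
  obtain ⟨r1, -, r3⟩ := fd.prod c.W2 c.ι (fun j => pull c.W2.μ (c.Bc j) c.W.ms)
    (fun j => pull c.W2.μ (c.Bc j) c.B2) S _ c.L2.nice (fd.t.fsp _ _ _ _ S fS fD) fY fD DY
    (fun j hj => le_trans (Fib27.le_sup' (fun j => pull c.W2.μ (c.Bc j) c.B2) hj) le_sup_left)
    (fun j => fd.h.rwm _ _ _ _ c.L2.nice c.L.nice (c.lift j).emb k2) c4 I3
  rw [e] at r1 r3
  exact ⟨r1, r3⟩

end GI

open GI in
theorem gi : GIR := by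
  intro fd c
  have h1 : 1 ≤ Fintype.card c.ι - 1 := by have := c.three; omega
  have l1 := fun S (hS : S ≠ univ) =>
    line fd c.ind h1 c.L c.nice c.kc c.sl (cov c) S (card_le c hS)
  have l2 := fun S (hS : S ≠ univ) =>
    line fd c.ind h1 c.L2 c.L.nice (kc2 fd c) c.sl (cov c) S (card_le c hS)
  refine
    { line := fun S hS => ind_of fd.a c.L c.kc.1.le c.sl S (l1 S hS).1 (l1 S hS).2
      cline := fun S hS => (l1 S hS).1
      col := fun q j A hA =>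
        (fd.la.slot c.L2 c.L _ _ (c.sl q) (c.L.emb _) (c.lift j) A hA).symm
      rows := fun S hS => (l2 S hS).1
      cols := fun S hS => (cols fd c S hS).1
      rowB := fun q => (fd.lb.slot c.L2 c.B2 _ (kc2 fd c).1).trans (fd.h.le _ _)
      colB := colB fd c
      rowE := fun q g hg => of_cp fd.a (c.L2.emb _).mp (kc2 fd c).1.le
        ((l2 _ (one_ne c q)).2 q (Finset.mem_singleton_self q)) g hg
      colE := fun j g hg => of_cp fd.a (c.lift j).emb.mp (kc2 fd c).1.le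
        ((cols fd c _ (one_ne c j)).2 j (Finset.mem_singleton_self j)) g hg }

end T4x

end

end PkGI

section PkF3

/-! Row F3: saturation moves the column operator along a row. -/

set_option autoImplicit false
set_option linter.unusedVariables false
set_option warn.classDefReducibility false
set_option linter.unusedSectionVars false

open MeasureTheory ProbabilityTheory Filter Topology Function Finset ComplexConjugate
open scoped BigOperators
open Fib27 (BM sup pr Oc Orow F23 LInd Mem)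

noncomputable section

namespace T4x

open T3x

variable [Grp]

namespace F3

variable (c : Ctx)

/-- the base of the line together with the points other than `j`, `j'` -/
def CC (j j' : c.ι) : MeasurableSpace c.W.X := sup c.P ((univ.erase j).erase j') ⊔ c.B2

/-- the rows other than `q` -/
def RR (q : c.ι) : MeasurableSpace c.W2.X :=
  sup (fun k => pull c.W2.μ (c.A k) c.W.ms) (univ.erase q)

/-- the other rows, the base and the points of row `q` other than `j`, `j'` -/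
def DD (q j j' : c.ι) : MeasurableSpace c.W2.X :=
  (RR c q ⊔ c.β) ⊔ sup (c.G q) ((univ.erase j).erase j')

variable {c}

lemma embπ (k : c.ι) : Emb c.W c.X (c.π k) := c.L.emb _

lemma embA (q : c.ι) : Emb c.W2 c.W (c.A q) := c.L2.emb _

lemma embB (j : c.ι) : Emb c.W2 c.W (c.Bc j) := (c.lift j).emb

lemma facP (F : Fd) (k : c.ι) : Fac c.W (c.P k) := F.t.fpull _ _ _ _ (embπ k) (F.t.top _)

lemma facB2 (F : Fd) : Fac c.W c.B2 := (F.h.kc _ _ c.L.nice (F.lb.fac c.L c.B c.kc.1)).1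

lemma facβ (F : Fd) : Fac c.W2 c.β := (F.h.kc _ _ c.L2.nice (F.lb.fac c.L2 c.B2 (facB2 F))).1

lemma facC (F : Fd) (j j' : c.ι) : Fac c.W (CC c j j') :=
  F.t.fsp _ _ _ _ _ (facB2 F) (facP F)

lemma slot_le (F : Fd) (j : c.ι) : pull c.W.μ (c.π j) c.B ≤ c.B2 :=
  (F.lb.slot c.L c.B _ c.kc.1).trans (F.h.le _ _)

lemma pull_mono {Ω Ω' : Type} {B C : MeasurableSpace Ω'} {m0 : MeasurableSpace Ω} (μ : Measure Ω)
    (p : Ω → Ω') (h : B ≤ C) : pull μ p B ≤ pull μ p C :=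
  sup_le_sup_right (MeasurableSpace.comap_mono h) _

lemma G_eq (F : Fd) (q j : c.ι) : c.G q j = pull c.W2.μ (c.A q) (c.P j) :=
  (F.a.pull_comp _ _ _ _ _ (embA q).mp).symm

lemma G_eq' (F : Fd) (h : c.GI) (q j : c.ι) : c.G q j = pull c.W2.μ (c.Bc j) (c.P q) := by
  have e : pull c.W2.μ (c.Bc j) (c.P q) = pull c.W2.μ (c.π q ∘ c.Bc j) c.X.ms :=
    F.a.pull_comp _ _ _ _ _ (embB j).mp
  rw [e]
  exact F.a.keq_pull _ _ _ _ ((embπ j).mp.comp (embA q).mp).measurable.comap_le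
    ((embπ q).mp.comp (embB j).mp).measurable.comap_le (h.col q j)

lemma G_row (F : Fd) (q j : c.ι) : c.G q j ≤ pull c.W2.μ (c.A q) c.W.ms := by
  rw [G_eq F]
  exact pull_mono _ _ (facP F j).le

lemma row_le (F : Fd) (q : c.ι) : pull c.W2.μ (c.A q) c.W.ms ≤ c.W2.ms :=
  F.a.pull_le _ _ _ _ (embA q).mp le_rfl

lemma G_le (F : Fd) (q j : c.ι) : c.G q j ≤ c.W2.ms := (G_row F q j).trans (row_le F q)

lemma Oc_le (F : Fd) (q j : c.ι) : Oc c.G q j ≤ RR c q :=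
  Fib27.sup_mono'' subset_rfl fun k _ => G_row F k j

lemma RR_le (F : Fd) (q : c.ι) : RR c q ≤ c.W2.ms := Fib27.sup_le' fun k _ => row_le F k

lemma DD_le (F : Fd) (q j j' : c.ι) : DD c q j j' ≤ c.W2.ms :=
  sup_le (sup_le (RR_le F q) (facβ F).le) (Fib27.sup_le' fun k _ => G_le F q k)

lemma OcD (F : Fd) (q j i i' : c.ι) : Oc c.G q j ⊔ c.β ≤ DD c q i i' :=
  (sup_le_sup_right (Oc_le F q j) _).trans le_sup_left

lemma DD_comm (q j j' : c.ι) : DD c q j j' = DD c q j' j := by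
  rw [DD, DD, Finset.erase_right_comm]

lemma bm_of {Ω : Type} {B : MeasurableSpace Ω} {m0 : MeasurableSpace Ω} {μ : Measure Ω}
    {f : Ω → ℂ} {C : ℝ} (hm : Measurable[B] f) (hb : ∀ x, ‖f x‖ ≤ C) : BM μ B f :=
  ⟨hm.stronglyMeasurable.aestronglyMeasurable, C, Eventually.of_forall hb⟩

/-- a bounded function of a point is the pull-back of a bounded function -/
lemma fact (F : Fd) {Y X : Sys} {p : Y.X → X.X} (hp : MeasurePreserving p Y.μ X.μ) {f : Y.X → ℂ}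
    (hf : BM Y.μ (pull Y.μ p X.ms) f) : ∃ f0, BM X.μ X.ms f0 ∧ f =ᵐ[Y.μ] fun y => f0 (p y) := by
  obtain ⟨h1, C, hC⟩ := hf
  obtain ⟨f0, m, b, e⟩ := F.a.fact X.ms Y.μ p f (max C 0) hp.measurable.comap_le (le_max_right _ _)
    h1 (hC.mono fun x hx => hx.trans (le_max_left _ _))
  exact ⟨f0, bm_of m b, e⟩

lemma cp (F : Fd) (h : c.GI) {j j' : c.ι} (hj : j ≠ j') :
    CP (pull c.W.μ (c.π j) c.X.ms) (pull c.W.μ (c.π j) c.B) (CC c j j') c.W.μ := by
  intro f hf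
  obtain ⟨f0, b0, e0⟩ := fact F (embπ j).mp hf
  have hfW : BM c.W.μ c.W.ms f := hf.mono (facP F j).le
  have e1 : c.W.μ[f | pull c.W.μ (c.π j) c.B] =ᵐ[c.W.μ] fun w => (c.X.μ[f0 | c.B]) (c.π j w) :=
    (condExp_congr_ae e0).trans
      (F.a.ce_comp _ _ _ _ _ (embπ j).mp c.kc.1.le b0.integrable)
  have hne : ∀ i : c.ι, univ.erase i ≠ univ := fun i e => by
    have := e.symm ▸ mem_univ i
    simp at this
  have hsub : ({j} : Finset c.ι) ⊆ univ.erase j' := by simpa using hj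
  have e2 : c.W.μ[f | c.B2] =ᵐ[c.W.μ] fun w => (c.X.μ[f0 | c.B]) (c.π j w) := by
    have h1 := h.line {j} (fun e => hne j' (univ_subset_iff.1 (e ▸ hsub))) (fun _ => f0)
      fun _ _ => b0
    simp only [prod_singleton] at h1
    exact (condExp_congr_ae e0).trans h1
  have hb : BM c.W.μ c.B2 (c.W.μ[f | pull c.W.μ (c.π j) c.B]) := (hf.ce _).mono (slot_le F j)
  refine Fib27.ce_eq_of_tests (facC F j j').le hfW (hb.mono le_sup_right) fun g hg => ?_
  have hgW : BM c.W.μ c.W.ms g := hg.mono (facC F j j').le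
  have e3 := F.c.grp c.B2 c.P (univ.erase j') {j} ((univ.erase j).erase j') c.W.μ (facB2 F).le
    (fun i => (facP F i).le) (h.cline _ (hne j')) hsub
    (fun i hi => by simp only [mem_erase] at hi ⊢; exact ⟨hi.1, mem_univ _⟩)
    (by simp) f g (hf.mono (by
      rw [Fib27.sup_singleton']
      exact le_sup_left)) hg
  rw [← integral_condExp (facB2 F).le, integral_congr_ae e3,
    ← Fib27.int_mul_ce (facB2 F).le hb hgW]
  refine integral_congr_ae ?_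
  filter_upwards [e1, e2] with w h1 h2
  rw [h1, h2]

lemma adm (F : Fd) (h : c.GI) {j j' : c.ι} (hj : j ≠ j') :
    Adm c.W (hull c.W (CC c j j')) c.X c.B (c.π j) :=
  F.h.adm _ _ _ _ _ c.L.nice c.nice (embπ j) c.kc (facC F j j')
    ((slot_le F j).trans le_sup_right) (cp F h hj)

lemma DD_le_OB (F : Fd) (q j j' : c.ι) :
    DD c q j j' ≤ c.L2.OB (hull c.W (CC c j j')) c.sl q := by
  have hk := (F.h.kc _ _ c.L.nice (facC F j j')).1
  refine sup_le (sup_le le_sup_left ?_) (Fib27.sup_le' fun i hi => ?_)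
  · exact (F.h.mono _ _ _ (F.lb.mono c.L2 _ _
      (le_sup_right.trans (F.h.le _ (CC c j j'))))).trans le_sup_right
  · rw [G_eq F]
    refine le_trans ?_ le_sup_right
    refine (pull_mono _ _ ?_).trans ((F.lb.slot c.L2 _ _ hk).trans (F.h.le _ _))
    exact ((Fib27.le_sup' c.P hi).trans le_sup_left).trans (F.h.le _ (CC c j j'))

lemma pull_sup_le (F : Fd) (j : c.ι) (S : Finset c.ι) :
    pull c.W2.μ (c.Bc j) (sup c.P S ⊔ c.B2) ≤
      sup (fun k => pull c.W2.μ (c.Bc j) (c.P k)) S ⊔ pull c.W2.μ (c.Bc j) c.B2 := by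
  induction S using Finset.induction_on with
  | empty => simp only [Fib27.sup_empty', bot_sup_eq, le_refl]
  | insert a S ha ih =>
    rw [Fib27.sup_insert', Fib27.sup_insert', sup_assoc, F.a.pull_sup, sup_assoc]
    exact sup_le_sup_left ih _

lemma pull_OB (F : Fd) (h : c.GI) (q j : c.ι) :
    pull c.W2.μ (c.Bc j) (c.L.OB c.B c.sl q) ≤ Oc c.G q j ⊔ c.β := by
  refine (pull_sup_le F j (univ.erase q)).trans (sup_le_sup ?_ (h.colB j))
  exact Fib27.sup_mono'' subset_rfl fun k _ => (G_eq' F h k j).ge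

lemma OB_le (F : Fd) {Y : Sys} (L : Ln c.ν c.U Y) (B : MeasurableSpace Y.X) (hB : Fac Y B)
    (q : c.ι) : L.OB B c.sl q ≤ L.W.ms :=
  sup_le (Fib27.sup_le' fun k _ => (F.t.fpull _ _ _ _ (L.emb _) (F.t.top _)).le)
    (F.h.kc _ _ L.nice (F.lb.fac L B hB)).1.le

lemma sg0 (F : Fd) (h : c.GI) (hs : c.Sat) (q : c.ι) {j j' : c.ι} (hj : j ≠ j') :
    CP (c.G q j) (Oc c.G q j ⊔ c.β) (DD c q j j') c.W2.μ := by
  intro a ha
  obtain ⟨f0, b0, e0⟩ := fact F ((embπ j).mp.comp (embA q).mp) ha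
  have e1 : a =ᵐ[c.W2.μ] fun x => f0 (c.π q (c.Bc j x)) :=
    e0.trans (F.a.keq_fun _ _ _ _ _ f0 ((embπ j).mp.comp (embA q).mp)
      ((embπ q).mp.comp (embB j).mp) (h.col q j) b0.1)
  have hk := (F.h.kc _ _ c.L.nice (facC F j j')).1
  have hO := OB_le F c.L2 _ hk q
  have e2 := (condExp_congr_ae e1).trans
    (hs c.W _ (c.π j) c.L2 (c.Bc j) (adm F h hj) (c.lift j) q f0 b0)
  have b1 : BM c.W.μ c.W.ms fun v => f0 (c.π q v) :=
    (F.a.bm_comp _ _ _ _ _ (embπ q).mp b0).mono (facP F q).le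
  have b2 : BM c.W2.μ (Oc c.G q j ⊔ c.β)
      (c.W2.μ[a | c.L2.OB (hull c.W (CC c j j')) c.sl q]) :=
    ((F.a.bm_comp _ _ _ _ _ (embB j).mp (b1.ce _)).mono (pull_OB F h q j)).congr e2.symm
  have key : ∀ D : MeasurableSpace c.W2.X, Oc c.G q j ⊔ c.β ≤ D →
      D ≤ c.L2.OB (hull c.W (CC c j j')) c.sl q →
      c.W2.μ[a | D] =ᵐ[c.W2.μ] c.W2.μ[a | c.L2.OB (hull c.W (CC c j j')) c.sl q] :=
    fun D h1 h2 => (condExp_condExp_of_le h2 hO).symm.trans
      ((b2.mono h1).ce_self (h2.trans hO))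
  exact (key _ (OcD F q j j j') (DD_le_OB F q j j')).trans
    (key _ le_rfl ((OcD F q j j j').trans (DD_le_OB F q j j'))).symm

/-- the column operator sees everything that the other rows, the base and the other points of the
row can see -/
theorem sg (F : Fd) (h : c.GI) (hs : c.Sat) (q : c.ι) {j j' : c.ι} (hj : j ≠ j') :
    CP (c.G q j ⊔ (Oc c.G q j ⊔ c.β)) (Oc c.G q j ⊔ c.β) (DD c q j j') c.W2.μ :=
  F.c.cp_sup _ _ _ _ (G_le F q j) (DD_le F q j j') (OcD F q j j j') (sg0 F h hs q hj)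

lemma half (F : Fd) (h : c.GI) (hs : c.Sat) (q : c.ι) (a : c.ι → c.W2.X → ℂ) (ψ : c.W2.X → ℂ)
    (ha : ∀ k, BM c.W2.μ (c.G q k) (a k)) (hψ : BM c.W2.μ c.β ψ) {j j' : c.ι} (hj : j ≠ j') :
    ∫ x, ψ x * ((c.W2.μ[a j | Oc c.G q j ⊔ c.β]) x * pr a (univ.erase j) x) ∂c.W2.μ =
      ∫ x, ψ x * ((c.W2.μ[a j | Oc c.G q j ⊔ c.β]) x * (c.W2.μ[a j' | Oc c.G q j' ⊔ c.β]) x *
        pr a ((univ.erase j).erase j') x) ∂c.W2.μ := by
  have b1 : BM c.W2.μ (DD c q j' j) fun x => ψ x * ((c.W2.μ[a j | Oc c.G q j ⊔ c.β]) x *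
      pr a ((univ.erase j).erase j') x) := by
    refine (hψ.mono (le_sup_right.trans (OcD F q j j' j))).mul
      ((((ha j).ce _).mono (OcD F q j j' j)).mul ?_)
    rw [DD_comm]
    exact (BM.pr_sup fun k _ => ha k).mono le_sup_right
  have e1 := Fib27.int_ce_mul (DD_le F q j' j) ((ha j').mono (G_le F q j')) b1
  have e2 := sg0 F h hs q hj.symm (a j') (ha j')
  have hm : j' ∈ univ.erase j := by simpa using hj.symm
  calc _ = ∫ x, a j' x * (ψ x * ((c.W2.μ[a j | Oc c.G q j ⊔ c.β]) x *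
        pr a ((univ.erase j).erase j') x)) ∂c.W2.μ := by
        refine integral_congr_ae (Eventually.of_forall fun x => ?_)
        simp only [Fib27.pr_erase a hm]
        ring
    _ = _ := by
        rw [← e1]
        refine integral_congr_ae ?_
        filter_upwards [e2] with x hx
        rw [hx]
        ring

end F3

open F3 in
theorem f3 : F3R := by
  intro F c h hs q a ψ ha hψ j j'
  rcases eq_or_ne j j' with rfl | hj
  · rfl
  rw [half F h hs q a ψ ha hψ hj, half F h hs q a ψ ha hψ hj.symm, Finset.erase_right_comm]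
  refine integral_congr_ae (Eventually.of_forall fun x => ?_)
  beta_reduce
  ring

end T4x

end

end PkF3
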