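import Pool.Agent.MP_154433_an.t4.Spec

/-! Rows for commuting maps, part A6. -/

section PkR2P

/-! Row R2P: two columns and one row. -/

set_option autoImplicit false
set_option linter.unusedSectionVars false
set_option linter.unusedVariables false
set_option warn.classDefReducibility false

open MeasureTheory ProbabilityTheory Filter Topology Function Finset ComplexConjugate
open scoped BigOperators
open Fib27 (BM sup pr Oc Orow F23 LInd Mem)

noncomputable section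

namespace T4x

open T3x

variable [Grp]

namespace R2p

theorem ae_comp {Z X : Sys} {p : Z.X → X.X} (hp : MeasurePreserving p Z.μ X.μ) {f g : X.X → ℂ}
    (h : f =ᵐ[X.μ] g) : (fun z => f (p z)) =ᵐ[Z.μ] fun z => g (p z) :=
  hp.quasiMeasurePreserving.ae_eq_comp h

theorem fact (ha : BasA) {Z X : Sys} {p : Z.X → X.X} (hp : MeasurePreserving p Z.μ X.μ)
    {a : Z.X → ℂ} (h : BM Z.μ (pull Z.μ p X.ms) a) :
    ∃ f : X.X → ℂ, BM X.μ X.ms f ∧ a =ᵐ[Z.μ] fun z => f (p z) := by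
  obtain ⟨h1, D, hD⟩ := h
  obtain ⟨f, h2, h3, h4⟩ := ha.fact X.ms Z.μ p a (max D 0) hp.measurable.comap_le
    (le_max_right _ _) h1 (hD.mono fun x hx => hx.trans (le_max_left _ _))
  exact ⟨f, ⟨h2.stronglyMeasurable.aestronglyMeasurable, _, Eventually.of_forall h3⟩, h4⟩

theorem rep (ha : BasA) {X : Sys} {v : X.X → ℂ} (h : BM X.μ X.ms v) :
    ∃ v' ∈ Bdd X.X, v =ᵐ[X.μ] v' := by
  obtain ⟨h1, D, hD⟩ := h
  obtain ⟨f, h2, h3, h4⟩ := ha.rep X.ms X.μ v (max D 0) (le_max_right _ _) h1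
    (hD.mono fun x hx => hx.trans (le_max_left _ _))
  exact ⟨f, ⟨h2, _, h3⟩, h4⟩

theorem fam_shift (ht : BasT) {X : Sys} {v : X.X → ℂ} (hv : v ∈ Bdd X.X) (s : Slot) :
    (fun z : Lab × X.X => v (X.Tz (rho s z.1) z.2)) ∈ FamS X.ms := by
  obtain ⟨h1, D, hD⟩ := hv
  exact ⟨fun l => h1.comp (ht.mp X (rho s l)).measurable, D, fun z => hD _⟩

theorem bdd_int {X : Sys} {v : X.X → ℂ} (hv : v ∈ Bdd X.X) : Integrable v X.μ := by
  obtain ⟨h1, D, hD⟩ := hv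
  exact Integrable.of_bound h1.aestronglyMeasurable D (Eventually.of_forall hD)

/-- a function with conditional mean zero has conditional mean zero in every slot -/
theorem slot_zero (fd : Fd) {ν : Wt} {U : Ultrafilter ℕ} {X : Sys} (L : Ln ν U X) (s : Slot)
    {B : MeasurableSpace X.X} (hB : Fac X B) {v : X.X → ℂ} (hv : BM X.μ X.ms v)
    (h0 : X.μ[v | B] =ᵐ[X.μ] 0) : L.W.μ[fun w => v (L.π s w) | L.shp B] =ᵐ[L.W.μ] 0 := by
  obtain ⟨v', hv', e⟩ := rep fd.a hv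
  have h1 : (fun w => v (L.π s w)) =ᵐ[L.W.μ] L.hat fun z => v' (X.Tz (rho s z.1) z.2) :=
    (ae_comp (L.emb s).mp e).trans (L.slot s v' hv')
  have h0' : X.μ[v' | B] =ᵐ[X.μ] 0 := (condExp_congr_ae e.symm).trans h0
  have h2 := fd.lb.ce L B hB _ (fam_shift fd.t hv' s) (fun _ => 0)
    ⟨fun l => @measurable_const _ _ _ B _, 0, fun z => by simp⟩ fun l => by
      have h3 := fd.t.ce X B (rho s l) v' hB (bdd_int hv')
      have h4 := ae_comp (fd.t.mp X (rho s l)) h0'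
      exact (h3.trans h4).symm
  refine (condExp_congr_ae h1).trans (h2.trans (Eventually.of_forall fun w => ?_))
  exact (L.ch w).const 0

theorem facB2 (fd : Fd) (c : Ctx) : Fac c.W c.B2 :=
  (fd.h.kc c.W _ c.L.nice (fd.lb.fac c.L c.B c.kc.1)).1

theorem facP (fd : Fd) (c : Ctx) (j : c.ι) : Fac c.W (c.P j) :=
  fd.t.fpull c.W c.X _ _ (c.L.emb (c.sl j)) (fd.t.top c.X)

theorem cp_point (fd : Fd) (c : Ctx) (gi : c.GI) (j : c.ι) :
    CP (pull c.W.μ (c.π j) c.X.ms) (pull c.W.μ (c.π j) c.B) c.B2 c.W.μ := by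
  intro a ha
  obtain ⟨f, hf, e⟩ := fact fd.a (c.L.emb (c.sl j)).mp ha
  have hne : ({j} : Finset c.ι) ≠ univ := fun h => by
    have h1 := congrArg Finset.card h
    have h2 := c.three
    rw [card_singleton, card_univ] at h1
    omega
  have h1 := gi.line {j} hne (fun _ => f) fun _ _ => hf
  simp only [prod_singleton] at h1
  have h2 := fd.a.ce_comp c.B c.W.μ c.X.μ (c.π j) f (c.L.emb (c.sl j)).mp c.kc.1.le hf.integrable
  exact (condExp_congr_ae e).trans (h1.trans (h2.symm.trans (condExp_congr_ae e.symm)))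

/-- two columns -/
theorem two_cols (fd : Fd) (c : Ctx) (gi : c.GI) {j k : c.ι} (hjk : j ≠ k) {φ ψ : c.W.X → ℂ}
    (hφ : BM c.W.μ c.W.ms φ) (hψ : BM c.W.μ c.W.ms ψ)
    (h0 : c.W.μ[φ | c.L.shp c.B] =ᵐ[c.W.μ] 0) :
    ∫ x, φ (c.Bc j x) * ψ (c.Bc k x) ∂c.W2.μ = 0 := by
  have hne : ({j, k} : Finset c.ι) ≠ univ := fun h => by
    have h1 := congrArg Finset.card h
    have h2 := c.three
    rw [card_pair hjk, card_univ] at h1
    omega
  have hB2 := facB2 fd c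
  have hD := fd.lb.fac c.L2 c.B2 hB2
  have hci := fd.ld.cind c.L2 c.L c.π c.Bc {j, k} c.B2 (fun i => c.L.emb (c.sl i)) c.lift hB2
    (gi.cline _ hne)
  have hle : ∀ i, pull c.W2.μ (c.Bc i) c.W.ms ≤ c.W2.ms := fun i =>
    fd.a.pull_le c.W.ms c.W2.μ c.W.μ (c.Bc i) (c.lift i).emb.mp le_rfl
  have h1 := fd.a.bm_comp c.W.ms c.W2.μ c.W.μ (c.Bc j) φ (c.lift j).emb.mp hφ
  have h2 := fd.a.bm_comp c.W.ms c.W2.μ c.W.μ (c.Bc k) ψ (c.lift k).emb.mp hψ
  have h3 := fd.c.grp (c.L2.shp c.B2) (fun i => pull c.W2.μ (c.Bc i) c.W.ms) {j, k} {j} {k}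
    c.W2.μ hD.le hle hci (by simp) (by simp) (by simpa using hjk) _ _
    (h1.mono (by rw [Fib27.sup_singleton']; exact le_sup_left))
    (h2.mono (by rw [Fib27.sup_singleton']; exact le_sup_left))
  have h4 := fd.ld.base c.L2 c.L (c.π j) (c.Bc j) c.B c.B2 (c.L.emb (c.sl j)) (c.lift j) c.kc.1 hB2
    ((fd.lb.slot c.L c.B (c.sl j) c.kc.1).trans (fd.h.le c.W _)) (cp_point fd c gi j) _ h1
  have h5 := fd.a.ce_comp (c.L.shp c.B) c.W2.μ c.W.μ (c.Bc j) φ (c.lift j).emb.mp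
    (fd.lb.fac c.L c.B c.kc.1).le hφ.integrable
  have h6 := (c.lift j).emb.mp.quasiMeasurePreserving.ae_eq_comp h0
  rw [← integral_condExp hD.le]
  refine integral_eq_zero_of_ae ?_
  filter_upwards [h3, h4, h5, h6] with x e3 e4 e5 e6
  rw [e3, e4, e5]
  simp only [comp_apply] at e6
  rw [e6]
  simp

end R2p

open R2p in
theorem r2p : R2PR := by
  intro fd c gi q j k h Y u hjk hh hY hu h0
  have hA : MeasurePreserving (c.A q) c.W2.μ c.W.μ := (c.L2.emb (c.sl q)).mp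
  have hπ : ∀ i, MeasurePreserving (c.π i) c.W.μ c.X.μ := fun i => (c.L.emb (c.sl i)).mp
  have hBc : ∀ i, MeasurePreserving (c.Bc i) c.W2.μ c.W.μ := fun i => (c.lift i).emb.mp
  have hP := fd.t.fsup c.W _ _ (facP fd c j) (facP fd c k)
  have hD := fd.lb.fac c.L2 _ hP
  have hcol : ∀ i, c.P i ≤ c.P j ⊔ c.P k →
      pull c.W2.μ (c.Bc i) c.W.ms ≤ c.L2.shp (c.P j ⊔ c.P k) := fun i hi => by
    have := fd.la.shp c.L2 c.L (c.π i) (c.Bc i) c.X.ms _ (c.L.emb (c.sl i)) (c.lift i)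
      (fd.t.top c.X) hP hi
    rwa [fd.lb.top] at this
  have hΦ : BM c.W2.μ (c.L2.shp (c.P j ⊔ c.P k)) fun x => h (c.Bc j x) * Y (c.Bc k x) :=
    ((fd.a.bm_comp c.W.ms c.W2.μ c.W.μ _ h (hBc j) hh).mono (hcol j le_sup_left)).mul
      ((fd.a.bm_comp c.W.ms c.W2.μ c.W.μ _ Y (hBc k) hY).mono (hcol k le_sup_right))
  have hΦ' := hΦ.mono hD.le
  have hu0 := hu.ce (c.P j ⊔ c.P k)
  have hAle := fd.a.pull_le c.W.ms c.W2.μ c.W.μ _ hA le_rfl
  have huA := (fd.a.bm_comp c.W.ms c.W2.μ c.W.μ _ u hA hu).mono hAle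
  have hu0A := (fd.a.bm_comp c.W.ms c.W2.μ c.W.μ _ _ hA (hu0.mono hP.le)).mono hAle
  -- step 1
  have s1 : ∫ x, (u (c.A q x) - (c.W.μ[u | c.P j ⊔ c.P k]) (c.A q x)) *
      (h (c.Bc j x) * Y (c.Bc k x)) ∂c.W2.μ = 0 :=
    Fib27.perp_of_ce hD.le (huA.sub hu0A) (slot_zero fd c.L2 (c.sl q) hP (hu.sub (hu0.mono hP.le))
      ((Fib27.perp_sub_ce hP.le hu).ce hP.le (hu.sub (hu0.mono hP.le)))) _ hΦ
  rw [Fib27.int_sub_mul huA hu0A hΦ', sub_eq_zero] at s1
  -- step 2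
  have hG : ∀ i, c.G q i ≤ c.W2.ms := fun i =>
    fd.a.pull_le c.X.ms c.W2.μ c.X.μ _ ((hπ i).comp hA) le_rfl
  have hPq := facP fd c q
  have hS := fd.lb.fac c.L c.B c.kc.1
  have hPS : c.P q ⊔ c.L.shp c.B ≤ c.W.ms := sup_le hPq.le hS.le
  have s2 : Fib27.Perp c.W2.μ (c.G q j ⊔ c.G q k) fun x => h (c.Bc j x) * Y (c.Bc k x) := by
    refine Fib27.perp_sup (hG j) (hG k) hΦ' fun a b ha hb => ?_
    obtain ⟨f, hf, ea⟩ := fact fd.a ((hπ j).comp hA) ha
    obtain ⟨g, hg, eb⟩ := fact fd.a ((hπ k).comp hA) hb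
    have e1 := fd.a.keq_fun c.X.ms c.W2.μ c.X.μ _ _ f ((hπ j).comp hA) ((hπ q).comp (hBc j))
      (gi.col q j) hf.1
    have e2 := fd.a.keq_fun c.X.ms c.W2.μ c.X.μ _ _ g ((hπ k).comp hA) ((hπ q).comp (hBc k))
      (gi.col q k) hg.1
    have hfq : BM c.W.μ (c.P q) fun w => f (c.π q w) :=
      fd.a.bm_comp c.X.ms c.W.μ c.X.μ _ f (hπ q) hf
    have hgq : BM c.W.μ (c.P q) fun w => g (c.π q w) :=
      fd.a.bm_comp c.X.ms c.W.μ c.X.μ _ g (hπ q) hg
    have hz : c.W.μ[fun w => h w * f (c.π q w) | c.L.shp c.B] =ᵐ[c.W.μ] 0 := by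
      refine Fib27.Perp.ce (fun d hd => ?_) hS.le (hh.mul (hfq.mono hPq.le))
      simp only [mul_assoc]
      exact Fib27.perp_of_ce hPS hh h0 _ ((hfq.mono le_sup_left).mul (hd.mono le_sup_right))
    rw [← two_cols fd c gi hjk (hh.mul (hfq.mono hPq.le)) (hY.mul (hgq.mono hPq.le)) hz]
    refine integral_congr_ae ?_
    filter_upwards [ea, eb, e1, e2] with x a1 a2 a3 a4
    rw [a1, a2, a3, a4]
    simp only [comp_apply]
    ring
  have hm : BM c.W2.μ (c.G q j ⊔ c.G q k) fun x => (c.W.μ[u | c.P j ⊔ c.P k]) (c.A q x) := by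
    have := fd.a.bm_comp (c.P j ⊔ c.P k) c.W2.μ c.W.μ _ _ hA hu0
    rw [fd.a.pull_sup] at this
    have e : ∀ i, pull c.W2.μ (c.A q) (c.P i) = c.G q i := fun i =>
      fd.a.pull_comp c.X.ms c.W2.μ c.W.μ (c.A q) (c.π i) hA
    rwa [e, e] at this
  have s3 := s2 _ hm
  calc _ = ∫ x, u (c.A q x) * (h (c.Bc j x) * Y (c.Bc k x)) ∂c.W2.μ := by
        simp only [mul_comm]
    _ = _ := s1
    _ = 0 := by
        rw [← s3]
        simp only [mul_comm]

end T4x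

end

end PkR2P

section PkF2

set_option autoImplicit false
set_option linter.unusedVariables false
set_option linter.unusedSectionVars false
set_option warn.classDefReducibility false

open MeasureTheory ProbabilityTheory Filter Topology Function Finset ComplexConjugate
open scoped BigOperators
open Fib27 (BM sup pr Oc Orow Perp)

noncomputable section

namespace T4x

open T3x

variable [Grp]

namespace F2

theorem fact (fd : Fd) {Ω Ω' : Type} {m0 : MeasurableSpace Ω} {m0' : MeasurableSpace Ω'}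
    {μ : Measure Ω} (μ' : Measure Ω') {p : Ω → Ω'} (hp : Measurable p) {f : Ω → ℂ}
    (hf : BM μ (pull μ p m0') f) : ∃ f', BM μ' m0' f' ∧ f =ᵐ[μ] fun x => f' (p x) := by
  obtain ⟨h1, C, hC⟩ := hf
  obtain ⟨f', a1, a2, a3⟩ := fd.a.fact m0' μ p f (max C 0) hp.comap_le (le_max_right _ _) h1
    (hC.mono fun x hx => hx.trans (le_max_left _ _))
  exact ⟨f', ⟨a1.aestronglyMeasurable, _, Eventually.of_forall a2⟩, a3⟩

theorem intc {Ω Ω' : Type} {m0 : MeasurableSpace Ω} {m0' : MeasurableSpace Ω'}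
    {μ : Measure Ω} {μ' : Measure Ω'} {p : Ω → Ω'} (hp : MeasurePreserving p μ μ') {f : Ω' → ℂ}
    (hf : BM μ' m0' f) : ∫ x, f (p x) ∂μ = ∫ y, f y ∂μ' := by
  rw [← hp.map_eq, integral_map hp.measurable.aemeasurable (by rw [hp.map_eq]; exact hf.1)]

theorem desc (fd : Fd) {Ω Ω' : Type} {m0 : MeasurableSpace Ω} {m0' : MeasurableSpace Ω'}
    {μ : Measure Ω} [IsProbabilityMeasure μ] {μ' : Measure Ω'} {p : Ω → Ω'}
    (hp : MeasurePreserving p μ μ') {w : Ω → ℂ} (hw : BM μ m0 w) :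
    ∃ w0, BM μ' m0' w0 ∧ ∀ v, BM μ' m0' v → ∫ x, w x * v (p x) ∂μ = ∫ y, w0 y * v y ∂μ' := by
  obtain ⟨w0, h0, h1⟩ := fact fd μ' hp.measurable (hw.ce (pull μ p m0'))
  refine ⟨w0, h0, fun v hv => ?_⟩
  rw [← Fib27.int_ce_mul (fd.a.pull_le m0' μ μ' p hp le_rfl) hw (fd.a.bm_comp m0' μ μ' p v hp hv),
    ← intc hp (h0.mul hv)]
  refine integral_congr_ae ?_
  filter_upwards [h1] with x hx
  rw [hx]

theorem pull_mono {Ω Ω' : Type} {B C : MeasurableSpace Ω'} {m0 : MeasurableSpace Ω}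
    (μ : Measure Ω) (p : Ω → Ω') (h : B ≤ C) : pull μ p B ≤ pull μ p C :=
  sup_le_sup_right (MeasurableSpace.comap_mono h) _

theorem pull_sup_le {Ω Ω' ι : Type} {P : ι → MeasurableSpace Ω'} {S : Finset ι}
    {M : MeasurableSpace Ω} {B : MeasurableSpace Ω'} {m0 : MeasurableSpace Ω}
    (μ : Measure Ω) (p : Ω → Ω') (h : ∀ k ∈ S, pull μ p (P k) ≤ M) (hB : pull μ p B ≤ M) :
    pull μ p (sup P S ⊔ B) ≤ M := by
  unfold pull
  rw [MeasurableSpace.comap_sup, sup_assoc]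
  refine sup_le ?_ hB
  unfold Fib27.sup
  simp only [MeasurableSpace.comap_iSup]
  exact iSup₂_le fun k hk => le_sup_left.trans (h k hk)

variable (c : Ctx)

/-- the base enlarged by all slots except two -/
def C0 (j j' : c.ι) : MeasurableSpace c.W.X :=
  c.L.shp c.B ⊔ sup c.P ((univ.erase j).erase j')

def Bp (j j' : c.ι) : MeasurableSpace c.W.X := hull c.W (C0 c j j')

/-- the other rows, the base and the points of row `q` outside two columns -/
def MM (q j j' : c.ι) : MeasurableSpace c.W2.X := c.L2.OB (Bp c j j') c.sl q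

def OO (q : c.ι) : MeasurableSpace c.W.X := c.L.OB c.B c.sl q

variable {c}

theorem embπ (k : c.ι) : Emb c.W c.X (c.π k) := c.L.emb _

theorem embA (k : c.ι) : Emb c.W2 c.W (c.A k) := c.L2.emb _

theorem embB (k : c.ι) : Emb c.W2 c.W (c.Bc k) := (c.lift k).emb

theorem facP (fd : Fd) (k : c.ι) : Fac c.W (c.P k) :=
  fd.t.fpull _ _ _ _ (embπ k) (fd.t.top _)

theorem facS (fd : Fd) : Fac c.W (c.L.shp c.B) := fd.lb.fac c.L c.B c.kc.1

theorem facC (fd : Fd) (j j' : c.ι) : Fac c.W (C0 c j j') := by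
  unfold C0
  rw [sup_comm]
  exact fd.t.fsp _ _ _ _ _ (facS fd) (facP fd)

theorem kcB2 (fd : Fd) : KC c.W c.B2 := fd.h.kc _ _ c.L.nice (facS fd)

theorem kcBp (fd : Fd) (j j' : c.ι) : KC c.W (Bp c j j') := fd.h.kc _ _ c.L.nice (facC fd j j')

theorem S_le_B2 (fd : Fd) : c.L.shp c.B ≤ c.B2 := fd.h.le _ _

theorem B2_le_Bp (fd : Fd) (j j' : c.ι) : c.B2 ≤ Bp c j j' := fd.h.mono _ _ _ le_sup_left

theorem B2_le_OO (q : c.ι) : c.B2 ≤ OO c q := le_sup_right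

theorem OO_le (fd : Fd) (q : c.ι) : OO c q ≤ c.W.ms :=
  sup_le (Fib27.sup_le' fun k _ => (facP fd k).le) (kcB2 fd).1.le

theorem MM_le (fd : Fd) (q j j' : c.ι) : MM c q j j' ≤ c.W2.ms :=
  sup_le (Fib27.sup_le' fun k _ => (fd.t.fpull _ _ _ _ (embA k) (fd.t.top _)).le)
    (fd.h.kc _ _ c.L2.nice (fd.lb.fac c.L2 _ (kcBp fd j j').1)).1.le

theorem β_le_MM (fd : Fd) (q j j' : c.ι) : c.β ≤ MM c q j j' :=
  (fd.h.mono _ _ _ (fd.lb.mono c.L2 _ _ (B2_le_Bp fd j j'))).trans le_sup_right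

theorem row_le_MM (fd : Fd) (q j j' : c.ι) :
    pull c.W2.μ (c.A q) (Bp c j j') ≤ MM c q j j' :=
  ((fd.lb.slot c.L2 _ _ (kcBp fd j j').1).trans (fd.h.le _ _)).trans le_sup_right

theorem col_le_MM (fd : Fd) (gi : c.GI) (q j j' i : c.ι) :
    pull c.W2.μ (c.Bc i) (OO c q) ≤ MM c q j j' := by
  refine pull_sup_le _ _ (fun k hk => ?_) ((gi.colB i).trans (β_le_MM fd q j j'))
  have h1 : pull c.W2.μ (c.Bc i) (c.L.P (c.sl k)) = pull c.W2.μ (c.π k ∘ c.Bc i) c.X.ms :=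
    fd.a.pull_comp c.X.ms c.W2.μ c.W.μ (c.Bc i) (c.π k) (embB i).mp
  have h2 : pull c.W2.μ (c.A k) (c.P i) = pull c.W2.μ (c.π i ∘ c.A k) c.X.ms :=
    fd.a.pull_comp c.X.ms c.W2.μ c.W.μ (c.A k) (c.π i) (embA k).mp
  have h3 := fd.a.keq_pull c.X.ms c.W2.μ (c.π i ∘ c.A k) (c.π k ∘ c.Bc i)
    ((embπ i).mp.comp (embA k).mp).measurable.comap_le
    ((embπ k).mp.comp (embB i).mp).measurable.comap_le (gi.col k i)
  rw [h1, ← h3, ← h2]
  exact (pull_mono _ _ (facP fd i).le).trans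
    ((Fib27.le_sup' (fun k => c.L2.P (c.sl k)) hk).trans le_sup_left)

theorem bmπ (fd : Fd) (k : c.ι) {f : c.X.X → ℂ} (hf : BM c.X.μ c.X.ms f) :
    BM c.W.μ (c.P k) fun w => f (c.π k w) :=
  fd.a.bm_comp c.X.ms c.W.μ c.X.μ (c.π k) f (embπ k).mp hf

theorem adm (fd : Fd) {j j' : c.ι} (hj : j ≠ j') : Adm c.W (Bp c j j') c.X c.B (c.π j) := by
  have hS := facS (c := c) fd
  have hle : pull c.W.μ (c.π j) c.B ≤ c.L.shp c.B := fd.lb.slot c.L _ _ c.kc.1
  refine fd.h.adm _ _ _ _ _ c.L.nice c.nice (embπ j) c.kc (facC fd j j') (hle.trans le_sup_left) ?_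
  intro f hf
  obtain ⟨f0, hf0, hff⟩ := fact fd c.X.μ (embπ j).mp.measurable hf
  have hce := fd.a.ce_comp c.B c.W.μ c.X.μ (c.π j) f0 (embπ j).mp c.kc.1.le hf0.integrable
  refine (condExp_congr_ae hff).trans (EventuallyEq.trans ?_
    ((condExp_congr_ae hff).trans hce).symm)
  have hg0 : BM c.X.μ c.B (c.X.μ[f0 | c.B]) := hf0.ce _
  have hg1 : BM c.W.μ (c.L.shp c.B) fun w => (c.X.μ[f0 | c.B]) (c.π j w) :=
    (fd.a.bm_comp c.B c.W.μ c.X.μ (c.π j) _ (embπ j).mp hg0).mono hle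
  have hF : BM c.W.μ c.W.ms fun w => f0 (c.π j w) := (bmπ fd j hf0).mono (facP fd j).le
  refine Fib27.ce_eq_of_perp (facC fd j j').le hF (hg1.mono le_sup_left) ?_
  refine Fib27.perp_sup_pr hS.le (fun k => (facP fd k).le) (hF.sub (hg1.mono hS.le)) ?_
  intro a ρ ha hρ
  choose g hg hρg using fun k => fact fd c.X.μ (embπ k).mp.measurable (hρ k)
  set S := (univ.erase j).erase j' with hSd
  have hjS : j ∉ S := by simp [hSd]
  have hd : BM c.X.μ c.X.ms fun x => f0 x - (c.X.μ[f0 | c.B]) x := hf0.sub (hg0.mono c.kc.1.le)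
  have hcard : (insert j S).card ≤ Fintype.card c.ι - 1 := by
    have : insert j S ⊆ univ.erase j' := by
      intro i hi
      rcases mem_insert.mp hi with rfl | hi
      · simpa using hj
      · simpa using (mem_erase.mp hi).1
    simpa [card_erase_of_mem] using card_le_card this
  have hI := c.ind c.X c.B c.L c.ι c.sl (insert j S) c.nice c.kc
    (fun i _ k _ => c.nrm.cov i (mem_univ _) k (mem_univ _)) hcard
    (update g j fun x => f0 x - (c.X.μ[f0 | c.B]) x) (fun i _ => by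
      by_cases h : i = j
      · subst h
        simpa using hd
      · simpa [update_of_ne h] using hg i)
  have hz : ∀ᵐ x ∂c.X.μ, (c.X.μ[fun x => f0 x - (c.X.μ[f0 | c.B]) x | c.B]) x = 0 :=
    (Fib27.perp_sub_ce c.kc.1.le hf0).ce c.kc.1.le hd
  have hz' := (embπ j).mp.quasiMeasurePreserving.ae hz
  have hPr : BM c.W.μ c.W.ms fun w => (f0 (c.π j w) - (c.X.μ[f0 | c.B]) (c.π j w)) * pr ρ S w :=
    (hF.sub (hg1.mono hS.le)).mul (BM.pr fun k _ => (hρ k).mono (facP fd k).le)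
  have he : (fun w => (f0 (c.π j w) - (c.X.μ[f0 | c.B]) (c.π j w)) * pr ρ S w) =ᵐ[c.W.μ]
      fun w => ∏ i ∈ insert j S,
        update g j (fun x => f0 x - (c.X.μ[f0 | c.B]) x) i (c.L.π (c.sl i) w) := by
    filter_upwards [Fib27.pr_congr_ae (S := S) fun k _ => hρg k] with w hw
    rw [prod_insert hjS, update_self, hw]
    refine congrArg₂ _ rfl (prod_congr rfl fun i hi => ?_)
    rw [update_of_ne (by rintro rfl; exact hjS hi)]
    rfl
  have h0 : ∀ᵐ w ∂c.W.μ, (c.W.μ[fun w => (f0 (c.π j w) - (c.X.μ[f0 | c.B]) (c.π j w)) * pr ρ S w |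
      c.L.shp c.B]) w = 0 := by
    filter_upwards [(condExp_congr_ae he).trans hI, hz'] with w h1 h2
    rw [h1, prod_insert hjS, update_self]
    exact mul_eq_zero_of_left h2 _
  have := Fib27.perp_of_ce hS.le hPr h0 a ha
  rw [← this]
  exact integral_congr_ae (Eventually.of_forall fun w => by ring)

/-- saturation in the grid -/
theorem sg (fd : Fd) (sat : c.Sat) (q : c.ι) {j j' : c.ι} (hj : j ≠ j') {a : c.W.X → ℂ}
    (ha : BM c.W.μ (c.P q) a) {w : c.W2.X → ℂ} (hw : BM c.W2.μ (MM c q j j') w) :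
    ∫ x, a (c.Bc j x) * w x ∂c.W2.μ = ∫ x, (c.W.μ[a | OO c q]) (c.Bc j x) * w x ∂c.W2.μ := by
  obtain ⟨f, hf, haf⟩ := fact fd c.X.μ (embπ q).mp.measurable ha
  have h1 := sat c.W (Bp c j j') (c.π j) c.L2 (c.Bc j) (adm fd hj) (c.lift j) q f hf
  have hq := (embB (c := c) j).mp.quasiMeasurePreserving
  have ha2 : BM c.W2.μ c.W2.ms fun x => a (c.Bc j x) :=
    (fd.a.bm_comp _ c.W2.μ c.W.μ (c.Bc j) a (embB j).mp (ha.mono (facP fd q).le)).mono
      (fd.t.fpull _ _ _ _ (embB j) (fd.t.top _)).le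
  rw [← Fib27.int_ce_mul (MM_le fd q j j') ha2 hw]
  refine integral_congr_ae ?_
  have h2 : c.W2.μ[fun x => a (c.Bc j x) | MM c q j j'] =ᵐ[c.W2.μ]
      c.W2.μ[fun x => f (c.π q (c.Bc j x)) | MM c q j j'] := condExp_congr_ae (hq.ae haf)
  have h3 : c.W.μ[a | OO c q] =ᵐ[c.W.μ] c.W.μ[fun w => f (c.π q w) | OO c q] :=
    condExp_congr_ae haf
  filter_upwards [h2.trans h1, hq.ae h3] with x h4 h5
  rw [h4, h5]
  rfl

theorem sg' (fd : Fd) (sat : c.Sat) (gi : c.GI) (q : c.ι) {j j' : c.ι} (hj : j ≠ j')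
    {e : c.W.X → ℂ} (he : BM c.W.μ (c.P q ⊔ c.L.shp c.B) e) {w : c.W2.X → ℂ}
    (hw : BM c.W2.μ (MM c q j j') w) :
    ∫ x, w x * e (c.Bc j x) ∂c.W2.μ = ∫ x, w x * (c.W.μ[e | OO c q]) (c.Bc j x) ∂c.W2.μ := by
  have hO := OO_le (c := c) fd q
  have hP := (facP (c := c) fd q).le
  have hS := (facS (c := c) fd).le
  have hSO : c.L.shp c.B ≤ OO c q := (S_le_B2 fd).trans (B2_le_OO q)
  have hw' := hw.mono (MM_le fd q j j')
  obtain ⟨w0, h0, h1⟩ := desc fd (embB j).mp hw'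
  have he' := he.mono (sup_le hP hS)
  have hp : Perp c.W.μ (c.P q ⊔ c.L.shp c.B) fun y => w0 y - (c.W.μ[w0 | OO c q]) y := by
    refine Fib27.perp_sup hP hS (h0.sub ((h0.ce _).mono hO)) fun a b ha hb => ?_
    have ha' := ha.mono hP
    have hb' := hb.mono hS
    have e1 : ∫ y, w0 y * (c.W.μ[fun y => a y * b y | OO c q]) y ∂c.W.μ
        = ∫ y, w0 y * ((c.W.μ[a | OO c q]) y * b y) ∂c.W.μ :=
      integral_congr_ae ((Fib27.ce_mul' hO ha' (hb.mono hSO)).mono fun y hy =>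
        congrArg (w0 y * ·) hy)
    rw [Fib27.int_sub_mul h0 ((h0.ce _).mono hO) (ha'.mul hb'), sub_eq_zero,
      Fib27.int_ce_symm hO h0 (ha'.mul hb'), e1,
      ← h1 _ (ha'.mul hb'), ← h1 _ (((ha'.ce _).mono hO).mul hb')]
    have hb2 : BM c.W2.μ (MM c q j j') fun x => b (c.Bc j x) :=
      (fd.a.bm_comp _ c.W2.μ c.W.μ (c.Bc j) b (embB j).mp (hb.mono hSO)).mono
        (col_le_MM fd gi q j j' j)
    have := sg fd sat q hj ha (hw.mul hb2)
    refine Eq.trans ?_ (this.trans ?_)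
    · exact integral_congr_ae (Eventually.of_forall fun w => by ring)
    · exact integral_congr_ae (Eventually.of_forall fun w => by ring)
  have h2 := hp e he
  rw [Fib27.int_sub_mul h0 ((h0.ce _).mono hO) he', sub_eq_zero, Fib27.int_ce_symm hO h0 he'] at h2
  rw [h1 _ he', h1 _ ((he'.ce _).mono hO), h2]

theorem key (fd : Fd) (gi : c.GI) (sat : c.Sat) (r2p : R2P c) (q : c.ι) {a h : c.W.X → ℂ}
    (ha : BM c.W.μ (c.P q) a)
    (hh : h = fun w => (c.W.μ[a | OO c q]) w -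
      (c.W.μ[c.W.μ[a | OO c q] | c.P q ⊔ c.L.shp c.B]) w) :
    Perp c.W.μ (OO c q) (c.W.μ[c.W.μ[h | OO c q] | c.P q]) := by
  have hO := OO_le (c := c) fd q
  have hP := fun k => (facP (c := c) fd k).le
  have hS := (facS (c := c) fd).le
  have hD : c.P q ⊔ c.L.shp c.B ≤ c.W.ms := sup_le (hP q) hS
  have hKa : BM c.W.μ (OO c q) (c.W.μ[a | OO c q]) := ha.ce _
  have he : BM c.W.μ (c.P q ⊔ c.L.shp c.B) (c.W.μ[c.W.μ[a | OO c q] | c.P q ⊔ c.L.shp c.B]) :=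
    hKa.ce _
  have hhb : BM c.W.μ c.W.ms h := hh ▸ (hKa.mono hO).sub (he.mono hD)
  have hh0 : c.W.μ[h | c.P q ⊔ c.L.shp c.B] =ᵐ[c.W.μ] 0 :=
    Perp.ce (hh ▸ Fib27.perp_sub_ce hD (hKa.mono hO)) hD hhb
  have hKh : BM c.W.μ (OO c q) (c.W.μ[h | OO c q]) := hhb.ce _
  have hb : BM c.W.μ (c.P q) (c.W.μ[c.W.μ[h | OO c q] | c.P q]) := hKh.ce _
  obtain ⟨b0, hb0, hbb⟩ := fact fd c.X.μ (embπ q).mp.measurable hb
  have hOd : OO c q = c.B2 ⊔ sup c.P (univ.erase q) := sup_comm _ _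
  have hB2 := (kcB2 (c := c) fd).1.le
  refine (Fib27.perp_sup_pr (S := univ.erase q) hB2 hP (hb.mono (hP q)) ?_).mono hOd.le
  intro ψ ρ hψ hρ
  obtain ⟨k, hk, -⟩ := Fib27.exists_third c.three q q
  have hkS : k ∈ univ.erase q := by simpa using hk
  have hρ' : ∀ S : Finset c.ι, BM c.W.μ c.W.ms (pr ρ S) := fun S =>
    BM.pr fun i _ => (hρ i).mono (hP i)
  have hu : BM c.W.μ c.W.ms fun w => ψ w * pr ρ (univ.erase q) w := (hψ.mono hB2).mul (hρ' _)
  have hu' : BM c.W.μ c.W.ms fun w => ψ w * pr ρ ((univ.erase q).erase k) w :=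
    (hψ.mono hB2).mul (hρ' _)
  have hu1 : BM c.W.μ (Bp c q k) fun w => ψ w * pr ρ ((univ.erase q).erase k) w :=
    (hψ.mono (B2_le_Bp fd q k)).mul
      ((BM.pr_sup fun i _ => hρ i).mono (le_sup_right.trans (fd.h.le _ _)))
  have hu2 : BM c.W.μ (Bp c k q) fun w => ψ w * pr ρ ((univ.erase q).erase k) w := by
    refine (hψ.mono (B2_le_Bp fd k q)).mul ?_
    rw [erase_right_comm]
    exact (BM.pr_sup fun i _ => hρ i).mono (le_sup_right.trans (fd.h.le _ _))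
  obtain ⟨f, hf, hρf⟩ := fact fd c.X.μ (embπ k).mp.measurable (hρ k)
  have hfq := bmπ fd q hf
  have hY : BM c.W.μ (OO c q) (c.W.μ[fun w => f (c.π q w) | OO c q]) := hfq.ce _
  have hAq := (embA (c := c) q).mp
  have cB : ∀ (i j j' : c.ι) {v : c.W.X → ℂ}, BM c.W.μ (OO c q) v →
      BM c.W2.μ (MM c q j j') fun x => v (c.Bc i x) := fun i j j' v hv =>
    (fd.a.bm_comp _ c.W2.μ c.W.μ (c.Bc i) v (embB i).mp hv).mono (col_le_MM fd gi q j j' i)
  have cA : ∀ (j j' : c.ι) {v : c.W.X → ℂ}, BM c.W.μ (Bp c j j') v →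
      BM c.W2.μ (MM c q j j') fun x => v (c.A q x) := fun j j' v hv =>
    (fd.a.bm_comp _ c.W2.μ c.W.μ (c.A q) v hAq hv).mono (row_le_MM fd q j j')
  have hcs := fd.ld.cs' c.L2 c.L (c.π q) (c.Bc q) (c.sl q) (embπ q) (c.lift q) _ b0
    (hKh.mono hO) hb0 hbb.symm
  have hA : pull c.W2.μ (c.A q) c.W.ms ≤ c.W2.ms := (fd.t.fpull _ _ _ _ (embA q) (fd.t.top _)).le
  have s1 : ∫ w, (c.W.μ[c.W.μ[h | OO c q] | c.P q]) w * (ψ w * pr ρ (univ.erase q) w) ∂c.W.μ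
      = ∫ x, (c.W.μ[h | OO c q]) (c.Bc q x) * (ψ (c.A q x) * pr ρ (univ.erase q) (c.A q x))
        ∂c.W2.μ := by
    rw [← intc hAq ((hb.mono (hP q)).mul hu),
      ← Fib27.int_ce_mul hA ((cB q q k hKh).mono (MM_le fd q q k))
        (fd.a.bm_comp _ c.W2.μ c.W.μ (c.A q) _ hAq hu)]
    refine integral_congr_ae ?_
    filter_upwards [hcs, hAq.quasiMeasurePreserving.ae hbb] with x h1 h2
    rw [h2]
    exact congrArg₂ _ h1.symm rfl
  have hcol := fd.a.keq_fun c.X.ms c.W2.μ c.X.μ (c.π k ∘ c.A q) (c.π q ∘ c.Bc k) f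
    ((embπ k).mp.comp hAq) ((embπ q).mp.comp (embB k).mp) (gi.col q k) hf.1
  have s2 : ∫ x, (c.W.μ[h | OO c q]) (c.Bc q x) * (ψ (c.A q x) * pr ρ (univ.erase q) (c.A q x))
        ∂c.W2.μ = ∫ x, f (c.π q (c.Bc k x)) * ((c.W.μ[h | OO c q]) (c.Bc q x) *
          (ψ (c.A q x) * pr ρ ((univ.erase q).erase k) (c.A q x))) ∂c.W2.μ := by
    refine integral_congr_ae ?_
    filter_upwards [hcol, hAq.quasiMeasurePreserving.ae hρf] with x h1 h2
    rw [Fib27.pr_erase ρ hkS, h2]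
    have h3 : f (c.π k (c.A q x)) = f (c.π q (c.Bc k x)) := h1
    rw [h3]
    ring
  have s3 := sg fd sat q hk hfq ((cB q k q hKh).mul (cA k q hu2))
  have hw2 := (cB k q k hY).mul (cA q k hu1)
  have s4 := sg' fd sat gi q hk.symm he hw2
  have s5 := r2p q q k h _ _ hk.symm hhb (hY.mono hO) hu' hh0
  have hKK : c.W.μ[h | OO c q] =ᵐ[c.W.μ] fun w => h w +
      ((c.W.μ[c.W.μ[a | OO c q] | c.P q ⊔ c.L.shp c.B]) w -
        (c.W.μ[c.W.μ[c.W.μ[a | OO c q] | c.P q ⊔ c.L.shp c.B] | OO c q]) w) := by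
    subst hh
    filter_upwards [Fib27.ce_sub (hKa.mono hO) (he.mono hD) (OO c q), hKa.ce_self hO] with w h1 h2
    rw [h1, h2]
    ring
  have hM := MM_le (c := c) fd q q k
  have hBq : pull c.W2.μ (c.Bc q) c.W.ms ≤ c.W2.ms := (fd.t.fpull _ _ _ _ (embB q) (fd.t.top _)).le
  have cq : ∀ {v : c.W.X → ℂ}, BM c.W.μ c.W.ms v → BM c.W2.μ c.W2.ms fun x => v (c.Bc q x) :=
    fun hv => (fd.a.bm_comp _ c.W2.μ c.W.μ (c.Bc q) _ (embB q).mp hv).mono hBq
  have i1 := ((hw2.mono hM).mul (cq hhb)).integrable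
  have i2 := ((hw2.mono hM).mul (cq (he.mono hD))).integrable
  have i3 := ((hw2.mono hM).mul (cq ((he.ce (OO c q)).mono hO))).integrable
  rw [s1, s2, s3]
  have s6 := integral_add i1 (i2.sub i3)
  have s7 := integral_sub i2 i3
  rw [s4, sub_self] at s7
  have s8 : ∫ x, (c.W.μ[fun w => f (c.π q w) | OO c q]) (c.Bc k x) *
      (ψ (c.A q x) * pr ρ ((univ.erase q).erase k) (c.A q x)) * h (c.Bc q x) ∂c.W2.μ = 0 := by
    rw [← s5]
    exact integral_congr_ae (Eventually.of_forall fun w => by ring)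
  simp only [Pi.sub_apply] at s6
  rw [s7, s8, add_zero] at s6
  rw [← s6]
  refine integral_congr_ae ?_
  filter_upwards [(embB q).mp.quasiMeasurePreserving.ae hKK] with x hx
  rw [hx]
  ring

end F2

theorem f2 : F2R := by
  intro fd c gi sat r2p q a ha
  have hO := F2.OO_le (c := c) fd q
  have hP := (F2.facP (c := c) fd q).le
  have hS := (F2.facS (c := c) fd).le
  have hD : c.P q ⊔ c.L.shp c.B ≤ c.W.ms := sup_le hP hS
  have hKa : BM c.W.μ (F2.OO c q) (c.W.μ[a | F2.OO c q]) := ha.ce _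
  have he : BM c.W.μ (c.P q ⊔ c.L.shp c.B) (c.W.μ[c.W.μ[a | F2.OO c q] | c.P q ⊔ c.L.shp c.B]) :=
    hKa.ce _
  obtain ⟨h, hh⟩ : ∃ h : c.W.X → ℂ, h = fun w => (c.W.μ[a | F2.OO c q]) w -
      (c.W.μ[c.W.μ[a | F2.OO c q] | c.P q ⊔ c.L.shp c.B]) w := ⟨_, rfl⟩
  have hhb : BM c.W.μ c.W.ms h := hh ▸ (hKa.mono hO).sub (he.mono hD)
  have hpD : Perp c.W.μ (c.P q ⊔ c.L.shp c.B) h := hh ▸ Fib27.perp_sub_ce hD (hKa.mono hO)
  have hk := F2.key fd gi sat r2p q ha hh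
  have hKh : BM c.W.μ (F2.OO c q) (c.W.μ[h | F2.OO c q]) := hhb.ce _
  have hb : BM c.W.μ (c.P q) (c.W.μ[c.W.μ[h | F2.OO c q] | c.P q]) := hKh.ce _
  have hb0 : ∀ᵐ w ∂c.W.μ, (c.W.μ[c.W.μ[h | F2.OO c q] | c.P q]) w = 0 := by
    refine Fib27.eq_zero_of_int_conj (hb.mono hP) ?_
    rw [Fib27.int_ce_mul hP (hKh.mono hO) hb.conj]
    have := congrArg (starRingEnd ℂ) (hk _ hKh.conj)
    rw [← integral_conj, map_zero] at this
    rw [← this]
    exact integral_congr_ae (Eventually.of_forall fun w => by simp [mul_comm])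
  have hh0 : ∀ᵐ w ∂c.W.μ, h w = 0 := by
    refine Fib27.eq_zero_of_int_conj hhb ?_
    have h1 : ∫ w, h w * conj ((c.W.μ[a | F2.OO c q]) w) ∂c.W.μ = 0 := by
      have e1 : ∫ w, h w * (c.W.μ[fun w => conj (a w) | F2.OO c q]) w ∂c.W.μ
          = ∫ w, h w * conj ((c.W.μ[a | F2.OO c q]) w) ∂c.W.μ :=
        integral_congr_ae ((Fib27.ce_conj hO (ha.mono hP)).mono fun w hw =>
          congrArg (h w * ·) hw)
      rw [← e1,
        ← Fib27.int_ce_symm hO hhb (ha.mono hP).conj,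
        ← Fib27.int_ce_mul hP (hKh.mono hO) ha.conj]
      exact integral_eq_zero_of_ae (hb0.mono fun w hw => by simp [hw])
    have h2 := hpD _ he.conj
    have h3 := integral_sub (hhb.mul (hKa.mono hO).conj).integrable
      (hhb.mul (he.mono hD).conj).integrable
    rw [h1, h2, sub_self] at h3
    rw [← h3]
    refine integral_congr_ae (Eventually.of_forall fun w => ?_)
    have : conj (h w) = conj ((c.W.μ[a | F2.OO c q]) w) -
        conj ((c.W.μ[c.W.μ[a | F2.OO c q] | c.P q ⊔ c.L.shp c.B]) w) := by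
      rw [hh, map_sub]
    simp only [this, mul_sub]
  refine (he.mono (sup_le_sup_left (F2.S_le_B2 fd) _)).congr ?_
  filter_upwards [hh0] with w hw
  rw [hh] at hw
  exact (sub_eq_zero.mp hw).symm

end T4x

end

end PkF2

section PkHG

/-! The grid is a half grid, and failure gives a nonzero common function (row HG). -/

set_option autoImplicit false
set_option linter.unusedVariables false
set_option linter.unusedSectionVars false
set_option warn.classDefReducibility false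

open MeasureTheory ProbabilityTheory Filter Topology Function Finset ComplexConjugate
open scoped BigOperators
open Fib27 (BM sup pr Oc Orow)

noncomputable section

namespace T4x

open T3x

variable [Grp]

namespace HGr

theorem pull_mono {Ω Ω' : Type} {B C : MeasurableSpace Ω'} {m0 : MeasurableSpace Ω}
    (μ : Measure Ω) (p : Ω → Ω') (h : B ≤ C) : pull μ p B ≤ pull μ p C :=
  sup_le_sup_right (MeasurableSpace.comap_mono h) _

theorem comap_le {Ω Ω' : Type} {m0 : MeasurableSpace Ω} {m0' : MeasurableSpace Ω'}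
    {μ : Measure Ω} {μ' : Measure Ω'} {p : Ω → Ω'} (h : MeasurePreserving p μ μ') :
    m0'.comap p ≤ m0 := h.measurable.comap_le

theorem mint {Ω Ω' : Type} {m0 : MeasurableSpace Ω} {m0' : MeasurableSpace Ω'}
    {μ : Measure Ω} {μ' : Measure Ω'} {p : Ω → Ω'} (h : MeasurePreserving p μ μ') {g : Ω' → ℂ}
    (hg : BM μ' m0' g) : ∫ x, g (p x) ∂μ = ∫ y, g y ∂μ' := by
  have m1 : AEStronglyMeasurable g (μ.map p) := by
    rw [h.map_eq]
    exact hg.1
  have m2 := integral_map h.measurable.aemeasurable m1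
  rw [h.map_eq] at m2
  exact m2.symm

theorem bmc (F : Fd) {Ω Ω' : Type} {m0 : MeasurableSpace Ω} {m0' : MeasurableSpace Ω'}
    {μ : Measure Ω} {μ' : Measure Ω'} {p : Ω → Ω'} (hp : MeasurePreserving p μ μ') {g : Ω' → ℂ}
    (hg : BM μ' m0' g) : BM μ m0 fun x => g (p x) :=
  (F.a.bm_comp m0' μ μ' p g hp hg).mono (F.a.pull_le m0' μ μ' p hp le_rfl)

theorem fct (F : Fd) {Ω Ω' : Type} (B : MeasurableSpace Ω') {m0 : MeasurableSpace Ω}
    {m0' : MeasurableSpace Ω'} {μ : Measure Ω} {μ' : Measure Ω'} {p : Ω → Ω'}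
    (hp : MeasurePreserving p μ μ') (hB : B ≤ m0') {a : Ω → ℂ} (ha : BM μ (pull μ p B) a) :
    ∃ g, BM μ' B g ∧ a =ᵐ[μ] fun x => g (p x) := by
  obtain ⟨m, C, hb⟩ := ha
  obtain ⟨g, g1, g2, g3⟩ := F.a.fact B μ p a (max C 0)
    ((MeasurableSpace.comap_mono hB).trans (comap_le hp)) (le_max_right _ _) m
    (hb.mono fun x hx => hx.trans (le_max_left _ _))
  exact ⟨g, ⟨g1.stronglyMeasurable.aestronglyMeasurable, _, Eventually.of_forall g2⟩, g3⟩

theorem pull_supf (F : Fd) {Ω Ω' ι : Type} (P : ι → MeasurableSpace Ω') (B : MeasurableSpace Ω')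
    (S : Finset ι) {m0 : MeasurableSpace Ω} (μ : Measure Ω) (p : Ω → Ω') :
    pull μ p (sup P S ⊔ B) = sup (fun k => pull μ p (P k)) S ⊔ pull μ p B := by
  rw [F.a.pull_sup]
  refine le_antisymm (sup_le (sup_le ?_ ?_) le_sup_right) (sup_le ?_ le_sup_right)
  · refine le_trans ?_ le_sup_left
    unfold Fib27.sup
    simp only [MeasurableSpace.comap_iSup]
    exact iSup₂_le fun k hk => le_trans le_sup_left (le_iSup₂_of_le k hk le_rfl)
  · exact le_trans le_sup_right le_sup_right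
  · exact le_trans (Fib27.sup_le' fun k hk => pull_mono μ p (Fib27.le_sup' P hk)) le_sup_left

/-- the conditional expectation on the other points and the base is computed in the line -/
theorem qq (F : Fd) {Ω Ω' ι : Type} (β : MeasurableSpace Ω) (P : ι → MeasurableSpace Ω')
    (B : MeasurableSpace Ω') (S : Finset ι) {m0 : MeasurableSpace Ω} {m0' : MeasurableSpace Ω'}
    (μ : Measure Ω) (μ' : Measure Ω') [IsProbabilityMeasure μ] [IsProbabilityMeasure μ']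
    (p : Ω → Ω') (hp : MeasurePreserving p μ μ') (hβ : β ≤ m0) (hP : ∀ k, P k ≤ m0') (hB : B ≤ m0')
    (hle : pull μ p B ≤ β)
    (hE : ∀ g, BM μ' m0' g → μ[fun x => g (p x) | β] =ᵐ[μ] fun x => (μ'[g | B]) (p x))
    (g : Ω' → ℂ) (hg : BM μ' m0' g) :
    μ[fun x => g (p x) | sup (fun k => pull μ p (P k)) S ⊔ β] =ᵐ[μ]
      fun x => (μ'[g | sup P S ⊔ B]) (p x) := by
  have cp : CP (pull μ p m0') (pull μ p B) β μ := by
    intro f hf
    obtain ⟨g', h1, h2⟩ := fct F m0' hp le_rfl hf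
    exact ((condExp_congr_ae h2).trans (hE g' h1)).trans
      ((condExp_congr_ae h2).trans (F.a.ce_comp B μ μ' p g' hp hB h1.integrable)).symm
  have d := F.c.drop (pull μ p m0') (pull μ p B) β (sup (fun k => pull μ p (P k)) S) μ
    (F.a.pull_le m0' μ μ' p hp le_rfl) hβ hle (pull_mono μ p hB)
    (Fib27.sup_le' fun k _ => pull_mono μ p (hP k)) cp _ (F.a.bm_comp m0' μ μ' p g hp hg)
  rw [← pull_supf F] at d
  exact d.trans (F.a.ce_comp _ μ μ' p g hp (sup_le (Fib27.sup_le' fun k _ => hP k) hB)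
    hg.integrable)

theorem f2g (F : Fd) {Ω Ω' ι : Type} (β : MeasurableSpace Ω) (P : ι → MeasurableSpace Ω')
    (B : MeasurableSpace Ω') (S : Finset ι) {m0 : MeasurableSpace Ω} {m0' : MeasurableSpace Ω'}
    (μ : Measure Ω) (μ' : Measure Ω') [IsProbabilityMeasure μ] [IsProbabilityMeasure μ']
    (p : Ω → Ω') (hp : MeasurePreserving p μ μ') (hβ : β ≤ m0) (hP : ∀ k, P k ≤ m0') (hB : B ≤ m0')
    (hle : pull μ p B ≤ β)
    (hE : ∀ g, BM μ' m0' g → μ[fun x => g (p x) | β] =ᵐ[μ] fun x => (μ'[g | B]) (p x)) (j : ι)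
    (h2 : ∀ a, BM μ' (P j) a → BM μ' (P j ⊔ B) (μ'[a | sup P S ⊔ B])) (a : Ω → ℂ)
    (ha : BM μ (pull μ p (P j)) a) :
    BM μ (pull μ p (P j) ⊔ β) (μ[a | sup (fun k => pull μ p (P k)) S ⊔ β]) := by
  obtain ⟨g, g1, g2⟩ := fct F (P j) hp (hP j) ha
  have h3 := F.a.bm_comp (P j ⊔ B) μ μ' p _ hp (h2 g g1)
  rw [F.a.pull_sup] at h3
  exact (h3.mono (sup_le_sup_left hle _)).congr ((condExp_congr_ae g2).trans
    (qq F β P B S μ μ' p hp hβ hP hB hle hE g (g1.mono (hP j)))).symm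

variable (c : Ctx)

theorem mA (q : c.ι) : MeasurePreserving (c.A q) c.W2.μ c.W.μ := (c.L2.emb (c.sl q)).mp

theorem mB (j : c.ι) : MeasurePreserving (c.Bc j) c.W2.μ c.W.μ := (c.lift j).emb.mp

theorem mπ (k : c.ι) : MeasurePreserving (c.π k) c.W.μ c.X.μ := (c.L.emb (c.sl k)).mp

theorem P_le (F : Fd) (k : c.ι) : c.P k ≤ c.W.ms :=
  F.a.pull_le c.X.ms c.W.μ c.X.μ (c.π k) (mπ c k) le_rfl

theorem facB2 (F : Fd) : Fac c.W c.B2 := (F.h.kc _ _ c.L.nice (F.lb.fac c.L c.B c.kc.1)).1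

theorem β_le (F : Fd) : c.β ≤ c.W2.ms :=
  (F.h.kc _ _ c.L2.nice (F.lb.fac c.L2 c.B2 (facB2 c F))).1.le

theorem OB_eq (j : c.ι) : c.L.OB c.B c.sl j = sup c.P (univ.erase j) ⊔ c.B2 := rfl

theorem OB_le (F : Fd) (j : c.ι) : c.L.OB c.B c.sl j ≤ c.W.ms :=
  sup_le (Fib27.sup_le' fun k _ => P_le c F k) (facB2 c F).le

theorem G_row (F : Fd) (q : c.ι) : c.G q = fun k => pull c.W2.μ (c.A q) (c.P k) :=
  funext fun k => (F.a.pull_comp c.X.ms c.W2.μ c.W.μ (c.A q) (c.π k) (mA c q)).symm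

theorem G_col1 (F : Fd) (h : c.GI) (q j : c.ι) : c.G q j = pull c.W2.μ (c.Bc j) (c.P q) :=
  (F.a.keq_pull c.X.ms c.W2.μ _ _ (comap_le ((mπ c j).comp (mA c q)))
    (comap_le ((mπ c q).comp (mB c j))) (h.col q j)).trans
    (F.a.pull_comp c.X.ms c.W2.μ c.W.μ (c.Bc j) (c.π q) (mB c j)).symm

theorem G_col (F : Fd) (h : c.GI) (j : c.ι) :
    (fun q => c.G q j) = fun k => pull c.W2.μ (c.Bc j) (c.P k) :=
  funext fun k => G_col1 c F h k j

theorem G_le (F : Fd) (q j : c.ι) : c.G q j ≤ c.W2.ms :=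
  F.a.pull_le c.X.ms c.W2.μ c.X.μ _ ((mπ c j).comp (mA c q)) le_rfl

theorem qc (F : Fd) (h : c.GI) (q j : c.ι) (g : c.W.X → ℂ) (hg : BM c.W.μ c.W.ms g) :
    c.W2.μ[fun x => g (c.Bc j x) | Oc c.G q j ⊔ c.β] =ᵐ[c.W2.μ]
      fun x => (c.W.μ[g | c.L.OB c.B c.sl q]) (c.Bc j x) := by
  unfold Oc
  rw [G_col c F h, OB_eq]
  exact qq F c.β c.P c.B2 _ c.W2.μ c.W.μ (c.Bc j) (mB c j) (β_le c F) (P_le c F) (facB2 c F).le
    (h.colB j) (h.colE j) g hg

theorem qr (F : Fd) (h : c.GI) (q j : c.ι) (g : c.W.X → ℂ) (hg : BM c.W.μ c.W.ms g) :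
    c.W2.μ[fun x => g (c.A q x) | Orow c.G q j ⊔ c.β] =ᵐ[c.W2.μ]
      fun x => (c.W.μ[g | c.L.OB c.B c.sl j]) (c.A q x) := by
  unfold Orow
  rw [G_row c F, OB_eq]
  exact qq F c.β c.P c.B2 _ c.W2.μ c.W.μ (c.A q) (mA c q) (β_le c F) (P_le c F) (facB2 c F).le
    (h.rowB q) (h.rowE q) g hg

theorem half (F : Fd) (h : c.GI) (h2 : c.F2) (h3 : c.F3) : HG c.β c.G c.W2.μ where
  le := G_le c F
  ble := β_le c F
  rows := fun S hS f hf => h.rows S hS f fun k hk => (hf k hk).mono (by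
    beta_reduce
    rw [G_row c F]
    exact Fib27.sup_le' fun i _ => pull_mono _ _ (P_le c F i))
  cols := fun S hS f hf => h.cols S hS f fun k hk => (hf k hk).mono (by
    beta_reduce
    rw [G_col c F h]
    exact Fib27.sup_le' fun i _ => pull_mono _ _ (P_le c F i))
  f2c := fun q j a ha => by
    unfold Oc
    rw [G_col c F h]
    rw [G_col1 c F h] at ha ⊢
    exact f2g F c.β c.P c.B2 _ c.W2.μ c.W.μ (c.Bc j) (mB c j) (β_le c F) (P_le c F) (facB2 c F).le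
      (h.colB j) (h.colE j) q (h2 q) a ha
  f2r := fun q j a ha => by
    unfold Orow
    rw [G_row c F] at ha ⊢
    exact f2g F c.β c.P c.B2 _ c.W2.μ c.W.μ (c.A q) (mA c q) (β_le c F) (P_le c F) (facB2 c F).le
      (h.rowB q) (h.rowE q) j (h2 j) a ha
  f3 := h3

/-- one slot may be replaced by its mean when the functions of mean zero are invisible -/
theorem repl (F : Fd) (hz : ∀ (j : c.ι) (f : c.X.X → ℂ), BM c.X.μ c.X.ms f →
      c.X.μ[f | c.B] =ᵐ[c.X.μ] 0 → c.W.μ[fun w => f (c.π j w) | c.L.OB c.B c.sl j] =ᵐ[c.W.μ] 0)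
    (g : c.ι → c.X.X → ℂ) (hg : ∀ i, BM c.X.μ c.X.ms (g i)) (j : c.ι) :
    c.W.μ[fun w => ∏ i, g i (c.π i w) | c.L.shp c.B] =ᵐ[c.W.μ]
      c.W.μ[fun w => ∏ i, update g j (c.X.μ[g j | c.B]) i (c.π i w) | c.L.shp c.B] := by
  have hB := c.kc.1.le
  have b0 : BM c.X.μ c.X.ms (c.X.μ[g j | c.B]) := ((hg j).ce c.B).mono hB
  have b1 := (hg j).sub b0
  have z1 : c.X.μ[fun x => g j x - (c.X.μ[g j | c.B]) x | c.B] =ᵐ[c.X.μ] 0 := by
    filter_upwards [Fib27.ce_sub (hg j) b0 c.B, Fib27.BM.ce_self hB ((hg j).ce c.B)] with x h1 h2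
    rw [h1, h2, sub_self]
    rfl
  have z2 := hz j _ b1 z1
  have b2 : BM c.W.μ (c.L.OB c.B c.sl j) (pr (fun i w => g i (c.π i w)) (univ.erase j)) :=
    (Fib27.BM.pr_sup (p := c.P) fun k _ =>
      F.a.bm_comp c.X.ms c.W.μ c.X.μ (c.π k) (g k) (mπ c k) (hg k)).mono le_sup_left
  have hO := OB_le c F j
  have hs : c.L.shp c.B ≤ c.L.OB c.B c.sl j := (F.h.le _ _).trans le_sup_right
  have b3 := bmc F (mπ c j) b1
  have z3 : c.W.μ[fun w => (g j (c.π j w) - (c.X.μ[g j | c.B]) (c.π j w)) *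
      pr (fun i w => g i (c.π i w)) (univ.erase j) w | c.L.OB c.B c.sl j] =ᵐ[c.W.μ] 0 := by
    filter_upwards [Fib27.ce_mul' hO b3 b2, z2] with w h1 h2
    rw [h1, h2]
    simp
  have z4 : c.W.μ[fun w => (g j (c.π j w) - (c.X.μ[g j | c.B]) (c.π j w)) *
      pr (fun i w => g i (c.π i w)) (univ.erase j) w | c.L.shp c.B] =ᵐ[c.W.μ] 0 := by
    refine (condExp_condExp_of_le hs hO).symm.trans ((condExp_congr_ae z3).trans ?_)
    rw [condExp_zero]
  have e1 : (fun w => ∏ i, g i (c.π i w)) = fun w => g j (c.π j w) *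
      pr (fun i w => g i (c.π i w)) (univ.erase j) w :=
    funext fun w => (Finset.mul_prod_erase univ (fun i => g i (c.π i w)) (mem_univ j)).symm
  have e2 : (fun w => ∏ i, update g j (c.X.μ[g j | c.B]) i (c.π i w)) =
      fun w => (c.X.μ[g j | c.B]) (c.π j w) * pr (fun i w => g i (c.π i w)) (univ.erase j) w := by
    funext w
    rw [← Finset.mul_prod_erase univ _ (mem_univ j), update_self]
    congr 1
    exact Finset.prod_congr rfl fun i hi => by rw [update_of_ne (Finset.ne_of_mem_erase hi)]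
  rw [e1, e2]
  have b4 := (bmc F (mπ c j) (hg j)).mul (b2.mono hO)
  have b5 := (bmc F (mπ c j) b0).mul (b2.mono hO)
  filter_upwards [Fib27.ce_sub b4 b5 (c.L.shp c.B), z4] with w h1 h2
  simp only [← sub_mul] at h1
  rw [h1] at h2
  exact sub_eq_zero.1 h2

theorem vis (F : Fd) (hf : c.Fail) : ∃ (j : c.ι) (f : c.X.X → ℂ), BM c.X.μ c.X.ms f ∧
    c.X.μ[f | c.B] =ᵐ[c.X.μ] 0 ∧
    ¬ c.W.μ[fun w => f (c.π j w) | c.L.OB c.B c.sl j] =ᵐ[c.W.μ] 0 := by
  by_contra hn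
  push Not at hn
  refine hf fun f hf => ?_
  have hB := c.kc.1.le
  have b0 : ∀ i, BM c.X.μ c.B (c.X.μ[f i | c.B]) := fun i => (hf i (mem_univ i)).ce c.B
  have ind : ∀ S : Finset c.ι, c.W.μ[fun w => ∏ i, f i (c.π i w) | c.L.shp c.B] =ᵐ[c.W.μ]
      c.W.μ[fun w => ∏ i, S.piecewise (fun i => c.X.μ[f i | c.B]) f i (c.π i w) | c.L.shp c.B] := by
    intro S
    induction S using Finset.induction_on with
    | empty => simp only [Finset.piecewise_empty]; rfl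
    | insert j S hj ih =>
      have r := repl c F hn (S.piecewise (fun i => c.X.μ[f i | c.B]) f) (fun i => by
        by_cases hi : i ∈ S
        · rw [Finset.piecewise_eq_of_mem _ _ _ hi]; exact (b0 i).mono hB
        · rw [Finset.piecewise_eq_of_notMem _ _ _ hi]; exact hf i (mem_univ i)) j
      rw [Finset.piecewise_eq_of_notMem _ _ _ hj] at r
      rw [Finset.piecewise_insert]
      exact ih.trans r
  have h1 := ind univ
  simp only [Finset.piecewise_univ] at h1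
  refine h1.trans (Fib27.BM.ce_self (F.lb.fac c.L c.B c.kc.1).le ?_)
  exact Fib27.BM.pr (ρ := fun i w => (c.X.μ[f i | c.B]) (c.π i w)) (S := univ) fun k _ =>
    (F.a.bm_comp c.B c.W.μ c.X.μ (c.π k) _ (mπ c k) (b0 k)).mono
      (F.lb.slot c.L c.B (c.sl k) c.kc.1)

/-- the row and the column versions of a visible function are correlated -/
theorem corr (F : Fd) (h : c.GI) (j : c.ι) (k : c.W.X → ℂ) (hk : BM c.W.μ c.W.ms k)
    (hz : ∫ x, k (c.Bc j x) * conj (k (c.A j x)) ∂c.W2.μ = 0) : c.W.μ[k | c.P j] =ᵐ[c.W.μ] 0 := by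
  have hP := P_le c F j
  obtain ⟨g0, g1, g2⟩ := fct F c.X.ms (mπ c j) le_rfl (hk.conj.ce (c.P j))
  have cs := F.ld.cs c.L2 c.L (c.π j) (c.Bc j) (c.sl j) (c.L.emb (c.sl j)) (c.lift j) _ g0 hk.conj
    g1 g2.symm
  have e1 : (fun x => g0 (c.π j (c.A j x))) =ᵐ[c.W2.μ] fun x => g0 (c.π j (c.Bc j x)) :=
    F.a.keq_fun c.X.ms c.W2.μ c.X.μ (c.π j ∘ c.A j) (c.π j ∘ c.Bc j) g0 ((mπ c j).comp (mA c j))
      ((mπ c j).comp (mB c j)) (h.col j j) g1.1
  have e2 := Fib27.int_mul_ce (F.a.pull_le c.W.ms c.W2.μ c.W.μ (c.Bc j) (mB c j) le_rfl)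
    (F.a.bm_comp c.W.ms c.W2.μ c.W.μ (c.Bc j) k (mB c j) hk) (bmc F (mA c j) hk.conj)
  have e3 : ∫ x, k (c.Bc j x) * g0 (c.π j (c.Bc j x)) ∂c.W2.μ = 0 := by
    rw [← hz, ← e2]
    refine integral_congr_ae ?_
    filter_upwards [cs, e1] with x h1 h2
    rw [← h2]
    exact congrArg _ h1.symm
  rw [mint (mB c j) (hk.mul (bmc F (mπ c j) g1))] at e3
  refine Fib27.eq_zero_of_int_conj ((hk.ce (c.P j)).mono hP) ?_
  rw [Fib27.int_ce_mul hP hk (hk.ce (c.P j)).conj, ← e3]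
  refine integral_congr_ae ?_
  filter_upwards [g2, Fib27.ce_conj hP hk] with w h1 h2
  rw [← h1, h2]

theorem four (F : Fd) (h : c.GI) (X : HGX c.β c.G c.W2.μ) (hf : c.Fail) :
    ∃ (j : c.ι) (u : c.W2.X → ℂ), VV c.β c.G j j c.W2.μ u ∧ ¬ u =ᵐ[c.W2.μ] 0 ∧
      c.W2.μ[u | c.β] =ᵐ[c.W2.μ] 0 := by
  obtain ⟨j, f, f1, f2, f3⟩ := vis c F hf
  by_contra hn
  apply f3
  have hβ := β_le c F
  have hG : ∀ i, c.G j i ⊔ c.β ≤ c.W2.ms := fun i => sup_le (G_le c F j i) hβ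
  obtain ⟨i, hi⟩ : ∃ i : c.ι, i ≠ j := Fintype.exists_ne_of_one_lt_card (by have := c.three; omega) j
  have b0 : BM c.W.μ c.W.ms fun w => f (c.π j w) := bmc F (mπ c j) f1
  have b1 : BM c.W2.μ (c.G j j) fun x => f (c.π j (c.A j x)) :=
    F.a.bm_comp c.X.ms c.W2.μ c.X.μ (c.π j ∘ c.A j) f ((mπ c j).comp (mA c j)) f1
  have b2 := b1.mono (le_sup_left (b := c.β))
  have e1 : (fun x => f (c.π j (c.A j x))) =ᵐ[c.W2.μ] fun x => f (c.π j (c.Bc j x)) :=
    F.a.keq_fun c.X.ms c.W2.μ c.X.μ (c.π j ∘ c.A j) (c.π j ∘ c.Bc j) f ((mπ c j).comp (mA c j))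
      ((mπ c j).comp (mB c j)) (h.col j j) f1.1
  have z0 : c.W.μ[fun w => f (c.π j w) | c.B2] =ᵐ[c.W.μ] 0 := by
    have hne : ({j} : Finset c.ι) ≠ univ := fun e => hi (mem_singleton.1 (e ▸ mem_univ i))
    have l := h.line {j} hne (fun _ => f) fun _ _ => f1
    simp only [Finset.prod_singleton] at l
    exact l.trans ((mπ c j).quasiMeasurePreserving.ae_eq_comp f2)
  have z1 : c.W2.μ[fun x => f (c.π j (c.A j x)) | c.β] =ᵐ[c.W2.μ] 0 :=
    (h.rowE j _ b0).trans ((mA c j).quasiMeasurePreserving.ae_eq_comp z0)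
  have hOc : Oc c.G j j ⊔ c.β ≤ c.W2.ms := sup_le (Fib27.sup_le' fun k _ => G_le c F k j) hβ
  have perp : Fib27.Perp c.W2.μ (sup (fun i => c.G j i ⊔ c.β) (univ.erase j))
      (c.W2.μ[fun x => f (c.π j (c.A j x)) | Oc c.G j j ⊔ c.β]) := by
    refine Fib27.perp_pr hG ((b1.ce _).mono hOc) fun ρ hρ => ?_
    have ha := Fib27.bm_update hρ b2
    have t := X.f3 j _ ha j i
    rw [update_self, Fib27.pr_update ρ (notMem_erase j univ)] at t
    rw [t]
    generalize hA : update ρ j (fun x => f (c.π j (c.A j x))) = a at ha ⊢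
    have aj : a j = fun x => f (c.π j (c.A j x)) := by rw [← hA, update_self]
    have ha' := Fib27.bm_update ha (X.f2c j i (a i) (ha i))
    generalize hA' : update a i (c.W2.μ[a i | Oc c.G j i ⊔ c.β]) = a' at ha'
    have ai : a' i = c.W2.μ[a i | Oc c.G j i ⊔ c.β] := by rw [← hA', update_self]
    have aj' : a' j = fun x => f (c.π j (c.A j x)) := by rw [← hA', update_of_ne hi.symm, aj]
    have pi : pr a' (univ.erase i) = pr a (univ.erase i) := by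
      rw [← hA', Fib27.pr_update a (notMem_erase i univ)]
    have v := X.dual j j i a' hi.symm ha' (by rw [ai]; exact (ha i).ce _)
    have bp : BM c.W2.μ c.W2.ms (pr a' (univ.erase j)) :=
      Fib27.BM.pr fun k _ => (ha' k).mono (hG k)
    generalize hu : c.W2.μ[pr a' (univ.erase j) | c.G j j ⊔ c.β] = u at v
    have bu := v.1.mono (hG j)
    have bE : BM c.W2.μ c.β (c.W2.μ[u | c.β]) := bu.ce c.β
    have u0 : (fun x => u x - (c.W2.μ[u | c.β]) x) =ᵐ[c.W2.μ] 0 := by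
      by_contra hne
      refine hn ⟨j, _, ⟨v.1.sub (bE.mono le_sup_right), v.2.1.sub (bE.mono le_sup_right),
        v.2.2.sub (bE.mono le_sup_right)⟩, hne, ?_⟩
      filter_upwards [Fib27.ce_sub bu (bE.mono hβ) c.β, Fib27.BM.ce_self hβ bE] with x h1 h2
      rw [h1, h2, sub_self]
      rfl
    have s1 : ∫ x, (c.W2.μ[a i | Oc c.G j i ⊔ c.β]) x * pr a (univ.erase i) x ∂c.W2.μ =
        ∫ x, f (c.π j (c.A j x)) * pr a' (univ.erase j) x ∂c.W2.μ := by
      refine integral_congr_ae (Eventually.of_forall fun x => ?_)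
      have p1 := Fib27.pr_erase a' (mem_univ i) x
      have p2 := Fib27.pr_erase a' (mem_univ j) x
      rw [ai, pi] at p1
      rw [aj'] at p2
      exact p1.symm.trans p2
    rw [s1, ← Fib27.int_mul_ce (hG j) b2 bp, hu]
    have s2 : ∫ x, f (c.π j (c.A j x)) * u x ∂c.W2.μ =
        ∫ x, f (c.π j (c.A j x)) * (c.W2.μ[u | c.β]) x ∂c.W2.μ := by
      refine integral_congr_ae ?_
      filter_upwards [u0] with x hx
      rw [sub_eq_zero.1 hx]
    rw [s2, ← Fib27.int_ce_mul hβ (b2.mono (hG j)) bE]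
    refine integral_eq_zero_of_ae ?_
    filter_upwards [z1] with x hx
    rw [hx]
    simp
  have hle : Orow c.G j j ⊔ c.β ≤ sup (fun i => c.G j i ⊔ c.β) (univ.erase j) :=
    sup_le (Fib27.sup_mono'' subset_rfl fun k _ => le_sup_left)
      (le_trans le_sup_right (Fib27.le_sup' (fun i => c.G j i ⊔ c.β)
        (mem_erase.2 ⟨hi, mem_univ i⟩)))
  have p0 := perp _ ((b1.ce (Orow c.G j j ⊔ c.β)).conj.mono hle)
  have hO := OB_le c F j
  have bk := b0.ce (c.L.OB c.B c.sl j)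
  have k0 := corr c F h j _ (bk.mono hO) (by
    rw [← p0]
    refine integral_congr_ae ?_
    filter_upwards [(condExp_congr_ae e1).trans (qc c F h j j _ b0), qr c F h j j _ b0]
      with x h1 h2
    rw [h1, h2])
  refine Fib27.eq_zero_of_int_conj (bk.mono hO) ?_
  have bP : BM c.W.μ (c.P j) fun w => f (c.π j w) :=
    F.a.bm_comp c.X.ms c.W.μ c.X.μ (c.π j) f (mπ c j) f1
  have s3 := Fib27.int_mul_ce hO bk b0.conj
  have s4 := Fib27.int_ce_mul (P_le c F j) (bk.mono hO) bP.conj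
  have s5 : ∫ w, (c.W.μ[c.W.μ[fun w => f (c.π j w) | c.L.OB c.B c.sl j] | c.P j]) w *
      conj (f (c.π j w)) ∂c.W.μ = 0 := by
    refine integral_eq_zero_of_ae ?_
    filter_upwards [k0] with x hx
    rw [hx]
    simp
  rw [← s5, s4, ← s3]
  refine integral_congr_ae ?_
  filter_upwards [Fib27.ce_conj hO b0] with w hw
  rw [hw]

end HGr

theorem hg : HGR := fun F X c h h2 h3 =>
  ⟨HGr.half c F h h2 h3, HGr.four c F h (X c.β c.G c.W2.μ (HGr.half c F h h2 h3))⟩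

end T4x

end

end PkHG

section PkGSp1

/-! Row GSp1: the members of column tuples span. -/

set_option autoImplicit false
set_option linter.unusedVariables false
set_option warn.classDefReducibility false

open MeasureTheory ProbabilityTheory Filter Topology Function Finset ComplexConjugate
open scoped BigOperators
open Fib27 (BM sup pr Oc Orow F23 LInd Mem)

noncomputable section

namespace T4x

open T3x

namespace GSp1P

theorem bm_sq {Ω : Type} {m m0 : MeasurableSpace Ω} {μ : Measure Ω} {a b : Ω → ℂ}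
    (ha : BM μ m a) (hb : BM μ m b) : BM μ m fun x => ((‖a x - b x‖ ^ 2 : ℝ) : ℂ) :=
  ((ha.sub hb).mul (ha.sub hb).conj).congr (Eventually.of_forall fun x => by
    simp only [Complex.mul_conj, Complex.normSq_eq_norm_sq])

theorem int_of_bm {Ω : Type} {m0 : MeasurableSpace Ω} {μ : Measure Ω} [IsProbabilityMeasure μ]
    {r : Ω → ℝ} (hr : BM μ m0 fun x => (r x : ℂ)) : Integrable r μ := by
  simpa using hr.integrable.re

theorem est {Ω : Type} {β m0 : MeasurableSpace Ω} (μ : Measure Ω) [IsProbabilityMeasure μ]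
    (hβ : β ≤ m0) {h a b : Ω → ℂ} {C η : ℝ} (hh : BM μ m0 h) (ha : BM μ m0 a) (hb : BM μ m0 b)
    (hC0 : 0 ≤ C) (hη : 0 < η) (hC : ∀ᵐ x ∂μ, ‖h x‖ ≤ C) :
    ∀ᵐ x ∂μ, (μ[fun y => ‖a y - b y‖ ^ 2 | β]) x ≤ η ^ 2 →
      C * η < ‖(μ[fun y => h y * conj (b y) | β]) x‖ → (μ[fun y => h y * conj (a y) | β]) x ≠ 0 := by
  have hi : Integrable (fun y => ‖a y - b y‖ ^ 2) μ := int_of_bm (bm_sq ha hb)
  have hd : BM μ m0 fun y => h y * conj (b y) - h y * conj (a y) :=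
    (hh.mul hb.conj).sub (hh.mul ha.conj)
  have h1 := norm_condExp_le (μ := μ) (m := β) fun y => h y * conj (b y) - h y * conj (a y)
  have h2 : μ[fun y => ‖h y * conj (b y) - h y * conj (a y)‖ | β] ≤ᵐ[μ]
      μ[(fun _ => C * η / 2) + (C / (2 * η)) • fun y => ‖a y - b y‖ ^ 2 | β] := by
    refine condExp_mono hd.integrable.norm ((integrable_const _).add (hi.smul _)) ?_
    filter_upwards [hC] with y hy
    have e : ‖h y * conj (b y) - h y * conj (a y)‖ = ‖h y‖ * ‖a y - b y‖ := by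
      rw [← mul_sub, ← map_sub, norm_mul, Complex.norm_conj, norm_sub_rev]
    simp only [Pi.add_apply, Pi.smul_apply, smul_eq_mul]
    rw [e]
    have h3 : ‖a y - b y‖ ≤ η / 2 + ‖a y - b y‖ ^ 2 / (2 * η) := by
      rw [← sub_nonneg]
      have : η / 2 + ‖a y - b y‖ ^ 2 / (2 * η) - ‖a y - b y‖ = (η - ‖a y - b y‖) ^ 2 / (2 * η) := by
        field_simp; ring
      rw [this]; positivity
    calc ‖h y‖ * ‖a y - b y‖ ≤ C * (η / 2 + ‖a y - b y‖ ^ 2 / (2 * η)) :=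
          mul_le_mul hy h3 (norm_nonneg _) hC0
      _ = _ := by ring
  have h3 := condExp_add (μ := μ) (integrable_const (C * η / 2)) (hi.smul (C / (2 * η))) β
  have h4 := condExp_smul (μ := μ) (C / (2 * η)) (fun y => ‖a y - b y‖ ^ 2) β
  filter_upwards [h1, h2, h3, h4, Fib27.ce_sub (hh.mul hb.conj) (hh.mul ha.conj) β]
    with x h1 h2 h3 h4 h5 hx hlt h0
  rw [h5, h0, sub_zero] at h1
  rw [h3, Pi.add_apply, h4, condExp_const hβ, Pi.smul_apply, smul_eq_mul] at h2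
  have h6 : C / (2 * η) * (μ[fun y => ‖a y - b y‖ ^ 2 | β]) x ≤ C / (2 * η) * η ^ 2 :=
    mul_le_mul_of_nonneg_left hx (by positivity)
  have h7 : C / (2 * η) * η ^ 2 = C * η / 2 := by field_simp
  linarith

theorem ce_real {Ω Ω' : Type} {β m0 : MeasurableSpace Ω} {β' m0' : MeasurableSpace Ω'}
    {μ : Measure Ω} {μ' : Measure Ω'} [IsProbabilityMeasure μ] [IsProbabilityMeasure μ']
    {p : Ω → Ω'} (hp : MeasurePreserving p μ μ')
    (hE : ∀ g, BM μ' m0' g → μ[fun x => g (p x) | β] =ᵐ[μ] fun x => (μ'[g | β']) (p x))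
    {r : Ω' → ℝ} (hr : BM μ' m0' fun x => (r x : ℂ)) :
    μ[fun x => r (p x) | β] =ᵐ[μ] fun x => (μ'[r | β']) (p x) := by
  have i1 := int_of_bm hr
  have i2 : Integrable (fun x => r (p x)) μ := hp.integrable_comp_of_integrable i1
  filter_upwards [Complex.ofRealCLM.comp_condExp_comm (m := β) i2, hE _ hr,
    hp.quasiMeasurePreserving.ae (Complex.ofRealCLM.comp_condExp_comm (m := β') i1)]
    with x h1 h2 h3
  have : (((μ[fun x => r (p x) | β]) x : ℝ) : ℂ) = (((μ'[r | β']) (p x) : ℝ) : ℂ) :=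
    h1.trans (h2.trans h3.symm)
  exact_mod_cast this

theorem Lb_bm {Ω : Type} {m m0 : MeasurableSpace Ω} {μ : Measure Ω} {v : Ω → ℂ}
    (h : Lb m μ v) : BM μ m v := ⟨h.1, 1, Eventually.of_forall h.2⟩

theorem bm_up {Ω Ω' : Type} {m0 : MeasurableSpace Ω} {m0' : MeasurableSpace Ω'}
    {μ : Measure Ω} {μ' : Measure Ω'} {p : Ω → Ω'} (hp : MeasurePreserving p μ μ') {g : Ω' → ℂ}
    (hg : BM μ' m0' g) : BM μ m0 fun x => g (p x) := by
  obtain ⟨h1, C, hC⟩ := hg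
  exact ⟨h1.comp_measurePreserving hp, C, hp.quasiMeasurePreserving.ae hC⟩

/-- transfer along a map that commutes with the conditional expectations -/
theorem main {Ω Ω' ι : Type} [Fintype ι] [DecidableEq ι] {β m0 : MeasurableSpace Ω}
    {β' m0' : MeasurableSpace Ω'} {μ : Measure Ω} {μ' : Measure Ω'} [IsProbabilityMeasure μ]
    [IsProbabilityMeasure μ'] (rc : Rc) {p : Ω → Ω'} (hp : MeasurePreserving p μ μ')
    (hβ : β ≤ m0) (hβ' : β' ≤ m0')
    (hE : ∀ g, BM μ' m0' g → μ[fun x => g (p x) | β] =ᵐ[μ] fun x => (μ'[g | β']) (p x))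
    {v : ℕ → ι → Ω → ℂ} {v0 : ι → Ω → ℂ} {w : ℕ → ι → Ω' → ℂ} {w0 φ : ι → Ω' → ℂ} {η C : ℝ}
    {h : Ω → ℂ} (q : ι) (hw : ∀ i k, BM μ' m0' (w i k)) (hw0 : ∀ k, BM μ' m0' (w0 k))
    (hv : ∀ i k, v i k =ᵐ[μ] fun x => w i k (p x)) (hv0 : ∀ k, v0 k =ᵐ[μ] fun x => w0 k (p x))
    (hφ : ∀ k, Um m0' μ' (φ k)) (hh : BM μ m0 h) (hC0 : 0 ≤ C) (hη : 0 < η)
    (hC : ∀ᵐ x ∂μ, ‖h x‖ ≤ C)
    (hs : ∀ᵐ x ∂μ', x ∈ DS β' μ' w w0 η → x ∈ Th β' μ' (pr φ univ) ∧
      (μ'[fun y => ‖φ q y - w0 q y‖ ^ 2 | β']) x ≤ η ^ 2) :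
    (DS β μ v v0 η ∩ {x | C * η < ‖(μ[fun y => h y * conj (v0 q y) | β]) x‖} : Set Ω) ≤ᵐ[μ]
      (p ⁻¹' Th β' μ' (pr (fun k y => conj (φ k y)) univ) ∩
        {x | (μ[fun y => h y * conj (φ q (p y)) | β]) x ≠ 0} : Set Ω) := by
  have hφb : ∀ k, BM μ' m0' (φ k) := fun k => Fib27.BM.of_uni (hφ k).1 (hφ k).2
  have a1 : ∀ i, μ[pr (v i) univ | β] =ᵐ[μ] fun x => (μ'[pr (w i) univ | β']) (p x) := fun i =>
    (condExp_congr_ae (Fib27.pr_congr_ae (ρ' := fun k x => w i k (p x)) fun k _ => hv i k)).trans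
      (hE (pr (w i) univ) (Fib27.BM.pr fun k _ => hw i k))
  have a2 : ∀ i k, μ[fun y => ‖v i k y - v0 k y‖ ^ 2 | β] =ᵐ[μ]
      fun x => (μ'[fun y => ‖w i k y - w0 k y‖ ^ 2 | β']) (p x) := fun i k => by
    refine EventuallyEq.trans (condExp_congr_ae ?_) (ce_real hp hE (bm_sq (hw i k) (hw0 k)))
    filter_upwards [hv i k, hv0 k] with y h1 h2
    rw [h1, h2]
  have a3 := ce_real hp hE (bm_sq (hφb q) (hw0 q))
  have hU : Um m0' μ' (pr φ univ) := ⟨(Fib27.BM.pr fun k _ => hφb k).1, by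
    filter_upwards [ae_all_iff.2 fun k => (hφ k).2] with y hy
    simp [pr, hy]⟩
  have a4 := rc.cj β' μ' (pr φ univ) hβ' hU
  have e4 : (fun x => conj (pr φ univ x)) = pr (fun k y => conj (φ k y)) univ :=
    funext fun x => (Fib27.pr_conj φ univ x).symm
  rw [e4] at a4
  have a5 := est μ hβ hh (bm_up hp (hφb q)) (bm_up hp (hw0 q)) hC0 hη hC
  have a6 : μ[fun y => h y * conj (v0 q y) | β] =ᵐ[μ] μ[fun y => h y * conj (w0 q (p y)) | β] := by
    refine condExp_congr_ae ?_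
    filter_upwards [hv0 q] with y h1
    rw [h1]
  filter_upwards [ae_all_iff.2 a1, ae_all_iff.2 fun i => ae_all_iff.2 (a2 i), a3,
    hp.quasiMeasurePreserving.ae a4, a5, a6, hp.quasiMeasurePreserving.ae hs]
    with x a1 a2 a3 a4 a5 a6 hs hx
  obtain ⟨hx1, hx2⟩ := hx
  have hD : p x ∈ DS β' μ' w w0 η := by
    refine Set.mem_iInter.2 fun n => ?_
    obtain ⟨i, hi1, hi2⟩ := Set.mem_iUnion.1 (Set.mem_iInter.1 hx1 n)
    refine Set.mem_iUnion.2 ⟨i, ?_, fun k => ?_⟩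
    · rw [← a1 i]; exact hi1
    · rw [← a2 i k]; exact hi2 k
  obtain ⟨h1, h2⟩ := hs hD
  refine ⟨?_, a5 (by rw [a3]; exact h2) ?_⟩
  · exact (iff_of_eq a4).2 h1
  · rw [← a6]; exact hx2

end GSp1P

variable [Grp]

theorem gsp1 : GSp1R := by
  intro fd rc sel gg c gi hg q j h hV h0
  obtain ⟨C0, hC0⟩ := hV.1.2
  have hC : ∀ᵐ x ∂c.W2.μ, ‖h x‖ ≤ max C0 0 := hC0.mono fun x hx => hx.trans (le_max_left _ _)
  obtain ⟨v, v0, η, hv, hv0, hη, hη', hpos⟩ :=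
    gg c.β c.G q j c.W2.μ h (max C0 0) hg c.three hV (le_max_right _ _) hC h0
  have eπ : ∀ k, Emb c.W c.X (c.π k) := fun k => c.L.emb (c.sl k)
  have eA : ∀ k, Emb c.W2 c.W (c.A k) := fun k => c.L2.emb (c.sl k)
  have eB : Emb c.W2 c.W (c.Bc j) := (c.lift j).emb
  have hB2 : c.B2 ≤ c.W.ms := (fd.h.kc c.W _ c.L.nice (fd.lb.fac c.L c.B c.kc.1)).1.le
  have hP : ∀ k, c.P k ≤ c.W.ms := fun k =>
    fd.a.pull_le c.X.ms c.W.μ c.X.μ _ (eπ k).mp le_rfl
  have key : ∀ (k : c.ι) (u : c.W2.X → ℂ), Lb (c.G k j) c.W2.μ u →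
      ∃ u' : c.W.X → ℂ, Lb (c.P k) c.W.μ u' ∧ u =ᵐ[c.W2.μ] fun x => u' (c.Bc j x) := by
    intro k u hu
    have m1 := ((eπ j).mp.comp (eA k).mp).measurable.comap_le
    have m2 := ((eπ k).mp.comp eB.mp).measurable.comap_le
    have e : c.G k j = pull c.W2.μ (c.π k ∘ c.Bc j) c.X.ms :=
      fd.a.keq_pull c.X.ms c.W2.μ _ _ m1 m2 (gi.col k j)
    rw [e] at hu
    obtain ⟨f, hf1, hf2, hf3⟩ := fd.a.fact c.X.ms c.W2.μ (c.π k ∘ c.Bc j) u 1 m2 zero_le_one hu.1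
      (Eventually.of_forall hu.2)
    exact ⟨fun y => f (c.π k y), ⟨(fd.a.bm_comp c.X.ms c.W.μ c.X.μ (c.π k) f (eπ k).mp
      ⟨hf1.aestronglyMeasurable, 1, Eventually.of_forall hf2⟩).1, fun y => hf2 _⟩, hf3⟩
  choose w hw hw' using fun i k => key k (v i k) (hv i k)
  choose w0 hw0 hw0' using fun k => key k (v0 k) (hv0 k)
  obtain ⟨φ, hφ, hs⟩ := sel c.B2 c.P c.W.μ w w0 η hB2 hP c.three gi.cline hw hw0 hη hη'
  refine ⟨fun k y => conj (φ k y), fun k => ⟨(Fib27.BM.of_uni (hφ k).1 (hφ k).2).conj.1, ?_⟩,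
    fun hz => hpos ?_⟩
  · filter_upwards [(hφ k).2] with y hy
    rwa [Complex.norm_conj]
  · refine measure_mono_null_ae ?_ hz
    exact GSp1P.main rc eB.mp hg.ble hB2 (gi.colE j) q
      (fun i k => (GSp1P.Lb_bm (hw i k)).mono (hP k)) (fun k => (GSp1P.Lb_bm (hw0 k)).mono (hP k))
      hw' hw0' (fun k => ⟨(hφ k).1.mono (sup_le (hP k) hB2), (hφ k).2⟩)
      (hV.1.mono (sup_le (hg.le q j) hg.ble)) (le_max_right _ _) hη hC
      (hs.mono fun x hx hD => ⟨(hx hD).1, ((hx hD).2 q).2.2⟩)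

end T4x

end

end PkGSp1
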