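import Pool.Agent.MP_154433_an.t4.Spec

/-! Rows for commuting maps, part A7. -/

section PkFull

/-! Row Full: a column tuple that correlates with a row extends to all columns. -/

set_option autoImplicit false
set_option linter.unusedVariables false
set_option linter.unusedSectionVars false
set_option warn.classDefReducibility false

open MeasureTheory ProbabilityTheory Filter Topology Function Finset ComplexConjugate
open scoped BigOperators
open Fib27 (BM sup pr Oc Orow)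

noncomputable section

namespace T4x

open T3x

variable [Grp]

namespace Fullx

theorem um_bm {Ω : Type} {m m0 : MeasurableSpace Ω} {μ : @Measure Ω m0} {φ : Ω → ℂ}
    (h : Um m μ φ) : BM μ m φ := BM.of_uni h.1 h.2

theorem um_pr {Ω ι : Type} {m m0 : MeasurableSpace Ω} {μ : @Measure Ω m0} {φ : ι → Ω → ℂ}
    (S : Finset ι) (h : ∀ k ∈ S, Um m μ (φ k)) : Um m μ (pr φ S) := by
  refine ⟨(BM.pr fun k hk => um_bm (h k hk)).1, ?_⟩
  filter_upwards [(Finset.eventually_all S).2 fun k hk => (h k hk).2] with x hx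
  rw [pr, norm_prod, Finset.prod_eq_one hx]

variable {c : Ctx}

theorem bc_mp (i : c.ι) : MeasurePreserving (c.Bc i) c.W2.μ c.W.μ := (c.lift i).emb.mp

theorem b2_le (f : Fd) : c.B2 ≤ c.W.ms :=
  (f.h.kc c.L.W _ c.L.nice (f.lb.fac c.L c.B c.kc.1)).1.le

theorem p_le (f : Fd) (k : c.ι) : c.P k ≤ c.W.ms :=
  f.a.pull_le _ c.W.μ c.X.μ _ (c.L.emb (c.sl k)).mp le_rfl

theorem g_eq (f : Fd) (gi : c.GI) (k i : c.ι) : c.G k i = pull c.W2.μ (c.Bc i) (c.P k) := by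
  have h1 : MeasurePreserving (c.π i ∘ c.A k) c.W2.μ c.X.μ :=
    (c.L.emb (c.sl i)).mp.comp (c.L2.emb (c.sl k)).mp
  have h2 : MeasurePreserving (c.π k ∘ c.Bc i) c.W2.μ c.X.μ :=
    (c.L.emb (c.sl k)).mp.comp (bc_mp i)
  have h3 := f.a.keq_pull _ c.W2.μ _ _ h1.measurable.comap_le h2.measurable.comap_le (gi.col k i)
  exact h3.trans (f.a.pull_comp _ c.W2.μ c.W.μ _ _ (bc_mp i)).symm

theorem um_col (f : Fd) (gi : c.GI) {φ : c.ι → c.W.X → ℂ} (h : c.Tup1 φ) (k i : c.ι) :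
    Um (c.G k i ⊔ c.β) c.W2.μ fun x => φ k (c.Bc i x) := by
  refine ⟨?_, (bc_mp i).quasiMeasurePreserving.ae (h k).2⟩
  have h1 := f.a.bm_comp _ c.W2.μ c.W.μ _ _ (bc_mp i) (um_bm (h k))
  rw [f.a.pull_sup, ← g_eq f gi] at h1
  exact (h1.mono (sup_le_sup_left (gi.colB i) _)).1

theorem th_meas (r : Rc) (gi : c.GI) (φ : c.ι → c.W.X → ℂ) (i : c.ι) :
    MeasurableSet[c.β] (c.Bc i ⁻¹' c.Θ φ) :=
  (le_sup_left.trans (gi.colB i)) _ ⟨_, r.meas c.B2 c.W.μ _, rfl⟩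

/-- on the event of a column tuple the product is a function of the base -/
theorem th_eq (f : Fd) (r : Rc) (gi : c.GI) {φ : c.ι → c.W.X → ℂ} (h : c.Tup1 φ) (i : c.ι) :
    ∃ κ, BM c.W2.μ c.β κ ∧ ∀ᵐ x ∂c.W2.μ, x ∈ c.Bc i ⁻¹' c.Θ φ →
      ∏ k, φ k (c.Bc i x) = κ x := by
  have hu : Um c.W.ms c.W.μ (pr φ univ) :=
    um_pr _ fun k _ => ⟨(h k).1.mono (sup_le (p_le f k) (b2_le f)), (h k).2⟩
  refine ⟨fun x => (c.W.μ[pr φ univ | c.B2]) (c.Bc i x),
    (f.a.bm_comp _ c.W2.μ c.W.μ _ _ (bc_mp i) ((um_bm hu).ce c.B2)).mono (gi.colB i), ?_⟩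
  exact (bc_mp i).quasiMeasurePreserving.ae (r.eq c.B2 c.W.μ _ (b2_le f) hu)

theorem oc_bm (f : Fd) (r : Rc) (gi : c.GI) {φ : c.ι → c.W.X → ℂ} (h : c.Tup1 φ) (q j : c.ι)
    {ψ : c.W2.X → ℂ} (hψ : BM c.W2.μ c.β ψ)
    (hs : ∀ᵐ x ∂c.W2.μ, ψ x ≠ 0 → x ∈ c.Bc j ⁻¹' c.Θ φ) :
    BM c.W2.μ (Oc c.G q j ⊔ c.β) fun x => ψ x * φ q (c.Bc j x) := by
  obtain ⟨κ, hκ, e⟩ := th_eq f r gi h j
  have h1 : BM c.W2.μ (Oc c.G q j ⊔ c.β) (pr (fun k x => φ k (c.Bc j x)) (univ.erase q)) :=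
    BM.pr fun k hk => (um_bm (um_col f gi h k j)).mono
      (sup_le_sup_right (Fib27.le_sup' (fun q' => c.G q' j) hk) _)
  have h2 := ((hψ.mul hκ).mono le_sup_right).mul h1.conj
  refine h2.congr ?_
  have h3 := (Finset.eventually_all (univ.erase q)).2 fun k _ => (um_col f gi h k j).2
  filter_upwards [e, hs, h3] with x e hs h3
  by_cases h0 : ψ x = 0
  · simp [h0]
  have h4 : ‖pr (fun k x => φ k (c.Bc j x)) (univ.erase q) x‖ = 1 := by
    rw [pr, norm_prod, Finset.prod_eq_one h3]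
  rw [← e (hs h0), ← Finset.mul_prod_erase _ _ (mem_univ q), mul_assoc, mul_assoc]
  change _ * (_ * (pr (fun k x => φ k (c.Bc j x)) (univ.erase q) x * _)) = _
  rw [Complex.mul_conj, Complex.normSq_eq_norm_sq, h4]
  simp

theorem step (f : Fd) (r : Rc) (gi : c.GI) (hg : HG c.β c.G c.W2.μ) (hx : HGX c.β c.G c.W2.μ)
    {C : (c.ι → c.W.X → ℂ) → Prop} (hC : ∀ φ, C φ → c.Tup1 φ) (gs : c.GSp C) {q j i : c.ι}
    (hij : i ≠ j) {φ : c.ι → c.W.X → ℂ} (hφ : c.Tup1 φ) {E : Set c.W2.X}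
    (hE : MeasurableSet[c.β] E) (hEΘ : E ≤ᵐ[c.W2.μ] c.Bc j ⁻¹' c.Θ φ) {a : c.ι → c.W2.X → ℂ}
    (ha : ∀ k, BM c.W2.μ (c.G q k ⊔ c.β) (a k)) (haj : a j = fun x => φ q (c.Bc j x))
    (hpos : c.W2.μ (E ∩ {x | (c.W2.μ[pr a univ | c.β]) x ≠ 0}) ≠ 0) :
    ∃ φ', C φ' ∧ c.W2.μ ((E ∩ c.Bc i ⁻¹' c.Θ φ') ∩
      {x | (c.W2.μ[pr (update a i fun x => φ' q (c.Bc i x)) univ | c.β]) x ≠ 0}) ≠ 0 := by
  have hle : ∀ k, c.G q k ⊔ c.β ≤ c.W2.ms := fun k => sup_le (hg.le q k) hg.ble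
  have hK : BM c.W2.μ c.β (c.W2.μ[pr a univ | c.β]) :=
    (BM.pr fun k _ => (ha k).mono (hle k)).ce c.β
  obtain ⟨ψ, hψ, hψE, hψK⟩ : ∃ ψ : c.W2.X → ℂ, BM c.W2.μ c.β ψ ∧ (∀ x, ψ x ≠ 0 → x ∈ E) ∧
      ∀ x ∈ E, ψ x = conj ((c.W2.μ[pr a univ | c.β]) x) := by
    refine ⟨_, (BM.indicator hE).mul hK.conj, fun x hx => ?_, fun x hx => by simp [hx]⟩
    by_contra h
    simp [h] at hx
  have hb : ∀ k, BM c.W2.μ (c.G q k ⊔ c.β) (update a j (fun x => ψ x * a j x) k) := fun k => by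
    by_cases hk : k = j
    · subst hk
      rw [update_self]
      exact (hψ.mono le_sup_right).mul (ha k)
    · rw [update_of_ne hk]
      exact ha k
  have hbj : BM c.W2.μ (Oc c.G q j ⊔ c.β) (update a j (fun x => ψ x * a j x) j) := by
    rw [update_self, haj]
    refine oc_bm f r gi hφ q j hψ ?_
    filter_upwards [hEΘ] with x hx h0
    exact hx (hψE x h0)
  have hv := hx.dual q i j _ hij hb hbj
  have hP : BM c.W2.μ c.W2.ms (pr (update a j fun x => ψ x * a j x) (univ.erase i)) :=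
    BM.pr fun k _ => (hb k).mono (hle k)
  have key : ∀ u, BM c.W2.μ (c.G q i ⊔ c.β) u → c.W2.μ[fun y =>
      (c.W2.μ[pr (update a j fun x => ψ x * a j x) (univ.erase i) | c.G q i ⊔ c.β]) y * u y | c.β]
      =ᵐ[c.W2.μ] fun x => ψ x * (c.W2.μ[pr (update a i u) univ | c.β]) x := by
    intro u hu
    have hQ : BM c.W2.μ c.W2.ms (pr (update a i u) univ) := BM.pr fun k _ => by
      by_cases hk : k = i
      · subst hk
        rw [update_self]
        exact hu.mono (hle k)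
      · rw [update_of_ne hk]
        exact (ha k).mono (hle k)
    have e1 := (condExp_congr_ae (m := c.β) (Fib27.ce_mul' (hle i) hP hu).symm).trans
      (condExp_condExp_of_le le_sup_right (hle i))
    have e2 : (fun y => pr (update a j fun x => ψ x * a j x) (univ.erase i) y * u y) =
        fun y => ψ y * pr (update a i u) univ y := by
      funext y
      have hj : j ∈ univ.erase i := mem_erase.2 ⟨hij.symm, mem_univ j⟩
      rw [Fib27.pr_erase _ (mem_univ i), update_self, Fib27.pr_update _ (notMem_erase i _),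
        Fib27.pr_erase a hj, Fib27.pr_erase _ hj, update_self,
        Fib27.pr_update _ (notMem_erase j _)]
      ring
    rw [e2] at e1
    exact e1.trans (Fib27.ce_mul hg.ble hψ hQ)
  have hne : ¬ (c.W2.μ[pr (update a j fun x => ψ x * a j x) (univ.erase i) | c.G q i ⊔ c.β])
      =ᵐ[c.W2.μ] 0 := by
    intro h0
    have e1 := key (a i) (ha i)
    rw [update_eq_self] at e1
    have e2 : (fun y => (c.W2.μ[pr (update a j fun x => ψ x * a j x) (univ.erase i) |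
        c.G q i ⊔ c.β]) y * a i y) =ᵐ[c.W2.μ] 0 := by
      filter_upwards [h0] with y hy
      simp [hy]
    have e3 := condExp_congr_ae (m := c.β) e2
    rw [condExp_zero] at e3
    refine hpos (measure_eq_zero_iff_ae_notMem.2 ?_)
    filter_upwards [e1.symm.trans e3] with x hx hm
    rw [hψK x hm.1] at hx
    have hz := hm.2
    simp only [Pi.zero_apply, mul_eq_zero, map_eq_zero, or_self] at hx
    exact hz hx
  obtain ⟨φ', hφ', hp⟩ := gs q i _ hv hne
  refine ⟨φ', hφ', fun h0 => hp (measure_mono_null_ae ?_ h0)⟩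
  filter_upwards [key _ (um_bm (um_col f gi (hC _ hφ') q i))] with x hx hm
  have h1 := hm.2
  simp only [Set.mem_ofPred_eq] at h1
  rw [hx] at h1
  exact ⟨⟨hψE x (left_ne_zero_of_mul h1), hm.1⟩, right_ne_zero_of_mul h1⟩

end Fullx

open Fullx in
theorem full : FullR := by
  intro f r hX c C gi hg hC gs q j φ E a hφ hE hEΘ ha hpos
  have hx := hX _ _ _ hg
  have main : ∀ S : Finset c.ι, ∃ (E' : Set c.W2.X) (Φ : c.ι → c.ι → c.W.X → ℂ)
      (a' : c.ι → c.W2.X → ℂ), MeasurableSet[c.β] E' ∧ E' ⊆ E ∧ (∀ i, C (Φ i)) ∧ Φ j = φ ∧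
      (∀ i, BM c.W2.μ (c.G q i ⊔ c.β) (a' i)) ∧
      (∀ i, i = j ∨ i ∈ S → E' ≤ᵐ[c.W2.μ] c.Bc i ⁻¹' c.Θ (Φ i) ∧
        a' i = fun x => Φ i q (c.Bc i x)) ∧
      c.W2.μ (E' ∩ {x | (c.W2.μ[pr a' univ | c.β]) x ≠ 0}) ≠ 0 := by
    intro S
    induction S using Finset.induction_on with
    | empty =>
      refine ⟨E, fun _ => φ, update a j fun x => φ q (c.Bc j x), hE, subset_rfl, fun _ => hφ, rfl,
        fun i => ?_, fun i hi => ?_, ?_⟩
      · by_cases hk : i = j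
        · subst hk
          rw [update_self]
          exact um_bm (um_col f gi (hC _ hφ) q i)
        · rw [update_of_ne hk]
          exact ha i
      · obtain rfl : i = j := by simpa using hi
        exact ⟨hEΘ, update_self _ _ _⟩
      · have e : pr (update a j fun x => φ q (c.Bc j x)) univ =
            fun y => φ q (c.Bc j y) * pr a (univ.erase j) y := by
          funext y
          rw [Fib27.pr_erase _ (mem_univ j), update_self, Fib27.pr_update _ (notMem_erase j _)]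
        rw [e]
        exact hpos
    | insert i S hi ih =>
      obtain ⟨E', Φ, a', h1, h2, h3, h4, h5, h6, h7⟩ := ih
      by_cases hij : i = j
      · refine ⟨E', Φ, a', h1, h2, h3, h4, h5, fun k hk => h6 k ?_, h7⟩
        rcases hk with hk | hk
        · exact Or.inl hk
        · rcases mem_insert.1 hk with hk | hk
          · exact Or.inl (hk.trans hij)
          · exact Or.inr hk
      obtain ⟨φ', hφ', hp⟩ := step f r gi hg hx hC gs hij (hC _ (h3 j)) h1 (h6 j (Or.inl rfl)).1 h5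
        (h6 j (Or.inl rfl)).2 h7
      refine ⟨_, update Φ i φ', _, h1.inter (th_meas r gi φ' i), Set.inter_subset_left.trans h2,
        fun k => ?_, ?_, fun k => ?_, fun k hk => ?_, hp⟩
      · by_cases hk : k = i
        · subst hk
          rwa [update_self]
        · rw [update_of_ne hk]
          exact h3 k
      · rw [update_of_ne (Ne.symm hij), h4]
      · by_cases hk : k = i
        · subst hk
          rw [update_self]
          exact um_bm (um_col f gi (hC _ hφ') q k)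
        · rw [update_of_ne hk]
          exact h5 k
      · by_cases hki : k = i
        · subst hki
          rw [update_self, update_self]
          exact ⟨Eventually.of_forall fun x hx => hx.2, rfl⟩
        · rw [update_of_ne hki, update_of_ne hki]
          have hk' : k = j ∨ k ∈ S := hk.imp id fun h => (mem_insert.1 h).resolve_left hki
          exact ⟨(Set.inter_subset_left.eventuallyLE).trans (h6 k hk').1, (h6 k hk').2⟩
  obtain ⟨E', Φ, a', h1, h2, h3, h4, h5, h6, h7⟩ := main univ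
  have h8 : ∀ i, E' ≤ᵐ[c.W2.μ] c.Bc i ⁻¹' c.Θ (Φ i) := fun i => (h6 i (Or.inr (mem_univ i))).1
  have h9 : pr a' univ = fun x => ∏ i, Φ i q (c.Bc i x) := by
    funext x
    exact Finset.prod_congr rfl fun i _ => by rw [(h6 i (Or.inr (mem_univ i))).2]
  rw [h9] at h7
  have hm : MeasurableSet[c.β] {x | (c.W2.μ[fun x => ∏ i, Φ i q (c.Bc i x) | c.β]) x ≠ 0} :=
    (stronglyMeasurable_condExp.measurable (measurableSet_singleton (0 : ℂ))).compl
  refine ⟨_, Φ, h1.inter hm, Set.inter_subset_left.trans h2, h7, h3, h4,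
    fun i => (Set.inter_subset_left.eventuallyLE).trans (h8 i), ?_⟩
  have hrow : ∀ k, sup (c.G k) univ ≤ c.W2.ms := fun k => Fib27.sup_le' fun i _ => hg.le k i
  have hR : ∀ k, Um (sup (c.G k) univ ⊔ c.β) c.W2.μ fun x => ∏ i, Φ i k (c.Bc i x) := fun k =>
    um_pr (φ := fun i x => Φ i k (c.Bc i x)) univ fun i hi =>
      ⟨(um_col f gi (hC _ (h3 i)) k i).1.mono (sup_le_sup_right (Fib27.le_sup' (c.G k) hi) _),
        (um_col f gi (hC _ (h3 i)) k i).2⟩
  have hcm := r.cm c.β (fun k => sup (c.G k) univ) c.W2.μ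
    (fun k x => ∏ i, Φ i k (c.Bc i x)) hg.ble hrow c.three hg.rows hR q
  choose κ hκ hκe using fun i => th_eq f r gi (hC _ (h3 i)) i
  have hof := r.of c.β c.W2.μ (pr (fun k x => ∏ i, Φ i k (c.Bc i x)) univ) (pr κ univ) E' hg.ble
    (um_pr _ fun k _ => ⟨(hR k).1.mono (sup_le (hrow k) hg.ble), (hR k).2⟩)
    (BM.pr fun i _ => hκ i) h1 (by
      filter_upwards [ae_all_iff.2 hκe, ae_all_iff.2 h8] with x e1 e2 hx
      rw [pr, pr, Finset.prod_comm]
      exact Finset.prod_congr rfl fun i _ => e1 i (e2 i hx))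
  intro k
  filter_upwards [hcm, hof] with x e1 e2 hx
  exact e1 (e2 hx.1) hx.2 k

end T4x

end

end PkFull

section PkRep

/-! Row Rep: a member of a column tuple and of a row tuple is a function of the point. -/

set_option autoImplicit false
set_option linter.unusedVariables false
set_option warn.classDefReducibility false

open MeasureTheory ProbabilityTheory Filter Topology Function Finset ComplexConjugate
open scoped BigOperators
open Fib27 (BM sup pr Oc Orow F23 LInd Mem)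
open Pool.Agent.MP_154433_an.SG (Uni ufn)

noncomputable section

namespace T4x

open T3x

namespace RepL

section Gen

variable {Ω Ω' : Type} {β : MeasurableSpace Ω} {B : MeasurableSpace Ω'} {m0 : MeasurableSpace Ω}
  {m0' : MeasurableSpace Ω'} {μ : Measure Ω} {μ' : Measure Ω'}

theorem um_bm {m : MeasurableSpace Ω} {m0 : MeasurableSpace Ω} {μ : Measure Ω} {f : Ω → ℂ}
    (h : Um m μ f) : BM μ m f := BM.of_uni h.1 h.2

theorem um_mono {m m' : MeasurableSpace Ω} {m0 : MeasurableSpace Ω} {μ : Measure Ω} {f : Ω → ℂ}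
    (h : Um m μ f) (hm : m ≤ m') : Um m' μ f := ⟨h.1.mono hm, h.2⟩

theorem um_mul {m : MeasurableSpace Ω} {m0 : MeasurableSpace Ω} {μ : Measure Ω} {f g : Ω → ℂ}
    (h : Um m μ f) (h' : Um m μ g) : Um m μ fun x => f x * g x := by
  refine ⟨h.1.mul h'.1, ?_⟩
  filter_upwards [h.2, h'.2] with x h1 h2
  rw [norm_mul, h1, h2, mul_one]

theorem um_cj {m : MeasurableSpace Ω} {m0 : MeasurableSpace Ω} {μ : Measure Ω} {f : Ω → ℂ}
    (h : Um m μ f) : Um m μ fun x => conj (f x) := by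
  refine ⟨(um_bm h).conj.1, ?_⟩
  filter_upwards [h.2] with x h1
  rw [Complex.norm_conj, h1]

theorem um_pr {ι : Type} {m : MeasurableSpace Ω} {m0 : MeasurableSpace Ω} {μ : Measure Ω}
    {f : ι → Ω → ℂ} (S : Finset ι) (h : ∀ i, Um m μ (f i)) : Um m μ (pr f S) := by
  refine ⟨(BM.pr fun i _ => um_bm (h i)).1, ?_⟩
  filter_upwards [(Finset.eventually_all S).2 fun i _ => (h i).2] with x hx
  unfold pr
  rw [norm_prod]
  exact Finset.prod_eq_one hx

theorem bm_of {m : MeasurableSpace Ω} {m0 : MeasurableSpace Ω} (μ : Measure Ω) {f : Ω → ℂ} {C : ℝ}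
    (h : Measurable[m] f) (hC : ∀ x, ‖f x‖ ≤ C) : BM μ m f :=
  ⟨h.stronglyMeasurable.aestronglyMeasurable, C, Eventually.of_forall hC⟩

theorem bm_sq {f g : Ω → ℂ} (hf : BM μ m0 f) (hg : BM μ m0 g) :
    BM μ m0 fun y => ((‖f y - g y‖ ^ 2 : ℝ) : ℂ) := by
  refine ((hf.sub hg).mul (hf.sub hg).conj).congr (Eventually.of_forall fun y => ?_)
  simp only [Complex.mul_conj, Complex.normSq_eq_norm_sq]

theorem int_sq [IsProbabilityMeasure μ] {f g : Ω → ℂ} (hf : BM μ m0 f) (hg : BM μ m0 g) :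
    Integrable (fun y => ‖f y - g y‖ ^ 2) μ := by
  have h := (bm_sq hf hg).integrable.re
  simpa only [RCLike.re_to_complex, Complex.ofReal_re] using h

/-- transfer of conditional distances along a map -/
theorem d2_comp [IsProbabilityMeasure μ] [IsProbabilityMeasure μ'] {p : Ω → Ω'}
    (hp : MeasurePreserving p μ μ')
    (hE : ∀ g, BM μ' m0' g → μ[fun x => g (p x) | β] =ᵐ[μ] fun x => (μ'[g | B]) (p x))
    {f g : Ω' → ℂ} (hf : BM μ' m0' f) (hg : BM μ' m0' g) {f' g' : Ω → ℂ}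
    (ef : f' =ᵐ[μ] fun x => f (p x)) (eg : g' =ᵐ[μ] fun x => g (p x)) :
    μ[fun y => ‖f' y - g' y‖ ^ 2 | β] =ᵐ[μ] fun x => (μ'[fun y => ‖f y - g y‖ ^ 2 | B]) (p x) := by
  have i1 := int_sq hf hg
  have i2 : Integrable (fun y => ‖f (p y) - g (p y)‖ ^ 2) μ := (hp.integrable_comp i1.1).2 i1
  have e0 : μ[fun y => ‖f' y - g' y‖ ^ 2 | β] =ᵐ[μ] μ[fun y => ‖f (p y) - g (p y)‖ ^ 2 | β] := by
    refine condExp_congr_ae ?_
    filter_upwards [ef, eg] with y h1 h2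
    rw [h1, h2]
  have h1 := Complex.ofRealCLM.comp_condExp_comm (m := β) i2
  have h2 := hp.quasiMeasurePreserving.ae (Complex.ofRealCLM.comp_condExp_comm (m := B) i1)
  have h3 := hE _ (bm_sq hf hg)
  filter_upwards [e0, h1, h2, h3] with x e0 h1 h2 h3
  rw [e0]
  apply Complex.ofReal_injective
  exact h1.trans (h3.trans h2.symm)

/-- two unimodular functions near the same function correlate -/
theorem re_ge [IsProbabilityMeasure μ] (hβ : β ≤ m0) {f g v : Ω → ℂ} (hf : Um m0 μ f)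
    (hg : Um m0 μ g) (hv : BM μ m0 v) : ∀ᵐ x ∂μ,
    1 - (μ[fun y => ‖f y - v y‖ ^ 2 | β]) x - (μ[fun y => ‖g y - v y‖ ^ 2 | β]) x ≤
      ((μ[fun y => f y * conj (g y) | β]) x).re := by
  have i1 := int_sq (um_bm hf) hv
  have i2 := int_sq (um_bm hg) hv
  have i3 := ((um_bm hf).mul (um_bm hg).conj).integrable
  have i0 : Integrable (fun _ : Ω => (1 : ℝ)) μ := integrable_const _
  have h1 := Complex.reCLM.comp_condExp_comm (m := β) i3
  have h2 := condExp_sub i0 i1 β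
  have h3 := condExp_sub (i0.sub i1) i2 β
  have h4 : μ[(fun _ : Ω => (1 : ℝ)) - (fun y => ‖f y - v y‖ ^ 2) - (fun y => ‖g y - v y‖ ^ 2) | β]
      ≤ᵐ[μ] μ[Complex.reCLM ∘ fun y => f y * conj (g y) | β] := by
    refine condExp_mono ((i0.sub i1).sub i2) (Complex.reCLM.integrable_comp i3) ?_
    filter_upwards [hf.2, hg.2] with y h1 h2
    have a1 : (f y).re ^ 2 + (f y).im ^ 2 = 1 := by
      have := Complex.sq_norm (f y)
      rw [h1, Complex.normSq_apply] at this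
      nlinarith
    have a2 : (g y).re ^ 2 + (g y).im ^ 2 = 1 := by
      have := Complex.sq_norm (g y)
      rw [h2, Complex.normSq_apply] at this
      nlinarith
    simp only [Pi.sub_apply, Function.comp_apply, Complex.reCLM_apply, Complex.sq_norm,
      Complex.normSq_apply, Complex.sub_re, Complex.sub_im, Complex.mul_re, Complex.conj_re,
      Complex.conj_im]
    nlinarith [sq_nonneg ((f y).re + (g y).re - 2 * (v y).re),
      sq_nonneg ((f y).im + (g y).im - 2 * (v y).im)]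
  filter_upwards [h1, h2, h3, h4] with x h1 h2 h3 h4
  rw [h3, ← h1] at h4
  simp only [Pi.sub_apply] at h4 h2
  rw [h2, condExp_const hβ] at h4
  exact h4

/-- the conditional probability of a set does not vanish on the set -/
theorem ce_ne [IsProbabilityMeasure μ] (hβ : β ≤ m0) {D : Set Ω} (hD : MeasurableSet D) :
    ∀ᵐ x ∂μ, x ∈ D → (μ[D.indicator fun _ => (1 : ℂ) | β]) x ≠ 0 := by
  set Z := {x | (μ[D.indicator fun _ => (1 : ℂ) | β]) x = 0} with hZ
  have mZ : MeasurableSet[β] Z :=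
    (stronglyMeasurable_condExp (m := β)).measurable (measurableSet_singleton 0)
  have h1 := setIntegral_condExp hβ (BM.indicator (κ := μ) hD).integrable mZ
  rw [setIntegral_eq_zero_of_forall_eq_zero (t := Z) fun x hx => hx, setIntegral_indicator hD,
    setIntegral_const] at h1
  have h2 : μ.real (Z ∩ D) = 0 := by simpa using h1.symm
  rw [measureReal_eq_zero_iff] at h2
  filter_upwards [measure_eq_zero_iff_ae_notMem.1 h2] with x hx h3 h4
  exact hx ⟨h4, h3⟩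

theorem pos_of {S T : Set Ω} (h : μ S ≠ 0) (hST : ∀ᵐ x ∂μ, x ∈ S → x ∈ T) : μ T ≠ 0 :=
  fun h0 => h (measure_mono_null_ae hST h0)

end Gen

variable [Grp] (F : Fd) {c : Ctx} (hG : c.GI)

theorem mA (c : Ctx) (q : c.ι) : MeasurePreserving (c.A q) c.W2.μ c.W.μ := (c.L2.emb _).mp

theorem mB (c : Ctx) (j : c.ι) : MeasurePreserving (c.Bc j) c.W2.μ c.W.μ := (c.lift j).emb.mp

theorem mP (c : Ctx) (k : c.ι) : MeasurePreserving (c.π k) c.W.μ c.X.μ := (c.L.emb _).mp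

include F

theorem facB2 (c : Ctx) : Fac c.W c.B2 := (F.h.kc c.W _ c.L.nice (F.lb.fac c.L c.B c.kc.1)).1

theorem leβ (c : Ctx) : c.β ≤ c.W2.ms :=
  (F.h.kc c.W2 _ c.L2.nice (F.lb.fac c.L2 c.B2 (facB2 F c))).1.le

theorem leP (c : Ctx) (k : c.ι) : c.P k ≤ c.W.ms := F.a.pull_le _ _ _ _ (mP c k) le_rfl

theorem leG (c : Ctx) (q j : c.ι) : c.G q j ≤ c.W2.ms :=
  F.a.pull_le _ _ _ _ ((mP c j).comp (mA c q)) le_rfl

theorem tup_um {φ : c.ι → c.W.X → ℂ} (h : c.Tup1 φ) (k : c.ι) : Um c.W.ms c.W.μ (φ k) :=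
  um_mono (h k) (sup_le (leP F c k) (facB2 F c).le)

theorem um_comp {p : c.W2.X → c.W.X} (hp : MeasurePreserving p c.W2.μ c.W.μ) (k : c.ι)
    {φ : c.W.X → ℂ} (h : Um (c.P k ⊔ c.B2) c.W.μ φ) :
    Um (pull c.W2.μ p (c.P k ⊔ c.B2)) c.W2.μ fun x => φ (p x) :=
  ⟨(F.a.bm_comp _ _ _ p φ hp (um_bm h)).1, hp.quasiMeasurePreserving.ae h.2⟩

theorem bm_top {p : c.W2.X → c.W.X} (hp : MeasurePreserving p c.W2.μ c.W.μ) {φ : c.W.X → ℂ}
    (h : BM c.W.μ c.W.ms φ) : BM c.W2.μ c.W2.ms fun x => φ (p x) :=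
  (F.a.bm_comp _ _ _ p φ hp h).mono (F.a.pull_le _ _ _ _ hp le_rfl)

include hG

theorem G_eq (q j : c.ι) : c.G q j = pull c.W2.μ (c.Bc j) (c.P q) := by
  have h1 : pull c.W2.μ (c.Bc j) (c.P q) = pull c.W2.μ (c.π q ∘ c.Bc j) c.X.ms :=
    F.a.pull_comp _ _ _ _ _ (mB c j)
  rw [h1]
  exact F.a.keq_pull _ _ _ _ ((mP c j).comp (mA c q)).measurable.comap_le
    ((mP c q).comp (mB c j)).measurable.comap_le (hG.col q j)

theorem um_col {φ : c.ι → c.W.X → ℂ} (h : c.Tup1 φ) (k i : c.ι) :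
    Um (c.G k i ⊔ c.β) c.W2.μ fun x => φ k (c.Bc i x) := by
  refine um_mono (um_comp F (mB c i) k (h k)) ?_
  rw [F.a.pull_sup, G_eq F hG]
  exact sup_le_sup_left (hG.colB i) _

theorem um_row {φ : c.ι → c.W.X → ℂ} (h : c.Tup1 φ) (k i : c.ι) :
    Um (c.G k i ⊔ c.β) c.W2.μ fun x => φ i (c.A k x) := by
  refine um_mono (um_comp F (mA c k) i (h i)) ?_
  have h1 : pull c.W2.μ (c.A k) (c.P i) = c.G k i := F.a.pull_comp _ _ _ _ _ (mA c k)
  rw [F.a.pull_sup, h1]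
  exact sup_le_sup_left (hG.rowB k) _

theorem clG (k : c.ι) : CLine c.β (c.G k) c.W2.μ := by
  intro S hS f hf
  refine hG.cols S hS f fun i hi => (hf i hi).mono ?_
  rw [G_eq F hG]
  exact sup_le_sup_right (MeasurableSpace.comap_mono (leP F c k)) _

omit F in
theorem msA (q : c.ι) {D : Set c.W.X} (hD : MeasurableSet[c.B2] D) :
    MeasurableSet[c.β] (c.A q ⁻¹' D) :=
  (le_sup_left.trans (hG.rowB q) : c.B2.comap (c.A q) ≤ c.β) _ ⟨D, hD, rfl⟩

omit F in
theorem msB (j : c.ι) {D : Set c.W.X} (hD : MeasurableSet[c.B2] D) :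
    MeasurableSet[c.β] (c.Bc j ⁻¹' D) :=
  (le_sup_left.trans (hG.colB j) : c.B2.comap (c.Bc j) ≤ c.β) _ ⟨D, hD, rfl⟩

/-- a column member and a row member that correlate agree up to the base -/
theorem mat (R : Rc) (hF : c.Full c.Tup1) (j k : c.ι) {φ φ' : c.ι → c.W.X → ℂ} (h : c.Tup1 φ)
    (h' : c.Tup1 φ') {M : Set c.W2.X} (mM : MeasurableSet[c.β] M)
    (M1 : ∀ᵐ x ∂c.W2.μ, x ∈ M → c.Bc j x ∈ c.Θ φ) (M2 : ∀ᵐ x ∂c.W2.μ, x ∈ M → c.A k x ∈ c.Θ φ')
    (hne : ∀ᵐ x ∂c.W2.μ, x ∈ M →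
      (c.W2.μ[fun y => φ k (c.Bc j y) * conj (φ' j (c.A k y)) | c.β]) x ≠ 0) :
    ∀ᵐ x ∂c.W2.μ, x ∈ M → x ∈ Th c.β c.W2.μ fun y => φ k (c.Bc j y) * conj (φ' j (c.A k y)) := by
  have hβ := leβ F c
  have top : ∀ i, c.G k i ⊔ c.β ≤ c.W2.ms := fun i => sup_le (leG F c k i) hβ
  set T := Th c.β c.W2.μ fun y => φ k (c.Bc j y) * conj (φ' j (c.A k y)) with hT
  have mT : MeasurableSet[c.β] T := R.meas _ _ _
  suffices h0 : c.W2.μ (M \ T) = 0 by
    filter_upwards [measure_eq_zero_iff_ae_notMem.1 h0] with x hx h1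
    by_contra h2
    exact hx ⟨h1, h2⟩
  by_contra h0
  set a : c.ι → c.W2.X → ℂ := fun i x => φ' i (c.A k x) with ha
  have ua : ∀ i, Um (c.G k i ⊔ c.β) c.W2.μ (a i) := fun i => um_row F hG h' k i
  have ua' : ∀ i, Um c.W2.ms c.W2.μ (a i) := fun i => um_mono (ua i) (top i)
  have uR : Um c.W2.ms c.W2.μ (pr a univ) := um_pr _ ua'
  have uφ : Um c.W2.ms c.W2.μ fun y => φ k (c.Bc j y) := um_mono (um_col F hG h k j) (top j)
  have MR : ∀ᵐ x ∂c.W2.μ, x ∈ M → x ∈ Th c.β c.W2.μ (pr a univ) := by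
    filter_upwards [M2, hG.rowE k _ (um_bm (um_pr univ (tup_um F h')))] with x h1 h2 hx
    have h3 : ‖(c.W.μ[pr φ' univ | c.B2]) (c.A k x)‖ = 1 := h1 hx
    rw [← h2] at h3
    exact h3
  have loc := R.loc c.β c.W2.μ (fun y => φ k (c.Bc j y) * pr a (univ.erase j) y)
    (fun y => φ k (c.Bc j y) * conj (φ' j (c.A k y))) (c.W2.μ[pr a univ | c.β]) M hβ
    ((um_bm uφ).mul (um_bm (um_pr _ ua'))) ((um_bm uφ).mul (um_bm (ua' j)).conj)
    ((um_bm uR).ce _) mM (by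
      filter_upwards [MR, R.eq c.β c.W2.μ _ hβ uR, (ua' j).2] with x h1 h2 h3 hx
      rw [← h2 (h1 hx), Fib27.pr_erase a (mem_univ j)]
      have h4 : a j x * conj (a j x) = 1 := by
        rw [Complex.mul_conj, Complex.normSq_eq_norm_sq, h3]; simp
      show _ = a j x * pr a (univ.erase j) x * (φ k (c.Bc j x) * conj (a j x))
      linear_combination (-(φ k (c.Bc j x) * pr a (univ.erase j) x)) * h4)
  obtain ⟨E', Φ, mE, sE, pE, tΦ, eΦ, -, hΦ⟩ := hF k j φ (M \ T) a h (mM.diff mT)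
    (by filter_upwards [M1] with x h1 hx; exact h1 hx.1) (fun i => um_bm (ua i))
    (pos_of h0 (by
      filter_upwards [loc, MR, hne] with x h1 h2 h3 hx
      refine ⟨hx, ?_⟩
      show _ ≠ 0
      rw [h1 hx.1]
      refine mul_ne_zero (fun h4 => ?_) (h3 hx.1)
      have h5 : ‖(c.W2.μ[pr a univ | c.β]) x‖ = 1 := h2 hx.1
      rw [h4, norm_zero] at h5
      exact zero_ne_one h5))
  set χ : c.ι → c.W2.X → ℂ := fun i x => Φ i k (c.Bc i x) * conj (a i x) with hχ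
  have uc : ∀ i, Um (c.G k i ⊔ c.β) c.W2.μ fun x => Φ i k (c.Bc i x) :=
    fun i => um_col F hG (tΦ i) k i
  have eχ : pr χ univ = fun x => pr (fun i x => Φ i k (c.Bc i x)) univ x * conj (pr a univ x) := by
    funext x
    simp only [pr, hχ, prod_mul_distrib, map_prod]
  have cm := R.cm c.β (c.G k) c.W2.μ χ hβ (leG F c k) c.three (clG F hG k)
    (fun i => um_mul (uc i) (um_cj (ua i))) j
  have mu := R.mul c.β c.W2.μ _ _ hβ (um_pr univ fun i => um_mono (uc i) (top i)) (um_cj uR)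
  have ej : χ j = fun y => φ k (c.Bc j y) * conj (φ' j (c.A k y)) := by
    funext y
    simp only [hχ, ha, eΦ]
  rw [eχ, ej] at cm
  refine pE (measure_eq_zero_iff_ae_notMem.2 ?_)
  filter_upwards [cm, mu, hΦ k, MR, R.cj c.β c.W2.μ _ hβ uR, hne] with x h1 h2 h3 h4 h5 h6 hx
  have hx' := sE hx
  have h7 := h1 (h2 ⟨h3 hx, h5.mpr (h4 hx'.1)⟩) (h6 hx'.1) j
  rw [ej] at h7
  exact hx'.2 h7

omit hG in
/-- conditioning on the column -/
theorem col (j k : c.ι) {f1 f2 : c.W.X → ℂ} (b1 : BM c.W.μ c.W.ms f1) (b2 : BM c.W.μ c.W.ms f2)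
    {D D' : Set c.W.X} (mD : MeasurableSet D) (mD' : MeasurableSet D')
    (h : ∀ᵐ x ∂c.W2.μ, c.A k x ∈ D → c.Bc j x ∈ D' → f1 (c.Bc j x) = f2 (c.A k x)) :
    ∃ g : c.X.X → ℂ, Measurable g ∧
      ∀ᵐ x ∂c.W2.μ, c.A k x ∈ D → c.Bc j x ∈ D' → f1 (c.Bc j x) = g (c.π j (c.A k x)) := by
  have key : ∀ u, BM c.W.μ c.W.ms u → ∃ u0 : c.X.X → ℂ, Measurable u0 ∧
      c.W.μ[u | c.P j] =ᵐ[c.W.μ] (fun w => u0 (c.π j w)) ∧
      c.W2.μ[fun x => u (c.A k x) | pull c.W2.μ (c.Bc j) c.W.ms] =ᵐ[c.W2.μ]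
        fun x => u0 (c.π j (c.A k x)) := by
    intro u hu
    obtain ⟨h1, C, hC⟩ := hu.ce (c.P j)
    obtain ⟨u0, m0, b0, e0⟩ := F.a.fact c.X.ms c.W.μ (c.π j) _ (max C 0)
      (mP c j).measurable.comap_le (le_max_right _ _) h1
      (hC.mono fun x hx => hx.trans (le_max_left _ _))
    exact ⟨u0, m0, e0, F.ld.cs c.L2 c.L (c.π j) (c.Bc j) (c.sl k) (c.L.emb _) (c.lift j) u u0 hu
      (bm_of _ m0 b0) e0.symm⟩
  have i1 : BM c.W.μ c.W.ms (D.indicator fun _ => (1 : ℂ)) := BM.indicator mD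
  have i2 : BM c.W.μ c.W.ms (D'.indicator fun _ => (1 : ℂ)) := BM.indicator mD'
  obtain ⟨α, mα, eα, cα⟩ := key _ i1
  obtain ⟨γ, mγ, -, cγ⟩ := key _ (i1.mul b2)
  refine ⟨fun x => γ x / α x, mγ.div mα, ?_⟩
  have hY : pull c.W2.μ (c.Bc j) c.W.ms ≤ c.W2.ms := F.a.pull_le _ _ _ _ (mB c j) le_rfl
  have c1 := Fib27.ce_mul hY (F.a.bm_comp _ _ _ _ _ (mB c j) (i2.mul b1)) (bm_top F (mA c k) i1)
  have c2 := Fib27.ce_mul hY (F.a.bm_comp _ _ _ _ _ (mB c j) i2) (bm_top F (mA c k) (i1.mul b2))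
  have c3 : c.W2.μ[fun x => D'.indicator (fun _ => (1 : ℂ)) (c.Bc j x) * f1 (c.Bc j x) *
      D.indicator (fun _ => (1 : ℂ)) (c.A k x) | pull c.W2.μ (c.Bc j) c.W.ms] =ᵐ[c.W2.μ]
      c.W2.μ[fun x => D'.indicator (fun _ => (1 : ℂ)) (c.Bc j x) *
        (D.indicator (fun _ => (1 : ℂ)) (c.A k x) * f2 (c.A k x)) |
          pull c.W2.μ (c.Bc j) c.W.ms] := by
    refine condExp_congr_ae ?_
    filter_upwards [h] with x hx
    by_cases h1 : c.A k x ∈ D
    · by_cases h2 : c.Bc j x ∈ D'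
      · simp [h1, h2, hx h1 h2]
      · simp [h2]
    · simp [h1]
  have ne := (mA c k).quasiMeasurePreserving.ae ((ce_ne (leP F c j) mD).and eα)
  filter_upwards [c1, c2, c3, cα, cγ, ne] with x c1 c2 c3 cα cγ ne h1 h2
  have n1 : α (c.π j (c.A k x)) ≠ 0 := by
    have := ne.1 h1
    rwa [ne.2] at this
  rw [c1, c2, cα, cγ] at c3
  simp only [Set.indicator_of_mem h2, one_mul] at c3
  rw [eq_div_iff n1]
  exact c3

end RepL

variable [Grp]

open RepL in
theorem rep : RepR := by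
  intro F R Sel Apx c hG hF j k Φ E tΦ mE pE E1 E2
  have hβ := leβ F c
  have hB := (facB2 F c).le
  have top : ∀ i, c.G k i ⊔ c.β ≤ c.W2.ms := fun i => sup_le (leG F c k i) hβ
  have uc : ∀ i, Um (c.G k i ⊔ c.β) c.W2.μ fun x => Φ i k (c.Bc i x) :=
    fun i => um_col F hG (tΦ i) k i
  obtain ⟨v, v0, E', lv, l0, mE', sE, pE', hE'⟩ := Apx c.β (c.G k) c.W2.μ
    (fun i x => Φ i k (c.Bc i x)) E (1 / 100) hβ (leG F c k) uc mE pE E2 (by norm_num)
  have fa : ∀ i (z : c.W2.X → ℂ), Lb (c.G k i) c.W2.μ z → ∃ u : c.X.X → ℂ, Measurable u ∧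
      (∀ x, ‖u x‖ ≤ 1) ∧ z =ᵐ[c.W2.μ] fun x => u (c.π i (c.A k x)) := fun i z hz =>
    F.a.fact c.X.ms c.W2.μ (c.π i ∘ c.A k) z 1 ((mP c i).comp (mA c k)).measurable.comap_le
      zero_le_one hz.1 (Eventually.of_forall hz.2)
  choose u mu bu eu using fun n i => fa i _ (lv n i)
  choose u0 mu0 bu0 eu0 using fun i => fa i _ (l0 i)
  have lb : ∀ (i : c.ι) (z : c.X.X → ℂ), Measurable z → (∀ x, ‖z x‖ ≤ 1) →
      BM c.W.μ (c.P i) fun w => z (c.π i w) := fun i z mz bz =>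
    F.a.bm_comp c.X.ms c.W.μ c.X.μ (c.π i) z (mP c i) (bm_of _ mz bz)
  set w : ℕ → c.ι → c.W.X → ℂ := fun n i y => u n i (c.π i y) with hw
  set w0 : c.ι → c.W.X → ℂ := fun i y => u0 i (c.π i y) with hw0
  have bw : ∀ n i, BM c.W.μ c.W.ms (w n i) :=
    fun n i => (lb i _ (mu n i) (bu n i)).mono (leP F c i)
  have bw0 : ∀ i, BM c.W.μ c.W.ms (w0 i) := fun i => (lb i _ (mu0 i) (bu0 i)).mono (leP F c i)
  obtain ⟨φ, tφ, hφ⟩ := Sel c.B2 c.P c.W.μ w w0 (1 / 100) hB (leP F c) c.three hG.cline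
    (fun n i => ⟨(lb i _ (mu n i) (bu n i)).1, fun y => bu n i _⟩)
    (fun i => ⟨(lb i _ (mu0 i) (bu0 i)).1, fun y => bu0 i _⟩) (by norm_num) le_rfl
  have ds : ∀ᵐ x ∂c.W2.μ, x ∈ DS c.β c.W2.μ v v0 (1 / 100) →
      c.A k x ∈ DS c.B2 c.W.μ w w0 (1 / 100) := by
    have d1 : ∀ n, c.W2.μ[pr (v n) univ | c.β] =ᵐ[c.W2.μ]
        fun x => (c.W.μ[pr (w n) univ | c.B2]) (c.A k x) := fun n =>
      (condExp_congr_ae (Fib27.pr_congr_ae fun i _ => eu n i)).trans
        (hG.rowE k _ (BM.pr fun i _ => bw n i))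
    have d2 := fun n i => d2_comp (mA c k) (hG.rowE k) (bw n i) (bw0 i) (eu n i) (eu0 i)
    filter_upwards [ae_all_iff.2 d1, ae_all_iff.2 fun n => ae_all_iff.2 (d2 n)] with x h1 h2 hx
    simp only [DS, Set.mem_iInter, Set.mem_iUnion, Set.mem_ofPred_eq] at hx ⊢
    intro n
    obtain ⟨i, h3, h4⟩ := hx n
    exact ⟨i, h1 i ▸ h3, fun l => h2 i l ▸ h4 l⟩
  set r := c.W.μ[fun y => φ j y * conj (w0 j y) | c.B2] with hr
  set s := c.W.μ[fun y => ‖φ j y - w0 j y‖ ^ 2 | c.B2] with hs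
  set z : c.W.X → ℂ := fun y => u0 j (c.π k y) with hz
  have bz : BM c.W.μ c.W.ms z := (lb k _ (mu0 j) (bu0 j)).mono (leP F c k)
  set κ := c.W.μ[fun y => Φ j k y * conj (z y) | c.B2] with hκ
  set s' := c.W.μ[fun y => ‖Φ j k y - z y‖ ^ 2 | c.B2] with hs'
  have mr : Measurable[c.B2] r := stronglyMeasurable_condExp.measurable
  have ms : Measurable[c.B2] s := stronglyMeasurable_condExp.measurable
  have mκ : Measurable[c.B2] κ := stronglyMeasurable_condExp.measurable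
  have ms' : Measurable[c.B2] s' := stronglyMeasurable_condExp.measurable
  set D : Set c.W.X := c.Θ φ ∩ (r ⁻¹' {t | t.im = 0 ∧ 1 - 1 / 100 ≤ t.re} ∩
    s ⁻¹' Set.Iic ((1 / 100) ^ 2)) with hD
  set D' : Set c.W.X := c.Θ (Φ j) ∩ s' ⁻¹' Set.Iic ((1 / 100) ^ 2) with hD'
  have mD : MeasurableSet[c.B2] D := (R.meas _ _ _).inter
    ((mr ((measurableSet_eq_fun Complex.measurable_im measurable_const).inter
      (measurableSet_le measurable_const Complex.measurable_re))).inter (ms measurableSet_Iic))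
  have mD' : MeasurableSet[c.B2] D' := (R.meas _ _ _).inter (ms' measurableSet_Iic)
  have kq : ∀ y : c.X.X → ℂ, Measurable y →
      (fun x => y (c.π j (c.A k x))) =ᵐ[c.W2.μ] fun x => y (c.π k (c.Bc j x)) := fun y my =>
    F.a.keq_fun c.X.ms c.W2.μ c.X.μ _ _ y ((mP c j).comp (mA c k)) ((mP c k).comp (mB c j))
      (hG.col k j) my.aestronglyMeasurable
  have ez : v0 j =ᵐ[c.W2.μ] fun x => z (c.Bc j x) := (eu0 j).trans (kq _ (mu0 j))
  have uΦ := tup_um F (tΦ j) k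
  have uφ := tup_um F tφ j
  have s1 := d2_comp (mB c j) (hG.colE j) (um_bm uΦ) bz (EventuallyEq.refl _ _) ez
  have s2 := d2_comp (mA c k) (hG.rowE k) (um_bm uφ) (bw0 j) (EventuallyEq.refl _ _) (eu0 j)
  set M : Set c.W2.X := c.A k ⁻¹' D ∩ c.Bc j ⁻¹' D' with hM
  have mM : MeasurableSet[c.β] M := (msA hG k mD).inter (msB hG j mD')
  have EM : ∀ᵐ x ∂c.W2.μ, x ∈ E' → x ∈ M := by
    filter_upwards [hE', ds, (mA c k).quasiMeasurePreserving.ae hφ, E1, s1] with x h1 h2 h3 h4 h5 hx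
    obtain ⟨h6, h7⟩ := h3 (h2 (h1 hx).1)
    refine ⟨⟨h6, ⟨(h7 j).1, (h7 j).2.1⟩, (h7 j).2.2⟩, h4 (sE hx), ?_⟩
    exact h5.symm.trans_le ((h1 hx).2 j)
  have u1 : Um c.W2.ms c.W2.μ fun x => Φ j k (c.Bc j x) := um_mono (uc j) (top j)
  have u2 : Um c.W2.ms c.W2.μ fun x => φ j (c.A k x) := um_mono (um_row F hG tφ k j) (top j)
  have b0 : BM c.W2.μ c.W2.ms (v0 j) := (bm_top F (mB c j) bz).congr ez.symm
  have mt := mat F hG R hF j k (tΦ j) tφ mM (Eventually.of_forall fun x hx => hx.2.1)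
    (Eventually.of_forall fun x hx => hx.1.1) (by
      filter_upwards [re_ge hβ u1 u2 b0, s1, s2] with x h1 h2 h3 hx h4
      have h5 : s' (c.Bc j x) ≤ (1 / 100) ^ 2 := hx.2.2
      have h6 : s (c.A k x) ≤ (1 / 100) ^ 2 := hx.1.2.2
      rw [h2, h3, h4, Complex.zero_re] at h1
      linarith)
  set t := c.W2.μ[fun y => Φ j k (c.Bc j y) * conj (φ j (c.A k y)) | c.β] with ht
  have u3 := um_mul u1 (um_cj u2)
  have e1 : ∀ᵐ x ∂c.W2.μ, x ∈ M → Φ j k (c.Bc j x) = t x * φ j (c.A k x) ∧ ‖t x‖ = 1 := by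
    filter_upwards [mt, R.eq c.β c.W2.μ _ hβ u3, u2.2] with x h1 h2 h3 hx
    refine ⟨?_, h1 hx⟩
    have h4 : φ j (c.A k x) * conj (φ j (c.A k x)) = 1 := by
      rw [Complex.mul_conj, Complex.normSq_eq_norm_sq, h3]; simp
    have h5 : Φ j k (c.Bc j x) * conj (φ j (c.A k x)) = t x := h2 (h1 hx)
    linear_combination φ j (c.A k x) * h5 - Φ j k (c.Bc j x) * h4
  have loc := R.loc c.β c.W2.μ (fun y => Φ j k (c.Bc j y) * conj (z (c.Bc j y)))
    (fun y => φ j (c.A k y) * conj (w0 j (c.A k y))) t M hβ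
    (bm_top F (mB c j) ((um_bm uΦ).mul bz.conj)) (bm_top F (mA c k) ((um_bm uφ).mul (bw0 j).conj))
    ((um_bm u3).ce _) mM (by
      filter_upwards [e1, kq _ (mu0 j)] with x h1 h2 hx
      have h3 : w0 j (c.A k x) = z (c.Bc j x) := h2
      rw [(h1 hx).1, h3, mul_assoc])
  set ρ : c.W.X → ℂ := fun y => κ y / (‖κ y‖ : ℂ) with hρ
  have bρ : BM c.W.μ c.B2 ρ := by
    have mq : Measurable fun t : ℂ => t / (‖t‖ : ℂ) :=
      measurable_id.div (Complex.measurable_ofReal.comp measurable_norm)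
    refine bm_of (C := 1) _ (mq.comp mκ) fun y => ?_
    simp only [hρ, norm_div, Complex.norm_real, norm_norm]
    exact div_self_le_one _
  have e2 : ∀ᵐ x ∂c.W2.μ, x ∈ M → ρ (c.Bc j x) = t x := by
    filter_upwards [e1, loc, hG.colE j _ ((um_bm uΦ).mul bz.conj),
      hG.rowE k _ ((um_bm uφ).mul (bw0 j).conj)] with x h1 h2 h3 h4 hx
    have h5 : κ (c.Bc j x) = t x * r (c.A k x) := by
      have := h2 hx
      rw [h3, h4] at this
      exact this
    obtain ⟨h6, h7⟩ : (r (c.A k x)).im = 0 ∧ 1 - 1 / 100 ≤ (r (c.A k x)).re := hx.1.2.1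
    have h8 : r (c.A k x) = ((r (c.A k x)).re : ℂ) := Complex.ext (by simp) (by simp [h6])
    have h9 : 0 < (r (c.A k x)).re := by linarith
    have h10 : ‖κ (c.Bc j x)‖ = (r (c.A k x)).re := by
      rw [h5, norm_mul, (h1 hx).2, one_mul, h8, Complex.norm_real, Complex.ofReal_re,
        Real.norm_of_nonneg h9.le]
    show κ (c.Bc j x) / (‖κ (c.Bc j x)‖ : ℂ) = _
    rw [h10, h5, ← h8, mul_div_assoc, div_self, mul_one]
    intro h0
    rw [h0, Complex.zero_re] at h9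
    exact lt_irrefl _ h9
  have e3 : ∀ᵐ x ∂c.W2.μ, x ∈ M → Φ j k (c.Bc j x) * conj (ρ (c.Bc j x)) = φ j (c.A k x) := by
    filter_upwards [e1, e2] with x h1 h2 hx
    have h4 : t x * conj (t x) = 1 := by
      rw [Complex.mul_conj, Complex.normSq_eq_norm_sq, (h1 hx).2]; simp
    rw [h2 hx, (h1 hx).1]
    linear_combination φ j (c.A k x) * h4
  obtain ⟨g0, mg, eg⟩ := col F j k (f1 := fun y => Φ j k y * conj (ρ y))
    ((um_bm uΦ).mul (bρ.mono hB).conj) (um_bm uφ) (hB _ mD) (hB _ mD')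
    (e3.mono fun x hx h1 h2 => hx ⟨h1, h2⟩)
  classical
  set g1 : c.X.X → ℂ := fun x => if ‖g0 x‖ = 1 then g0 x else 1 with hg1
  have n1 : ∀ x, ‖g1 x‖ = 1 := fun x => by
    simp only [hg1]
    split_ifs with h
    · exact h
    · exact norm_one
  have m1 : Measurable g1 :=
    Measurable.ite (measurableSet_eq_fun mg.norm measurable_const) mg measurable_const
  let g : Uni c.X.X := ⟨fun x => ⟨g1 x, mem_sphere_zero_iff_norm.2 (n1 x)⟩, m1⟩
  refine ⟨E', g, mE', sE, pE', ?_⟩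
  have ug : Um c.W2.ms c.W2.μ fun x => g1 (c.π k (c.Bc j x)) :=
    ⟨(m1.comp ((mP c k).comp (mB c j)).measurable).aestronglyMeasurable,
      Eventually.of_forall fun x => n1 _⟩
  refine R.of c.β c.W2.μ _ (fun x => ρ (c.Bc j x)) E' hβ (um_mul u1 (um_cj ug))
    ((F.a.bm_comp _ _ _ _ _ (mB c j) bρ).mono (hG.colB j)) mE' ?_
  filter_upwards [EM, eg, e3, kq _ mg, u1.2, u2.2] with x h1 h2 h3 h4 h5 h6 hx
  have hx' := h1 hx
  have h7 : Φ j k (c.Bc j x) * conj (ρ (c.Bc j x)) = g0 (c.π k (c.Bc j x)) :=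
    (h2 hx'.1 hx'.2).trans h4
  have h8 : g1 (c.π k (c.Bc j x)) = g0 (c.π k (c.Bc j x)) := by
    simp only [hg1]
    rw [if_pos]
    rw [← h7, h3 hx', h6]
  have h9 : Φ j k (c.Bc j x) * conj (Φ j k (c.Bc j x)) = 1 := by
    rw [Complex.mul_conj, Complex.normSq_eq_norm_sq, h5]; simp
  show Φ j k (c.Bc j x) * conj (g1 (c.π k (c.Bc j x))) = _
  rw [h8, ← h7, map_mul, Complex.conj_conj]
  linear_combination ρ (c.Bc j x) * h9

end T4x

end

end PkRep

section PkGSpU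

/-! Rows `GSpU` and `T5`: column tuples made of functions of the points. -/

set_option autoImplicit false
set_option linter.unusedVariables false
set_option linter.unusedSectionVars false
set_option warn.classDefReducibility false

open MeasureTheory ProbabilityTheory Filter Topology Function Finset ComplexConjugate
open scoped BigOperators
open Fib27 (BM sup pr Oc Orow F23 LInd Mem)
open Pool.Agent.MP_154433_an.SG (Uni ufn)

noncomputable section

namespace T4x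

open T3x

variable [Grp]

namespace GSpURow

theorem um_comp {Ω Ω' : Type} {m0 : MeasurableSpace Ω} {m0' : MeasurableSpace Ω'} {μ : Measure Ω}
    {μ' : Measure Ω'} {p : Ω → Ω'} (hp : MeasurePreserving p μ μ') {f : Ω' → ℂ}
    (hf : Um m0' μ' f) : Um m0 μ fun x => f (p x) :=
  ⟨hf.1.comp_quasiMeasurePreserving hp.quasiMeasurePreserving, hp.quasiMeasurePreserving.ae hf.2⟩

theorem um_bm {Ω : Type} {m m0 : MeasurableSpace Ω} {μ : Measure Ω} {f : Ω → ℂ}
    (hf : Um m μ f) : BM μ m f := BM.of_uni hf.1 hf.2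

theorem um_mono {Ω : Type} {m m' m0 : MeasurableSpace Ω} {μ : Measure Ω} {f : Ω → ℂ}
    (hf : Um m μ f) (h : m ≤ m') : Um m' μ f := ⟨hf.1.mono h, hf.2⟩

theorem um_ufn {Ω : Type} {m0 : MeasurableSpace Ω} (μ : Measure Ω) (g : Uni Ω) :
    Um m0 μ (ufn g) :=
  ⟨(Measurable.aestronglyMeasurable (show Measurable fun ω => (g.1 ω : ℂ) from g.2)),
    Eventually.of_forall fun ω => Circle.norm_coe (g.1 ω)⟩

theorem um_mul_conj {Ω : Type} {m m0 : MeasurableSpace Ω} {μ : Measure Ω} {f g : Ω → ℂ}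
    (hf : Um m μ f) (hg : Um m μ g) : Um m μ fun x => f x * conj (g x) := by
  refine ⟨((um_bm hf).mul (um_bm hg).conj).1, ?_⟩
  filter_upwards [hf.2, hg.2] with x h1 h2
  simp [h1, h2]

theorem meas_pull {Ω Ω' : Type} {B : MeasurableSpace Ω'} {m0 : MeasurableSpace Ω} (μ : Measure Ω)
    (p : Ω → Ω') {s : Set Ω'} (hs : MeasurableSet[B] s) :
    MeasurableSet[pull μ p B] (p ⁻¹' s) :=
  (le_sup_left : B.comap p ≤ pull μ p B) _ ⟨s, hs, rfl⟩

theorem meas_ne {Ω : Type} (β : MeasurableSpace Ω) {m0 : MeasurableSpace Ω} (μ : Measure Ω)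
    (F : Ω → ℂ) : MeasurableSet[β] {x | (μ[F | β]) x ≠ 0} :=
  ((stronglyMeasurable_condExp (m := β) (μ := μ) (f := F)).measurable
    (measurableSet_singleton 0)).compl

theorem ne_of_le {Ω : Type} {m0 : MeasurableSpace Ω} {μ : Measure Ω} {E E' : Set Ω}
    (h : μ E ≠ 0) (hle : ∀ᵐ x ∂μ, x ∈ E → x ∈ E') : μ E' ≠ 0 := fun h0 =>
  h (le_antisymm ((measure_mono_ae hle).trans h0.le) zero_le)

theorem unim {a g t : ℂ} (ha : ‖a‖ = 1) (h : a * conj g = t) : g = conj t * a := by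
  have h1 : conj a * a = 1 := by
    rw [mul_comm, Complex.mul_conj, Complex.normSq_eq_norm_sq, ha]; simp
  rw [← h, map_mul, Complex.conj_conj]
  linear_combination (-g) * h1

/-- a function that correlates with an element of a join correlates with a product -/
theorem corr {Ω ι : Type} (β : MeasurableSpace Ω) (p : ι → MeasurableSpace Ω) (S : Finset ι)
    {m0 : MeasurableSpace Ω} (μ : Measure Ω) [IsProbabilityMeasure μ] (hβ : β ≤ m0)
    (hp : ∀ i, p i ≤ m0) {F h : Ω → ℂ} {E : Set Ω} (hF : BM μ m0 F) (hh : BM μ (sup p S ⊔ β) h)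
    (hE : MeasurableSet[β] E) (h0 : μ (E ∩ {x | (μ[fun y => h y * F y | β]) x ≠ 0}) ≠ 0) :
    ∃ a : ι → Ω → ℂ, (∀ i, BM μ (p i) (a i)) ∧
      μ (E ∩ {x | (μ[fun y => F y * pr a S y | β]) x ≠ 0}) ≠ 0 := by
  by_contra hn
  push Not at hn
  have hle : sup p S ⊔ β ≤ m0 := sup_le (Fib27.sup_le' fun j _ => hp j) hβ
  have hI : BM μ β (E.indicator fun _ => (1 : ℂ)) := BM.indicator hE
  have hP : Fib27.Perp μ (β ⊔ sup p S) fun x => E.indicator (fun _ => (1 : ℂ)) x * F x := by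
    refine Fib27.perp_sup_pr hβ hp ((hI.mono hβ).mul hF) fun b ρ hb hρ => ?_
    have hz := measure_eq_zero_iff_ae_notMem.1 (hn ρ hρ)
    have hq : BM μ m0 fun y => F y * pr ρ S y := hF.mul (BM.pr fun k _ => (hρ k).mono (hp k))
    have e1 := Fib27.int_ce_mul hβ hq (hI.mul hb)
    have e2 : ∫ ω, (μ[fun y => F y * pr ρ S y | β]) ω *
        (E.indicator (fun _ => (1 : ℂ)) ω * b ω) ∂μ = 0 := by
      refine integral_eq_zero_of_ae ?_
      filter_upwards [hz] with x hx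
      by_cases hxE : x ∈ E
      · have : (μ[fun y => F y * pr ρ S y | β]) x = 0 := by
          by_contra h1
          exact hx ⟨hxE, h1⟩
        simp [this]
      · simp [hxE]
    rw [e2] at e1
    rw [e1]
    exact integral_congr_ae (Eventually.of_forall fun x => by ring)
  have hq : BM μ m0 fun y => h y * F y := (hh.mono hle).mul hF
  have ht : BM μ β (μ[fun y => h y * F y | β]) := hq.ce β
  have e0 := hP _ ((hh.mono (sup_comm _ _).le).mul (ht.conj.mono le_sup_left))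
  have e1 := Fib27.int_ce_mul hβ hq (hI.mul ht.conj)
  have e2 := Fib27.eq_zero_of_int_conj ((hI.mul ht).mono hβ) (by
    rw [← e0]
    refine Eq.trans ?_ (e1.trans (integral_congr_ae (Eventually.of_forall fun x => by ring)))
    refine integral_congr_ae (Eventually.of_forall fun x => ?_)
    by_cases hxE : x ∈ E <;> simp [hxE])
  refine h0 (measure_eq_zero_iff_ae_notMem.2 ?_)
  filter_upwards [e2] with x hx hm
  simp only [Set.indicator_of_mem hm.1, one_mul] at hx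
  exact hm.2 hx

variable (c : Ctx)

theorem mpA (q : c.ι) : MeasurePreserving (c.A q) c.W2.μ c.W.μ := (c.L2.emb _).mp

theorem mpB (j : c.ι) : MeasurePreserving (c.Bc j) c.W2.μ c.W.μ := (c.lift j).emb.mp

theorem mpP (k : c.ι) : MeasurePreserving (c.π k) c.W.μ c.X.μ := (c.L.emb _).mp

theorem um_up (g : c.ι → Uni c.X.X) (k : c.ι) : Um c.W.ms c.W.μ (c.up g k) :=
  um_comp (mpP c k) (um_ufn _ (g k))

theorem bm_pr_up (g : c.ι → Uni c.X.X) : BM c.W.μ c.W.ms (pr (c.up g) univ) :=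
  BM.pr fun k _ => um_bm (um_up c g k)

variable {c}

theorem facB2 (fd : Fd) : Fac c.W c.B2 :=
  (fd.h.kc _ _ c.L.nice (fd.lb.fac c.L c.B c.kc.1)).1

theorem ble (fd : Fd) : c.β ≤ c.W2.ms :=
  (fd.h.kc _ _ c.L2.nice (fd.lb.fac c.L2 c.B2 (facB2 fd))).1.le

theorem um_tup (fd : Fd) {φ : c.ι → c.W.X → ℂ} (h : c.Tup1 φ) (k : c.ι) :
    Um c.W.ms c.W.μ (φ k) :=
  um_mono (h k) (sup_le (fd.a.pull_le _ _ _ _ (mpP c k) le_rfl) (facB2 fd).le)

theorem measB (gi : c.GI) (j : c.ι) {Z : Set c.W.X} (hZ : MeasurableSet[c.B2] Z) :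
    MeasurableSet[c.β] (c.Bc j ⁻¹' Z) := gi.colB j _ (meas_pull _ _ hZ)

theorem measA (gi : c.GI) (q : c.ι) {Z : Set c.W.X} (hZ : MeasurableSet[c.B2] Z) :
    MeasurableSet[c.β] (c.A q ⁻¹' Z) := gi.rowB q _ (meas_pull _ _ hZ)

theorem swap (fd : Fd) (gi : c.GI) (q j : c.ι) (g : Uni c.X.X) :
    (fun x => ufn g (c.π j (c.A q x))) =ᵐ[c.W2.μ] fun x => ufn g (c.π q (c.Bc j x)) :=
  fd.a.keq_fun c.X.ms c.W2.μ c.X.μ (c.π j ∘ c.A q) (c.π q ∘ c.Bc j) (ufn g)
    ((mpP c j).comp (mpA c q)) ((mpP c q).comp (mpB c j)) (gi.col q j) (um_ufn _ g).1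

/-- the representation for all members of a column tuple at once -/
theorem rep_all (rep : Rep c) (j : c.ι) (Φ : c.ι → c.ι → c.W.X → ℂ) (E : Set c.W2.X)
    (hΦ : ∀ i, c.Tup1 (Φ i)) (hE : MeasurableSet[c.β] E) (h0 : c.W2.μ E ≠ 0)
    (h1 : E ≤ᵐ[c.W2.μ] c.Bc j ⁻¹' c.Θ (Φ j))
    (h2 : ∀ k, E ≤ᵐ[c.W2.μ] (Th c.β c.W2.μ fun x => ∏ i, Φ i k (c.Bc i x))) (S : Finset c.ι) :
    ∃ (E' : Set c.W2.X) (g : c.ι → Uni c.X.X), MeasurableSet[c.β] E' ∧ E' ⊆ E ∧ c.W2.μ E' ≠ 0 ∧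
      ∀ k ∈ S, E' ≤ᵐ[c.W2.μ]
        Th c.β c.W2.μ fun x => Φ j k (c.Bc j x) * conj (ufn (g k) (c.π k (c.Bc j x))) := by
  induction S using Finset.induction_on with
  | empty => exact ⟨E, fun _ => 1, hE, subset_rfl, h0, fun k hk => absurd hk (notMem_empty k)⟩
  | insert k S hk ih =>
    obtain ⟨E1, g, m1, s1, n1, t1⟩ := ih
    obtain ⟨E2, g2, m2, s2, n2, t2⟩ := rep j k Φ E1 hΦ m1 n1 (s1.eventuallyLE.trans h1)
      (s1.eventuallyLE.trans (h2 k))
    refine ⟨E2, update g k g2, m2, s2.trans s1, n2, fun l hl => ?_⟩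
    rcases eq_or_ne l k with rfl | hne
    · rw [update_self]; exact t2
    · rw [update_of_ne hne]
      exact s2.eventuallyLE.trans (t1 l ((mem_insert.1 hl).resolve_left hne))

end GSpURow

open GSpURow in
theorem gspU : GSpUR := by
  intro fd rc c gi hg gs fu rep q j h hv hne
  have hβ := hg.ble
  obtain ⟨φ, hφ, h0⟩ := gs q j h hv hne
  have uφ : ∀ k, Um c.W2.ms c.W2.μ fun x => φ k (c.Bc j x) := fun k =>
    um_comp (mpB c j) (um_tup fd hφ k)
  have mΘ : MeasurableSet[c.β] (c.Bc j ⁻¹' c.Θ φ) := measB gi j (rc.meas _ _ _)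
  have mE0 := mΘ.inter (meas_ne c.β c.W2.μ fun y => h y * φ q (c.Bc j y))
  obtain ⟨a, ha, h1⟩ := corr c.β (c.G q) (univ.erase j) c.W2.μ hβ (hg.le q) (um_bm (uφ q))
    hv.2.2 mE0 (by rwa [Set.inter_assoc, Set.inter_self])
  obtain ⟨E1, Φ, m1, s1, n1, hΦ, hj, t1, t2⟩ := fu q j φ _ a hφ mE0
    Set.inter_subset_left.eventuallyLE (fun i => (ha i).mono le_sup_left) h1
  obtain ⟨E, g, mE, sE, nE, tE⟩ := rep_all rep j Φ E1 hΦ m1 n1 (t1 j) t2 univ
  rw [hj] at tE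
  have ug : ∀ k, Um c.W2.ms c.W2.μ fun x => c.up g k (c.Bc j x) := fun k =>
    um_comp (mpB c j) (um_up c g k)
  have uu := fun k => um_mul_conj (uφ k) (ug k)
  set t : c.ι → c.W2.X → ℂ := fun k x =>
    conj ((c.W2.μ[fun x => φ k (c.Bc j x) * conj (c.up g k (c.Bc j x)) | c.β]) x) with ht
  have bt : ∀ k, BM c.W2.μ c.β (t k) := fun k => ((um_bm (uu k)).ce c.β).conj
  have key : ∀ k, ∀ᵐ x ∂c.W2.μ, x ∈ E →
      c.up g k (c.Bc j x) = t k x * φ k (c.Bc j x) ∧ ‖t k x‖ = 1 := by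
    intro k
    filter_upwards [tE k (mem_univ k), rc.eq c.β c.W2.μ _ hβ (uu k), (uφ k).2] with x a1 a2 a3 hx
    have a4 := a1 hx
    refine ⟨unim a3 (a2 a4), ?_⟩
    rw [ht]
    simp only [Complex.norm_conj]
    exact a4
  have hh : BM c.W2.μ c.W2.ms h := hv.1.mono (sup_le (hg.le q j) hβ)
  have l1 := rc.loc c.β c.W2.μ (fun y => h y * c.up g q (c.Bc j y)) (fun y => h y * φ q (c.Bc j y))
    (t q) E hβ (hh.mul (um_bm (ug q))) (hh.mul (um_bm (uφ q))) (bt q) mE (by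
      filter_upwards [key q] with x hx hE
      rw [(hx hE).1]; ring)
  have bφ : BM c.W.μ c.W.ms (pr φ univ) := BM.pr fun k _ => um_bm (um_tup fd hφ k)
  have l2 := rc.loc c.β c.W2.μ (fun y => pr (c.up g) univ (c.Bc j y))
    (fun y => pr φ univ (c.Bc j y)) (pr t univ) E hβ
    (BM.pr (ρ := fun k x => c.up g k (c.Bc j x)) fun k _ => um_bm (ug k))
    (BM.pr (ρ := fun k x => φ k (c.Bc j x)) fun k _ => um_bm (uφ k))
    (BM.pr fun k _ => bt k) mE (by
      filter_upwards [ae_all_iff.2 key] with x hx hE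
      simp only [pr, ← prod_mul_distrib]
      exact prod_congr rfl fun k _ => (hx k hE).1)
  refine ⟨c.up g, ⟨g, rfl⟩, ne_of_le nE ?_⟩
  filter_upwards [l1, l2, ae_all_iff.2 key, gi.colE j _ bφ, gi.colE j _ (bm_pr_up c g)] with
    x a1 a2 a3 a4 a5 hE
  have hx := s1 (sE hE)
  refine ⟨?_, ?_⟩
  · have b1 : ‖(c.W.μ[pr φ univ | c.B2]) (c.Bc j x)‖ = 1 := hx.1
    show ‖(c.W.μ[pr (c.up g) univ | c.B2]) (c.Bc j x)‖ = 1
    rw [← a5, a2 hE, a4, norm_mul, b1, mul_one]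
    simp only [pr, norm_prod]
    exact prod_eq_one fun k _ => (a3 k hE).2
  · show (c.W2.μ[fun y => h y * c.up g q (c.Bc j y) | c.β]) x ≠ 0
    rw [a1 hE]
    refine mul_ne_zero (fun hz => ?_) hx.2
    have := (a3 q hE).2
    rw [hz, norm_zero] at this
    exact zero_ne_one this

open GSpURow in
theorem t5 : T5R := by
  intro fd rc c gi gs fu
  have hβ : c.β ≤ c.W2.ms := ble fd
  refine ⟨?_, ?_⟩
  · intro q j k g h Z hq hZ hsub
    have mE : MeasurableSet[c.β]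
        ((c.Bc q ⁻¹' c.Θ (c.up g) ∩ c.A j ⁻¹' c.Θ (c.up h)) ∩ (c.A k ⁻¹' Z)ᶜ) :=
      ((measB gi q (rc.meas _ _ _)).inter (measA gi j (rc.meas _ _ _))).inter (measA gi k hZ).compl
    suffices hz : c.W2.μ ((c.Bc q ⁻¹' c.Θ (c.up g) ∩ c.A j ⁻¹' c.Θ (c.up h)) ∩
        (c.A k ⁻¹' Z)ᶜ) = 0 by
      filter_upwards [measure_eq_zero_iff_ae_notMem.1 hz] with x hx hm
      by_contra hn
      exact hx ⟨hm, hn⟩
    by_contra n0
    have ha : ∀ i, BM c.W2.μ (c.G j i ⊔ c.β) fun x => c.up h i (c.A j x) := fun i =>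
      (fd.a.bm_comp c.X.ms c.W2.μ c.X.μ (c.π i ∘ c.A j) (ufn (h i)) ((mpP c i).comp (mpA c j))
        (um_bm (um_ufn _ (h i)))).mono le_sup_left
    have e1 : (fun y => c.up g j (c.Bc q y) * pr (fun i x => c.up h i (c.A j x)) (univ.erase q) y)
        =ᵐ[c.W2.μ] fun y => pr (c.up h) univ (c.A j y) := by
      filter_upwards [swap fd gi j q (g j)] with y hy
      rw [Fib27.pr_erase (c.up h) (mem_univ q)]
      have : c.up h q (c.A j y) = c.up g j (c.Bc q y) := by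
        show ufn (h q) (c.π q (c.A j y)) = ufn (g j) (c.π j (c.Bc q y))
        rw [hq]; exact hy
      rw [this]; rfl
    obtain ⟨E1, Φ, m1, s1, n1, hΦ, hj, t1, t2⟩ := fu j q (c.up g) _
      (fun i x => c.up h i (c.A j x)) ⟨g, rfl⟩ mE
      (Set.inter_subset_left.trans Set.inter_subset_left).eventuallyLE ha (ne_of_le n0 (by
        filter_upwards [condExp_congr_ae (m := c.β) e1, gi.rowE j _ (bm_pr_up c h)] with
          x a1 a2 hx
        refine ⟨hx, ?_⟩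
        have b1 : ‖(c.W.μ[pr (c.up h) univ | c.B2]) (c.A j x)‖ = 1 := hx.1.2
        show (c.W2.μ[fun y => c.up g j (c.Bc q y) *
          pr (fun i x => c.up h i (c.A j x)) (univ.erase q) y | c.β]) x ≠ 0
        rw [a1, a2]
        intro hz
        rw [hz, norm_zero] at b1
        exact zero_ne_one b1))
    choose γ hγ using hΦ
    have hγ' : ∀ i, Φ i = c.up (update γ q g i) := by
      intro i
      rcases eq_or_ne i q with rfl | hne
      · rw [update_self]; exact hj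
      · rw [update_of_ne hne]; exact hγ i
    have e2 : (fun x => ∏ i, Φ i k (c.Bc i x)) =ᵐ[c.W2.μ]
        fun x => pr (c.up fun i => update γ q g i k) univ (c.A k x) := by
      filter_upwards [ae_all_iff.2 fun i => swap fd gi k i (update γ q g i k)] with x hx
      refine prod_congr rfl fun i _ => ?_
      rw [hγ' i]
      exact (hx i).symm
    have e3 := (mpA c k).quasiMeasurePreserving.ae
      (hsub (fun i => update γ q g i k) (by simp only [update_self]))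
    refine n1 (measure_eq_zero_iff_ae_notMem.2 ?_)
    filter_upwards [t2 k, condExp_congr_ae (m := c.β) e2, e3,
      gi.rowE k _ (bm_pr_up c fun i => update γ q g i k)] with x a1 a2 a3 a4 hx
    have b1 : ‖(c.W2.μ[fun x => ∏ i, Φ i k (c.Bc i x) | c.β]) x‖ = 1 := a1 hx
    rw [a2, a4] at b1
    exact (s1 hx).2 (a3 b1)
  · rintro ⟨j, h, hv, hne, hz⟩
    obtain ⟨_, ⟨g, rfl⟩, h0⟩ := gs j j h hv hne
    refine ⟨g, j, fun n0 => h0 (measure_eq_zero_iff_ae_notMem.2 ?_)⟩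
    have mp2 := (mpP c j).comp (mpB c j)
    have hG : c.G j j ≤ c.W2.ms := fd.a.pull_le _ _ _ _ ((mpP c j).comp (mpA c j)) le_rfl
    have hh : BM c.W2.μ c.W2.ms h := hv.1.mono (sup_le hG hβ)
    have b1 : BM c.W.μ c.B2 fun w => (c.X.μ[ufn (g j) | c.B]) (c.π j w) :=
      (fd.a.bm_comp c.B c.W.μ c.X.μ (c.π j) _ (mpP c j)
        ((um_bm (um_ufn c.X.μ (g j))).ce c.B)).mono
        ((fd.lb.slot c.L c.B (c.sl j) c.kc.1).trans (fd.h.le _ _))
    have b2 : BM c.W2.μ c.β fun x => (c.X.μ[ufn (g j) | c.B]) (c.π j (c.Bc j x)) :=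
      (fd.a.bm_comp c.B2 c.W2.μ c.W.μ (c.Bc j) _ (mpB c j) b1).mono (gi.colB j)
    have e1 := mp2.quasiMeasurePreserving.ae (rc.eq c.B c.X.μ _ c.kc.1.le (um_ufn _ (g j)))
    have e2 := (mpB c j).quasiMeasurePreserving.ae (measure_eq_zero_iff_ae_notMem.1 n0)
    have l1 := rc.loc c.β c.W2.μ (fun y => h y * c.up g j (c.Bc j y)) h _
      (c.Bc j ⁻¹' c.Θ (c.up g)) hβ (hh.mul (um_bm (um_comp (mpB c j) (um_up c g j)))) hh b2
      (measB gi j (rc.meas _ _ _)) (by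
        filter_upwards [e1, e2] with x a1 a2 hx
        have a3 : ‖(c.X.μ[ufn (g j) | c.B]) (c.π j (c.Bc j x))‖ = 1 := by
          by_contra hn
          exact a2 ⟨hx, hn⟩
        have a4 : c.up g j (c.Bc j x) = (c.X.μ[ufn (g j) | c.B]) (c.π j (c.Bc j x)) := a1 a3
        rw [a4, mul_comm])
    filter_upwards [l1, hz] with x a1 a2 hx
    refine hx.2 ?_
    rw [a1 hx.1, a2, Pi.zero_apply, mul_zero]

end T4x

end

end PkGSpU
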