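import Pool.Agent.MP_154433_an.t4.Spec

/-! Rows for commuting maps, part A8. -/

section PkGf

/-! Rows Gf, Cpt and Det: good factors. -/

set_option autoImplicit false
set_option linter.unusedVariables false
set_option linter.unusedSectionVars false

open MeasureTheory ProbabilityTheory Filter Topology Function Finset ComplexConjugate
open scoped BigOperators
open Fib27 (BM)

noncomputable section

namespace T4x

open T3x

namespace GfL

section gen

variable {Ω Ω' : Type} {m m0 : MeasurableSpace Ω} {m0' : MeasurableSpace Ω'} {μ : Measure[m0] Ω}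
  {μ' : Measure[m0'] Ω'}

lemma bm_sum {κ : Type} (s : Finset κ) {a : κ → Ω → ℂ} (h : ∀ j ∈ s, BM μ m (a j)) :
    BM μ m fun x => ∑ j ∈ s, a j x := by
  classical
  induction s using Finset.induction_on with
  | empty => simpa using BM.const 0
  | insert j s hj ih =>
    simp only [sum_insert hj]
    exact (h j (mem_insert_self _ _)).add (ih fun k hk => h k (mem_insert_of_mem hk))

lemma bm_comp {p : Ω → Ω'} (hp : @MeasurePreserving _ _ m0 m0' p μ μ') {f : Ω' → ℂ}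
    (h : BM μ' m0' f) : BM μ m0 fun x => f (p x) :=
  ⟨h.1.comp_measurePreserving hp, h.2.imp fun _ hC => hp.quasiMeasurePreserving.ae hC⟩

lemma mpc {Ω'' : Type} {m0'' : MeasurableSpace Ω''} {μ'' : Measure[m0''] Ω''} {p : Ω → Ω'}
    {q : Ω' → Ω''} (hq : @MeasurePreserving _ _ m0' m0'' q μ' μ'')
    (hp : @MeasurePreserving _ _ m0 m0' p μ μ') : @MeasurePreserving _ _ m0 m0'' (q ∘ p) μ μ'' :=
  hq.comp hp

lemma int_comp {E : Type} [NormedAddCommGroup E] [NormedSpace ℝ E] {p : Ω → Ω'}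
    (hp : @MeasurePreserving _ _ m0 m0' p μ μ') {f : Ω' → E} (h : AEStronglyMeasurable[m0'] f μ') :
    ∫ x, f (p x) ∂μ = ∫ y, f y ∂μ' := by
  rw [← hp.map_eq] at h ⊢
  exact (integral_map hp.measurable.aemeasurable h).symm

lemma desc {p : Ω → Ω'} (hp : @MeasurePreserving _ _ m0 m0' p μ μ') {a b : Ω' → ℂ}
    (ha : BM μ' m0' a) (hb : BM μ' m0' b) (h : (fun x => a (p x)) =ᵐ[μ] fun x => b (p x)) :
    a =ᵐ[μ'] b :=
  (hp.measure_preimage (ha.1.nullMeasurableSet_eq_fun hb.1).compl).symm.trans h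

variable [IsProbabilityMeasure μ]

lemma isq {a : Ω → ℂ} (h : BM μ m0 a) : Integrable (fun x => ‖a x‖ ^ 2) μ :=
  (h.memLp ((2 : ℕ) : ENNReal)).integrable_norm_pow two_ne_zero

lemma n2_add {a b : Ω → ℂ} (ha : BM μ m0 a) (hb : BM μ m0 b) :
    ∫ x, ‖a x + b x‖ ^ 2 ∂μ ≤ 2 * ∫ x, ‖a x‖ ^ 2 ∂μ + 2 * ∫ x, ‖b x‖ ^ 2 ∂μ := by
  rw [← integral_const_mul, ← integral_const_mul,
    ← integral_add ((isq ha).const_mul 2) ((isq hb).const_mul 2)]
  refine integral_mono (isq (ha.add hb)) (((isq ha).const_mul 2).add ((isq hb).const_mul 2))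
    fun x => ?_
  have h := pow_le_pow_left₀ (norm_nonneg _) (norm_add_le (a x) (b x)) 2
  nlinarith [sq_nonneg (‖a x‖ - ‖b x‖)]

lemma n2_sub {a b : Ω → ℂ} (ha : BM μ m0 a) (hb : BM μ m0 b) :
    ∫ x, ‖a x - b x‖ ^ 2 ∂μ ≤ 2 * ∫ x, ‖a x‖ ^ 2 ∂μ + 2 * ∫ x, ‖b x‖ ^ 2 ∂μ := by
  simpa [sub_eq_add_neg] using n2_add ha (hb.cmul (-1))

/-- bounded functions that tend to zero in mean square -/
def Sm (μ : Measure[m0] Ω) (φ : ℕ → Ω → ℂ) : Prop :=
  Tendsto (fun M => ∫ x, ‖φ M x‖ ^ 2 ∂μ) atTop (𝓝 0)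

lemma sm_of {φ a b : ℕ → Ω → ℂ} (ha : Sm μ a) (hb : Sm μ b) (h : ∀ M, ∫ x, ‖φ M x‖ ^ 2 ∂μ ≤
    2 * ∫ x, ‖a M x‖ ^ 2 ∂μ + 2 * ∫ x, ‖b M x‖ ^ 2 ∂μ) : Sm μ φ :=
  squeeze_zero (fun _ => integral_nonneg fun _ => by positivity) h
    (by simpa using (ha.const_mul 2).add (hb.const_mul 2))

lemma sm_sum {κ : Type} (s : Finset κ) {a : κ → ℕ → Ω → ℂ} (h : ∀ j M, BM μ m0 (a j M))
    (h' : ∀ j, Sm μ (a j)) : Sm μ fun M x => ∑ j ∈ s, a j M x := by
  classical
  induction s using Finset.induction_on with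
  | empty => simp [Sm]
  | insert j s hj ih =>
    simp only [sum_insert hj]
    exact sm_of (h' j) ih fun M => n2_add (h j M) (bm_sum s fun k _ => h k M)

lemma sm_apx {φ : ℕ → Ω → ℂ} (h : ∀ ε : ℝ, 0 < ε → ∃ a b : ℕ → Ω → ℂ, Sm μ a ∧
    (∀ M, BM μ m0 (a M) ∧ BM μ m0 (b M) ∧ ∫ x, ‖b M x‖ ^ 2 ∂μ ≤ ε) ∧
    ∀ M x, φ M x = a M x + b M x) : Sm μ φ := by
  refine tendsto_order.2 ⟨fun c hc => Eventually.of_forall fun M =>
    hc.trans_le (integral_nonneg fun _ => by positivity), fun c hc => ?_⟩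
  obtain ⟨a, b, h1, h2, h3⟩ := h (c / 4) (by positivity)
  filter_upwards [(tendsto_order.1 h1).2 (c / 4) (by positivity)] with M hM
  simp only [h3]
  linarith [n2_add (h2 M).1 (h2 M).2.1, (h2 M).2.2]

end gen

variable [Grp] {X : Sys} {ι : Type} [Fintype ι] [DecidableEq ι] {ν ν' : Wt} {r : ι → Γ}
  {f : ι → X.X → ℂ}

omit [DecidableEq ι] in
lemma avg_eq (M : ℕ) (x : X.X) :
    avg ν M X r f x = ∑ d ∈ ν.sp M, (ν.w M d : ℂ) * ∏ i, f i (X.Tz (d • r i) x) := by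
  simp only [avg, Wt.av, Complex.real_smul]

omit [DecidableEq ι] in
lemma bm_avg (t : BasT) (hf : ∀ i, BM X.μ X.ms (f i)) (M : ℕ) : BM X.μ X.ms (avg ν M X r f) :=
  (bm_sum (ν.sp M) fun d _ => (BM.pr (S := univ) fun i _ =>
    bm_comp (t.mp X (d • r i)) (hf i)).cmul (ν.w M d : ℂ)).congr
    (Eventually.of_forall fun x => (avg_eq M x).symm)

lemma bm_upd (hf : ∀ i, BM X.μ X.ms (f i)) (i : ι) {h : X.X → ℂ} (hh : BM X.μ X.ms h) (j : ι) :
    BM X.μ X.ms (update f i h j) := by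
  rcases eq_or_ne j i with rfl | e
  · rwa [update_self]
  · rw [update_of_ne e]; exact hf j

lemma avg_upd (i : ι) (h : X.X → ℂ) (M : ℕ) (x : X.X) : avg ν M X r (update f i h) x =
    ∑ d ∈ ν.sp M, (ν.w M d : ℂ) *
      (h (X.Tz (d • r i) x) * ∏ j ∈ univ.erase i, f j (X.Tz (d • r j) x)) := by
  rw [avg_eq]
  refine sum_congr rfl fun d _ => ?_
  rw [← mul_prod_erase univ _ (mem_univ i), update_self]
  congr 2
  exact prod_congr rfl fun j hj => by rw [update_of_ne (ne_of_mem_erase hj)]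

lemma avg_split (i : ι) {n : ℕ} (a : Fin n → X.X → ℂ) (M : ℕ) (x : X.X) :
    avg ν M X r f x = ∑ j, avg ν M X r (update f i (a j)) x +
      avg ν M X r (update f i fun y => f i y - ∑ j, a j y) x := by
  conv_lhs => rw [← update_eq_self i f]
  simp only [avg_upd]
  rw [sum_comm, ← sum_add_distrib]
  refine sum_congr rfl fun d _ => ?_
  rw [← mul_sum, ← sum_mul]
  ring

lemma contr (t : BasT) (hf : ∀ i, BM X.μ X.ms (f i)) (i : ι) : ∃ K : ℝ, 0 < K ∧
    ∀ (ν : Wt) (M : ℕ) (h : X.X → ℂ), BM X.μ X.ms h →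
      ∫ x, ‖avg ν M X r (update f i h) x‖ ^ 2 ∂X.μ ≤ K * ∫ x, ‖h x‖ ^ 2 ∂X.μ := by
  choose C hC using fun j => (hf j).2
  obtain ⟨K, hK⟩ : ∃ K : ℝ, K = (∏ j ∈ univ.erase i, C j) ^ 2 + 1 := ⟨_, rfl⟩
  refine ⟨K, by rw [hK]; positivity, fun ν M h hh => ?_⟩
  have hi : ∀ d ∈ ν.sp M, Integrable (fun x => ν.w M d * (K * ‖h (X.Tz (d • r i) x)‖ ^ 2)) X.μ :=
    fun d _ => ((isq (bm_comp (t.mp X _) hh)).const_mul K).const_mul _
  refine (integral_mono_ae (isq (bm_avg t (bm_upd hf i hh) M)) (integrable_finsetSum _ hi)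
    ?_).trans (le_of_eq ?_)
  · filter_upwards [ae_all_iff.2 fun j => ae_all_iff.2 fun n : Γ =>
      (t.mp X n).quasiMeasurePreserving.ae (hC j)] with x hx
    have cv : ConvexOn ℝ Set.univ fun z : ℂ => ‖z‖ ^ 2 :=
      convexOn_univ_norm.pow (fun _ _ => norm_nonneg _) 2
    have h1 := cv.map_sum_le (t := ν.sp M) (w := ν.w M) (p := fun d =>
      h (X.Tz (d • r i) x) * ∏ j ∈ univ.erase i, f j (X.Tz (d • r j) x))
      (fun d _ => ν.nn M d) (ν.one M) fun _ _ => Set.mem_univ _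
    rw [avg_upd]
    simp only [Complex.real_smul, smul_eq_mul] at h1
    refine h1.trans (sum_le_sum fun d _ => mul_le_mul_of_nonneg_left ?_ (ν.nn M d))
    rw [norm_mul, mul_pow, mul_comm, norm_prod, hK]
    refine mul_le_mul_of_nonneg_right (le_trans (pow_le_pow_left₀ (by positivity)
      (prod_le_prod (fun _ _ => norm_nonneg _) fun j _ => hx j _) 2) (by linarith)) (by positivity)
  · rw [integral_finsetSum _ hi, ← one_mul (K * _), ← ν.one M, sum_mul]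
    refine sum_congr rfl fun d _ => ?_
    rw [integral_const_mul, integral_const_mul,
      int_comp (f := fun y => ‖h y‖ ^ 2) (t.mp X _) (isq hh).1]

omit [DecidableEq ι] in
lemma avg_congr (t : BasT) {g : ι → X.X → ℂ} (h : ∀ i, f i =ᵐ[X.μ] g i) (M : ℕ) :
    avg ν M X r f =ᵐ[X.μ] avg ν M X r g := by
  filter_upwards [ae_all_iff.2 fun j => ae_all_iff.2 fun n : Γ =>
    (t.mp X n).quasiMeasurePreserving.ae (h j)] with x hx
  simp only [avg_eq, hx]

lemma dense (t : BasT) {C : MeasurableSpace X.X} {T : Set (X.X → ℂ)} (hC : C ≤ X.ms)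
    (hT : ∀ φ ∈ T, BM X.μ X.ms φ)
    (h1 : ∀ g, BM X.μ C g → ∀ ε : ℝ, 0 < ε → ∃ (n : ℕ) (a : Fin n → X.X → ℂ), (∀ i, a i ∈ T) ∧
      ∫ x, ‖g x - ∑ i, a i x‖ ^ 2 ∂X.μ ≤ ε)
    (h2 : ∀ f : ι → X.X → ℂ, (∀ i, f i ∈ T) →
      Sm X.μ fun M x => avg ν M X r f x - avg ν' M X r f x) : Good ν ν' X r C := by
  have key : ∀ (S : Finset ι) (f : ι → X.X → ℂ), (∀ i ∈ S, BM X.μ C (f i)) → (∀ i ∉ S, f i ∈ T) →
      Sm X.μ fun M x => avg ν M X r f x - avg ν' M X r f x := by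
    intro S
    induction S using Finset.induction_on with
    | empty => exact fun f _ h => h2 f fun i => h i (notMem_empty i)
    | insert i S hi ih =>
      intro f k1 k2
      have hf : ∀ j, BM X.μ X.ms (f j) := fun j =>
        (em _).elim (fun h => (k1 j h).mono hC) fun h => hT _ (k2 j h)
      obtain ⟨K, hK, hc⟩ := contr (r := r) t hf i
      refine sm_apx fun ε hε => ?_
      obtain ⟨n, a, ha, hb⟩ := h1 (f i) (k1 i (mem_insert_self _ _)) (ε / (4 * K)) (by positivity)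
      have hd := (hf i).sub (bm_sum univ fun j _ => hT _ (ha j))
      have bm : ∀ j M, BM X.μ X.ms fun x => avg ν M X r (update f i (a j)) x -
          avg ν' M X r (update f i (a j)) x := fun j M =>
        (bm_avg t (bm_upd hf i (hT _ (ha j))) M).sub (bm_avg t (bm_upd hf i (hT _ (ha j))) M)
      refine ⟨_, fun M x => avg ν M X r (update f i fun y => f i y - ∑ j, a j y) x -
        avg ν' M X r (update f i fun y => f i y - ∑ j, a j y) x,
        sm_sum univ bm fun j => ih _ (fun k hk => ?_) fun k hk => ?_, fun M => ⟨bm_sum _ fun j _ =>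
          bm j M, (bm_avg t (bm_upd hf i hd) M).sub (bm_avg t (bm_upd hf i hd) M), ?_⟩,
        fun M x => ?_⟩
      · rw [update_of_ne (by rintro rfl; exact hi hk)]
        exact k1 k (mem_insert_of_mem hk)
      · rcases eq_or_ne k i with rfl | e
        · rw [update_self]; exact ha j
        · rw [update_of_ne e]; exact k2 k (by simp [e, hk])
      · have e1 := mul_le_mul_of_nonneg_left hb hK.le
        have e2 : K * (ε / (4 * K)) = ε / 4 := by field_simp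
        linarith [n2_sub (bm_avg (ν := ν) (r := r) t (bm_upd hf i hd) M)
          (bm_avg (ν := ν') (r := r) t (bm_upd hf i hd) M), hc ν M _ hd, hc ν' M _ hd]
      · rw [avg_split (ν := ν) i a, avg_split (ν := ν') i a, sum_sub_distrib]
        ring
  exact fun f hf => key univ f (fun i _ => hf i) fun i hi => absurd (mem_univ i) hi

end GfL

variable [Grp]

open GfL in
theorem gf : GfR := by
  rintro ⟨A, t, D, -⟩
  refine ⟨fun ν ν' X ι _ _ r C T hC hT h1 h2 => dense t hC.le hT h1 h2,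
    fun ν ν' X ι _ _ r 𝒞 hne hch h => ?_, fun ν ν' X X' e ι _ _ r he h hg f hf => ?_⟩
  · have hle := (t.fsSup X 𝒞 hne fun C hC => (h C hC).1).le
    refine dense t (T := {φ | ∃ C ∈ 𝒞, BM X.μ C φ}) hle
      (fun φ ⟨C, hC, hφ⟩ => hφ.mono (h C hC).1.le) (fun g hg ε hε => ?_) fun f hf => ?_
    · obtain ⟨C, hC, k⟩ := D.chain 𝒞 X.μ hne hch.directedOn (fun C hC => (h C hC).1.le) g
        ((hg.mono hle).memLp 2) ε hε
      refine ⟨1, fun _ => X.μ[g | C], fun _ => ⟨C, hC, hg.ce C⟩, le_trans (le_of_eq ?_)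
        (k C hC le_rfl)⟩
      refine integral_congr_ae ?_
      filter_upwards [BM.ce_self hle hg] with x hx
      rw [hx, Fin.sum_univ_one]
    · choose C hC hC' using hf
      have := hne.to_subtype
      obtain ⟨z, hz⟩ := hch.directedOn.directed_val.finite_le fun i => ⟨C i, hC i⟩
      exact (h z z.2).2 f fun i => (hC' i).mono (hz i)
  · have k : ∀ i, ∃ f' : X'.X → ℂ, BM X'.μ X'.ms f' ∧ f i =ᵐ[X.μ] fun x => f' (e x) := fun i => by
      obtain ⟨k1, C, hC⟩ := hf i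
      obtain ⟨f0, a1, a2, a3⟩ := A.rep X.ms X.μ (f i) (max C 0) (le_max_right _ _) k1
        (hC.mono fun _ h => h.trans (le_max_left _ _))
      obtain ⟨f', ⟨b1, C', b2⟩, b3⟩ := h f0 ⟨a1, _, a2⟩
      exact ⟨f', ⟨b1.aestronglyMeasurable, C', Eventually.of_forall b2⟩, by simpa only [b3]⟩
    choose f' k1 k2 using k
    have e1 : ∀ (ν : Wt) M, avg ν M X r f =ᵐ[X.μ] fun x => avg ν M X' r f' (e x) := fun ν M => by
      filter_upwards [avg_congr (ν := ν) (r := r) t k2 M, ae_all_iff.2 fun j =>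
        ae_all_iff.2 fun n : Γ => A.keq_fun X'.ms X.μ X'.μ _ _ (f' j) (he.mp.comp (t.mp X n))
          ((t.mp X' n).comp he.mp) (t.emb_z X X' e n he) (k1 j).1] with x h1 h2
      rw [h1]
      simp only [avg_eq]
      exact sum_congr rfl fun d _ => congrArg _ (prod_congr rfl fun j _ => h2 j _)
    refine (hg f' k1).congr fun M => ?_
    rw [← int_comp he.mp (isq ((bm_avg t k1 M).sub (bm_avg t k1 M))).1]
    refine integral_congr_ae ?_
    filter_upwards [e1 ν M, e1 ν' M] with x h1 h2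
    rw [h1, h2]

open GfL in
theorem cpt : CptR := by
  intro F G hA ν ν' X ι _ _ r B0 C u hu hX hB hC hBC hI hg h0
  obtain ⟨Z, p, hp⟩ : ∃ Z p, Pair X C Z p := F.rp Bool (fun _ => X) X C (fun _ => id) false
    (fun _ => hX) hC (fun _ => (F.t.emb_id X).mp) fun _ _ _ _ => EventuallyEq.rfl
  have mp : ∀ b, @MeasurePreserving _ _ Z.ms X.ms (p b) Z.μ X.μ := fun b => (hp.emb b).mp
  have hP := F.t.fpull Z X (p false) X.ms (hp.emb false) (F.t.top X)
  have b0 : ∀ c, BM X.μ X.ms c → BM Z.μ (pull Z.μ (p false) X.ms) fun z => c (p false z) :=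
    fun c hc => F.a.bm_comp X.ms Z.μ X.μ _ c (mp false) hc
  have sw : ∀ c, BM X.μ C c → (fun z => c (p true z)) =ᵐ[Z.μ] fun z => c (p false z) :=
    fun c hc => F.a.keq_fun C Z.μ X.μ _ _ c (mp true) (mp false) (hp.com true) hc.1
  refine G.dense ν ν' X ι r _ {k | BM X.μ X.ms k ∧ (BM X.μ C k ∨ ∃ H g, BM Z.μ (Inv Z {u}) H ∧
    BM X.μ X.ms g ∧ Star p H g k ∧ X.μ[g | C] =ᵐ[X.μ] 0)} (F.kb.fac X u C hX hC)
    (fun _ h => h.1) (fun k hk ε hε => ?_) fun f hf => ?_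
  · obtain ⟨n, H, g, k', h1, h2⟩ := F.kb.span X u C Z p hX hC hp k hk ε hε
    have key : ∀ i, ∃ k1 k2 : X.X → ℂ, BM X.μ C k1 ∧ (BM X.μ X.ms k2 ∧ ∃ g', BM X.μ X.ms g' ∧
        Star p (H i) g' k2 ∧ X.μ[g' | C] =ᵐ[X.μ] 0) ∧ k' i =ᵐ[X.μ] fun x => k1 x + k2 x := by
      intro i
      obtain ⟨a1, a2, a3, a4⟩ := h1 i
      have aH := a1.mono (F.t.finv Z {u}).le
      have hc := a2.ce C
      have hc' := hc.mono hC.le
      obtain ⟨k0, c1, c2⟩ := F.ka.star X C Z p hC hp _ _ aH (BM.const 1)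
      obtain ⟨k2, d1, d2⟩ := F.ka.star X C Z p hC hp _ _ aH (a2.sub hc')
      simp only [Star, mul_one] at c2
      have hk0 : BM X.μ C k0 := by
        refine (c1.of_aesm ((F.t.inv_iff X {u} k0 c1.1).2 fun h hh => desc (mp false)
          (bm_comp (X.mp h) c1) c1 ?_)).mono hI
        have e1 := F.a.keq_fun X.ms Z.μ X.μ _ _ k0 (mpc (mp false) (Z.mp h))
          (mpc (X.mp h) (mp false)) ((hp.emb false).eqv h) c1.1
        have e2 := F.t.ce Z _ h (H i) hP aH.integrable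
        filter_upwards [e1, (Z.mp h).quasiMeasurePreserving.ae c2, e2, c2, condExp_congr_ae
          (m := pull Z.μ (p false) X.ms) ((F.t.inv_iff Z {u} _ aH.1).1 a1.1 h hh)]
          with z z1 z2 z3 z4 z5
        exact z1.symm.trans (z2.trans (z3.symm.trans (z5.trans z4.symm)))
      refine ⟨fun x => (X.μ[g i | C]) x * k0 x, k2, hc.mul hk0, ⟨d1, _, a2.sub hc', d2, ?_⟩,
        desc (mp false) a3 ((hc'.mul c1).add d1) ?_⟩
      · filter_upwards [condExp_sub a2.integrable hc'.integrable C, BM.ce_self hC.le hc]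
          with x x1 x2
        exact x1.trans (by rw [Pi.sub_apply, x2, sub_self]; rfl)
      · have e1 : (fun z => H i z * g i (p true z)) =ᵐ[Z.μ]
            (fun z => (X.μ[g i | C]) (p false z) * H i z) +
              fun z => H i z * (g i (p true z) - (X.μ[g i | C]) (p true z)) := by
          filter_upwards [sw _ hc] with z hz
          rw [Pi.add_apply, hz]
          ring
        filter_upwards [a4, condExp_congr_ae (m := pull Z.μ (p false) X.ms) e1, condExp_add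
          ((bm_comp (mp false) hc').mul aH).integrable
          (aH.mul (bm_comp (mp true) (a2.sub hc'))).integrable (pull Z.μ (p false) X.ms),
          Fib27.ce_mul hP.le (b0 _ hc') aH, c2, d2] with z z1 z2 z3 z4 z5 z6
        rw [z1, z2, z3, Pi.add_apply, z4, z5, z6]
    choose k1 k2 a1 a2 a3 using key
    refine ⟨n + n, Fin.append k1 k2, fun i => ?_, le_trans (le_of_eq (integral_congr_ae ?_)) h2⟩
    · refine Fin.addCases (fun j => ?_) (fun j => ?_) i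
      · rw [Fin.append_left]; exact ⟨(a1 j).mono hC.le, Or.inl (a1 j)⟩
      · rw [Fin.append_right]; exact ⟨(a2 j).1, Or.inr ⟨H j, (a2 j).2.imp fun _ h =>
          ⟨(h1 j).1, h⟩⟩⟩
    · filter_upwards [ae_all_iff.2 a3] with x hx
      simp only [Fin.sum_univ_add, Fin.append_left, Fin.append_right, hx, sum_add_distrib]
  · by_cases hall : ∀ i, BM X.μ C (f i)
    · exact hg f hall
    obtain ⟨i0, hi0⟩ := not_forall.1 hall
    have key : ∀ i, ∃ H g, (BM Z.μ (Inv Z {u}) H ∧ BM X.μ X.ms g ∧ BM X.μ X.ms (f i) ∧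
        Star p H g (f i)) ∧ (¬ BM X.μ C (f i) → X.μ[g | C] =ᵐ[X.μ] 0) := fun i => by
      rcases (hf i).2 with h | ⟨H, g, a1, a2, a3, a4⟩
      · refine ⟨fun _ => 1, f i, ⟨BM.const 1, (hf i).1, (hf i).1, ?_⟩, fun h' => absurd h h'⟩
        simp only [Star, one_mul]
        exact ((condExp_congr_ae (sw _ h)).trans (BM.ce_self hP.le (b0 _ (hf i).1))).symm
      · exact ⟨H, g, ⟨a1, a2, (hf i).1, a3⟩, fun _ => a4⟩
    choose H g a1 a2 using key
    exact sm_of (hA ν' ν X ι r B0 C Z p u hu hX hB hC hBC hp hg h0 H g f i0 a1 (a2 i0 hi0))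
      (hA ν' ν' X ι r B0 C Z p u hu hX hB hC hBC hp (fun _ _ => by simp) h0 H g f i0 a1 (a2 i0 hi0))
      fun M => n2_sub (bm_avg F.t (fun i => (hf i).1) M) (bm_avg F.t (fun i => (hf i).1) M)

namespace GfL

/-- the hypothesis on the invariant sets passes to factors -/
lemma ee_down {X X' : Sys} {e : X.X → X'.X} (he : Emb X X' e) {Λ : Set Γ} (h : EE X Λ) :
    EE X' Λ := by
  intro u hu A hA
  have h1 : MeasurableSet[Inv X {u}] (e ⁻¹' A) := ⟨he.mp.measurable hA.1, fun g hg =>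
    (he.eqv g A hA.1).trans (he.mp.quasiMeasurePreserving.preimage_ae_eq (hA.2 g hg))⟩
  refine ⟨hA.1, fun g hg => ?_⟩
  have h2 : e ⁻¹' (X'.Tz g ⁻¹' A) =ᵐ[X.μ] e ⁻¹' A :=
    (he.eqv g A hA.1).symm.trans ((h u hu _ h1).2 g hg)
  rw [← measure_symmDiff_eq_zero_iff] at h2 ⊢
  rw [← he.mp.measure_preimage (((X'.mp g).measurable hA.1).symmDiff hA.1).nullMeasurableSet,
    Set.preimage_symmDiff]
  exact h2

end GfL

open GfL in
theorem det : DetR := by
  intro F G hC hT ν ν' ι _ _ r Λ e1 e2 s1 s2 hr hB X hE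
  obtain ⟨X', e, hX, he, hf⟩ := F.nice0 X
  refine G.down ν ν' X X' e ι r he hf ?_
  obtain ⟨B0, b1, b2, b3, b4⟩ := hB X' (ee_down he hE)
  exact hT ν ν' X' ι r _ e1 e2 s1 s2 hr hX (F.h.kc X' B0 hX b1) (F.h.ind X' B0 _ hX b1 b3
    (fun u hu C c1 c2 c3 => hC ν ν' X' ι r B0 C u hu hX b1 c1 c2 ((b2 u hu).trans c2) c3 b4)
    fun 𝒞 c1 c2 c3 => G.chain ν ν' X' ι r 𝒞 c1 c2 fun C h => ⟨(c3 C h).1, (c3 C h).2.2⟩)

end T4x

end

end PkGf

section PkCptA

/-! Averages of convolutions vanish when one function is orthogonal to the good factor. -/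

set_option autoImplicit false
set_option linter.unusedVariables false

open MeasureTheory ProbabilityTheory Filter Topology Function Finset ComplexConjugate
open scoped BigOperators
open Fib27 (BM sup pr)

noncomputable section

namespace T4x

open T3x

namespace CptA

section Gen

variable {Ω : Type} {m m0 : MeasurableSpace Ω} {μ : Measure Ω}

lemma bm_prod {ι : Type} (S : Finset ι) {f : ι → Ω → ℂ} (h : ∀ i ∈ S, BM μ m (f i)) :
    BM μ m fun x => ∏ i ∈ S, f i x := Fib27.BM.pr h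

lemma bm_sum {ι : Type} (S : Finset ι) {f : ι → Ω → ℂ} (h : ∀ i ∈ S, BM μ m (f i)) :
    BM μ m fun x => ∑ i ∈ S, f i x := by
  classical
  induction S using Finset.induction_on with
  | empty => simpa using Fib27.BM.const (κ := μ) (m := m) 0
  | insert j S hj ih =>
    simp only [Finset.sum_insert hj]
    exact (h j (mem_insert_self _ _)).add (ih fun k hk => h k (mem_insert_of_mem hk))

lemma bm_wsum {ι : Type} (S : Finset ι) (w : ι → ℝ) {f : ι → Ω → ℂ}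
    (h : ∀ i ∈ S, BM μ m (f i)) : BM μ m fun x => ∑ i ∈ S, w i • f i x :=
  bm_sum S fun i hi => by simpa only [Complex.real_smul] using (h i hi).cmul (w i)

variable [IsProbabilityMeasure μ]

lemma int_sq {f : Ω → ℂ} (hf : BM μ m0 f) : Integrable (fun x => ‖f x‖ ^ 2) μ :=
  (hf.memLp 2).integrable_norm_pow (by norm_num)

lemma int_wsum {ι : Type} (S : Finset ι) (w : ι → ℝ) {f : ι → Ω → ℂ}
    (h : ∀ i ∈ S, BM μ m0 (f i)) {t : Ω → ℂ} (ht : BM μ m0 t) :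
    ∫ x, (∑ i ∈ S, w i • f i x) * t x ∂μ = ∑ i ∈ S, (w i : ℂ) * ∫ x, f i x * t x ∂μ := by
  simp only [Finset.sum_mul, Complex.real_smul, mul_assoc]
  rw [integral_finsetSum _ fun i hi => (((h i hi).mul ht).cmul (w i)).integrable]
  exact Finset.sum_congr rfl fun i _ => integral_const_mul _ _

lemma sq_wsum {ι : Type} (S : Finset ι) (w : ι → ℝ) {f : ι → Ω → ℂ}
    (h : ∀ i ∈ S, BM μ m0 (f i)) :
    ∫ x, ‖∑ i ∈ S, w i • f i x‖ ^ 2 ∂μ =
      ∑ i ∈ S, ∑ j ∈ S, w i * w j * (∫ x, f i x * conj (f j x) ∂μ).re := by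
  have e1 : ((∫ x, ‖∑ i ∈ S, w i • f i x‖ ^ 2 ∂μ : ℝ) : ℂ) =
      ∫ x, (∑ i ∈ S, w i • f i x) * conj (∑ i ∈ S, w i • f i x) ∂μ := by
    rw [← integral_complex_ofReal]
    refine integral_congr_ae (Eventually.of_forall fun x => ?_)
    simp only [Complex.mul_conj, Complex.normSq_eq_norm_sq]
  rw [int_wsum S w h (bm_wsum S w h).conj] at e1
  have e2 : ∀ i ∈ S, ∫ x, f i x * conj (∑ j ∈ S, w j • f j x) ∂μ =
      ∑ j ∈ S, (w j : ℂ) * ∫ x, f i x * conj (f j x) ∂μ := by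
    intro i hi
    have := int_wsum S w (fun j hj => (h j hj).conj) (h i hi)
    simp only [mul_comm (f i _)]
    rw [← this]
    refine integral_congr_ae (Eventually.of_forall fun x => ?_)
    simp only [map_sum, Complex.real_smul, map_mul, Complex.conj_ofReal]
  rw [Finset.sum_congr rfl fun i hi => by rw [e2 i hi]] at e1
  have e3 := congrArg Complex.re e1
  rw [Complex.ofReal_re] at e3
  rw [e3]
  simp only [Complex.re_sum, Finset.mul_sum, Complex.re_ofReal_mul, mul_assoc]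

lemma cs {Φ A : Ω → ℂ} {K : ℝ} (hK : 0 ≤ K) (hΦ : ∀ᵐ x ∂μ, ‖Φ x‖ ≤ K) (hA : BM μ m0 A) :
    ‖∫ x, A x * Φ x ∂μ‖ ^ 2 ≤ K ^ 2 * ∫ x, ‖A x‖ ^ 2 ∂μ := by
  have h1 : ‖∫ x, A x * Φ x ∂μ‖ ≤ K * ∫ x, ‖A x‖ ∂μ := by
    rw [← integral_const_mul]
    refine norm_integral_le_of_norm_le (hA.integrable.norm.const_mul K) ?_
    filter_upwards [hΦ] with x hx
    rw [norm_mul, mul_comm]
    exact mul_le_mul_of_nonneg_right hx (norm_nonneg _)
  have h2 : (∫ x, ‖A x‖ ∂μ) ^ 2 ≤ ∫ x, ‖A x‖ ^ 2 ∂μ := by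
    set t := ∫ x, ‖A x‖ ∂μ with ht
    have h3 : ∫ x, (2 * t * ‖A x‖ - t ^ 2) ∂μ ≤ ∫ x, ‖A x‖ ^ 2 ∂μ :=
      integral_mono ((hA.integrable.norm.const_mul _).sub (integrable_const _)) (int_sq hA)
        fun x => by nlinarith [sq_nonneg (‖A x‖ - t)]
    rw [integral_sub (hA.integrable.norm.const_mul _) (integrable_const _), integral_const_mul,
      integral_const, ← ht] at h3
    simp only [probReal_univ, smul_eq_mul, one_mul] at h3
    nlinarith
  calc _ ≤ (K * ∫ x, ‖A x‖ ∂μ) ^ 2 := pow_le_pow_left₀ (norm_nonneg _) h1 2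
    _ = K ^ 2 * (∫ x, ‖A x‖ ∂μ) ^ 2 := mul_pow _ _ _
    _ ≤ _ := mul_le_mul_of_nonneg_left h2 (sq_nonneg _)

lemma sq_le_two {u v : Ω → ℂ} (hu : BM μ m0 u) (hv : BM μ m0 v) :
    ∫ x, ‖u x‖ ^ 2 ∂μ ≤ 2 * ∫ x, ‖u x - v x‖ ^ 2 ∂μ + 2 * ∫ x, ‖v x‖ ^ 2 ∂μ := by
  rw [← integral_const_mul, ← integral_const_mul,
    ← integral_add ((int_sq (hu.sub hv)).const_mul _) ((int_sq hv).const_mul _)]
  refine integral_mono (int_sq hu) (((int_sq (hu.sub hv)).const_mul _).add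
    ((int_sq hv).const_mul _)) fun x => ?_
  have h : ‖u x‖ ≤ ‖u x - v x‖ + ‖v x‖ := by simpa using norm_add_le (u x - v x) (v x)
  have h' := pow_le_pow_left₀ (norm_nonneg _) h 2
  show ‖u x‖ ^ 2 ≤ 2 * ‖u x - v x‖ ^ 2 + 2 * ‖v x‖ ^ 2
  nlinarith [sq_nonneg (‖u x - v x‖ - ‖v x‖)]

end Gen

lemma jensen {ι : Type} (S : Finset ι) (w : ι → ℝ) (hw : ∀ i, 0 ≤ w i) (h1 : ∑ i ∈ S, w i = 1)
    (x y : ι → ι → ℝ) (hxy : ∀ i j, x i j ^ 2 ≤ y i j) :
    (∑ i ∈ S, ∑ j ∈ S, w i * w j * x i j) ^ 2 ≤ ∑ i ∈ S, ∑ j ∈ S, w i * w j * y i j := by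
  set t := ∑ i ∈ S, ∑ j ∈ S, w i * w j * x i j with ht
  have h2 : ∑ i ∈ S, ∑ j ∈ S, w i * w j = 1 := by
    rw [← Finset.sum_mul_sum, h1, one_mul]
  have h3 : ∑ i ∈ S, ∑ j ∈ S, (2 * t * (w i * w j * x i j) - t ^ 2 * (w i * w j)) ≤
      ∑ i ∈ S, ∑ j ∈ S, w i * w j * y i j := by
    refine Finset.sum_le_sum fun i _ => Finset.sum_le_sum fun j _ => ?_
    have h4 : 2 * t * x i j - t ^ 2 ≤ y i j := by nlinarith [sq_nonneg (x i j - t), hxy i j]
    have h5 := mul_le_mul_of_nonneg_left h4 (mul_nonneg (hw i) (hw j))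
    linarith
  simp only [Finset.sum_sub_distrib, ← Finset.mul_sum] at h3
  simp only [← Finset.mul_sum] at h2 ht
  rw [h2, ← ht] at h3
  nlinarith

variable [Grp]

variable (F : Fd) {X Z : Sys} {C : MeasurableSpace X.X} {p : Bool → Z.X → X.X}

include F

lemma bmc {Y : Sys} {q : Z.X → Y.X} (hq : MeasurePreserving q Z.μ Y.μ) {f : Y.X → ℂ}
    (hf : BM Y.μ Y.ms f) : BM Z.μ Z.ms fun z => f (q z) :=
  (F.a.bm_comp Y.ms Z.μ Y.μ q f hq hf).mono (F.a.pull_le Y.ms Z.μ Y.μ q hq le_rfl)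

lemma bmT {f : X.X → ℂ} (hf : BM X.μ X.ms f) (n : Γ) : BM X.μ X.ms fun x => f (X.Tz n x) :=
  F.t.bm X X.ms n f (F.t.top X) hf

lemma aeT {f g : X.X → ℂ} (h : f =ᵐ[X.μ] g) (n : Γ) :
    (fun x => f (X.Tz n x)) =ᵐ[X.μ] fun x => g (X.Tz n x) :=
  (F.t.mp X n).quasiMeasurePreserving.ae_eq_comp h

omit F in
lemma intc {Y : Sys} {q : Z.X → Y.X} (hq : MeasurePreserving q Z.μ Y.μ) {f : Y.X → ℂ}
    (hf : BM Y.μ Y.ms f) : ∫ z, f (q z) ∂Z.μ = ∫ y, f y ∂Y.μ := by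
  rw [← integral_map hq.measurable.aemeasurable (by rw [hq.map_eq]; exact hf.1), hq.map_eq]

omit F in
lemma aec {Y : Sys} {q : Z.X → Y.X} (hq : MeasurePreserving q Z.μ Y.μ) {f g : Y.X → ℂ}
    (h : f =ᵐ[Y.μ] g) : (fun z => f (q z)) =ᵐ[Z.μ] fun z => g (q z) :=
  hq.quasiMeasurePreserving.ae_eq_comp h

omit F in
lemma cmle {Y : Sys} {q : Z.X → Y.X} (hq : MeasurePreserving q Z.μ Y.μ) : Y.ms.comap q ≤ Z.ms :=
  hq.measurable.comap_le

omit F in
lemma bm_of {a : X.X → ℂ} (ha : Measurable[X.ms] a) {K : ℝ} (hK : ∀ x, ‖a x‖ ≤ K) : BM X.μ X.ms a :=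
  ⟨ha.aestronglyMeasurable, _, Eventually.of_forall hK⟩

lemma aeP {P : X.X → Prop} (h : ∀ᵐ x ∂X.μ, P x) (n : Γ) : ∀ᵐ x ∂X.μ, P (X.Tz n x) :=
  (F.t.mp X n).quasiMeasurePreserving.ae h

lemma invT {u : Γ} {H : Z.X → ℂ} (hH : BM Z.μ (Inv Z {u}) H) (n : ℤ) :
    (fun z => H (Z.Tz (n • u) z)) =ᵐ[Z.μ] H := by
  have h1 : AEStronglyMeasurable[Inv Z (AddSubgroup.closure {u} : Set Γ)] H Z.μ := by
    rw [F.t.inv_cl]
    exact hH.1
  have h2 : n • u ∈ AddSubgroup.closure ({u} : Set Γ) :=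
    AddSubgroup.zsmul_mem _ (AddSubgroup.subset_closure (Set.mem_singleton u)) n
  exact (F.t.inv_iff Z _ H (hH.1.mono (F.t.finv Z {u}).le)).1 h1 _ h2

lemma embT {q : Z.X → X.X} (hq : Emb Z X q) {f : X.X → ℂ} (hf : BM X.μ X.ms f) (n : Γ) :
    (fun z => f (q (Z.Tz n z))) =ᵐ[Z.μ] fun z => f (X.Tz n (q z)) :=
  F.a.keq_fun X.ms Z.μ X.μ (q ∘ Z.Tz n) (X.Tz n ∘ q) f (hq.mp.comp (F.t.mp Z n))
    ((F.t.mp X n).comp hq.mp) (F.t.emb_z Z X q n hq) hf.1

lemma starT (hP : Pair X C Z p) {H : Z.X → ℂ} {g k : X.X → ℂ} (hH : BM Z.μ Z.ms H)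
    (hg : BM X.μ X.ms g) (hk : BM X.μ X.ms k) (hS : Star p H g k) (n : Γ) :
    Star p (fun z => H (Z.Tz n z)) (fun x => g (X.Tz n x)) fun x => k (X.Tz n x) := by
  have hb : BM Z.μ Z.ms fun z => H z * g (p true z) := hH.mul (bmc F (hP.emb true).mp hg)
  refine (embT F (hP.emb false) hk n).symm.trans ((aeT F hS n).trans ?_)
  refine (F.t.ce Z _ n _ (F.t.fpull Z X _ _ (hP.emb false) (F.t.top X)) hb.integrable).symm.trans ?_
  refine condExp_congr_ae ?_
  filter_upwards [embT F (hP.emb true) hg n] with z h2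
  rw [h2]

lemma starI (hP : Pair X C Z p) {u : Γ} {H : Z.X → ℂ} {g k : X.X → ℂ}
    (hH : BM Z.μ (Inv Z {u}) H) (hg : BM X.μ X.ms g) (hk : BM X.μ X.ms k) (hS : Star p H g k)
    (n : ℤ) : Star p H (fun x => g (X.Tz (n • u) x)) fun x => k (X.Tz (n • u) x) := by
  refine (starT F hP (hH.mono (F.t.finv Z _).le) hg hk hS (n • u)).trans (condExp_congr_ae ?_)
  filter_upwards [invT F hH n] with z h1
  rw [h1]

lemma starC (hP : Pair X C Z p) {H : Z.X → ℂ} {g k : X.X → ℂ} (hH : BM Z.μ Z.ms H)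
    (hg : BM X.μ X.ms g) (hS : Star p H g k) :
    Star p (fun z => conj (H z)) (fun x => conj (g x)) fun x => conj (k x) := by
  have hb : BM Z.μ Z.ms fun z => H z * g (p true z) := hH.mul (bmc F (hP.emb true).mp hg)
  have h1 := Fib27.ce_conj (F.a.pull_le X.ms Z.μ X.μ _ (hP.emb false).mp le_rfl) hb
  simp only [map_mul] at h1
  refine EventuallyEq.trans ?_ h1.symm
  filter_upwards [hS] with z hz
  rw [hz]

lemma pairCE (hC : Fac X C) (hP : Pair X C Z p) {f : X.X → ℂ} (hf : BM X.μ X.ms f) :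
    (fun z => (X.μ[f | C]) (p false z)) =ᵐ[Z.μ]
      Z.μ[fun z => f (p true z) | pull Z.μ (p false) X.ms] := by
  have hid : pull X.μ id C = C := by
    rw [pull, MeasurableSpace.comap_id]
    exact sup_eq_left.2 hC.nl
  have hm := F.a.pull_le X.ms Z.μ X.μ _ (hP.emb false).mp le_rfl
  have hE : BM X.μ X.ms (X.μ[f | C]) := (hf.ce C).mono hC.le
  refine (Fib27.ce_eq_of_tests hm (bmc F (hP.emb true).mp hf)
    (F.a.bm_comp X.ms Z.μ X.μ _ _ (hP.emb false).mp hE) fun c hc => ?_).symm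
  obtain ⟨hc1, K, hK⟩ := hc
  obtain ⟨a, ha1, ha2, ha3⟩ := F.a.fact X.ms Z.μ (p false) c (max K 0)
    (cmle (hP.emb false).mp) (le_max_right _ _) hc1
    (hK.mono fun z hz => hz.trans (le_max_left _ _))
  have ha : BM X.μ X.ms a := bm_of ha1 ha2
  have hA : BM X.μ X.ms (X.μ[a | C]) := (ha.ce C).mono hC.le
  have h1 := hP.ind univ (fun b => cond b f a) (fun b _ => by cases b <;> assumption)
  simp only [Fintype.prod_bool, cond_true, cond_false, hid] at h1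
  have h2 := F.a.keq_fun C Z.μ X.μ (p true) (p false) (X.μ[f | C]) (hP.emb true).mp
    (hP.emb false).mp (hP.com true) (hf.ce C).1
  calc ∫ z, f (p true z) * c z ∂Z.μ = ∫ z, f (p true z) * a (p false z) ∂Z.μ := by
        refine integral_congr_ae ?_
        filter_upwards [ha3] with z hz
        rw [hz]
    _ = ∫ z, (X.μ[f | C]) (p true z) * (X.μ[a | C]) (p false z) ∂Z.μ := by
        rw [← integral_congr_ae h1,
          integral_condExp (F.a.pull_le C Z.μ X.μ (id ∘ p false) (hP.emb false).mp hC.le)]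
    _ = ∫ z, (X.μ[f | C]) (p false z) * (X.μ[a | C]) (p false z) ∂Z.μ := by
        refine integral_congr_ae ?_
        filter_upwards [h2] with z hz
        rw [hz]
    _ = ∫ x, (X.μ[f | C]) x * (X.μ[a | C]) x ∂X.μ := intc (hP.emb false).mp (hE.mul hA)
    _ = ∫ x, (X.μ[f | C]) x * a x ∂X.μ := Fib27.int_mul_ce hC.le (hf.ce C) ha
    _ = ∫ z, (X.μ[f | C]) (p false z) * a (p false z) ∂Z.μ :=
        (intc (hP.emb false).mp (hE.mul ha)).symm
    _ = _ := by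
        refine integral_congr_ae ?_
        filter_upwards [ha3] with z hz
        rw [hz]

lemma rpInt {J : Type} [Fintype J] {j0 : J} {q : Z.X → X.X} (hq : Emb Z X q) {W : Sys}
    {P : J → W.X → Z.X} (hW : IsRP (fun _ : J => Z) X X.ms (fun _ => q) j0 W P)
    (G : J → Z.X → ℂ) (u : J → X.X → ℂ) (hG : ∀ j, BM Z.μ Z.ms (G j))
    (hu : ∀ j, BM X.μ X.ms (u j))
    (h : ∀ j, (fun z => u j (q z)) =ᵐ[Z.μ] Z.μ[G j | pull Z.μ q X.ms]) :
    ∫ w, ∏ j, G j (P j w) ∂W.μ = ∫ x, ∏ j, u j x ∂X.μ := by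
  have hm : ∀ j, MeasurePreserving (q ∘ P j) W.μ X.μ := fun j => hq.mp.comp (hW.emb j).mp
  rw [← integral_condExp (F.a.pull_le X.ms W.μ X.μ _ (hm j0) le_rfl),
    integral_congr_ae (hW.ind univ G fun j _ => hG j),
    ← intc (hm j0) (bm_prod univ fun j _ => hu j)]
  refine integral_congr_ae ?_
  have h1 : ∀ j, ∀ᵐ w ∂W.μ, (Z.μ[G j | pull Z.μ q X.ms]) (P j w) = u j ((q ∘ P j0) w) := by
    intro j
    have h2 := (hW.emb j).mp.quasiMeasurePreserving.ae_eq_comp (h j)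
    have h3 := F.a.keq_fun X.ms W.μ X.μ _ _ (u j) (hm j) (hm j0) (hW.com j) (hu j).1
    exact h2.symm.trans h3
  filter_upwards [ae_all_iff.2 h1] with w hw
  exact Finset.prod_congr rfl fun j _ => hw j

lemma key (hC : Fac X C) (hP : Pair X C Z p) {J : Type} [Fintype J] (j0 : J) (u : Γ)
    (H : J → Z.X → ℂ) (g k : J → X.X → ℂ) (h : ∀ j, BM Z.μ (Inv Z {u}) (H j) ∧
      BM X.μ X.ms (g j) ∧ BM X.μ X.ms (k j) ∧ Star p (H j) (g j) (k j)) :
    ∃ K : ℝ, 0 ≤ K ∧ ∀ (N : ℕ), 1 ≤ N → ∀ (ρ : J → Γ) (c : ℕ → ℕ → J → X.X → ℂ),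
      (∀ n n' j, BM X.μ X.ms (c n n' j)) →
      (∀ (n n' : ℕ) j, c n n' j =ᵐ[X.μ]
        X.μ[fun y => g j (X.Tz ((n : ℤ) • u) y) * conj (g j (X.Tz ((n' : ℤ) • u) y)) | C]) →
      ‖∫ x, ∏ j, k j (X.Tz (ρ j) x) ∂X.μ‖ ^ 2 ≤ K * ∑ n ∈ range N, ∑ n' ∈ range N,
        (N : ℝ)⁻¹ * (N : ℝ)⁻¹ * (∫ x, ∏ j, c n n' j (X.Tz (ρ j) x) ∂X.μ).re := by
  obtain ⟨W, P, hW⟩ := F.rp J (fun _ => Z) X X.ms (fun _ => p false) j0 (fun _ => hP.nice)
    (F.t.top X) (fun _ => (hP.emb false).mp) fun _ n => F.t.emb_z Z X _ n (hP.emb false)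
  have hH : ∀ j, BM Z.μ Z.ms (H j) := fun j => (h j).1.mono (F.t.finv Z _).le
  choose K hK using fun j => (hH j).2
  refine ⟨(∏ j, max (K j) 0) ^ 2, sq_nonneg _, fun N hN ρ c hc hc' => ?_⟩
  have hΦ : BM W.μ W.ms fun w => ∏ j, H j (Z.Tz (ρ j) (P j w)) :=
    bm_prod univ fun j _ => bmc F (hW.emb j).mp (bmT F (hH j) (ρ j))
  have hΦK : ∀ᵐ w ∂W.μ, ‖∏ j, H j (Z.Tz (ρ j) (P j w))‖ ≤ ∏ j, max (K j) 0 := by
    filter_upwards [ae_all_iff.2 fun j =>
      (hW.emb j).mp.quasiMeasurePreserving.ae (aeP F (hK j) (ρ j))] with w hw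
    rw [norm_prod]
    exact Finset.prod_le_prod (fun j _ => norm_nonneg _) fun j _ => (hw j).trans (le_max_left _ _)
  have hgz : ∀ j (n : Γ), BM Z.μ Z.ms fun z => g j (X.Tz n (X.Tz (ρ j) (p true z))) := fun j n =>
    bmc F (hP.emb true).mp (bmT F (bmT F (h j).2.1 n) (ρ j))
  let Ψ : ℕ → W.X → ℂ := fun n w =>
    ∏ j, g j (X.Tz ((n : ℤ) • u) (X.Tz (ρ j) (p true (P j w))))
  have hΨ : ∀ n, BM W.μ W.ms (Ψ n) := fun n =>
    bm_prod univ fun j _ => bmc F (hW.emb j).mp (hgz j _)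
  have e1 : ∀ n : ℕ, ∫ w, Ψ n w * ∏ j, H j (Z.Tz (ρ j) (P j w)) ∂W.μ =
      ∫ x, ∏ j, k j (X.Tz (ρ j) x) ∂X.μ := by
    intro n
    have h1 := rpInt F (hP.emb false) hW
      (fun j z => H j (Z.Tz (ρ j) z) * g j (X.Tz ((n : ℤ) • u) (X.Tz (ρ j) (p true z))))
      (fun j x => k j (X.Tz ((n : ℤ) • u) (X.Tz (ρ j) x)))
      (fun j => (bmT F (hH j) (ρ j)).mul (hgz j _))
      (fun j => bmT F (bmT F (h j).2.2.1 _) (ρ j)) fun j =>
        starT F hP (hH j) (bmT F (h j).2.1 _) (bmT F (h j).2.2.1 _)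
          (starI F hP (h j).1 (h j).2.1 (h j).2.2.1 (h j).2.2.2 n) (ρ j)
    simp only [Finset.prod_mul_distrib] at h1
    simp only [Ψ, mul_comm _ (∏ j, H j (Z.Tz (ρ j) (P j _)))]
    rw [h1, ← intc (F.t.mp X ((n : ℤ) • u)) (bm_prod univ fun j _ => bmT F (h j).2.2.1 (ρ j))]
    simp only [← F.t.add, add_comm]
  have e2 : ∀ n n' : ℕ, ∫ w, Ψ n w * conj (Ψ n' w) ∂W.μ =
      ∫ x, ∏ j, c n n' j (X.Tz (ρ j) x) ∂X.μ := by
    intro n n'
    have hb : ∀ j, BM X.μ X.ms fun y =>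
        g j (X.Tz ((n : ℤ) • u) y) * conj (g j (X.Tz ((n' : ℤ) • u) y)) := fun j =>
      (bmT F (h j).2.1 _).mul (bmT F (h j).2.1 _).conj
    have h1 := rpInt F (hP.emb false) hW
      (fun j z => g j (X.Tz ((n : ℤ) • u) (X.Tz (ρ j) (p true z))) *
        conj (g j (X.Tz ((n' : ℤ) • u) (X.Tz (ρ j) (p true z)))))
      (fun j x => c n n' j (X.Tz (ρ j) x)) (fun j => (hgz j _).mul (hgz j _).conj)
      (fun j => bmT F (hc n n' j) (ρ j)) fun j => by
        refine EventuallyEq.trans ?_ (pairCE F hC hP (bmT F (hb j) (ρ j)))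
        exact aec (hP.emb false).mp
          ((aeT F (hc' n n' j) (ρ j)).trans (F.t.ce X C (ρ j) _ hC (hb j).integrable).symm)
    rw [← h1]
    simp only [Ψ, map_prod, Finset.prod_mul_distrib]
  have hN' : (N : ℂ) ≠ 0 := by exact_mod_cast (by omega : N ≠ 0)
  have e3 : ∫ x, ∏ j, k j (X.Tz (ρ j) x) ∂X.μ =
      ∫ w, (∑ n ∈ range N, (N : ℝ)⁻¹ • Ψ n w) * ∏ j, H j (Z.Tz (ρ j) (P j w)) ∂W.μ := by
    rw [int_wsum (range N) (fun _ => (N : ℝ)⁻¹) (fun n _ => hΨ n) hΦ]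
    simp only [e1, Finset.sum_const, Finset.card_range, nsmul_eq_mul]
    push_cast
    rw [← mul_assoc, mul_inv_cancel₀ hN', one_mul]
  rw [e3]
  refine (cs (Finset.prod_nonneg fun j _ => le_max_right _ _) hΦK
    (bm_wsum (range N) (fun _ => (N : ℝ)⁻¹) fun n _ => hΨ n)).trans (le_of_eq ?_)
  rw [sq_wsum (range N) (fun _ => (N : ℝ)⁻¹) fun n _ => hΨ n]
  simp only [e2]

variable {ι : Type} [Fintype ι] [DecidableEq ι] (r : ι → Γ)

omit [DecidableEq ι] in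
lemma bm_avg {B : MeasurableSpace X.X} (hB : Fac X B) (ν : Wt) (M : ℕ) {f : ι → X.X → ℂ}
    (hf : ∀ i, BM X.μ B (f i)) : BM X.μ B (avg ν M X r f) :=
  bm_wsum (ν.sp M) (ν.w M) fun d _ => bm_prod univ fun i _ => F.t.bm X B _ _ hB (hf i)

omit [DecidableEq ι] in
lemma sq_avg (ν : Wt) (M : ℕ) {f : ι → X.X → ℂ} (hf : ∀ i, BM X.μ X.ms (f i)) :
    ∫ x, ‖avg ν M X r f x‖ ^ 2 ∂X.μ = ∑ d ∈ ν.sp M, ∑ d' ∈ ν.sp M, ν.w M d * ν.w M d' *
      (∫ x, ∏ j : ι ⊕ ι, Sum.elim f (fun i y => conj (f i y)) j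
        (X.Tz (Sum.elim (fun i => d • r i) (fun i => d' • r i) j) x) ∂X.μ).re := by
  have := sq_wsum (μ := X.μ) (ν.sp M) (ν.w M) (f := fun d x => ∏ i, f i (X.Tz (d • r i) x))
    fun d _ => bm_prod univ fun i _ => bmT F (hf i) _
  simp only [Fintype.prod_sum_type, Sum.elim_inl, Sum.elim_inr, ← map_prod]
  exact this

lemma drop (hC : Fac X C) (ν : Wt) (M : ℕ) {c : ι → X.X → ℂ} (hc : ∀ i, BM X.μ C (c i)) (i0 : ι)
    {G : X.X → ℂ} (hG : BM X.μ X.ms G) (h0 : c i0 = X.μ[G | C]) :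
    ∫ x, ‖avg ν M X r c x‖ ^ 2 ∂X.μ ≤ ∫ x, ‖avg ν M X r (update c i0 G) x‖ ^ 2 ∂X.μ := by
  have hu : ∀ i, BM X.μ X.ms (update c i0 G i) := fun i => by
    rcases eq_or_ne i i0 with rfl | hi
    · rwa [update_self]
    · rw [update_of_ne hi]
      exact (hc i).mono hC.le
  have hv := bm_avg F r (F.t.top X) ν M hu
  have h1 : X.μ[avg ν M X r (update c i0 G) | C] =ᵐ[X.μ] avg ν M X r c := by
    refine Fib27.ce_eq_of_tests hC.le hv (bm_avg F r hC ν M hc) fun t ht => ?_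
    refine (int_wsum (ν.sp M) (ν.w M) (fun d _ => bm_prod univ fun i _ => bmT F (hu i) _)
      (ht.mono hC.le)).trans (Eq.trans ?_ (int_wsum (ν.sp M) (ν.w M)
        (fun d _ => bm_prod univ fun i _ => bmT F ((hc i).mono hC.le) _) (ht.mono hC.le)).symm)
    refine Finset.sum_congr rfl fun d _ => congrArg _ ?_
    have hb : BM X.μ C fun x => (∏ i ∈ univ.erase i0, c i (X.Tz (d • r i) x)) * t x :=
      (bm_prod _ fun i _ => F.t.bm X C _ _ hC (hc i)).mul ht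
    have e1 : ∀ x, (∏ i, update c i0 G i (X.Tz (d • r i) x)) * t x =
        G (X.Tz (d • r i0) x) * ((∏ i ∈ univ.erase i0, c i (X.Tz (d • r i) x)) * t x) := by
      intro x
      rw [← Finset.mul_prod_erase univ _ (mem_univ i0), update_self, mul_assoc,
        Finset.prod_congr rfl fun i hi => by rw [update_of_ne (ne_of_mem_erase hi)]]
    simp only [e1]
    rw [← Fib27.int_ce_mul hC.le (bmT F hG _) hb]
    refine integral_congr_ae ?_
    filter_upwards [F.t.ce X C (d • r i0) G hC hG.integrable] with x hx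
    rw [hx, ← Finset.mul_prod_erase univ _ (mem_univ i0), mul_assoc, h0]
  have h2 := (F.d.eqn C X.ms X.μ hC.le le_rfl _ (hv.memLp 2)).1
  refine le_trans (le_of_eq (integral_congr_ae ?_)) (h2.trans (le_of_eq (integral_congr_ae ?_)))
  · filter_upwards [h1] with x hx
    rw [hx]
  · filter_upwards [hv.ce_self le_rfl] with x hx
    rw [hx]

lemma core {ν' ν'' : Wt} {B0 : MeasurableSpace X.X} (hB : B0 ≤ C) (hC : Fac X C)
    (hP : Pair X C Z p) (hGood : Good ν'' ν' X r C) (hG0 : G0 ν' X r B0) {u : Γ} (hu : u ∈ 𝒰)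
    (H : ι → Z.X → ℂ)
    (g k : ι → X.X → ℂ) (i0 : ι)
    (h : ∀ i, BM Z.μ (Inv Z {u}) (H i) ∧ BM X.μ X.ms (g i) ∧ BM X.μ X.ms (k i) ∧
      Star p (H i) (g i) (k i)) (hg1 : ∀ i, ∀ᵐ x ∂X.μ, ‖g i x‖ ≤ 1)
    (h0 : X.μ[g i0 | C] =ᵐ[X.μ] 0) :
    Tendsto (fun M => ∫ x, ‖avg ν'' M X r k x‖ ^ 2 ∂X.μ) atTop (𝓝 0) := by
  obtain ⟨K, hK, hkey⟩ := key F hC hP (Sum.inl i0 : ι ⊕ ι) u (Sum.elim H fun i z => conj (H i z))
    (Sum.elim g fun i y => conj (g i y)) (Sum.elim k fun i y => conj (k i y)) (by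
      rintro (i | i)
      · exact h i
      · exact ⟨(h i).1.conj, (h i).2.1.conj, (h i).2.2.1.conj,
          starC F hP ((h i).1.mono (F.t.finv Z _).le) (h i).2.1 (h i).2.2.2⟩)
  let G : ℕ → ℕ → ι → X.X → ℂ := fun n n' i y =>
    g i (X.Tz ((n : ℤ) • u) y) * conj (g i (X.Tz ((n' : ℤ) • u) y))
  have hG : ∀ n n' i, BM X.μ X.ms (G n n' i) := fun n n' i =>
    (bmT F (h i).2.1 _).mul (bmT F (h i).2.1 _).conj
  let c : ℕ → ℕ → ι → X.X → ℂ := fun n n' i => X.μ[G n n' i | C]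
  have hc : ∀ n n' i, BM X.μ C (c n n' i) := fun n n' i => (hG n n' i).ce C
  have hc' : ∀ n n' i, BM X.μ X.ms (c n n' i) := fun n n' i => (hc n n' i).mono hC.le
  have hc1 : ∀ n n' i, ∀ᵐ x ∂X.μ, ‖c n n' i x‖ ≤ 1 := fun n n' i => by
    refine ae_bdd_norm_condExp_of_ae_bdd_norm ?_
    filter_upwards [aeP F (hg1 i) ((n : ℤ) • u), aeP F (hg1 i) ((n' : ℤ) • u)] with x h1 h2
    rw [norm_mul, Complex.norm_conj]
    exact mul_le_one₀ h1 (norm_nonneg _) h2
  have main : ∀ N M, 1 ≤ N → (∫ x, ‖avg ν'' M X r k x‖ ^ 2 ∂X.μ) ^ 2 ≤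
      K * ∑ n ∈ range N, ∑ n' ∈ range N,
        (N : ℝ)⁻¹ * (N : ℝ)⁻¹ * ∫ x, ‖avg ν'' M X r (c n n') x‖ ^ 2 ∂X.μ := by
    intro N M hN
    rw [sq_avg F r ν'' M fun i => (h i).2.2.1]
    refine (jensen _ _ (ν''.nn M) (ν''.one M) _ _ fun d d' => le_trans
      ((sq_abs _).symm.trans_le (pow_le_pow_left₀ (abs_nonneg _) (Complex.abs_re_le_norm _) 2))
      (hkey N hN (Sum.elim (fun i => d • r i) (fun i => d' • r i))
        (fun n n' => Sum.elim (c n n') fun i y => conj (c n n' i y)) ?_ ?_)).trans (le_of_eq ?_)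
    · rintro n n' (i | i)
      · exact hc' n n' i
      · exact (hc' n n' i).conj
    · rintro n n' (i | i)
      · exact EventuallyEq.rfl
      · have := Fib27.ce_conj hC.le (hG n n' i)
        simp only [G, map_mul] at this
        exact this.symm
    · simp only [sq_avg F r ν'' M (hc' _ _), Finset.mul_sum]
      simp only [Finset.sum_comm (s := ν''.sp M) (t := range N)]
      refine Finset.sum_congr rfl fun n _ => Finset.sum_congr rfl fun n' _ =>
        Finset.sum_congr rfl fun d _ => Finset.sum_congr rfl fun d' _ => by ring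
  have hB0 : X.μ[g i0 | B0] =ᵐ[X.μ] 0 := by
    refine (condExp_condExp_of_le hB hC.le).symm.trans ((condExp_congr_ae h0).trans ?_)
    rw [condExp_zero]
  refine tendsto_order.2 ⟨fun a ha => Eventually.of_forall fun M =>
    ha.trans_le (integral_nonneg fun x => by positivity), fun ε hε => ?_⟩
  have hδ : 0 < ε ^ 2 / (6 * K + 1) := by positivity
  obtain ⟨N, a, hN, ha, hs⟩ := hG0 u hu (g i0) (h i0).2.1 (hg1 i0) hB0 i0 _ hδ
  have hev : ∀ n ∈ range N, ∀ n' ∈ range N, ∀ᶠ M in atTop,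
      ∫ x, ‖avg ν'' M X r (c n n') x‖ ^ 2 ∂X.μ ≤ 4 * (ε ^ 2 / (6 * K + 1)) + 2 * a n n' := by
    intro n _ n' _
    filter_upwards [(tendsto_order.1 (hGood (c n n') (hc n n'))).2 _ hδ,
      hs n n' (c n n') _ (hc' n n') (hc1 n n') hδ] with M h1 h2
    have h3 := sq_le_two (bm_avg F r (F.t.top X) ν'' M (hc' n n'))
      (bm_avg F r (F.t.top X) ν' M (hc' n n'))
    have h4 := (drop F r hC ν' M (hc n n') i0 (hG n n' i0) rfl).trans h2
    linarith
  filter_upwards [(Finset.eventually_all _).2 fun n hn => (Finset.eventually_all _).2 (hev n hn)]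
    with M hM
  have hN' : (0 : ℝ) < N := by exact_mod_cast hN
  have h5 : ∑ n ∈ range N, ∑ n' ∈ range N,
      (N : ℝ)⁻¹ * (N : ℝ)⁻¹ * ∫ x, ‖avg ν'' M X r (c n n') x‖ ^ 2 ∂X.μ ≤
      6 * (ε ^ 2 / (6 * K + 1)) := by
    refine (Finset.sum_le_sum fun n hn => Finset.sum_le_sum fun n' hn' =>
      mul_le_mul_of_nonneg_left (hM n hn n' hn') (by positivity)).trans ?_
    simp only [← Finset.mul_sum, Finset.sum_add_distrib, Finset.sum_const, Finset.card_range,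
      nsmul_eq_mul]
    calc _ = (N : ℝ)⁻¹ * (N : ℝ)⁻¹ * (N * (N * (4 * (ε ^ 2 / (6 * K + 1)))) +
          2 * ∑ n ∈ range N, ∑ n' ∈ range N, a n n') := by ring
      _ ≤ (N : ℝ)⁻¹ * (N : ℝ)⁻¹ * (N * (N * (4 * (ε ^ 2 / (6 * K + 1)))) +
          2 * (ε ^ 2 / (6 * K + 1) * N ^ 2)) := by gcongr
      _ = _ := by
        field_simp
        ring
  have h6 := (main N M hN).trans (mul_le_mul_of_nonneg_left h5 hK)
  have h7 : K * (6 * (ε ^ 2 / (6 * K + 1))) < ε ^ 2 := by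
    have : ε ^ 2 = (6 * K + 1) * (ε ^ 2 / (6 * K + 1)) := by field_simp
    linarith
  exact lt_of_pow_lt_pow_left₀ 2 hε.le (h6.trans_lt h7)

end CptA

variable [Grp]

theorem cptA : CptAR := by
  intro F ν' ν'' X ι _ _ r B0 C Z p u hu hX hB0 hC hB hP hGood hG0 H g k i0 h h0
  have hb : ∀ i, ∃ L : ℝ, 0 < L ∧ ∀ᵐ x ∂X.μ, ‖g i x‖ ≤ L := fun i => by
    obtain ⟨L, hL⟩ := (h i).2.1.2
    exact ⟨max L 1, lt_max_of_lt_right one_pos, hL.mono fun x hx => hx.trans (le_max_left _ _)⟩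
  choose L hL hLg using hb
  have hL' : ∀ i, (L i : ℂ) ≠ 0 := fun i => by exact_mod_cast (hL i).ne'
  refine CptA.core F r hB hC hP hGood hG0 hu (fun i z => (L i : ℂ) * H i z)
    (fun i x => (L i : ℂ)⁻¹ * g i x) k i0 (fun i => ⟨(h i).1.cmul _, (h i).2.1.cmul _,
      (h i).2.2.1, ?_⟩) (fun i => ?_) ?_
  · have e : (fun z => (L i : ℂ) * H i z * ((L i : ℂ)⁻¹ * g i (p true z))) =
        fun z => H i z * g i (p true z) := by
      funext z
      have := hL' i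
      field_simp
    unfold Star
    rw [e]
    exact (h i).2.2.2
  · filter_upwards [hLg i] with x hx
    rw [norm_mul, norm_inv, Complex.norm_real, Real.norm_of_nonneg (hL i).le,
      inv_mul_le_iff₀ (hL i), mul_one]
    exact hx
  · refine (Fib27.ce_cmul hC.le _ (h i0).2.1).trans ?_
    filter_upwards [h0] with x hx
    simp [hx]

end T4x

end

end PkCptA

section PkIndF

/-! Row IndF: independence in the line is independence at the finite level. -/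

set_option autoImplicit false
set_option linter.unusedVariables false
set_option warn.classDefReducibility false

open MeasureTheory ProbabilityTheory Filter Topology Function Finset ComplexConjugate
open scoped BigOperators
open Fib27 (BM sup pr Oc Orow F23 LInd Mem)

noncomputable section

namespace T4x

open T3x

variable [Grp]

namespace IndFx

omit [Grp] in
theorem ae_comp {Ω Ω' : Type} {m : MeasurableSpace Ω} {m' : MeasurableSpace Ω'} {μ : Measure Ω}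
    {μ' : Measure Ω'} {p : Ω → Ω'} (h : MeasurePreserving p μ μ') {f g : Ω' → ℂ}
    (e : f =ᵐ[μ'] g) : (fun x => f (p x)) =ᵐ[μ] fun x => g (p x) :=
  h.quasiMeasurePreserving.ae_eq_comp e

omit [Grp] in
theorem rep (a : BasA) {Ω : Type} (B : MeasurableSpace Ω) {m0 : MeasurableSpace Ω} {μ : Measure Ω}
    {f : Ω → ℂ} (hf : BM μ B f) : ∃ f' ∈ @Bdd Ω B, f =ᵐ[μ] f' := by
  obtain ⟨h1, D, hD⟩ := hf
  obtain ⟨f', m, b, e⟩ := a.rep B μ f (max D 0) (le_max_right _ _) h1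
    (hD.mono fun x hx => hx.trans (le_max_left _ _))
  exact ⟨f', ⟨m, _, b⟩, e⟩

theorem fam_of (X : Sys) (n : Lab → Γ) {g : X.X → ℂ} (hg : g ∈ @Bdd X.X X.ms) :
    (fun z : Lab × X.X => g (X.Tz (n z.1) z.2)) ∈ FamS X.ms := by
  obtain ⟨m, D, b⟩ := hg
  exact ⟨fun l => m.comp (X.mp (n l)).measurable, D, fun z => b _⟩

omit [Grp] in
theorem fam_const {Ω : Type} {B : MeasurableSpace Ω} (c : ℂ) :
    (fun _ : Lab × Ω => c) ∈ FamS B := ⟨fun l => measurable_const, ‖c‖, fun _ => le_rfl⟩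

omit [Grp] in
theorem fam_add {Ω : Type} {B : MeasurableSpace Ω} {F G : Lab × Ω → ℂ} (hF : F ∈ FamS B)
    (hG : G ∈ FamS B) : (fun s => F s + G s) ∈ FamS B := by
  obtain ⟨h1, C, hC⟩ := hF
  obtain ⟨h2, D, hD⟩ := hG
  exact ⟨fun l => (h1 l).add (h2 l), C + D, fun s =>
    (norm_add_le _ _).trans (add_le_add (hC s) (hD s))⟩

omit [Grp] in
theorem fam_mul {Ω : Type} {B : MeasurableSpace Ω} {F G : Lab × Ω → ℂ} (hF : F ∈ FamS B)
    (hG : G ∈ FamS B) : (fun s => F s * G s) ∈ FamS B := by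
  obtain ⟨h1, C, hC⟩ := hF
  obtain ⟨h2, D, hD⟩ := hG
  refine ⟨fun l => (h1 l).mul (h2 l), C * D, fun s => ?_⟩
  rw [norm_mul]
  exact mul_le_mul (hC s) (hD s) (norm_nonneg _) ((norm_nonneg _).trans (hC s))

omit [Grp] in
theorem fam_cj {Ω : Type} {B : MeasurableSpace Ω} {F : Lab × Ω → ℂ} (hF : F ∈ FamS B) :
    (fun s => conj (F s)) ∈ FamS B := by
  obtain ⟨h1, C, hC⟩ := hF
  exact ⟨fun l => Complex.continuous_conj.measurable.comp (h1 l), C, fun s => by simpa using hC s⟩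

omit [Grp] in
theorem fam_mono {Ω : Type} {B B' : MeasurableSpace Ω} (h : B ≤ B') {F : Lab × Ω → ℂ}
    (hF : F ∈ FamS B) : F ∈ FamS B' := ⟨fun l => (hF.1 l).mono h le_rfl, hF.2⟩

omit [Grp] in
theorem fam_prod {Ω ι : Type} {B : MeasurableSpace Ω} (S : Finset ι) (F : ι → Lab × Ω → ℂ)
    (hF : ∀ i ∈ S, F i ∈ FamS B) : (fun s => ∏ i ∈ S, F i s) ∈ FamS B ∧
      ∀ χ, IsChar (FamS B) χ → χ (fun s => ∏ i ∈ S, F i s) = ∏ i ∈ S, χ (F i) := by
  classical
  induction S using Finset.induction_on with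
  | empty => exact ⟨by simpa using fam_const 1, fun χ h => by simpa using h.const 1⟩
  | insert a S ha ih =>
    obtain ⟨h1, h2⟩ := ih fun i hi => hF i (mem_insert_of_mem hi)
    have h0 := hF a (mem_insert_self _ _)
    simp only [prod_insert ha]
    exact ⟨fam_mul h0 h1, fun χ h => by rw [h.mul _ h0 _ h1, h2 χ h]⟩

theorem hat_bm {ν : Wt} {U : Ultrafilter ℕ} {X : Sys} (L : Ln ν U X) {F : Lab × X.X → ℂ}
    (hF : F ∈ FamS X.ms) : BM L.W.μ L.W.ms (L.hat F) := by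
  obtain ⟨C, hC⟩ := hF.2
  have m : Measurable[L.W.ms] (L.hat F) := Measurable.of_comap_le (by
    rw [L.gn]
    exact le_iSup₂ (f := fun F (_ : F ∈ FamS X.ms) =>
      MeasurableSpace.comap (L.hat F) inferInstance) F hF)
  exact ⟨m.stronglyMeasurable.aestronglyMeasurable, C,
    Eventually.of_forall fun w => (L.ch w).bdd F hF C hC⟩

/-- products of slots are internal functions -/
theorem slots {ν : Wt} {U : Ultrafilter ℕ} {X : Sys} (L : Ln ν U X) {ι : Type} (sl : ι → Slot)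
    (S : Finset ι) {f g : ι → X.X → ℂ} (hg : ∀ i ∈ S, g i ∈ @Bdd X.X X.ms)
    (e : ∀ i ∈ S, f i =ᵐ[X.μ] g i) : (fun w => ∏ i ∈ S, f i (L.π (sl i) w)) =ᵐ[L.W.μ]
      L.hat fun z => ∏ i ∈ S, g i (X.Tz (rho (sl i) z.1) z.2) := by
  have h : ∀ᵐ w ∂L.W.μ, ∀ i ∈ S, f i (L.π (sl i) w) =
      L.hat (fun z => g i (X.Tz (rho (sl i) z.1) z.2)) w :=
    (eventually_all_finset S).2 fun i hi =>
      (ae_comp (L.emb (sl i)).mp (e i hi)).trans (L.slot (sl i) (g i) (hg i hi))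
  filter_upwards [h] with w hw
  rw [prod_congr rfl hw]
  exact ((fam_prod S (fun i z => g i (X.Tz (rho (sl i) z.1) z.2)) fun i hi =>
    fam_of X (rho (sl i)) (hg i hi)).2 _ (L.ch w)).symm

theorem shifts (X : Sys) {ι : Type} (n : ι → Γ) (S : Finset ι) {f g : ι → X.X → ℂ}
    (e : ∀ i ∈ S, f i =ᵐ[X.μ] g i) : (fun x => ∏ i ∈ S, f i (X.Tz (n i) x)) =ᵐ[X.μ]
      fun x => ∏ i ∈ S, g i (X.Tz (n i) x) := by
  have h : ∀ᵐ x ∂X.μ, ∀ i ∈ S, f i (X.Tz (n i) x) = g i (X.Tz (n i) x) :=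
    (eventually_all_finset S).2 fun i hi => ae_comp (X.mp (n i)) (e i hi)
  filter_upwards [h] with x hx
  exact prod_congr rfl hx

/-- an internal function vanishes when the mean squares tend to zero -/
theorem zero_iff {ν : Wt} {U : Ultrafilter ℕ} {X : Sys} (L : Ln ν U X) {D : Lab × X.X → ℂ}
    (hD : D ∈ FamS X.ms) : L.hat D =ᵐ[L.W.μ] 0 ↔
      Tendsto (fun M => ν.av2 M fun l => ∫ x, ‖D (l, x)‖ ^ 2 ∂X.μ) U (𝓝 0) := by
  have l := L.lim _ (fam_mul hD (fam_cj hD))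
  have e : (fun M => ν.av2 M fun l => ∫ x, D (l, x) * conj (D (l, x)) ∂X.μ) =
      fun M => ((ν.av2 M fun l => ∫ x, ‖D (l, x)‖ ^ 2 ∂X.μ : ℝ) : ℂ) := by
    funext M
    simp only [Wt.av2, Wt.av, Complex.mul_conj', ← Complex.ofReal_pow, integral_complex_ofReal,
      Complex.real_smul, smul_eq_mul, Complex.ofReal_sum, Complex.ofReal_mul]
  have e2 : ∫ w, L.hat (fun s => D s * conj (D s)) w ∂L.W.μ =
      ∫ w, L.hat D w * conj (L.hat D w) ∂L.W.μ := integral_congr_ae (Eventually.of_forall fun w => by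
    simp only
    rw [(L.ch w).mul _ hD _ (fam_cj hD), (L.ch w).cj _ hD])
  rw [e, e2] at l
  constructor
  · intro h
    have z : ∫ w, L.hat D w * conj (L.hat D w) ∂L.W.μ = ((0 : ℝ) : ℂ) :=
      integral_eq_zero_of_ae (h.mono fun w hw => by simp [hw])
    rw [z] at l
    exact (tendsto_ofReal_iff).1 l
  · intro h
    exact Fib27.eq_zero_of_int_conj (hat_bm L hD)
      (tendsto_nhds_unique l (by simpa using (tendsto_ofReal_iff).2 h))

end IndFx

open IndFx in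
theorem indF : IndFR := by
  intro fd ν U X B L ι sl S hB
  refine forall_congr' fun f => forall_congr' fun hf => ?_
  choose! g hg eg using fun i hi => rep fd.a X.ms (hf i hi)
  choose! k hk ek using fun i hi => rep fd.a B ((hf i hi).ce B)
  have hk' : ∀ i ∈ S, k i ∈ @Bdd X.X X.ms := fun i hi =>
    ⟨(hk i hi).1.mono hB.le le_rfl, (hk i hi).2⟩
  have hF := (fam_prod S (fun i z => g i (X.Tz (rho (sl i) z.1) z.2)) fun i hi =>
    fam_of X (rho (sl i)) (hg i hi)).1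
  have hG := (fam_prod S (fun i z => k i (X.Tz (rho (sl i) z.1) z.2)) fun i hi =>
    fam_of X (rho (sl i)) (hk' i hi)).1
  obtain ⟨F, hF1, e1⟩ := fd.lb.cex X B hB _ hF
  have c := (condExp_congr_ae (m := L.shp B) (slots L sl S hg eg)).trans
    (fd.lb.ce L B hB _ hF F hF1 e1)
  have c' := slots L sl S hk' ek
  have hm := fam_mono hB.le hF1
  have hN := fam_mul (fam_const (-1)) hG
  have z := zero_iff L (fam_add hm hN)
  have e : ∀ l : Lab, ∫ x, ‖F (l, x) + -1 * ∏ i ∈ S, k i (X.Tz (rho (sl i) l) x)‖ ^ 2 ∂X.μ =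
      ∫ x, ‖(X.μ[fun y => ∏ i ∈ S, f i (X.Tz (rho (sl i) l) y) | B]) x -
        ∏ i ∈ S, (X.μ[f i | B]) (X.Tz (rho (sl i) l) x)‖ ^ 2 ∂X.μ := fun l => by
    refine integral_congr_ae ?_
    filter_upwards [e1 l, condExp_congr_ae (m := B) (shifts X (fun i => rho (sl i) l) S eg),
      shifts X (fun i => rho (sl i) l) S ek] with x h1 h2 h3
    rw [h1, h2, h3, neg_one_mul, sub_eq_add_neg]
  simp only [e] at z
  rw [← z]
  have e3 : ∀ w, L.hat (fun s => F s + -1 * ∏ i ∈ S, k i (X.Tz (rho (sl i) s.1) s.2)) w =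
      L.hat F w - L.hat (fun s => ∏ i ∈ S, k i (X.Tz (rho (sl i) s.1) s.2)) w := fun w => by
    rw [(L.ch w).add _ hm _ hN, (L.ch w).mul _ (fam_const _) _ hG, (L.ch w).const, neg_one_mul,
      sub_eq_add_neg]
  constructor
  · intro h
    filter_upwards [h, c, c'] with w h1 h2 h3
    rw [e3, ← h2, ← h3, h1, sub_self, Pi.zero_apply]
  · intro h
    filter_upwards [h, c, c'] with w h1 h2 h3
    rw [e3, Pi.zero_apply, sub_eq_zero] at h1
    rw [h2, h3, h1]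

end T4x

end

end PkIndF

section PkRes

/-! Reduction to the normal form: restrict the action to a subgroup and recentre. -/

set_option autoImplicit false
set_option linter.unusedVariables false
set_option warn.classDefReducibility false

open MeasureTheory ProbabilityTheory Filter Topology Function Finset ComplexConjugate
open scoped BigOperators
open Fib27 (BM sup pr Oc Orow F23 LInd Mem)

noncomputable section

namespace T4x

open T3x

namespace Resx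

/-- a subgroup with the directions it contains -/
def sub (G : Grp) (K : AddSubgroup G.Γ) : Grp where
  Γ := K
  𝒰 := {g : K | g.1 ∈ G.𝒰}

/-- the action restricted to a subgroup -/
def rs (G : Grp) (K : AddSubgroup G.Γ) (X : @Sys G) : @Sys (sub G K) :=
  @Sys.mk (sub G K) X.X X.ms X.μ X.pr (fun g : K => X.Tz g.1) (fun g : K => X.mp g.1)
    (fun x => X.zero x) (fun (g h : K) x => X.add g.1 h.1 x)

theorem nice_rs (G : Grp) (K : AddSubgroup G.Γ) (X : @Sys G) (h : @Nice G X) :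
    @Nice (sub G K) (rs G K X) := h

theorem fac_rs (G : Grp) (K : AddSubgroup G.Γ) (X : @Sys G) (B : MeasurableSpace X.X)
    (h : @Fac G X B) : @Fac (sub G K) (rs G K X) B :=
  @Fac.mk (sub G K) (rs G K X) B h.le h.nl (fun g : K => h.inv g.1)

theorem kc_rs (G : Grp) (K : AddSubgroup G.Γ) (X : @Sys G) (B : MeasurableSpace X.X)
    (h : @KC G X B) : @KC (sub G K) (rs G K X) B :=
  ⟨fac_rs G K X B h.1, fun (u : K) hu => h.2 u.1 hu⟩

/-- the finite-level integral is unchanged by a common shift of all slots -/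
theorem shift [G : Grp] (hT : BasT) (X : Sys) (B : MeasurableSpace X.X) (hB : Fac X B)
    {ι : Type} (S : Finset ι) (f : ι → X.X → ℂ) (hf : ∀ i ∈ S, BM X.μ X.ms (f i))
    (a : ι → Γ) (c : Γ) :
    ∫ x, ‖(X.μ[fun y => ∏ i ∈ S, f i (X.Tz (a i + c) y) | B]) x -
      ∏ i ∈ S, (X.μ[f i | B]) (X.Tz (a i + c) x)‖ ^ 2 ∂X.μ =
    ∫ x, ‖(X.μ[fun y => ∏ i ∈ S, f i (X.Tz (a i) y) | B]) x -
      ∏ i ∈ S, (X.μ[f i | B]) (X.Tz (a i) x)‖ ^ 2 ∂X.μ := by
  have hb : BM X.μ X.ms (pr (fun i y => f i (X.Tz (a i) y)) S) :=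
    Fib27.BM.pr fun i hi => hT.bm X X.ms (a i) (f i) (hT.top X) (hf i hi)
  have hce := hT.ce X B c (fun y => ∏ i ∈ S, f i (X.Tz (a i) y)) hB hb.integrable
  have hmp : @MeasurePreserving _ _ X.ms X.ms (X.eq c) X.μ X.μ := X.mp c
  rw [← @MeasurePreserving.integral_comp' _ _ _ _ X.ms X.μ _ X.ms X.μ (X.eq c) hmp (fun x => ‖(X.μ[fun y => ∏ i ∈ S, f i (X.Tz (a i) y) | B]) x -
      ∏ i ∈ S, (X.μ[f i | B]) (X.Tz (a i) x)‖ ^ 2)]
  simp only [X.add]
  refine integral_congr_ae ?_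
  filter_upwards [hce] with x hx
  rw [hx]
  rfl

theorem top_of {A : Type} [AddCommGroup A] (E : Set A) (K : AddSubgroup (AddSubgroup.closure E))
    (h : ∀ a (ha : a ∈ E), (⟨a, AddSubgroup.subset_closure ha⟩ : AddSubgroup.closure E) ∈ K) :
    K = ⊤ := by
  rw [eq_top_iff, ← AddSubgroup.closure_closure_coe_preimage, AddSubgroup.closure_le]
  intro a ha
  exact h a.1 ha

/-- the recentred slots are in normal form -/
theorem nrm (G : Grp) {ι : Type} (sl : ι → @Slot G) (S : Finset ι) (hc : @Cov G ι sl S)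
    (v0 : G.Γ) (hv : ((∃ i1 ∈ S, v0 = (sl i1).1) ∧ ∀ i ∈ S, ∀ j ∈ S, (sl i).2 = (sl j).2) ∨
      (v0 = 0 ∧ ∀ i ∈ S, ∃ j ∈ S, (sl i).2 ≠ (sl j).2)) :
    @Nrm (sub G (AddSubgroup.closure ((fun k => (sl k).1 - v0) '' S))) S _
      (fun k : S => ((⟨(sl k).1 - v0, AddSubgroup.subset_closure ⟨k.1, k.2, rfl⟩⟩ :
        AddSubgroup.closure ((fun k => (sl k).1 - v0) '' S)), (sl k).2)) := by
  refine @Nrm.mk (sub G _) S _ _ ?_ ?_ ?_
  · intro i _ j _ hij
    have hij' : i.1 ≠ j.1 := fun h => hij (Subtype.ext h)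
    have h := hc i.1 i.2 j.1 j.2 hij'
    refine ⟨fun h2 => ?_, fun h2 => ?_⟩
    · have h3 := h.1 h2
      show (sl i).1 - v0 - ((sl j).1 - v0) ∈ G.𝒰
      rw [sub_sub_sub_cancel_right]
      exact h3
    · have h3 := h.2 h2
      show (sl i).1 - v0 ∈ G.𝒰
      rcases hv with ⟨_, h4⟩ | ⟨h4, _⟩
      · exact absurd (h4 i.1 i.2 j.1 j.2) h2
      · rw [h4, sub_zero]; exact h3
  · intro i
    rcases hv with ⟨⟨i1, h1, h5⟩, h4⟩ | ⟨h4, h5⟩
    · by_cases h : i.1 = i1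
      · right
        refine Subtype.ext ?_
        show (sl i).1 - v0 = 0
        rw [h5, h, sub_self]
      · left
        show (sl i).1 - v0 ∈ G.𝒰
        rw [h5]
        exact (hc i.1 i.2 i1 h1 h).1 (h4 i.1 i.2 i1 h1)
    · left
      show (sl i).1 - v0 ∈ G.𝒰
      obtain ⟨j, hj, h6⟩ := h5 i.1 i.2
      have hne : i.1 ≠ j := fun h => h6 (by rw [h])
      rw [h4, sub_zero]
      exact (hc i.1 i.2 j hj hne).2 h6
  · intro i
    refine top_of _ _ ?_
    rintro a ⟨k, hk, rfl⟩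
    set E : Set G.Γ := (fun k => (sl k).1 - v0) '' S with hE
    set t : S → AddSubgroup.closure E := fun k =>
      ⟨(sl k).1 - v0, AddSubgroup.subset_closure ⟨k.1, k.2, rfl⟩⟩ with ht
    set K : AddSubgroup (AddSubgroup.closure E) := AddSubgroup.closure (⋃ j : S, @pg (sub G (AddSubgroup.closure E)) (t i, (sl i).2)
      (t j, (sl j).2)) with hK
    have e1 : ∀ j : S, (sl i).2 = (sl j).2 → t j - t i ∈ K := fun j hj =>
      AddSubgroup.subset_closure (Set.mem_iUnion.2 ⟨j, by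
        unfold pg
        rw [if_pos hj]
        exact Set.mem_singleton _⟩)
    have e2 : ∀ j : S, (sl i).2 ≠ (sl j).2 → t i ∈ K ∧ t j ∈ K := fun j hj =>
      ⟨AddSubgroup.subset_closure (Set.mem_iUnion.2 ⟨j, by
        unfold pg
        rw [if_neg hj]
        exact Set.mem_insert _ _⟩),
      AddSubgroup.subset_closure (Set.mem_iUnion.2 ⟨j, by
        unfold pg
        rw [if_neg hj]
        exact Set.mem_insert_of_mem _ (Set.mem_singleton _)⟩)⟩
    have e3 : t i ∈ K := by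
      rcases hv with ⟨⟨i1, h1, h5⟩, h4⟩ | ⟨h4, h5⟩
      · have h6 := K.neg_mem (e1 ⟨i1, h1⟩ (h4 i.1 i.2 i1 h1))
        have h7 : t ⟨i1, h1⟩ = 0 := Subtype.ext (by
          show (sl i1).1 - v0 = 0
          rw [h5, sub_self])
        rwa [h7, zero_sub, neg_neg] at h6
      · obtain ⟨j, hj, h6⟩ := h5 i.1 i.2
        exact (e2 ⟨j, hj⟩ h6).1
    show t ⟨k, hk⟩ ∈ K
    by_cases h : (sl i).2 = (sl k).2
    · have h6 := K.add_mem (e1 ⟨k, hk⟩ h) e3
      rwa [sub_add_cancel] at h6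
    · exact (e2 ⟨k, hk⟩ h).2

end Resx

open Resx in
theorem res : ResR := by
  intro hFd hF ν U n hn hN G X B L ι sl S hX hB hc hS
  classical
  obtain ⟨i1, h1⟩ : S.Nonempty := Finset.card_pos.1 (by omega)
  obtain ⟨v0, hv⟩ : ∃ v0 : G.Γ,
      ((∃ i1 ∈ S, v0 = (sl i1).1) ∧ ∀ i ∈ S, ∀ j ∈ S, (sl i).2 = (sl j).2) ∨
      (v0 = 0 ∧ ∀ i ∈ S, ∃ j ∈ S, (sl i).2 ≠ (sl j).2) := by
    by_cases h : ∀ i ∈ S, ∀ j ∈ S, (sl i).2 = (sl j).2
    · exact ⟨(sl i1).1, Or.inl ⟨⟨i1, h1, rfl⟩, h⟩⟩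
    · refine ⟨0, Or.inr ⟨rfl, fun i hi => ?_⟩⟩
      by_contra h2
      push Not at h2
      exact h fun a ha b hb => (h2 a ha).symm.trans (h2 b hb)
  have hnrm := nrm G sl S hc v0 hv
  set K := AddSubgroup.closure ((fun k => (sl k).1 - v0) '' S) with hK
  obtain ⟨L1⟩ := @Fd.line (sub G K) (hFd (sub G K)) ν U (rs G K X) (nice_rs G K X hX)
  have hI := hN (sub G K) (rs G K X) B L1 S _ (nice_rs G K X hX) (kc_rs G K X B hB) hnrm
    (by rw [Fintype.card_coe, hS])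
  have hI2 := (hF (sub G K) ν U (rs G K X) B L1 S _ univ (fac_rs G K X B hB.1)).1 hI
  refine (hF G ν U X B L ι sl S hB.1).2 ?_
  intro f hf
  have h3 := hI2 (fun k : S => f k.1) (fun k _ => hf k.1 k.2)
  refine h3.congr fun M => ?_
  congr 1
  funext l
  have hr : ∀ i ∈ S, rho (sl i) l = (if (sl i).2 then l.2.1 else l.2.2) • ((sl i).1 - v0) +
      (if (sl i1).2 then l.2.1 else l.2.2) • v0 := by
    intro i hi
    unfold rho
    rcases hv with ⟨_, h4⟩ | ⟨h4, _⟩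
    · rw [h4 i1 h1 i hi, ← smul_add, sub_add_cancel]
    · rw [h4, smul_zero, add_zero, sub_zero]
  have h5 := shift (hFd G).t X B hB.1 S f hf
    (fun i => (if (sl i).2 then l.2.1 else l.2.2) • ((sl i).1 - v0))
    ((if (sl i1).2 then l.2.1 else l.2.2) • v0)
  have h6 : (fun y => ∏ i ∈ S, f i (X.Tz (rho (sl i) l) y)) = fun y => ∏ i ∈ S, f i (X.Tz
      ((if (sl i).2 then l.2.1 else l.2.2) • ((sl i).1 - v0) +
      (if (sl i1).2 then l.2.1 else l.2.2) • v0) y) :=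
    funext fun y => Finset.prod_congr rfl fun i hi => by rw [hr i hi]
  have h7 : ∀ x, ∏ i ∈ S, (X.μ[f i | B]) (X.Tz (rho (sl i) l) x) = ∏ i ∈ S, (X.μ[f i | B]) (X.Tz
      ((if (sl i).2 then l.2.1 else l.2.2) • ((sl i).1 - v0) +
      (if (sl i1).2 then l.2.1 else l.2.2) • v0) x) :=
    fun y => Finset.prod_congr rfl fun i hi => by rw [hr i hi]
  rw [h6]
  simp only [h7]
  rw [h5]
  have h8 : (fun y => ∏ i ∈ S, f i (X.Tz
      ((if (sl i).2 then l.2.1 else l.2.2) • ((sl i).1 - v0)) y)) = fun y => ∏ i : S, f i (X.Tz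
      ((if (sl i).2 then l.2.1 else l.2.2) • ((sl i).1 - v0)) y) :=
    funext fun y => (Finset.prod_coe_sort S fun i => f i (X.Tz
      ((if (sl i).2 then l.2.1 else l.2.2) • ((sl i).1 - v0)) y)).symm
  have h9 : ∀ x, ∏ i ∈ S, (X.μ[f i | B]) (X.Tz
      ((if (sl i).2 then l.2.1 else l.2.2) • ((sl i).1 - v0)) x) = ∏ i : S, (X.μ[f i | B]) (X.Tz
      ((if (sl i).2 then l.2.1 else l.2.2) • ((sl i).1 - v0)) x) :=
    fun y => (Finset.prod_coe_sort S fun i => (X.μ[f i | B]) (X.Tz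
      ((if (sl i).2 then l.2.1 else l.2.2) • ((sl i).1 - v0)) y)).symm
  rw [h8]
  simp only [h9]
  rfl

end T4x

end

end PkRes
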