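import Pool.Agent.MP_154433_an.t4a.Spec

/-! The algebraic step for group actions, part B1. -/

section PkKex

/-! Row Kex: existence of the kernel of the invariant sets of a group action. -/

set_option autoImplicit false

open MeasureTheory ProbabilityTheory Filter Topology Set
open scoped ENNReal

namespace Pool.Agent.MP_154433_an.T4A

open T3A

namespace KexAux

theorem int {Ω : Type} {m : MeasurableSpace Ω} [mΩ : MeasurableSpace Ω] [StandardBorelSpace Ω]
    (μ : Measure Ω) [IsProbabilityMeasure μ] (hm : m ≤ mΩ) {h : Ω → ℝ≥0∞} (hh : Measurable[m] h)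
    {A : Set Ω} (hA : MeasurableSet A) :
    ∫⁻ y, h y * condExpKernel μ m y A ∂μ = ∫⁻ y in A, h y ∂μ := by
  have mF : Measurable[m.prod mΩ] fun z : Ω × Ω => h z.1 * A.indicator 1 z.2 :=
    (hh.comp (@measurable_fst Ω Ω m mΩ)).mul
      ((measurable_one.indicator hA).comp (@measurable_snd Ω Ω m mΩ))
  have md : @Measurable Ω (Ω × Ω) mΩ (m.prod mΩ) Function.diag :=
    Measurable.prodMk (f := id) (g := id) (measurable_id'' hm) measurable_id
  have e := congrArg (fun ν : @Measure (Ω × Ω) (m.prod mΩ) =>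
    ∫⁻ z, h z.1 * A.indicator 1 z.2 ∂ν) (compProd_trim_condExpKernel (μ := μ) hm)
  rw [Measure.lintegral_compProd mF, @lintegral_map Ω (Ω × Ω) mΩ (m.prod mΩ) μ _ _ mF md] at e
  simp only [lintegral_const_mul _ (measurable_one.indicator hA), lintegral_indicator_one hA] at e
  rw [lintegral_trim hm (f := fun a => h a * condExpKernel μ m a A)
    (hh.mul (measurable_condExpKernel hA))] at e
  rw [e, ← lintegral_indicator hA]
  refine lintegral_congr fun y => ?_
  by_cases c : y ∈ A <;> simp [c, Function.diag]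

theorem ex {I Ω : Type} [mΩ : MeasurableSpace Ω] [StandardBorelSpace Ω] (i : I)
    (μ : Measure Ω) [IsProbabilityMeasure μ] (f : I → Ω → Ω) :
    ∃ κ : Kernel Ω Ω, IsMarkovKernel κ ∧ (∀ n y, κ (f n y) = κ y) ∧
      ∀ h : Ω → ℝ≥0∞, Measurable h → (∀ n y, h (f n y) = h y) → ∀ A, MeasurableSet A →
        ∫⁻ y, h y * κ y A ∂μ = ∫⁻ y in A, h y ∂μ := by
  have hm : (⨅ n, MeasurableSpace.invariants (f n)) ≤ mΩ :=
    iInf_le_of_le i (MeasurableSpace.invariants_le _)
  refine ⟨⟨fun y => condExpKernel μ (⨅ n, MeasurableSpace.invariants (f n)) y,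
    (condExpKernel μ (⨅ n, MeasurableSpace.invariants (f n))).measurable.mono hm le_rfl⟩,
    ⟨fun y => ?_⟩, fun n y => Measure.ext fun s hs => ?_, fun h h1 h2 A hA => ?_⟩
  · exact IsMarkovKernel.isProbabilityMeasure
      (κ := condExpKernel μ (⨅ n, MeasurableSpace.invariants (f n))) y
  · exact congrFun (MeasurableSpace.comp_eq_of_measurable_invariants
      ((measurable_condExpKernel (μ := μ) (m := ⨅ n, MeasurableSpace.invariants (f n)) hs).mono
        (iInf_le _ n) le_rfl)) y
  · refine int μ hm (fun s hs => MeasurableSpace.measurableSet_iInf.2 fun n => ?_) hA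
    exact MeasurableSpace.measurable_invariants_dom.2 ⟨h1, fun s _ => by
      ext y
      simp [h2]⟩ hs

end KexAux

theorem xKex : KexS := by
  intro G Ω _ _ mΩ _ μ _ T _
  obtain ⟨κ, h1, h2, h3⟩ := KexAux.ex (0 : G) μ (fun n => tz T n)
  exact ⟨κ, h1, h2, h3⟩

end Pool.Agent.MP_154433_an.T4A

end PkKex

section PkKa

/-! Row Ka: first properties of the kernel of invariant components. -/

set_option autoImplicit false

open MeasureTheory ProbabilityTheory Filter Topology Set
open scoped ENNReal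

namespace Pool.Agent.MP_154433_an.T4A

open T3A

namespace KaAux

variable {G Ω : Type} [AddCommGroup G] [MeasurableSpace Ω] {μ : Measure Ω} {T : Act G Ω}
  {κ : Kernel Ω Ω}

theorem not_lt {f g : Ω → ℝ≥0∞} (hf : Measurable f)
    (hg : Measurable g) (h0 : ∫⁻ y in {y | f y < g y}, f y ∂μ ≠ ∞)
    (h : ∫⁻ y in {y | f y < g y}, f y ∂μ = ∫⁻ y in {y | f y < g y}, g y ∂μ) :
    ∀ᵐ y ∂μ, ¬f y < g y := by
  have hm : MeasurableSet {y | f y < g y} := measurableSet_lt hf hg
  have := ae_eq_of_ae_le_of_lintegral_le (μ := μ.restrict {y | f y < g y})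
    ((ae_restrict_mem hm).mono fun y hy => le_of_lt hy) h0 hg.aemeasurable h.ge
  filter_upwards [(ae_restrict_iff' hm).1 this] with y hy c
  exact c.ne (hy c)

/-- the defining identity on an invariant set -/
theorem onInv (h : ErgK μ T κ) {C A : Set Ω} (hC : MeasurableSet C) (hi : ∀ n, tz T n ⁻¹' C = C)
    (hA : MeasurableSet A) : ∫⁻ y in C, κ y A ∂μ = μ (A ∩ C) := by
  have := h.int (C.indicator 1) (measurable_one.indicator hC) (fun n y => by
    conv_rhs => rw [← hi n]
    rfl) _ hA
  rw [lintegral_indicator_one hC, Measure.restrict_apply hC, inter_comm] at this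
  rw [← this, ← lintegral_indicator hC]
  refine lintegral_congr fun y => ?_
  by_cases hy : y ∈ C <;> simp [hy]

theorem pre [IsProbabilityMeasure μ] (hT : MP T μ) (h : ErgK μ T κ) (n : G) {A : Set Ω}
    (hA : MeasurableSet A) : ∀ᵐ y ∂μ, κ y (tz T n ⁻¹' A) = κ y A := by
  have hA' := measurable_tz T n hA
  have mf : Measurable fun y => κ y (tz T n ⁻¹' A) := κ.measurable_coe hA'
  have mg : Measurable fun y => κ y A := κ.measurable_coe hA
  have e : ∀ C, MeasurableSet C → (∀ m, tz T m ⁻¹' C = C) →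
      ∫⁻ y in C, κ y (tz T n ⁻¹' A) ∂μ = μ (A ∩ C) ∧ ∫⁻ y in C, κ y A ∂μ = μ (A ∩ C) :=
    fun C hC hi => by
      refine ⟨?_, onInv h hC hi hA⟩
      rw [onInv h hC hi hA', ← (hT n).measure_preimage (hA.inter hC).nullMeasurableSet,
        preimage_inter, hi]
  have e1 := e _ (measurableSet_lt mf mg) (fun m => by ext y; simp [h.inv])
  have e2 := e _ (measurableSet_lt mg mf) (fun m => by ext y; simp [h.inv])
  filter_upwards [not_lt mf mg (e1.1 ▸ measure_ne_top _ _) (e1.1.trans e1.2.symm),
    not_lt mg mf (e2.2 ▸ measure_ne_top _ _) (e2.2.trans e2.1.symm)] with y a b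
  exact le_antisymm (le_of_not_gt b) (le_of_not_gt a)

end KaAux

theorem xKa : KaS := by
  intro G Ω _ _ _ _ μ _ T κ hT h
  have := h.markov
  refine ⟨?_, ae_all_iff.2 fun n => ?_, fun B hB hi => ?_⟩
  · ext A hA
    rw [Measure.bind_apply hA κ.aemeasurable]
    have := KaAux.onInv h MeasurableSet.univ (fun _ => preimage_univ) hA
    simpa using this
  · have hm := measurable_tz T n
    have : IsMarkovKernel (κ.map (tz T n)) := Kernel.IsMarkovKernel.map κ hm
    have e : μ ⊗ₘ (κ.map (tz T n)) = μ ⊗ₘ κ := by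
      refine Measure.ext_prod fun {s t} hs ht => ?_
      rw [Measure.compProd_apply_prod hs ht, Measure.compProd_apply_prod hs ht]
      refine lintegral_congr_ae (ae_restrict_of_ae ?_)
      filter_upwards [KaAux.pre hT h n ht] with y hy
      rw [Kernel.map_apply' κ hm y ht, hy]
    filter_upwards [Kernel.ae_eq_of_compProd_eq e] with a ha
    exact ⟨hm, by rw [← Kernel.map_apply κ hm, ha]⟩
  · have e := KaAux.onInv h hB hi hB.compl
    rw [compl_inter_self, measure_empty,
      lintegral_eq_zero_iff (κ.measurable_coe hB.compl)] at e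
    exact (ae_restrict_iff' hB).1 e

end Pool.Agent.MP_154433_an.T4A

end PkKa

section PkKb

set_option autoImplicit false

open MeasureTheory ProbabilityTheory Filter Topology Set
open scoped ENNReal

namespace Pool.Agent.MP_154433_an.T4A

open T3A

theorem xKb : KbS := by
  intro G Ω _ _ _ μ _ T κ hT K hm
  have := K.markov
  refine ⟨Measure.ext_prod fun {A B} hA hB => ?_, fun i j => ?_⟩
  · rw [Measure.bind_apply (hA.prod hB) (Kernel.aemeasurable _), Measure.compProd_apply_prod hA hB,
      ← K.int (fun y => κ y B) (κ.measurable_coe hB) (fun n y => by simp only [K.inv]) A hA]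
    refine lintegral_congr fun y => ?_
    rw [Kernel.prod_apply, Measure.prod_prod, mul_comm]
  · have hme : Measurable (Prod.map (tz T i) (tz T j)) :=
      (measurable_tz T i).prodMap (measurable_tz T j)
    refine ⟨hme, Measure.ext_prod fun {A B} hA hB => ?_⟩
    rw [Measure.map_apply hme (hA.prod hB), Set.preimage_prod_map_prod,
      Measure.compProd_apply_prod (measurable_tz T i hA) (measurable_tz T j hB),
      Measure.compProd_apply_prod hA hB,
      ← (hT i).setLIntegral_comp_preimage hA (κ.measurable_coe hB)]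
    refine lintegral_congr_ae (ae_restrict_of_ae (hm.mono fun y hy => ?_))
    simp only
    rw [K.inv i y, (hy j).measure_preimage hB.nullMeasurableSet]

end Pool.Agent.MP_154433_an.T4A

end PkKb

section PkKc

set_option autoImplicit false

open MeasureTheory ProbabilityTheory Filter Topology Set
open scoped ENNReal

namespace Pool.Agent.MP_154433_an.T4A

open T3A

namespace KcAux

variable {Ω : Type} [MeasurableSpace Ω] (μ : Measure Ω) [IsProbabilityMeasure μ] (κ : Kernel Ω Ω)
  [IsMarkovKernel κ]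

theorem lint {E : Set (Ω × Ω)} (hE : MeasurableSet E) {g : Ω → ℝ≥0∞} (hg : Measurable g) :
    ∫⁻ p in E, g p.1 ∂(μ ⊗ₘ κ) = ∫⁻ y, κ y (Prod.mk y ⁻¹' E) * g y ∂μ := by
  have hf : Measurable fun p : Ω × Ω => g p.1 := hg.comp measurable_fst
  rw [← lintegral_indicator hE, Measure.lintegral_compProd (hf.indicator hE)]
  refine lintegral_congr fun y => ?_
  have e : (fun b => E.indicator (fun p : Ω × Ω => g p.1) (y, b)) =
      (Prod.mk y ⁻¹' E).indicator fun _ => g y := by
    funext b
    by_cases h : (y, b) ∈ E <;> simp [h, indicator]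
  rw [e, lintegral_indicator_const (measurable_prodMk_left hE), mul_comm]

/-- a point with two independent samples of its component -/
noncomputable def m3 : Measure ((Ω × Ω) × Ω) := (μ ⊗ₘ κ) ⊗ₘ κ.comap Prod.fst measurable_fst

instance : IsProbabilityMeasure (m3 μ κ) := by
  unfold m3
  infer_instance

theorem m3_prod {E : Set (Ω × Ω)} (hE : MeasurableSet E) {C : Set Ω} (hC : MeasurableSet C) :
    m3 μ κ (E ×ˢ C) = ∫⁻ y, κ y (Prod.mk y ⁻¹' E) * κ y C ∂μ := by
  rw [m3, Measure.compProd_apply_prod hE hC, ← lint μ κ hE (κ.measurable_coe hC)]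
  rfl

variable {μ κ} {G : Type} [AddCommGroup G] {T : Act G Ω}

theorem m3_box (h : ErgK μ T κ) {A B C : Set Ω} (hA : MeasurableSet A) (hB : MeasurableSet B)
    (hC : MeasurableSet C) :
    m3 μ κ ((A ×ˢ B) ×ˢ C) = ∫⁻ y, κ y B * κ y C * κ y A ∂μ := by
  rw [m3_prod μ κ (hA.prod hB) hC, h.int (fun y => κ y B * κ y C)
    ((κ.measurable_coe hB).mul (κ.measurable_coe hC)) (fun n y => by rw [h.inv]) A hA,
    ← lintegral_indicator hA]
  refine lintegral_congr fun y => ?_
  by_cases hy : y ∈ A <;> simp [hy, indicator]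

theorem m3_swap (h : ErgK μ T κ) : (m3 μ κ).map (Prod.map Prod.swap id) = m3 μ κ := by
  have hm : Measurable (Prod.map Prod.swap id : (Ω × Ω) × Ω → (Ω × Ω) × Ω) :=
    measurable_swap.prodMap measurable_id
  refine Measure.ext_prod₃_iff'.2 fun {A B C} hA hB hC => ?_
  rw [Measure.map_apply hm ((hA.prod hB).prod hC)]
  have e : (Prod.map Prod.swap id : (Ω × Ω) × Ω → (Ω × Ω) × Ω) ⁻¹' ((A ×ˢ B) ×ˢ C) =
      (B ×ˢ A) ×ˢ C := by
    ext q
    simp [and_comm]
  rw [e, m3_box h hA hB hC, m3_box h hB hA hC]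
  refine lintegral_congr fun y => ?_
  ring

theorem law (h : ErgK μ T κ) {D : Set (Ω × Ω)} (hD : MeasurableSet D)
    (hT : ∀ n, Prod.map id (tz T n) ⁻¹' D = D) :
    ((m3 μ κ).restrict ((Prod.swap ⁻¹' D) ×ˢ univ)).map (fun q => (q.1.2, q.2)) =
      ((μ ⊗ₘ κ).restrict (Prod.swap ⁻¹' D)).map Prod.swap := by
  have hm : Measurable fun q : (Ω × Ω) × Ω => (q.1.2, q.2) := by fun_prop
  refine Measure.ext_prod fun {B A} hB hA => ?_
  have hE : MeasurableSet (Prod.swap ⁻¹' D ∩ univ ×ˢ B : Set (Ω × Ω)) :=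
    (measurable_swap hD).inter (MeasurableSet.univ.prod hB)
  rw [Measure.map_apply hm (hB.prod hA), Measure.restrict_apply (hm (hB.prod hA)),
    Measure.map_apply measurable_swap (hB.prod hA),
    Measure.restrict_apply (measurable_swap (hB.prod hA))]
  have e1 : (fun q : (Ω × Ω) × Ω => (q.1.2, q.2)) ⁻¹' (B ×ˢ A) ∩ (Prod.swap ⁻¹' D) ×ˢ univ =
      (Prod.swap ⁻¹' D ∩ univ ×ˢ B) ×ˢ A := by
    ext q
    simp only [mem_inter_iff, mem_preimage, mem_prod, mem_univ, and_true, true_and]
    tauto
  have hi : ∀ n y, κ (tz T n y) (Prod.mk (tz T n y) ⁻¹' (Prod.swap ⁻¹' D ∩ univ ×ˢ B)) =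
      κ y (Prod.mk y ⁻¹' (Prod.swap ⁻¹' D ∩ univ ×ˢ B)) := fun n y => by
    rw [h.inv]
    congr 1
    ext z
    have := Set.ext_iff.1 (hT n) (z, y)
    simp only [mem_preimage, Prod.map_apply, id_eq] at this
    simp [this]
  rw [e1, m3_prod μ κ hE hA, h.int _ (Kernel.measurable_kernel_prodMk_left hE) hi A hA,
    Measure.compProd_apply ((measurable_swap (hB.prod hA)).inter (measurable_swap hD)),
    ← lintegral_indicator hA]
  refine lintegral_congr fun y => ?_
  by_cases hy : y ∈ A
  · rw [indicator_of_mem hy]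
    congr 1
    ext z
    simp [hy, and_comm]
  · rw [indicator_of_notMem hy]
    have : Prod.mk y ⁻¹' (Prod.swap ⁻¹' (B ×ˢ A) ∩ Prod.swap ⁻¹' D) = ∅ := by
      ext z
      simp [hy]
    rw [this, measure_empty]

end KcAux

open KcAux in
theorem xKc : KcS := by
  intro G Ω _ _ _ μ _ T κ _ h D hD hT
  have := h.markov
  have hm : Measurable fun q : (Ω × Ω) × Ω => (q.1.2, q.2) := by fun_prop
  have hm' : Measurable fun q : (Ω × Ω) × Ω => (q.1.1, q.2) := by fun_prop
  have hs : Measurable (Prod.map Prod.swap id : (Ω × Ω) × Ω → (Ω × Ω) × Ω) :=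
    measurable_swap.prodMap measurable_id
  have hg : Measurable fun y => κ y (Prod.mk y ⁻¹' Dᶜ) :=
    Kernel.measurable_kernel_prodMk_left hD.compl
  have hQ : MeasurableSet ((fun q : (Ω × Ω) × Ω => (q.1.1, q.2)) ⁻¹' Dᶜ ∩ D ×ˢ univ) :=
    (hm' hD.compl).inter (hD.prod MeasurableSet.univ)
  have h1 : m3 μ κ ((fun q : (Ω × Ω) × Ω => (q.1.1, q.2)) ⁻¹' Dᶜ ∩ D ×ˢ univ) = 0 := by
    have h2 := congrArg (fun m : Measure (Ω × Ω) => m Dᶜ) (law h hD hT)
    rw [Measure.map_apply hm hD.compl, Measure.restrict_apply (hm hD.compl),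
      Measure.map_apply measurable_swap hD.compl,
      Measure.restrict_apply (measurable_swap hD.compl), preimage_compl (f := Prod.swap),
      compl_inter_self, measure_empty] at h2
    rw [← m3_swap h, Measure.map_apply hs hQ, ← h2]
    congr 1
  have h3 : ∫⁻ y, κ y (Prod.mk y ⁻¹' D) * κ y (Prod.mk y ⁻¹' Dᶜ) ∂μ = 0 := by
    rw [← lint μ κ hD hg, ← h1, m3, Measure.compProd_apply hQ, ← lintegral_indicator hD]
    refine lintegral_congr fun p => ?_
    by_cases hp : p ∈ D
    · rw [indicator_of_mem hp, Kernel.comap_apply]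
      congr 1
      ext z
      simp [hp]
    · rw [indicator_of_notMem hp]
      have : Prod.mk p ⁻¹' ((fun q : (Ω × Ω) × Ω => (q.1.1, q.2)) ⁻¹' Dᶜ ∩ D ×ˢ univ) = ∅ := by
        ext z
        simp [hp]
      rw [this, measure_empty]
  filter_upwards [(lintegral_eq_zero_iff
    ((Kernel.measurable_kernel_prodMk_left hD).mul hg)).1 h3] with y hy
  exact mul_eq_zero.1 hy

end Pool.Agent.MP_154433_an.T4A

end PkKc

section PkKd

/-! Row Kd: the kernels of invariant components are compatible with factor maps. -/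

set_option autoImplicit false

open MeasureTheory ProbabilityTheory Filter Topology Set
open scoped ENNReal

namespace Pool.Agent.MP_154433_an.T4A

open T3A

namespace KdAux

/-- a strictly invariant version of an almost invariant function -/
theorem strict {G Ω : Type} [AddCommGroup G] [Countable G] [MeasurableSpace Ω] {μ : Measure Ω}
    (T : Act G Ω) {g : Ω → ℝ≥0∞} (hg : Measurable g)
    (h : ∀ n, (fun x => g (tz T n x)) =ᵐ[μ] g) :
    ∃ g' : Ω → ℝ≥0∞, Measurable g' ∧ (∀ n x, g' (tz T n x) = g' x) ∧ g' =ᵐ[μ] g := by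
  refine ⟨fun x => ⨅ n, g (tz T n x),
    Measurable.iInf fun n => hg.comp (measurable_tz T n), fun k x => ?_, ?_⟩
  · simp only [← tz_add]
    exact (Equiv.addRight k).iInf_comp (g := fun n => g (tz T n x))
  · filter_upwards [ae_all_iff.2 h] with x hx
    simp only [hx, iInf_const]

theorem not_lt {Y : Type} [MeasurableSpace Y] {μ : Measure Y} {f g : Y → ℝ≥0∞} (hf : Measurable f)
    (hg : Measurable g) (h0 : ∫⁻ y in {y | f y < g y}, f y ∂μ ≠ ∞)
    (h : ∫⁻ y in {y | f y < g y}, f y ∂μ = ∫⁻ y in {y | f y < g y}, g y ∂μ) :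
    ∀ᵐ y ∂μ, ¬f y < g y := by
  have hm : MeasurableSet {y | f y < g y} := measurableSet_lt hf hg
  have := ae_eq_of_ae_le_of_lintegral_le (μ := μ.restrict {y | f y < g y})
    ((ae_restrict_mem hm).mono fun y hy => le_of_lt hy) h0 hg.aemeasurable h.ge
  filter_upwards [(ae_restrict_iff' hm).1 this] with y hy c
  exact c.ne (hy c)

end KdAux

theorem xKd : KdS := by
  intro G Y Ω _ _ _ _ μ' _ μ _ T' T κ' κ p hT' hT h' h hp hc
  have := h'.markov
  have := h.markov
  have key : ∀ B, MeasurableSet B → ∀ᵐ y ∂μ', κ' y (p ⁻¹' B) = κ (p y) B := fun B hB => by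
    have hB' := hp.measurable hB
    have mf : Measurable fun y => κ' y (p ⁻¹' B) := κ'.measurable_coe hB'
    have mk : Measurable fun x => κ x B := κ.measurable_coe hB
    have mg : Measurable fun y => κ (p y) B := mk.comp hp.measurable
    have e : ∀ C, MeasurableSet C → (∀ n, tz T' n ⁻¹' C = C) →
        ∫⁻ y in C, κ' y (p ⁻¹' B) ∂μ' = μ' (p ⁻¹' B ∩ C) ∧
        ∫⁻ y in C, κ (p y) B ∂μ' = μ' (p ⁻¹' B ∩ C) := fun C hC hi => by
      constructor
      · have := h'.int (C.indicator 1) (measurable_one.indicator hC) (fun n y => by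
          conv_rhs => rw [← hi n]
          rfl) _ hB'
        rw [lintegral_indicator_one hC, Measure.restrict_apply hC, inter_comm] at this
        rw [← this, ← lintegral_indicator hC]
        refine lintegral_congr fun y => ?_
        by_cases c : y ∈ C <;> simp [c]
      · let m := (μ'.restrict C).map p
        have ac : m ≪ μ := by
          rw [← hp.map_eq]
          exact Measure.absolutelyContinuous_of_le
            (Measure.map_mono Measure.restrict_le_self hp.measurable)
        have mi : ∀ n, m.map (tz T n) = m := fun n => by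
          have e1 : (μ'.restrict C).map (tz T' n) = μ'.restrict C := by
            have := ((hT' n).restrict_preimage hC).map_eq
            rwa [hi n] at this
          rw [Measure.map_map (measurable_tz T n) hp.measurable,
            show tz T n ∘ p = p ∘ tz T' n from funext fun y => (hc n y).symm,
            ← Measure.map_map hp.measurable (measurable_tz T' n), e1]
        have r : ∀ n, (fun x => m.rnDeriv μ (tz T n x)) =ᵐ[μ] m.rnDeriv μ := fun n => by
          have r := (tzE T n).measurableEmbedding.rnDeriv_map m μ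
          have e2 : ((tzE T n : Ω ≃ᵐ Ω) : Ω → Ω) = tz T n := rfl
          rw [e2, mi n, (hT n).map_eq] at r
          exact r
        obtain ⟨g, g1, g2, g3⟩ := KdAux.strict T (Measure.measurable_rnDeriv m μ) r
        have wd : μ.withDensity g = m := by
          rw [withDensity_congr_ae g3, Measure.withDensity_rnDeriv_eq _ _ ac]
        rw [← lintegral_map mk hp.measurable, ← Measure.restrict_apply hB',
          ← Measure.map_apply hp.measurable hB]
        change ∫⁻ x, κ x B ∂m = m B
        rw [← wd, lintegral_withDensity_eq_lintegral_mul _ g1 mk, withDensity_apply _ hB]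
        exact h.int g g1 g2 B hB
    have e1 := e _ (measurableSet_lt mf mg) (fun n => by ext y; simp [h'.inv, hc, h.inv])
    have e2 := e _ (measurableSet_lt mg mf) (fun n => by ext y; simp [h'.inv, hc, h.inv])
    filter_upwards [KdAux.not_lt mf mg (e1.1 ▸ measure_ne_top _ _) (e1.1.trans e1.2.symm),
      KdAux.not_lt mg mf (e2.2 ▸ measure_ne_top _ _) (e2.2.trans e2.1.symm)] with y a b
    exact le_antisymm (not_lt.1 b) (not_lt.1 a)
  have := Measure.isProbabilityMeasure_map (μ := μ' ⊗ₘ κ')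
    (hp.measurable.prodMap hp.measurable).aemeasurable
  refine Measure.ext_prod fun {A B} hA hB => ?_
  rw [Measure.map_apply (hp.measurable.prodMap hp.measurable) (hA.prod hB), preimage_prod_map_prod,
    Measure.compProd_apply_prod (hp.measurable hA) (hp.measurable hB),
    Measure.compProd_apply_prod hA hB, lintegral_congr_ae (ae_restrict_of_ae (key B hB))]
  exact hp.setLIntegral_comp_preimage hA (κ.measurable_coe hB)

end Pool.Agent.MP_154433_an.T4A

end PkKd

section PkW1

set_option autoImplicit false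

open MeasureTheory ProbabilityTheory Filter Topology Set
open scoped ENNReal

namespace Pool.Agent.MP_154433_an.T4A

open T3A

noncomputable section

namespace W1Aux

variable {G Ω V J : Type} [AddCommGroup G] [MeasurableSpace Ω] [AddCommGroup V] (B : Bun G Ω V J)

lemma nul_mono {E E' : ℕ → Set ((ℤ × ℤ) × Ω)} (h : B.Nul E') (hE : ∀ M, E M ⊆ E' M) : B.Nul E :=
  tendsto_of_tendsto_of_tendsto_of_le_of_le tendsto_const_nhds h (fun _ => zero_le)
    fun M => measure_mono (hE M)

lemma nul_empty : B.Nul fun _ => ∅ := by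
  simpa [Bun.Nul] using tendsto_const_nhds

lemma nul_union {E E' : ℕ → Set ((ℤ × ℤ) × Ω)} (h : B.Nul E) (h' : B.Nul E') :
    B.Nul fun M => E M ∪ E' M := by
  have := h.add h'
  rw [add_zero] at this
  exact tendsto_of_tendsto_of_tendsto_of_le_of_le tendsto_const_nhds this (fun _ => zero_le)
    fun M => measure_union_le _ _

lemma cyl_sA (n : G) {E : Set ((Ω × Ω) × Arr V)} (h : Cyl E) : Cyl (B.sA n n ⁻¹' E) := by
  induction h with
  | fst A hA => exact Cyl.fst _ (measurable_tz B.T n hA)
  | snd A hA => exact Cyl.snd _ (measurable_tz B.T n hA)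
  | mem p => exact Cyl.mem (sz B.σ n p.1, sz B.σ n p.2)
  | compl E _ ih => exact ih.compl
  | inter E E' _ _ ih ih' => exact ih.inter _ _ ih'

lemma bad (H : H0 B) (j : J) (n : G) {E : Set ((Ω × Ω) × Arr V)} (h : Cyl E) :
    B.Nul fun M => {z | ¬ (B.pt j M (z.1, tz B.T n z.2) ∈ E ↔ B.sA n n (B.pt j M z) ∈ E)} := by
  induction h with
  | fst A hA => exact nul_mono B (nul_empty B) fun M z hz => hz (by simp [Bun.pt])
  | snd A hA =>
    exact nul_mono B (nul_empty B) fun M z hz => hz (by simp [Bun.pt, tz_comm B.T n])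
  | mem p =>
    exact nul_mono B (H.eqv j n p.1 p.2) fun M z hz h => hz (by simpa [Bun.pt] using h.symm)
  | compl E _ ih => exact nul_mono B ih fun M z hz h => hz (not_congr h)
  | inter E E' _ _ ih ih' =>
    refine nul_mono B (nul_union B ih ih') fun M z hz => ?_
    by_contra hc
    simp only [mem_union, mem_setOf_eq, not_or, not_not] at hc
    exact hz (and_congr hc.1 hc.2)

lemma P_inv (n : G) (M : ℕ) :
    MeasurePreserving (fun z : (ℤ × ℤ) × Ω => (z.1, tz B.T n z.2)) (B.P M) (B.P M) :=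
  (MeasurePreserving.id _).prod (B.mp n)

lemma le_of {a b e : ℕ → ℝ≥0∞} {x y : ℝ≥0∞} (ha : Tendsto a B.U (𝓝 x)) (hb : Tendsto b B.U (𝓝 y))
    (he : Tendsto e B.U (𝓝 0)) (h : ∀ M, a M ≤ b M + e M) : x ≤ y := by
  have := hb.add he
  rw [add_zero] at this
  exact le_of_tendsto_of_tendsto' ha this h

end W1Aux

open W1Aux

theorem xW1 : W1S := by
  intro hE G Ω V J _ _ _ _ B j w hw H
  have := hw.1
  constructor
  · intro n
    have : IsProbabilityMeasure (w.map (B.sA n n)) :=
      Measure.isProbabilityMeasure_map (B.measurable_sA n n).aemeasurable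
    refine hE Ω (V × V) _ _ fun E h => ?_
    rw [Measure.map_apply (B.measurable_sA n n) h.meas]
    have h1 := hw.2 _ (cyl_sA B n h)
    have h2 := hw.2 _ h
    have h3 := bad B H j n h
    have e : ∀ M, B.P M (B.pt j M ⁻¹' E) = B.P M {z | B.pt j M (z.1, tz B.T n z.2) ∈ E} := fun M =>
      ((P_inv B n M).measure_preimage (B.measurable_pt j M h.meas).nullMeasurableSet).symm
    simp only [e] at h2
    refine le_antisymm (le_of B h1 h2 h3 fun M => ?_) (le_of B h2 h1 h3 fun M => ?_) <;>
      refine (measure_mono fun z hz => ?_).trans (measure_union_le _ _) <;> by_contra hc <;>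
      simp only [mem_union, mem_setOf_eq, mem_preimage, not_or, not_not] at hc hz
    · exact hc.1 (hc.2.2 hz)
    · exact hc.1 (hc.2.1 hz)
  · ext A hA
    rw [Measure.map_apply measurable_fst.fst hA]
    have h1 := hw.2 _ (Cyl.fst A hA)
    have e : ∀ M, B.P M (B.pt j M ⁻¹' {z | z.1.1 ∈ A}) = B.μ A := fun M => by
      have : B.pt j M ⁻¹' {z | z.1.1 ∈ A} = univ ×ˢ A := by ext z; simp [Bun.pt]
      rw [this, Bun.P, PM, Measure.prod_prod, measure_univ, one_mul]
    simp only [e] at h1
    exact tendsto_nhds_unique h1 tendsto_const_nhds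

end

end Pool.Agent.MP_154433_an.T4A

end PkW1

section PkW2

set_option autoImplicit false

open MeasureTheory ProbabilityTheory Filter Topology Set
open scoped ENNReal

namespace Pool.Agent.MP_154433_an.T4A

open T3A

namespace W2Aux

variable {G Ω V J : Type} [AddCommGroup G] [MeasurableSpace Ω] [AddCommGroup V]

omit [AddCommGroup V] in
theorem cyl_forall {ι α : Type} (F : Finset α) (f : α → ι) :
    Cyl {z : (Ω × Ω) × Set ι | ∀ a ∈ F, f a ∉ z.2} := by
  classical
  induction F using Finset.induction_on with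
  | empty => simpa using Cyl.univ
  | insert a F _ ih => simpa using (Cyl.mem (Ω := Ω) (f a)).not.and ih

theorem nul {B : Bun G Ω V J} {j : J} {w : Measure ((Ω × Ω) × Arr V)} (hw : IsLim B j w)
    {P : (Ω × Ω) × Arr V → Prop} (hE : Cyl {z | P z})
    (h : B.Nul fun M => B.pt j M ⁻¹' {z | P z}) : ∀ᵐ z ∂w, ¬ P z :=
  measure_eq_zero_iff_ae_notMem.1 (tendsto_nhds_unique (hw.2 _ hE) h)

theorem tot {B : Bun G Ω V J} {j : J} {w : Measure ((Ω × Ω) × Arr V)} (hw : IsLim B j w)
    (f : V → V × V)
    (h : ∀ ε : ℝ≥0∞, 0 < ε → ∃ F : Finset V, ∀ᶠ M in (B.U : Filter ℕ),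
      B.P M (B.pt j M ⁻¹' {a | ((0 : V), (0 : V)) ∈ a.2 ∧ ∀ c ∈ F, f c ∉ a.2}) ≤ ε) :
    ∀ᵐ z ∂w, ((0 : V), (0 : V)) ∈ z.2 → ∃ c, f c ∈ z.2 := by
  rw [ae_iff]
  refine le_antisymm (le_of_forall_gt_imp_ge_of_dense fun ε hε => ?_) zero_le
  obtain ⟨F, hF⟩ := h ε hε
  refine le_trans (measure_mono fun z hz => ?_)
    (le_of_tendsto (hw.2 _ ((Cyl.mem _).and (cyl_forall F f))) hF)
  by_contra hn
  refine hz fun h0 => ?_
  by_contra h1
  exact hn ⟨h0, fun c _ hc => h1 ⟨c, hc⟩⟩

end W2Aux

theorem xW2 : W2S := by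
  intro G Ω V J _ _ _ _ B j w hw h
  have h1 := ae_all_iff.2 fun c => ae_all_iff.2 fun c' => W2Aux.nul hw
    ((Cyl.fst _ (B.mN c)).and ((Cyl.snd _ (B.mN c')).and ((Cyl.mem _).and (Cyl.mem _).not)))
    (h.zero j c c')
  have h2 := ae_all_iff.2 fun c => ae_all_iff.2 fun c' => ae_all_iff.2 fun e =>
    ae_all_iff.2 fun e' => W2Aux.nul hw ((Cyl.mem _).and ((Cyl.mem _).and (Cyl.mem _).not))
      (h.sub j c c' e e')
  have h3 := ae_all_iff.2 fun c => ae_all_iff.2 fun c' => W2Aux.nul hw
    ((Cyl.mem _).and ((Cyl.fst _ (B.mN c)).iff (Cyl.snd _ (B.mN c'))).not) (h.iff j c c')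
  have h4 := ae_all_iff.2 fun c => W2Aux.tot hw (fun c' => (c, c')) (h.totL j c)
  have h5 := ae_all_iff.2 fun c' => W2Aux.tot hw (fun c => (c, c')) (h.totR j c')
  unfold IsoW
  filter_upwards [h1, h2, h3, h4, h5] with z a1 a2 a3 a4 a5 h0
  refine ⟨fun c hc c' hc' => ?_, fun a a' b b' p q => ?_, fun c => a4 c h0, fun c => a5 c h0,
    fun c c' p => ?_⟩
  · by_contra hn
    exact a1 c c' ⟨hc, hc', h0, hn⟩
  · by_contra hn
    exact a2 a a' b b' ⟨p, q, hn⟩
  · by_contra hn
    exact a3 c c' ⟨p, hn⟩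

end Pool.Agent.MP_154433_an.T4A

end PkW2

section PkPhb

/-! The conditional kernel of an invariant measure is equivariant. -/

set_option autoImplicit false

open MeasureTheory ProbabilityTheory Filter Topology Set
open scoped ENNReal

namespace Pool.Agent.MP_154433_an.T4A

open T3A

noncomputable section

theorem xPhb : PhbS := by
  intro X Z _ _ _ _ L _
  have hd : L.fst ⊗ₘ L.condKernel = L := L.disintegrate _
  refine ⟨L.condKernel, inferInstance, hd.symm, fun R Q hL => ?_⟩
  have hm : Measurable (Prod.map R Q) := R.measurable.prodMap Q.measurable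
  have hm' : Measurable (Prod.map R.symm Q.symm) := R.symm.measurable.prodMap Q.symm.measurable
  have hfst : L.fst.map R = L.fst := by
    conv_rhs => rw [← hL]
    rw [Measure.fst, Measure.fst, Measure.map_map R.measurable measurable_fst,
      Measure.map_map measurable_fst hm]
    rfl
  have hmk : IsMarkovKernel ((L.condKernel.comap R R.measurable).map Q.symm) :=
    Kernel.IsMarkovKernel.map _ Q.symm.measurable
  have h1 : L = L.fst ⊗ₘ ((L.condKernel.comap R R.measurable).map Q.symm) := by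
    ext s hs
    have hs' : MeasurableSet (Prod.map R.symm Q.symm ⁻¹' s) := hm' hs
    have e1 : L s = L (Prod.map R.symm Q.symm ⁻¹' s) := by
      conv_rhs => rw [← hL]
      rw [Measure.map_apply hm hs']
      congr 1
      ext ⟨a, b⟩
      simp
    rw [e1, Measure.compProd_apply hs]
    conv_lhs => rw [← hd, Measure.compProd_apply hs', ← hfst]
    rw [lintegral_map (Kernel.measurable_kernel_prodMk_left hs') R.measurable]
    refine lintegral_congr fun x => ?_
    rw [Kernel.map_apply' _ Q.symm.measurable _ (measurable_prodMk_left hs), Kernel.comap_apply]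
    congr 1
    ext z
    simp
  filter_upwards [eq_condKernel_of_measure_eq_compProd _ h1] with x hx
  rw [← hx, Kernel.map_apply _ Q.symm.measurable, Kernel.comap_apply,
    Measure.map_map Q.measurable Q.symm.measurable]
  simp

end

end Pool.Agent.MP_154433_an.T4A

end PkPhb

section PkKw

set_option autoImplicit false
set_option linter.unusedVariables false

open MeasureTheory ProbabilityTheory Filter Topology Set
open scoped ENNReal

namespace Pool.Agent.MP_154433_an.T4A

open T3A

noncomputable section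

theorem xKw : KwS := by
  intro hP G Ω V J _ _ _ _ _ B j w hw hmix hinv hsrc hiso
  have := hw.1
  have : Nonempty Ω := by
    by_contra h
    rw [not_nonempty_iff] at h
    have h1 : B.μ univ = 1 := measure_univ
    rw [Set.univ_eq_empty_iff.2 h, measure_empty] at h1
    exact zero_ne_one h1
  have hφ : Measurable fun z : (Ω × Ω) × Arr V => (z.1.1, (z.1.2, z.2)) := by fun_prop
  have : IsProbabilityMeasure (w.map fun z : (Ω × Ω) × Arr V => (z.1.1, (z.1.2, z.2))) :=
    Measure.isProbabilityMeasure_map hφ.aemeasurable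
  obtain ⟨K, hK, hL, hE⟩ := hP Ω (Ω × Arr V)
    (w.map fun z : (Ω × Ω) × Arr V => (z.1.1, (z.1.2, z.2)))
  have hfst : (w.map fun z : (Ω × Ω) × Arr V => (z.1.1, (z.1.2, z.2))).map Prod.fst = B.μ := by
    rw [Measure.map_map measurable_fst hφ]
    exact hsrc
  rw [hfst] at hL hE
  have hwof : wOf B.μ K = w := by
    rw [wOf, ← hL, Measure.map_map measurable_wOf hφ]
    exact Measure.map_id
  have key : ∀ C, MeasurableSet C → ∃ g : Ω → ℝ≥0∞,
      (∀ᵐ y ∂B.μ, g (tz B.T (B.a j) y) = g y) ∧ (∀ᵐ y ∂B.μ, g (tz B.T (B.b j) y) = g y) ∧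
      (∀ D, MeasurableSet D → tz B.T (B.a j) ⁻¹' D =ᵐ[B.μ] D → tz B.T (B.b j) ⁻¹' D =ᵐ[B.μ] D →
        ∫⁻ y in D, g y ∂B.μ = B.μ (C ∩ D)) ∧
      (fun y => K y (Prod.fst ⁻¹' C)) =ᵐ[B.μ] g := by
    intro C hC
    obtain ⟨g, hg, ha, hb, hD, hlim⟩ := hmix Ω B.μ B.T B.mp (B.a j) (B.b j) C hC
    refine ⟨g, ha, hb, hD, ?_⟩
    refine ae_eq_of_forall_setLIntegral_eq_of_sigmaFinite
      (K.measurable_coe (measurable_fst hC)) hg fun A hA _ => ?_
    have hc : Cyl ({z | z.1.1 ∈ A} ∩ {z | z.1.2 ∈ C} : Set ((Ω × Ω) × Arr V)) :=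
      Cyl.inter _ _ (Cyl.fst A hA) (Cyl.snd C hC)
    have ht := hw.2 _ hc
    have e1 : ∀ M, B.P M (B.pt j M ⁻¹' ({z | z.1.1 ∈ A} ∩ {z | z.1.2 ∈ C})) =
        ∫⁻ d : ℤ × ℤ, B.μ (A ∩ tz B.T (d.1 • B.a j + d.2 • B.b j) ⁻¹' C)
          ∂((B.ν M).prod (B.ν M)) := by
      intro M
      rw [Bun.P, PM_apply _ _ (B.measurable_pt j M hc.meas)]
      rfl
    simp only [e1] at ht
    rw [← tendsto_nhds_unique ht (hlim A hA),
      ← Measure.compProd_apply_prod hA (measurable_fst hC), ← hL,
      Measure.map_apply hφ (hA.prod (measurable_fst hC))]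
    rfl
  refine ⟨K, hwof, hK, fun n => ?_, fun h hh C hC => ?_, fun C D hC hD hH => ?_, hwof ▸ hiso⟩
  · have h1 := hE (tzE B.T n) (MeasurableEquiv.prodCongr (tzE B.T n) (shE B.σ n n)) (by
      rw [Measure.map_map (((tzE B.T n).measurable).prodMap
        (MeasurableEquiv.prodCongr (tzE B.T n) (shE B.σ n n)).measurable) hφ]
      conv_rhs => rw [← hinv n]
      rw [Measure.map_map hφ (B.measurable_sA n n)]
      rfl)
    exact h1
  · obtain ⟨g, ha, hb, -, hg⟩ := key C hC
    have h1 : ∀ᵐ y ∂B.μ, g (tz B.T h y) = g y := by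
      rcases hh with rfl | rfl
      · exact ha
      · exact hb
    have h2 := (B.mp h).quasiMeasurePreserving.ae hg
    filter_upwards [h1, h2, hg] with y e1 e2 e3
    rw [e2, e1, e3]
  · obtain ⟨g, -, -, hI, hg⟩ := key C hC
    rw [lintegral_congr_ae (ae_restrict_of_ae hg)]
    exact hI D hD (hH _ (Or.inl rfl)) (hH _ (Or.inr rfl))

end

end Pool.Agent.MP_154433_an.T4A

end PkKw

section PkWk

/-! Row Wk: the law of an equivariant arrow kernel. -/

set_option autoImplicit false
set_option linter.unusedVariables false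

open MeasureTheory ProbabilityTheory Filter Topology Set
open scoped ENNReal

namespace Pool.Agent.MP_154433_an.T4A

open T3A

namespace WkAux

variable {Ω V : Type} [MeasurableSpace Ω] [AddCommGroup V]

theorem app (μ : Measure Ω) [IsProbabilityMeasure μ] (K : Kernel Ω (Ω × Arr V)) [IsMarkovKernel K]
    {E : Set ((Ω × Ω) × Arr V)} (hE : MeasurableSet E) :
    wOf μ K E = ∫⁻ y, K y {x | ((y, x.1), x.2) ∈ E} ∂μ := by
  rw [wOf, Measure.map_apply measurable_wOf hE, Measure.compProd_apply (measurable_wOf hE)]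
  rfl

theorem rect (μ : Measure Ω) [IsProbabilityMeasure μ] (K : Kernel Ω (Ω × Arr V)) [IsMarkovKernel K]
    {C D : Set Ω} (hC : MeasurableSet C) (hD : MeasurableSet D) :
    wOf μ K {z | z.1.1 ∈ D ∧ z.1.2 ∈ C} = ∫⁻ y in D, K y (Prod.fst ⁻¹' C) ∂μ := by
  have hE : MeasurableSet {z : (Ω × Ω) × Arr V | z.1.1 ∈ D ∧ z.1.2 ∈ C} :=
    (measurable_fst.fst hD).inter (measurable_fst.snd hC)
  rw [app μ K hE, ← lintegral_indicator hD]
  refine lintegral_congr fun y => ?_
  by_cases h : y ∈ D
  · rw [indicator_of_mem h]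
    exact congrArg _ (Set.ext fun x => and_iff_right h)
  · rw [indicator_of_notMem h, show {x : Ω × Arr V | ((y, x.1), x.2) ∈
      {z : (Ω × Ω) × Arr V | z.1.1 ∈ D ∧ z.1.2 ∈ C}} = ∅ from
        Set.eq_empty_of_forall_notMem fun x hx => h hx.1, measure_empty]

end WkAux

open WkAux in
theorem xWk : WkS := by
  intro G Ω V _ _ _ _ A H K h
  have := h.markov
  refine ⟨inferInstance, ?_, ?_, fun n => ⟨A.measurable_sA n n, ?_⟩, fun D hD hi => ?_⟩
  · ext D hD
    rw [Measure.map_apply measurable_fst.fst hD]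
    have e := rect A.μ K MeasurableSet.univ hD
    simp only [mem_univ, and_true, preimage_univ, measure_univ, lintegral_const, one_mul,
      Measure.restrict_apply_univ] at e
    exact e
  · ext C hC
    rw [Measure.map_apply measurable_fst.snd hC]
    have e := rect A.μ K hC MeasurableSet.univ
    rw [h.int C univ hC MeasurableSet.univ fun _ _ => by rw [preimage_univ], inter_univ] at e
    simp only [mem_univ, true_and] at e
    exact e
  · ext E hE
    have hm : Measurable fun y => K y {x | ((y, x.1), x.2) ∈ E} :=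
      Kernel.measurable_kernel_prodMk_left (measurable_wOf hE)
    rw [Measure.map_apply (A.measurable_sA n n) hE, app A.μ K (A.measurable_sA n n hE),
      app A.μ K hE, ← (A.mp n).lintegral_comp hm]
    refine lintegral_congr_ae ?_
    filter_upwards [h.eqv n] with y hy
    have hs : MeasurableSet {x : Ω × Arr V | ((tz A.T n y, x.1), x.2) ∈ E} :=
      measurable_prodMk_left (measurable_wOf hE)
    rw [hy, Measure.map_apply ((measurable_tz A.T n).prodMap (measurable_sh A.σ n n)) hs]
    rfl
  · have e := rect A.μ K hD.compl hD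
    rw [h.int Dᶜ D hD.compl hD fun n _ => hi n, compl_inter_self, measure_empty] at e
    rw [ae_iff, ← e]
    exact congrArg _ (Set.ext fun z => Classical.not_imp)

end Pool.Agent.MP_154433_an.T4A

end PkWk

section PkWa

/-! Row Wa: when the steps generate the group, the target has the conditional law given the
invariant sets. -/

set_option autoImplicit false
set_option linter.unusedVariables false

open MeasureTheory ProbabilityTheory Filter Topology Set
open scoped ENNReal

namespace Pool.Agent.MP_154433_an.T4A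

open T3A

noncomputable section

namespace WaAux

lemma ae_ge {Ω : Type} [MeasurableSpace Ω] (μ : Measure Ω) {a b : Ω → ℝ≥0∞} (ha : Measurable a)
    (hb : Measurable b) (hf : ∫⁻ y in {y | a y < b y}, a y ∂μ ≠ ⊤)
    (h : ∫⁻ y in {y | a y < b y}, b y ∂μ ≤ ∫⁻ y in {y | a y < b y}, a y ∂μ) :
    ∀ᵐ y ∂μ, b y ≤ a y := by
  have hD : MeasurableSet {y | a y < b y} := measurableSet_lt ha hb
  have h1 : a =ᵐ[μ.restrict {y | a y < b y}] b :=
    ae_eq_of_ae_le_of_lintegral_le ((ae_restrict_mem hD).mono fun y hy => le_of_lt hy) hf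
      hb.aemeasurable h
  filter_upwards [(ae_restrict_iff' hD).1 h1] with y hy
  exact not_lt.1 fun hlt => hlt.ne (hy hlt)

variable {G Ω : Type} [AddCommGroup G] [MeasurableSpace Ω]

/-- almost invariance passes from generators to the group -/
lemma inv_all {μ : Measure Ω} {T : Act G Ω} (hT : MP T μ) {H : Set G}
    (hH : AddSubgroup.closure H = ⊤) {f : Ω → ℝ≥0∞} (hf : ∀ h ∈ H, ∀ᵐ y ∂μ, f (tz T h y) = f y)
    (n : G) : ∀ᵐ y ∂μ, f (tz T n y) = f y := by
  have hn : n ∈ AddSubgroup.closure H := by rw [hH]; trivial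
  induction hn using AddSubgroup.closure_induction with
  | mem x hx => exact hf x hx
  | zero => exact ae_of_all _ fun y => by rw [tz_zero]
  | add x x' _ _ h1 h2 =>
    filter_upwards [(hT x').quasiMeasurePreserving.ae h1, h2] with y e1 e2
    rw [tz_add, e1, e2]
  | neg x _ h1 =>
    filter_upwards [(hT (-x)).quasiMeasurePreserving.ae h1] with y e1
    rw [← e1, tz_tz_neg]

/-- an almost invariant function with the right integrals is the conditional probability -/
lemma uniq [Countable G] {μ : Measure Ω} [IsProbabilityMeasure μ] {T : Act G Ω}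
    {κ : Kernel Ω Ω} (hκ : ErgK μ T κ) {C : Set Ω} (hC : MeasurableSet C) {f : Ω → ℝ≥0∞}
    (hm : Measurable f) (hf : ∀ n, ∀ᵐ y ∂μ, f (tz T n y) = f y)
    (hi : ∀ D, MeasurableSet D → (∀ n y, tz T n y ∈ D ↔ y ∈ D) →
      ∫⁻ y in D, f y ∂μ = μ (C ∩ D)) : ∀ᵐ y ∂μ, f y = κ y C := by
  set f1 : Ω → ℝ≥0∞ := fun y => ⨅ n, f (tz T n y) with hf1
  have m1 : Measurable f1 := Measurable.iInf fun n => hm.comp (measurable_tz T n)
  have i1 : ∀ n y, f1 (tz T n y) = f1 y := fun n y => by
    simp only [hf1, ← tz_add]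
    exact (Equiv.addRight n).surjective.iInf_comp fun k => f (tz T k y)
  have e1 : f1 =ᵐ[μ] f := by
    filter_upwards [ae_all_iff.2 hf] with y hy
    simp only [hf1, hy, iInf_const]
  have m2 : Measurable fun y => κ y C := κ.measurable_coe hC
  have a1 : ∀ D, MeasurableSet D → (∀ n y, tz T n y ∈ D ↔ y ∈ D) →
      ∫⁻ y in D, f1 y ∂μ = μ (C ∩ D) := fun D hD h => by
    rw [← hi D hD h]
    exact lintegral_congr_ae (ae_restrict_of_ae e1)
  have a2 : ∀ D, MeasurableSet D → (∀ n y, tz T n y ∈ D ↔ y ∈ D) →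
      ∫⁻ y in D, κ y C ∂μ = μ (C ∩ D) := fun D hD h => by
    have e := hκ.int (D.indicator 1) (measurable_one.indicator hD) (fun n y => by
      by_cases hy : y ∈ D
      · rw [indicator_of_mem hy, indicator_of_mem ((h n y).2 hy)]
        rfl
      · rw [indicator_of_notMem hy, indicator_of_notMem fun h' => hy ((h n y).1 h')]) C hC
    rw [lintegral_indicator_one hD, Measure.restrict_apply hD, inter_comm] at e
    rw [← e, ← lintegral_indicator hD]
    refine lintegral_congr fun y => ?_
    by_cases hy : y ∈ D <;> simp [hy]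
  have d1 : ∀ n y, tz T n y ∈ {y | f1 y < κ y C} ↔ y ∈ {y | f1 y < κ y C} := fun n y => by
    simp only [mem_ofPred_eq, i1, hκ.inv]
  have d2 : ∀ n y, tz T n y ∈ {y | κ y C < f1 y} ↔ y ∈ {y | κ y C < f1 y} := fun n y => by
    simp only [mem_ofPred_eq, i1, hκ.inv]
  have s1 := measurableSet_lt m1 m2
  have s2 := measurableSet_lt m2 m1
  filter_upwards [e1,
    ae_ge μ m1 m2 (by rw [a1 _ s1 d1]; exact measure_ne_top _ _) (by rw [a1 _ s1 d1, a2 _ s1 d1]),
    ae_ge μ m2 m1 (by rw [a2 _ s2 d2]; exact measure_ne_top _ _) (by rw [a1 _ s2 d2, a2 _ s2 d2])]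
    with y h1 h2 h3
  rw [← h1]
  exact le_antisymm h3 h2

end WaAux

open WaAux in
theorem xWa : WaS := by
  intro G Ω V _ _ _ _ _ A H K κ hK hH hκ
  have := hK.markov
  have := hκ.markov
  have hm : Measurable fun x : Ω × (Ω × Arr V) => (x.1, x.2.1) := by fun_prop
  have e : (wOf A.μ K).map Prod.fst = (A.μ ⊗ₘ K).map fun x => (x.1, x.2.1) := by
    rw [wOf, Measure.map_map measurable_fst measurable_wOf]
    rfl
  rw [e]
  refine Measure.ext_prod fun {s t} hs ht => ?_
  have ht' : MeasurableSet (Prod.fst ⁻¹' t : Set (Ω × Arr V)) := measurable_fst ht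
  have e2 : (fun x : Ω × (Ω × Arr V) => (x.1, x.2.1)) ⁻¹' (s ×ˢ t) = s ×ˢ (Prod.fst ⁻¹' t) := rfl
  rw [Measure.map_apply hm (hs.prod ht), e2, Measure.compProd_apply_prod hs ht',
    Measure.compProd_apply_prod hs ht]
  refine lintegral_congr_ae (ae_restrict_of_ae ?_)
  exact uniq hκ ht (K.measurable_coe ht')
    (inv_all (f := fun y => K y (Prod.fst ⁻¹' t)) A.mp hH fun h hh => hK.inv h hh t ht)
    fun D hD h => hK.int t D ht hD fun n _ => (Set.ext (h n)).eventuallyEq

end

end Pool.Agent.MP_154433_an.T4A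

end PkWa

section PkCe

/-! Row Ce: the composition of two equivariant arrow kernels is equivariant. -/

set_option autoImplicit false
set_option linter.unusedVariables false

open MeasureTheory ProbabilityTheory Filter Topology Set
open scoped ENNReal

namespace Pool.Agent.MP_154433_an.T4A

open T3A

noncomputable section

namespace CeAux

variable {G Ω V : Type} [AddCommGroup G] [MeasurableSpace Ω] [AddCommGroup V] [Countable V]

omit [Countable V] in
theorem ae_fst {A : Base G Ω V} {H : Set G} {K : Kernel Ω (Ω × Arr V)} (h : KD A H K)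
    {Q : Ω → Prop} (hQ : ∀ᵐ y ∂A.μ, Q y) : ∀ᵐ y ∂A.μ, ∀ᵐ x ∂K y, Q x.1 := by
  have hC : MeasurableSet (toMeasurable A.μ {y | ¬ Q y}) := measurableSet_toMeasurable _ _
  have h0 : A.μ (toMeasurable A.μ {y | ¬ Q y}) = 0 := by
    rw [measure_toMeasurable]; exact hQ
  have h1 := h.int _ univ hC MeasurableSet.univ (fun _ _ => by simp)
  rw [inter_univ, h0, Measure.restrict_univ,
    lintegral_eq_zero_iff (K.measurable_coe (measurable_fst hC))] at h1
  filter_upwards [h1] with y hy
  exact measure_mono_null (fun x hx => subset_toMeasurable A.μ {y | ¬ Q y} hx) hy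

omit [AddCommGroup G] in
theorem meas_cmp : Measurable fun x : (Ω × Arr V) × (Ω × Arr V) => (x.2.1, cmpR x.1.2 x.2.2) :=
  measurable_snd.fst.prodMk (measurable_cmpR measurable_fst.snd measurable_snd.snd)

omit [AddCommGroup G] in
theorem star_apply (K1 K2 : Kernel Ω (Ω × Arr V)) [IsMarkovKernel K1] [IsMarkovKernel K2] (y : Ω)
    {E : Set (Ω × Arr V)} (hE : MeasurableSet E) :
    star K1 K2 y E = ∫⁻ x, K2 x.1 {z | (z.1, cmpR x.2 z.2) ∈ E} ∂K1 y := by
  unfold star
  rw [Kernel.map_apply' _ meas_cmp _ hE, Kernel.compProd_apply (meas_cmp hE)]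
  rfl

omit [AddCommGroup G] in
theorem meas_sec (K2 : Kernel Ω (Ω × Arr V)) [IsMarkovKernel K2] {E : Set (Ω × Arr V)}
    (hE : MeasurableSet E) :
    Measurable fun x : Ω × Arr V => K2 x.1 {z | (z.1, cmpR x.2 z.2) ∈ E} :=
  Kernel.measurable_kernel_prodMk_left (κ := K2.comap Prod.fst measurable_fst) (meas_cmp hE)

end CeAux

open CeAux in
theorem xCe : CeS := by
  intro G Ω V _ _ _ _ A H1 H2 K1 K2 h1 h2 n
  have := h1.markov
  have := h2.markov
  have hm : Measurable (Prod.map (tz A.T n) (sh A.σ n n)) :=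
    (measurable_tz A.T n).prodMap (measurable_sh A.σ n n)
  filter_upwards [h1.eqv n, ae_fst h1 (h2.eqv n)] with y a1 a2
  ext E hE
  rw [Measure.map_apply hm hE, star_apply _ _ _ hE, star_apply _ _ _ (hm hE), a1,
    lintegral_map (meas_sec K2 hE) hm]
  refine lintegral_congr_ae ?_
  filter_upwards [a2] with x hx
  have hs : MeasurableSet {z : Ω × Arr V | (z.1, cmpR (sh A.σ n n x.2) z.2) ∈ E} :=
    (measurable_fst.prodMk (measurable_cmpR measurable_const measurable_snd)) hE
  show K2 (tz A.T n x.1) {z | (z.1, cmpR (sh A.σ n n x.2) z.2) ∈ E} = _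
  rw [hx, Measure.map_apply hm hs]
  congr 1
  ext z
  simp only [mem_preimage, mem_ofPred_eq, Prod.map_fst, Prod.map_snd, cmpR_sh, Prod.map_apply]

end

end Pool.Agent.MP_154433_an.T4A

end PkCe

section PkCi

/-! The target law of a composition of arrow kernels. -/

set_option autoImplicit false
set_option linter.unusedVariables false
set_option linter.unusedSectionVars false

open MeasureTheory ProbabilityTheory Filter Topology Set
open scoped ENNReal

namespace Pool.Agent.MP_154433_an.T4A

open T3A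

namespace CiAux

variable {Ω Z : Type} [MeasurableSpace Ω] [MeasurableSpace Z]

lemma inv_ext (μ : Measure Ω) (K : Kernel Ω (Ω × Z)) (T : Ω → Ω)
    (h : ∀ C, MeasurableSet C → ∀ᵐ y ∂μ, K (T y) (Prod.fst ⁻¹' C) = K y (Prod.fst ⁻¹' C))
    (f : Ω → ℝ≥0∞) (hf : Measurable f) :
    ∀ᵐ y ∂μ, ∫⁻ x, f x.1 ∂(K (T y)) = ∫⁻ x, f x.1 ∂(K y) := by
  refine Measurable.ennreal_induction
    (motive := fun f => ∀ᵐ y ∂μ, ∫⁻ x, f x.1 ∂(K (T y)) = ∫⁻ x, f x.1 ∂(K y)) ?_ ?_ ?_ hf
  · intro c s hs
    filter_upwards [h s hs] with y hy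
    have e : (fun x : Ω × Z => s.indicator (fun _ => c) x.1) =
        (Prod.fst ⁻¹' s).indicator fun _ => c := by
      funext x; rfl
    rw [e, lintegral_indicator_const (measurable_fst hs),
      lintegral_indicator_const (measurable_fst hs), hy]
  · intro f g _ hf hg h1 h2
    filter_upwards [h1, h2] with y hy1 hy2
    simp only [Pi.add_apply]
    rw [lintegral_add_left (f := fun x : Ω × Z => f x.1) (hf.comp measurable_fst),
      lintegral_add_left (f := fun x : Ω × Z => f x.1) (hf.comp measurable_fst), hy1, hy2]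
  · intro f hf hm h1
    filter_upwards [ae_all_iff.2 h1] with y hy
    rw [lintegral_iSup (f := fun n (x : Ω × Z) => f n x.1) (fun n => (hf n).comp measurable_fst)
        (fun i j hij x => hm hij x.1),
      lintegral_iSup (f := fun n (x : Ω × Z) => f n x.1) (fun n => (hf n).comp measurable_fst)
        (fun i j hij x => hm hij x.1)]
    exact iSup_congr hy

lemma int_ext (μ : Measure Ω) (K : Kernel Ω (Ω × Z)) (D : Set Ω) (hD : MeasurableSet D)
    (h : ∀ C, MeasurableSet C → ∫⁻ y in D, K y (Prod.fst ⁻¹' C) ∂μ = μ (C ∩ D))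
    (f : Ω → ℝ≥0∞) (hf : Measurable f) :
    ∫⁻ y in D, ∫⁻ x, f x.1 ∂(K y) ∂μ = ∫⁻ y in D, f y ∂μ := by
  have e : (μ.restrict D).bind (Kernel.fst K) = μ.restrict D := by
    ext C hC
    rw [Measure.bind_apply hC (Kernel.fst K).measurable.aemeasurable, Measure.restrict_apply hC,
      ← h C hC]
    refine lintegral_congr fun y => ?_
    rw [Kernel.fst_apply' _ _ hC]
    rfl
  conv_rhs => rw [← e]
  rw [Measure.lintegral_bind (Kernel.fst K).measurable.aemeasurable hf.aemeasurable]
  refine lintegral_congr fun y => ?_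
  rw [Kernel.lintegral_fst _ _ hf]

lemma star_apply {V : Type} [AddCommGroup V] [Countable V] (K1 K2 : Kernel Ω (Ω × Arr V))
    [IsMarkovKernel K1] [IsMarkovKernel K2] (y : Ω) (C : Set Ω) (hC : MeasurableSet C) :
    star K1 K2 y (Prod.fst ⁻¹' C) = ∫⁻ x, K2 x.1 (Prod.fst ⁻¹' C) ∂(K1 y) := by
  unfold star
  rw [Kernel.map_apply' _ measurable_star _ (measurable_fst hC),
    Kernel.compProd_apply (measurable_star (measurable_fst hC))]
  rfl

end CiAux

open CiAux

theorem xCi : CiS := by
  intro G Ω V _ _ _ _ A H1 H2 K1 K2 h1 h2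
  have := h1.markov
  have := h2.markov
  constructor
  · intro h hh C hC
    have hf : Measurable fun y : Ω => K2 y (Prod.fst ⁻¹' C) :=
      K2.measurable_coe (measurable_fst hC)
    simp only [star_apply K1 K2 _ C hC]
    rcases hh with hh | hh
    · exact inv_ext A.μ K1 (tz A.T h) (h1.inv h hh) _ hf
    · have hT := measurable_tz A.T h
      have hN : MeasurableSet
          {y : Ω | K2 (tz A.T h y) (Prod.fst ⁻¹' C) = K2 y (Prod.fst ⁻¹' C)}ᶜ :=
        (measurableSet_eq_fun (hf.comp hT) hf).compl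
      have h0 : A.μ {y : Ω | K2 (tz A.T h y) (Prod.fst ⁻¹' C) = K2 y (Prod.fst ⁻¹' C)}ᶜ = 0 :=
        h2.inv h hh C hC
      have h3 := h1.int _ univ hN MeasurableSet.univ (fun g _ => by simp)
      rw [inter_univ, h0, Measure.restrict_univ,
        lintegral_eq_zero_iff (K1.measurable_coe (measurable_fst hN))] at h3
      filter_upwards [h3, h1.eqv h] with y hy he
      rw [he, lintegral_map (f := fun x : Ω × Arr V => K2 x.1 (Prod.fst ⁻¹' C))
        (hf.comp measurable_fst) (hT.prodMap (measurable_sh A.σ h h))]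
      exact lintegral_congr_ae hy
  · intro C D hC hD hinv
    have hf : Measurable fun y : Ω => K2 y (Prod.fst ⁻¹' C) :=
      K2.measurable_coe (measurable_fst hC)
    simp only [star_apply K1 K2 _ C hC]
    rw [int_ext A.μ K1 D hD (fun C' hC' => h1.int C' D hC' hD fun h hh => hinv h (Or.inl hh)) _ hf]
    exact h2.int C D hC hD fun h hh => hinv h (Or.inr hh)

end Pool.Agent.MP_154433_an.T4A

end PkCi
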