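import Pool.Agent.MP_154433_an.t4a.Spec

/-! The algebraic step for group actions, part B2. -/

section PkTri

/-! Row Tri: the joint law of two consecutive arrows and their composite. -/

set_option autoImplicit false
set_option linter.unusedVariables false

open MeasureTheory ProbabilityTheory Filter Topology Set
open scoped ENNReal

namespace Pool.Agent.MP_154433_an.T4A

open T3A

noncomputable section

theorem xTri : TriS := by
  intro Ω V _ _ _ μ _ K1 K2 _ _ hμ
  have mr : Measurable fun x : Ω × (Ω × Arr V) => ((x.1, x.2.1), x.2.2) := by fun_prop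
  have mt : Measurable fun z : (Ω × Ω) × Arr V => z.1.2 := measurable_fst.snd
  have : IsProbabilityMeasure (wOf μ K1) := Measure.isProbabilityMeasure_map mr.aemeasurable
  have key : ∀ (K : Kernel Ω (Ω × Arr V)) [IsMarkovKernel K] (φ : (Ω × Ω) × Arr V → ℝ≥0∞),
      Measurable φ → ∫⁻ z, φ z ∂wOf μ K = ∫⁻ y, ∫⁻ x, φ ((y, x.1), x.2) ∂K y ∂μ := by
    intro K _ φ hφ
    rw [wOf, lintegral_map hφ mr, Measure.lintegral_compProd (hφ.fun_comp mr)]
  have m2 : Measurable fun x : ((Ω × Ω) × Arr V) × (Ω × Arr V) => ((x.1.1.2, x.2.1), x.2.2) := by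
    fun_prop
  have m3 : Measurable fun x : ((Ω × Ω) × Arr V) × (Ω × Arr V) =>
      ((x.1.1.1, x.2.1), cmpR x.1.2 x.2.2) :=
    (measurable_fst.fst.fst.prodMk measurable_snd.fst).prodMk
      (measurable_cmpR measurable_fst.snd measurable_snd.snd)
  refine ⟨wOf μ K1 ⊗ₘ K2.comap _ mt, inferInstance, Measure.fst_compProd _ _, ?_, ?_⟩
  · refine Measure.ext_of_lintegral _ fun φ hφ => ?_
    have mF : Measurable fun y => ∫⁻ x, φ ((y, x.1), x.2) ∂K2 y :=
      Measurable.lintegral_kernel_prod_right' (hφ.comp mr)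
    rw [lintegral_map hφ m2, Measure.lintegral_compProd (hφ.fun_comp m2), key K2 φ hφ]
    conv_rhs => rw [← hμ, lintegral_map mF mt]
    rfl
  · refine Measure.ext_of_lintegral _ fun φ hφ => ?_
    rw [lintegral_map hφ m3, Measure.lintegral_compProd (hφ.fun_comp m3), key _ φ hφ,
      key K1 _ (Measurable.lintegral_kernel_prod_right' (hφ.fun_comp m3))]
    refine lintegral_congr fun y => ?_
    have my : Measurable fun x : Ω × Arr V => φ ((y, x.1), x.2) :=
      hφ.comp (mr.comp measurable_prodMk_left)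
    rw [star, Kernel.lintegral_map _ measurable_star _ my,
      Kernel.lintegral_compProd _ _ _ (my.fun_comp measurable_star)]
    rfl

end

end Pool.Agent.MP_154433_an.T4A

end PkTri

section PkCis

/-! Row Cis: composed arrows are isomorphisms and intertwine the loops. -/

set_option autoImplicit false
set_option linter.unusedVariables false

open MeasureTheory ProbabilityTheory Filter Topology Set
open scoped ENNReal

namespace Pool.Agent.MP_154433_an.T4A

open T3A

namespace CisAux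

variable {G Ω V : Type} [AddCommGroup G] [MeasurableSpace Ω] [AddCommGroup V]

theorem meas_iso [Countable V] (A : Base G Ω V) :
    Measurable fun z : (Ω × Ω) × Arr V => Iso (A.N z.1.1) (A.N z.1.2) z.2 := by
  have m1 : ∀ c, Measurable fun z : (Ω × Ω) × Arr V => c ∈ A.N z.1.1 := fun c =>
    (measurableSet_setOfPred.1 (A.mN c)).comp measurable_fst.fst
  have m2 : ∀ c, Measurable fun z : (Ω × Ω) × Arr V => c ∈ A.N z.1.2 := fun c =>
    (measurableSet_setOfPred.1 (A.mN c)).comp measurable_fst.snd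
  have m3 : ∀ p : V × V, Measurable fun z : (Ω × Ω) × Arr V => p ∈ z.2 := fun p =>
    (measurable_set_mem p).comp measurable_snd
  have e : (fun z : (Ω × Ω) × Arr V => Iso (A.N z.1.1) (A.N z.1.2) z.2) = fun z =>
      (∀ c, c ∈ A.N z.1.1 → ∀ c', c' ∈ A.N z.1.2 → (c, c') ∈ z.2) ∧
      (∀ a a' b b', (a, a') ∈ z.2 → (b, b') ∈ z.2 → (a - b, a' - b') ∈ z.2) ∧
      (∀ c, ∃ c', (c, c') ∈ z.2) ∧ (∀ c', ∃ c, (c, c') ∈ z.2) ∧
      ∀ c c', (c, c') ∈ z.2 → (c ∈ A.N z.1.1 ↔ c' ∈ A.N z.1.2) :=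
    funext fun z => propext ⟨fun h => ⟨h.1, h.2, h.3, h.4, h.5⟩,
      fun h => ⟨h.1, h.2.1, h.2.2.1, h.2.2.2.1, h.2.2.2.2⟩⟩
  rw [e]
  exact (Measurable.forall fun c => (m1 c).imp (Measurable.forall fun c' => (m2 c').imp (m3 _))).and
    ((Measurable.forall fun a => Measurable.forall fun a' => Measurable.forall fun b =>
      Measurable.forall fun b' => (m3 _).imp ((m3 _).imp (m3 _))).and
    ((Measurable.forall fun c => Measurable.exists fun c' => m3 _).and
    ((Measurable.forall fun c => Measurable.exists fun c' => m3 _).and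
    (Measurable.forall fun c => Measurable.forall fun c' => (m3 _).imp ((m1 c).iff (m2 c'))))))

omit [AddCommGroup V] in
theorem meas_itw [Countable V] {g : ℕ → Ω → Arr V} (hg : ∀ i, Measurable (g i)) :
    Measurable fun z : (Ω × Ω) × Arr V => ∀ i, Itw (g i z.1.1) (g i z.1.2) z.2 :=
  Measurable.forall fun i => Measurable.forall fun c => Measurable.forall fun a =>
    Measurable.forall fun a' => Measurable.forall fun b' =>
      ((measurable_set_mem (c, a)).comp ((hg i).comp measurable_fst.fst)).imp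
        (((measurable_set_mem (a', b')).comp ((hg i).comp measurable_fst.snd)).imp
          (((measurable_set_mem (c, a')).comp measurable_snd).imp
            ((measurable_set_mem (a, b')).comp measurable_snd)))

theorem iso_cmp {N1 N2 N3 : AddSubgroup V} {R S : Arr V} (h1 : Iso N1 N2 R) (h2 : Iso N2 N3 S)
    (r0 : ((0 : V), (0 : V)) ∈ R) (s0 : ((0 : V), (0 : V)) ∈ S) : Iso N1 N3 (cmpR R S) where
  zero c hc c' hc' := ⟨r0, s0, 0, h1.zero c hc 0 N2.zero_mem, h2.zero 0 N2.zero_mem c' hc'⟩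
  sub a a' b b' := by
    rintro ⟨-, -, e, e1, e2⟩ ⟨-, -, f, f1, f2⟩
    exact ⟨r0, s0, e - f, h1.sub _ _ _ _ e1 f1, h2.sub _ _ _ _ e2 f2⟩
  totL c := by
    obtain ⟨e, he⟩ := h1.totL c
    obtain ⟨c', hc⟩ := h2.totL e
    exact ⟨c', r0, s0, e, he, hc⟩
  totR c' := by
    obtain ⟨e, he⟩ := h2.totR c'
    obtain ⟨c, hc⟩ := h1.totR e
    exact ⟨c, r0, s0, e, hc, he⟩
  iff c c' := by
    rintro ⟨-, -, e, e1, e2⟩
    exact (h1.iff _ _ e1).trans (h2.iff _ _ e2)

theorem itw_cmp {g1 g2 g3 R S : Arr V} (ht : g1.Nonempty → ∀ c, ∃ c', (c, c') ∈ g2)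
    (h1 : Itw g1 g2 R) (h2 : Itw g2 g3 S) : Itw g1 g3 (cmpR R S) := by
  rintro c a a' b' e1 e2 ⟨r0, s0, m, m1, m2⟩
  obtain ⟨m', hm⟩ := ht ⟨_, e1⟩ m
  exact ⟨r0, s0, m', h1 c a m m' e1 hm m1, h2 m m' a' b' hm e2 m2⟩

theorem pass [Countable V] {w1 w2 w3 : Measure ((Ω × Ω) × Arr V)} (h : Tri w1 w2 w3)
    {P1 P2 P3 : (Ω × Ω) × Arr V → Prop} (h1 : ∀ᵐ z ∂w1, P1 z) (h2 : ∀ᵐ z ∂w2, P2 z)
    (h3 : Measurable P3) (hP : ∀ (y1 y2 y3 : Ω) (R S : Arr V), P1 ((y1, y2), R) →
      P2 ((y2, y3), S) → P3 ((y1, y3), cmpR R S)) : ∀ᵐ z ∂w3, P3 z := by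
  obtain ⟨m, -, rfl, rfl, rfl⟩ := h
  have k2 : Measurable fun x : ((Ω × Ω) × Arr V) × (Ω × Arr V) => ((x.1.1.2, x.2.1), x.2.2) :=
    (measurable_fst.fst.snd.prodMk measurable_snd.fst).prodMk measurable_snd.snd
  have k3 : Measurable fun x : ((Ω × Ω) × Arr V) × (Ω × Arr V) =>
      ((x.1.1.1, x.2.1), cmpR x.1.2 x.2.2) :=
    (measurable_fst.fst.fst.prodMk measurable_snd.fst).prodMk
      (measurable_cmpR measurable_fst.snd measurable_snd.snd)
  rw [ae_map_iff k3.aemeasurable (measurableSet_setOfPred.2 h3)]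
  filter_upwards [ae_of_ae_map measurable_fst.aemeasurable h1, ae_of_ae_map k2.aemeasurable h2]
    with x e1 e2
  exact hP _ _ _ _ _ e1 e2

end CisAux

open CisAux in
theorem xCis : CisS := by
  intro G Ω V _ _ _ _ A w1 w2 w3 h h1 h2
  refine pass h h1 h2 (((measurable_set_mem _).comp measurable_snd).imp (meas_iso A)) ?_
  intro y1 y2 y3 R S e1 e2 e0
  obtain ⟨r0, s0⟩ := (zero_mem_cmpR R S).1 e0
  exact iso_cmp (e1 r0) (e2 s0) r0 s0

open CisAux in
theorem xCit : CitS := by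
  intro Ω V _ _ _ w1 w2 w3 g h hg ht h1 h2
  refine pass h (ht.and h1) h2 (meas_itw hg) ?_
  intro y1 y2 y3 R S e1 e2 i
  exact itw_cmp (e1.1 i) (e1.2 i) (e2 i)

end Pool.Agent.MP_154433_an.T4A

end PkCis

section PkCfl

/-! Flat squares pass to the composition of two arrows. -/

set_option autoImplicit false
set_option linter.unusedVariables false

open MeasureTheory ProbabilityTheory Filter Topology Set
open scoped ENNReal

namespace Pool.Agent.MP_154433_an.T4A

open T3A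

noncomputable section

namespace CflAux

lemma move {V : Type} [AddCommGroup V] {N1 N2 N3 : AddSubgroup V} {R S : Arr V}
    (hR : Iso N1 N2 R) (hS : Iso N2 N3 S) {a e e1 b : V} (h1 : (a, e) ∈ R) (h2 : (e, b) ∈ S)
    (h3 : (a, e1) ∈ R) : (e1, b) ∈ S := by
  have h4 := hR.sub _ _ _ _ h1 h3
  have h5 : e - e1 ∈ N2 := (hR.iff _ _ h4).1 (by simp)
  have h6 := hS.sub _ _ _ _ h2 (hS.zero _ h5 0 N3.zero_mem)
  simpa using h6

/-- nonempty arrows that send `c` outside `F` -/
def miss (Ω : Type) {V : Type} [AddCommGroup V] (c : V) (F : Finset V) :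
    Set ((Ω × Ω) × Arr V) :=
  {z | ((0 : V), (0 : V)) ∈ z.2 ∧ ∀ c' ∈ F, (c, c') ∉ z.2}

lemma meas_miss {Ω V : Type} [MeasurableSpace Ω] [AddCommGroup V] (c : V) (F : Finset V) :
    MeasurableSet (miss Ω c F) := by
  have : miss Ω c F = {z | ((0 : V), (0 : V)) ∈ z.2} ∩ ⋂ c' ∈ F, {z | (c, c') ∈ z.2}ᶜ := by
    ext z; simp [miss]
  rw [this]
  exact (measurableSet_memA measurable_snd _).inter
    (F.measurableSet_biInter fun c' _ => (measurableSet_memA measurable_snd _).compl)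

lemma tight {G Ω V : Type} [AddCommGroup G] [MeasurableSpace Ω] [AddCommGroup V] [Countable V]
    (A : Base G Ω V) (w : Measure ((Ω × Ω) × Arr V)) [IsFiniteMeasure w] (h : IsoW A w) (c : V)
    (ε : ℝ≥0∞) (hε : 0 < ε) : ∃ F : Finset V, w (miss Ω c F) ≤ ε := by
  classical
  have hanti : Antitone (miss Ω c) := fun F F' hF z hz => ⟨hz.1, fun c' hc => hz.2 c' (hF hc)⟩
  have ht := tendsto_measure_iInter_atTop (μ := w) (s := miss Ω c)
    (fun F => (meas_miss c F).nullMeasurableSet) hanti ⟨∅, measure_ne_top _ _⟩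
  have h0 : w (⋂ F, miss Ω c F) = 0 := by
    refine measure_mono_null ?_ (ae_iff.1 h)
    intro z hz
    simp only [mem_iInter] at hz
    intro hI
    obtain ⟨c', hc⟩ := (hI (hz ∅).1).totL c
    exact (hz {c'}).2 c' (by simp) hc
  rw [h0] at ht
  exact (ENNReal.tendsto_nhds_zero.1 ht ε hε).exists

lemma bound {G Ω V J : Type} [AddCommGroup G] [MeasurableSpace Ω] [AddCommGroup V] [Countable V]
    (B : Bun G Ω V J) (w1 w2 w3 : Measure ((Ω × Ω) × Arr V)) (hT : Tri w1 w2 w3)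
    (hinv : ∀ n, MeasurePreserving (B.sA n n) w1 w1) (h1 : IsoW B.toBase w1)
    (h2 : IsoW B.toBase w2) (j : J) (M : ℕ) (d : ℤ × ℤ) (c11 c13 c21 c23 : V) (F F1 : Finset V) :
    w3 (B.flatS j M d c11 c13 c21 c23) ≤ w1 (miss Ω c11 F) + w1 (miss Ω c21 F1) +
      ∑ p ∈ F ×ˢ F1, (w1 (B.flatS j M d c11 p.1 c21 p.2) + w2 (B.flatS j M d p.1 c13 p.2 c23)) := by
  obtain ⟨m, hm, e1, e2, e3⟩ := hT
  have m2 : Measurable fun x : ((Ω × Ω) × Arr V) × (Ω × Arr V) => ((x.1.1.2, x.2.1), x.2.2) := by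
    fun_prop
  have m3 : Measurable fun x : ((Ω × Ω) × Arr V) × (Ω × Arr V) =>
      ((x.1.1.1, x.2.1), cmpR x.1.2 x.2.2) :=
    (measurable_fst.fst.fst.prodMk measurable_snd.fst).prodMk
      (measurable_cmpR measurable_fst.snd measurable_snd.snd)
  have a1 : ∀ᵐ x ∂m, ((0 : V), (0 : V)) ∈ x.1.2 → Iso (B.N x.1.1.1) (B.N x.1.1.2) x.1.2 := by
    unfold IsoW at h1
    rw [← e1] at h1
    exact ae_of_ae_map measurable_fst.aemeasurable h1
  have a2 : ∀ᵐ x ∂m, ((0 : V), (0 : V)) ∈ x.2.2 → Iso (B.N x.1.1.2) (B.N x.2.1) x.2.2 := by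
    unfold IsoW at h2
    rw [← e2] at h2
    exact ae_of_ae_map m2.aemeasurable h2
  set n := B.st j d with hn
  have mF : ∀ a b c e : V, MeasurableSet (B.flatS j M d a b c e) :=
    fun a b c e => (B.cyl_flatS j M d a b c e).meas
  have k1 : ∀ E, MeasurableSet E → m (Prod.fst ⁻¹' E) = w1 E := fun E hE => by
    rw [← e1, Measure.map_apply measurable_fst hE]
  have k2 : ∀ E, MeasurableSet E →
      m ((fun x : ((Ω × Ω) × Arr V) × (Ω × Arr V) => ((x.1.1.2, x.2.1), x.2.2)) ⁻¹' E) = w2 E :=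
    fun E hE => by rw [← e2, Measure.map_apply m2 hE]
  have k3 : w1 (B.sA n n ⁻¹' miss Ω c21 F1) = w1 (miss Ω c21 F1) :=
    (hinv n).measure_preimage (meas_miss c21 F1).nullMeasurableSet
  rw [← e3, Measure.map_apply m3 (mF _ _ _ _)]
  calc m _ ≤ m ((Prod.fst ⁻¹' miss Ω c11 F ∪ Prod.fst ⁻¹' (B.sA n n ⁻¹' miss Ω c21 F1)) ∪
        ⋃ p ∈ F ×ˢ F1, (Prod.fst ⁻¹' B.flatS j M d c11 p.1 c21 p.2 ∪
          (fun x : ((Ω × Ω) × Arr V) × (Ω × Arr V) => ((x.1.1.2, x.2.1), x.2.2)) ⁻¹'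
            B.flatS j M d p.1 c13 p.2 c23)) := by
        refine measure_mono_ae ?_
        filter_upwards [a1, a2] with x hx1 hx2 hx
        obtain ⟨⟨z1, z2, e, he1, he2⟩, ⟨-, -, e', he1', he2'⟩, hne⟩ := hx
        have I1 := hx1 z1
        have I2 := hx2 z2
        by_cases q1 : x.1 ∈ miss Ω c11 F
        · exact Or.inl (Or.inl q1)
        by_cases q2 : B.sA n n x.1 ∈ miss Ω c21 F1
        · exact Or.inl (Or.inr q2)
        right
        have q1' : ∃ c12 ∈ F, (c11, c12) ∈ x.1.2 := by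
          by_contra hc
          exact q1 ⟨z1, fun c' hc' hh => hc ⟨c', hc', hh⟩⟩
        have q2' : ∃ c22 ∈ F1, (sz B.σ n c21, sz B.σ n c22) ∈ x.1.2 := by
          by_contra hc
          refine q2 ⟨?_, fun c' hc' hh => hc ⟨c', hc', hh⟩⟩
          simpa using z1
        obtain ⟨c12, hF, r1⟩ := q1'
        obtain ⟨c22, hF1, r2⟩ := q2'
        have s1 : (c12, c13) ∈ x.2.2 := move I1 I2 he1 he2 r1
        have s2 : (sz B.σ n c22, sz B.σ n c23) ∈ x.2.2 := move I1 I2 he1' he2' r2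
        simp only [mem_iUnion]
        refine ⟨(c12, c22), Finset.mem_product.2 ⟨hF, hF1⟩, ?_⟩
        by_cases q3 : ((c11, c21) ∈ B.Sg j M d x.1.1.1 ↔ (c12, c22) ∈ B.Sg j M d x.1.1.2)
        · exact Or.inr ⟨s1, s2, fun q4 => hne (q3.trans q4)⟩
        · exact Or.inl ⟨r1, r2, q3⟩
    _ ≤ _ := by
        refine (measure_union_le _ _).trans (add_le_add ?_ ?_)
        · refine (measure_union_le _ _).trans (le_of_eq ?_)
          rw [k1 _ (meas_miss c11 F), k1 _ (B.measurable_sA n n (meas_miss c21 F1)), k3]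
        · refine (measure_biUnion_finset_le _ _).trans (Finset.sum_le_sum fun p _ => ?_)
          refine (measure_union_le _ _).trans (le_of_eq ?_)
          rw [k1 _ (mF _ _ _ _), k2 _ (mF _ _ _ _)]

end CflAux

open CflAux in
theorem xCfl : CflS := by
  intro G Ω V J _ _ _ _ B w1 w2 w3 hT hinv h1 h2 f1 f2 j c11 c13 c21 c23
  have : IsProbabilityMeasure w1 := by
    obtain ⟨m, hm, e1, -, -⟩ := hT
    rw [← e1]
    exact Measure.isProbabilityMeasure_map measurable_fst.aemeasurable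
  refine ENNReal.tendsto_nhds_zero.2 fun ε hε => ?_
  have h3 : 0 < ε / 3 := ENNReal.div_pos hε.ne' (by norm_num)
  obtain ⟨F, hF⟩ := tight B.toBase w1 h1 c11 _ h3
  obtain ⟨F1, hF1⟩ := tight B.toBase w1 h1 c21 _ h3
  have hs : Tendsto (fun M => ∑ p ∈ F ×ˢ F1,
      ((∫⁻ d : ℤ × ℤ, w1 (B.flatS j M d c11 p.1 c21 p.2) ∂((B.ν M).prod (B.ν M))) +
        ∫⁻ d : ℤ × ℤ, w2 (B.flatS j M d p.1 c13 p.2 c23) ∂((B.ν M).prod (B.ν M)))) B.U (𝓝 0) := by
    have := tendsto_finsetSum (F ×ˢ F1) fun p _ => (f1 j c11 p.1 c21 p.2).add (f2 j p.1 c13 p.2 c23)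
    simpa using this
  filter_upwards [ENNReal.tendsto_nhds_zero.1 hs _ h3] with M hM
  calc _ ≤ ∫⁻ d : ℤ × ℤ, (ε / 3 + ε / 3 + ∑ p ∈ F ×ˢ F1, (w1 (B.flatS j M d c11 p.1 c21 p.2) +
        w2 (B.flatS j M d p.1 c13 p.2 c23))) ∂((B.ν M).prod (B.ν M)) := by
        refine lintegral_mono fun d => ?_
        refine (bound B w1 w2 w3 hT hinv h1 h2 j M d c11 c13 c21 c23 F F1).trans ?_
        gcongr
    _ = ε / 3 + ε / 3 + ∑ p ∈ F ×ˢ F1,
      ((∫⁻ d : ℤ × ℤ, w1 (B.flatS j M d c11 p.1 c21 p.2) ∂((B.ν M).prod (B.ν M))) +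
        ∫⁻ d : ℤ × ℤ, w2 (B.flatS j M d p.1 c13 p.2 c23) ∂((B.ν M).prod (B.ν M))) := by
        rw [lintegral_add_left measurable_const, lintegral_const, measure_univ, mul_one,
          lintegral_finsetSum _ fun p _ => measurable_of_countable _]
        congr 1
        exact Finset.sum_congr rfl fun p _ => lintegral_add_left (measurable_of_countable _) _
    _ ≤ ε / 3 + ε / 3 + ε / 3 := by gcongr
    _ = ε := ENNReal.add_thirds ε

end

end Pool.Agent.MP_154433_an.T4A

end PkCfl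

section PkCpo

/-! The composition of two arrow kernels is nonempty where both are. -/

set_option autoImplicit false
set_option linter.unusedVariables false

open MeasureTheory ProbabilityTheory Filter Topology Set
open scoped ENNReal

namespace Pool.Agent.MP_154433_an.T4A

open T3A

noncomputable section

theorem xCpo : CpoS := by
  intro hW G Ω V _ _ _ _ A H1 H2 K1 K2 h1 h2
  have := h1.markov
  have := h2.markov
  have hZ : MeasurableSet {x : Ω × Arr V | ((0 : V), (0 : V)) ∈ x.2} :=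
    measurableSet_memA measurable_snd _
  have hinv : ∀ n, tz A.T n ⁻¹' Sup K2 =ᵐ[A.μ] Sup K2 := fun n => by
    filter_upwards [h2.eqv n] with y hy
    have e : K2 (tz A.T n y) {x | ((0 : V), (0 : V)) ∈ x.2} =
        K2 y {x | ((0 : V), (0 : V)) ∈ x.2} := by
      rw [hy, Measure.map_apply ((measurable_tz A.T n).prodMap (measurable_sh A.σ n n)) hZ]
      congr 1
      ext x
      simp
    exact congrArg (fun t => t ≠ 0) e
  have hc := (hW G Ω V A H1 K1 h1).conc _ (measurableSet_Sup K2) hinv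
  have hc' := Measure.ae_ae_of_ae_compProd (ae_of_ae_map measurable_wOf.aemeasurable hc)
  filter_upwards [hc'] with y hy hy1 hy2 h0
  refine hy1 ?_
  rw [star, Kernel.map_apply' _ measurable_star _ hZ,
    Kernel.compProd_apply (measurable_star hZ),
    lintegral_eq_zero_iff (Kernel.measurable_kernel_prodMk_left' (measurable_star hZ) y)] at h0
  refine measure_eq_zero_iff_ae_notMem.2 ?_
  filter_upwards [hy, h0] with x hx hx0 hx1
  refine hx hy2 ?_
  rw [← show (K2.comap (fun x : Ω × (Ω × Arr V) => x.2.1) measurable_snd.fst) (y, x) _ = 0 from hx0,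
    Kernel.comap_apply]
  congr 1
  ext c
  exact ⟨fun h => (zero_mem_cmpR _ _).2 ⟨hx1, h⟩, fun h => ((zero_mem_cmpR _ _).1 h).2⟩

end

end Pool.Agent.MP_154433_an.T4A

end PkCpo

section PkCpr

/-! The composition of arrow kernels commutes with projections. -/

set_option autoImplicit false
set_option linter.unusedVariables false

open MeasureTheory ProbabilityTheory Filter Topology Set
open scoped ENNReal

namespace Pool.Agent.MP_154433_an.T4A

open T3A

namespace CprAux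

/-- the section of the preimage of `E` under the composition map -/
def sec {Ω V : Type} [AddCommGroup V] (E : Set (Ω × Arr V)) (R : Arr V) : Set (Ω × Arr V) :=
  {x | (x.1, cmpR R x.2) ∈ E}

lemma measurableSet_sec {Ω V : Type} [MeasurableSpace Ω] [AddCommGroup V] [Countable V]
    {E : Set (Ω × Arr V)} (hE : MeasurableSet E) (R : Arr V) : MeasurableSet (sec E R) :=
  (measurable_fst.prodMk (measurable_cmpR measurable_const measurable_snd)) hE

lemma star_apply {Ω V : Type} [MeasurableSpace Ω] [AddCommGroup V] [Countable V]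
    (K1 K2 : Kernel Ω (Ω × Arr V)) [IsMarkovKernel K1] [IsMarkovKernel K2] (y : Ω)
    {E : Set (Ω × Arr V)} (hE : MeasurableSet E) :
    star K1 K2 y E = ∫⁻ x, K2 x.1 (sec E x.2) ∂(K1 y) := by
  unfold star
  rw [Kernel.map_apply' _ measurable_star _ hE, Kernel.compProd_apply (measurable_star hE)]
  rfl

lemma measurable_int {Ω V : Type} [MeasurableSpace Ω] [AddCommGroup V] [Countable V]
    (K2 : Kernel Ω (Ω × Arr V)) [IsMarkovKernel K2] {E : Set (Ω × Arr V)} (hE : MeasurableSet E) :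
    Measurable fun x : Ω × Arr V => K2 x.1 (sec E x.2) :=
  Kernel.measurable_kernel_prodMk_left
    (κ := K2.comap (fun x : Ω × Arr V => x.1) measurable_fst) (measurable_star hE)

end CprAux

open CprAux in
theorem xCpr : CprS := by
  intro Y Ω V _ _ _ _ μ' _ p K1' K2' _ _ K1 K2 _ _ hp htgt h1 h2
  have hpm : Measurable (Prod.map p id : Y × Arr V → Ω × Arr V) := hp.prodMap measurable_id
  obtain ⟨N, hsub, hN, hN0⟩ := exists_measurable_superset_of_null (ae_iff.1 h2)
  have h3 : ∀ᵐ y ∂μ', K1' y (Prod.fst ⁻¹' N) = 0 := by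
    have hm : Measurable fun z : (Y × Y) × Arr V => z.1.2 := measurable_fst.snd
    rw [← htgt, Measure.map_apply hm hN, wOf, Measure.map_apply measurable_wOf (hm hN),
      Measure.compProd_apply (measurable_wOf (hm hN)),
      lintegral_eq_zero_iff (Kernel.measurable_kernel_prodMk_left (measurable_wOf (hm hN)))] at hN0
    exact hN0
  filter_upwards [h1, h3] with y hy1 hy3
  ext E hE
  rw [Measure.map_apply hpm hE, star_apply K1' K2' y (hpm hE), star_apply K1 K2 (p y) hE, ← hy1,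
    lintegral_map (measurable_int K2 hE) hpm]
  refine lintegral_congr_ae ?_
  have h4 : ∀ᵐ x ∂(K1' y), x.1 ∉ N := measure_eq_zero_iff_ae_notMem.1 hy3
  filter_upwards [h4] with x hx
  have hx2 : (K2' x.1).map (Prod.map p id) = K2 (p x.1) := by
    by_contra hne
    exact hx (hsub hne)
  show K2' x.1 (sec (Prod.map p id ⁻¹' E) x.2) = K2 (p x.1) (sec E x.2)
  rw [← hx2, Measure.map_apply hpm (measurableSet_sec hE x.2)]
  rfl

end Pool.Agent.MP_154433_an.T4A

end PkCpr

section PkPk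

/-! The arrow kernel of an extension projects to the arrow kernel of the base. -/

set_option autoImplicit false
set_option linter.unusedVariables false
set_option linter.unusedSectionVars false

open MeasureTheory ProbabilityTheory Filter Topology Set
open scoped ENNReal

namespace Pool.Agent.MP_154433_an.T4A

open T3A

noncomputable section

namespace PkAux

/-- setwise convergence gives lower semicontinuity of integrals -/
lemma lsc {Ω : Type} [MeasurableSpace Ω] (U : Ultrafilter ℕ) (m : ℕ → Measure Ω) (m0 : Measure Ω)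
    (hm : ∀ A, MeasurableSet A → Tendsto (fun M => m M A) U (𝓝 (m0 A))) {h : Ω → ℝ≥0∞}
    (hh : Measurable h) : ∀ a, Tendsto (fun M => ∫⁻ x, h x ∂(m M)) U (𝓝 a) → ∫⁻ x, h x ∂m0 ≤ a := by
  have ex : ∀ u : ℕ → ℝ≥0∞, ∃ a, Tendsto u U (𝓝 a) := fun u =>
    ⟨(U.map u).lim, (U.map u).le_nhds_lim⟩
  refine Measurable.ennreal_induction (motive := fun h => ∀ a,
    Tendsto (fun M => ∫⁻ x, h x ∂(m M)) U (𝓝 a) → ∫⁻ x, h x ∂m0 ≤ a) ?_ ?_ ?_ hh
  · intro c s hs a ha
    simp only [lintegral_indicator_const hs] at ha ⊢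
    by_cases h0 : m0 s = 0
    · simp [h0]
    · exact (tendsto_nhds_unique (ENNReal.Tendsto.const_mul (hm s hs) (Or.inl h0)) ha).le
  · intro f g _ hf hg h1 h2 a ha
    obtain ⟨a1, e1⟩ := ex fun M => ∫⁻ x, f x ∂(m M)
    obtain ⟨a2, e2⟩ := ex fun M => ∫⁻ x, g x ∂(m M)
    simp only [Pi.add_apply, lintegral_add_left hf] at ha ⊢
    rw [tendsto_nhds_unique ha (e1.add e2)]
    exact add_le_add (h1 _ e1) (h2 _ e2)
  · intro f hf hmono h1 a ha
    rw [lintegral_iSup hf hmono]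
    refine iSup_le fun n => ?_
    obtain ⟨a1, e1⟩ := ex fun M => ∫⁻ x, f n x ∂(m M)
    exact (h1 n _ e1).trans (le_of_tendsto_of_tendsto' e1 ha fun M =>
      lintegral_mono fun x => le_iSup (fun k => f k x) n)

/-- the same for densities, tested against a measure on an extension -/
lemma lsc' {Y Ω : Type} [MeasurableSpace Y] [MeasurableSpace Ω] (U : Ultrafilter ℕ)
    (μ' : Measure Y) [IsFiniteMeasure μ'] (μ : Measure Ω) [IsFiniteMeasure μ] {p : Y → Ω}
    (hp : MeasurePreserving p μ' μ) {F : ℕ → Ω → ℝ≥0∞} {g : Ω → ℝ≥0∞} (hF : ∀ M, Measurable (F M))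
    (hg : Measurable g)
    (hm : ∀ A, MeasurableSet A → Tendsto (fun M => ∫⁻ x in A, F M x ∂μ) U (𝓝 (∫⁻ x in A, g x ∂μ)))
    (A' : Set Y) (a : ℝ≥0∞) (ha : Tendsto (fun M => ∫⁻ y in A', F M (p y) ∂μ') U (𝓝 a)) :
    ∫⁻ y in A', g (p y) ∂μ' ≤ a := by
  set ρ := (μ'.restrict A').map p with hρ
  have hac : ρ ≪ μ := by
    rw [← hp.map_eq]
    exact (Measure.absolutelyContinuous_of_le Measure.restrict_le_self).map hp.measurable
  have e : ∀ u : Ω → ℝ≥0∞, Measurable u →
      ∫⁻ y in A', u (p y) ∂μ' = ∫⁻ x, ρ.rnDeriv μ x ∂(μ.withDensity u) := fun u hu => by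
    rw [← lintegral_map hu hp.measurable, ← hρ,
      lintegral_withDensity_eq_lintegral_mul μ hu (Measure.measurable_rnDeriv _ _), mul_comm,
      ← lintegral_withDensity_eq_lintegral_mul μ (Measure.measurable_rnDeriv _ _) hu,
      Measure.withDensity_rnDeriv_eq ρ μ hac]
  rw [e g hg]
  refine lsc U (fun M => μ.withDensity (F M)) (μ.withDensity g) (fun A hA => ?_)
    (Measure.measurable_rnDeriv _ _) a ?_
  · simpa only [withDensity_apply _ hA] using hm A hA
  · simpa only [fun M => e (F M) (hF M)] using ha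

section

variable {G Ω V J : Type} [AddCommGroup G] [MeasurableSpace Ω] [AddCommGroup V]

/-- the weight of the labels that send `x` into `E` -/
def Fl (B : Bun G Ω V J) (j : J) (E : Set ((Ω × Ω) × Arr V)) (M : ℕ) (x : Ω) : ℝ≥0∞ :=
  ((B.ν M).prod (B.ν M)) ((fun d => (d, x)) ⁻¹' (B.pt j M ⁻¹' E))

/-- the kernel mass of the arrows from `x` in `E` -/
def Gk (K : Kernel Ω (Ω × Arr V)) (E : Set ((Ω × Ω) × Arr V)) (x : Ω) : ℝ≥0∞ :=
  K x (Prod.mk x ⁻¹' ((fun x : Ω × (Ω × Arr V) => ((x.1, x.2.1), x.2.2)) ⁻¹' E))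

lemma Fl_meas (B : Bun G Ω V J) (j : J) {E : Set ((Ω × Ω) × Arr V)} (hE : MeasurableSet E)
    (M : ℕ) : Measurable (Fl B j E M) :=
  measurable_measure_prodMk_right (B.measurable_pt j M hE)

lemma Gk_meas (K : Kernel Ω (Ω × Arr V)) [IsMarkovKernel K] {E : Set ((Ω × Ω) × Arr V)}
    (hE : MeasurableSet E) : Measurable (Gk K E) :=
  Kernel.measurable_kernel_prodMk_left (measurable_wOf hE)

lemma Gk_compl (K : Kernel Ω (Ω × Arr V)) [IsMarkovKernel K] {E : Set ((Ω × Ω) × Arr V)}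
    (hE : MeasurableSet E) (x : Ω) : Gk K E x + Gk K Eᶜ x = 1 :=
  prob_add_prob_compl (μ := K x) (measurable_prodMk_left (measurable_wOf hE))

lemma wOf_eq (ρ : Measure Ω) [SFinite ρ] (K : Kernel Ω (Ω × Arr V)) [IsMarkovKernel K]
    {E : Set ((Ω × Ω) × Arr V)} (hE : MeasurableSet E) : wOf ρ K E = ∫⁻ x, Gk K E x ∂ρ := by
  rw [wOf, Measure.map_apply measurable_wOf hE, Measure.compProd_apply (measurable_wOf hE)]
  rfl

lemma lim (B : Bun G Ω V J) (j : J) (K : Kernel Ω (Ω × Arr V)) [IsMarkovKernel K]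
    (h : IsLim B j (wOf B.μ K)) {E : Set ((Ω × Ω) × Arr V)} (hE : Cyl E) (A : Set Ω)
    (hA : MeasurableSet A) : Tendsto (fun M => ∫⁻ x in A, Fl B j E M x ∂B.μ) B.U
      (𝓝 (∫⁻ x in A, Gk K E x ∂B.μ)) := by
  have hc := Cyl.inter _ _ (Cyl.fst A hA) hE
  have h1 := h.2 _ hc
  have e1 : wOf B.μ K ({z | z.1.1 ∈ A} ∩ E) = ∫⁻ x in A, Gk K E x ∂B.μ := by
    rw [wOf_eq _ _ hc.meas, ← lintegral_indicator hA]
    refine lintegral_congr fun x => ?_
    by_cases hx : x ∈ A
    · rw [indicator_of_mem hx, Gk, Gk]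
      congr 1
      ext u
      simp [hx]
    · rw [indicator_of_notMem hx, Gk]
      have : Prod.mk x ⁻¹' ((fun x : Ω × (Ω × Arr V) => ((x.1, x.2.1), x.2.2)) ⁻¹'
          ({z | z.1.1 ∈ A} ∩ E)) = ∅ := by
        ext u
        simp [hx]
      rw [this, measure_empty]
  have e2 : ∀ M, B.P M (B.pt j M ⁻¹' ({z | z.1.1 ∈ A} ∩ E)) = ∫⁻ x in A, Fl B j E M x ∂B.μ := by
    intro M
    rw [Bun.P, PM, Measure.prod_apply_symm (B.measurable_pt j M hc.meas), ← lintegral_indicator hA]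
    refine lintegral_congr fun x => ?_
    by_cases hx : x ∈ A
    · rw [indicator_of_mem hx, Fl]
      congr 1
      ext d
      simp [hx, Bun.pt]
    · rw [indicator_of_notMem hx]
      have : (fun d => (d, x)) ⁻¹' (B.pt j M ⁻¹' ({z | z.1.1 ∈ A} ∩ E)) = ∅ := by
        ext d
        simp [hx, Bun.pt]
      rw [this, measure_empty]
  simpa only [e1, e2] using h1

variable {Y : Type} [MeasurableSpace Y]

/-- the projection of arrows -/
def pj (p : Y → Ω) (z : (Y × Y) × Arr V) : (Ω × Ω) × Arr V := ((p z.1.1, p z.1.2), z.2)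

lemma pj_meas {p : Y → Ω} (hp : Measurable p) : Measurable (pj (V := V) p) :=
  ((hp.comp measurable_fst.fst).prodMk (hp.comp measurable_fst.snd)).prodMk measurable_snd

lemma pj_cyl {p : Y → Ω} (hp : Measurable p) {E : Set ((Ω × Ω) × Arr V)} (hE : Cyl E) :
    Cyl (pj p ⁻¹' E) := by
  induction hE with
  | fst A hA => exact Cyl.fst _ (hp hA)
  | snd A hA => exact Cyl.snd _ (hp hA)
  | mem q => exact Cyl.mem q
  | compl E _ ih => exact Cyl.compl _ ih
  | inter E E' _ _ ih ih' => exact Cyl.inter _ _ ih ih'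

lemma Fl_pj {B' : Bun G Y V J} {B : Bun G Ω V J} {p : Y → Ω} (h : Ext B' B p) (j : J)
    (E : Set ((Ω × Ω) × Arr V)) (M : ℕ) (y : Y) : Fl B' j (pj p ⁻¹' E) M y = Fl B j E M (p y) := by
  rw [Fl, Fl, h.hν]
  congr 1
  ext d
  simp only [mem_preimage, Bun.pt, pj, Bun.st, h.comm, h.hS, h.ha, h.hb]

variable {B' : Bun G Y V J} {B : Bun G Ω V J} {p : Y → Ω} {j : J}
  {K' : Kernel Y (Y × Arr V)} [IsMarkovKernel K'] {K : Kernel Ω (Ω × Arr V)} [IsMarkovKernel K]

lemma key_le (h : Ext B' B p) (h' : IsLim B' j (wOf B'.μ K')) (h0 : IsLim B j (wOf B.μ K))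
    {E : Set ((Ω × Ω) × Arr V)} (hE : Cyl E) (A' : Set Y) (hA : MeasurableSet A') :
    ∫⁻ y in A', Gk K E (p y) ∂B'.μ ≤ ∫⁻ y in A', Gk K' (pj p ⁻¹' E) y ∂B'.μ := by
  refine lsc' B.U B'.μ B.μ h.mp (Fl_meas B j hE.meas) (Gk_meas K hE.meas) (lim B j K h0 hE) A' _ ?_
  have h1 := lim B' j K' h' (pj_cyl h.mp.measurable hE) A' hA
  rw [h.hU] at h1
  simpa only [Fl_pj h] using h1

lemma key (h : Ext B' B p) (h' : IsLim B' j (wOf B'.μ K')) (h0 : IsLim B j (wOf B.μ K))
    {E : Set ((Ω × Ω) × Arr V)} (hE : Cyl E) (A' : Set Y) (hA : MeasurableSet A') :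
    ∫⁻ y in A', Gk K E (p y) ∂B'.μ = ∫⁻ y in A', Gk K' (pj p ⁻¹' E) y ∂B'.μ := by
  have hp := h.mp.measurable
  have l1 := key_le h h' h0 hE A' hA
  have l2 := key_le h h' h0 (Cyl.compl _ hE) A' hA
  have s1 : ∫⁻ y in A', Gk K E (p y) ∂B'.μ + ∫⁻ y in A', Gk K Eᶜ (p y) ∂B'.μ = B'.μ A' := by
    rw [← lintegral_add_left (f := fun y => Gk K E (p y)) ((Gk_meas K hE.meas).comp hp)]
    simp [Gk_compl K hE.meas]
  have s2 : ∫⁻ y in A', Gk K' (pj p ⁻¹' E) y ∂B'.μ + ∫⁻ y in A', Gk K' (pj p ⁻¹' Eᶜ) y ∂B'.μ =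
      B'.μ A' := by
    rw [← lintegral_add_left (Gk_meas K' (pj_meas hp hE.meas)), preimage_compl]
    simp [Gk_compl K' (pj_meas hp hE.meas)]
  refine le_antisymm l1 ?_
  have hfin : ∫⁻ y in A', Gk K' (pj p ⁻¹' Eᶜ) y ∂B'.μ ≠ ∞ :=
    ne_top_of_le_ne_top (measure_ne_top B'.μ A') (s2 ▸ le_add_self)
  refine (ENNReal.add_le_add_iff_right hfin).1 ?_
  rw [s2, ← s1]
  exact add_le_add le_rfl l2

end

end PkAux

open PkAux in
theorem xPk : PkS := by
  intro G Y Ω V J _ _ _ _ _ _ B' B p j K' _ K _ h h' h0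
  have hp := h.mp.measurable
  have hq : Measurable (Prod.map p id : Y × Arr V → Ω × Arr V) := hp.prodMap measurable_id
  have := Kernel.IsMarkovKernel.map K' hq
  have hk : K'.map (Prod.map p id) =ᵐ[B'.μ] K.comap p hp := by
    refine Kernel.ae_eq_of_compProd_eq (Measure.ext_prod fun {A' C} hA hC => ?_)
    rw [Measure.compProd_apply_prod hA hC, Measure.compProd_apply_prod hA hC]
    have f1 : IsFiniteMeasure (wOf ((B'.μ.restrict A').map p) K) := by
      unfold wOf; infer_instance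
    have e1 : ∀ E : Set ((Ω × Ω) × Arr V), MeasurableSet E →
        wOf ((B'.μ.restrict A').map p) K E = ∫⁻ y in A', Gk K E (p y) ∂B'.μ := fun E hE => by
      rw [wOf_eq _ _ hE, lintegral_map (Gk_meas K hE) hp]
    have e2 : ∀ E : Set ((Ω × Ω) × Arr V), MeasurableSet E →
        (wOf (B'.μ.restrict A') K').map (pj p) E = ∫⁻ y in A', Gk K' (pj p ⁻¹' E) y ∂B'.μ :=
      fun E hE => by rw [Measure.map_apply (pj_meas hp) hE, wOf_eq _ _ (pj_meas hp hE)]
    have e3 : wOf ((B'.μ.restrict A').map p) K = (wOf (B'.μ.restrict A') K').map (pj p) :=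
      xExt Ω (V × V) _ _ fun E hE => by rw [e1 E hE.meas, e2 E hE.meas, key h h' h0 hE A' hA]
    have hE : MeasurableSet {z : (Ω × Ω) × Arr V | (z.1.2, z.2) ∈ C} :=
      (measurable_fst.snd.prodMk measurable_snd) hC
    have e4 := e2 _ hE
    rw [← e3, e1 _ hE] at e4
    simp only [Kernel.map_apply' _ hq _ hC, Kernel.comap_apply]
    exact e4.symm
  filter_upwards [hk] with y hy
  rw [← Kernel.map_apply _ hq, hy, Kernel.comap_apply]

end

end Pool.Agent.MP_154433_an.T4A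

end PkPk

section PkLam

/-! The mixture of the source shifts of the limit law. -/

set_option autoImplicit false

open MeasureTheory ProbabilityTheory Filter Topology Set
open scoped ENNReal

namespace Pool.Agent.MP_154433_an.T4A

open T3A

namespace LamAux

variable {G Ω V : Type} [AddCommGroup G] [MeasurableSpace Ω] [AddCommGroup V] (A : Base G Ω V)
  (w : Measure ((Ω × Ω) × Arr V)) {E : Set ((Ω × Ω) × Arr V)}

theorem apply [Countable G] (hE : MeasurableSet E) : Lam A w E = ∑' i : G, wt i *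
    w ({z | ((0 : V), (0 : V)) ∈ z.2} ∩ A.sA i 0 ⁻¹' E) := by
  rw [Lam, Measure.sum_apply _ hE]
  refine tsum_congr fun i => ?_
  rw [Measure.smul_apply, smul_eq_mul, Measure.map_apply (A.measurable_sA i 0) hE,
    Measure.restrict_apply (A.measurable_sA i 0 hE), inter_comm]

theorem nul [Countable G] (hE : MeasurableSet E) : Lam A w E = 0 ↔
    ∀ i, w ({z | ((0 : V), (0 : V)) ∈ z.2} ∩ A.sA i 0 ⁻¹' E) = 0 := by
  rw [apply A w hE, ENNReal.tsum_eq_zero]
  exact forall_congr' fun i => mul_eq_zero.trans (or_iff_right (wt_ne_zero i))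

theorem pre (i j k l : G) : A.sA k l ⁻¹' (A.sA i j ⁻¹' E) = A.sA (i + k) (j + l) ⁻¹' E :=
  Set.ext fun z => by rw [mem_preimage, mem_preimage, A.sA_sA, mem_preimage]

theorem diag (h : ∀ n, MeasurePreserving (A.sA n n) w w) (hE : MeasurableSet E) {i j i' j' : G}
    (n : G) (hi : i' = i + n) (hj : j' = j + n) :
    w ({z | ((0 : V), (0 : V)) ∈ z.2} ∩ A.sA i' j' ⁻¹' E) =
      w ({z | ((0 : V), (0 : V)) ∈ z.2} ∩ A.sA i j ⁻¹' E) := by
  rw [← (h n).measure_preimage
    ((measurableSet_memA measurable_snd _).inter (A.measurable_sA i j hE)).nullMeasurableSet,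
    preimage_inter, pre, hi, hj]
  congr 2
  ext z
  simp

end LamAux

open LamAux in
theorem xLam : LamS := by
  intro G Ω V _ _ _ _ _ A κ w _ hκ h1 h2
  refine ⟨⟨?_⟩, fun n => ?_, fun i j E hE h => ?_, ?_, fun E hE => nul A w hE⟩
  · rw [apply A w MeasurableSet.univ]
    exact lt_of_le_of_lt (ENNReal.tsum_le_tsum fun i => mul_le_of_le_one_right' prob_le_one)
      (lt_top_iff_ne_top.2 tsum_wt_ne_top)
  · ext E hE
    rw [Measure.map_apply (A.measurable_sA n n) hE, apply A w hE,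
      apply A w (A.measurable_sA n n hE)]
    refine tsum_congr fun i => ?_
    rw [pre, diag A w h1 hE n (add_comm n i) (add_comm n 0)]
  · refine (nul A w (A.measurable_sA i j hE)).2 fun k => ?_
    rw [pre, diag A w h1 hE j (sub_add_cancel (i + k) j).symm (add_comm j 0)]
    exact (nul A w hE).1 h _
  · refine Measure.AbsolutelyContinuous.mk fun E hE h => ?_
    rw [Measure.map_apply measurable_fst hE]
    refine (nul A w (measurable_fst hE)).2 fun i => measure_mono_null inter_subset_right ?_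
    have h3 := ((hκ.shift i 0).measure_preimage hE.nullMeasurableSet).trans h
    rw [← h2] at h3
    rwa [Measure.map_apply measurable_fst ((hκ.shift i 0).measurable hE)] at h3

end Pool.Agent.MP_154433_an.T4A

end PkLam

section PkLae

set_option autoImplicit false

open MeasureTheory ProbabilityTheory Filter Topology Set
open scoped ENNReal

namespace Pool.Agent.MP_154433_an.T4A

open T3A

namespace LaeAux

variable {G Ω V : Type} [AddCommGroup G] [MeasurableSpace Ω] [AddCommGroup V] [Countable V]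

theorem meas_iso (A : Base G Ω V) :
    Measurable fun z : (Ω × Ω) × Arr V => Iso (A.N z.1.1) (A.N z.1.2) z.2 := by
  have m1 : ∀ c, Measurable fun z : (Ω × Ω) × Arr V => c ∈ A.N z.1.1 := fun c =>
    (measurableSet_setOfPred.1 (A.mN c)).comp measurable_fst.fst
  have m2 : ∀ c, Measurable fun z : (Ω × Ω) × Arr V => c ∈ A.N z.1.2 := fun c =>
    (measurableSet_setOfPred.1 (A.mN c)).comp measurable_fst.snd
  have m3 : ∀ p : V × V, Measurable fun z : (Ω × Ω) × Arr V => p ∈ z.2 := fun p =>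
    (measurable_set_mem p).comp measurable_snd
  have e : (fun z : (Ω × Ω) × Arr V => Iso (A.N z.1.1) (A.N z.1.2) z.2) = fun z =>
      (∀ c, c ∈ A.N z.1.1 → ∀ c', c' ∈ A.N z.1.2 → (c, c') ∈ z.2) ∧
      (∀ a a' b b', (a, a') ∈ z.2 → (b, b') ∈ z.2 → (a - b, a' - b') ∈ z.2) ∧
      (∀ c, ∃ c', (c, c') ∈ z.2) ∧ (∀ c', ∃ c, (c, c') ∈ z.2) ∧
      ∀ c c', (c, c') ∈ z.2 → (c ∈ A.N z.1.1 ↔ c' ∈ A.N z.1.2) :=
    funext fun z => propext ⟨fun h => ⟨h.1, h.2, h.3, h.4, h.5⟩,
      fun h => ⟨h.1, h.2.1, h.2.2.1, h.2.2.2.1, h.2.2.2.2⟩⟩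
  rw [e]
  exact (Measurable.forall fun c => (m1 c).imp (Measurable.forall fun c' => (m2 c').imp (m3 _))).and
    ((Measurable.forall fun a => Measurable.forall fun a' => Measurable.forall fun b =>
      Measurable.forall fun b' => (m3 _).imp ((m3 _).imp (m3 _))).and
    ((Measurable.forall fun c => Measurable.exists fun c' => m3 _).and
    ((Measurable.forall fun c => Measurable.exists fun c' => m3 _).and
    (Measurable.forall fun c => Measurable.forall fun c' => (m3 _).imp ((m1 c).iff (m2 c'))))))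

omit [AddCommGroup V] in
theorem meas_itw {g : ℕ → Ω → Arr V} (hg : ∀ i, Measurable (g i)) :
    Measurable fun z : (Ω × Ω) × Arr V => ∀ i, Itw (g i z.1.1) (g i z.1.2) z.2 :=
  Measurable.forall fun i => Measurable.forall fun c => Measurable.forall fun a =>
    Measurable.forall fun a' => Measurable.forall fun b' =>
      ((measurable_set_mem (c, a)).comp ((hg i).comp measurable_fst.fst)).imp
        (((measurable_set_mem (a', b')).comp ((hg i).comp measurable_fst.snd)).imp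
          (((measurable_set_mem (c, a')).comp measurable_snd).imp
            ((measurable_set_mem (a, b')).comp measurable_snd)))

omit [Countable V] in
theorem pass [Countable G] {A : Base G Ω V} {κ : Kernel Ω Ω} {w : Measure ((Ω × Ω) × Arr V)} (h : LamP A κ w)
    {P : (Ω × Ω) × Arr V → Prop} (hP : Measurable P) (hs : ∀ i z, P z → P (A.sA i 0 z))
    (hw : ∀ᵐ z ∂w, ((0 : V), (0 : V)) ∈ z.2 → P z) : ∀ᵐ z ∂(Lam A w), P z := by
  rw [ae_iff, h.nul _ (measurableSet_setOfPred.2 hP.not)]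
  intro i
  rw [ae_iff] at hw
  refine measure_mono_null (fun z hz => ?_) hw
  exact fun q => hz.2 (hs i z (q hz.1))

end LaeAux

theorem xLae : LaeS := by
  intro G Ω V _ _ _ _ _ A κ w h
  refine ⟨fun hw => LaeAux.pass h (LaeAux.meas_iso A) (fun i z q => iso_shift A q i 0) hw,
    fun g hg he hw => LaeAux.pass h (LaeAux.meas_itw hg) (fun k z q i c a a' b' h1 h2 h3 => ?_)
      (hw.mono fun z q _ => q)⟩
  simp only [Base.sA_apply, tz_zero, he i, mem_sh, sz_zero] at h1 h2 h3 ⊢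
  exact q i _ _ _ _ h1 h2 h3

end Pool.Agent.MP_154433_an.T4A

end PkLae

section PkPha

set_option autoImplicit false

open MeasureTheory ProbabilityTheory Filter Topology Set
open scoped ENNReal

namespace Pool.Agent.MP_154433_an.T4A

open T3A

theorem xPha : PhaS := by
  intro G Ω _ _ _ μ _ T κ L0 _ hE ac qi
  have := hE.markov
  obtain ⟨D0, m0, key⟩ : ∃ D0 : Set (Ω × Ω), MeasurableSet D0 ∧
      ∀ E, L0 E = 0 ↔ (μ ⊗ₘ κ) (D0 ∩ E) = 0 := by
    have mf := Measure.measurable_rnDeriv L0 (μ ⊗ₘ κ)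
    refine ⟨{z | L0.rnDeriv (μ ⊗ₘ κ) z ≠ 0}, (mf (measurableSet_singleton 0)).compl, fun E => ?_⟩
    rw [← withDensity_apply_eq_zero mf, Measure.withDensity_rnDeriv_eq _ _ ac]
  obtain ⟨D, hD⟩ : ∃ D : Set (Ω × Ω), ∀ z, z ∈ D ↔ ∃ i j, (tz T i z.1, tz T j z.2) ∈ D0 :=
    ⟨{z | ∃ i j, (tz T i z.1, tz T j z.2) ∈ D0}, fun _ => Iff.rfl⟩
  have mφ : ∀ i j, Measurable (Prod.map (tz T i) (tz T j)) := fun i j =>
    (measurable_tz T i).prodMap (measurable_tz T j)
  have mD : MeasurableSet D := by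
    have : D = ⋃ i, ⋃ j, Prod.map (tz T i) (tz T j) ⁻¹' D0 := by
      ext z
      simp only [hD, mem_iUnion]
      rfl
    rw [this]
    exact MeasurableSet.iUnion fun i => MeasurableSet.iUnion fun j => mφ i j m0
  have i1 : ∀ n y x, (tz T n y, x) ∈ D ↔ (y, x) ∈ D := fun n y x => by
    simp only [hD, ← tz_add]
    exact ⟨fun ⟨i, j, h⟩ => ⟨_, j, h⟩, fun ⟨i, j, h⟩ => ⟨i - n, j, by rwa [sub_add_cancel]⟩⟩
  have i2 : ∀ n y x, (y, tz T n x) ∈ D ↔ (y, x) ∈ D := fun n y x => by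
    simp only [hD, ← tz_add]
    exact ⟨fun ⟨i, j, h⟩ => ⟨i, _, h⟩, fun ⟨i, j, h⟩ => ⟨i, j - n, by rwa [sub_add_cancel]⟩⟩
  have e1 : ∀ᵐ z ∂(μ ⊗ₘ κ), ∀ i j, (tz T i z.1, tz T j z.2) ∈ D0 → z ∈ D0 := by
    refine ae_all_iff.2 fun i => ae_all_iff.2 fun j => ?_
    have h1 := (key _).1 (qi (-i) (-j) D0ᶜ m0.compl ((key _).2 (by simp)))
    rw [← (hE.shift i j).measure_preimage (m0.inter (mφ _ _ m0.compl)).nullMeasurableSet] at h1
    refine measure_mono_null (fun z hz => ?_) h1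
    have hz' := Classical.not_imp.1 hz
    exact ⟨hz'.1, by simpa [Prod.map] using hz'.2⟩
  obtain ⟨Ip, hI⟩ : ∃ Ip : Set Ω, ∀ y, y ∈ Ip ↔ κ y (Prod.mk y ⁻¹' D) ≠ 0 :=
    ⟨{y | κ y (Prod.mk y ⁻¹' D) ≠ 0}, fun _ => Iff.rfl⟩
  have mI : MeasurableSet Ip := by
    rw [show Ip = {y | κ y (Prod.mk y ⁻¹' D) ≠ 0} from Set.ext hI]
    exact (Kernel.measurable_kernel_prodMk_left mD (measurableSet_singleton 0)).compl
  have e2 : ∀ᵐ z ∂(μ ⊗ₘ κ), z ∈ D ↔ z.1 ∈ Ip := by
    refine (Measure.ae_compProd_iff (measurableSet_setOfPred.2 ((measurableSet_setOfPred.1 mD).iff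
      (measurableSet_setOfPred.1 (measurable_fst mI))))).2 ?_
    filter_upwards [hE.erg D mD (fun n => Set.ext fun z => i2 n z.1 z.2)] with y hy
    by_cases c : y ∈ Ip
    · filter_upwards [mem_ae_iff.2 (hy.resolve_left ((hI y).1 c))] with x hx
      exact iff_of_true hx c
    · filter_upwards [measure_eq_zero_iff_ae_notMem.1 (not_not.1 fun u => c ((hI y).2 u))] with x hx
      exact iff_of_false hx c
  have e3 : (μ ⊗ₘ κ).restrict (Ip ×ˢ univ) = (μ ⊗ₘ κ).restrict D0 := by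
    refine Measure.restrict_congr_set (eventuallyEq_set.2 ?_)
    filter_upwards [e1, e2] with z h1 h2
    rw [mem_prod, and_iff_left (mem_univ _), ← h2, hD]
    exact ⟨fun ⟨i, j, h⟩ => h1 i j h, fun h => ⟨0, 0, by simpa using h⟩⟩
  refine ⟨Ip, mI, fun n => Set.ext fun y => ?_, e3 ▸ Measure.AbsolutelyContinuous.mk fun E hE h => ?_,
    e3 ▸ Measure.AbsolutelyContinuous.mk fun E hE h => ?_⟩
  · rw [mem_preimage, hI, hI, hE.inv, show Prod.mk (tz T n y) ⁻¹' D = Prod.mk y ⁻¹' D from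
      Set.ext (i1 n y)]
  · rw [Measure.restrict_apply hE, inter_comm]
    exact (key E).1 h
  · rw [Measure.restrict_apply hE, inter_comm] at h
    exact (key E).2 h

end Pool.Agent.MP_154433_an.T4A

end PkPha

section PkPhc

set_option autoImplicit false

open MeasureTheory ProbabilityTheory Filter Topology Set
open scoped ENNReal

namespace Pool.Agent.MP_154433_an.T4A

open T3A

theorem xPhc : PhcS := by
  intro hA hB G Ω V _ _ _ _ _ A κ w hκ hL
  classical
  have := hκ.markov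
  have := hL.fin
  have hq : ∀ i j E, MeasurableSet E → (Lam A w).map Prod.fst E = 0 →
      (Lam A w).map Prod.fst (Prod.map (tz A.T i) (tz A.T j) ⁻¹' E) = 0 := by
    intro i j E hE h0
    have hm : Measurable (Prod.map (tz A.T i) (tz A.T j)) :=
      (measurable_tz A.T i).prodMap (measurable_tz A.T j)
    rw [Measure.map_apply measurable_fst hE] at h0
    rw [Measure.map_apply measurable_fst (hm hE)]
    exact hL.quasi i j _ (measurable_fst hE) h0
  obtain ⟨Ip, mI, hI, a1, a2⟩ := hA G Ω A.μ A.T κ ((Lam A w).map Prod.fst) hκ hL.ac hq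
  obtain ⟨Φ0, hM, hdis, heq0⟩ := hB (Ω × Ω) (Arr V) (Lam A w)
  have heq := fun n : G => heq0 (MeasurableEquiv.prodCongr (tzE A.T n) (tzE A.T n)) (shE A.σ n n)
    (hL.inv n)
  have ms : MeasurableSet (Ip ×ˢ (univ : Set Ω)) := mI.prod MeasurableSet.univ
  have hon : ∀ z : Ω × Ω, z.1 ∈ Ip →
      Kernel.piecewise ms Φ0 (Kernel.const _ (Measure.dirac (∅ : Arr V))) z = Φ0 z := by
    intro z hz
    rw [Kernel.piecewise_apply, if_pos ⟨hz, mem_univ _⟩]
  have hoff : ∀ z : Ω × Ω, z.1 ∉ Ip →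
      Kernel.piecewise ms Φ0 (Kernel.const _ (Measure.dirac (∅ : Arr V))) z
        = Measure.dirac (∅ : Arr V) := by
    intro z hz
    rw [Kernel.piecewise_apply, if_neg fun h => hz h.1, Kernel.const_apply]
  have hLp : Lp A κ Ip (Kernel.piecewise ms Φ0 (Kernel.const _ (Measure.dirac (∅ : Arr V))))
      = ((A.μ ⊗ₘ κ).restrict (Ip ×ˢ univ)) ⊗ₘ Φ0 := by
    unfold Lp
    refine Measure.compProd_congr ?_
    filter_upwards [ae_restrict_mem ms] with z hz
    exact hon z hz.1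
  refine ⟨Ip, Kernel.piecewise ms Φ0 (Kernel.const _ (Measure.dirac (∅ : Arr V))),
    inferInstance, mI, hI, hoff, fun n => ?_, ?_, ?_⟩
  · have h1 := (ae_restrict_iff' ms).1 (a1.ae_le (heq n))
    filter_upwards [h1] with z hz
    by_cases h : z.1 ∈ Ip
    · rw [hon z h, hon (tz A.T n z.1, tz A.T n z.2) ((mem_tz A.T hI n _).2 h)]
      exact hz ⟨h, mem_univ _⟩
    · rw [hoff z h, hoff (tz A.T n z.1, tz A.T n z.2) fun h' => h ((mem_tz A.T hI n _).1 h'),
        Measure.map_dirac' (measurable_sh A.σ n n), sh_empty]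
  · rw [hLp]
    have := a1.compProd_left Φ0
    rwa [← hdis] at this
  · rw [hLp]
    have := a2.compProd_left Φ0
    rwa [← hdis] at this

end Pool.Agent.MP_154433_an.T4A

end PkPhc

section PkF2

set_option autoImplicit false

open MeasureTheory ProbabilityTheory Filter Topology Set
open scoped ENNReal

namespace Pool.Agent.MP_154433_an.T4A

open T3A (Arr PM PM_apply measurableSet_lab)

theorem xF2 : F2S := by
  intro G Ω V J _ _ _ _ B w hF hE hw i j c11 c12 c21 c22
  let A : ℕ → Set ((ℤ × ℤ) × Ω) := fun M =>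
    {z | ¬ ((sz B.σ i c11, sz B.σ i c21) ∈ B.Sg j M z.1 z.2 ↔
      (c11, c21) ∈ B.Sg j M z.1 (tz B.T i z.2))}
  have hAd : ∀ M d, MeasurableSet (Prod.mk d ⁻¹' A M) := fun M d =>
    measurableSet_setOfPred.2 (((measurable_set_mem _).comp (B.mS j M d)).iff
      ((measurable_set_mem _).comp ((B.mS j M d).comp (measurable_tz B.T i)))).not
  have h1 := hF j (sz B.σ i c11) c12 (sz B.σ i c21) c22
  have h2 : Tendsto (fun M => B.P M (A M)) B.U (𝓝 0) := hE.eqv j i c11 c21
  have h3 := h1.add h2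
  rw [add_zero] at h3
  refine tendsto_of_tendsto_of_tendsto_of_le_of_le tendsto_const_nhds h3 (fun _ => zero_le)
    fun M => ?_
  show _ ≤ _ + PM (B.ν M) B.μ (A M)
  rw [PM_apply _ _ (measurableSet_lab (hAd M)), ← lintegral_add_left (measurable_of_countable _)]
  refine lintegral_mono fun d => ?_
  rw [Measure.map_apply (B.measurable_sA i 0) (B.cyl_flatS j M d c11 c12 c21 c22).meas, ← hw,
    Measure.map_apply measurable_fst.fst (hAd M d)]
  refine le_trans (measure_mono ?_) (measure_union_le _ _)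
  rintro a ⟨a1, a2, a3⟩
  simp only [Base.sA_apply, mem_sh, sz_zero, tz_zero] at a1 a2 a3
  by_cases h : a ∈ (fun z : (Ω × Ω) × Arr V => z.1.1) ⁻¹' (Prod.mk d ⁻¹' A M)
  · exact Or.inr h
  · refine Or.inl ⟨a1, ?_, ?_⟩
    · rw [sz_comm]
      exact a2
    · have h4 : (sz B.σ i c11, sz B.σ i c21) ∈ B.Sg j M d a.1.1 ↔
          (c11, c21) ∈ B.Sg j M d (tz B.T i a.1.1) := not_not.mp h
      rw [h4]
      exact a3

end Pool.Agent.MP_154433_an.T4A

end PkF2

section PkF3

set_option autoImplicit false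
set_option linter.unusedSectionVars false

open MeasureTheory ProbabilityTheory Filter Topology Set
open scoped ENNReal

namespace Pool.Agent.MP_154433_an.T4A

open T3A

namespace F3Aux

lemma tendsto_tsum_zero {ι α : Type} {l : Filter α} (c : ι → ℝ≥0∞) (hc : ∑' i, c i ≠ ∞)
    (a : ι → α → ℝ≥0∞) (h1 : ∀ i M, a i M ≤ 1) (h0 : ∀ i, Tendsto (a i) l (𝓝 0)) :
    Tendsto (fun M => ∑' i, c i * a i M) l (𝓝 0) := by
  rw [ENNReal.tendsto_nhds_zero]
  intro ε hε
  have h2 : 0 < ε / 2 := ENNReal.div_pos hε.ne' (by norm_num)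
  obtain ⟨s, hs⟩ :=
    (ENNReal.tendsto_nhds_zero.1 (ENNReal.tendsto_tsum_compl_atTop_zero hc) _ h2).exists
  have h3 : Tendsto (fun M => ∑ i ∈ s, c i * a i M) l (𝓝 0) := by
    have := tendsto_finsetSum s fun i _ =>
      ENNReal.Tendsto.const_mul (a := c i) (h0 i) (Or.inr (ENNReal.ne_top_of_tsum_ne_top hc i))
    simpa using this
  filter_upwards [ENNReal.tendsto_nhds_zero.1 h3 _ h2] with M hM
  rw [← ENNReal.sum_add_tsum_compl s, ← ENNReal.add_halves ε]
  refine add_le_add hM (le_trans (ENNReal.tsum_le_tsum fun i => ?_) hs)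
  exact mul_le_of_le_one_right' (h1 _ _)

end F3Aux

theorem xF3 : F3S := by
  intro G Ω V J _ _ _ _ _ B w _ h j c11 c12 c21 c22
  have hp : ∀ i, IsProbabilityMeasure (w.map (B.sA i 0)) := fun i =>
    Measure.isProbabilityMeasure_map (B.measurable_sA i 0).aemeasurable
  have hν := B.pν
  have key := F3Aux.tendsto_tsum_zero (l := (B.U : Filter ℕ)) (fun i : G => wt i)
    tsum_wt_ne_top (fun i M => ∫⁻ d : ℤ × ℤ, (w.map (B.sA i 0)) (B.flatS j M d c11 c12 c21 c22)
      ∂((B.ν M).prod (B.ν M)))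
    (fun i M => by
      refine le_trans (lintegral_mono fun d => prob_le_one) ?_
      simp)
    (fun i => h i j c11 c12 c21 c22)
  refine tendsto_of_tendsto_of_tendsto_of_le_of_le tendsto_const_nhds key
    (fun M => zero_le) fun M => ?_
  have e : ∀ i : G, wt i *
      ∫⁻ d : ℤ × ℤ, (w.map (B.sA i 0)) (B.flatS j M d c11 c12 c21 c22) ∂((B.ν M).prod (B.ν M)) =
      ∫⁻ d : ℤ × ℤ, wt i * (w.map (B.sA i 0)) (B.flatS j M d c11 c12 c21 c22)
        ∂((B.ν M).prod (B.ν M)) := fun i =>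
    (lintegral_const_mul _ (measurable_of_countable _)).symm
  simp only [e]
  rw [← lintegral_tsum fun i => (measurable_of_countable _).aemeasurable]
  refine lintegral_mono fun d => ?_
  have hm := (B.cyl_flatS j M d c11 c12 c21 c22).meas
  simp only [Lam]
  rw [Measure.sum_apply _ hm]
  refine ENNReal.tsum_le_tsum fun i => ?_
  rw [Measure.smul_apply, smul_eq_mul]
  refine mul_le_mul_right ?_ _
  exact Measure.map_mono Measure.restrict_le_self (B.measurable_sA i 0) _

end Pool.Agent.MP_154433_an.T4A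

end PkF3

section PkF4b

set_option autoImplicit false

open MeasureTheory ProbabilityTheory Filter Topology Set
open scoped ENNReal

namespace Pool.Agent.MP_154433_an.T4A

open T3A

noncomputable section

namespace F4bAux

lemma small {α : Type} [MeasurableSpace α] (P L : Measure α) [IsFiniteMeasure P]
    [IsFiniteMeasure L] (h : P ≪ L) {ε : ℝ≥0∞} (hε : ε ≠ 0) :
    ∃ δ : ℝ≥0∞, δ ≠ 0 ∧ δ ≠ ∞ ∧ ∀ E, MeasurableSet E → L E < δ → P E < ε := by
  obtain ⟨δ, h0, hδ⟩ := exists_pos_setLIntegral_lt_of_measure_lt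
    (Measure.lintegral_rnDeriv_lt_top P L).ne hε
  refine ⟨min δ 1, (lt_min h0 zero_lt_one).ne', (min_le_right _ _).trans_lt ENNReal.one_lt_top |>.ne,
    fun E hE hL => ?_⟩
  rw [← Measure.setLIntegral_rnDeriv' h hE]
  exact hδ E (hL.trans_le (min_le_left _ _))

lemma le_Lp {G Ω V : Type} [AddCommGroup G] [MeasurableSpace Ω] [AddCommGroup V] (A : Base G Ω V) (κ : Kernel Ω Ω)
    [IsMarkovKernel κ] {Ip : Set Ω} (hI : MeasurableSet Ip) (Φ : Kernel (Ω × Ω) (Arr V))
    [IsMarkovKernel Φ] (off : ∀ z : Ω × Ω, z.1 ∉ Ip → Φ z = Measure.dirac (∅ : Arr V))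
    {E : Set ((Ω × Ω) × Arr V)} (hE : MeasurableSet E) (h0 : ∀ z, (z, (∅ : Arr V)) ∉ E) :
    Lf A κ Φ E ≤ Lp A κ Ip Φ E := by
  rw [Lf, Lp, Measure.compProd_apply hE, Measure.compProd_apply hE,
    ← lintegral_indicator (hI.prod MeasurableSet.univ)]
  refine lintegral_mono fun z => ?_
  by_cases hz : z.1 ∈ Ip
  · rw [indicator_of_mem (show z ∈ Ip ×ˢ univ from ⟨hz, mem_univ _⟩)]
  · rw [off z hz, Measure.dirac_apply' _ (measurable_prodMk_left hE),
      indicator_of_notMem (show (∅ : Arr V) ∉ Prod.mk z ⁻¹' E from h0 z)]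
    exact zero_le

end F4bAux

theorem xF4b : F4S := by
  intro G Ω V J _ _ _ _ B κ _ L _ Ip Φ h hL j c11 c12 c21 c22
  have := h.markov
  have hP : IsFiniteMeasure (Lp B.toBase κ Ip Φ) := by
    unfold Lp
    infer_instance
  have hF : IsProbabilityMeasure (Lf B.toBase κ Φ) := by
    unfold Lf
    infer_instance
  refine ENNReal.tendsto_nhds_zero.2 fun ε hε => ?_
  have h2 : ε / 2 ≠ 0 := (ENNReal.half_pos hε.ne').ne'
  obtain ⟨δ, d0, d1, hδ⟩ := F4bAux.small _ L h.ac1 h2
  have h3 := ENNReal.Tendsto.const_mul (a := δ⁻¹) (hL j c11 c12 c21 c22)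
    (Or.inr (ENNReal.inv_ne_top.2 d0))
  rw [mul_zero] at h3
  filter_upwards [ENNReal.tendsto_nhds_zero.1 h3 (ε / 2) (pos_iff_ne_zero.2 h2)] with M hM
  have h4 : ∀ d : ℤ × ℤ, Lf B.toBase κ Φ (B.flatS j M d c11 c12 c21 c22) ≤
      ε / 2 + δ⁻¹ * L (B.flatS j M d c11 c12 c21 c22) := fun d => by
    have hE := (B.cyl_flatS j M d c11 c12 c21 c22).meas
    rcases lt_or_ge (L (B.flatS j M d c11 c12 c21 c22)) δ with h5 | h5
    · exact ((F4bAux.le_Lp _ κ h.mI Φ h.off hE fun z hz => hz.1).trans (hδ _ hE h5).le).trans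
        le_self_add
    · refine prob_le_one.trans (le_trans ?_ le_add_self)
      rw [← ENNReal.inv_mul_cancel d0 d1]
      exact mul_le_mul_right h5 _
  refine (lintegral_mono h4).trans ?_
  rw [lintegral_add_left measurable_const, lintegral_const, measure_univ, mul_one,
    lintegral_const_mul _ (measurable_of_countable _)]
  exact (add_le_add le_rfl hM).trans (ENNReal.add_halves ε).le

end

end Pool.Agent.MP_154433_an.T4A

end PkF4b
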