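import Pool.Agent.MP_154433_an.t4a.Spec
import Pool.Agent.MP_154433_an.t3a.Iid

/-! The algebraic step for group actions, part B3. -/

section PkIid

set_option autoImplicit false

open MeasureTheory ProbabilityTheory Filter Topology Set
open scoped ENNReal

namespace Pool.Agent.MP_154433_an.T4A

open T3A

noncomputable section

namespace IidAux

variable {G Ω Z : Type} [AddCommGroup G] [MeasurableSpace Ω] [MeasurableSpace Z]

/-- the product action, the second factor acting on all samples -/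
def TA (T : Act G Ω) (R : Act G Z) : Act G (Ω × (ℕ → Z)) where
  f n x := (T.f n x.1, fun i => R.f n (x.2 i))
  meas n := ((T.meas n).comp measurable_fst).prodMk (measurable_pi_lambda _ fun i =>
    (R.meas n).comp ((measurable_pi_apply i).comp measurable_snd))
  zero x := by simp only [T.zero, R.zero]
  add m n x := by simp only [T.add, R.add]

lemma mp_TA (μ : Measure Ω) [IsProbabilityMeasure μ] (T : Act G Ω) (R : Act G Z)
    (Ξ : Kernel Ω Z) [IsMarkovKernel Ξ] (K : Kernel Ω (ℕ → Z)) [IsMarkovKernel K]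
    (hK : ∀ y, K y = Measure.infinitePi fun _ : ℕ => Ξ y) (hT : MP T μ)
    (hΞ : ∀ n, ∀ᵐ y ∂μ, Ξ (T4A.tz T n y) = (Ξ y).map (T4A.tz R n)) : MP (TA T R) (μ ⊗ₘ K) := by
  intro n
  have hm : Measurable (T4A.tz (TA T R) n) := (TA T R).meas n
  have hRn : Measurable (T4A.tz R n) := R.meas n
  refine ⟨hm, ?_⟩
  ext s hs
  rw [Measure.map_apply hm hs, Measure.compProd_apply (hm hs), Measure.compProd_apply hs,
    ← (hT n).lintegral_comp (Kernel.measurable_kernel_prodMk_left hs)]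
  refine lintegral_congr_ae ?_
  filter_upwards [hΞ n] with y hy
  have hR : Measurable fun (x : ℕ → Z) (i : ℕ) => T4A.tz R n (x i) :=
    measurable_pi_lambda _ fun i => hRn.comp (measurable_pi_apply i)
  have h := Measure.infinitePi_map_pi (fun _ : ℕ => Ξ y) (f := fun _ : ℕ => T4A.tz R n)
    (fun _ => hRn)
  have h2 : K (T4A.tz T n y) = (K y).map fun (x : ℕ → Z) (i : ℕ) => T4A.tz R n (x i) := by
    rw [hK, hK, h]; simp only [hy]
  rw [h2, Measure.map_apply hR (measurable_prodMk_left hs)]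
  rfl

end IidAux

theorem xIid : IidS := by
  intro G Ω Z _ _ _ _ _ μ _ T R Ξ _ hT hΞ
  obtain ⟨K, hM, hK⟩ := T3A.IidAux.exists_ker Ξ
  exact ⟨μ ⊗ₘ K, IidAux.TA T R, inferInstance, fun _ _ => rfl, IidAux.mp_TA μ T R Ξ K hK hT hΞ,
    T3A.IidAux.law μ Ξ K hK, fun E hE => T3A.IidAux.hit μ Ξ K hK hE⟩

end

end Pool.Agent.MP_154433_an.T4A

end PkIid

section PkXi

set_option autoImplicit false

open MeasureTheory ProbabilityTheory Filter Topology Set
open scoped ENNReal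

namespace Pool.Agent.MP_154433_an.T4A

open T3A

namespace XiAux

variable {Ω Z : Type} [MeasurableSpace Ω] [MeasurableSpace Z]

lemma eqv (κ : Kernel Ω Ω) [IsMarkovKernel κ] (Φ : Kernel (Ω × Ω) Z) [IsMarkovKernel Φ]
    {T : Ω → Ω} {R : Z → Z} (hR : Measurable R) (y : Ω) (h1 : κ (T y) = κ y)
    (h2 : MeasurePreserving T (κ y) (κ y))
    (h3 : ∀ᵐ b ∂(κ y), Φ (T y, T b) = (Φ (y, b)).map R) :
    (κ ⊗ₖ (Φ ×ₖ Φ)) (T y) = ((κ ⊗ₖ (Φ ×ₖ Φ)) y).map (Prod.map T (Prod.map R R)) := by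
  have hm : Measurable (Prod.map T (Prod.map R R)) := h2.measurable.prodMap (hR.prodMap hR)
  ext s hs
  rw [Measure.map_apply hm hs, Kernel.compProd_apply hs, Kernel.compProd_apply (hm hs), h1,
    ← h2.lintegral_comp (Kernel.measurable_kernel_prodMk_left' hs (T y))]
  refine lintegral_congr_ae ?_
  filter_upwards [h3] with b hb
  rw [Kernel.prod_apply, Kernel.prod_apply, hb, Measure.map_prod_map _ _ hR hR,
    Measure.map_apply (hR.prodMap hR) (measurable_prodMk_left hs)]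
  rfl

lemma law1 (μ : Measure Ω) [IsProbabilityMeasure μ] (κ : Kernel Ω Ω) [IsMarkovKernel κ]
    (Φ : Kernel (Ω × Ω) Z) [IsMarkovKernel Φ] :
    (μ ⊗ₘ (κ ⊗ₖ (Φ ×ₖ Φ))).map (fun x => ((x.1, x.2.1), x.2.2.1)) = (μ ⊗ₘ κ) ⊗ₘ Φ := by
  have h : (μ ⊗ₘ κ) ⊗ₘ Φ = (μ ⊗ₘ κ) ⊗ₘ ((Φ ×ₖ Φ).map Prod.fst) := by
    rw [← Kernel.fst_eq, Kernel.fst_prod]
  rw [h, Measure.compProd_map measurable_fst, ← Measure.compProd_assoc,
    Measure.map_map (measurable_id.prodMap measurable_fst) (MeasurableEquiv.measurable _)]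
  rfl

lemma law2 (μ : Measure Ω) [IsProbabilityMeasure μ] (κ : Kernel Ω Ω) [IsMarkovKernel κ]
    (Φ : Kernel (Ω × Ω) Z) [IsMarkovKernel Φ] :
    (μ ⊗ₘ (κ ⊗ₖ (Φ ×ₖ Φ))).map (fun x => ((x.1, x.2.1), x.2.2.2)) = (μ ⊗ₘ κ) ⊗ₘ Φ := by
  have h : (μ ⊗ₘ κ) ⊗ₘ Φ = (μ ⊗ₘ κ) ⊗ₘ ((Φ ×ₖ Φ).map Prod.snd) := by
    rw [← Kernel.snd_eq, Kernel.snd_prod]
  rw [h, Measure.compProd_map measurable_snd, ← Measure.compProd_assoc,
    Measure.map_map (measurable_id.prodMap measurable_snd) (MeasurableEquiv.measurable _)]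
  rfl

lemma hit (μ : Measure Ω) [IsProbabilityMeasure μ] (κ : Kernel Ω Ω) [IsMarkovKernel κ]
    (Φ : Kernel (Ω × Ω) Z) [IsMarkovKernel Φ] {P P' : Set Z} (hP : MeasurableSet P)
    (hP' : MeasurableSet P') :
    ∀ᵐ z ∂(μ ⊗ₘ κ), Φ z P ≠ 0 → Φ z P' ≠ 0 →
      (κ ⊗ₖ (Φ ×ₖ Φ)) z.1 {x | x.2.1 ∈ P ∧ x.2.2 ∈ P'} ≠ 0 := by
  have hE : MeasurableSet {x : Ω × (Z × Z) | x.2.1 ∈ P ∧ x.2.2 ∈ P'} :=
    (measurable_snd.fst hP).inter (measurable_snd.snd hP')
  have h0 : MeasurableSet ({0}ᶜ : Set ℝ≥0∞) := (measurableSet_singleton 0).compl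
  have hm : MeasurableSet {z : Ω × Ω | Φ z P ≠ 0 → Φ z P' ≠ 0 →
      (κ ⊗ₖ (Φ ×ₖ Φ)) z.1 {x | x.2.1 ∈ P ∧ x.2.2 ∈ P'} ≠ 0} := by
    have a1 : MeasurableSet {z : Ω × Ω | Φ z P ≠ 0} := (Φ.measurable_coe hP) h0
    have a2 : MeasurableSet {z : Ω × Ω | Φ z P' ≠ 0} := (Φ.measurable_coe hP') h0
    have a3 : MeasurableSet {z : Ω × Ω |
        (κ ⊗ₖ (Φ ×ₖ Φ)) z.1 {x | x.2.1 ∈ P ∧ x.2.2 ∈ P'} ≠ 0} :=
      (((κ ⊗ₖ (Φ ×ₖ Φ)).measurable_coe hE).comp measurable_fst) h0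
    exact measurableSet_setOfPred.2 ((measurableSet_setOfPred.1 a1).imp
      ((measurableSet_setOfPred.1 a2).imp (measurableSet_setOfPred.1 a3)))
  refine Measure.ae_compProd_of_ae_ae hm (Eventually.of_forall fun a => ?_)
  by_cases h : (κ ⊗ₖ (Φ ×ₖ Φ)) a {x | x.2.1 ∈ P ∧ x.2.2 ∈ P'} = 0
  · have h' := h
    rw [Kernel.compProd_apply hE,
      lintegral_eq_zero_iff (Kernel.measurable_kernel_prodMk_left' hE a)] at h'
    filter_upwards [h'] with b hb h1 h2
    exfalso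
    have e : (Prod.mk b ⁻¹' {x : Ω × (Z × Z) | x.2.1 ∈ P ∧ x.2.2 ∈ P'}) = P ×ˢ P' := rfl
    simp only [Pi.zero_apply] at hb
    rw [e, Kernel.prod_apply, Measure.prod_prod] at hb
    exact mul_ne_zero h1 h2 hb
  · exact Eventually.of_forall fun b _ _ => h

end XiAux

theorem xXi : XiS := by
  intro G Ω V _ _ _ _ _ A κ Φ _ hκ h
  have := hκ.markov
  refine ⟨fun n => ?_, XiAux.law1 A.μ κ Φ, XiAux.law2 A.μ κ Φ,
    fun P P' hP hP' => XiAux.hit A.μ κ Φ hP hP'⟩
  filter_upwards [Measure.ae_ae_of_ae_compProd (h n), hκ.mp] with y h3 h2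
  exact XiAux.eqv κ Φ (measurable_sh A.σ n n) y (hκ.inv n y) (h2 n) h3

end Pool.Agent.MP_154433_an.T4A

end PkXi

section PkPull

set_option autoImplicit false

open MeasureTheory ProbabilityTheory Filter Topology Set
open scoped ENNReal

namespace Pool.Agent.MP_154433_an.T4A

open T3A

namespace PullAux

variable {G Y Ω V J : Type} [AddCommGroup G] [MeasurableSpace Y] [MeasurableSpace Ω] [AddCommGroup V]
  {B' : Bun G Y V J} {B : Bun G Ω V J} {p : Y → Ω}

lemma P_eq (h : Ext B' B p) (M : ℕ) {E' : Set ((ℤ × ℤ) × Y)} {E : Set ((ℤ × ℤ) × Ω)}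
    (hE : MeasurableSet E) (he : ∀ z, z ∈ E' ↔ (z.1, p z.2) ∈ E) : B'.P M E' = B.P M E := by
  have e : E' = Prod.map id p ⁻¹' E := Set.ext he
  rw [e, Bun.P, Bun.P, h.hν]
  exact ((MeasurePreserving.id _).prod h.mp).measure_preimage hE.nullMeasurableSet

lemma st_eq (h : Ext B' B p) (j : J) (d : ℤ × ℤ) : B'.st j d = B.st j d := by
  simp only [Bun.st, h.ha, h.hb]

lemma pt_eq (h : Ext B' B p) (j : J) (M : ℕ) (z : (ℤ × ℤ) × Y) :
    B.pt j M (z.1, p z.2) = proj p (B'.pt j M z) := by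
  simp only [Bun.pt, proj, h.comm, st_eq h, h.hS]

lemma Ppt (h : Ext B' B p) (j : J) (M : ℕ) {Q' : (Y × Y) × Arr V → Prop}
    {Q : (Ω × Ω) × Arr V → Prop} (hE : Measurable Q) (he : ∀ a, Q' a ↔ Q (proj p a)) :
    B'.P M (B'.pt j M ⁻¹' {a | Q' a}) = B.P M (B.pt j M ⁻¹' {a | Q a}) :=
  P_eq h M (B.measurable_pt j M (measurableSet_setOfPred.2 hE)) fun z => by
    rw [mem_preimage, mem_preimage, pt_eq h]
    exact he _

lemma nul_iff (h : Ext B' B p) {E' : ℕ → Set ((ℤ × ℤ) × Y)} {E : ℕ → Set ((ℤ × ℤ) × Ω)}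
    (he : ∀ M, B'.P M (E' M) = B.P M (E M)) : B'.Nul E' ↔ B.Nul E := by
  simp only [Bun.Nul, he, h.hU]

lemma m1 (B : Bun G Ω V J) (c : V) : Measurable fun a : (Ω × Ω) × Arr V => c ∈ B.N a.1.1 :=
  (measurableSet_setOfPred.1 (B.mN c)).comp measurable_fst.fst

lemma m2 (B : Bun G Ω V J) (c : V) : Measurable fun a : (Ω × Ω) × Arr V => c ∈ B.N a.1.2 :=
  (measurableSet_setOfPred.1 (B.mN c)).comp measurable_fst.snd

lemma m3 (q : V × V) : Measurable fun a : (Ω × Ω) × Arr V => q ∈ a.2 :=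
  (measurable_set_mem q).comp measurable_snd

lemma h0_iff [Countable V] (h : Ext B' B p) : H0 B' ↔ H0 B := by
  have e0 : Mix G B'.ν B'.U ↔ Mix G B.ν B.U := by rw [h.hν, h.hU]
  have e1 := fun j (c c' : V) => nul_iff h fun M => Ppt h j M
    (Q' := fun a => c ∈ B'.N a.1.1 ∧ c' ∈ B'.N a.1.2 ∧ ((0 : V), (0 : V)) ∈ a.2 ∧ (c, c') ∉ a.2)
    ((m1 B c).and ((m2 B c').and ((m3 ((0 : V), (0 : V))).and (m3 (c, c')).not)))
    fun a => by simp only [proj, h.hN]
  have e2 := fun j (c c' e e' : V) => nul_iff h fun M => Ppt h j M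
    (Q' := fun a => (c, c') ∈ a.2 ∧ (e, e') ∈ a.2 ∧ (c - e, c' - e') ∉ a.2)
    ((m3 (c, c')).and ((m3 (e, e')).and (m3 (c - e, c' - e')).not)) fun a => Iff.rfl
  have e3 := fun j (c c' : V) => nul_iff h fun M => Ppt h j M
    (Q' := fun a => (c, c') ∈ a.2 ∧ ¬ (c ∈ B'.N a.1.1 ↔ c' ∈ B'.N a.1.2))
    ((m3 (c, c')).and ((m1 B c).iff (m2 B c')).not) fun a => by simp only [proj, h.hN]
  have e4 := fun j (c : V) (F : Finset V) M => Ppt h j M
    (Q' := fun a => ((0 : V), (0 : V)) ∈ a.2 ∧ ∀ c' ∈ F, (c, c') ∉ a.2)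
    ((m3 ((0 : V), (0 : V))).and (Measurable.forall fun c' =>
      (measurable_const (a := c' ∈ F)).imp (m3 (c, c')).not)) fun a => Iff.rfl
  have e5 := fun j (c' : V) (F : Finset V) M => Ppt h j M
    (Q' := fun a => ((0 : V), (0 : V)) ∈ a.2 ∧ ∀ c ∈ F, (c, c') ∉ a.2)
    ((m3 ((0 : V), (0 : V))).and (Measurable.forall fun c =>
      (measurable_const (a := c ∈ F)).imp (m3 (c, c')).not)) fun a => Iff.rfl
  have e6 := fun j (n : G) (c c' : V) => nul_iff h fun M => P_eq h M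
    (E' := {z | ¬ ((sz B'.σ n c, sz B'.σ n c') ∈ B'.Sg j M z.1 z.2 ↔
      (c, c') ∈ B'.Sg j M z.1 (tz B'.T n z.2))})
    (E := {z | ¬ ((sz B.σ n c, sz B.σ n c') ∈ B.Sg j M z.1 z.2 ↔
      (c, c') ∈ B.Sg j M z.1 (tz B.T n z.2))})
    (measurableSet_lab fun d => measurableSet_setOfPred.2
      (((measurable_set_mem _).comp (B.mS j M d)).iff
        ((measurable_set_mem _).comp ((B.mS j M d).comp (measurable_tz B.T n)))).not)
    fun z => by simp only [mem_setOf_eq, h.hσ, h.hS, h.comm]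
  constructor
  · intro H
    refine ⟨e0.1 H.mix, fun j c c' => (e1 j c c').1 (H.zero j c c'),
      fun j c c' e e' => (e2 j c c' e e').1 (H.sub j c c' e e'),
      fun j c c' => (e3 j c c').1 (H.iff j c c'), fun j c ε hε => ?_, fun j c ε hε => ?_,
      fun j n c c' => (e6 j n c c').1 (H.eqv j n c c')⟩
    · simpa only [e4, h.hU] using H.totL j c ε hε
    · simpa only [e5, h.hU] using H.totR j c ε hε
  · intro H
    refine ⟨e0.2 H.mix, fun j c c' => (e1 j c c').2 (H.zero j c c'),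
      fun j c c' e e' => (e2 j c c' e e').2 (H.sub j c c' e e'),
      fun j c c' => (e3 j c c').2 (H.iff j c c'), fun j c ε hε => ?_, fun j c ε hε => ?_,
      fun j n c c' => (e6 j n c c').2 (H.eqv j n c c')⟩
    · simpa only [e4, h.hU] using H.totL j c ε hε
    · simpa only [e5, h.hU] using H.totR j c ε hε

end PullAux

open PullAux in
theorem xPull : PullS := by
  intro G Y Ω V J _ _ _ _ _ _ B' B p h
  refine ⟨h0_iff h, ?_, fun D δ => ?_, fun D K => ?_⟩
  · have e : ∀ j j' M M' d c11 c12 c21 c22,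
        B'.P M (B'.pt j' M ⁻¹' B'.flatS j M' d c11 c12 c21 c22) =
        B.P M (B.pt j' M ⁻¹' B.flatS j M' d c11 c12 c21 c22) := fun j j' M M' d c11 c12 c21 c22 =>
      Ppt h j' M (measurableSet_setOfPred.1 (B.cyl_flatS j M' d c11 c12 c21 c22).meas) fun a => by
        simp only [proj, h.hσ, st_eq h, h.hS]
    simp only [Flat, e, h.hU, h.hν]
  · have e : ∀ M, B'.P M (B'.relS D ∩
        {z | ∀ j, ((0 : V), (0 : V)) ∈ B'.Sg j M z.1 (tz B'.T (z.1.1 • D.r D.k0) z.2)}) =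
        B.P M (B.relS D ∩
        {z | ∀ j, ((0 : V), (0 : V)) ∈ B.Sg j M z.1 (tz B.T (z.1.1 • D.r D.k0) z.2)}) := fun M =>
      P_eq h M ((B.measurableSet_relS D).inter (measurableSet_lab fun d =>
        measurableSet_setOfPred.2 (Measurable.forall fun j => (measurable_set_mem _).comp
          ((B.mS j M d).comp (measurable_tz B.T (d.1 • D.r D.k0)))))) fun z => by
          simp only [Base.relS, mem_inter_iff, mem_setOf_eq, h.hσ, h.hN, h.hS, h.comm]
    simp only [Rel, e, h.hU]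
  · have e : ∀ n c c', B'.μ (B'.decS n c c') = B.μ (B.decS n c c') := fun n c c' => by
      rw [← h.mp.measure_preimage (B.measurableSet_decS n c c').nullMeasurableSet]
      congr 1
      ext y
      simp only [Base.decS, mem_preimage, mem_setOf_eq, h.hσ, h.hN]
    simp only [Base.Dec, e]

end Pool.Agent.MP_154433_an.T4A

end PkPull

section PkPush

set_option autoImplicit false

open MeasureTheory ProbabilityTheory Filter Topology Set
open scoped ENNReal

namespace Pool.Agent.MP_154433_an.T4A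

open T3A

noncomputable section

namespace PushAux

/-- the shift of the time coordinate -/
def shf (G I : Type) [AddCommGroup G] : Act G (Set (G × I)) where
  f m ω := {a | (a.1 + m, a.2) ∈ ω}
  meas _ := measurable_set_iff.2 fun _ => measurable_set_mem _
  zero ω := by ext a; simp
  add m n ω := by ext a; simp [add_assoc]

variable {G X V J : Type} [AddCommGroup G] [MeasurableSpace X] [AddCommGroup V]

/-- the names of the points -/
def nm {I : Type} (T : Act G X) (A : I → Set X) (x : X) : Set (G × I) := {a | tz T a.1 x ∈ A a.2}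

lemma measurable_nm {I : Type} (T : Act G X) {A : I → Set X} (hA : ∀ i, MeasurableSet (A i)) :
    Measurable (nm T A) :=
  measurable_set_iff.2 fun a => measurableSet_setOfPred.1 (measurable_tz T a.1 (hA a.2))

lemma nm_T {I : Type} (T : Act G X) (A : I → Set X) (n : G) (x : X) :
    nm T A (tz T n x) = tz (shf G I) n (nm T A x) := by
  ext a
  show tz T a.1 (tz T n x) ∈ A a.2 ↔ tz T (a.1 + n) x ∈ A a.2
  rw [tz_add]

/-- names that describe an equivariant family of subgroups -/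
def Good (σ : VAct G V) (ω : Set (G × (V ⊕ J))) : Prop := ∀ n : G, (n, Sum.inl 0) ∈ ω ∧
  (∀ c c', (n, Sum.inl c) ∈ ω → (n, Sum.inl c') ∈ ω → (n, Sum.inl (c + c')) ∈ ω) ∧
  (∀ c, (n, Sum.inl c) ∈ ω → (n, Sum.inl (-c)) ∈ ω) ∧
  ∀ m c, (n, Sum.inl (sz σ m c)) ∈ ω ↔ (m + n, Sum.inl c) ∈ ω

lemma good_tz (σ : VAct G V) (k : G) {ω : Set (G × (V ⊕ J))} (h : Good σ ω) :
    Good σ (tz (shf G _) k ω) := fun n =>
  ⟨(h (n + k)).1, (h (n + k)).2.1, (h (n + k)).2.2.1, fun m c => by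
    show (n + k, Sum.inl (sz σ m c)) ∈ ω ↔ (m + n + k, Sum.inl c) ∈ ω
    rw [add_assoc]
    exact (h (n + k)).2.2.2 m c⟩

lemma good_shf (σ : VAct G V) (k : G) (ω : Set (G × (V ⊕ J))) :
    Good σ (tz (shf G _) k ω) ↔ Good σ ω :=
  ⟨fun h => by simpa using good_tz σ (-k) h, good_tz σ k⟩

lemma measurable_good [Countable G] [Countable V] (σ : VAct G V) : Measurable (Good (J := J) σ) :=
  Measurable.forall fun _ => (measurable_set_mem _).and
    ((Measurable.forall fun _ => Measurable.forall fun _ => (measurable_set_mem _).imp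
      ((measurable_set_mem _).imp (measurable_set_mem _))).and
    ((Measurable.forall fun _ => (measurable_set_mem _).imp (measurable_set_mem _)).and
      (Measurable.forall fun _ => Measurable.forall fun _ =>
        (measurable_set_mem _).iff (measurable_set_mem _))))

/-- the subgroup read off from a name -/
def sub (σ : VAct G V) (ω : Set (G × (V ⊕ J))) : AddSubgroup V where
  carrier := {c | Good σ ω → (0, Sum.inl c) ∈ ω}
  add_mem' ha hb g := (g 0).2.1 _ _ (ha g) (hb g)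
  zero_mem' g := (g 0).1
  neg_mem' ha g := (g 0).2.2.1 _ (ha g)

lemma sub_eqz (σ : VAct G V) (n : G) (c : V) (ω : Set (G × (V ⊕ J))) :
    sz σ n c ∈ sub σ ω ↔ c ∈ sub σ (tz (shf G _) n ω) := by
  show (Good σ ω → (0, Sum.inl (sz σ n c)) ∈ ω) ↔
    (Good σ (tz (shf G _) n ω) → (0 + n, Sum.inl c) ∈ ω)
  rw [good_shf, add_comm]
  exact ⟨fun h g => ((g 0).2.2.2 n c).1 (h g), fun h g => ((g 0).2.2.2 n c).2 (h g)⟩

end PushAux

open PushAux in
theorem xPush : PushS := by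
  intro G X V J _ _ _ _ _ _ B'
  let A : V ⊕ (J × ℕ × (ℤ × ℤ) × (V × V)) → Set X :=
    Sum.elim (fun c => {x | c ∈ B'.N x}) fun e => {x | e.2.2.2 ∈ B'.Sg e.1 e.2.1 e.2.2.1 x}
  have hA : ∀ i, MeasurableSet (A i) := by
    rintro (c | e)
    exacts [B'.mN c, measurableSet_memA (B'.mS _ _ _) _]
  have hp := measurable_nm B'.T hA
  have gd : ∀ x, Good B'.σ (nm B'.T A x) := fun x n =>
    ⟨(B'.N _).zero_mem, fun _ _ => (B'.N _).add_mem, fun _ => (B'.N _).neg_mem, fun m c => by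
      show sz B'.σ m c ∈ B'.N (tz B'.T n x) ↔ c ∈ B'.N (tz B'.T (m + n) x)
      rw [B'.eqz, tz_add]⟩
  refine ⟨Set (G × (V ⊕ (J × ℕ × (ℤ × ℤ) × (V × V)))), inferInstance, inferInstance,
    { μ := B'.μ.map (nm B'.T A)
      prob := Measure.isProbabilityMeasure_map hp.aemeasurable
      T := shf G _
      mp := fun n => ⟨measurable_tz _ n, ?_⟩
      σ := B'.σ
      N := sub B'.σ
      mN := fun c => measurableSet_setOfPred.2 ((measurable_good B'.σ).imp (measurable_set_mem _))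
      eqz := sub_eqz B'.σ
      ν := B'.ν
      pν := B'.pν
      U := B'.U
      a := B'.a
      b := B'.b
      Sg := fun j M d ω => {q | (0, Sum.inr (j, M, d, q)) ∈ ω}
      mS := fun j M d => measurable_set_iff.2 fun _ => measurable_set_mem _ }, nm B'.T A,
    ⟨hp, rfl⟩, nm_T _ _, rfl, fun y => ?_, rfl, rfl, rfl, rfl, fun j M d y => ?_⟩
  · rw [Measure.map_map (measurable_tz _ n) hp,
      show tz (shf G _) n ∘ nm B'.T A = nm B'.T A ∘ tz B'.T n from
        funext fun x => (nm_T _ _ n x).symm,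
      ← Measure.map_map hp (measurable_tz _ n), (B'.mp n).map_eq]
  · ext c
    show _ ↔ (Good B'.σ (nm B'.T A y) → c ∈ B'.N (tz B'.T 0 y))
    rw [tz_zero]
    exact ⟨fun h _ => h, fun h => h (gd y)⟩
  · ext q
    show _ ↔ q ∈ B'.Sg j M d (tz B'.T 0 y)
    rw [tz_zero]

end

end Pool.Agent.MP_154433_an.T4A

end PkPush

section PkInt

set_option autoImplicit false

open MeasureTheory ProbabilityTheory Filter Topology Set
open scoped ENNReal

namespace Pool.Agent.MP_154433_an.T4A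

open T3A

namespace IntAux

variable {G Y Ω V J : Type} [AddCommGroup G] [MeasurableSpace Y] [MeasurableSpace Ω]
  [AddCommGroup V]

theorem null {B' : Bun G Y V J} {B : Bun G Ω V J} {p : Y → Ω} {κ : Kernel Ω Ω}
    {Φ : Kernel (Ω × Ω) (Arr V)} {e : ℕ → Y → Ω} {S S' : ℕ → Y → Arr V} {j : J}
    {w' : Measure ((Y × Y) × Arr V)} (h : Smp B' B p κ Φ e S S')
    (hF : FlatM B (Lf B.toBase κ Φ)) (hw : IsLim B' j w') (i : ℕ) (c a a' b' e0 e1 : V) :
    w' {z | (c, e0) ∈ S i z.1.1 ∧ (a, e0) ∈ S' i z.1.1 ∧ (a', e1) ∈ S i z.1.2 ∧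
      (b', e1) ∈ S' i z.1.2 ∧ (c, a') ∈ z.2 ∧ ¬ (a, b') ∈ z.2} = 0 := by
  have hE : Cyl {z : (Y × Y) × Arr V | (c, e0) ∈ S i z.1.1 ∧ (a, e0) ∈ S' i z.1.1 ∧
      (a', e1) ∈ S i z.1.2 ∧ (b', e1) ∈ S' i z.1.2 ∧ (c, a') ∈ z.2 ∧ ¬ (a, b') ∈ z.2} :=
    (Cyl.fst _ (measurableSet_memA (h.mS i) (c, e0))).and
      ((Cyl.fst _ (measurableSet_memA (h.mS' i) (a, e0))).and
        ((Cyl.snd _ (measurableSet_memA (h.mS i) (a', e1))).and
          ((Cyl.snd _ (measurableSet_memA (h.mS' i) (b', e1))).and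
            ((Cyl.mem _).and (Cyl.mem _).not))))
  have h1 := hw.2 _ hE
  have h2 := (hF j c e0 a' e1).add (hF j a e0 b' e1)
  rw [add_zero, ← h.ext.hU] at h2
  refine le_antisymm (le_of_tendsto_of_tendsto' h1 h2 fun M => ?_) zero_le
  rw [← lintegral_add_left (measurable_of_countable _)]
  unfold Bun.P
  rw [PM_apply _ _ (B'.measurable_pt j M hE.meas), h.ext.hν]
  refine lintegral_mono fun d => ?_
  have m1 : Measurable fun y => ((p y, e i y), S i y) :=
    (h.ext.mp.measurable.prodMk (h.me i)).prodMk (h.mS i)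
  have m2 : Measurable fun y => ((p y, e i y), S' i y) :=
    (h.ext.mp.measurable.prodMk (h.me i)).prodMk (h.mS' i)
  have e1' := Measure.map_apply (μ := B'.μ) m1 (B.cyl_flatS j M d c e0 a' e1).meas
  have e2' := Measure.map_apply (μ := B'.μ) m2 (B.cyl_flatS j M d a e0 b' e1).meas
  rw [h.law i] at e1'
  rw [h.law' i] at e2'
  beta_reduce
  rw [e1', e2']
  refine le_trans (measure_mono fun y hy => ?_) (measure_union_le _ _)
  obtain ⟨a1, a2, a3, a4, a5, a6⟩ := hy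
  have hst : B'.st j d = B.st j d := by unfold Bun.st; rw [h.ext.ha, h.ext.hb]
  change (a', e1) ∈ S i (tz B'.T (B'.st j d) y) at a3
  change (b', e1) ∈ S' i (tz B'.T (B'.st j d) y) at a4
  change (c, a') ∈ B'.Sg j M d y at a5
  change (a, b') ∉ B'.Sg j M d y at a6
  rw [h.eqv, hst] at a3
  rw [h.eqv', hst] at a4
  rw [h.ext.hS] at a5 a6
  by_cases hc : (e0, e1) ∈ B.Sg j M d (e i y)
  · exact Or.inr ⟨a2, a4, fun q => a6 (q.2 hc)⟩
  · exact Or.inl ⟨a1, a3, fun q => hc (q.1 a5)⟩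

end IntAux

theorem xInt : IntS := by
  intro G Y Ω V J _ _ _ _ _ B' B p κ Φ e S S' j w' h hF hw
  have key : ∀ᵐ z ∂w', ∀ (i : ℕ) (c a a' b' e0 e1 : V),
      ¬ ((c, e0) ∈ S i z.1.1 ∧ (a, e0) ∈ S' i z.1.1 ∧ (a', e1) ∈ S i z.1.2 ∧
        (b', e1) ∈ S' i z.1.2 ∧ (c, a') ∈ z.2 ∧ ¬ (a, b') ∈ z.2) := by
    simp only [ae_all_iff]
    intro i c a a' b' e0 e1
    exact measure_eq_zero_iff_ae_notMem.1 (IntAux.null h hF hw i c a a' b' e0 e1)
  unfold ItwW
  filter_upwards [key] with z hz i c a a' b' ⟨e0, h1, h2⟩ ⟨e1, h3, h4⟩ h5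
  by_contra h6
  exact hz i c a a' b' e0 e1 ⟨h1, h2, h3, h4, h5, h6⟩

end Pool.Agent.MP_154433_an.T4A

end PkInt

section PkPrj

set_option autoImplicit false
set_option linter.unusedVariables false
set_option linter.unusedSectionVars false

open MeasureTheory ProbabilityTheory Filter Topology Set
open scoped ENNReal

namespace Pool.Agent.MP_154433_an.T4A

open T3A

namespace PrjAux

variable {G Y Ω V J : Type} [AddCommGroup G] [MeasurableSpace Y] [MeasurableSpace Ω]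
  [AddCommGroup V]

theorem sA {B' : Bun G Y V J} {B : Bun G Ω V J} {p : Y → Ω} (h : Ext B' B p) (i j : G)
    (z : (Y × Y) × Arr V) : proj p (B'.sA i j z) = B.sA i j (proj p z) := by
  simp only [Base.sA_apply, proj, h.hσ, h.comm]

theorem wmap {μ' : Measure Y} [IsProbabilityMeasure μ'] {μ : Measure Ω} [IsProbabilityMeasure μ]
    {p : Y → Ω} (hp : MeasurePreserving p μ' μ) (K' : Kernel Y (Y × Arr V)) [IsMarkovKernel K']
    (K : Kernel Ω (Ω × Arr V)) [IsMarkovKernel K] (hK : PrK μ' p K' K)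
    {E : Set ((Ω × Ω) × Arr V)} (hE : MeasurableSet E) :
    wOf μ' K' (proj p ⁻¹' E) = wOf μ K E := by
  have hm := hp.measurable
  have hpr : Measurable (proj p : (Y × Y) × Arr V → (Ω × Ω) × Arr V) := measurable_proj hm
  have hE1 : MeasurableSet ((fun x : Ω × (Ω × Arr V) => ((x.1, x.2.1), x.2.2)) ⁻¹' E) :=
    measurable_wOf hE
  unfold wOf
  rw [Measure.map_apply measurable_wOf (hpr hE), Measure.map_apply measurable_wOf hE,
    Measure.compProd_apply (measurable_wOf (hpr hE)), Measure.compProd_apply hE1,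
    ← hp.lintegral_comp (Kernel.measurable_kernel_prodMk_left hE1)]
  refine lintegral_congr_ae (hK.mono fun y hy => ?_)
  simp only
  rw [← hy, Measure.map_apply (hm.prodMap measurable_id) (measurable_prodMk_left hE1)]
  rfl

end PrjAux

theorem xPrj : PrjS := by
  intro G Y Ω V J _ _ _ _ _ _ B' B p κ' κ K' _ K _ h hK hL' hL E hE h0
  have hpr : Measurable (proj p : (Y × Y) × Arr V → (Ω × Ω) × Arr V) :=
    measurable_proj h.mp.measurable
  refine (hL'.nul _ (hpr hE)).2 fun i => ?_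
  have h2 := (hL.nul E hE).1 h0 i
  rw [← PrjAux.wmap h.mp K' K hK ((measurableSet_memA measurable_snd _).inter
    (B.measurable_sA i 0 hE))] at h2
  rw [← h2]
  refine congrArg _ ?_
  ext z
  simp only [mem_inter_iff, mem_preimage, PrjAux.sA h]
  rfl

end Pool.Agent.MP_154433_an.T4A

end PkPrj

section PkG5

/-! The loops of the sample extension: isomorphisms over `Ip`, empty elsewhere. -/

set_option autoImplicit false
set_option linter.unusedVariables false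

open MeasureTheory ProbabilityTheory Filter Topology Set
open scoped ENNReal

namespace Pool.Agent.MP_154433_an.T4A

open T3A

namespace G5Aux

lemma cp_restrict {X Z : Type} [MeasurableSpace X] [MeasurableSpace Z] (ν : Measure X)
    [SFinite ν] (Φ : Kernel X Z) [IsMarkovKernel Φ] {s : Set X} (hs : MeasurableSet s) :
    (ν.restrict s) ⊗ₘ Φ = (ν ⊗ₘ Φ).restrict (s ×ˢ univ) := by
  ext t ht
  rw [Measure.restrict_apply ht, Measure.compProd_apply ht,
    Measure.compProd_apply (ht.inter (hs.prod MeasurableSet.univ)), ← lintegral_indicator hs]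
  refine lintegral_congr fun a => ?_
  by_cases ha : a ∈ s
  · rw [indicator_of_mem ha]
    congr 1
    ext b
    simp [ha]
  · rw [indicator_of_notMem ha]
    have : Prod.mk a ⁻¹' (t ∩ s ×ˢ (univ : Set Z)) = ∅ := by
      ext b
      simp [ha]
    rw [this, measure_empty]

variable {G Ω V : Type} [AddCommGroup G] [MeasurableSpace Ω] [AddCommGroup V]

lemma mass (A : Base G Ω V) (κ : Kernel Ω Ω) [IsMarkovKernel κ] (Ip : Set Ω)
    (hI : MeasurableSet Ip) (Φ : Kernel (Ω × Ω) (Arr V)) [IsMarkovKernel Φ] {D : Set Ω}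
    (hD : MeasurableSet D) : Lp A κ Ip Φ {z | z.1.1 ∈ D} = A.μ (D ∩ Ip) := by
  have h1 : ({z | z.1.1 ∈ D} : Set ((Ω × Ω) × Arr V)) = (D ×ˢ univ) ×ˢ univ := by
    ext z
    simp
  rw [Lp, h1, Measure.compProd_apply_prod (hD.prod MeasurableSet.univ) MeasurableSet.univ]
  simp only [measure_univ, lintegral_const, one_mul]
  rw [Measure.restrict_apply MeasurableSet.univ, univ_inter,
    Measure.restrict_apply (hD.prod MeasurableSet.univ), prod_inter_prod, univ_inter,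
    Measure.compProd_apply_prod (hD.inter hI) MeasurableSet.univ]
  simp

lemma iso_loop {N N' : AddSubgroup V} {S S' : Arr V} (h : Iso N N' S) (h' : Iso N N' S') :
    Iso N N (loop S S') where
  zero c hc c' hc' := ⟨0, h.zero c hc 0 N'.zero_mem, h'.zero c' hc' 0 N'.zero_mem⟩
  sub a a' b b' := fun ⟨e, h1, h2⟩ ⟨f, h3, h4⟩ =>
    ⟨e - f, h.sub _ _ _ _ h1 h3, h'.sub _ _ _ _ h2 h4⟩
  totL c := by
    obtain ⟨e, h1⟩ := h.totL c
    obtain ⟨c', h2⟩ := h'.totR e
    exact ⟨c', e, h1, h2⟩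
  totR c' := by
    obtain ⟨e, h2⟩ := h'.totL c'
    obtain ⟨c, h1⟩ := h.totR e
    exact ⟨c, e, h1, h2⟩
  iff c c' := fun ⟨e, h1, h2⟩ => (h.iff _ _ h1).trans (h'.iff _ _ h2).symm

lemma off_ae [Countable V] (A : Base G Ω V) (κ : Kernel Ω Ω) [IsMarkovKernel κ]
    {L : Measure ((Ω × Ω) × Arr V)} {Ip : Set Ω} {Φ : Kernel (Ω × Ω) (Arr V)}
    (hP : PhiD A κ L Ip Φ) : ∀ᵐ z ∂(Lf A κ Φ), z.1.1 ∉ Ip → ∀ q, q ∉ z.2 := by
  have := hP.markov
  have h : ∀ q : V × V, ∀ᵐ z ∂(Lf A κ Φ), z.1.1 ∈ Ip ∨ q ∉ z.2 := fun q => by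
    have hm : MeasurableSet {z : (Ω × Ω) × Arr V | z.1.1 ∈ Ip ∨ q ∉ z.2} :=
      (measurable_fst.fst hP.mI).union (measurableSet_memA measurable_snd q).compl
    refine (Measure.ae_compProd_iff hm).2 (Eventually.of_forall fun a => ?_)
    by_cases ha : a.1 ∈ Ip
    · exact Eventually.of_forall fun _ => Or.inl ha
    · rw [hP.off a ha]
      exact (ae_dirac_iff (measurable_prodMk_left hm)).2 (Or.inr fun h => h)
  filter_upwards [ae_all_iff.2 h] with z hz hI q
  exact (hz q).resolve_left hI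

end G5Aux

open G5Aux in
theorem xG5 : G5S := by
  intro G Y Ω V J _ _ _ _ _ B' B p κ _ L Ip Φ e S S' hS hP hiso
  have := hP.markov
  have hp := hS.ext.mp.measurable
  have h2 : ∀ᵐ z ∂(Lf B.toBase κ Φ), z.1.1 ∈ Ip → Iso (B.N z.1.1) (B.N z.1.2) z.2 := by
    have h3 := hP.ac1.ae_le hiso
    rw [Lp, cp_restrict _ _ (hP.mI.prod MeasurableSet.univ)] at h3
    have h4 := (ae_restrict_iff' ((hP.mI.prod MeasurableSet.univ).prod MeasurableSet.univ)).1 h3
    filter_upwards [h4] with z hz hI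
    exact hz ⟨⟨hI, trivial⟩, trivial⟩
  have h5 : ∀ i, ∀ᵐ y ∂B'.μ, p y ∈ Ip → Iso (B.N (p y)) (B.N (e i y)) (S i y) := fun i =>
    ae_of_ae_map ((hp.prodMk (hS.me i)).prodMk (hS.mS i)).aemeasurable (by rwa [hS.law i])
  have h6 : ∀ i, ∀ᵐ y ∂B'.μ, p y ∈ Ip → Iso (B.N (p y)) (B.N (e i y)) (S' i y) := fun i =>
    ae_of_ae_map ((hp.prodMk (hS.me i)).prodMk (hS.mS' i)).aemeasurable (by rwa [hS.law' i])
  have h0 := off_ae B.toBase κ hP
  have h7 : ∀ i, ∀ᵐ y ∂B'.μ, p y ∉ Ip → ∀ q, q ∉ S i y := fun i =>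
    ae_of_ae_map ((hp.prodMk (hS.me i)).prodMk (hS.mS i)).aemeasurable (by rwa [hS.law i])
  filter_upwards [ae_all_iff.2 h5, ae_all_iff.2 h6, ae_all_iff.2 h7] with y a2 a3 a4
  refine ⟨fun hI i => ?_, fun hI i => ?_⟩
  · rw [hS.ext.hN]
    exact iso_loop (a2 i hI) (a3 i hI)
  · exact eq_empty_of_forall_notMem fun q ⟨c, h1, _⟩ => a4 i hI _ h1

open G5Aux in
theorem xG3 : G3S := by
  intro G Y Ω V J _ _ _ _ _ B' B p κ' _ κ _ L' L Ip' Ip Φ' Φ hp hP' hP hpr
  have := hP.markov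
  have := hP'.markov
  have h1 : B'.μ (p ⁻¹' Ipᶜ ∩ Ip') = 0 := by
    rw [← mass B'.toBase κ' Ip' hP'.mI Φ' (hp hP.mI.compl)]
    refine hP'.ac1 (hpr {z | z.1.1 ∈ Ipᶜ} (measurable_fst.fst hP.mI.compl) (hP.ac2 ?_))
    rw [mass B.toBase κ Ip hP.mI Φ hP.mI.compl]
    simp
  filter_upwards [measure_eq_zero_iff_ae_notMem.1 h1] with y a1 hy
  by_contra h
  exact a1 ⟨h, hy⟩

end Pool.Agent.MP_154433_an.T4A

end PkG5

section PkG4

set_option autoImplicit false

open MeasureTheory ProbabilityTheory Filter Topology Set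
open scoped ENNReal

namespace Pool.Agent.MP_154433_an.T4A

open T3A

namespace G4Aux

lemma meas2 {V : Type} (a b : V × V) : MeasurableSet {R : Arr V | a ∈ R ∧ b ∈ R} :=
  (measurableSet_memA measurable_id a).inter (measurableSet_memA measurable_id b)

lemma measE {X V : Type} [MeasurableSpace X] (Φ : Kernel X (Arr V)) (a b : V × V) :
    MeasurableSet {z : X × Arr V | (a ∈ z.2 ∧ b ∈ z.2) ∧ Φ z.1 {R | a ∈ R ∧ b ∈ R} = 0} :=
  (measurable_snd (meas2 a b)).inter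
    (((Φ.measurable_coe (meas2 a b)).comp measurable_fst) (measurableSet_singleton 0))

lemma nullE {X V : Type} [MeasurableSpace X] (m : Measure X) [SFinite m] (Φ : Kernel X (Arr V))
    [IsMarkovKernel Φ] (a b : V × V) :
    (m ⊗ₘ Φ) {z : X × Arr V | (a ∈ z.2 ∧ b ∈ z.2) ∧ Φ z.1 {R | a ∈ R ∧ b ∈ R} = 0} = 0 := by
  rw [Measure.compProd_apply (measE Φ a b)]
  refine (lintegral_congr fun x => ?_).trans lintegral_zero
  by_cases h : Φ x {R | a ∈ R ∧ b ∈ R} = 0
  · exact measure_mono_null (fun R hR => hR.1) h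
  · exact measure_mono_null (fun R hR => (h hR.2).elim) measure_empty

end G4Aux

theorem xG4 : G4S := by
  intro G Y Ω V J _ _ _ _ _ B' B p κ' _ κ _ L' L Ip' Ip Φ' Φ e S S' hS h' h hL hm
  have hp : Measurable p := hS.ext.mp.measurable
  have := h.markov
  refine ⟨?_, ?_⟩
  · have key : ∀ a b : V × V, ∀ᵐ z ∂(Lp B'.toBase κ' Ip' Φ'), a ∈ z.2 → b ∈ z.2 →
        Φ (p z.1.1, p z.1.2) {R | a ∈ R ∧ b ∈ R} ≠ 0 := fun a b => by
      have h0 := h'.ac1 (hL _ (G4Aux.measE Φ a b) (h.ac2 (G4Aux.nullE _ Φ a b)))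
      filter_upwards [measure_eq_zero_iff_ae_notMem.1 h0] with z hz ha hb h1
      exact hz ⟨⟨ha, hb⟩, h1⟩
    filter_upwards [ae_all_iff.2 fun a => ae_all_iff.2 fun b => key a b] with z hz a ha b hb
    exact hz a b ha hb
  · refine ae_all_iff.2 fun a => ae_all_iff.2 fun b => ae_all_iff.2 fun a' =>
      ae_all_iff.2 fun b' => ?_
    obtain ⟨D, h1, h2⟩ := hS.hit _ _ (G4Aux.meas2 a b) (G4Aux.meas2 a' b')
    rw [← hm] at h1
    have h3 := ae_of_ae_map (hp.prodMap hp).aemeasurable h1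
    rw [← Measure.fst_compProd B'.μ κ'] at h2
    have h4 := ae_of_ae_map measurable_fst.aemeasurable h2
    filter_upwards [h3, h4] with z h5 h6 u v ea eb
    obtain ⟨i, w1, w2⟩ := h6 (h5 u v)
    exact ⟨i, ⟨a.2, w1.1, ea ▸ w2.1⟩, ⟨b.2, w1.2, eb ▸ w2.2⟩⟩

end Pool.Agent.MP_154433_an.T4A

end PkG4

section PkRli

set_option autoImplicit false

open MeasureTheory ProbabilityTheory Filter Topology Set
open scoped ENNReal

namespace Pool.Agent.MP_154433_an.T4A

open T3A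

namespace RliAux

variable {G Ω V J : Type} [AddCommGroup G] [MeasurableSpace Ω] [AddCommGroup V]

theorem lp_off (A : Base G Ω V) (κ : Kernel Ω Ω) [IsMarkovKernel κ] {Ip : Set Ω}
    (hI : MeasurableSet Ip) (Φ : Kernel (Ω × Ω) (Arr V)) [IsMarkovKernel Φ] :
    Lp A κ Ip Φ {a | a.1.1 ∉ Ip} = 0 := by
  have e : {a : (Ω × Ω) × Arr V | a.1.1 ∉ Ip} = (Ipᶜ ×ˢ univ) ×ˢ univ := by
    ext a
    simp
  have h : MeasurableSet (Ipᶜ ×ˢ (univ : Set Ω)) := hI.compl.prod MeasurableSet.univ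
  rw [e, Lp, Measure.compProd_apply_prod h MeasurableSet.univ]
  refine setLIntegral_measure_zero _ _ ?_
  rw [Measure.restrict_apply h, prod_inter_prod, compl_inter_self, empty_prod, measure_empty]

/-- the weight of the nonempty arrows with source in `S` -/
theorem wOf_src (μ : Measure Ω) [IsProbabilityMeasure μ] (K : Kernel Ω (Ω × Arr V))
    [IsMarkovKernel K] {S : Set Ω} (hS : MeasurableSet S) :
    wOf μ K {z | ((0 : V), (0 : V)) ∈ z.2 ∧ z.1.1 ∈ S} =
      ∫⁻ y in S, K y {x | ((0 : V), (0 : V)) ∈ x.2} ∂μ := by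
  have h1 : MeasurableSet {z : (Ω × Ω) × Arr V | ((0 : V), (0 : V)) ∈ z.2 ∧ z.1.1 ∈ S} :=
    ((Cyl.mem ((0 : V), (0 : V))).and (Cyl.fst _ hS)).meas
  have h2 : MeasurableSet {x : Ω × Arr V | ((0 : V), (0 : V)) ∈ x.2} :=
    measurableSet_memA measurable_snd _
  have e : (fun x : Ω × (Ω × Arr V) => ((x.1, x.2.1), x.2.2)) ⁻¹'
      {z : (Ω × Ω) × Arr V | ((0 : V), (0 : V)) ∈ z.2 ∧ z.1.1 ∈ S} =
      S ×ˢ {x : Ω × Arr V | ((0 : V), (0 : V)) ∈ x.2} := by
    ext x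
    exact and_comm
  rw [wOf, Measure.map_apply measurable_wOf h1, e, Measure.compProd_apply_prod hS h2]

theorem shift (B : Bun G Ω V J) (M : ℕ) (E : ℤ × ℤ → Set Ω) (hE : ∀ d, MeasurableSet (E d))
    (n : ℤ × ℤ → G) :
    B.P M {z | tz B.T (n z.1) z.2 ∈ E z.1} = B.P M {z | z.2 ∈ E z.1} := by
  have h1 : MeasurableSet {z : (ℤ × ℤ) × Ω | tz B.T (n z.1) z.2 ∈ E z.1} :=
    measurableSet_lab fun d => measurable_tz B.T (n d) (hE d)
  have h2 : MeasurableSet {z : (ℤ × ℤ) × Ω | z.2 ∈ E z.1} := measurableSet_lab fun d => hE d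
  rw [Bun.P, PM_apply _ _ h1, PM_apply _ _ h2]
  refine lintegral_congr fun d => ?_
  exact (B.mp (n d)).measure_preimage (hE d).nullMeasurableSet

theorem snd_null (B : Bun G Ω V J) (M : ℕ) {N : Set Ω} (hN : MeasurableSet N) (h : B.μ N = 0) :
    B.P M {z | z.2 ∈ N} = 0 := by
  have h1 : MeasurableSet {z : (ℤ × ℤ) × Ω | z.2 ∈ N} := measurable_snd hN
  rw [Bun.P, PM_apply _ _ h1]
  have e : ∀ d : ℤ × ℤ, B.μ (Prod.mk d ⁻¹' {z : (ℤ × ℤ) × Ω | z.2 ∈ N}) = 0 := fun _ => h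
  simp only [e, lintegral_zero]

end RliAux

theorem xRli : RliS := by
  intro G Ω V J _ _ _ _ _ _ B κ _ K _ K0 _ Ip Φ D δ hw h0 hL hΦ hδ hR
  have := hΦ.markov
  have h1 := (hL.nul _ (measurable_fst.fst hΦ.mI.compl)).1
    (hΦ.ac2 (RliAux.lp_off B.toBase κ hΦ.mI Φ)) 0
  have e : ({z | ((0 : V), (0 : V)) ∈ z.2} ∩ B.toBase.sA 0 0 ⁻¹'
      ((fun z : (Ω × Ω) × Arr V => z.1.1) ⁻¹' Ipᶜ)) =
      {z | ((0 : V), (0 : V)) ∈ z.2 ∧ z.1.1 ∈ Ipᶜ} := by
    ext z
    simp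
  rw [e, RliAux.wOf_src _ _ hΦ.mI.compl,
    setLIntegral_eq_zero_iff hΦ.mI.compl (K0.measurable_coe (measurableSet_memA measurable_snd _))]
    at h1
  have hN : MeasurableSet {y | (∀ j, y ∈ Sup (K j)) ∧ y ∉ Ip} := by
    have : MeasurableSet (⋂ j, Sup (K j)) := MeasurableSet.iInter fun j => measurableSet_Sup _
    convert this.inter hΦ.mI.compl using 1
    ext y
    simp
  have hN0 : B.μ {y | (∀ j, y ∈ Sup (K j)) ∧ y ∉ Ip} = 0 := by
    rw [measure_eq_zero_iff_ae_notMem]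
    filter_upwards [h0, h1] with y a b c
    exact a c.1 (b c.2)
  have h2 : ∀ j, Tendsto (fun M => B.P M
      {z | ((0 : V), (0 : V)) ∈ B.Sg j M z.1 z.2 ∧ z.2 ∈ (Sup (K j))ᶜ}) B.U (𝓝 0) := by
    intro j
    have a := (hw j).2 _ ((Cyl.mem ((0 : V), (0 : V))).and
      (Cyl.fst _ (measurableSet_Sup (K j)).compl))
    rw [RliAux.wOf_src _ _ (measurableSet_Sup (K j)).compl,
      setLIntegral_eq_zero (measurableSet_Sup (K j)).compl fun y hy => not_not.1 hy] at a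
    exact a
  have h3 := tendsto_finsetSum Finset.univ fun j _ => h2 j
  rw [Finset.sum_const_zero] at h3
  filter_upwards [hR, h3.eventually (Iic_mem_nhds (ENNReal.half_pos hδ.ne'))] with M h4 h5
  have h6 : δ / 2 ≠ ∞ := ENNReal.div_ne_top (ne_top_of_le_ne_top (measure_ne_top _ _) h4) (by simp)
  refine ENNReal.le_of_add_le_add_right h6 ?_
  rw [ENNReal.add_halves]
  have hE : ∀ d : ℤ × ℤ,
      MeasurableSet {y | (∀ j, ((0 : V), (0 : V)) ∈ B.Sg j M d y) ∧ y ∉ Ip} := by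
    intro d
    have : MeasurableSet (⋂ j, {y | ((0 : V), (0 : V)) ∈ B.Sg j M d y}) :=
      MeasurableSet.iInter fun j => measurableSet_memA (B.mS j M d) _
    convert this.inter hΦ.mI.compl using 1
    ext y
    simp
  have h7 : B.P M {z | z.2 ∈ {y | (∀ j, ((0 : V), (0 : V)) ∈ B.Sg j M z.1 y) ∧ y ∉ Ip}} ≤
      δ / 2 := by
    refine le_trans ?_ h5
    have hs : {z : (ℤ × ℤ) × Ω |
        z.2 ∈ {y | (∀ j, ((0 : V), (0 : V)) ∈ B.Sg j M z.1 y) ∧ y ∉ Ip}} ⊆
        {z | z.2 ∈ {y | (∀ j, y ∈ Sup (K j)) ∧ y ∉ Ip}} ∪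
          ⋃ j, {z | ((0 : V), (0 : V)) ∈ B.Sg j M z.1 z.2 ∧ z.2 ∈ (Sup (K j))ᶜ} := by
      intro z hz
      by_cases h : ∀ j, z.2 ∈ Sup (K j)
      · exact Or.inl ⟨h, hz.2⟩
      · obtain ⟨j, hj⟩ := not_forall.1 h
        exact Or.inr (mem_iUnion.2 ⟨j, hz.1 j, hj⟩)
    refine (measure_mono hs).trans ((measure_union_le _ _).trans ?_)
    rw [RliAux.snd_null B M hN hN0, zero_add]
    exact measure_iUnion_fintype_le _ _
  refine h4.trans ((measure_mono ?_).trans ((measure_union_le _ _).trans (add_le_add le_rfl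
    ((RliAux.shift B M _ hE fun d => d.1 • D.r D.k0).trans_le h7))))
  intro z hz
  by_cases h : z.2 ∈ Ip
  · exact Or.inl ⟨hz.1, h⟩
  · exact Or.inr ⟨hz.2, fun h' => h ((mem_tz B.T hΦ.inv _ _).1 h')⟩

end Pool.Agent.MP_154433_an.T4A

end PkRli

section PkT1

set_option autoImplicit false

open MeasureTheory ProbabilityTheory Filter Topology Set
open scoped ENNReal

namespace Pool.Agent.MP_154433_an.T4A

open T3A

theorem xT1 : T1S := by
  intro G Ω V _ _ _ _ _ A κ L Ip Φ hE hP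
  have := hE.markov
  have := hP.markov
  have key : ∀ {p : Ω × Ω → Prop}, (∀ᵐ x ∂(A.μ ⊗ₘ κ), p x) →
      ∀ᵐ a ∂A.μ, ∀ᵐ x ∂((κ a).prod (κ a)), p x := by
    intro p hp
    rw [← hE.two] at hp
    simpa only [Kernel.prod_apply] using Measure.ae_ae_of_ae_comp hp
  refine ⟨fun Q hQ => ?_, ?_⟩
  · obtain ⟨E, hs, hm, h0⟩ := exists_measurable_superset_of_null (ae_iff.1 hQ)
    have h1 : ∀ᵐ z ∂(Lp A κ Ip Φ), z ∉ E := measure_eq_zero_iff_ae_notMem.1 h0
    have h2 := Measure.ae_ae_of_ae_compProd h1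
    rw [ae_restrict_iff' (hP.mI.prod MeasurableSet.univ)] at h2
    filter_upwards [key h2, hE.conc Ip hP.mI hP.inv] with a ha hc hI
    have h3 : ∀ᵐ x ∂((κ a).prod (κ a)), x.1 ∈ Ip :=
      Measure.quasiMeasurePreserving_fst.ae (p := fun y => y ∈ Ip) (hc hI)
    have h4 : ∀ᵐ z ∂(((κ a).prod (κ a)) ⊗ₘ Φ), z ∉ E := by
      refine Measure.ae_compProd_of_ae_ae hm.compl ?_
      filter_upwards [ha, h3] with x hx hx' using hx ⟨hx', mem_univ _⟩
    filter_upwards [h4] with z hz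
    by_contra hq
    exact hz (hs hq)
  · rw [ae_all_iff]
    intro n
    filter_upwards [key (hP.eqv n), hE.mp] with a ha hm'
    have hm := hm' n
    refine ⟨A.measurable_sA n n, Measure.ext fun E hE' => ?_⟩
    rw [Measure.map_apply (A.measurable_sA n n) hE', Measure.compProd_apply hE',
      Measure.compProd_apply (A.measurable_sA n n hE'),
      ← (hm.prod hm).lintegral_comp (Kernel.measurable_kernel_prodMk_left hE')]
    refine lintegral_congr_ae ?_
    filter_upwards [ha] with x hx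
    have e : Prod.map (tz A.T n) (tz A.T n) x = (tz A.T n x.1, tz A.T n x.2) := rfl
    rw [e, hx, Measure.map_apply (measurable_sh _ n n) (measurable_prodMk_left hE')]
    congr 1

end Pool.Agent.MP_154433_an.T4A

end PkT1

section PkT2

/-!
A measurable choice of arrows from one base point.
-/

set_option autoImplicit false

open MeasureTheory ProbabilityTheory Filter Topology Set
open scoped ENNReal

namespace Pool.Agent.MP_154433_an.T4A

open T3A

theorem xT2 : T2S := by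
  intro G Ω V _ _ _ _ _ A κ Ip Φ _ hP hI hq Q hQ
  have := hP.markov
  obtain ⟨f, hf, hΦ⟩ := Φ.exists_measurable_map_eq_unitInterval
  obtain ⟨E, hsub, hE, h0⟩ := exists_measurable_superset_of_null (ae_iff.1 hQ)
  have key : ∀ n : G, ∀ᵐ x ∂(A.μ ⊗ₘ κ), x.1 ∈ Ip → ∀ᵐ u : unitInterval,
      ((x.1, tz A.T n x.2), f (x.1, tz A.T n x.2) u) ∉ A.sA 0 (-n) ⁻¹' E := fun n => by
    have h1 : ∀ᵐ z ∂(Lp A κ Ip Φ), z ∉ A.sA 0 (-n) ⁻¹' E :=
      measure_eq_zero_iff_ae_notMem.1 (hq (-n) E hE h0)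
    have h2 := (ae_restrict_iff' (hI.prod MeasurableSet.univ)).1 (Measure.ae_ae_of_ae_compProd h1)
    filter_upwards [(hP.shift 0 n).quasiMeasurePreserving.ae h2] with x hx hxI
    have h3 := hx ⟨by simpa using hxI, trivial⟩
    rw [← hΦ] at h3
    simpa only [Prod.map, tz_zero] using
      ae_of_ae_map hf.of_uncurry_left.aemeasurable h3
  filter_upwards [Measure.ae_ae_of_ae_compProd (ae_all_iff.2 key)] with a ha haI
  have h4 : ∀ᵐ y ∂(κ a), ∀ᵐ u : unitInterval, ∀ n : G,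
      ((a, tz A.T n y), f (a, tz A.T n y) u) ∉ A.sA 0 (-n) ⁻¹' E :=
    ha.mono fun y hy => ae_all_iff.2 fun n => hy n haI
  have hm : MeasurableSet {p : Ω × unitInterval | ∀ n : G,
      ((a, tz A.T n p.1), f (a, tz A.T n p.1) p.2) ∉ A.sA 0 (-n) ⁻¹' E} := by
    rw [Set.ofPred_forall]
    refine MeasurableSet.iInter fun n => ?_
    have h5 : Measurable fun p : Ω × unitInterval => (a, tz A.T n p.1) :=
      measurable_const.prodMk ((measurable_tz A.T n).comp measurable_fst)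
    exact (h5.prodMk (hf.comp (h5.prodMk measurable_snd))) (A.measurable_sA 0 (-n) hE).compl
  obtain ⟨u, hu⟩ := ((Measure.ae_ae_comm hm).1 h4).exists
  refine ⟨fun y => f (a, y) u, hf.comp ((measurable_const.prodMk measurable_id).prodMk
    measurable_const), hu.mono fun y hy n => by_contra fun h => hy n ?_⟩
  simpa using hsub h

end Pool.Agent.MP_154433_an.T4A

end PkT2

section PkSel

set_option autoImplicit false

open MeasureTheory ProbabilityTheory Filter Topology Set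
open scoped ENNReal

namespace Pool.Agent.MP_154433_an.T4A

open T3A

namespace SelAux

variable {X : Type} [MeasurableSpace X] (μ : Measure X)

theorem half_le [IsProbabilityMeasure μ] {R : X → ℝ≥0∞} (hR : Measurable R) (h1 : ∀ x, R x ≤ 1)
    {δ : ℝ≥0∞} (h : δ ≤ ∫⁻ x, R x ∂μ) : δ / 2 ≤ μ {x | δ / 2 ≤ R x} := by
  have hA : MeasurableSet {x | δ / 2 ≤ R x} := measurableSet_le measurable_const hR
  have h2 : δ ≤ 1 := h.trans ((lintegral_mono h1).trans (by simp))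
  have h3 : δ / 2 ≠ ∞ := ENNReal.div_ne_top (ne_top_of_le_ne_top ENNReal.one_ne_top h2) (by simp)
  have h4 : ∫⁻ x, R x ∂μ ≤ ∫⁻ x, ({x | δ / 2 ≤ R x}.indicator 1 x + δ / 2) ∂μ := by
    refine lintegral_mono fun x => ?_
    by_cases hx : δ / 2 ≤ R x
    · rw [indicator_of_mem (show x ∈ {x | δ / 2 ≤ R x} from hx)]
      exact (h1 x).trans le_self_add
    · exact (not_le.1 hx).le.trans le_add_self
  rw [lintegral_add_right _ measurable_const, lintegral_indicator_one hA, lintegral_const,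
    measure_univ, mul_one] at h4
  refine ENNReal.le_of_add_le_add_right h3 ?_
  rw [ENNReal.add_halves]
  exact h.trans h4

theorem tendsto_ae {F : ℕ → X → ℝ≥0∞} (hF : ∀ i, Measurable (F i)) (m : ℕ)
    (h : ∀ i, m ≤ i → ∫⁻ x, F i x ∂μ ≤ 2⁻¹ ^ i) :
    ∀ᵐ x ∂μ, Tendsto (fun i => F i x) atTop (𝓝 0) := by
  have h1 : ∫⁻ x, ∑' i, F (i + m) x ∂μ ≠ ∞ := by
    rw [lintegral_tsum fun i => (hF _).aemeasurable]
    refine ne_top_of_le_ne_top ?_ (ENNReal.tsum_le_tsum (g := fun i => (2⁻¹ : ℝ≥0∞) ^ i) fun i =>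
      (h _ (Nat.le_add_left _ _)).trans (pow_le_pow_right_of_le_one' (by simp) (Nat.le_add_right _ _)))
    rw [ENNReal.tsum_geometric]
    simp
  filter_upwards [ae_lt_top (Measurable.tsum fun i => hF _) h1] with x hx
  exact (tendsto_add_atTop_iff_nat m).1 (ENNReal.tendsto_atTop_zero_of_tsum_ne_top hx.ne)

theorem freq [IsFiniteMeasure μ] {A : ℕ → Set X} (hA : ∀ i, MeasurableSet (A i)) {ε : ℝ≥0∞}
    (h : ∀ i, ε ≤ μ (A i)) : ε ≤ μ (⋂ n, ⋃ i ≥ n, A i) := by
  have h1 : Antitone fun n => ⋃ i ≥ n, A i := fun a b hab =>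
    biUnion_subset_biUnion_left fun i (hi : b ≤ i) => hab.trans hi
  rw [h1.measure_iInter (fun n => (MeasurableSet.iUnion fun i =>
    MeasurableSet.iUnion fun _ => hA i).nullMeasurableSet) ⟨0, measure_ne_top _ _⟩]
  exact le_iInf fun n => (h n).trans (measure_mono (subset_biUnion_of_mem (u := A) (le_refl n)))

end SelAux

theorem xSel : SelS := by
  intro X _ μ _ R δ Q hR h1 hδ h2 hQ
  obtain ⟨s, hs, hs'⟩ := extraction_of_frequently_atTop h2
  have h6 := SelAux.freq μ (A := fun i => {x | δ / 2 ≤ R (s i) x})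
    (fun i => measurableSet_le measurable_const (hR _))
    fun i => SelAux.half_le μ (hR _) (h1 _) (hs' i)
  obtain ⟨x, hx, h7⟩ := Measure.exists_mem_of_measure_ne_zero_of_ae
    ((ENNReal.half_pos hδ.ne').trans_le h6).ne' (ae_restrict_of_ae hQ)
  refine ⟨x, h7, frequently_atTop.2 fun n => ?_⟩
  obtain ⟨i, hi, h⟩ := mem_iUnion₂.1 (mem_iInter.1 hx n)
  exact ⟨s i, le_trans hi (hs.id_le i), h⟩

theorem xSub : SubS := by
  intro X K _ _ μ F hF h3
  obtain ⟨f, hf⟩ := Countable.exists_injective_nat K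
  have h4 : ∀ i : ℕ, ∃ M, i ≤ M ∧ ∀ k ∈ f ⁻¹' Iic i, ∫⁻ x, F M k x ∂μ ≤ 2⁻¹ ^ i := by
    intro i
    have h5 : (0 : ℝ≥0∞) < 2⁻¹ ^ i := ENNReal.pow_pos (by simp) i
    exact ((eventually_ge_atTop i).and
      ((eventually_all_finite ((finite_Iic i).preimage hf.injOn)).2 fun k _ =>
        (h3 k).eventually (Iic_mem_nhds h5))).exists
  choose s hs hs' using h4
  exact ⟨s, tendsto_atTop_mono hs tendsto_id,
    ae_all_iff.2 fun k => SelAux.tendsto_ae μ (fun i => hF _ k) (f k) fun i hi => hs' i k hi⟩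

end Pool.Agent.MP_154433_an.T4A

end PkSel

section PkTau

/-! One component seen from one base point, for actions of a countable group. -/

set_option autoImplicit false

open MeasureTheory ProbabilityTheory Filter Topology Set
open scoped ENNReal

namespace Pool.Agent.MP_154433_an.T4A

open T3A

noncomputable section

namespace TauAux

variable {G Ω : Type} [AddCommGroup G] [MeasurableSpace Ω]

lemma meas2 (κ : Kernel Ω Ω) {E : Set ((ℤ × ℤ) × Ω)} (hE : MeasurableSet E) :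
    Measurable fun z : (ℤ × ℤ) × Ω => κ z.2 (Prod.mk z.1 ⁻¹' E) :=
  measurable_from_prod_countable_right fun _ => κ.measurable_coe (measurable_prodMk_left hE)

lemma measPM (ν : Measure ℤ) [IsProbabilityMeasure ν] (κ : Kernel Ω Ω) [IsMarkovKernel κ]
    {E : Set ((ℤ × ℤ) × Ω)} (hE : MeasurableSet E) : Measurable fun a => PM ν (κ a) E := by
  simp only [PM_apply ν _ hE]
  exact (meas2 κ hE).lintegral_prod_left'

lemma avg (ν : Measure ℤ) [IsProbabilityMeasure ν] {μ : Measure Ω} [IsProbabilityMeasure μ]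
    {T : Act G Ω} {κ : Kernel Ω Ω} (h : ErgK μ T κ) {E : Set ((ℤ × ℤ) × Ω)}
    (hE : MeasurableSet E) {I : Set Ω} (hI : MeasurableSet I) (hT : ∀ n, tz T n ⁻¹' I = I) :
    ∫⁻ a, I.indicator (fun a => PM ν (κ a) E) a ∂μ = PM ν μ (E ∩ {z | z.2 ∈ I}) := by
  have := h.markov
  have hm : Measurable (I.indicator (1 : Ω → ℝ≥0∞)) := measurable_one.indicator hI
  have e1 : ∀ a, I.indicator (fun a => PM ν (κ a) E) a =
      ∫⁻ d, I.indicator (1 : Ω → ℝ≥0∞) a * κ a (Prod.mk d ⁻¹' E) ∂(ν.prod ν) := by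
    intro a
    by_cases ha : a ∈ I
    · simp [ha, PM_apply ν _ hE]
    · simp [ha]
  simp only [e1]
  have hEI : MeasurableSet (E ∩ {z | z.2 ∈ I}) := hE.inter (measurable_snd hI)
  rw [lintegral_lintegral_swap, PM_apply ν μ hEI]
  · refine lintegral_congr fun d => ?_
    have hA : MeasurableSet (Prod.mk d ⁻¹' E) := measurable_prodMk_left hE
    rw [h.int _ hm (fun n y => by
      have := mem_tz T hT n y
      by_cases hy : y ∈ I
      · simp [hy, this.2 hy]
      · simp [hy, mt this.1 hy]) _ hA, lintegral_indicator_one hI, Measure.restrict_apply hI,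
      inter_comm]
    rfl
  · exact ((hm.comp measurable_fst).mul ((meas2 κ hE).comp measurable_swap)).aemeasurable

/-- the mean of the conditional probabilities -/
lemma avg0 {μ : Measure Ω} {T : Act G Ω} {κ : Kernel Ω Ω} (h : ErgK μ T κ) {A : Set Ω}
    (hA : MeasurableSet A) : ∫⁻ a, κ a A ∂μ = μ A := by
  simpa using h.int (fun _ => 1) measurable_const (fun _ _ => rfl) A hA

/-- the same for Cesaro means -/
lemma avgC {μ : Measure Ω} {T : Act G Ω} {κ : Kernel Ω Ω} (h : ErgK μ T κ) {A : ℕ → Set Ω}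
    (hA : ∀ k, MeasurableSet (A k)) (M : ℕ) :
    ∫⁻ a, (M : ℝ≥0∞)⁻¹ * ∑ k ∈ Finset.range M, κ a (A k) ∂μ =
      (M : ℝ≥0∞)⁻¹ * ∑ k ∈ Finset.range M, μ (A k) := by
  rw [lintegral_const_mul _ (Finset.measurable_sum _ fun k _ => κ.measurable_coe (hA k)),
    lintegral_finsetSum _ fun k _ => κ.measurable_coe (hA k)]
  simp only [avg0 h (hA _)]

end TauAux

open TauAux in
theorem xTau : TauS := by
  intro h1 h2 hS hU G Ω V J _ _ _ _ _ B κ L Ip Φ g Pos D δ hE hP hH hδ hrel hdec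
  have := hE.markov
  have := hP.markov
  obtain ⟨t1, t1'⟩ := h1 G Ω V B.toBase κ L Ip Φ hE hP
  have q1 := t1 _ (hH.iso.and hH.itw)
  have q2 := h2 G Ω V B.toBase κ Ip Φ hE hP.mI hH.quasi _ (hH.iso.and (hH.itw.and hH.pos))
  have q3 : ∀ᵐ a ∂B.μ, ∀ᵐ y ∂(κ a), y ∈ Ip → ∀ i, Iso (B.N y) (B.N y) (g i y) := by
    have := hH.gi
    rw [← hE.bind] at this
    exact Measure.ae_ae_of_ae_comp this
  have q4 := Measure.ae_ae_of_ae_compProd hH.hit
  have q5 := hE.conc Ip hP.mI hP.inv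
  obtain ⟨s, hs, q6⟩ := hU Ω (D.dir × V × V) B.μ
    (fun M k a => (M : ℝ≥0∞)⁻¹ * ∑ i ∈ Finset.range M,
      κ a (B.decS ((i : ℤ) • (k.1 : G)) k.2.1 k.2.2))
    (fun M k => (Finset.measurable_sum _ fun i _ =>
      κ.measurable_coe (B.measurableSet_decS _ _ _)).const_mul _)
    (fun k => by
      simp only [avgC hE.toErgK fun i : ℕ => B.measurableSet_decS ((i : ℤ) • (k.1 : G)) k.2.1 k.2.2]
      exact hdec k.1 k.1.2 k.2.1 k.2.2)
  obtain ⟨a, ⟨⟨⟨⟨⟨⟨⟨⟨a1, a2⟩, a3⟩, a4⟩, a5⟩, a6⟩, a7⟩, a8⟩, a9⟩, hR⟩ := hS Ω B.μ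
    (fun M => Ip.indicator (fun a => PM (B.ν M) (κ a) (B.relS D))) δ _
    (fun M => (measPM _ κ (B.measurableSet_relS D)).indicator hP.mI)
    (fun M x => le_trans (indicator_le_self _ _ x) prob_le_one) hδ
    (hrel.mono fun M hM => by
      rw [TauAux.avg _ hE.toErgK (B.measurableSet_relS D) hP.mI hP.inv]
      exact hM)
    ((((((((hE.mp.and q5).and q1).and t1').and q2).and hH.gi).and q3).and q4).and q6)
  have ha : a ∈ Ip := by
    by_contra hc
    obtain ⟨M, this⟩ := hR.exists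
    rw [indicator_of_notMem hc] at this
    exact absurd this (not_le.2 (ENNReal.half_pos hδ.ne'))
  obtain ⟨τ, mτ, hτ⟩ := a5 ha
  have hin : ∀ᵐ y ∂(κ a), y ∈ Ip := a2 ha
  refine ⟨{ B.toBase with μ := κ a, prob := inferInstance, mp := a1 }, B.N a, τ,
    fun i => g i a, ((κ a).prod (κ a)) ⊗ₘ Φ, s,
    ⟨mτ, hH.geq, a6 ha, ?_, ?_, ?_, Measure.fst_compProd _ _, a4, a3 ha⟩,
    hR.mono fun M hM => ?_, hs, fun u hu c c' => a9 (⟨u, hu⟩, c, c')⟩
  · filter_upwards [hin, a7] with y hy h using h hy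
  · filter_upwards [hτ] with y h
    have := h 0
    rw [neg_zero, sh_zero, tz_zero] at this
    exact ⟨this.1, this.2.1⟩
  · filter_upwards [hτ, a8] with y h hh n p q ⟨e, p1, p2⟩ ⟨e', q1, q2⟩
    have h0 := h 0
    rw [neg_zero, sh_zero, tz_zero] at h0
    exact hh (p.1, e) (q.1, e') (p.2, e) (q.2, e') ((h n).2.2 _ p1 _ q1) (h0.2.2 _ p2 _ q2) rfl rfl
  · rwa [indicator_of_mem ha] at hM

end

end Pool.Agent.MP_154433_an.T4A

end PkTau
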