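import Pool.Agent.MP_154433_an.t4a.Spec
import Pool.Agent.MP_154433_an.t3a.FinA

/-! The algebraic step for group actions, part B4. -/

section PkTh

/-! The trivialisation of the bundle from one base point. -/

set_option autoImplicit false

open MeasureTheory ProbabilityTheory Filter Topology Set
open scoped ENNReal

namespace Pool.Agent.MP_154433_an.T4A

open T3A

namespace ThAux

variable {V : Type} [AddCommGroup V] {N N' : AddSubgroup V} {S : Arr V}

lemma hom (h : Iso N N' S) :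
    ∃ θ : V →+ V ⧸ N, ∀ c0 c, θ c = QuotientAddGroup.mk c0 ↔ (c0, c) ∈ S := by
  choose f hf using h.totR
  have key : ∀ c0 c, (QuotientAddGroup.mk (f c) : V ⧸ N) = QuotientAddGroup.mk c0 ↔
      (c0, c) ∈ S := fun c0 c => by
    rw [QuotientAddGroup.eq_iff_sub_mem]
    refine ⟨fun e => ?_, fun e => (h.iff _ _ (h.sub _ _ _ _ (hf c) e)).2 (by simp)⟩
    simpa using h.sub _ _ _ _ (hf c) (h.zero _ e 0 N'.zero_mem)
  exact ⟨AddMonoidHom.ofMapSub (fun c => QuotientAddGroup.mk (f c)) fun x y => by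
    rw [← QuotientAddGroup.mk_sub, key]
    exact h.sub _ _ _ _ (hf x) (hf y), key⟩

lemma quo (h : Iso N N S) : Iso (V := V ⧸ N) ⊥ ⊥
    {p | ∃ c c1, (c, c1) ∈ S ∧ p = (QuotientAddGroup.mk c, QuotientAddGroup.mk c1)} where
  zero := by
    rintro _ rfl _ rfl
    exact ⟨0, 0, h.zero _ N.zero_mem _ N.zero_mem, rfl⟩
  sub := by
    rintro _ _ _ _ ⟨a, a', h1, ⟨⟩⟩ ⟨b, b', h2, ⟨⟩⟩
    exact ⟨_, _, h.sub _ _ _ _ h1 h2, rfl⟩
  totL := by
    rintro ⟨c⟩
    obtain ⟨c', hc⟩ := h.totL c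
    exact ⟨_, c, c', hc, rfl⟩
  totR := by
    rintro ⟨c'⟩
    obtain ⟨c, hc⟩ := h.totR c'
    exact ⟨_, c, c', hc, rfl⟩
  iff := by
    rintro _ _ ⟨c, c', hc, ⟨⟩⟩
    simp only [AddSubgroup.mem_bot, QuotientAddGroup.eq_zero_iff]
    exact h.iff _ _ hc

lemma meas [Countable V] {Ω : Type} [MeasurableSpace Ω] {M : Ω → AddSubgroup V} {τ : Ω → Arr V}
    (hM : ∀ c, MeasurableSet {y | c ∈ M y}) (hτ : Measurable τ) :
    Measurable fun y => Iso N (M y) (τ y) := by
  have mm : ∀ p, Measurable fun y => p ∈ τ y := fun p => (measurable_set_mem p).comp hτ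
  have mn : ∀ c, Measurable fun y => c ∈ M y := fun c => measurableSet_setOfPred.1 (hM c)
  have : (fun y => Iso N (M y) (τ y)) = fun y => (∀ c c', c ∈ N → c' ∈ M y → (c, c') ∈ τ y) ∧
      (∀ a a' b b', (a, a') ∈ τ y → (b, b') ∈ τ y → (a - b, a' - b') ∈ τ y) ∧
      (∀ c, ∃ c', (c, c') ∈ τ y) ∧ (∀ c', ∃ c, (c, c') ∈ τ y) ∧
      ∀ c c', (c, c') ∈ τ y → (c ∈ N ↔ c' ∈ M y) := funext fun y => propext
    ⟨fun h => ⟨fun c c' a b => h.zero c a c' b, h.sub, h.totL, h.totR, h.iff⟩,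
      fun h => ⟨fun c a c' b => h.1 c c' a b, h.2.1, h.2.2.1, h.2.2.2.1, h.2.2.2.2⟩⟩
  rw [this]
  exact (Measurable.forall fun _ => .forall fun _ => measurable_const.imp ((mn _).imp (mm _))).and
    ((Measurable.forall fun _ => .forall fun _ => .forall fun _ => .forall fun _ =>
      (mm _).imp ((mm _).imp (mm _))).and
    ((Measurable.forall fun _ => .exists fun _ => mm _).and
    ((Measurable.forall fun _ => .exists fun _ => mm _).and
    (Measurable.forall fun _ => .forall fun _ => (mm _).imp (measurable_const.iff (mn _))))))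

end ThAux

open ThAux

theorem xTh : ThS := by
  intro mk G0 Ω V _ _ _ _ _ A N0 τ G g m2 F
  classical
  have ex : ∀ y, ∃ θ : V →+ V ⧸ N0, (Iso N0 (A.N y) (τ y) →
      ∀ c0 c, θ c = QuotientAddGroup.mk c0 ↔ (c0, c) ∈ τ y) ∧
      (¬ Iso N0 (A.N y) (τ y) → θ = 0) := fun y => by
    by_cases h : Iso N0 (A.N y) (τ y)
    · exact (hom h).imp fun θ hθ => ⟨fun _ => hθ, fun n => (n h).elim⟩
    · exact ⟨0, fun n => (h n).elim, fun _ => rfl⟩
  choose θ h1 h0 using ex
  have : Countable (V ⧸ N0) := QuotientAddGroup.mk_surjective.countable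
  obtain ⟨γ, -, hγ⟩ := mk ℕ (V ⧸ N0) (fun i =>
    {p | ∃ c c1, (c, c1) ∈ G i ∧ p = (QuotientAddGroup.mk c, QuotientAddGroup.mk c1)})
    measurable_from_top
  have h2 : ∀ i c c1, (c, c1) ∈ G i → γ i (QuotientAddGroup.mk c) = QuotientAddGroup.mk c1 :=
    fun i c c1 h => (hγ i (quo (F.isoG i)) _ _).2 ⟨c, c1, h, rfl⟩
  refine ⟨θ, γ, ⟨fun c ξ => ?_, ?_⟩, F.geq, F.isog.mono fun y h i => (h i).totL, ?_, ?_⟩
  · obtain ⟨c0, rfl⟩ := QuotientAddGroup.mk_surjective ξ
    have m := meas (N := N0) A.mN F.mτ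
    have : {y | θ y c = QuotientAddGroup.mk c0} = {y | (Iso N0 (A.N y) (τ y) ∧ (c0, c) ∈ τ y) ∨
        (¬ Iso N0 (A.N y) (τ y) ∧ (0 : V ⧸ N0) = QuotientAddGroup.mk c0)} := by
      ext y
      by_cases h : Iso N0 (A.N y) (τ y)
      · simp [h, h1 y h]
      · simp [h, h0 y h]
    rw [this]
    exact measurableSet_setOfPred.2 ((m.and ((measurable_set_mem _).comp F.mτ)).or
      (m.not.and measurable_const))
  · filter_upwards [F.isoτ] with y ⟨h, _⟩
    refine ⟨fun ξ => ?_, fun c => (h1 y h 0 c).trans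
      ⟨fun e => (h.iff _ _ e).1 N0.zero_mem, h.zero _ N0.zero_mem _⟩⟩
    obtain ⟨c0, rfl⟩ := QuotientAddGroup.mk_surjective ξ
    exact (h.totL c0).imp fun c hc => (h1 y h c0 c).2 hc
  · filter_upwards [F.isoτ] with y ⟨h, h'⟩ i a b hab
    obtain ⟨c, hc⟩ := h.totR a
    obtain ⟨c1, hc1⟩ := (F.isoG i).totL c
    rw [(h1 y h c a).2 hc, h2 i c c1 hc1]
    exact (h1 y h c1 b).2 (h' i c c1 a b hc1 hab hc)
  · filter_upwards [F.isoτ, F.dense,
      ae_all_iff.2 fun n : G0 => (A.mp n).quasiMeasurePreserving.ae F.isoτ]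
      with y ⟨h, _⟩ hd hn n c c'
    have k : ∀ c, ∃ p ∈ loop (sh A.σ 0 (-n) (τ (tz A.T n y))) (τ y),
        θ (tz A.T n y) c = QuotientAddGroup.mk p.1 ∧
          θ y (sz A.σ n c) = QuotientAddGroup.mk p.2 := fun c => by
      obtain ⟨c1, e1⟩ := (hn n).1.totR c
      obtain ⟨a1, e2⟩ := h.totR (sz A.σ n c)
      exact ⟨(c1, a1), ⟨sz A.σ n c, by simpa using e1, e2⟩, (h1 _ (hn n).1 _ _).2 e1,
        (h1 y h _ _).2 e2⟩
    obtain ⟨p, hp, p1, p2⟩ := k c
    obtain ⟨q, hq, q1, q2⟩ := k c'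
    obtain ⟨i, e1, e2⟩ := hd n p q hp hq
    exact ⟨i, by rw [p1, p2]; exact h2 i _ _ e1, by rw [q1, q2]; exact h2 i _ _ e2⟩

end Pool.Agent.MP_154433_an.T4A

end PkTh

section PkPsi

set_option autoImplicit false

open MeasureTheory ProbabilityTheory Filter Topology Set
open scoped ENNReal

namespace Pool.Agent.MP_154433_an.T4A

open T3A

theorem xPsi : PsiS := by
  intro mk G Ω V Γ _ _ _ _ _ _ _ A θ h
  choose Ψ m e using fun n : G => mk Ω Γ
    (fun y => {p | ∃ c, θ (tz A.T n y) c = p.1 ∧ θ y (sz A.σ n c) = p.2})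
    (measurable_set_iff.2 fun p => Measurable.exists fun c =>
      (measurableSet_setOfPred.1 (measurable_tz A.T n (h.mθ c p.1))).and
        (measurableSet_setOfPred.1 (h.mθ (sz A.σ n c) p.2)))
  have sur := fun n : G => (A.mp n).quasiMeasurePreserving.ae h.sur
  have df : ∀ᵐ y ∂A.μ, ∀ n c, Ψ n y (θ (tz A.T n y) c) = θ y (sz A.σ n c) := by
    filter_upwards [h.sur, ae_all_iff.2 sur] with y h0 h1 n c
    refine (e n y ⟨?_, ?_, fun ξ => ?_, fun ξ => ?_, ?_⟩ _ _).2 ⟨c, rfl, rfl⟩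
    · intro a ha b hb
      exact ⟨0, by rw [map_zero, AddSubgroup.mem_bot.1 ha], by
        rw [sz_map_zero, map_zero, AddSubgroup.mem_bot.1 hb]⟩
    · rintro _ _ _ _ ⟨a, a1, a2⟩ ⟨b, b1, b2⟩
      exact ⟨a - b, by rw [map_sub, a1, b1], by rw [sz_map_sub, map_sub, a2, b2]⟩
    · obtain ⟨a, rfl⟩ := (h1 n).1 ξ
      exact ⟨_, a, rfl, rfl⟩
    · obtain ⟨a, rfl⟩ := h0.1 ξ
      exact ⟨_, sz A.σ (-n) a, rfl, by rw [sz_sz_neg]⟩
    · rintro _ _ ⟨a, a1, a2⟩
      dsimp only at a1 a2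
      rw [AddSubgroup.mem_bot, AddSubgroup.mem_bot, ← a1, ← a2, (h1 n).2, h0.2, A.eqz]
  refine ⟨Ψ, m, df, fun n k => ?_⟩
  filter_upwards [df, (A.mp n).quasiMeasurePreserving.ae df, sur (n + k)] with y h0 h1 h2
  refine LinearEquiv.ext fun ξ => ?_
  obtain ⟨c, rfl⟩ := h2.1 ξ
  rw [h0, LinearEquiv.mul_apply, add_comm n k, tz_add, h1, h0, add_comm k n, sz_add]

end Pool.Agent.MP_154433_an.T4A

end PkPsi

section PkPsr

/-! The relation and the decay, read in the trivialisation. -/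

set_option autoImplicit false
set_option linter.unusedSectionVars false

open MeasureTheory ProbabilityTheory Filter Topology Set
open scoped ENNReal

namespace Pool.Agent.MP_154433_an.T4A

open T3A

namespace PsrAux

lemma ces_of_le {K : ℕ → ℕ} {a : ℕ → ℝ≥0∞}
    (h : ∀ ε : ℝ≥0∞, 0 < ε → ∃ (ι : Type) (S : Finset ι) (b : ι → ℕ → ℝ≥0∞),
      (∀ p ∈ S, Ces K (b p)) ∧ ∀ k, a k ≤ ε + ∑ p ∈ S, b p k) : Ces K a := by
  unfold Ces
  rw [ENNReal.tendsto_nhds_zero]
  intro ε hε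
  have h2 : 0 < ε / 2 := ENNReal.div_pos hε.ne' (by norm_num)
  obtain ⟨ι, S, b, hb, hab⟩ := h _ h2
  have hs : Tendsto (fun i => ∑ p ∈ S, ((K i : ℕ) : ℝ≥0∞)⁻¹ * ∑ k ∈ Finset.range (K i), b p k)
      atTop (𝓝 0) := by
    have := tendsto_finsetSum S fun p hp => hb p hp
    simpa using this
  filter_upwards [ENNReal.tendsto_nhds_zero.1 hs _ h2] with i hi
  calc ((K i : ℕ) : ℝ≥0∞)⁻¹ * ∑ k ∈ Finset.range (K i), a k
      ≤ ((K i : ℕ) : ℝ≥0∞)⁻¹ * ∑ k ∈ Finset.range (K i), (ε / 2 + ∑ p ∈ S, b p k) := by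
        gcongr with k _
        exact hab k
    _ = ((K i : ℕ) : ℝ≥0∞)⁻¹ * (K i : ℕ) * (ε / 2) +
          ∑ p ∈ S, ((K i : ℕ) : ℝ≥0∞)⁻¹ * ∑ k ∈ Finset.range (K i), b p k := by
        rw [Finset.sum_add_distrib, mul_add, Finset.sum_const, Finset.card_range, nsmul_eq_mul,
          ← mul_assoc, Finset.sum_comm, Finset.mul_sum]
    _ ≤ 1 * (ε / 2) + ε / 2 := by
        gcongr
        exact ENNReal.inv_mul_le_one _
    _ = ε := by rw [one_mul, ENNReal.add_halves]

variable {G Ω : Type} [AddCommGroup G] [MeasurableSpace Ω]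

lemma ae_PM (ν : Measure ℤ) [IsProbabilityMeasure ν] (μ : Measure Ω) [IsProbabilityMeasure μ]
    {P : Ω → Prop} (h : ∀ᵐ y ∂μ, P y) : ∀ᵐ z ∂(PM ν μ), P z.2 :=
  (measurePreserving_snd (μ := ν.prod ν) (ν := μ)).quasiMeasurePreserving.ae h

variable {V Γ : Type} [AddCommGroup V] [Countable V] [AddCommGroup Γ]

lemma meas_bad {A : Base G Ω V} {θ : Ω → V →+ Γ} (h : Th A θ) (ξ : Γ) (F : Finset V) :
    MeasurableSet {y | ∀ c ∈ F, θ y c ≠ ξ} := by
  have : {y | ∀ c ∈ F, θ y c ≠ ξ} = ⋂ c ∈ F, {y | θ y c = ξ}ᶜ := by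
    ext y; simp
  rw [this]
  exact F.measurableSet_biInter fun c _ => (h.mθ c ξ).compl

lemma fin_cover {A : Base G Ω V} {θ : Ω → V →+ Γ} (h : Th A θ) (ξ : Γ) {ε : ℝ≥0∞} (hε : 0 < ε) :
    ∃ F : Finset V, A.μ {y | ∀ c ∈ F, θ y c ≠ ξ} ≤ ε := by
  classical
  obtain ⟨f, hf⟩ := exists_surjective_nat V
  set B : ℕ → Set Ω := fun n => {y | ∀ c ∈ (Finset.range n).image f, θ y c ≠ ξ} with hB
  have hanti : Antitone B := by
    intro m n hmn y hy c hc
    exact hy c (Finset.image_subset_image (Finset.range_mono hmn) hc)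
  have h1 := tendsto_measure_iInter_atTop (μ := A.μ) (s := B)
    (fun n => (meas_bad h ξ _).nullMeasurableSet) hanti ⟨0, measure_ne_top _ _⟩
  have h2 : A.μ (⋂ n, B n) = 0 := by
    refine measure_mono_null ?_ (ae_iff.1 h.sur)
    intro y hy hs
    obtain ⟨c, hc⟩ := hs.1 ξ
    obtain ⟨n, rfl⟩ := hf c
    exact (mem_iInter.1 hy (n + 1)) (f n)
      (Finset.mem_image_of_mem f (Finset.self_mem_range_succ n)) hc
  rw [h2] at h1
  obtain ⟨n, hn⟩ := (ENNReal.tendsto_nhds_zero.1 h1 ε hε).exists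
  exact ⟨_, hn⟩

lemma step {A : Base G Ω V} {θ : Ω → V →+ Γ} {Ψ : G → Ω → Au Γ} (hθ : Th A θ) (hΨ : Coc A θ Ψ)
    {ξ ξ' : Γ} (hξ : ξ' ≠ 0) {ε : ℝ≥0∞} (hε : 0 < ε) : ∃ S : Finset (V × V), ∀ n : G,
      A.μ {y | Ψ n y ξ = ξ'} ≤ ε + ∑ p ∈ S, A.μ (A.decS n p.1 p.2) := by
  have h2 : 0 < ε / 2 := ENNReal.div_pos hε.ne' (by norm_num)
  obtain ⟨F, hF⟩ := fin_cover hθ ξ h2
  obtain ⟨F', hF'⟩ := fin_cover hθ ξ' h2
  refine ⟨F ×ˢ F', fun n => ?_⟩
  have e1 := (A.mp n).measure_preimage (meas_bad hθ ξ F).nullMeasurableSet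
  have hsub : ({y | Ψ n y ξ = ξ'} : Set Ω) ≤ᵐ[A.μ]
      ((tz A.T n ⁻¹' {y | ∀ c ∈ F, θ y c ≠ ξ} ∪ {y | ∀ c ∈ F', θ y c ≠ ξ'} ∪
        ⋃ p ∈ F ×ˢ F', A.decS n p.1 p.2 : Set Ω)) := by
    filter_upwards [hθ.sur, hΨ.def'] with y h1 h2 hy
    by_cases ha : ∀ c ∈ F, θ (tz A.T n y) c ≠ ξ
    · exact Or.inl (Or.inl ha)
    by_cases hb : ∀ c ∈ F', θ y c ≠ ξ'
    · exact Or.inl (Or.inr hb)
    push Not at ha hb
    obtain ⟨c, hc, hca⟩ := ha
    obtain ⟨c', hc', hcb⟩ := hb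
    have hy' : Ψ n y ξ = ξ' := hy
    have h4 := h2 n c
    rw [hca, hy'] at h4
    refine Or.inr (mem_iUnion₂.2 ⟨(c, c'), Finset.mem_product.2 ⟨hc, hc'⟩, ?_, ?_⟩)
    · refine (h1.2 _).1 ?_
      rw [map_sub, ← h4, hcb, sub_self]
    · intro hn
      exact hξ (hcb.symm.trans ((h1.2 _).2 hn))
  calc A.μ {y | Ψ n y ξ = ξ'}
      ≤ _ := measure_mono_ae hsub
    _ ≤ _ := measure_union_le _ _
    _ ≤ (ε / 2 + ε / 2) + ∑ p ∈ F ×ˢ F', A.μ (A.decS n p.1 p.2) :=
      add_le_add ((measure_union_le _ _).trans (add_le_add (e1.le.trans hF) hF'))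
        (measure_biUnion_finset_le _ _)
    _ = _ := by rw [ENNReal.add_halves]

end PsrAux

open PsrAux

theorem xPsr : PsrS := by
  intro G Ω V Γ _ _ _ _ _ _ _ A θ Ψ D hθ hΨ
  refine ⟨fun ν _ => measure_mono_ae ?_, fun K hK u hu ξ ξ' hξ => ces_of_le fun ε hε => ?_⟩
  · filter_upwards [ae_PM ν A.μ hθ.sur, ae_PM ν A.μ hΨ.def'] with z h1 h2 hz
    obtain ⟨hz1, hz2⟩ := hz
    refine ⟨?_, fun h0 => hz2 ?_⟩
    · have h3 := (h1.2 _).2 hz1
      rw [map_sub, map_sum, sub_eq_zero] at h3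
      rw [← h3]
      exact Finset.sum_congr rfl fun k _ => h2 _ _
    · have h3 := h2 (z.1.1 • D.r D.k0) (D.c D.k0)
      rw [h0, map_zero] at h3
      exact (h1.2 _).1 h3.symm
  · obtain ⟨S, hS⟩ := step hθ hΨ (ξ := ξ) hξ hε
    exact ⟨V × V, S, fun p k => A.μ (A.decS ((k : ℤ) • u) p.1 p.2),
      fun p _ => hK u hu p.1 p.2, fun k => hS _⟩

end Pool.Agent.MP_154433_an.T4A

end PkPsr

section PkSd

set_option autoImplicit false

open MeasureTheory ProbabilityTheory Filter Topology Set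
open scoped ENNReal

namespace Pool.Agent.MP_154433_an.T4A

open T3A

namespace SdAux

variable {V Γ : Type} [AddCommGroup V] [AddCommGroup Γ]

/-- the image of a relation in the trivialisation -/
def im (θ θ' : V →+ Γ) (S : Arr V) : Arr Γ :=
  {p | ∃ q : V × V, q ∈ S ∧ θ q.1 = p.1 ∧ θ' q.2 = p.2}

lemma iso_im {θ θ' : V →+ Γ} {N N' : AddSubgroup V} {S : Arr V} (h : Iso N N' S)
    (h1 : Function.Surjective θ ∧ ∀ c, θ c = 0 ↔ c ∈ N)
    (h2 : Function.Surjective θ' ∧ ∀ c, θ' c = 0 ↔ c ∈ N') : Iso ⊥ ⊥ (im θ θ' S) where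
  zero c hc c' hc' := ⟨(0, 0), h.zero 0 N.zero_mem 0 N'.zero_mem,
    (map_zero θ).trans (AddSubgroup.mem_bot.1 hc).symm,
    (map_zero θ').trans (AddSubgroup.mem_bot.1 hc').symm⟩
  sub a a' b b' := by
    rintro ⟨p, hp, e1, e2⟩ ⟨q, hq, e3, e4⟩
    refine ⟨(p.1 - q.1, p.2 - q.2), h.sub _ _ _ _ hp hq, ?_, ?_⟩
    · rw [map_sub, e1, e3]
    · rw [map_sub, e2, e4]
  totL c := by
    obtain ⟨a, rfl⟩ := h1.1 c
    obtain ⟨a', ha⟩ := h.totL a
    exact ⟨θ' a', (a, a'), ha, rfl, rfl⟩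
  totR c' := by
    obtain ⟨a', rfl⟩ := h2.1 c'
    obtain ⟨a, ha⟩ := h.totR a'
    exact ⟨θ a, (a, a'), ha, rfl, rfl⟩
  iff c c' := by
    rintro ⟨p, hp, e1, e2⟩
    change θ p.1 = c at e1
    change θ' p.2 = c' at e2
    rw [AddSubgroup.mem_bot, AddSubgroup.mem_bot, ← e1, ← e2, h1.2, h2.2]
    exact h.iff _ _ hp

lemma both {Ω Z : Type} [MeasurableSpace Ω] [MeasurableSpace Z] {μ : Measure Ω} [SFinite μ]
    {m : Measure ((Ω × Ω) × Z)} (h : m.map Prod.fst = μ.prod μ) {P : Ω → Prop}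
    (hP : ∀ᵐ y ∂μ, P y) : ∀ᵐ z ∂m, P z.1.1 ∧ P z.1.2 := by
  have h1 : ∀ᵐ x ∂(μ.prod μ), P x.1 ∧ P x.2 :=
    (Measure.quasiMeasurePreserving_fst.ae hP).and (Measure.quasiMeasurePreserving_snd.ae hP)
  rw [← h] at h1
  exact ae_of_ae_map measurable_fst.aemeasurable h1

end SdAux

open SdAux in
theorem xSd : SdS := by
  intro hk G Ω V Γ _ _ _ _ _ _ A θ γ g m2 tr hf hi
  have hm : Measurable fun z : (Ω × Ω) × Arr V => im (θ z.1.1) (θ z.1.2) z.2 :=
    measurable_set_iff.2 fun p => Measurable.exists fun q =>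
      ((measurable_set_mem q).comp measurable_snd).and
        (((measurableSet_setOfPred.1 (tr.mθ q.1 p.1)).comp measurable_fst.fst).and
          ((measurableSet_setOfPred.1 (tr.mθ q.2 p.2)).comp measurable_fst.snd))
  obtain ⟨s, hs, hs'⟩ := hk _ Γ _ hm
  refine ⟨s, hs, ?_⟩
  filter_upwards [hi, both hf tr.sur, both hf tr.tot, both hf tr.resp] with z a b c d
  have key : ∀ x x', (x, x') ∈ z.2 → s z (θ z.1.1 x) = θ z.1.2 x' := fun x x' hx =>
    (hs' z (iso_im a.1 b.1 b.2) _ _).2 ⟨(x, x'), hx, rfl, rfl⟩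
  refine ⟨a.1.totL, key, fun i => LinearEquiv.ext fun ξ => ?_⟩
  obtain ⟨x, rfl⟩ := b.1.1 ξ
  obtain ⟨y, hy⟩ := c.1 i x
  obtain ⟨x', hx'⟩ := a.1.totL x
  obtain ⟨y', hy'⟩ := c.2 i x'
  change s z (γ i (θ z.1.1 x)) = γ i (s z (θ z.1.1 x))
  rw [← d.1 i x y hy, key y y' (a.2 i x y x' y' hy hy' hx'), key x x' hx', d.2 i x' y' hy']

end Pool.Agent.MP_154433_an.T4A

end PkSd

section PkCt

/-! The cocycle takes values in a commutative set of automorphisms and is tight. -/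

set_option autoImplicit false

open MeasureTheory ProbabilityTheory Filter Topology Set
open scoped ENNReal

namespace Pool.Agent.MP_154433_an.T4A

open T3A

namespace CtAux

theorem comm {Γ : Type} [AddCommGroup Γ] {γ : ℕ → Au Γ} {f h : Au Γ}
    (hf : ∀ i, f * γ i = γ i * f) (hh : ∀ x x', ∃ i, γ i x = h x ∧ γ i x' = h x') :
    f * h = h * f := LinearEquiv.ext fun x => by
  obtain ⟨i, h1, h2⟩ := hh x (f x)
  change f (h x) = h (f x)
  rw [← h1, ← h2]
  exact LinearEquiv.congr_fun (hf i) x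

theorem meas {Z Γ : Type} [MeasurableSpace Z] [Countable Γ] {f : Z → Γ}
    (hf : ∀ k, MeasurableSet {z | f z = k}) (F : Finset Γ) : MeasurableSet {z | f z ∉ F} := by
  have e : {z | f z ∉ F} = ⋂ k ∈ F, {z | f z = k}ᶜ := by
    ext z
    simp only [mem_iInter, mem_compl_iff, mem_ofPred_eq]
    exact ⟨fun h k hk e => h (e ▸ hk), fun h hk => h _ hk rfl⟩
  rw [e]
  exact F.measurableSet_biInter fun k _ => (hf k).compl

theorem tight {Z Γ : Type} [MeasurableSpace Z] [Countable Γ] (m : Measure Z) [IsFiniteMeasure m]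
    (E : Finset Γ → Set Z) (h1 : ∀ F, MeasurableSet (E F)) (h2 : Antitone E)
    (h3 : ∀ z, ∃ F, z ∉ E F) {ε : ℝ≥0∞} (hε : 0 < ε) : ∃ F, m (E F) ≤ ε := by
  classical
  have h := tendsto_measure_iInter_atTop (μ := m) (fun F => (h1 F).nullMeasurableSet) h2
    ⟨∅, measure_ne_top _ _⟩
  rw [show ⋂ F, E F = ∅ from eq_empty_of_forall_notMem fun z hz =>
    (h3 z).elim fun F hF => hF (mem_iInter.1 hz F), measure_empty] at h
  exact ((h.eventually (gt_mem_nhds hε)).exists).imp fun F hF => le_of_lt hF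

end CtAux

open CtAux in
theorem xCt : CtS := by
  classical
  intro G Ω V Γ _ _ _ _ _ _ _ A θ γ g Ψ m2 s ht hc hm hi hs ha
  have hC : ∀ n, ∀ᵐ y ∂A.μ, (∀ i, Ψ n y * γ i = γ i * Ψ n y) ∧
      ∀ x x', ∃ i, γ i x = Ψ n y x ∧ γ i x' = Ψ n y x' := fun n => by
    have q := (A.mp n).quasiMeasurePreserving
    filter_upwards [q.ae ht.sur, q.ae ht.tot, q.ae ht.resp, ht.resp, ht.dense, hc.def'] with
      y h1 h2 h3 h4 h5 h6
    refine ⟨fun i => LinearEquiv.ext fun x => ?_, fun x x' => ?_⟩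
    · obtain ⟨c, rfl⟩ := h1.1 x
      obtain ⟨b, hb⟩ := h2 i c
      change Ψ n y (γ i _) = γ i (Ψ n y _)
      rw [← h3 i c b hb, h6, h6]
      rw [ht.geq i] at hb
      exact h4 i _ _ hb
    · obtain ⟨c, rfl⟩ := h1.1 x
      obtain ⟨c', rfl⟩ := h1.1 x'
      rw [h6, h6]
      exact h5 n c c'
  refine ⟨{f | (∀ i, f * γ i = γ i * f) ∧ ∀ x x', ∃ i, γ i x = f x ∧ γ i x' = f x'},
    fun a h b h' => comm h.1 h'.2, hC, fun ξ ε hε => ?_⟩
  have p0 : MeasurePreserving Prod.fst m2 (A.μ.prod A.μ) := ⟨measurable_fst, hm⟩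
  have q1 := (measurePreserving_fst.comp p0).quasiMeasurePreserving
  have q2 := (measurePreserving_snd.comp p0).quasiMeasurePreserving
  have : IsFiniteMeasure m2 := ⟨by
    rw [← preimage_univ, p0.measure_preimage MeasurableSet.univ.nullMeasurableSet]
    exact measure_lt_top _ _⟩
  have e2 : 0 < ε / 2 := ENNReal.half_pos hε.ne'
  obtain ⟨F1, hF1⟩ := tight m2 (fun F => {z | (s z)⁻¹ ξ ∉ F}) (meas fun k => by
    simpa only [eq_comm (a := ξ)] using
      (Set.ext fun z => (s z).symm_apply_eq (x := ξ) (y := k) :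
        {z | (s z)⁻¹ ξ = k} = {z | ξ = s z k}) ▸ (by simpa only [eq_comm (a := ξ)] using hs k ξ))
    (fun F F' h z hz hz' => hz (h hz')) (fun z => ⟨{(s z)⁻¹ ξ}, by simp⟩) e2
  have m3 : ∀ F : Finset Γ, MeasurableSet (⋃ η ∈ F1, {z | s z η ∉ F}) := fun F =>
    F1.measurableSet_biUnion fun η _ => meas (hs η) F
  obtain ⟨F2, hF2⟩ := tight m2 (fun F => ⋃ η ∈ F1, {z | s z η ∉ F}) m3
    (fun F F' h => iUnion₂_mono fun η _ z hz hz' => hz (h hz'))
    (fun z => ⟨F1.image (s z), fun h => by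
      obtain ⟨η, h1, h2⟩ := mem_iUnion₂.1 h
      exact h2 (Finset.mem_image_of_mem _ h1)⟩) e2
  refine ⟨F2, fun n => ?_⟩
  have pn := hi n
  have m4 : MeasurableSet {p : Ω × Ω | (Ψ n p.2)⁻¹ (Ψ n p.1 ξ) ∉ F2} := meas (fun k => by
    have e : {p : Ω × Ω | (Ψ n p.2)⁻¹ (Ψ n p.1 ξ) = k} = ⋃ ζ,
        Prod.fst ⁻¹' {y | Ψ n y ξ = ζ} ∩ Prod.snd ⁻¹' {y | Ψ n y k = ζ} := Set.ext fun p =>
      (Ψ n p.2).symm_apply_eq.trans ⟨fun h => mem_iUnion.2 ⟨_, h, rfl⟩, fun h => by
        obtain ⟨ζ, h1, h2⟩ := mem_iUnion.1 h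
        exact Eq.trans h1 (Eq.symm h2)⟩
    rw [e]
    exact MeasurableSet.iUnion fun ζ =>
      (measurable_fst (hc.mΨ n ξ ζ)).inter (measurable_snd (hc.mΨ n k ζ))) F2
  rw [← p0.measure_preimage m4.nullMeasurableSet, ← ENNReal.add_halves ε]
  refine le_trans (measure_mono_ae (t := {z | (s z)⁻¹ ξ ∉ F1} ∪
    A.sA n n ⁻¹' ⋃ η ∈ F1, {z | s z η ∉ F2}) ?_) ((measure_union_le _ _).trans
      (add_le_add hF1 ((pn.measure_preimage (m3 F2).nullMeasurableSet).trans_le hF2)))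
  filter_upwards [ha, pn.quasiMeasurePreserving.ae ha, q1.ae (hC n), q1.ae hc.def', q2.ae hc.def',
    q1.ae ((A.mp n).quasiMeasurePreserving.ae ht.sur)] with z h1 h2 h3 h4 h5 h6 hz
  have key : ∀ x, Ψ n z.1.2 (s (A.sA n n z) x) = s z (Ψ n z.1.1 x) := fun x => by
    obtain ⟨c, rfl⟩ := h6.1 x
    obtain ⟨c', hc'⟩ := h2.1 c
    exact ((congrArg _ (h2.2.1 c c' hc')).trans (h5 n c')).trans
      ((h1.2.1 _ _ hc').symm.trans (congrArg _ (h4 n c).symm))
  have k2 : (Ψ n z.1.2)⁻¹ (Ψ n z.1.1 ξ) = s (A.sA n n z) ((s z)⁻¹ ξ) :=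
    (Ψ n z.1.2).symm_apply_eq.2 (by
      rw [key]
      exact (congrArg _ ((s z).apply_symm_apply ξ).symm).trans
        (LinearEquiv.congr_fun (comm h1.2.2 h3.2) _).symm)
  by_cases h7 : (s z)⁻¹ ξ ∈ F1
  · exact Or.inr (mem_iUnion₂.2 ⟨_, h7, fun h8 => hz (k2 ▸ h8)⟩)
  · exact Or.inl h7

end Pool.Agent.MP_154433_an.T4A

end PkCt

section PkExa

set_option autoImplicit false

open MeasureTheory ProbabilityTheory Filter Topology Set
open scoped ENNReal

namespace Pool.Agent.MP_154433_an.T4A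

open T3A

noncomputable section

theorem xExa : ExaS := by
  intro G X V _ _ _ _ _ μ T σ N hT hN h0 h1 h2
  let G0 : X → Prop := fun x => x ∈ N 0 ∧ (∀ v v', x ∈ N v → x ∈ N v' → x ∈ N (v - v')) ∧
    ∀ n v, x ∈ N (sz σ n v) ↔ tz T n x ∈ N v
  let G1 : X → Prop := fun x => ∀ n : G, G0 (tz T n x)
  have m : ∀ v, Measurable fun x => x ∈ N v := fun v => measurableSet_setOfPred.1 (hN v)
  have m0 : Measurable G0 := (m 0).and ((Measurable.forall fun v => Measurable.forall fun v' =>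
    (m v).imp ((m v').imp (m _))).and (Measurable.forall fun n => Measurable.forall fun v =>
      (m _).iff ((m v).comp (T.meas n))))
  have m1 : Measurable G1 := Measurable.forall fun n => m0.comp (T.meas n)
  have a0 : ∀ᵐ x ∂μ, G0 x :=
    h0.and ((ae_all_iff.2 fun v => ae_all_iff.2 fun v' => h1 v v').and
      (ae_all_iff.2 fun n => ae_all_iff.2 (h2 n)))
  have a1 : ∀ᵐ x ∂μ, G1 x :=
    ae_all_iff.2 fun n => (hT n).quasiMeasurePreserving.ae a0
  have gT : ∀ k x, G1 x → G1 (tz T k x) := fun k x h n => by rw [← tz_add]; exact h _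
  have gT' : ∀ k x, G1 (tz T k x) → G1 x := fun k x h => by
    simpa only [tz_neg_tz] using gT (-k) _ h
  have g0 : ∀ x, G1 x → G0 x := fun x h => by simpa only [tz_zero] using h 0
  refine ⟨fun x => AddSubgroup.ofSub {c | G1 x → x ∈ N c} ⟨0, fun h => (g0 x h).1⟩
    fun a ha b hb h => ?_, fun c => measurableSet_setOfPred.2 (m1.imp (m c)), fun n c y => ?_,
    a1.mono fun x h c => ⟨fun e => e h, fun e _ => e⟩⟩
  · rw [← sub_eq_add_neg]
    exact (g0 x h).2.1 a b (ha h) (hb h)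
  · exact ⟨fun e h => ((g0 y (gT' n y h)).2.2 n c).1 (e (gT' n y h)),
      fun e h => ((g0 y h).2.2 n c).2 (e (gT n y h))⟩

end

end Pool.Agent.MP_154433_an.T4A

end PkExa

section PkPig

/-! Row Pig: sets whose shifts meet in sparse sets are sparse. -/

set_option autoImplicit false
set_option linter.unusedVariables false

open MeasureTheory ProbabilityTheory Filter Topology Set
open scoped ENNReal

namespace Pool.Agent.MP_154433_an.T4A

open T3A

noncomputable section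

namespace PigAux

open Classical in
def cnt (X : Set ℤ) (n : ℤ) (H : ℕ) : ℕ := ((Finset.range H).filter fun h : ℕ => n + h ∈ X).card

theorem thin_iff {ε : ℝ} {H : ℕ} {X : Set ℤ} :
    T4x.Thin ε H X ↔ ∀ n, (cnt X n H : ℝ) ≤ ε * H := Iff.rfl

open Classical in
theorem cnt_shift (X : Set ℤ) (n : ℤ) (H s : ℕ) : cnt X n H ≤ cnt X (n + s) H + s := by
  unfold cnt
  calc _ ≤ ((((Finset.range H).filter fun h : ℕ => n + s + h ∈ X).image (· + s)) ∪
        Finset.range s).card := by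
        refine Finset.card_le_card fun h hh => ?_
        simp only [Finset.mem_filter, Finset.mem_range, Finset.mem_union, Finset.mem_image] at hh ⊢
        rcases lt_or_ge h s with h1 | h1
        · exact Or.inr h1
        · refine Or.inl ⟨h - s, ⟨by omega, ?_⟩, by omega⟩
          have : n + s + ((h - s : ℕ) : ℤ) = n + h := by omega
          rw [this]
          exact hh.2
    _ ≤ _ := (Finset.card_union_le _ _).trans (by
        rw [Finset.card_range]
        exact Nat.add_le_add_right Finset.card_image_le _)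

open Classical in
theorem count (S : Finset ℕ) (X : Set ℤ) (C : ℕ → Set ℤ)
    (hC : ∀ s ∈ S, ∀ s' ∈ S, s < s' → ∀ d, d ∈ X → d + ((s' - s : ℕ) : ℤ) ∈ X → d ∈ C (s' - s))
    (n : ℤ) (H : ℕ) : ∑ s ∈ S, cnt X (n + s) H ≤
      H + S.card * ∑ p ∈ (S ×ˢ S).filter fun p => p.1 < p.2, cnt (C (p.2 - p.1)) (n + p.1) H := by
  simp only [cnt, Finset.card_filter]
  rw [Finset.sum_comm, Finset.sum_comm (s := (S ×ˢ S).filter fun p => p.1 < p.2), Finset.mul_sum]
  have hs : ∀ f : ℕ → ℕ, H + ∑ h ∈ Finset.range H, f h = ∑ h ∈ Finset.range H, (1 + f h) :=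
    fun f => by simp [Finset.sum_add_distrib]
  rw [hs]
  refine Finset.sum_le_sum fun h _ => ?_
  rw [← Finset.card_filter, ← Finset.card_filter]
  by_cases e : ∃ p ∈ (S ×ˢ S).filter fun p => p.1 < p.2, n + p.1 + h ∈ C (p.2 - p.1)
  · obtain ⟨p, hp, hp'⟩ := e
    have h1 : 1 ≤ (((S ×ˢ S).filter fun p => p.1 < p.2).filter
        fun p => n + p.1 + h ∈ C (p.2 - p.1)).card :=
      Finset.card_pos.2 ⟨p, Finset.mem_filter.2 ⟨hp, hp'⟩⟩
    have h2 := Finset.card_filter_le S fun s : ℕ => n + s + h ∈ X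
    have h3 := Nat.mul_le_mul_left S.card h1
    omega
  · refine le_trans (Finset.card_le_one.2 fun s hs s' hs' => ?_) (Nat.le_add_right _ _)
    have key : ∀ s ∈ S.filter fun s : ℕ => n + s + h ∈ X,
        ∀ s' ∈ S.filter fun s : ℕ => n + s + h ∈ X, ¬ s < s' := fun s hs s' hs' hl => by
      rw [Finset.mem_filter] at hs hs'
      refine e ⟨(s, s'), Finset.mem_filter.2 ⟨Finset.mk_mem_product hs.1 hs'.1, hl⟩,
        hC s hs.1 s' hs'.1 hl _ hs.2 ?_⟩
      have : n + s + h + ((s' - s : ℕ) : ℤ) = n + s' + h := by omega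
      rw [this]
      exact hs'.2
    exact le_antisymm (not_lt.1 (key s' hs' s hs)) (not_lt.1 (key s hs s' hs'))

open Classical in
theorem few {K : ℕ → ℕ} {Bad : Set ℕ} (hK : Tendsto K atTop atTop) (hB : Low K Bad) (T m : ℕ)
    (hT : T ≠ 0) : ∃ N : ℕ, m ≤ N ∧ ((Finset.range N).filter (· ∈ Bad)).card * T ≤ N := by
  have h0 : (0 : ℝ≥0∞) < (T : ℝ≥0∞)⁻¹ := ENNReal.inv_pos.2 (ENNReal.natCast_ne_top T)
  obtain ⟨i, h1, h2⟩ := ((hB.eventually_le_const h0).and (hK.eventually_ge_atTop (m + 1))).exists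
  refine ⟨K i, by omega, ?_⟩
  have e : ∑ k ∈ Finset.range (K i), Bad.indicator (fun _ => (1 : ℝ≥0∞)) k =
      (((Finset.range (K i)).filter (· ∈ Bad)).card : ℝ≥0∞) := by
    simp only [Set.indicator_apply, Finset.card_filter]
    push_cast
    rfl
  have hk : ((K i : ℕ) : ℝ≥0∞) ≠ 0 := by exact_mod_cast (by omega : K i ≠ 0)
  rw [e, ENNReal.inv_mul_le_iff hk (ENNReal.natCast_ne_top _)] at h1
  have h3 := mul_le_mul_left h1 (T : ℝ≥0∞)
  rw [mul_assoc, ENNReal.inv_mul_cancel (by exact_mod_cast hT) (ENNReal.natCast_ne_top T),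
    mul_one] at h3
  exact_mod_cast h3

open Classical in
theorem greedy {K : ℕ → ℕ} {Bad : Set ℕ} (hK : Tendsto K atTop atTop) (hB : Low K Bad) (t : ℕ) :
    ∃ S : Finset ℕ, S.card = t ∧ ∀ s ∈ S, ∀ s' ∈ S, s < s' → s' - s ∉ Bad := by
  induction t with
  | zero => exact ⟨∅, rfl, by simp⟩
  | succ t ih =>
    obtain ⟨S, h1, h2⟩ := ih
    obtain ⟨m, hm⟩ := S.bddAbove
    obtain ⟨N, h3, h4⟩ := few hK hB (2 * t + 2) (2 * m + 4) (by omega)
    have h5 : (Finset.range (m + 1) ∪ S.biUnion fun s =>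
        ((Finset.range N).filter (· ∈ Bad)).image (· + s)).card < (Finset.range N).card := by
      have a1 := Finset.card_union_le (Finset.range (m + 1))
        (S.biUnion fun s => ((Finset.range N).filter (· ∈ Bad)).image (· + s))
      have a2 := Finset.card_biUnion_le_card_mul S
        (fun s => ((Finset.range N).filter (· ∈ Bad)).image (· + s)) _
        fun s _ => Finset.card_image_le
      rw [Finset.card_range] at a1 ⊢
      rw [h1] at a2
      nlinarith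
    obtain ⟨h, h6, h7⟩ := Finset.exists_mem_notMem_of_card_lt_card h5
    simp only [Finset.mem_union, Finset.mem_range, Finset.mem_biUnion, Finset.mem_image,
      Finset.mem_filter, not_or, not_exists, not_and] at h6 h7
    have h8 : ∀ s ∈ S, s < h := fun s hs => by
      have := hm (Finset.mem_coe.2 hs)
      omega
    refine ⟨insert h S, by
      rw [Finset.card_insert_of_notMem fun hh => lt_irrefl _ (h8 h hh), h1], ?_⟩
    intro s hs s' hs' hl
    rcases Finset.mem_insert.1 hs with u | u <;> rcases Finset.mem_insert.1 hs' with u' | u'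
    · omega
    · have := h8 s' u'
      omega
    · exact fun hb => h7.2 s u (s' - s) ⟨by omega, hb⟩ (by omega)
    · exact h2 s u s' u' hl

end PigAux

open PigAux in
theorem xPig : PigS := by
  intro β A K Bad hK hB h ε hε
  choose! C c1 c2 using h
  obtain ⟨t, ht⟩ := exists_nat_gt (3 / ε)
  have t0 : (0 : ℝ) < t := lt_trans (by positivity) ht
  rw [div_lt_iff₀ hε] at ht
  obtain ⟨S, h1, h2⟩ := greedy hK hB t
  obtain ⟨m, hm⟩ := S.bddAbove
  have e1 : ∀ᶠ H : ℕ in atTop, ∀ p ∈ (S ×ˢ S).filter fun p => p.1 < p.2,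
      T4x.Thin (ε / (3 * t ^ 2)) H (C (p.2 - p.1)) := by
    refine (eventually_all_finset _).2 fun p hp => ?_
    rw [Finset.mem_filter, Finset.mem_product] at hp
    exact (c1 _ (h2 _ hp.1.1 _ hp.1.2 hp.2) _ (by positivity)).mono fun H hH => hH ()
  have e2 : ∀ᶠ H : ℕ in atTop, 3 * m / ε ≤ (H : ℝ) :=
    tendsto_natCast_atTop_atTop.eventually_ge_atTop _
  filter_upwards [e1, e2] with H a1 a2 b
  refine thin_iff.2 fun n => ?_
  rw [div_le_iff₀ hε] at a2
  have k1 := count S (A b) C (fun s hs s' hs' hl d => c2 _ (h2 s hs s' hs' hl) b d) n H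
  have k2 : S.card • cnt (A b) n H ≤ ∑ s ∈ S, (cnt (A b) (n + s) H + m) :=
    Finset.card_nsmul_le_sum _ _ _ fun s hs =>
      (cnt_shift (A b) n H s).trans (Nat.add_le_add_left (hm (Finset.mem_coe.2 hs)) _)
  have k3 : ((∑ p ∈ (S ×ˢ S).filter fun p => p.1 < p.2, cnt (C (p.2 - p.1)) (n + p.1) H : ℕ) : ℝ) ≤
      ((S ×ˢ S).filter fun p => p.1 < p.2).card • (ε / (3 * t ^ 2) * H) := by
    rw [Nat.cast_sum]
    exact Finset.sum_le_card_nsmul _ _ _ fun p hp => thin_iff.1 (a1 p hp) _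
  have k4 : (((S ×ˢ S).filter fun p => p.1 < p.2).card : ℝ) ≤ t ^ 2 := by
    have := Finset.card_filter_le (S ×ˢ S) fun p => p.1 < p.2
    rw [Finset.card_product, h1, ← sq] at this
    exact_mod_cast this
  rw [nsmul_eq_mul] at k3
  have k5 := k3.trans (mul_le_mul_of_nonneg_right k4 (by positivity))
  have k6 : (t : ℝ) ^ 2 * (ε / (3 * t ^ 2) * H) = ε * H / 3 := by field_simp
  rw [k6] at k5
  rw [Finset.sum_add_distrib, Finset.sum_const, smul_eq_mul, smul_eq_mul, h1] at k2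
  rw [h1] at k1
  have k7 : (t : ℝ) * cnt (A b) n H ≤ H + t * (ε * H / 3) + t * m := by
    have b1 := (Nat.cast_le (α := ℝ)).2 (k2.trans (Nat.add_le_add_right k1 _))
    rw [Nat.cast_mul, Nat.cast_add, Nat.cast_add, Nat.cast_mul, Nat.cast_mul] at b1
    have b2 := mul_le_mul_of_nonneg_left k5 t0.le
    linarith
  have hH : (0 : ℝ) ≤ H := Nat.cast_nonneg _
  refine le_of_mul_le_mul_left (k7.trans ?_) t0
  nlinarith [mul_le_mul_of_nonneg_left ht.le hH, mul_le_mul_of_nonneg_left a2 t0.le]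

end

end Pool.Agent.MP_154433_an.T4A

end PkPig

section PkZl

/-! Solution sets of almost exponential equations are sparse. -/

set_option autoImplicit false
set_option linter.unusedVariables false

open MeasureTheory ProbabilityTheory Filter Topology Set
open scoped ENNReal

namespace Pool.Agent.MP_154433_an.T4A

open T3A

noncomputable section

namespace ZlAux

theorem fin_union {X ι : Type} (P : Set X → Prop) (h0 : P ∅)
    (hu : ∀ s t, P s → P t → P (s ∪ t)) (g : ι → Set X) (S : Set ι) (hS : S.Finite) :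
    (∀ i ∈ S, P (g i)) → P (⋃ i ∈ S, g i) := by
  induction S, hS using Set.Finite.induction_on with
  | empty => intro _; simpa using h0
  | @insert a s _ _ ih =>
    intro h
    rw [biUnion_insert]
    exact hu _ _ (h a (mem_insert _ _)) (ih fun i hi => h i (mem_insert_of_mem _ hi))

theorem low_empty (K : ℕ → ℕ) : Low K ∅ := by
  simp [Low, Ces]

theorem low_union (K : ℕ → ℕ) (s t : Set ℕ) (hs : Low K s) (ht : Low K t) : Low K (s ∪ t) := by
  have h := Tendsto.add hs ht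
  rw [add_zero] at h
  refine tendsto_of_tendsto_of_tendsto_of_le_of_le tendsto_const_nhds h (fun _ => bot_le)
    fun i => ?_
  simp only
  rw [← mul_add, ← Finset.sum_add_distrib]
  refine mul_le_mul_right (Finset.sum_le_sum fun k _ => ?_) _
  by_cases h1 : k ∈ s <;> by_cases h2 : k ∈ t <;> simp [h1, h2]

theorem sp_empty : Sparse fun _ : Unit => (∅ : Set ℤ) := by
  intro ε hε
  refine Eventually.of_forall fun H _ n => ?_
  simp only [mem_empty_iff_false, Finset.filter_false, Finset.card_empty, Nat.cast_zero]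
  positivity

theorem sp_union (s t : Set ℤ) (hs : Sparse fun _ : Unit => s) (ht : Sparse fun _ : Unit => t) :
    Sparse fun _ : Unit => s ∪ t := by
  classical
  intro ε hε
  filter_upwards [hs (ε / 2) (half_pos hε), ht (ε / 2) (half_pos hε)] with H h1 h2 b n
  have h3 := h1 b n
  have h4 := h2 b n
  have h5 : (((Finset.range H).filter fun h : ℕ => n + h ∈ s ∪ t).card : ℝ) ≤
      (((Finset.range H).filter fun h : ℕ => n + h ∈ s).card : ℝ) +
        (((Finset.range H).filter fun h : ℕ => n + h ∈ t).card : ℝ) := by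
    rw [← Nat.cast_add, Nat.cast_le]
    refine le_trans (Finset.card_le_card ?_) (Finset.card_union_le _ _)
    intro h hh
    simp only [Finset.mem_filter, Finset.mem_union, mem_union] at hh ⊢
    tauto
  have h6 : (((Finset.range H).filter fun h : ℕ => n + h ∈ s ∪ t).card : ℝ) ≤ ε * H := by
    linarith
  convert h6

variable {Q A I : Type} [CommGroup Q] [AddCommGroup A] [DistribMulAction Q A] [Fintype I]

theorem shift (a : I → ℤ → Q) (z : I → A) (d h : ℤ) (c : Q) :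
    ∑ k, a k d • ((a k h * (a k (d + h) * (a k d)⁻¹ * (a k h)⁻¹)) • z k - c • z k) =
      ∑ k, a k (d + h) • z k - c • ∑ k, a k d • z k := by
  rw [Finset.smul_sum, ← Finset.sum_sub_distrib]
  refine Finset.sum_congr rfl fun k _ => ?_
  rw [smul_sub, smul_smul, smul_smul, smul_smul, mul_comm c]
  congr 2
  rw [mul_comm (a k h), inv_mul_cancel_right, mul_comm (a k d), inv_mul_cancel_right]

theorem zero (pig : PigS) (a : I → ℤ → Q) (K : ℕ → ℕ) (nd : ND (A := A) a K) (n : ℕ) :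
    ∀ (z : I → A) (k0 : I), {k | z k ≠ 0}.ncard ≤ n → z k0 ≠ 0 →
      Sparse fun _ : Unit => {d | ∑ k, a k d • z k = 0} := by
  induction n with
  | zero =>
    intro z k0 hc h0
    have h1 : {k | z k ≠ 0} = ∅ := (Set.ncard_eq_zero (toFinite _)).1 (Nat.le_zero.1 hc)
    have h2 : k0 ∈ {k | z k ≠ 0} := h0
    rw [h1] at h2
    exact absurd h2 (notMem_empty _)
  | succ n ih =>
    intro z k0 hc h0
    by_cases h1 : ∀ k, k ≠ k0 → z k = 0
    · have h2 : {d | ∑ k, a k d • z k = 0} = ∅ := by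
        refine eq_empty_of_forall_notMem fun d hd => h0 ?_
        have h3 : ∑ k, a k d • z k = 0 := hd
        rw [Finset.sum_eq_single k0 (fun k _ hk => by rw [h1 k hk, smul_zero])
          (fun h => absurd (Finset.mem_univ _) h)] at h3
        exact (smul_eq_zero_iff_eq _).1 h3
      rw [h2]
      exact sp_empty
    push Not at h1
    obtain ⟨k1, hk1, hz1⟩ := h1
    obtain ⟨F, hF, hq⟩ := nd.quasi
    refine pig Unit _ K (⋃ f0 ∈ F, ⋃ f1 ∈ F,
      {h : ℕ | a k0 h • (f0 * f1⁻¹) • f1 • z k0 = a k1 h • f1 • z k0}) nd.top ?_ ?_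
    · refine fin_union (Low K) (low_empty K) (low_union K) _ F hF fun f0 _ => ?_
      refine fin_union (Low K) (low_empty K) (low_union K) _ F hF fun f1 _ => ?_
      exact nd.two k0 k1 hk1.symm _ _ fun h => h0 ((smul_eq_zero_iff_eq _).1 h)
    · intro h hb
      refine ⟨⋃ f ∈ {f : I → Q | ∀ k, f k ∈ F},
        {d | ∑ k, a k d • ((a k h * f k) • z k - (a k1 h * f k1) • z k) = 0}, ?_, ?_⟩
      · refine fin_union (fun s => Sparse fun _ : Unit => s) sp_empty sp_union _ _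
          (Set.Finite.pi' fun _ => hF) fun f hf => ?_
        refine ih _ k0 ?_ ?_
        · have h2 : {k | (a k h * f k) • z k - (a k1 h * f k1) • z k ≠ 0} ⊆
              {k | z k ≠ 0} \ {k1} := by
            intro k hk
            refine ⟨fun h3 => hk ?_, fun h3 => hk ?_⟩
            · rw [h3, smul_zero, smul_zero, sub_zero]
            · rw [mem_singleton_iff.1 h3, sub_self]
          have h3 := Set.ncard_le_ncard h2 (toFinite _)
          rw [Set.ncard_sdiff_singleton_of_mem (show k1 ∈ {k | z k ≠ 0} from hz1)] at h3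
          omega
        · intro h2
          refine hb (mem_iUnion₂.2 ⟨f k0, hf k0, mem_iUnion₂.2 ⟨f k1, hf k1, ?_⟩⟩)
          show a k0 h • (f k0 * (f k1)⁻¹) • f k1 • z k0 = a k1 h • f k1 • z k0
          rw [smul_smul (f k0 * (f k1)⁻¹), inv_mul_cancel_right, smul_smul, smul_smul]
          exact sub_eq_zero.1 h2
      · intro b d hd hd'
        refine mem_iUnion₂.2 ⟨fun k => a k (d + h) * (a k d)⁻¹ * (a k h)⁻¹, fun k => hq k d h, ?_⟩
        have h2 : ∑ k, a k d • z k = 0 := hd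
        have h3 : ∑ k, a k (d + h) • z k = 0 := hd'
        show ∑ k, a k d • _ = 0
        rw [shift, h2, h3, smul_zero, sub_zero]

end ZlAux

open ZlAux in
theorem xZl : ZlS := by
  intro pig Q A I _ _ _ _ a K nd z k0 h0
  obtain ⟨F, hF, hq⟩ := nd.quasi
  refine pig A _ K (⋃ f ∈ F, {h : ℕ | a k0 h • f • z k0 = z k0}) nd.top ?_ ?_
  · exact fin_union (Low K) (low_empty K) (low_union K) _ F hF fun f _ => nd.one k0 f _ h0
  · intro h hb
    refine ⟨⋃ f ∈ {f : I → Q | ∀ k, f k ∈ F},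
      {d | ∑ k, a k d • ((a k h * f k) • z k - (1 : Q) • z k) = 0}, ?_, ?_⟩
    · refine fin_union (fun s => Sparse fun _ : Unit => s) sp_empty sp_union _ _
        (Set.Finite.pi' fun _ => hF) fun f hf => ?_
      refine zero pig a K nd _ _ k0 le_rfl fun h2 => ?_
      refine hb (mem_iUnion₂.2 ⟨f k0, hf k0, ?_⟩)
      show a k0 h • f k0 • z k0 = z k0
      rw [smul_smul, sub_eq_zero.1 h2, one_smul]
    · intro b d hd hd'
      refine mem_iUnion₂.2 ⟨fun k => a k (d + h) * (a k d)⁻¹ * (a k h)⁻¹, fun k => hq k d h, ?_⟩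
      have h2 : ∑ k, a k d • z k = b := hd
      have h3 : ∑ k, a k (d + h) • z k = b := hd'
      show ∑ k, a k d • _ = 0
      rw [shift, h2, h3, one_smul, sub_self]

end

end Pool.Agent.MP_154433_an.T4A

end PkZl

section PkQh

/-! Almost multiplicative sequences in a commutative group are monomials up to a finite set. -/

set_option autoImplicit false
set_option linter.unusedVariables false
set_option linter.unusedSectionVars false

open Set

namespace Pool.Agent.MP_154433_an.T4A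

open T3A

namespace QhAux

/-- a finitely generated commutative group has a lattice quotient with finite kernel -/
lemma lattice (G : Type) [AddCommGroup G] [AddGroup.FG G] :
    ∃ (r : ℕ) (lam : G →+ (Fin r → ℤ)) (s : (Fin r → ℤ) →+ G), (∀ v, lam (s v) = v) ∧
      {g | lam g = 0}.Finite := by
  classical
  obtain ⟨n, ι, _, p, hp, e, ⟨E⟩⟩ := AddCommGroup.equiv_free_prod_directSum_zmod G
  have hz : ∀ i, NeZero (p i ^ e i) := fun i => ⟨pow_ne_zero _ (hp i).ne_zero⟩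
  let c : (Fin n →₀ ℤ) ≃+ (Fin n → ℤ) := (Finsupp.linearEquivFunOnFinite ℤ ℤ (Fin n)).toAddEquiv
  have hfin : Finite (DirectSum ι fun i => ZMod (p i ^ e i)) :=
    Finite.of_injective _ (DFinsupp.equivFunOnFintype (β := fun i => ZMod (p i ^ e i))).injective
  refine ⟨n, c.toAddMonoidHom.comp ((AddMonoidHom.fst _ _).comp E.toAddMonoidHom),
    E.symm.toAddMonoidHom.comp ((AddMonoidHom.inl _ _).comp c.symm.toAddMonoidHom),
    fun v => by simp, ?_⟩
  refine (Set.finite_range fun t => E.symm (0, t)).subset fun g hg => ⟨(E g).2, ?_⟩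
  have h1 : c (E g).1 = 0 := hg
  have h2 : (E g).1 = 0 := c.injective (h1.trans (map_zero c).symm)
  show E.symm (0, (E g).2) = g
  rw [← h2, Prod.mk.eta, E.symm_apply_apply]

lemma box_finite {G : Type} [AddCommGroup G] {r : ℕ} (lam : G →+ (Fin r → ℤ))
    (s : (Fin r → ℤ) →+ G) (hs : ∀ v, lam (s v) = v) (hk : {g | lam g = 0}.Finite) (C : ℤ) :
    {g | ∀ i, |lam g i| ≤ C}.Finite := by
  have hb : (Set.pi univ fun _ : Fin r => Icc (-C) C).Finite :=
    Set.Finite.pi fun _ => Set.finite_Icc _ _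
  refine ((hb.prod hk).image fun z => s z.1 + z.2).subset fun g hg => ?_
  refine ⟨(lam g, g - s (lam g)), ⟨fun i _ => abs_le.1 (hg i), ?_⟩, by simp⟩
  show lam (g - s (lam g)) = 0
  rw [map_sub, hs, sub_self]

section

variable {α : ℤ → ℤ} {D : ℤ}

lemma mul_def (h : ∀ d e, |α (d + e) - α d - α e| ≤ D) (d n : ℤ) :
    |α (n * d) - n * α d| ≤ (|n| + 1) * D := by
  induction n using Int.induction_on with
  | zero =>
    have h0 := abs_le.1 (h 0 0)
    simp only [add_zero, sub_self, zero_sub] at h0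
    simp only [zero_mul, sub_zero, abs_zero, zero_add, one_mul]
    exact abs_le.2 ⟨by linarith [h0.2], by linarith [h0.1]⟩
  | succ n ih =>
    have h1 := abs_le.1 (h (n * d) d)
    have hn : (0 : ℤ) ≤ n := Int.natCast_nonneg n
    rw [abs_of_nonneg hn] at ih
    rw [abs_of_nonneg (by linarith : (0 : ℤ) ≤ n + 1), add_one_mul]
    have h2 := abs_le.1 ih
    exact abs_le.2 ⟨by linarith [h1.1, h2.1], by linarith [h1.2, h2.2]⟩
  | pred n ih =>
    have h1 := abs_le.1 (h ((-n - 1) * d) d)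
    have hn : (0 : ℤ) ≤ n := Int.natCast_nonneg n
    have e1 : (-(n : ℤ) - 1) * d + d = -n * d := by ring
    rw [e1] at h1
    rw [abs_neg, abs_of_nonneg hn] at ih
    rw [abs_of_nonpos (by linarith : -(n : ℤ) - 1 ≤ 0)]
    have h2 := abs_le.1 ih
    exact abs_le.2 ⟨by linarith [h1.2, h2.1], by linarith [h1.1, h2.2]⟩

lemma nonneg_def (h : ∀ d e, |α (d + e) - α d - α e| ≤ D) : 0 ≤ D :=
  (abs_nonneg _).trans (h 0 0)

lemma size (h : ∀ d e, |α (d + e) - α d - α e| ≤ D) {M : ℤ} (hM : 1 ≤ M) :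
    |α M| ≤ (2 * D + |α 1|) * M := by
  have h1 := mul_def h 1 M
  have hD := nonneg_def h
  rw [mul_one, abs_of_nonneg (by linarith : (0 : ℤ) ≤ M)] at h1
  have h2 : |α M| ≤ |α M - M * α 1| + |M * α 1| := by
    have := abs_add_le (α M - M * α 1) (M * α 1)
    rwa [sub_add_cancel] at this
  rw [abs_mul, abs_of_nonneg (by linarith : (0 : ℤ) ≤ M)] at h2
  nlinarith

lemma near (h : ∀ d e, |α (d + e) - α d - α e| ≤ D) {M d : ℤ} (hM : 1 ≤ M) (hd : |d| ≤ M) :
    |α d - d * α M / M| ≤ 4 * D + 1 := by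
  have hD := nonneg_def h
  have hM0 : 0 < M := by linarith
  have h1 := abs_le.1 (mul_def h d M)
  have h2 := abs_le.1 (mul_def h M d)
  rw [abs_of_nonneg hM0.le] at h1
  rw [mul_comm d M] at h2
  have h3 := Int.emod_add_mul_ediv (d * α M) M
  have h4 := Int.emod_nonneg (d * α M) hM0.ne'
  have h5 := Int.emod_lt_of_pos (d * α M) hM0
  have h6 : (|d| + 1) * D ≤ (M + 1) * D := mul_le_mul_of_nonneg_right (by linarith) hD
  have h7 : D ≤ M * D := le_mul_of_one_le_left hD hM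
  set q := d * α M / M
  refine abs_le.2 ⟨?_, ?_⟩
  · refine le_of_mul_le_mul_left ?_ hM0
    linarith [h1.1, h1.2, h2.1, h2.2]
  · refine le_of_mul_le_mul_left ?_ hM0
    linarith [h1.1, h1.2, h2.1, h2.2]

end

/-- the additive form in a finitely generated group -/
lemma addv (G I : Type) [AddCommGroup G] [AddGroup.FG G] [Fintype I] (a : I → ℤ → G)
    (F : Set G) (hF : F.Finite) (h : ∀ k d e, a k (d + e) - a k d - a k e ∈ F) :
    ∃ (r L : ℕ) (s : (Fin r → ℤ) →+ G) (B : Set G) (m : ℕ → I → Fin r → ℤ),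
      B.Finite ∧ ∀ M : ℕ, 1 ≤ M → (∀ k i, |m M k i| ≤ L * M) ∧ ∀ k (d : ℤ), |d| ≤ M →
        ∃ g ∈ B, a k d = s (fun i => d * m M k i / M) + g := by
  obtain ⟨r, lam, s, hs, hk⟩ := lattice G
  obtain ⟨D, hD⟩ := ((hF.prod (Set.finite_univ (α := Fin r))).image
    fun z => |lam z.1 z.2|).bddAbove
  have hd : ∀ k i d e, |lam (a k (d + e)) i - lam (a k d) i - lam (a k e) i| ≤ D := by
    intro k i d e
    have h1 := hD ⟨(a k (d + e) - a k d - a k e, i), ⟨h k d e, mem_univ _⟩, rfl⟩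
    simpa only [map_sub, Pi.sub_apply] using h1
  obtain ⟨L, hL⟩ := (Set.finite_range fun z : I × Fin r => 2 * D + |lam (a z.1 1) z.2|).bddAbove
  refine ⟨r, L.toNat, s, {g | ∀ i, |lam g i| ≤ 4 * D + 1}, fun M k i => lam (a k M) i,
    box_finite lam s hs hk _, fun M hM => ⟨fun k i => ?_, fun k d hdM => ?_⟩⟩
  · have hM' : (1 : ℤ) ≤ M := by exact_mod_cast hM
    refine (size (α := fun d => lam (a k d) i) (hd k i) hM').trans ?_
    exact mul_le_mul_of_nonneg_right ((hL ⟨(k, i), rfl⟩).trans (Int.self_le_toNat L))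
      (by linarith)
  · have hM' : (1 : ℤ) ≤ M := by exact_mod_cast hM
    refine ⟨a k d - s (fun i => d * lam (a k M) i / M), fun i => ?_, by simp⟩
    rw [map_sub, hs, Pi.sub_apply]
    exact near (α := fun d => lam (a k d) i) (hd k i) hM' hdM

end QhAux

theorem xQh : QhS := by
  intro Q I _ _ a F hF h
  let S : Set Q := F ∪ (range (fun k => a k 0) ∪ range fun k => a k 1)
  have hS : S.Finite := hF.union ((finite_range _).union (finite_range _))
  let Q0 : Subgroup Q := Subgroup.closure S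
  have hm : ∀ k d, a k d ∈ Q0 := fun k d => by
    refine Subgroup.closure_mono ?_ (FinAux.quasi_gen (a k) F (h k) d)
    rintro x (hx | rfl | rfl)
    · exact Or.inl hx
    · exact Or.inr (Or.inl ⟨k, rfl⟩)
    · exact Or.inr (Or.inr ⟨k, rfl⟩)
  have hfg : Group.FG Q0 := (Group.fg_iff_subgroup_fg Q0).2 ((Subgroup.fg_iff Q0).2 ⟨S, rfl, hS⟩)
  have hfa : AddGroup.FG (Additive Q0) := inferInstance
  let u : Additive Q0 → Q := fun g => (Additive.toMul g : Q0)
  have hu : Function.Injective u := fun g g' e => Additive.toMul.injective (Subtype.ext e)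
  obtain ⟨r, L, s, B, m, hB, hM⟩ := QhAux.addv (Additive Q0) I
    (fun k d => Additive.ofMul ⟨a k d, hm k d⟩) (u ⁻¹' F) (hF.preimage hu.injOn) fun k d e => by
      have := h k d e
      simpa [u, div_eq_mul_inv] using this
  refine ⟨r, L, MonoidHom.mk' (fun v => u (s (Multiplicative.toAdd v))) fun v w => by simp [u],
    u '' B, m, hB.image _, fun M h1 => ⟨(hM M h1).1, fun k d hd => ?_⟩⟩
  obtain ⟨g, hg, e⟩ := (hM M h1).2 k d hd
  refine ⟨u g, ⟨g, hg, rfl⟩, ?_⟩
  have e2 := congrArg u e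
  simpa [u] using e2

end Pool.Agent.MP_154433_an.T4A

end PkQh
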