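import Pool.Agent.MP_154433_an.t4a.Spec
import Pool.Agent.MP_154433_an.t3a.FinB
import Pool.Agent.MP_154433_an.t3a.ConvA
import Pool.Agent.MP_154433_an.t4.Spec

/-! The algebraic step for group actions, part B5. -/

section PkSp

/-! Solution sets of exponential relations have small weight. -/

set_option autoImplicit false
set_option linter.unusedVariables false

open MeasureTheory ProbabilityTheory Filter Topology Set
open scoped ENNReal

namespace Pool.Agent.MP_154433_an.T4A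

open T3A

noncomputable section

namespace SpAux

open T4x (Thin Lau mon cls)

/-- a set that is covered by finitely many thin sets is thin -/
lemma thin_cover {J : Type} [Fintype J] {ε : ℝ} {H : ℕ} {A : Set ℤ} {C : J → Set ℤ}
    (h : ∀ j, Thin ε H (C j)) (hA : ∀ d ∈ A, ∃ j, d ∈ C j) :
    Thin (Fintype.card J * ε) H A := by
  classical
  intro n
  have h1 : ((Finset.range H).filter fun h : ℕ => n + h ∈ A) ⊆
      Finset.univ.biUnion fun j => (Finset.range H).filter fun h : ℕ => n + h ∈ C j := by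
    intro x hx
    obtain ⟨j, hj⟩ := hA _ (Finset.mem_filter.1 hx).2
    exact Finset.mem_biUnion.2 ⟨j, Finset.mem_univ _,
      Finset.mem_filter.2 ⟨(Finset.mem_filter.1 hx).1, hj⟩⟩
  have h2 := (Finset.card_le_card h1).trans Finset.card_biUnion_le
  have h3 : ((∑ j, ((Finset.range H).filter fun h : ℕ => n + h ∈ C j).card : ℕ) : ℝ) ≤
      ∑ _j : J, ε * H := by
    rw [Nat.cast_sum]
    exact Finset.sum_le_sum fun j _ => by convert h j n
  rw [Finset.sum_const, Finset.card_univ, nsmul_eq_mul, ← mul_assoc] at h3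
  refine le_trans ?_ h3
  convert (Nat.cast_le (α := ℝ)).2 h2

variable {Q A : Type} [CommGroup Q] [AddCommGroup A] [DistribMulAction Q A] {r s : ℕ}

/-- the action of the ring of Laurent polynomials -/
def act (A : Type) [AddCommGroup A] [DistribMulAction Q A]
    (φ : Multiplicative (Fin r → ℤ) →* Q) : Lau r →ₐ[ℤ] Module.End ℤ A :=
  AddMonoidAlgebra.lift ℤ (Module.End ℤ A) (Fin r → ℤ) ((DistribMulAction.toModuleEnd ℤ A).comp φ)

lemma act_single (φ : Multiplicative (Fin r → ℤ) →* Q) (v : Fin r → ℤ) (x : A) :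
    act A φ (AddMonoidAlgebra.single v 1) x = φ (Multiplicative.ofAdd v) • x := by
  rw [act, AddMonoidAlgebra.lift_single, one_smul]
  rfl

/-- the relations between the entries of `w` -/
def rel (φ : Multiplicative (Fin r → ℤ) →* Q) (w : Fin s → A) :
    Submodule (Lau r) (Fin s → Lau r) where
  carrier := {p | ∑ k, act A φ (p k) (w k) = 0}
  zero_mem' := by simp
  add_mem' := fun {p q} hp hq => by
    simp only [mem_ofPred_eq, Pi.add_apply, map_add, LinearMap.add_apply,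
      Finset.sum_add_distrib] at hp hq ⊢
    rw [hp, hq, add_zero]
  smul_mem' := fun c p hp => by
    simp only [mem_ofPred_eq, Pi.smul_apply, smul_eq_mul, map_mul, Module.End.mul_apply] at hp ⊢
    rw [← map_sum, hp, map_zero]

lemma mem_cls (φ : Multiplicative (Fin r → ℤ) →* Q) (w : Fin s → A) (m : Fin s → Fin r → ℤ)
    (M : ℕ) (d0 d : ℤ) : d ∈ cls (rel φ w) m M d0 ↔ |d| ≤ M ∧
      ∑ k, φ (Multiplicative.ofAdd fun i => d * m k i / M) • w k =
        ∑ k, φ (Multiplicative.ofAdd fun i => d0 * m k i / M) • w k := by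
  refine and_congr_right fun _ => ?_
  show ∑ k, act A φ (mon m M d k - mon m M d0 k) (w k) = 0 ↔ _
  simp only [map_sub, LinearMap.sub_apply, Finset.sum_sub_distrib, sub_eq_zero, mon, act_single]

end SpAux

open SpAux T4x in
theorem xSp : SpS := by
  classical
  intro zl qh Q A I _ _ _ _ a K ν hν nd z k0 hz t ht
  obtain ⟨F, hF, hq⟩ := nd.quasi
  obtain ⟨r, L, φ, B, m, hB, hm⟩ := qh Q I a F hF hq
  have : Fintype B := hB.fintype
  let e := (Fintype.equivFin I).symm
  obtain ⟨c, hc⟩ : ∃ c : ℕ, c = Fintype.card (I → B) := ⟨_, rfl⟩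
  obtain ⟨ε, ε0, hε⟩ : ∃ ε : ℝ, 0 < ε ∧ c * ENNReal.ofReal (2 * ε) ≤ t := by
    rcases eq_or_ne t ⊤ with rfl | h
    · exact ⟨1, one_pos, le_top⟩
    · have h1 := ENNReal.toReal_pos ht.ne' h
      refine ⟨t.toReal / (2 * (c + 1)), by positivity, ?_⟩
      rw [← ENNReal.ofReal_natCast, ← ENNReal.ofReal_mul (by positivity)]
      refine ENNReal.ofReal_le_of_le_toReal ?_
      rw [← mul_assoc, ← mul_div_assoc, div_le_iff₀ (by positivity)]
      nlinarith
  have sp : ∀ᶠ H : ℕ in atTop, ∀ g g1 : I → B, ∀ b : A, Thin (ε / (c + 1)) H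
      {d | ∑ k, a k d • (((g1 k : Q)⁻¹ * g k) • z k) = b} :=
    eventually_all.2 fun g => eventually_all.2 fun g1 =>
      zl Q A I a K nd (fun k => ((g1 k : Q)⁻¹ * g k) • z k) k0
        (fun h => hz ((smul_eq_zero_iff_eq _).1 h)) _ (by positivity)
  obtain ⟨H, hH, H1⟩ := (sp.and (eventually_ge_atTop 1)).exists
  have ev : ∀ᶠ M : ℕ in atTop, ∀ g : I → B, _ := eventually_all.2 fun g =>
    hν.2 r _ L (rel φ fun k => (g (e k) : Q) • z (e k)) ε H ε0 H1
  filter_upwards [ev, hν.1, eventually_ge_atTop 1] with M h1 h2 M1 b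
  obtain ⟨m1, m2⟩ := hm M M1
  let S : (I → B) → Set ℤ := fun g => {d | |d| ≤ M ∧
    ∑ k, φ (Multiplicative.ofAdd fun i => d * m M k i / M) • ((g k : Q) • z k) = b}
  have pick : ∀ d : ℤ, |d| ≤ M → ∃ g : I → B, ∀ k,
      a k d = φ (Multiplicative.ofAdd fun i => d * m M k i / M) * g k := fun d hd => by
    choose g u v using fun k => m2 k d hd
    exact ⟨fun k => ⟨g k, u k⟩, v⟩
  have hS : ∀ g, ν M (S g) ≤ ENNReal.ofReal (2 * ε) := fun g => by
    rcases (S g).eq_empty_or_nonempty with h | ⟨d0, d1, d2⟩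
    · rw [h, measure_empty]; exact zero_le
    have eq : cls (rel φ fun k => (g (e k) : Q) • z (e k)) (fun k => m M (e k)) M d0 = S g := by
      ext d
      rw [mem_cls,
        e.sum_comp fun k => φ (Multiplicative.ofAdd fun i => d * m M k i / M) • ((g k : Q) • z k),
        e.sum_comp fun k => φ (Multiplicative.ofAdd fun i => d0 * m M k i / M) • ((g k : Q) • z k),
        d2]
      rfl
    have h3 := h1 g (fun k => m M (e k)) d0 (fun k i => m1 _ i) d1
    rw [eq] at h3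
    refine h3 fun n => (thin_cover (fun g1 => hH g g1 b) (fun d hd => ?_) n).trans ?_
    · obtain ⟨g1, h4⟩ := pick d hd.1
      refine ⟨g1, Eq.trans (Finset.sum_congr rfl fun k _ => ?_) hd.2⟩
      rw [h4, smul_smul, smul_smul, mul_assoc, mul_inv_cancel_left]
    · rw [← hc]
      refine mul_le_mul_of_nonneg_right ?_ (Nat.cast_nonneg _)
      rw [← mul_div_assoc, div_le_iff₀ (by positivity)]
      nlinarith
  have sub : {d | ∑ k, a k d • z k = b} ⊆ {d | ¬ |d| ≤ M} ∪ ⋃ g, S g := fun d hd => by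
    by_cases h : |d| ≤ M
    · obtain ⟨g, h4⟩ := pick d h
      refine Or.inr (mem_iUnion.2 ⟨g, h, Eq.trans (Finset.sum_congr rfl fun k _ => ?_) hd⟩)
      rw [h4, mul_smul]
    · exact Or.inl h
  refine ((measure_mono sub).trans (measure_union_le _ _)).trans ?_
  rw [h2, zero_add]
  refine (measure_iUnion_fintype_le _ _).trans ((Finset.sum_le_sum fun g _ => hS g).trans ?_)
  rwa [Finset.sum_const, Finset.card_univ, nsmul_eq_mul, ← hc]

end

end Pool.Agent.MP_154433_an.T4A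

end PkSp

section PkCore

set_option autoImplicit false

open MeasureTheory Filter Topology
open scoped ENNReal Pointwise

namespace Pool.Agent.MP_154433_an.T4A

open T3A T3A.FinAux

namespace CoreAux

theorem drift {Om G : Type*} [MeasurableSpace Om] [AddCommGroup G] {ka : Measure Om}
    [IsProbabilityMeasure ka] {Q : Type*} [CommGroup Q]
    (T : G → Om → Om) (hT : ∀ n, MeasurePreserving (T n) ka ka) (q : G → Om → Q)
    (hco : ∀ n m, ∀ᵐ y ∂ka, q (n + m) y = q n y * q m (T n y)) (F : Set Q) (hF : F.Finite)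
    {eps : ℝ≥0∞} (he : eps + eps + eps < 1)
    (ht : ∀ n, (ka.prod ka) {p | (q n p.2)⁻¹ * q n p.1 ∉ F} ≤ eps) :
    ∃ (c : G → Q) (F' : Set Q), F'.Finite ∧ (∀ n, ka {y | (c n)⁻¹ * q n y ∉ F} ≤ eps) ∧
      ∀ n m, c (n + m) * (c n)⁻¹ * (c m)⁻¹ ∈ F' := by
  have h1 : ∀ n, ∃ c : Q, ka {y | c⁻¹ * q n y ∉ F} ≤ eps := by
    intro n
    obtain ⟨y, hy⟩ := sect (ka := ka) {p | (q n p.2)⁻¹ * q n p.1 ∉ F}
    exact ⟨q n y, le_trans hy (ht n)⟩
  choose c hc using h1
  refine ⟨c, F * F * F⁻¹, (hF.mul hF).mul hF.inv, hc, ?_⟩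
  intro n m
  by_contra hcon
  let B : G → Set Om := fun n => {y | (c n)⁻¹ * q n y ∉ F}
  let Z : Set Om := {y | ¬ q (n + m) y = q n y * q m (T n y)}
  have hZ : ka Z = 0 := ae_iff.mp (hco n m)
  have hcov : (Set.univ : Set Om) ⊆ B (n + m) ∪ B n ∪ T n ⁻¹' B m ∪ Z := by
    intro y _
    by_contra hy
    simp only [Set.mem_union, not_or, B, Z, Set.mem_ofPred_eq, not_not, Set.mem_preimage] at hy
    obtain ⟨⟨⟨a1, a2⟩, a3⟩, a4⟩ := hy
    apply hcon
    have := Set.mul_mem_mul (Set.mul_mem_mul a2 a3) (Set.inv_mem_inv.mpr a1)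
    have he : c (n + m) * (c n)⁻¹ * (c m)⁻¹
        = (c n)⁻¹ * q n y * ((c m)⁻¹ * q m (T n y)) * ((c (n + m))⁻¹ * q (n + m) y)⁻¹ := by
      rw [a4]
      apply Additive.ofMul.injective
      simp only [ofMul_mul, ofMul_inv]
      abel
    rw [he]
    exact this
  have h2 : (1 : ℝ≥0∞) ≤ eps + eps + eps + 0 := by
    calc (1 : ℝ≥0∞) = ka Set.univ := measure_univ.symm
      _ ≤ ka (B (n + m) ∪ B n ∪ T n ⁻¹' B m ∪ Z) := measure_mono hcov
      _ ≤ ka (B (n + m) ∪ B n ∪ T n ⁻¹' B m) + ka Z := measure_union_le _ _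
      _ ≤ (ka (B (n + m) ∪ B n) + ka (T n ⁻¹' B m)) + ka Z := by
          gcongr
          exact measure_union_le _ _
      _ ≤ (ka (B (n + m)) + ka (B n) + ka (B m)) + ka Z :=
          add_le_add (add_le_add (measure_union_le _ _) ((hT n).measure_preimage_le _)) le_rfl
      _ ≤ _ := add_le_add (add_le_add (add_le_add (hc _) (hc _)) (hc _)) hZ.le
  rw [add_zero] at h2
  exact absurd he (not_lt.mpr h2)

theorem tight_set {Om G Ga Gr : Type*} [MeasurableSpace Om] {ka : Measure Om}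
    (act : Gr → Ga → Ga) (g : G → Om → Gr)
    (h : ∀ (a : Ga) (eps : ℝ≥0∞), 0 < eps → ∃ F : Finset Ga, ∀ n, ka {p | act (g n p) a ∉ F} ≤ eps)
    (E : Set Ga) (hE : E.Finite) : ∀ eps : ℝ≥0∞, 0 < eps →
      ∃ A : Set Ga, A.Finite ∧ ∀ n, ka {p | ¬ ∀ a ∈ E, act (g n p) a ∈ A} ≤ eps := by
  induction E, hE using Set.Finite.induction_on with
  | empty => exact fun eps _ => ⟨∅, Set.finite_empty, fun n => by simp⟩
  | @insert a s _ _ ih =>
    intro eps he
    obtain ⟨A, hA, h1⟩ := ih (eps / 2) (ENNReal.half_pos he.ne')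
    obtain ⟨F, h2⟩ := h a (eps / 2) (ENNReal.half_pos he.ne')
    refine ⟨A ∪ F, hA.union F.finite_toSet, fun n => ?_⟩
    rw [← ENNReal.add_halves eps]
    refine le_trans (measure_mono ?_) ((measure_union_le _ _).trans (add_le_add (h1 n) (h2 n)))
    intro p hp
    by_contra hc
    simp only [Set.mem_union, Set.mem_ofPred_eq, not_or, not_not] at hc
    apply hp
    intro b hb
    rcases hb with rfl | hb
    · exact Or.inr hc.2
    · exact Or.inl (hc.1 b hb)

theorem ces_sum {ι : Type*} (K : ℕ → ℕ) (s : Finset ι) (a : ι → ℕ → ℝ≥0∞)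
    (h : ∀ j ∈ s, Ces K (a j)) : Ces K fun k => ∑ j ∈ s, a j k := by
  have h1 := tendsto_finsetSum s h
  rw [Finset.sum_const_zero] at h1
  refine h1.congr fun i => ?_
  rw [Finset.sum_comm, Finset.mul_sum]

theorem ces_le (K : ℕ → ℕ) (a b : ℕ → ℝ≥0∞) (hb : Ces K b) (h : ∀ k, a k ≤ b k + b k) :
    Ces K a := by
  have h1 := hb.add hb
  rw [add_zero] at h1
  refine tendsto_of_tendsto_of_tendsto_of_le_of_le tendsto_const_nhds h1 (fun _ => zero_le)
    fun i => ?_
  show _ ≤ _ + _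
  rw [← mul_add, ← Finset.sum_add_distrib]
  exact mul_le_mul_right (Finset.sum_le_sum fun k _ => h k) _

/-- the elements that fix `E` -/
def stab (G : Type*) {Ga : Type*} [Group G] [MulAction G Ga] (E : Set Ga) : Subgroup G where
  carrier := {g | ∀ a ∈ E, g • a = a}
  one_mem' := fun a _ => one_smul G a
  mul_mem' := fun {g h} hg hh a ha => by rw [mul_smul, hh a ha, hg a ha]
  inv_mem' := fun {g} hg a ha => by rw [inv_smul_eq_iff, hg a ha]

section

variable {Gr : Type} (Ga : Type) [CommGroup Gr] [AddCommGroup Ga] [DistribMulAction Gr Ga]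

/-- the points fixed by `K` -/
def fixA (K : Subgroup Gr) : AddSubgroup Ga where
  carrier := {a | ∀ g ∈ K, g • a = a}
  zero_mem' := fun g _ => smul_zero g
  add_mem' := fun {a b} ha hb g hg => by rw [smul_add, ha g hg, hb g hg]
  neg_mem' := fun {a} ha g hg => by rw [smul_neg, ha g hg]

variable {Ga}

theorem fix_smul (K : Subgroup Gr) (g : Gr) (a : Ga) (ha : a ∈ fixA Ga K) : g • a ∈ fixA Ga K :=
  fun k hk => by rw [smul_smul, mul_comm, mul_smul, ha k hk]

theorem fix_eq (K : Subgroup Gr) (g g' : Gr) (a : Ga) (ha : a ∈ fixA Ga K)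
    (h : (g : Gr ⧸ K) = (g' : Gr ⧸ K)) : g • a = g' • a := by
  have h1 : g⁻¹ * g' ∈ K := QuotientGroup.eq.mp h
  have h2 := ha _ h1
  rw [mul_smul, inv_smul_eq_iff] at h2
  exact h2.symm

noncomputable instance qact (K : Subgroup Gr) : DistribMulAction (Gr ⧸ K) (fixA Ga K) where
  smul q a := ⟨q.out • (a : Ga), fix_smul K _ _ a.2⟩
  one_smul a := Subtype.ext ((fix_eq K _ 1 _ a.2 (QuotientGroup.out_eq' _)).trans (one_smul _ _))
  mul_smul q q' a := Subtype.ext ((fix_eq K _ (q.out * q'.out) _ a.2 (by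
    rw [QuotientGroup.mk_mul, QuotientGroup.out_eq', QuotientGroup.out_eq',
      QuotientGroup.out_eq'])).trans (mul_smul _ _ _))
  smul_zero q := Subtype.ext (smul_zero q.out)
  smul_add q a b := Subtype.ext (smul_add q.out (a : Ga) (b : Ga))

theorem qact_val (K : Subgroup Gr) (g : Gr) (a : fixA Ga K) :
    (((g : Gr ⧸ K) • a : fixA Ga K) : Ga) = g • (a : Ga) :=
  fix_eq K _ g _ a.2 (QuotientGroup.out_eq' _)

end

end CoreAux

open CoreAux in
theorem xCore : CoreS := by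
  classical
  intro hSp G Om Ga Gr I _ _ ka _ _ _ _ _ _ T hT P hco ht nu _ hnu r dir hr hd k0 x eta hx heta
    de hde hrel Kk hKk hdec
  have hde1 : de ≤ 1 := by
    obtain ⟨M, hM⟩ := hrel.exists
    refine hM.trans ?_
    unfold PM
    exact prob_le_one
  obtain ⟨e0, he0, hK⟩ := ENNReal.exists_nnreal_pos_mul_lt
    (a := ((2 * Fintype.card I + 4 : ℕ) : ℝ≥0∞)) (ENNReal.natCast_ne_top _) hde.ne'
  set eps : ℝ≥0∞ := (e0 : ℝ≥0∞) with heps
  have hepos : 0 < eps := by rw [heps]; exact_mod_cast he0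
  have h3 : eps + eps + eps < 1 := by
    refine lt_of_le_of_lt ?_ (hK.trans_le hde1)
    have : eps + eps + eps = eps * ((3 : ℕ) : ℝ≥0∞) := by
      push_cast
      ring
    rw [this]
    gcongr
    omega
  choose E0 hE0 hE1 using fun k => nm_tight (hx k) hepos
  set E : Set Ga := ⋃ k, E0 k with hE
  have hEf : E.Finite := Set.finite_iUnion hE0
  have hxE : ∀ k, ka {y | x k y ∉ E} ≤ eps := fun k =>
    le_trans (measure_mono fun y hy h => hy (Set.mem_iUnion.mpr ⟨k, h⟩)) (hE1 k)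
  obtain ⟨A, hA, hA1⟩ := CoreAux.tight_set (ka := ka.prod ka) (fun (g : Gr) (a : Ga) => g • a)
    (fun n p => (P n p.2)⁻¹ * P n p.1) ht E hEf eps hepos
  set K := CoreAux.stab Gr E with hKd
  have hFE : ∀ a ∈ E, a ∈ fixA Ga K := fun a ha g hg => hg a ha
  let F : Set (Gr ⧸ K) := {q | ∀ a ∈ E, q.out • a ∈ A}
  have hF : F.Finite := by
    have := hEf.to_subtype
    refine Set.Finite.of_finite_image (f := fun (q : Gr ⧸ K) (a : E) => q.out • (a : Ga)) ?_ ?_
    · refine (Set.Finite.pi' (fun _ : E => hA)).subset ?_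
      rintro _ ⟨q, hq, rfl⟩ a
      exact hq a a.2
    · intro q _ q' _ h
      rw [← QuotientGroup.out_eq' q, ← QuotientGroup.out_eq' q']
      refine QuotientGroup.eq.mpr fun a ha => ?_
      have h1 : q.out • a = q'.out • a := congrFun h ⟨a, ha⟩
      rw [mul_smul, inv_smul_eq_iff, h1]
  obtain ⟨c, F', hF', hc, hq⟩ := CoreAux.drift (ka := ka) T hT (fun n y => (P n y : Gr ⧸ K))
    (fun n m => (hco n m).mono fun y hy => by rw [hy, QuotientGroup.mk_mul]) F hF h3 (fun n => by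
      refine le_trans (measure_mono ?_) (hA1 n)
      intro p hp hp'
      refine hp fun a ha => ?_
      rw [fix_eq K _ ((P n p.2)⁻¹ * P n p.1) a (hFE a ha)
        (by rw [QuotientGroup.out_eq', QuotientGroup.mk_mul, QuotientGroup.mk_inv])]
      exact hp' a ha)
  have hlow : ∀ u ∈ dir, ∀ S : Set (Gr ⧸ K), S.Finite → ∀ ξ : fixA Ga K, ξ ≠ 0 →
      ∀ W : Set ℕ, (∀ h ∈ W, ∃ s ∈ S, c ((h : ℤ) • u) • s • ξ = ξ) → Low Kk W := by
    intro u hu S hS ξ hξ W hW
    let Y : Set (fixA Ga K) := (fun q : Gr ⧸ K => q • ξ) '' (F⁻¹ * S)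
    have hY : Y.Finite := (hF.inv.mul hS).image _
    have hξ' : (ξ : Ga) ≠ 0 := fun h => hξ (Subtype.ext h)
    refine ces_le Kk _ _ (ces_sum Kk hY.toFinset
      (fun b k => ka {y | P ((k : ℤ) • u) y • (b : Ga) = (ξ : Ga)})
      fun b _ => hdec u hu b ξ hξ') fun h => ?_
    by_cases hh : h ∈ W
    swap
    · rw [Set.indicator_of_notMem hh]
      exact zero_le
    rw [Set.indicator_of_mem hh]
    obtain ⟨s, hs, hs1⟩ := hW h hh
    have hcov : (Set.univ : Set Om) ⊆ {y | (c ((h : ℤ) • u))⁻¹ * (P ((h : ℤ) • u) y : Gr ⧸ K) ∉ F}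
        ∪ ⋃ b ∈ hY.toFinset, {y | P ((h : ℤ) • u) y • (b : Ga) = (ξ : Ga)} := by
      intro y _
      by_cases hy : (c ((h : ℤ) • u))⁻¹ * (P ((h : ℤ) • u) y : Gr ⧸ K) ∈ F
      · right
        refine Set.mem_biUnion (hY.mem_toFinset.mpr
          ⟨_, Set.mul_mem_mul (Set.inv_mem_inv.mpr hy) hs, rfl⟩) ?_
        show P ((h : ℤ) • u) y • _ = _
        rw [← qact_val, smul_smul]
        have h6 : (P ((h : ℤ) • u) y : Gr ⧸ K) *
            (((c ((h : ℤ) • u))⁻¹ * (P ((h : ℤ) • u) y : Gr ⧸ K))⁻¹ * s) = c ((h : ℤ) • u) * s := by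
          apply Additive.ofMul.injective
          simp only [ofMul_mul, ofMul_inv]
          abel
        rw [h6, mul_smul, hs1]
      · exact Or.inl hy
    set t := ∑ b ∈ hY.toFinset, ka {y | P ((h : ℤ) • u) y • (b : Ga) = (ξ : Ga)} with ht'
    have h7 : (1 : ℝ≥0∞) ≤ eps + t := by
      calc (1 : ℝ≥0∞) = ka Set.univ := measure_univ.symm
        _ ≤ _ := (measure_mono hcov).trans (measure_union_le _ _)
        _ ≤ eps + t := add_le_add (hc _) (measure_biUnion_finset_le _ _)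
    rcases le_total eps t with h8 | h8
    · exact h7.trans (add_le_add h8 le_rfl)
    · exact absurd h3 (not_lt.mpr ((h7.trans (add_le_add le_rfl h8)).trans le_self_add))
  have hND : ND (A := fixA Ga K) (fun k (d : ℤ) => c (d • r k)) Kk := by
    refine ⟨⟨F', hF', fun k d h => ?_⟩, hKk, fun k f ξ hξ => ?_, fun k k' hk f ξ hξ => ?_⟩
    · rw [add_smul]
      exact hq _ _
    · exact hlow _ (hr k) {f} (Set.finite_singleton f) ξ hξ _ fun h hh => ⟨f, rfl, hh⟩
    · refine hlow _ (hd k k' hk) (F' * {f}) (hF'.mul (Set.finite_singleton f)) ξ hξ _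
        fun h hh => ?_
      have h5 := hq ((h : ℤ) • (r k - r k')) ((h : ℤ) • r k')
      rw [← smul_add, sub_add_cancel] at h5
      refine ⟨_, Set.mul_mem_mul h5 rfl, ?_⟩
      have h6 : c ((h : ℤ) • r k) • f • ξ = c ((h : ℤ) • r k') • ξ := hh
      rw [← inv_smul_eq_iff, smul_smul, smul_smul] at h6
      rw [smul_smul]
      refine Eq.trans (congrArg (· • ξ) ?_) h6
      apply Additive.ofMul.injective
      simp only [ofMul_mul, ofMul_inv]
      abel
  let Z : Set (fixA Ga K) := Set.image2 (fun (q : Gr ⧸ K) a => q • a) F (Subtype.val ⁻¹' E)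
  have hZ : Z.Finite :=
    Set.Finite.image2 _ hF (hEf.preimage Subtype.val_injective.injOn)
  let ZZ : Set (I → fixA Ga K) := {z | (∀ k, z k ∈ Z) ∧ z k0 ≠ 0}
  have hZZ : ZZ.Finite := (Set.Finite.pi' fun _ => hZ).subset fun z hz => hz.1
  let Sol : (I → fixA Ga K) → Ga → Set ℤ := fun z b =>
    {d | ((∑ k, c (d • r k) • z k : fixA Ga K) : Ga) = b}
  have hS : ∀ z ∈ ZZ, ∀ t : ℝ≥0∞, 0 < t → ∀ᶠ i in atTop, ∀ b, nu i (Sol z b) ≤ t := by
    intro z hz t htp
    filter_upwards [hSp _ _ I _ Kk nu hnu hND z k0 hz.2 t htp] with i hi b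
    rcases Set.eq_empty_or_nonempty (Sol z b) with h | ⟨d0, h⟩
    · rw [h, measure_empty]
      exact zero_le
    · refine le_trans (measure_mono fun d hd' => ?_) (hi (∑ k, c (d0 • r k) • z k))
      exact Subtype.ext (Eq.trans hd' h.symm)
  obtain ⟨t0, ht0, ht1⟩ := ENNReal.exists_nnreal_pos_mul_lt
    (a := (hZZ.toFinset.card : ℝ≥0∞)) (ENNReal.natCast_ne_top _) hepos.ne'
  have hev : ∀ᶠ i in atTop, ∀ z ∈ hZZ.toFinset, ∀ b, nu i (Sol z b) ≤ t0 :=
    (eventually_all_finset _).mpr fun z hz =>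
      hS z (hZZ.mem_toFinset.mp hz) t0 (by exact_mod_cast ht0)
  obtain ⟨i, hrl, hi⟩ := (hrel.and_eventually hev).exists
  have hG := pm_swap (nu i) ka eta heta (fun b => ⋃ z ∈ hZZ.toFinset, Sol z b) eps (fun b => by
    refine (measure_biUnion_finset_le _ _).trans ?_
    refine (Finset.sum_le_sum fun z hz => hi z hz b).trans ?_
    rw [Finset.sum_const, nsmul_eq_mul, mul_comm]
    exact ht1.le)
  let BX : I → Set ((ℤ × ℤ) × Om) := fun k => {z | x k (T (z.1.1 • r k) z.2) ∉ E}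
  let BP : I → Set ((ℤ × ℤ) × Om) := fun k =>
    {z | (c (z.1.1 • r k))⁻¹ * (P (z.1.1 • r k) z.2 : Gr ⧸ K) ∉ F}
  have hBX : ∀ k, (((nu i).prod (nu i)).prod ka) (BX k) ≤ eps := fun k =>
    pm_le _ _ _ _ fun l => le_trans ((hT (l.1 • r k)).measure_preimage_le {y | x k y ∉ E}) (hxE k)
  have hBP : ∀ k, (((nu i).prod (nu i)).prod ka) (BP k) ≤ eps := fun k =>
    pm_le _ _ _ _ fun l => hc (l.1 • r k)
  have hcov : {z : (ℤ × ℤ) × Om |
      ∑ k, P (z.1.1 • r k) z.2 • x k (T (z.1.1 • r k) z.2) = eta z.1.2 z.2 ∧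
        x k0 (T (z.1.1 • r k0) z.2) ≠ 0}
      ⊆ {z | z.1.1 ∈ ⋃ zz ∈ hZZ.toFinset, Sol zz (eta z.1.2 z.2)} ∪
        ⋃ k ∈ (Finset.univ : Finset I), (BX k ∪ BP k) := by
    rintro ⟨⟨d, d'⟩, y⟩ ⟨h1, h2⟩
    by_cases hb : ((d, d'), y) ∈ ⋃ k ∈ (Finset.univ : Finset I), (BX k ∪ BP k)
    · exact Or.inr hb
    left
    simp only [Set.mem_iUnion, Set.mem_union, not_exists, not_or, BX, BP, Set.mem_ofPred_eq,
      not_not, Finset.mem_univ, forall_const] at hb
    let w : I → fixA Ga K := fun k => ⟨x k (T (d • r k) y), hFE _ (hb k).1⟩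
    let zz : I → fixA Ga K := fun k => ((c (d • r k))⁻¹ * (P (d • r k) y : Gr ⧸ K)) • w k
    have hzz : zz ∈ ZZ := ⟨fun k => Set.mem_image2_of_mem (hb k).2 (hb k).1,
      (smul_ne_zero_iff_ne _).mpr fun h => h2 (congrArg Subtype.val h)⟩
    refine Set.mem_biUnion (hZZ.mem_toFinset.mpr hzz) ?_
    show ((∑ k, c (d • r k) • zz k : fixA Ga K) : Ga) = eta d' y
    rw [AddSubgroup.val_finsetSum]
    refine Eq.trans (Finset.sum_congr rfl fun k _ => ?_) h1
    simp only [zz]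
    rw [smul_smul, mul_inv_cancel_left, qact_val]
  have hfin : de ≤ eps + ∑ _k : I, (eps + eps) := by
    refine hrl.trans ((measure_mono hcov).trans ((measure_union_le _ _).trans
      (add_le_add hG ((measure_biUnion_finset_le _ _).trans (Finset.sum_le_sum fun k _ => ?_)))))
    exact (measure_union_le _ _).trans (add_le_add (hBX k) (hBP k))
  refine absurd hK (not_lt.mpr (hfin.trans ?_))
  have : eps + ∑ _k : I, (eps + eps) = eps * ((2 * Fintype.card I + 1 : ℕ) : ℝ≥0∞) := by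
    rw [Finset.sum_const, Finset.card_univ, nsmul_eq_mul]
    push_cast
    ring
  rw [this]
  gcongr
  omega

end Pool.Agent.MP_154433_an.T4A

end PkCore

section PkFin

/-! The last step: passage to the commutative group generated by the values of the cocycle. -/

set_option autoImplicit false
set_option linter.unusedVariables false

open MeasureTheory ProbabilityTheory Filter Topology Set
open scoped ENNReal

namespace Pool.Agent.MP_154433_an.T4A

open T3A

theorem xFin : FinS := by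
  classical
  intro core G Ga _ _ _ _ Y _ m _ T hT P hPm C hC hPC hco ht nu _ hsp I _ r dir hr hd k0 x eta hx
    heta de hde hrel K hK hdec
  have hcm : IsMulCommutative (Subgroup.closure C) := Subgroup.isMulCommutative_closure hC
  let : CommGroup (Subgroup.closure C) :=
    { (inferInstance : Group (Subgroup.closure C)) with
      mul_comm := fun a b => hcm.is_comm.comm a b }
  let P' : G → Y → Subgroup.closure C := fun n y =>
    if h : P n y ∈ C then ⟨P n y, Subgroup.subset_closure h⟩ else 1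
  have hall : ∀ᵐ y ∂m, ∀ n, (P' n y : Au Ga) = P n y := by
    filter_upwards [ae_all_iff.mpr hPC] with y hy n
    simp [P', hy n]
  have hsm : ∀ (g : Subgroup.closure C) (a : Ga), g • a = (g : Au Ga) a := fun _ _ => rfl
  have hsnd : ∀ i, ∀ᵐ z ∂((nu i).prod (nu i)).prod m, ∀ n, (P' n z.2 : Au Ga) = P n z.2 :=
    fun i => Measure.quasiMeasurePreserving_snd.ae hall
  refine core G Y Ga (Subgroup.closure C) I m (tz T) hT P' ?_ ?_ nu hsp r dir hr hd k0 x eta
    (fun k a => (hx k a).nullMeasurableSet) (fun d a => (heta d a).nullMeasurableSet) de hde ?_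
    K hK ?_
  · intro n k
    filter_upwards [hco n k, hall, (hT n).quasiMeasurePreserving.ae hall] with y h1 h2 h3
    apply Subtype.ext
    rw [Subgroup.coe_mul, h2, h2, h3, h1]
  · intro a eps he
    obtain ⟨F, hF⟩ := ht a eps he
    refine ⟨F, fun n => le_trans (le_of_eq (measure_congr ?_)) (hF n)⟩
    filter_upwards [Measure.quasiMeasurePreserving_fst.ae hall,
      Measure.quasiMeasurePreserving_snd.ae hall] with p h1 h2
    show (((P' n p.2)⁻¹ * P' n p.1) • a ∉ F) = ((P n p.2)⁻¹ (P n p.1 a) ∉ F)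
    rw [hsm, Subgroup.coe_mul, Subgroup.coe_inv, h1, h2]
    rfl
  · refine hrel.mono fun i hi => le_trans hi (le_of_eq (measure_congr ?_))
    filter_upwards [hsnd i] with z hz
    show (_ ∧ _) = (_ ∧ _)
    simp only [hsm, hz]
  · intro u hu a b hb
    have e : (fun k : ℕ => m {y | P' ((k : ℤ) • u) y • a = b}) =
        fun k : ℕ => m {y | P ((k : ℤ) • u) y a = b} := by
      funext k
      refine measure_congr ?_
      filter_upwards [hall] with y hy
      show (_ = _) = (_ = _)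
      simp only [hsm, hy]
    rw [e]
    exact hdec u hu a b hb

end Pool.Agent.MP_154433_an.T4A

end PkFin

section PkOwn

/-! The algebraic step for group actions: assembly. -/

set_option autoImplicit false
set_option linter.unusedVariables false
set_option linter.unusedSectionVars false

open MeasureTheory ProbabilityTheory Filter Topology Set
open scoped ENNReal

namespace Pool.Agent.MP_154433_an.T4A

open T3A

noncomputable section

theorem xW0 (hL : LimS) {G Ω V J : Type} [AddCommGroup G] [MeasurableSpace Ω]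
    [StandardBorelSpace Ω] [AddCommGroup V] [Countable V] (B : Bun G Ω V J) (j : J) :
    ∃ w, IsLim B j w := by
  have hm : ∀ M, Measurable (B.pt j M) := B.measurable_pt j
  obtain ⟨w, hw, h⟩ := hL Ω (V × V) B.μ (fun M => (B.P M).map (B.pt j M)) B.U
    (fun M => Measure.isProbabilityMeasure_map (hm M).aemeasurable)
    (fun M => by
      rw [Measure.map_map measurable_fst.fst (hm M)]
      ext A hA
      rw [Measure.map_apply (measurable_fst.fst.comp (hm M)) hA, Bun.P,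
        PM_apply _ _ ((measurable_fst.fst.comp (hm M)) hA)]
      have : ∀ d : ℤ × ℤ, B.μ (Prod.mk d ⁻¹' ((fun z : (Ω × Ω) × Arr V => z.1.1) ∘ B.pt j M ⁻¹' A))
          = B.μ A := fun d => rfl
      simp only [this, lintegral_const, measure_univ, mul_one])
    (fun M => by
      rw [Measure.map_map measurable_fst.snd (hm M)]
      ext A hA
      rw [Measure.map_apply (measurable_fst.snd.comp (hm M)) hA, Bun.P,
        PM_apply _ _ ((measurable_fst.snd.comp (hm M)) hA)]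
      have : ∀ d : ℤ × ℤ, B.μ (Prod.mk d ⁻¹' ((fun z : (Ω × Ω) × Arr V => z.1.2) ∘ B.pt j M ⁻¹' A))
          = B.μ A := fun d => (B.mp (B.st j d)).measure_preimage hA.nullMeasurableSet
      simp only [this, lintegral_const, measure_univ, mul_one])
  refine ⟨w, hw, fun E hE => ?_⟩
  have := h E hE
  simpa only [Measure.map_apply (hm _) hE.meas] using this

theorem xHat : HatS := by
  intro hI hX G Ω V J _ _ _ _ _ _ B κ L Ip Φ hκ hΦ
  have := hκ.markov
  have := hΦ.markov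
  have : Nonempty Ω := nonempty_of_isProbabilityMeasure B.μ
  have : IsMarkovKernel (Xi κ Φ) := by unfold Xi; infer_instance
  obtain ⟨x1, x2, x3, x4⟩ := hX G Ω V B.toBase κ Φ hκ hΦ.eqv
  let R : Act G (Ω × (Arr V × Arr V)) :=
    { f := fun n => Prod.map (tz B.T n) (Prod.map (sh B.σ n n) (sh B.σ n n))
      meas := fun n => (measurable_tz B.T n).prodMap
        ((measurable_sh B.σ n n).prodMap (measurable_sh B.σ n n))
      zero := fun y => by simp [Prod.map]
      add := fun m n y => by simp [Prod.map, tz_add, sh_sh] }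
  obtain ⟨μ', T', hp, hT, hmp, hlaw, hhit⟩ :=
    hI G Ω (Ω × (Arr V × Arr V)) B.μ B.T R (Xi κ Φ) B.mp x1
  have hi : ∀ i : ℕ, Measurable fun x : Ω × (ℕ → Ω × (Arr V × Arr V)) => x.2 i := fun i =>
    (measurable_pi_apply i).comp measurable_snd
  have hfst : MeasurePreserving Prod.fst μ' B.μ := by
    refine ⟨measurable_fst, ?_⟩
    have h0 := congrArg (Measure.map Prod.fst) (hlaw 0)
    rw [Measure.map_map measurable_fst (measurable_fst.prodMk (hi 0))] at h0
    exact h0.trans (Measure.fst_compProd B.μ (Xi κ Φ))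
  let B' : Bun G (Ω × (ℕ → Ω × (Arr V × Arr V))) V J :=
    { μ := μ', prob := hp, T := T', mp := hmp, σ := B.σ, N := fun x => B.N x.1
      mN := fun c => measurable_fst (B.mN c)
      eqz := fun n c x => by rw [hT]; exact B.eqz n c x.1
      ν := B.ν, pν := B.pν, U := B.U, a := B.a, b := B.b
      Sg := fun j M d x => B.Sg j M d x.1
      mS := fun j M d => (B.mS j M d).comp measurable_fst }
  refine ⟨_, inferInstance, inferInstance, B', Prod.fst, fun i x => (x.2 i).1,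
    fun i x => (x.2 i).2.1, fun i x => (x.2 i).2.2,
    ⟨hfst, fun n y => by change (tz T' n y).1 = _; rw [hT], rfl, fun _ => rfl, rfl, rfl, rfl, rfl,
      fun _ _ _ _ => rfl⟩,
    fun i => (hi i).fst, fun i => (hi i).snd.fst, fun i => (hi i).snd.snd,
    fun i n y => by change ((tz T' n y).2 i).2.1 = _; rw [hT]; rfl,
    fun i n y => by change ((tz T' n y).2 i).2.2 = _; rw [hT]; rfl, fun i => ?_, fun i => ?_, ?_⟩
  · rw [← x2, ← hlaw i, Measure.map_map (by fun_prop) (measurable_fst.prodMk (hi i))]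
    rfl
  · rw [← x3, ← hlaw i, Measure.map_map (by fun_prop) (measurable_fst.prodMk (hi i))]
    rfl
  · intro P P' hP hP'
    refine ⟨{y | Xi κ Φ y {x | x.2.1 ∈ P ∧ x.2.2 ∈ P'} ≠ 0}, x4 P P' hP hP', ?_⟩
    exact hhit {x | x.2.1 ∈ P ∧ x.2.2 ∈ P'}
      ((measurable_snd.fst hP).inter (measurable_snd.snd hP'))

/-- all rows -/
structure Rows : Prop where
  kex : KexS
  ka : KaS
  kb : KbS
  kc : KcS
  kd : KdS
  lim : LimS
  w1 : W1S
  w2 : W2S
  phb : PhbS
  kw : KwS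
  wk : WkS
  wa : WaS
  ce : CeS
  ci : CiS
  tri : TriS
  cis : CisS
  cfl : CflS
  cit : CitS
  cpo : CpoS
  cpr : CprS
  pk : PkS
  lam : LamS
  lae : LaeS
  pha : PhaS
  phc : PhcS
  f2 : F2S
  f3 : F3S
  f4 : F4S
  iid : IidS
  xi : XiS
  pull : PullS
  push : PushS
  int : IntS
  prj : PrjS
  g5 : G5S
  g3 : G3S
  g4 : G4S
  rli : RliS
  t1 : T1S
  t2 : T2S
  sel : SelS
  sub : SubS
  tau : TauS
  mk' : MkS
  th : ThS
  psi : PsiS
  psr : PsrS
  sd : SdS
  ct : CtS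
  fin : FinO

section

variable {G Ω V J : Type} [AddCommGroup G] [Countable G] [MeasurableSpace Ω] [AddCommGroup V]
  [Countable V]

/-- composition along a list of types -/
def cmpL (K : J → Kernel Ω (Ω × Arr V)) (j0 : J) : List J → Kernel Ω (Ω × Arr V)
  | [] => K j0
  | j :: l => star (K j) (cmpL K j0 l)

lemma kd_star (R : Rows) {A : Base G Ω V} {H1 H2 : Set G} {K1 K2 : Kernel Ω (Ω × Arr V)}
    (h1 : KD A H1 K1) (h2 : KD A H2 K2) :
    KD A (H1 ∪ H2) (star K1 K2) ∧ Tri (wOf A.μ K1) (wOf A.μ K2) (wOf A.μ (star K1 K2)) := by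
  have := h1.markov
  have := h2.markov
  have t := R.tri Ω V A.μ K1 K2 (R.wk G Ω V A H1 K1 h1).tgt
  obtain ⟨c1, c2⟩ := R.ci G Ω V A H1 H2 K1 K2 h1 h2
  exact ⟨⟨inferInstance, R.ce G Ω V A H1 H2 K1 K2 h1 h2, c1, c2,
    R.cis G Ω V A _ _ _ t h1.iso h2.iso⟩, t⟩

lemma kd_cmpL (R : Rows) {A : Base G Ω V} {H : J → Set G} {K : J → Kernel Ω (Ω × Arr V)}
    (h : ∀ j, KD A (H j) (K j)) (j0 : J) (l : List J) :
    ∃ H0, (∀ j ∈ l, H j ⊆ H0) ∧ KD A H0 (cmpL K j0 l) := by
  induction l with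
  | nil => exact ⟨H j0, by simp, h j0⟩
  | cons j l ih =>
    obtain ⟨H0, h1, h2⟩ := ih
    refine ⟨H j ∪ H0, fun k hk => ?_, (kd_star R (h j) h2).1⟩
    rcases List.mem_cons.1 hk with rfl | hk
    · exact subset_union_left
    · exact (h1 k hk).trans subset_union_right

/-- a property of the laws that is kept by composition -/
lemma ind_cmpL (R : Rows) {A : Base G Ω V} {H : J → Set G} {K : J → Kernel Ω (Ω × Arr V)}
    (h : ∀ j, KD A (H j) (K j)) (j0 : J) (Q : Kernel Ω (Ω × Arr V) → Prop) (h0 : Q (K j0))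
    (hs : ∀ j H0 K0, KD A H0 K0 → Q K0 → Q (star (K j) K0)) (l : List J) : Q (cmpL K j0 l) := by
  induction l with
  | nil => exact h0
  | cons j l ih =>
    obtain ⟨H0, -, h2⟩ := kd_cmpL R h j0 l
    exact hs j H0 _ h2 ih

/-- the general construction on a standard Borel base -/
lemma cons (R : Rows) [StandardBorelSpace Ω] [Fintype J] (B : Bun G Ω V J) (h : H0 B) (j0 : J)
    (hg : AddSubgroup.closure (range B.a ∪ range B.b) = ⊤) :
    ∃ (κ : Kernel Ω Ω) (K : J → Kernel Ω (Ω × Arr V)) (H : Set G) (Ip : Set Ω)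
      (Φ : Kernel (Ω × Ω) (Arr V)), ErgP B.μ B.T κ ∧ (∀ j, IsLim B j (wOf B.μ (K j))) ∧
      (∀ j, KD B.toBase {B.a j, B.b j} (K j)) ∧
      KD B.toBase H (cmpL K j0 Finset.univ.toList) ∧
      LamP B.toBase κ (wOf B.μ (cmpL K j0 Finset.univ.toList)) ∧
      PhiD B.toBase κ (Lam B.toBase (wOf B.μ (cmpL K j0 Finset.univ.toList))) Ip Φ := by
  obtain ⟨κ, hκ⟩ := R.kex G Ω B.μ B.T B.mp
  obtain ⟨a1, a2, a3⟩ := R.ka G Ω B.μ B.T κ B.mp hκ
  obtain ⟨b1, b2⟩ := R.kb G Ω B.μ B.T κ B.mp hκ a2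
  have hP : ErgP B.μ B.T κ := ⟨hκ, a1, a2, a3, b1, b2, R.kc G Ω B.μ B.T κ B.mp hκ⟩
  have hK : ∀ j, ∃ K, IsLim B j (wOf B.μ K) ∧ KD B.toBase {B.a j, B.b j} K := by
    intro j
    obtain ⟨w, hw⟩ := xW0 R.lim B j
    obtain ⟨w1, w2⟩ := R.w1 xExt G Ω V J B j w hw h
    obtain ⟨K, rfl, hK⟩ := R.kw R.phb G Ω V J B j w hw h.mix w1 w2 (R.w2 G Ω V J B j w hw h)
    exact ⟨K, hw, hK⟩
  choose K hK1 hK2 using hK
  obtain ⟨H, hH, hD⟩ := kd_cmpL R hK2 j0 Finset.univ.toList
  have hW := R.wk G Ω V B.toBase H _ hD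
  have := hW.prob
  have hcl : AddSubgroup.closure H = ⊤ := by
    refine top_le_iff.1 (hg ▸ AddSubgroup.closure_mono ?_)
    rintro _ (⟨j, rfl⟩ | ⟨j, rfl⟩)
    · exact hH j (by simp) (by simp)
    · exact hH j (by simp) (by simp)
  have hL := R.lam G Ω V B.toBase κ _ hP hW.inv (R.wa G Ω V B.toBase H _ κ hD hcl hκ)
  obtain ⟨Ip, Φ, hΦ⟩ := R.phc R.pha R.phb G Ω V B.toBase κ _ hP hL
  exact ⟨κ, K, H, Ip, Φ, hP, hK1, hK2, hD, hL, hΦ⟩

lemma flatM_of_flat {B : Bun G Ω V J} {j : J} {w : Measure ((Ω × Ω) × Arr V)} (hw : IsLim B j w)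
    (h : Flat B) : FlatM B w := by
  intro k c11 c12 c21 c22
  have := h k j c11 c12 c21 c22
  simpa only [fun M d => (hw.2 _ (B.cyl_flatS k M d c11 c12 c21 c22)).limsup_eq] using this

end

theorem algS_of_rows (R : Rows) : AlgS := by
  intro G X V J _ _ _ _ _ _ _ B0 D δ hδ hU hS0 hg h0 hF hR hD
  obtain ⟨j0⟩ : Nonempty J := inferInstance
  obtain ⟨Ω, _, _, B, p0, e0⟩ := R.push G X V J B0
  obtain ⟨q1, q2, q3, q4⟩ := R.pull G X Ω V J B0 B p0 e0
  have h := q1.1 h0
  have hgB : AddSubgroup.closure (range B.a ∪ range B.b) = ⊤ := by rw [← e0.ha, ← e0.hb]; exact hg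
  obtain ⟨κ, K, H, Ip, Φ, hκ, hw, hK, hK0, hL, hΦ⟩ := cons R B h j0 hgB
  have hW := R.wk G Ω V B.toBase H _ hK0
  have := hW.prob
  have := hκ.markov
  have := hL.fin
  have hI := (R.lae G Ω V B.toBase κ _ hL).1 hK0.iso
  have fl0 : FlatM B (wOf B.μ (cmpL K j0 Finset.univ.toList)) :=
    ind_cmpL R hK j0 (fun K0 => FlatM B (wOf B.μ K0)) (flatM_of_flat (hw j0) (q2.1 hF))
      (fun j H0 K0 h1 h2 => R.cfl G Ω V J B _ _ _ (kd_star R (hK j) h1).2
        (R.wk G Ω V B.toBase _ _ (hK j)).inv (hK j).iso h1.iso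
        (flatM_of_flat (hw j) (q2.1 hF)) h2) _
  have fl : FlatM B (Lf B.toBase κ Φ) :=
    R.f4 G Ω V J B κ _ Ip Φ hΦ (R.f3 G Ω V J B _ (R.f2 G Ω V J B _ fl0 h hW.src))
  obtain ⟨Y, _, _, B', p, e, S, S', hS⟩ := xHat R.iid R.xi G Ω V J B κ _ Ip Φ hκ hΦ
  obtain ⟨r1, -, r3, r4⟩ := R.pull G Y Ω V J B' B p hS.ext
  have hgB' : AddSubgroup.closure (range B'.a ∪ range B'.b) = ⊤ := by
    rw [hS.ext.ha, hS.ext.hb]; exact hgB
  obtain ⟨κ', K', H', Ip', Φ', hκ', hw', hK', hK0', hL', hΦ'⟩ := cons R B' (r1.2 h) j0 hgB'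
  have := hκ'.markov
  have mK : ∀ j, IsMarkovKernel (K j) := fun j => (hK j).markov
  have mK' : ∀ j, IsMarkovKernel (K' j) := fun j => (hK' j).markov
  have := hK0.markov
  have := hK0'.markov
  have mp := hS.ext.mp.measurable
  have pk : ∀ j, PrK B'.μ p (K' j) (K j) := fun j =>
    R.pk G Y Ω V J B' B p j (K' j) (K j) hS.ext (hw' j) (hw j)
  have pk0 : ∀ l : List J, PrK B'.μ p (cmpL K' j0 l) (cmpL K j0 l) := by
    intro l
    induction l with
    | nil => exact pk j0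
    | cons j l ih =>
      obtain ⟨_, -, k1⟩ := kd_cmpL R hK j0 l
      obtain ⟨_, -, k2⟩ := kd_cmpL R hK' j0 l
      have := k1.markov
      have := k2.markov
      exact R.cpr Y Ω V B'.μ p (K' j) _ (K j) _ mp (R.wk G Y V B'.toBase _ _ (hK' j)).tgt (pk j) ih
  have hpr := R.prj G Y Ω V J B' B p κ' κ _ _ hS.ext (pk0 _) hL' hL
  have hkd := R.kd G Y Ω B'.μ B.μ B'.T B.T κ' κ p B'.mp B.mp hκ'.toErgK hκ.toErgK hS.ext.mp
    hS.ext.comm
  have geq : ∀ i n y, loop (S i (tz B'.T n y)) (S' i (tz B'.T n y)) =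
      sh B'.σ n n (loop (S i y) (S' i y)) := by
    intro i n y
    rw [hS.eqv, hS.eqv', loop_sh, hS.ext.hσ]
  have mg : ∀ i, Measurable fun y => loop (S i y) (S' i y) := fun i =>
    measurable_loop (hS.mS i) (hS.mS' i)
  have g5 := R.g5 G Y Ω V J B' B p κ _ Ip Φ e S S' hS hΦ hI
  have tot : ∀ j, ∀ᵐ z ∂(wOf B'.μ (K' j)), ∀ i, (loop (S i z.1.1) (S' i z.1.1)).Nonempty →
      ∀ c, ∃ c', (c, c') ∈ loop (S i z.1.2) (S' i z.1.2) := by
    intro j
    have w := R.wk G Y V B'.toBase _ _ (hK' j)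
    have c1 := w.conc (p ⁻¹' Ip) (mp hΦ.mI) fun n => EventuallyEq.of_eq (by
      ext y
      change p (tz B'.T n y) ∈ Ip ↔ p y ∈ Ip
      rw [hS.ext.comm, mem_tz B.T hΦ.inv])
    have c2 := ae_of_ae_map measurable_fst.fst.aemeasurable (w.src.symm ▸ g5)
    have c3 := ae_of_ae_map measurable_fst.snd.aemeasurable (w.tgt.symm ▸ g5)
    filter_upwards [c1, c2, c3] with z h1 h2 h3 i hne c
    by_cases hz : p z.1.1 ∈ Ip
    · exact (h3.1 (h1 hz) i).totL c
    · rw [h2.2 hz i] at hne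
      exact absurd hne Set.not_nonempty_empty
  have it0 : ItwW (fun i y => loop (S i y) (S' i y)) (wOf B'.μ (cmpL K' j0 Finset.univ.toList)) :=
    ind_cmpL R hK' j0 (fun K0 => ItwW (fun i y => loop (S i y) (S' i y)) (wOf B'.μ K0))
      (R.int G Y Ω V J B' B p κ Φ e S S' j0 _ hS fl (hw' j0))
      (fun j H0 K0 h1 h2 => R.cit Y V _ _ _ _ (kd_star R (hK' j) h1).2 mg (tot j)
        (R.int G Y Ω V J B' B p κ Φ e S S' j _ hS fl (hw' j)) h2) _
  have po0 : ∀ᵐ y ∂B'.μ, (∀ j, y ∈ Sup (K' j)) → y ∈ Sup (cmpL K' j0 Finset.univ.toList) :=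
    ind_cmpL R hK' j0 (fun K0 => ∀ᵐ y ∂B'.μ, (∀ j, y ∈ Sup (K' j)) → y ∈ Sup K0)
      (Eventually.of_forall fun y hy => hy j0)
      (fun j H0 K0 h1 h2 => by
        filter_upwards [h2, R.cpo R.wk G Y V B'.toBase _ _ _ _ (hK' j) h1] with y a1 a2 hy
        exact a2 (hy j) (a1 hy)) _
  obtain ⟨g1, g2⟩ := R.g4 G Y Ω V J B' B p κ' κ _ _ Ip' Ip Φ' Φ e S S' hS hΦ' hΦ hpr hkd
  have k1 : ∀ᵐ z ∂(Lp B'.toBase κ' Ip' Φ'), Iso (B'.N z.1.1) (B'.N z.1.2) z.2 :=
    Filter.Eventually.filter_mono hΦ'.ac1.ae_le ((R.lae G Y V B'.toBase κ' _ hL').1 hK0'.iso)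
  have k2 : ∀ᵐ z ∂(Lp B'.toBase κ' Ip' Φ'), ∀ i, Itw (loop (S i z.1.1) (S' i z.1.1))
      (loop (S i z.1.2) (S' i z.1.2)) z.2 :=
    Filter.Eventually.filter_mono hΦ'.ac1.ae_le
      ((R.lae G Y V B'.toBase κ' _ hL').2 (fun i y => loop (S i y) (S' i y)) mg geq it0)
  have k3 : ∀ᵐ y ∂B'.μ, y ∈ Ip' → ∀ i, Iso (B'.N y) (B'.N y) (loop (S i y) (S' i y)) := by
    filter_upwards [g5, R.g3 G Y Ω V J B' B p κ' κ _ _ Ip' Ip Φ' Φ mp hΦ' hΦ hpr] with y a1 a2 hy
    exact a1.1 (a2 hy)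
  have hH : HatD B'.toBase κ' Ip' Φ' (fun i y => loop (S i y) (S' i y))
      (fun z a b => Φ (p z.1, p z.2) {R | a ∈ R ∧ b ∈ R} ≠ 0) :=
    ⟨geq, fun n E hE h1 => hΦ'.ac1 (hL'.quasi 0 n E hE (hΦ'.ac2 h1)), k1, k2, g1, k3, g2⟩
  have hδ2 : 0 < δ / 2 := ENNReal.half_pos hδ.ne'
  have hU' : (B'.U : Filter ℕ) ≤ atTop := by rw [hS.ext.hU, ← e0.hU]; exact hU
  have rl := R.rli G Y V J B' κ' K' _ Ip' Φ' D δ hw' po0 hL' hΦ' hδ ((r3 D δ).2 ((q3 D δ).1 hR))
  obtain ⟨A, N0, τ, G0, m2, Ks, hX, hrel, hKs, hdec⟩ := R.tau R.t1 R.t2 R.sel R.sub G Y V J B' κ'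
    _ Ip' Φ' _ _ D (δ / 2) hκ' hΦ' hH hδ2 (rl.frequently.filter_mono hU')
    ((r4 D id).2 ((q4 D id).1 hD))
  have : Countable (V ⧸ N0) := QuotientAddGroup.mk_surjective.countable
  obtain ⟨θ, γ, hT⟩ := R.th R.mk' G Y V A N0 τ G0 _ m2 hX
  obtain ⟨Ψ, hΨ⟩ := R.psi R.mk' G Y V _ A θ hT.toTh
  obtain ⟨s1, s2⟩ := R.psr G Y V _ A θ Ψ D hT.toTh hΨ
  obtain ⟨s, ms, hs⟩ := R.sd R.mk' G Y V _ A θ γ _ m2 hT hX.fst2 hX.iso2
  obtain ⟨C, c1, c2, c3⟩ := R.ct G Y V _ A θ γ _ Ψ m2 s hT hΨ hX.fst2 hX.inv2 ms hs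
  have hS' : SprM B'.ν := by rw [hS.ext.hν, ← e0.hν]; exact hS0
  exact R.fin G _ Y A.μ A.T A.mp Ψ hΨ.mΨ C c1 c2 hΨ.coc c3 B'.ν hS' D.I D.r D.dir D.hr D.hd D.k0
    (fun k y => θ y (D.c k)) (fun d y => θ y (D.b d)) (fun k ξ => hT.mθ _ ξ)
    (fun d ξ => hT.mθ _ ξ) _ (ENNReal.half_pos hδ2.ne')
    (hrel.mono fun M hM => hM.trans (s1 _)) Ks hKs (s2 Ks hdec)

end

end Pool.Agent.MP_154433_an.T4A

end PkOwn

section PkConvA

/-! From the weights of the main development to measures. -/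

set_option autoImplicit false
set_option linter.unusedVariables false

open MeasureTheory ProbabilityTheory Filter Topology Set
open scoped ENNReal

namespace Pool.Agent.MP_154433_an.T4A

open T3A

noncomputable section

open T3x (Wt Lab)

theorem spr_of {ν : Wt} (h : T4x.SPR ν) : SprM (wm ν) := by
  have key : ∀ (M : ℕ) (S : Set ℤ),
      wm ν M S = ENNReal.ofReal (ν.av M (S.indicator fun _ => (1 : ℝ))) := by
    intro M S
    rw [← lint_wm' ν M fun d => indicator_nonneg (fun _ _ => zero_le_one) d,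
      ← lintegral_indicator_one (Set.to_countable S).measurableSet]
    refine lintegral_congr fun d => ?_
    by_cases hd : d ∈ S <;> simp [hd]
  refine ⟨h.1.mono fun M hM => ?_, fun r s L N ε H hε hH => (h.2 r s L N ε H hε hH).mono
    fun M hM m d0 h1 h2 h3 => ?_⟩
  · rw [key, Wt.av, Finset.sum_eq_zero, ENNReal.ofReal_zero]
    intro d hd
    rw [indicator_of_notMem (s := {d : ℤ | ¬ |d| ≤ M}) (fun hc => hc (hM d hd)), smul_zero]
  · rw [key]
    exact ENNReal.ofReal_le_ofReal (hM m d0 h1 h2 h3)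

theorem mix_of [T4x.Grp] (bt : T4x.BasT) (ν : Wt) (U : Ultrafilter ℕ)
    (hU : (U : Filter ℕ) ≤ atTop) (hm : T4x.Mix ν) : Mix T4x.Γ (wm ν) U := by
  intro Y _ μ _ T hT a b A' hA'
  let X : T4x.Sys :=
    { X := Y, μ := μ, Tz := tz T, mp := hT, zero := tz_zero T, add := tz_add T }
  have hle : T4x.Inv X {-a, b} ≤ ‹MeasurableSpace Y› := (bt.finv X _).le
  have hi : ∀ {A : Set Y}, MeasurableSet A → Integrable (A.indicator fun _ => (1 : ℝ)) μ :=
    fun hA => (integrable_const 1).indicator hA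
  have cx : ∀ {A : Set Y}, MeasurableSet A →
      (fun y => (((μ[A.indicator fun _ => (1 : ℝ) | T4x.Inv X {-a, b}]) y : ℝ) : ℂ)) =ᵐ[μ]
        μ[A.indicator fun _ => (1 : ℂ) | T4x.Inv X {-a, b}] := by
    intro A hA
    have e : (Complex.ofRealCLM ∘ A.indicator fun _ => (1 : ℝ)) = A.indicator fun _ => (1 : ℂ) := by
      funext y
      by_cases hy : y ∈ A <;> simp [hy]
    have := Complex.ofRealCLM.comp_condExp_comm (m := T4x.Inv X {-a, b}) (hi hA)
    rw [e] at this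
    exact this
  set g0 := μ[A'.indicator fun _ => (1 : ℝ) | T4x.Inv X {-a, b}] with hg0
  have gm : StronglyMeasurable[T4x.Inv X {-a, b}] g0 := stronglyMeasurable_condExp
  have gn : 0 ≤ᵐ[μ] g0 := condExp_nonneg
    (Eventually.of_forall fun y => indicator_nonneg (fun _ _ => zero_le_one) y)
  have gi : Integrable g0 μ := integrable_condExp
  have gc : StronglyMeasurable[T4x.Inv X {-a, b}] fun y => ((g0 y : ℝ) : ℂ) :=
    Complex.continuous_ofReal.comp_stronglyMeasurable gm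
  have ginv := (bt.inv_iff X {-a, b} (fun y => ((g0 y : ℝ) : ℂ))
    (gc.mono hle).aestronglyMeasurable).1 gc.aestronglyMeasurable
  have hset : ∀ D, ∫⁻ y in D, ENNReal.ofReal (g0 y) ∂μ = ENNReal.ofReal (∫ y in D, g0 y ∂μ) :=
    fun D => (ofReal_integral_eq_lintegral_ofReal gi.integrableOn (ae_restrict_of_ae gn)).symm
  refine ⟨fun y => ENNReal.ofReal (g0 y), (gm.mono hle).measurable.ennreal_ofReal, ?_, ?_,
    fun D hD h1 h2 => ?_, fun A hA => ?_⟩
  · filter_upwards [(hT a).quasiMeasurePreserving.ae (ginv (-a) (by simp))] with y hy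
    have e : ((g0 (tz T (-a) (tz T a y)) : ℝ) : ℂ) = (g0 (tz T a y) : ℝ) := hy
    rw [tz_neg_tz] at e
    rw [← Complex.ofReal_injective e]
  · filter_upwards [ginv b (by simp)] with y hy
    have e : ((g0 (tz T b y) : ℝ) : ℂ) = (g0 y : ℝ) := hy
    rw [Complex.ofReal_injective e]
  · have hDI : MeasurableSet[T4x.Inv X {-a, b}] D := by
      refine ⟨hD, fun h hh => ?_⟩
      rcases hh with rfl | rfl
      · filter_upwards [(hT (-a)).quasiMeasurePreserving.ae h1] with y hy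
        have e : (tz T a (tz T (-a) y) ∈ D) = (tz T (-a) y ∈ D) := hy
        rw [tz_tz_neg] at e
        exact e.symm
      · exact h2
    rw [hset, hg0, setIntegral_condExp hle (hi hA') hDI, setIntegral_indicator hA',
      setIntegral_const, smul_eq_mul, mul_one, inter_comm, ofReal_measureReal]
  · have bm : ∀ {A : Set Y}, MeasurableSet A → Fib27.BM μ ‹MeasurableSpace Y›
        (A.indicator fun _ => (1 : ℂ)) := fun {A} hA =>
      ⟨(measurable_const.indicator hA).aestronglyMeasurable, 1, Eventually.of_forall fun y => by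
        by_cases hy : y ∈ A <;> simp [hy]⟩
    have l := hm.pair X (-a, true) (b, false) _ _ (bm hA) (bm hA')
    have hpg : T4x.pg (-a, true) (b, false) = {-a, b} := by simp [T4x.pg]
    rw [hpg] at l
    have e2 : (A.indicator fun _ => (1 : ℝ)) * g0 = A.indicator g0 := by
      funext y
      by_cases hy : y ∈ A <;> simp [hy]
    have e3 := condExp_mul_of_stronglyMeasurable_right (μ := μ) gm
      (f := A.indicator fun _ => (1 : ℝ)) (by rw [e2]; exact gi.indicator hA) (hi hA)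
    have hval : ∫ x, (μ[A.indicator fun _ => (1 : ℂ) | T4x.Inv X {-a, b}]) x *
        (μ[A'.indicator fun _ => (1 : ℂ) | T4x.Inv X {-a, b}]) x ∂μ =
        ((∫ y in A, g0 y ∂μ : ℝ) : ℂ) := by
      rw [← integral_indicator hA, ← e2, ← integral_condExp hle (f := _ * g0), integral_congr_ae e3,
        ← integral_complex_ofReal]
      refine integral_congr_ae ?_
      filter_upwards [cx hA, cx hA'] with y h1 h2
      rw [← h1, ← h2, Pi.mul_apply, Complex.ofReal_mul]
    have hterm : ∀ l : Lab, ∫ x, (A.indicator fun _ => (1 : ℂ)) (X.Tz (T4x.rho (-a, true) l) x) *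
        (A'.indicator fun _ => (1 : ℂ)) (X.Tz (T4x.rho (b, false) l) x) ∂μ =
        ((μ.real (A ∩ tz T (l.2.1 • a + l.2.2 • b) ⁻¹' A') : ℝ) : ℂ) := by
      intro l
      have hS : MeasurableSet (A ∩ tz T (l.2.1 • a + l.2.2 • b) ⁻¹' A') :=
        hA.inter (measurable_tz T _ hA')
      rw [← (hT (l.2.1 • -a)).measureReal_preimage hS.nullMeasurableSet,
        ← integral_indicator_one (measurable_tz T _ hS), ← integral_complex_ofReal]
      refine integral_congr_ae (Eventually.of_forall fun x => ?_)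
      have e : tz T (l.2.1 • a + l.2.2 • b) (tz T (l.2.1 • -a) x) = tz T (l.2.2 • b) x := by
        rw [← tz_add]; congr 1; simp
      change (A.indicator fun _ => (1 : ℂ)) (tz T (l.2.1 • -a) x) *
        (A'.indicator fun _ => (1 : ℂ)) (tz T (l.2.2 • b) x) = _
      by_cases h1 : tz T (l.2.1 • -a) x ∈ A <;> by_cases h2 : tz T (l.2.2 • b) x ∈ A' <;>
        simp only [indicator, mem_preimage, mem_inter_iff, e, h1, h2] <;> simp
    have l2 : Tendsto (fun M => ν.av2 M fun l : Lab =>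
        μ.real (A ∩ tz T (l.2.1 • a + l.2.2 • b) ⁻¹' A')) atTop (𝓝 (∫ y in A, g0 y ∂μ)) := by
      have l3 := (Complex.continuous_re.tendsto _).comp l
      change Tendsto _ _ (𝓝 (Complex.re (∫ x, (μ[A.indicator fun _ => (1 : ℂ) |
        T4x.Inv X {-a, b}]) x * (μ[A'.indicator fun _ => (1 : ℂ) | T4x.Inv X {-a, b}]) x ∂μ))) at l3
      rw [hval, Complex.ofReal_re] at l3
      refine l3.congr fun M => ?_
      change Complex.re (ν.av2 M fun l => ∫ x, (A.indicator fun _ => (1 : ℂ))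
        (X.Tz (T4x.rho (-a, true) l) x) * (A'.indicator fun _ => (1 : ℂ))
        (X.Tz (T4x.rho (b, false) l) x) ∂μ) = _
      simp only [hterm, Wt.av2, Wt.av, Complex.re_sum, Complex.smul_re, Complex.ofReal_re]
    rw [hset]
    refine (ENNReal.tendsto_ofReal (l2.mono_left hU)).congr fun M => ?_
    rw [← key0 ν true M fun _ => measureReal_nonneg]
    refine lintegral_congr fun d => ?_
    rw [ofReal_measureReal]
    rfl

end

end Pool.Agent.MP_154433_an.T4A

end PkConvA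

section PkConvB

/-! From the algebraic step for bundles to the statement of the main development. -/

set_option autoImplicit false
set_option linter.unusedVariables false

open MeasureTheory ProbabilityTheory Filter Topology Set
open scoped ENNReal

namespace Pool.Agent.MP_154433_an.T4A

open T3A

noncomputable section

open T3x (Wt Lab)
open T4x (Γ 𝒰 rho)

variable [T4x.Grp]

lemma rho_same (s : T4x.Slot) (e : Bool) (h : s.2 = e) (M : ℕ) (d : ℤ × ℤ) :
    rho s (lab e M d) = d.1 • s.1 := by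
  subst h
  unfold rho lab
  cases s.2 <;> simp

lemma rho_ne (s : T4x.Slot) (e : Bool) (h : ¬ s.2 = e) (M : ℕ) (d : ℤ × ℤ) :
    rho s (lab e M d) = d.2 • s.1 := by
  unfold rho lab
  revert h
  cases s.2 <;> cases e <;> simp

theorem bridge (hA : AlgS) (hE : ExaS) (bt : T4x.BasT) (hm : T4x.MixS) : T4x.AlgS := by
  classical
  intro ν U X V _ _ sg N ι _ Sg sl i1 n v0 h
  let T : Act Γ X.X := ⟨X.Tz, fun g => (X.mp g).measurable, X.zero, X.add⟩
  let σ : VAct Γ V := ⟨fun g => (sg g).toAddMonoidHom, fun c => by simp,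
    fun g g' c => by simp [AddAut.add_apply]⟩
  obtain ⟨N', mN, eN, aN⟩ := hE Γ X.X V X.μ T σ N X.mp h.mN h.n0 h.nsub h.nsh
  set e := (sl i1).2 with he
  by_cases hJ : IsEmpty {j // j ≠ i1}
  · have h1 : ∀ k, k = i1 := fun k => by_contra fun hk => hJ.false ⟨k, hk⟩
    apply h.rel
    refine (tendsto_const_nhds (x := (0 : ℝ))).congr fun M => ?_
    have : ∀ l : Lab, {x | (∀ j, j ≠ i1 → X.Tz (rho (sl i1) l) x ∈ Sg j l 0 0) ∧
        x ∈ N (∑ k, sg (rho (sl k) l) (v0 k)) ∧ x ∉ N (sg (rho (sl i1) l) (v0 i1))} = ∅ := by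
      intro l
      refine eq_empty_of_forall_notMem fun x hx => hx.2.2 ?_
      have := hx.2.1
      rwa [Finset.sum_eq_single i1 (fun k _ hk => absurd (h1 k) hk) (by simp)] at this
    simp [this, Wt.av2, Wt.av]
  have hJ' : Nonempty {j // j ≠ i1} := not_isEmpty_iff.1 hJ
  let a : {j // j ≠ i1} → Γ := fun j => if (sl j.1).2 = e then (sl j.1).1 - (sl i1).1 else -(sl i1).1
  let b : {j // j ≠ i1} → Γ := fun j => if (sl j.1).2 = e then 0 else (sl j.1).1
  have hn : ∀ (j : {j // j ≠ i1}) M d, n j.1 (lab e M d) = d.1 • a j + d.2 • b j := by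
    intro j M d
    rw [h.hn, rho_same (sl i1) e rfl]
    by_cases hj : (sl j.1).2 = e
    · rw [rho_same _ e hj]; simp only [a, b, if_pos hj, smul_sub, smul_zero, add_zero]
    · rw [rho_ne _ e hj]; simp only [a, b, if_neg hj, smul_neg]; abel
  let B : Bun Γ X.X V {j // j ≠ i1} :=
    { μ := X.μ, prob := X.pr, T := T, mp := X.mp, σ := σ, N := N'
      mN := mN, eqz := eN, ν := wm ν, pν := fun _ => inferInstance, U := U, a := a, b := b
      Sg := fun j M d y => {p | y ∈ Sg j.1 (lab e M d) p.1 p.2}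
      mS := fun j M d => measurable_set_iff.2 fun p =>
        measurableSet_setOfPred.1 (h.mS j.1 (lab e M d) p.1 p.2) }
  have aZ : ∀ k : Γ, ∀ᵐ y ∂X.μ, ∀ c, c ∈ N' (tz T k y) ↔ X.Tz k y ∈ N c := fun k =>
    (X.mp k).quasiMeasurePreserving.ae aN
  have mT : ∀ k : Γ, Measurable (X.Tz k) := fun k => (X.mp k).measurable
  have mi : ∀ {A A' : Set X.X}, MeasurableSet A → MeasurableSet A' →
      MeasurableSet {y | ¬ (y ∈ A ↔ y ∈ A')} := fun hA hA' =>
    measurableSet_setOfPred.2 ((measurableSet_setOfPred.1 hA).iff (measurableSet_setOfPred.1 hA')).not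
  have tot : ∀ (j : {j // j ≠ i1}) (c : V) (ε : ℝ≥0∞), 0 < ε → ∃ F : Finset V,
      ∀ᶠ M in (U : Filter ℕ),
      B.P M (B.pt j M ⁻¹' {a | ((0 : V), (0 : V)) ∈ a.2 ∧ ∀ c' ∈ F, (c, c') ∉ a.2}) ≤ ε ∧
      B.P M (B.pt j M ⁻¹' {a | ((0 : V), (0 : V)) ∈ a.2 ∧ ∀ c' ∈ F, (c', c) ∉ a.2}) ≤ ε := by
    intro j c ε hε
    obtain ⟨ε', h1, h2⟩ : ∃ ε' : ℝ, 0 < ε' ∧ ENNReal.ofReal ε' ≤ ε := by
      obtain ⟨x, -, hx1, hx2⟩ := ENNReal.lt_iff_exists_real_btwn.1 hε
      exact ⟨x, ENNReal.ofReal_pos.1 hx1, hx2.le⟩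
    obtain ⟨F, hF⟩ := h.tot j.1 j.2 c ε' h1
    refine ⟨F, hF.mono fun M hM => ⟨?_, ?_⟩⟩
    · refine (key_le ν e M (X.res 0) (A := fun l => Sg j.1 l 0 0 \ ⋃ a' ∈ F, Sg j.1 l c a')
        (fun l => (h.mS j.1 l 0 0).diff (F.measurableSet_biUnion fun a' _ => h.mS j.1 l c a'))
        (fun d => Eventually.of_forall fun y hy => ⟨hy.1, ?_⟩)).trans
        ((ENNReal.ofReal_le_ofReal hM.1).trans h2)
      intro hu
      obtain ⟨a', ha', hu⟩ := mem_iUnion₂.1 hu
      exact hy.2 a' ha' hu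
    · refine (key_le ν e M (X.res 0) (A := fun l => Sg j.1 l 0 0 \ ⋃ a' ∈ F, Sg j.1 l a' c)
        (fun l => (h.mS j.1 l 0 0).diff (F.measurableSet_biUnion fun a' _ => h.mS j.1 l a' c))
        (fun d => Eventually.of_forall fun y hy => ⟨hy.1, ?_⟩)).trans
        ((ENNReal.ofReal_le_ofReal hM.2).trans h2)
      intro hu
      obtain ⟨a', ha', hu⟩ := mem_iUnion₂.1 hu
      exact hy.2 a' ha' hu
  have h0 : H0 B := by
    refine ⟨mix_of bt ν U h.hU (hm ν h.erg), fun j c c' => ?_, fun j c c' a a' => ?_,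
      fun j c c' => ?_, fun j c ε hε => ?_, fun j c ε hε => ?_, fun j g c c' => ?_⟩
    · refine nul_of ν U e (X.res 0) (fun l => (((h.mS j.1 l 0 0).inter (h.mN c)).inter
        (mT _ (h.mN c'))).diff (h.mS j.1 l c c')) (h.triv j.1 j.2 c c') fun M d => ?_
      filter_upwards [aN, aZ (B.st j d)] with y h1 h2 hy
      refine ⟨⟨⟨hy.2.2.1, (h1 c).1 hy.1⟩, ?_⟩, hy.2.2.2⟩
      rw [hn]
      exact (h2 c').1 hy.2.1
    · exact nul_of ν U e (X.res 0)
        (fun l => ((h.mS j.1 l _ _).inter (h.mS j.1 l _ _)).diff (h.mS j.1 l _ _))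
        (h.sub j.1 j.2 c c' a a') fun M d =>
          Eventually.of_forall fun y hy => ⟨⟨hy.1, hy.2.1⟩, hy.2.2⟩
    · refine nul_of ν U e (X.res 0)
        (fun l => (h.mS j.1 l c c').inter (mi (h.mN c) (mT _ (h.mN c'))))
        (h.ker j.1 j.2 c c') fun M d => ?_
      filter_upwards [aN, aZ (B.st j d)] with y h1 h2 hy
      refine ⟨hy.1, fun hc => hy.2 ?_⟩
      rw [hn] at hc
      exact (h1 c).trans (hc.trans (h2 c').symm)
    · obtain ⟨F, hF⟩ := tot j c ε hε
      exact ⟨F, hF.mono fun M hM => hM.1⟩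
    · obtain ⟨F, hF⟩ := tot j c ε hε
      exact ⟨F, hF.mono fun M hM => hM.2⟩
    · exact nul_of ν U e (X.res 0) (fun l => mi (h.mS j.1 l _ _) (mT g (h.mS j.1 l c c')))
        (h.sh j.1 j.2 g c c') fun M d => Eventually.of_forall fun y hy => hy
  have hF : Flat B := by
    intro j j' a b a' b'
    obtain ⟨φ, h1, h2⟩ := h.flat j.1 j'.1 j.2 j'.2 a b a' b'
    have hφ : ∀ l, 0 ≤ φ l := fun l => ge_of_tendsto' (h2 l) fun M =>
      av2_nonneg ν M fun _ => measureReal_nonneg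
    have h3 : ∀ M' d', limsup (fun M => B.P M (B.pt j' M ⁻¹' B.flatS j M' d' a b a' b')) U =
        ENNReal.ofReal (φ (lab e M' d')) := by
      intro M' d'
      refine ((ENNReal.tendsto_ofReal (h2 (lab e M' d'))).congr fun M => ?_).limsup_eq
      refine (key ν e M (X.res 0) (A := fun l' => {y | y ∈ Sg j'.1 l' a b ∧
          y ∈ Sg j'.1 l' (sg (n j.1 (lab e M' d')) a') (sg (n j.1 (lab e M' d')) b') ∧
          ¬ (y ∈ Sg j.1 (lab e M' d') a a' ↔ X.Tz (n j'.1 l') y ∈ Sg j.1 (lab e M' d') b b')})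
        fun l' => (h.mS j'.1 l' a b).inter ((h.mS j'.1 l' _ _).inter
        (mi (h.mS j.1 _ a a') (mT _ (h.mS j.1 _ b b'))))).symm.trans ?_
      change PM (wm ν M) X.μ _ = PM (wm ν M) X.μ _
      congr 1
      ext z
      simp only [mem_ofPred_eq, hn]
      rfl
    have h4 := ENNReal.tendsto_ofReal h1
    rw [ENNReal.ofReal_zero] at h4
    refine h4.congr fun M' => ?_
    rw [← key0 ν e M' hφ]
    exact lintegral_congr fun d' => (h3 M' d').symm
  let D : RD Γ V :=
    { I := {k // (sl k).2 = e ∧ (sl k).1 ∈ (𝒰 : Set Γ)}, fin := inferInstance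
      r := fun k => (sl k.1).1, dir := 𝒰, hr := fun k => k.2.2
      hd := fun k k' hk => (h.nrm.cov k.1 (Finset.mem_univ _) k'.1 (Finset.mem_univ _)
        fun hc => hk (Subtype.ext hc)).1 (k.2.1.trans k'.2.1.symm)
      k0 := ⟨i1, rfl, h.h1⟩, c := fun k => v0 k.1
      b := fun d => -∑ k : {k // ¬ ((sl k).2 = e ∧ (sl k).1 ∈ (𝒰 : Set Γ))},
        sg (d • (sl k.1).1) (v0 k.1) }
  have hD : B.Dec D id := by
    intro u hu c c'
    have h4 := ENNReal.tendsto_ofReal (h.dec u hu c c')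
    rw [ENNReal.ofReal_zero] at h4
    refine h4.congr' ((eventually_ge_atTop 1).mono fun K hK => ?_)
    have hK' : (0 : ℝ) < K := by exact_mod_cast hK
    simp only [id]
    rw [ENNReal.ofReal_mul (by positivity), ENNReal.ofReal_inv_of_pos hK', ENNReal.ofReal_natCast,
      ENNReal.ofReal_sum_of_nonneg fun _ _ => measureReal_nonneg]
    congr 1
    refine Finset.sum_congr rfl fun k _ => ?_
    rw [ofReal_measureReal]
    refine measure_congr ?_
    filter_upwards [aN] with y h1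
    exact propext (and_congr (h1 _).symm (not_congr (h1 _).symm))
  have hg : AddSubgroup.closure (range B.a ∪ range B.b) = ⊤ := by
    refine top_le_iff.1 (h.nrm.gen i1 ▸ (AddSubgroup.closure_le _).2 ?_)
    intro g hg
    obtain ⟨j, hj⟩ := mem_iUnion.1 hg
    by_cases hj1 : j = i1
    · subst hj1
      simp only [T4x.pg, if_true, sub_self, mem_singleton_iff] at hj
      rw [hj]
      exact zero_mem _
    have ma : a ⟨j, hj1⟩ ∈ AddSubgroup.closure (range B.a ∪ range B.b) :=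
      AddSubgroup.subset_closure (Or.inl ⟨_, rfl⟩)
    have mb : b ⟨j, hj1⟩ ∈ AddSubgroup.closure (range B.a ∪ range B.b) :=
      AddSubgroup.subset_closure (Or.inr ⟨_, rfl⟩)
    by_cases hj2 : (sl j).2 = e
    · have h3 : (sl i1).2 = (sl j).2 := hj2.symm
      rw [T4x.pg, if_pos h3, mem_singleton_iff] at hj
      simp only [a, if_pos hj2] at ma
      rw [hj]
      exact ma
    · have h3 : ¬ (sl i1).2 = (sl j).2 := Ne.symm hj2
      rw [T4x.pg, if_neg h3, mem_insert_iff, mem_singleton_iff] at hj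
      simp only [a, if_neg hj2] at ma
      simp only [b, if_neg hj2] at mb
      rcases hj with rfl | rfl
      · exact neg_mem_iff.1 ma
      · exact mb
  obtain ⟨ε, hε, hev⟩ : ∃ ε : ℝ, 0 < ε ∧ ∀ᶠ M in (U : Filter ℕ), ε ≤ ν.av2 M fun l => X.μ.real
      {x | (∀ j, j ≠ i1 → X.Tz (rho (sl i1) l) x ∈ Sg j l 0 0) ∧
        x ∈ N (∑ k, sg (rho (sl k) l) (v0 k)) ∧ x ∉ N (sg (rho (sl i1) l) (v0 i1))} := by
    by_contra hc
    push Not at hc
    apply h.rel
    refine tendsto_order.2 ⟨fun a ha => Eventually.of_forall fun M =>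
      ha.trans_le (av2_nonneg ν M fun _ => measureReal_nonneg), fun a ha => ?_⟩
    exact hc a ha
  refine hA Γ X.X V _ B D (ENNReal.ofReal ε) (ENNReal.ofReal_pos.2 hε) h.hU (spr_of h.spr) hg h0 hF
    ?_ hD
  refine hev.mono fun M hM => (ENNReal.ofReal_le_ofReal hM).trans ?_
  have ms : ∀ l : Lab, MeasurableSet {x | ∀ j, j ≠ i1 → X.Tz (rho (sl i1) l) x ∈ Sg j l 0 0} :=
    fun l => measurableSet_setOfPred.2 (Measurable.forall fun j => measurable_const.imp
      (measurableSet_setOfPred.1 (mT _ (h.mS j l 0 0))))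
  refine key_ge ν e M (X.res 0) (fun l => (ms l).inter ((h.mN _).inter (h.mN _).compl))
    fun d => ?_
  filter_upwards [aN] with y h1 hy
  obtain ⟨y1, y2, y3⟩ := hy
  rw [rho_same _ e rfl] at y3
  refine ⟨⟨(h1 _).2 ?_, fun hc => y3 ((h1 _).1 hc)⟩, fun j => ?_⟩
  · have : (∑ k : D.I, sz B.σ (d.1 • D.r k) (D.c k)) - D.b d.2 =
        ∑ k, sg (rho (sl k) (lab e M d)) (v0 k) := by
      rw [← Fintype.sum_subtype_add_sum_subtype (fun k => (sl k).2 = e ∧ (sl k).1 ∈ (𝒰 : Set Γ)),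
        sub_eq_add_neg]
      congr 1
      · exact Finset.sum_congr rfl fun k _ => by rw [rho_same _ e k.2.1]; rfl
      · rw [neg_neg]
        refine Finset.sum_congr rfl fun k _ => ?_
        by_cases hk : (sl k.1).2 = e
        · have h0 : (sl k.1).1 = 0 := (h.nrm.nz k.1).resolve_left fun hc => k.2 ⟨hk, hc⟩
          rw [rho_same _ e hk, h0, smul_zero, smul_zero]
        · rw [rho_ne _ e hk]
    change y ∈ N ((∑ k : D.I, sz B.σ (d.1 • D.r k) (D.c k)) - D.b d.2)
    rw [this]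
    exact y2
  · have := y1 j.1 j.2
    rw [rho_same _ e rfl] at this
    exact this

end

end Pool.Agent.MP_154433_an.T4A

end PkConvB
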