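import Pool.Agent.MP_154433_an.t4s.Basic
import Pool.Agent.MP_154433_an.t3s.Apx
import Pool.Agent.MP_154433_an.t3f.Plumb
import Pool.Agent.MP_154433_an.t3u.Spec
import Pool.Agent.MP_154433_an.t3s.End
import Pool.Agent.MP_154433_an.t3s.Good

/-! Structured part for commuting maps, part one. -/

section PkAct

/-! The action of the lattice generated by commuting maps. -/

set_option autoImplicit false
set_option linter.unusedVariables false

open MeasureTheory Filter Function

noncomputable section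

namespace Pool.Agent.MP_154433_an.T4S

namespace ActP

theorem ex {G : Type} [Group G] {l : ℕ} (t : Fin l → G) (hc : ∀ i j, Commute (t i) (t j)) :
    ∃ φ : Gm l → G, φ 0 = 1 ∧ (∀ v w, φ (v + w) = φ v * φ w) ∧
      (∀ i (n : ℤ), φ (Pi.single i n) = t i ^ n) ∧
      ∀ (P : Subgroup G) (v : Gm l), (∀ k, t k ^ v k ∈ P) → φ v ∈ P := by
  have hcomm : Pairwise fun i j : Fin l => ∀ x y : Multiplicative ℤ,
      Commute (zpowersHom G (t i) x) (zpowersHom G (t j) y) := fun i j _ x y =>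
    (hc i j).zpow_zpow _ _
  let ψ := MonoidHom.noncommPiCoprod (fun i => zpowersHom G (t i)) hcomm
  refine ⟨fun v => ψ fun i => Multiplicative.ofAdd (v i), map_one ψ,
    fun v w => map_mul ψ (fun i => Multiplicative.ofAdd (v i)) fun i => Multiplicative.ofAdd (w i),
    fun i n => ?_, fun P v h => ?_⟩
  · have e : (fun j => Multiplicative.ofAdd ((Pi.single i n : Gm l) j)) =
        Pi.mulSingle i (Multiplicative.ofAdd n) := by
      funext j
      by_cases h : j = i
      · subst h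
        simp
      · simp [h]
    show ψ _ = _
    rw [e]
    exact MonoidHom.noncommPiCoprod_mulSingle _ i _
  · show ψ _ ∈ P
    rw [MonoidHom.noncommPiCoprod_apply]
    exact P.noncommProd_mem _ fun k _ => h k

variable {X : Type} [MeasurableSpace X] (μ : Measure X)

/-- the permutations that keep the measure and almost keep the set -/
def keep (S : Set X) : Subgroup (Equiv.Perm X) where
  carrier := {e | MeasurePreserving e μ μ ∧ MeasurePreserving e.symm μ μ ∧ e ⁻¹' S =ᵐ[μ] S}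
  one_mem' := ⟨MeasurePreserving.id μ, MeasurePreserving.id μ, EventuallyEq.rfl⟩
  mul_mem' := fun {a b} ha hb => ⟨ha.1.comp hb.1, hb.2.1.comp ha.2.1,
    (hb.1.quasiMeasurePreserving.preimage_ae_eq ha.2.2).trans hb.2.2⟩
  inv_mem' := fun {a} ha => ⟨ha.2.1, ha.1, by
    have h := ha.2.1.quasiMeasurePreserving.preimage_ae_eq ha.2.2
    rw [Equiv.symm_preimage_preimage] at h
    exact h.symm⟩

end ActP

open ActP in
theorem act : ActS := by
  intro l X _ μ T hT hc
  obtain ⟨φ, h0, ha, hs, hP⟩ := ex (fun i => ((T i).toEquiv : Equiv.Perm X))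
    fun i j => Equiv.ext fun x => hc i j x
  have hm : ∀ k, ((T k).toEquiv : Equiv.Perm X) ∈ keep μ Set.univ := fun k =>
    ⟨hT k, (hT k).symm (T k), EventuallyEq.rfl⟩
  refine ⟨fun v => φ v, ⟨fun v => (hP (keep μ Set.univ) v fun k => zpow_mem (hm k) _).1,
    fun x => by rw [h0]; rfl, fun v w x => by rw [ha]; rfl⟩, fun i d => ?_, fun i j => ?_,
    fun S q c hS h v => (hP (keep μ S) _ fun k => ?_).2.2⟩
  · have e : ((d : ℤ) • Pi.single i 1 : Gm l) = Pi.single i (d : ℤ) := by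
      rw [← Pi.single_smul, smul_eq_mul, mul_one]
    show ⇑(φ _) = _
    rw [e, hs, zpow_natCast, Equiv.Perm.coe_pow]
    rfl
  · show ⇑(φ _) = _
    rw [sub_eq_add_neg, ← Pi.single_neg, ha, hs, hs, zpow_neg, zpow_one, zpow_one]
    rfl
  · have h1 := pow_mem (hm k) q
    have h2 : ((T k).toEquiv : Equiv.Perm X) ^ q ∈ keep μ S :=
      ⟨h1.1, h1.2.1, by rw [Equiv.Perm.coe_pow]; exact h k⟩
    rw [Pi.smul_apply, smul_eq_mul, mul_assoc, zpow_mul, zpow_natCast]
    exact zpow_mem h2 _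

end Pool.Agent.MP_154433_an.T4S

end

end PkAct

section PkAe

/-! Rows Ae and Shift for the commuting case. -/

set_option autoImplicit false
set_option linter.unusedVariables false

open MeasureTheory ProbabilityTheory Filter Topology Function
open scoped BigOperators

noncomputable section

namespace Pool.Agent.MP_154433_an.T4S

open T3S (B1 Mix Bd Wt Gr yw)

namespace AeP

lemma wt_top {σ : ℕ → ℝ} (h0 : ∀ n, 0 ≤ σ n) (h : Gr σ 1) : Tendsto (Wt σ) atTop atTop := by
  refine tendsto_atTop_mono' _ ?_ h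
  filter_upwards [(Real.tendsto_log_atTop.comp tendsto_natCast_atTop_atTop).eventually_ge_atTop 1]
    with M hM
  rw [pow_one]
  exact div_le_self (Finset.sum_nonneg fun n _ => h0 n) hM

/-- a function on `Fin (k * l)` as a function of two indices -/
def cur (k l : ℕ) (α : Type) : (Fin (k * l) → α) ≃ (Fin k → Fin l → α) :=
  (Equiv.arrowCongr finProdFinEquiv.symm (Equiv.refl α)).trans (Equiv.curry _ _ _)

lemma cur_dif {k l H : ℕ} (h h' : Fin (k * l) → Fin H) :
    cur k l ℤ (T3S.dif h h') = dif (cur k l _ h) (cur k l _ h') := rfl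

lemma cur_add {k l : ℕ} (a b : Fin (k * l) → ℤ) :
    cur k l ℤ (a + b) = (cur k l ℤ a : Fin k → Gm l) + cur k l ℤ b := rfl

lemma exp_cur {k l H : ℕ} (F : (Fin k → Fin l → Fin H) → ℂ) :
    𝔼 h : Fin (k * l) → Fin H, F (cur k l _ h) = 𝔼 h, F h :=
  Fintype.expect_equiv (cur k l _) _ _ fun _ => rfl

end AeP

open AeP

theorem shift (h : T3S.ShiftS) : ShiftS := by
  intro k l H M Ψ hH hM hΨ
  have := h (k * l) H M (fun τ => Ψ (cur k l ℤ τ)) hH hM fun τ => hΨ _
  simp only [cur_add, cur_dif] at this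
  rw [← exp_cur, ← exp_cur (fun h => 𝔼 h' : Fin k → Fin l → Fin H, 𝔼 u : Fin k → Fin l → Fin M,
    𝔼 u' : Fin k → Fin l → Fin M, Ψ (dif h h' + dif u u'))]
  have e1 : ∀ a : Fin k → Fin l → Fin H, 𝔼 h' : Fin k → Fin l → Fin H, Ψ (dif a h') =
      𝔼 h' : Fin (k * l) → Fin H, Ψ (dif a (cur k l _ h')) := fun a =>
    (exp_cur fun h' => Ψ (dif a h')).symm
  have e2 : ∀ a : Fin k → Fin l → Fin H, 𝔼 h' : Fin k → Fin l → Fin H,
      𝔼 u : Fin k → Fin l → Fin M, 𝔼 u' : Fin k → Fin l → Fin M, Ψ (dif a h' + dif u u') =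
      𝔼 h' : Fin (k * l) → Fin H, 𝔼 u : Fin (k * l) → Fin M, 𝔼 u' : Fin (k * l) → Fin M,
        Ψ (dif a (cur k l _ h') + dif (cur k l _ u) (cur k l _ u')) := fun a => by
    rw [← exp_cur]
    refine Finset.expect_congr rfl fun h' _ => ?_
    rw [← exp_cur]
    refine Finset.expect_congr rfl fun u _ => ?_
    rw [← exp_cur]
  simp only [e1, e2]
  refine this.trans (le_of_eq ?_)
  push_cast
  rfl

theorem ae (h1 : NetS) (h2 : T3S.UbS) (h3 : T3S.NormS) (h4 : T3S.AeS) : AeS := by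
  intro σ hσ Ω _ P _ E hE hind hP hg
  have h0 : ∀ n, 0 ≤ σ n := fun n => (hσ n).1
  have hW := wt_top h0 hg
  have hstr : ∀ᵐ ω ∂P, ∀ (k l : ℕ) (q : ℤ) (J : ℕ) (r : Fin J → Gm l) (j : ℕ),
      1 ≤ k → q ≠ 0 → Bd (yw σ fun m => ω ∈ E m) → ∀ᶠ M in atTop,
      ∀ u : Fin J → Gm l → ℂ, (∀ t, u t ∈ CZ (k + 1) l q (M ^ 2)) →
        𝔼 n : Fin l → Fin M, ‖∑ d ∈ Finset.range M, (yw σ (fun m => ω ∈ E m) M d : ℂ) *
          ∏ t, u t (pt n + (d : ℤ) • r t)‖ ≤ 4 * (1 / ((j : ℝ) + 1)) := by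
    simp only [ae_all_iff]
    intro k l q J r j hk hq
    obtain ⟨C, S, s1, s2, s3⟩ := h1 k l hk q hq J r (1 / ((j : ℝ) + 1)) (by positivity)
    have := h2 σ hσ Ω P E hE hind hP 1 le_rfl hg C S s1 s2 (1 / ((j : ℝ) + 1)) (by positivity)
    filter_upwards [this] with ω hω hbd
    filter_upwards [hω, s3, hbd] with M m1 m2 m3 u hu
    refine (m2 _ _ m1 u hu).trans ?_
    have := mul_le_mul_of_nonneg_left m3 (by positivity : (0 : ℝ) ≤ 1 / ((j : ℝ) + 1))
    linarith
  filter_upwards [h4 σ hσ Ω P E hE hind hP hg, hstr] with ω m1 m2 k l q hk hq J r ε hε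
  obtain ⟨j, hj⟩ := exists_nat_one_div_lt (by positivity : 0 < ε / 4)
  filter_upwards [m2 k l q J r j hk hq (h3.1 σ _ h0 hW m1.1).2.2.1] with M hM u hu
  exact (hM u hu).trans (by linarith)

end Pool.Agent.MP_154433_an.T4S

end

end PkAe

section PkApx

/-! Approximation of convex combinations of blocks on a lattice by dual functions on a power of a
cyclic group. -/

set_option autoImplicit false
set_option linter.unusedVariables false

open MeasureTheory ProbabilityTheory Filter Topology Function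
open scoped BigOperators ComplexConjugate InnerProductSpace

noncomputable section

namespace Pool.Agent.MP_154433_an.T4S

open T3S (B1 Dual cub norm_prod_le_one)
open T3S.Apx (vm exp_mem small)

namespace Apx

lemma dif_lt {k l M : ℕ} (u u' : Fin k → Fin l → Fin M) (j : Fin k) (c : Fin l) :
    |dif u u' j c| + 1 ≤ M := by
  have h1 := (u j c).2
  have h2 := (u' j c).2
  have : |dif u u' j c| < M := by
    rw [abs_lt, dif]
    constructor <;> omega
  omega

/-- the boxes in the finite group -/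
def aa (k : ℕ) {l : ℕ} (q : ℤ) (N M : ℕ) (j : Fin k) (u : Fin l → Fin M) : Fin l → ZMod N :=
  fun c => ((q * ((u c : ℕ) : ℤ) : ℤ) : ZMod N)

lemma aa_sub {k l : ℕ} (q : ℤ) (N M : ℕ) (u u' : Fin k → Fin l → Fin M) (j : Fin k) :
    aa k q N M j (u' j) - aa k q N M j (u j) = fun c => ((q * dif u u' j c : ℤ) : ZMod N) := by
  funext c
  simp only [aa, dif, Pi.sub_apply]
  push_cast
  ring

/-- the functions on the finite group attached to one shift -/
def gam {k l : ℕ} (q : ℤ) (N : ℕ) (β : Fin k → (Fin k → Gm l) → Gm l → ℂ) (t : Fin k → Gm l)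
    (i : Fin k) (τ : Fin k → Fin l → ZMod N) (y : Fin l → ZMod N) : ℂ :=
  β i (update t i 0 + fun j c => (τ j c).valMinAbs / q) ((fun c => (y c).valMinAbs) + q • t i)

lemma cub_eq {k l : ℕ} {q : ℤ} {R C0 M : ℕ} [NeZero (C0 * M)] (hq : q ≠ 0)
    (hC : 2 * ((R : ℤ) + |q|) ≤ C0) (β : Fin k → (Fin k → Gm l) → Gm l → ℂ) (t : Fin k → Gm l)
    {m : Gm l} (hm : ∀ c, |m c| ≤ R * M) :
    cub (aa k q (C0 * M) M) (gam q (C0 * M) β t) (fun c => (m c : ZMod (C0 * M))) =
      𝔼 u : Fin k → Fin l → Fin M, 𝔼 u' : Fin k → Fin l → Fin M,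
        ∏ i, β i (update (t + dif u u') i 0) (sh (q • (t + dif u u') i) m) := by
  refine Finset.expect_congr rfl fun u _ => Finset.expect_congr rfl fun u' _ =>
    Finset.prod_congr rfl fun i _ => ?_
  simp only [gam, aa_sub]
  congr 1
  · funext j c
    by_cases hj : j = i
    · subst hj
      simp
    · have h := small (m := 0) hq hC (by simp; positivity) (dif_lt u u' j c)
      rw [zero_add] at h
      simp only [Pi.add_apply, update_of_ne hj, vm h, Int.mul_ediv_cancel_left _ hq]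
  · funext c
    simp only [sh, Pi.add_apply, Pi.smul_apply, smul_eq_mul]
    rw [← Int.cast_add, vm (small hq hC (hm c) (dif_lt u u' i c))]
    ring

lemma aa_inj {k l : ℕ} {q : ℤ} {R C0 M : ℕ} [NeZero (C0 * M)] (hq : q ≠ 0)
    (hC : 2 * ((R : ℤ) + |q|) ≤ C0) (j : Fin k) :
    Injective (aa k (l := l) q (C0 * M) M j) := by
  intro u u' h
  funext c
  have h1 := congrFun (aa_sub q (C0 * M) M (fun _ => u) (fun _ => u') j) c
  have h2 := small (m := 0) hq hC (by simp; positivity)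
    (dif_lt (fun _ : Fin k => u) (fun _ => u') j c)
  rw [zero_add] at h2
  have h3 := vm h2
  rw [← h1, h, sub_self, Pi.zero_apply, ZMod.valMinAbs_zero] at h3
  have h4 := (mul_eq_zero.1 h3.symm).resolve_left hq
  simp only [dif] at h4
  exact Fin.ext (by omega)

end Apx

open Apx in
theorem apx (h1 : ShiftS) (h2 : T3S.DualS) : ApxS := by
  intro k l hk q R C0 M H0 _ hq hC hH0 w hw
  have hM : 1 ≤ M := Nat.pos_of_ne_zero fun h => NeZero.ne (C0 * M) (by rw [h, mul_zero])
  have hM' : (M : ℝ) ≠ 0 := by exact_mod_cast (by omega : M ≠ 0)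
  refine convexHull_min (t := {w : Gm l → ℂ | ∃ u : (Fin l → ZMod (C0 * M)) → ℂ,
    Dual k ((((C0 : ℝ) ^ l) ^ (k + 1)) ^ 2 ^ (k + 1)) u ∧ ∀ m : Gm l, (∀ i, |m i| ≤ R * M) →
      ‖w m - u fun i => (m i : ZMod (C0 * M))‖ ≤ 4 * ((k + 1) * l) * M / H0}) ?_ ?_ hw
  · rintro _ ⟨H, β, hH, hβ, rfl⟩
    have hH1 : 1 ≤ H := hH0.trans hH
    have : Nonempty (Fin H) := ⟨⟨0, hH1⟩⟩
    have : Nonempty (Fin M) := ⟨⟨0, hM⟩⟩
    refine ⟨fun x => 𝔼 h : Fin (k + 1) → Fin l → Fin H, 𝔼 h' : Fin (k + 1) → Fin l → Fin H,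
      cub (aa (k + 1) q (C0 * M) M) (gam q (C0 * M) β (dif h h')) x, ?_, fun m hm => ?_⟩
    · refine exp_mem (T3S.Dual.convex _ _) fun h => exp_mem (T3S.Dual.convex _ _) fun h' => ?_
      have := h2 k hk (Fin l → ZMod (C0 * M)) (Fin l → Fin M) (aa (k + 1) q (C0 * M) M)
        (gam q (C0 * M) β (dif h h')) (aa_inj hq hC) fun i τ y => hβ _ _ _
      rwa [Fintype.card_fun, Fintype.card_fun, ZMod.card, Fintype.card_fin, Fintype.card_fin,
        Nat.cast_pow, Nat.cast_pow, ← div_pow, Nat.cast_mul, mul_div_cancel_right₀ _ hM'] at this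
    · simp only [cub_eq hq hC β _ hm]
      refine (h1 (k + 1) l H M (fun t => ∏ i, β i (update t i 0) (sh (q • t i) m)) hH1 hM
        fun t => norm_prod_le_one _ fun i _ => hβ _ _ _).trans ?_
      have h0 : (0 : ℝ) < H0 := by exact_mod_cast hH0
      push_cast
      exact div_le_div_of_nonneg_left (by positivity) h0 (by exact_mod_cast hH)
  · rintro w ⟨u, hu, hw⟩ w' ⟨u', hu', hw'⟩ a c ha hc hac
    refine ⟨a • u + c • u', T3S.Dual.convex _ _ hu hu' ha hc hac, fun m hm => ?_⟩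
    have e : (a • w + c • w') m - (a • u + c • u') (fun i => (m i : ZMod (C0 * M))) =
        a • (w m - u fun i => (m i : ZMod (C0 * M))) +
          c • (w' m - u' fun i => (m i : ZMod (C0 * M))) := by
      simp only [Pi.add_apply, Pi.smul_apply, smul_sub]
      ring
    rw [e]
    refine (norm_add_le _ _).trans ?_
    rw [norm_smul, norm_smul, Real.norm_eq_abs, Real.norm_eq_abs, abs_of_nonneg ha,
      abs_of_nonneg hc]
    have k1 := mul_le_mul_of_nonneg_left (hw m hm) ha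
    have k2 := mul_le_mul_of_nonneg_left (hw' m hm) hc
    calc _ ≤ (a + c) * (4 * ((k + 1) * l) * M / H0 : ℝ) := by linarith
      _ = _ := by rw [hac, one_mul]

end Pool.Agent.MP_154433_an.T4S

end

end PkApx

section PkCls

/-! Classes of exponential relations have small random weight. -/

set_option autoImplicit false
set_option linter.unusedVariables false

open MeasureTheory ProbabilityTheory Filter Topology Function
open scoped BigOperators ComplexConjugate InnerProductSpace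

noncomputable section

namespace Pool.Agent.MP_154433_an.T4S

open T3S (B1 yw Gr)
open T4x (Lau cls)

namespace ClsR

lemma noeth (r : ℕ) : IsNoetherianRing (Lau r) := Algebra.FiniteType.isNoetherianRing ℤ (Lau r)

lemma cntL (r : ℕ) : Countable (Lau r) := AddMonoidAlgebra.coeff_injective.countable

/-- the parameters of the classes at scale `M` -/
def par (r s L M : ℕ) : Finset ((Fin s → Fin r → ℤ) × ℤ) :=
  (Fintype.piFinset fun _ : Fin s => Fintype.piFinset fun _ : Fin r =>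
    Finset.Icc (-((L : ℤ) * M)) (L * M)) ×ˢ Finset.Icc (-(M : ℤ)) M

open Classical in
/-- the indicator functions of the classes at scale `M` -/
def fam {r s : ℕ} (L : ℕ) (N : Submodule (Lau r) (Fin s → Lau r)) (M : ℕ) : Finset (ℕ → ℂ) :=
  (par r s L M).image
    fun p d => (((cls N p.1 M p.2).indicator (fun _ => (1 : ℝ)) (d : ℤ) : ℝ) : ℂ)

lemma fam_B1 {r s : ℕ} (L : ℕ) (N : Submodule (Lau r) (Fin s → Lau r)) (M : ℕ) :
    ∀ c ∈ fam L N M, B1 c := by
  intro c hc
  simp only [fam, Finset.mem_image] at hc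
  obtain ⟨p, -, rfl⟩ := hc
  intro d
  by_cases h : (d : ℤ) ∈ cls N p.1 M p.2 <;> simp [h]

lemma icc_card (n : ℕ) : (Finset.Icc (-(n : ℤ)) n).card = 2 * n + 1 := by
  rw [Int.card_Icc]
  omega

lemma par_card (r s L M : ℕ) : (par r s L M).card = ((2 * (L * M) + 1) ^ r) ^ s * (2 * M + 1) := by
  have h := icc_card (L * M)
  push_cast at h
  simp only [par, Finset.card_product, Fintype.card_piFinset, Finset.prod_const, Finset.card_univ,
    Fintype.card_fin, h, icc_card]

lemma lin_le (a : ℝ) (ha : 1 ≤ a) (M : ℕ) (hM : 1 ≤ M) :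
    a * M ≤ Real.exp (a * (Real.log M + 1)) := by
  have h1 : (1 : ℝ) ≤ M := by exact_mod_cast hM
  have h2 : 0 ≤ Real.log M := Real.log_nonneg h1
  have h3 : a ≤ Real.exp a := by have := Real.add_one_le_exp a; linarith
  have h4 : (M : ℝ) ≤ Real.exp (a * Real.log M) := by
    calc (M : ℝ) = Real.exp (Real.log M) := (Real.exp_log (by linarith)).symm
      _ ≤ _ := Real.exp_le_exp.2 (by nlinarith)
  rw [mul_add, mul_one, Real.exp_add, mul_comm a]
  exact mul_le_mul h4 h3 (by linarith) (Real.exp_pos _).le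

lemma fam_card {r s : ℕ} (L : ℕ) (N : Submodule (Lau r) (Fin s → Lau r)) (M : ℕ) (hM : 1 ≤ M) :
    ((fam L N M).card : ℝ) ≤
      Real.exp ((((r * s + 1 : ℕ) : ℝ) * (2 * L + 3)) * (Real.log M + 1) ^ 1) := by
  classical
  have h0 : (fam L N M).card ≤ (par r s L M).card := Finset.card_image_le
  have h1 : (1 : ℝ) ≤ M := by exact_mod_cast hM
  have hL : (0 : ℝ) ≤ L := Nat.cast_nonneg L
  have h2 := lin_le (2 * L + 3) (by linarith) M hM
  set e := Real.exp ((2 * L + 3) * (Real.log M + 1)) with he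
  have h3 : (2 * (L * M) + 1 : ℝ) ≤ e := by nlinarith
  have h4 : (2 * M + 1 : ℝ) ≤ e := by nlinarith
  have h5 : ((par r s L M).card : ℝ) ≤ e ^ (r * s + 1) := by
    rw [par_card, pow_succ, pow_mul]
    push_cast
    gcongr
  rw [pow_one, mul_assoc, Real.exp_nat_mul]
  exact le_trans (by exact_mod_cast h0) h5

lemma fam_mem {r s : ℕ} (L : ℕ) (N : Submodule (Lau r) (Fin s → Lau r)) (M : ℕ)
    (m : Fin s → Fin r → ℤ) (d0 : ℤ) (hm : ∀ k i, |m k i| ≤ L * M) (hd : |d0| ≤ M) :
    (fun d : ℕ => (((cls N m M d0).indicator (fun _ => (1 : ℝ)) (d : ℤ) : ℝ) : ℂ)) ∈ fam L N M := by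
  simp only [fam, Finset.mem_image]
  refine ⟨(m, d0), ?_, rfl⟩
  simp only [par, Finset.mem_product, Fintype.mem_piFinset, Finset.mem_Icc]
  exact ⟨fun k i => abs_le.1 (hm k i), abs_le.1 hd⟩

end ClsR

open ClsR

theorem cnt : CntS := by
  intro r s
  have := noeth r
  have := cntL r
  have hs : Surjective fun t : Finset (Fin s → Lau r) =>
      Submodule.span (Lau r) (t : Set (Fin s → Lau r)) := fun N =>
    IsNoetherian.noetherian N
  exact hs.countable

theorem clsr (h1 : T3S.UbS) (h2 : CntS) : ClsS := by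
  intro σ hσ Ω _ P _ E hE hind hP hg
  have h : ∀ᵐ ω ∂P, ∀ (r s L : ℕ) (N : Submodule (Lau r) (Fin s → Lau r)) (j : ℕ),
      ∀ᶠ M in atTop, ∀ c ∈ fam L N M,
        ‖∑ d ∈ Finset.range M, (yw σ (fun m => ω ∈ E m) M d : ℂ) * c d‖ ≤ 1 / ((j : ℝ) + 1) := by
    refine ae_all_iff.2 fun r => ae_all_iff.2 fun s => ae_all_iff.2 fun L => ?_
    have := h2 r s
    refine ae_all_iff.2 fun N => ae_all_iff.2 fun j => ?_
    exact h1 σ hσ Ω P E hE hind hP 1 le_rfl hg _ (fam L N) (fam_B1 L N) (fam_card L N) _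
      (by positivity)
  filter_upwards [h] with ω hω r s L N η hη
  obtain ⟨j, hj⟩ := exists_nat_one_div_lt hη
  filter_upwards [hω r s L N j] with M hM m d0 hm hd
  have h3 := hM _ (fam_mem L N M m d0 hm hd)
  simp only [← Complex.ofReal_mul, ← Complex.ofReal_sum, Complex.norm_real, Real.norm_eq_abs] at h3
  exact h3.trans hj.le

end Pool.Agent.MP_154433_an.T4S

end

end PkCls

section PkCov

/-! Nets of polynomial size for dual functions on powers of cyclic groups. -/

set_option autoImplicit false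
set_option linter.unusedVariables false

open Filter Topology Function
open scoped BigOperators

noncomputable section

namespace Pool.Agent.MP_154433_an.T4S

open T3S (B1 LG Dual one_le_LG)

namespace Cov

lemma rk (l N : ℕ) : T3u.Rk l (Fin l → ZMod (N + 1)) := by
  classical
  refine ⟨fun i => Pi.single i 1, (AddSubgroup.eq_top_iff' _).2 fun x => ?_⟩
  rw [← Finset.univ_sum_single x]
  refine AddSubgroup.sum_mem _ fun i _ => ?_
  have e : (Pi.single i (x i) : Fin l → ZMod (N + 1)) =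
      (x i).val • (Pi.single i 1 : Fin l → ZMod (N + 1)) := by
    rw [← Pi.single_smul, nsmul_eq_mul, mul_one, ZMod.natCast_zmod_val]
  rw [e]
  exact AddSubgroup.nsmul_mem _ (AddSubgroup.subset_closure (Set.mem_range_self i)) _

lemma lg (l N : ℕ) : LG (Fin l → ZMod (N + 1)) ≤ (l + 1) * (Real.log ((N + 1 : ℕ) : ℝ) + 1) := by
  have h := Real.log_natCast_nonneg (N + 1)
  rw [LG, Fintype.card_fun, ZMod.card, Fintype.card_fin, Nat.cast_pow, Real.log_pow]
  nlinarith [Nat.cast_nonneg (α := ℝ) l]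

end Cov

theorem cov (h : T3u.InvG) : CovS := by
  intro k l A ε hA hε
  obtain ⟨c, C, hc, hC, h⟩ := h l (fun N => Fin l → ZMod (N + 1)) (Cov.rk l) k
    ((ε ^ 2 / 4) ^ 2 ^ (k + 1) / A) (by positivity)
  obtain ⟨n, hn⟩ := T3F.covG k hA hε hc
  refine ⟨n * (C + 5) * (l + 1), by positivity, fun N _ => ?_⟩
  obtain ⟨N, rfl⟩ := Nat.exists_eq_succ_of_ne_zero (NeZero.ne N)
  obtain ⟨F, f1, f2, f3⟩ := h N
  obtain ⟨V, v1, v2, v3⟩ := hn _ F f1 f3
  refine ⟨V, v1, (T3F.card_exp hC one_le_LG f2 v2).trans (Real.exp_le_exp.2 ?_), v3⟩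
  rw [mul_assoc (n * (C + 5))]
  exact mul_le_mul_of_nonneg_left (Cov.lg l N) (by positivity)

end Pool.Agent.MP_154433_an.T4S

end

end PkCov

section PkEnd

/-! From the vanishing of the weighted averages to the convergence of the averages, commuting
maps. -/

set_option autoImplicit false
set_option linter.unusedVariables false

open MeasureTheory ProbabilityTheory Filter Topology Function Asymptotics
open scoped BigOperators ComplexConjugate InnerProductSpace

noncomputable section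

namespace Pool.Agent.MP_154433_an.T4S

theorem endr : EndS := by
  intro σ p h0 ha hW H1 ℓ X _ μ _ T hT hc hV f hf
  choose c f' hm hb he using fun i => exists_rep (hf i)
  have H2 := hV (fun i x => (f' i x : ℂ)) fun i => ⟨Complex.measurable_ofReal.comp (hm i),
    fun x => by simpa using hb i x⟩
  obtain ⟨F, G, hF, h1, h2⟩ := T3S.End.core h0 ha hW p T H1 hT hc f' hm hb
    (H2.congr fun M => integral_congr_ae (Eventually.of_forall fun x => by
      beta_reduce
      rw [← sq_abs (∑ _ ∈ _, _), ← Real.norm_eq_abs, ← Complex.norm_real]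
      push_cast
      rfl))
  have hk : ∀ᵐ x ∂μ, ∀ k, ∏ i, f i ((T i)^[k] x) =
      (∏ i, c i) * ∏ i, f' i ((T i)^[k] x) := by
    have : ∀ᵐ x ∂μ, ∀ k i, f i ((T i)^[k] x) = c i * f' i ((T i)^[k] x) :=
      ae_all_iff.2 fun k => ae_all_iff.2 fun i =>
        ((hT i).iterate k).quasiMeasurePreserving.ae_eq_comp (he i)
    filter_upwards [this] with x hx k
    simp only [hx, Finset.prod_mul_distrib]
  refine ⟨fun x => (∏ i, c i) * G x, (Lp.memLp G).const_mul _,
    tendsto_eLpNorm h1 _ fun N => ?_, tendsto_eLpNorm h2 _ fun N => ?_⟩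
  · filter_upwards [hk, coe_avg (Finset.range N) (N : ℝ)⁻¹ (Nat.nth p) F _ hF] with x h3 h4
    rw [h4]
    simp only [h3, ← Finset.mul_sum]
    ring
  · filter_upwards [hk, coe_avg (Finset.Icc 1 N) (N : ℝ)⁻¹ id F _ hF] with x h3 h4
    simp only [id] at h4
    rw [h4]
    simp only [h3, ← Finset.mul_sum]
    ring

end Pool.Agent.MP_154433_an.T4S

end

end PkEnd

section PkFac

/-! The structured factor is an invariant sigma-algebra that contains the almost invariant sets. -/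

set_option autoImplicit false
set_option linter.unusedVariables false

open MeasureTheory ProbabilityTheory Filter Topology Function
open scoped BigOperators ComplexConjugate InnerProductSpace

noncomputable section

namespace Pool.Agent.MP_154433_an.T4S

open T3S (B1 MB1 conj_exp)

namespace Fac

variable {X : Type} [m0 : MeasurableSpace X] {μ : Measure X} {l : ℕ} {A : Gm l → X → X} {q : ℤ}

lemma CX_map {k H0 : ℕ} (L : (X → ℂ) →ₗ[ℝ] (X → ℂ))
    (h : ∀ (H : ℕ) (β : Fin k → (Fin k → Gm l) → X → ℂ), (∀ i τ, MB1 (β i τ)) →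
      ∃ β' : Fin k → (Fin k → Gm l) → X → ℂ, (∀ i τ, MB1 (β' i τ)) ∧
        L (blk A q H β) = blk A q H β')
    {u : X → ℂ} (hu : u ∈ CX k A q H0) : L u ∈ CX k A q H0 := by
  have hc : Convex ℝ (L ⁻¹' CX k A q H0) := (convex_convexHull ℝ _).linear_preimage L
  refine convexHull_min ?_ hc hu
  rintro _ ⟨H, β, h1, h2, rfl⟩
  obtain ⟨β', h3, h4⟩ := h H β h2
  exact subset_convexHull ℝ _ ⟨H, β', h1, h3, h4⟩

lemma DD_map (hA : Act μ A) {k : ℕ} (L : (X → ℂ) →ₗ[ℝ] (X → ℂ))
    (h : ∀ (H : ℕ) (β : Fin k → (Fin k → Gm l) → X → ℂ), (∀ i τ, MB1 (β i τ)) →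
      ∃ β' : Fin k → (Fin k → Gm l) → X → ℂ, (∀ i τ, MB1 (β' i τ)) ∧
        L (blk A q H β) = blk A q H β')
    (h1 : ∀ D, MB1 D → MB1 (L D))
    (h2 : ∀ D u, MB1 D → MB1 u → ∫ x, ‖L D x - L u x‖ ∂μ ≤ ∫ x, ‖D x - u x‖ ∂μ)
    {D : X → ℂ} (hD : D ∈ DD k μ A q) : L D ∈ DD k μ A q := by
  refine ⟨h1 D hD.1, fun H0 ε hε => ?_⟩
  obtain ⟨u, hu, hε'⟩ := hD.2 H0 ε hε
  exact ⟨L u, CX_map L h hu, (h2 D u hD.1 (hA.CX_MB1 hu)).trans hε'⟩

lemma DD_tz (hA : Act μ A) {k : ℕ} (v : Gm l) {D : X → ℂ}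
    (hD : D ∈ DD k μ A q) : (fun x => D (A v x)) ∈ DD k μ A q := by
  refine DD_map hA (LinearMap.funLeft ℝ ℂ (A v)) (fun H β hβ => ?_) (fun D hD => hA.tz hD v)
    (fun D u hD hu => ?_) hD
  · refine ⟨fun i τ y => β i τ (A v y), fun i τ => hA.tz (hβ i τ) v, ?_⟩
    funext x
    simp only [LinearMap.funLeft_apply, blk, hA.comm v]
  · exact (hA.integral v (f := fun x => ‖D x - u x‖)
      (hD.1.sub hu.1).norm.aestronglyMeasurable).le

/-- pointwise conjugation -/
def cjL (X : Type) : (X → ℂ) →ₗ[ℝ] (X → ℂ) where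
  toFun u := fun x => conj (u x)
  map_add' u w := by funext x; simp
  map_smul' c u := by funext x; simp

/-- pointwise multiplication by a constant -/
def mlL (X : Type) (c : ℂ) : (X → ℂ) →ₗ[ℝ] (X → ℂ) where
  toFun u := fun x => c * u x
  map_add' u w := by funext x; simp [mul_add]
  map_smul' a u := by funext x; simp [mul_left_comm]

lemma DD_cj (hA : Act μ A) {k : ℕ} {D : X → ℂ} (hD : D ∈ DD k μ A q) :
    (fun x => conj (D x)) ∈ DD k μ A q := by
  refine DD_map hA (cjL X) (fun H β hβ => ?_) (fun D hD => hD.cj) (fun D u hD hu => ?_) hD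
  · refine ⟨fun i τ y => conj (β i τ y), fun i τ => (hβ i τ).cj, ?_⟩
    funext x
    change conj (blk A q H β x) = _
    simp only [blk, conj_exp, map_prod]
  · refine le_of_eq (integral_congr_ae (Eventually.of_forall fun x => ?_))
    change ‖conj (D x) - conj (u x)‖ = ‖D x - u x‖
    rw [← map_sub, RCLike.norm_conj]

lemma MB1_const {c : ℂ} (hc : ‖c‖ ≤ 1) : MB1 fun _ : X => c := ⟨measurable_const, fun _ => hc⟩

lemma DD_ml (hA : Act μ A) {k : ℕ} {c : ℂ} (hc : ‖c‖ = 1) {D : X → ℂ}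
    (hD : D ∈ DD (k + 1) μ A q) : (fun x => c * D x) ∈ DD (k + 1) μ A q := by
  refine DD_map hA (mlL X c) (fun H β hβ => ?_) (fun D hD => (MB1_const hc.le).mul hD)
    (fun D u hD hu => ?_) hD
  · refine ⟨fun i τ y => (if i = 0 then c else 1) * β i τ y, fun i τ => ?_, ?_⟩
    · refine (MB1_const ?_).mul (hβ i τ)
      split_ifs
      · exact hc.le
      · simp
    · funext x
      change c * blk A q H β x = _
      simp only [blk, Finset.mul_expect, Finset.prod_mul_distrib, Finset.prod_ite_eq',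
        Finset.mem_univ, if_true]
  · refine le_of_eq (integral_congr_ae (Eventually.of_forall fun x => ?_))
    change ‖c * D x - c * u x‖ = ‖D x - u x‖
    rw [← mul_sub, norm_mul, hc, one_mul]

lemma DD_mid [IsFiniteMeasure μ] (hA : Act μ A) {k : ℕ} {D E : X → ℂ} (hD : D ∈ DD k μ A q)
    (hE : E ∈ DD k μ A q) : (1 / 2 : ℝ) • D + (1 / 2 : ℝ) • E ∈ DD k μ A q := by
  have h2 : (0 : ℝ) ≤ 1 / 2 := by norm_num
  have h1 : (1 / 2 : ℝ) + 1 / 2 = 1 := by norm_num
  refine ⟨MB1.convex hD.1 hE.1 h2 h2 h1, fun H0 ε hε => ?_⟩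
  obtain ⟨u, hu, hu'⟩ := hD.2 H0 ε hε
  obtain ⟨w, hw, hw'⟩ := hE.2 H0 ε hε
  refine ⟨(1 / 2 : ℝ) • u + (1 / 2 : ℝ) • w, convex_convexHull ℝ _ hu hw h2 h2 h1, ?_⟩
  have i1 : Integrable (fun x => ‖D x - u x‖) μ :=
    ((hD.1.integrable μ).sub ((hA.CX_MB1 hu).integrable μ)).norm
  have i2 : Integrable (fun x => ‖E x - w x‖) μ :=
    ((hE.1.integrable μ).sub ((hA.CX_MB1 hw).integrable μ)).norm
  calc _ ≤ ∫ x, ((1 / 2) * ‖D x - u x‖ + (1 / 2) * ‖E x - w x‖) ∂μ := by
        refine integral_mono_of_nonneg (Eventually.of_forall fun x => norm_nonneg _)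
          ((i1.const_mul _).add (i2.const_mul _)) (Eventually.of_forall fun x => ?_)
        have e : ((1 / 2 : ℝ) • D + (1 / 2 : ℝ) • E) x - ((1 / 2 : ℝ) • u + (1 / 2 : ℝ) • w) x =
            (1 / 2 : ℝ) • (D x - u x) + (1 / 2 : ℝ) • (E x - w x) := by
          simp only [Pi.add_apply, Pi.smul_apply, smul_sub]
          abel
        change ‖((1 / 2 : ℝ) • D + (1 / 2 : ℝ) • E) x -
          ((1 / 2 : ℝ) • u + (1 / 2 : ℝ) • w) x‖ ≤ _
        rw [e]
        refine (norm_add_le _ _).trans (le_of_eq ?_)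
        simp only [norm_smul, Real.norm_eq_abs, abs_of_nonneg h2]
    _ = (1 / 2) * ∫ x, ‖D x - u x‖ ∂μ + (1 / 2) * ∫ x, ‖E x - w x‖ ∂μ := by
        rw [integral_add (i1.const_mul _) (i2.const_mul _), integral_const_mul,
          integral_const_mul]
    _ ≤ ε := by linarith

lemma DD_re [IsFiniteMeasure μ] (hA : Act μ A) {k : ℕ} {D : X → ℂ} (hD : D ∈ DD k μ A q) :
    (fun x => (((D x).re : ℝ) : ℂ)) ∈ DD k μ A q := by
  have e : (fun x => (((D x).re : ℝ) : ℂ)) =
      (1 / 2 : ℝ) • D + (1 / 2 : ℝ) • fun x => conj (D x) := by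
    funext x
    simp only [Pi.add_apply, Pi.smul_apply, Complex.real_smul]
    rw [← mul_add, Complex.add_conj]
    push_cast
    ring
  rw [e]
  exact DD_mid hA hD (DD_cj hA hD)

lemma DD_im [IsFiniteMeasure μ] (hA : Act μ A) {k : ℕ} {D : X → ℂ}
    (hD : D ∈ DD (k + 1) μ A q) : (fun x => (((D x).im : ℝ) : ℂ)) ∈ DD (k + 1) μ A q := by
  have h := DD_re hA (DD_ml hA (c := -Complex.I) (by simp) hD)
  simpa using h

/-- an almost invariant function is its own block -/
lemma DD_inv {k : ℕ} {D : X → ℂ} (hD : MB1 D)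
    (hI : ∀ v, (fun x => D (A (q • v) x)) =ᵐ[μ] D) : D ∈ DD (k + 1) μ A q := by
  refine ⟨hD, fun H0 ε hε => ⟨blk A q (H0 + 1) fun i _ y => if i = 0 then D y else 1,
    subset_convexHull ℝ _ ⟨H0 + 1, _, Nat.le_succ _, fun i τ => ?_, rfl⟩, ?_⟩⟩
  · by_cases hi : i = 0
    · simpa only [hi, if_true] using hD
    · simpa only [hi, if_false] using MB1_const (X := X) (c := 1) (by simp)
  · have h0 : (fun x => ‖D x - blk A q (H0 + 1)
        (fun (i : Fin (k + 1)) _ y => if i = 0 then D y else 1) x‖) =ᵐ[μ] 0 := by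
      filter_upwards [ae_all_iff.2 hI] with x hx
      simp only [blk, Finset.prod_ite_eq', Finset.mem_univ, if_true, hx, Fintype.expect_const,
        sub_self, norm_zero, Pi.zero_apply]
    rw [integral_congr_ae h0]
    simpa using hε.le

lemma Gen_meas {k : ℕ} {φ : X → ℝ} (hφ : φ ∈ Gen k μ A q) : Measurable φ := by
  have h : (fun x => (φ x : ℂ)) ∈ DD (k + 1) μ A q := hφ
  have h1 := Complex.measurable_re.comp h.1.1
  simpa [Function.comp_def] using h1

lemma Gen_B0 {k : ℕ} {φ : X → ℝ} (hφ : φ ∈ Gen k μ A q) : Measurable[B0 k μ A q] φ :=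
  measurable_iff_comap_le.2
    (le_iSup₂ (f := fun φ (_ : φ ∈ Gen k μ A q) => MeasurableSpace.comap φ inferInstance) φ hφ)

lemma Gen_tz (hA : Act μ A) {k : ℕ} (v : Gm l) {φ : X → ℝ} (hφ : φ ∈ Gen k μ A q) :
    (fun x => φ (A v x)) ∈ Gen k μ A q := DD_tz hA v (D := fun x => (φ x : ℂ)) hφ

lemma B0_tz (hA : Act μ A) {k : ℕ} (v : Gm l) :
    Measurable[B0 k μ A q, B0 k μ A q] (A v) := by
  refine measurable_iff_comap_le.2 ?_
  conv_lhs => rw [B0]
  simp only [MeasurableSpace.comap_iSup, MeasurableSpace.comap_comp]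
  exact iSup₂_le fun φ hφ => measurable_iff_comap_le.1 (Gen_B0 (Gen_tz hA v hφ))

end Fac

theorem fac : FacS := by
  intro k l q X m0 μ _ A hA
  refine ⟨⟨iSup₂_le fun φ hφ => measurable_iff_comap_le.1 (Fac.Gen_meas hφ),
    fun v S hS => Fac.B0_tz hA v hS, fun S hS hI => ?_⟩, fun D hD => ?_⟩
  · have hφ : S.indicator (fun _ => (1 : ℝ)) ∈ Gen k μ A q := by
      refine Fac.DD_inv (D := fun x => ((S.indicator (fun _ => (1 : ℝ)) x : ℝ) : ℂ))
        ⟨Complex.measurable_ofReal.comp (measurable_const.indicator hS), fun x => ?_⟩ fun v => ?_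
      · by_cases hx : x ∈ S <;> simp [hx]
      · refine Eventually.mono (eventuallyEq_set.1 (hI v)) fun x hx => ?_
        by_cases hxA : x ∈ S
        · have h1 : A (q • v) x ∈ S := hx.2 hxA
          simp only [Set.indicator_of_mem hxA, Set.indicator_of_mem h1]
        · have h1 : A (q • v) x ∉ S := fun h => hxA (hx.1 h)
          simp only [Set.indicator_of_notMem hxA, Set.indicator_of_notMem h1]
    have e : S = S.indicator (fun _ => (1 : ℝ)) ⁻¹' {1} := by
      ext x
      by_cases hx : x ∈ S <;> simp [hx]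
    rw [e]
    exact Fac.Gen_B0 hφ (measurableSet_singleton 1)
  · have h1 : Measurable[B0 k μ A q] fun x => (D x).re := Fac.Gen_B0 (Fac.DD_re hA hD)
    have h2 : Measurable[B0 k μ A q] fun x => (D x).im := Fac.Gen_B0 (Fac.DD_im hA hD)
    have e : D = fun x => (((D x).re : ℝ) : ℂ) + (((D x).im : ℝ) : ℂ) * Complex.I :=
      funext fun x => (Complex.re_add_im _).symm
    rw [e]
    let _ : MeasurableSpace X := B0 k μ A q
    exact (Complex.measurable_ofReal.comp h1).add
      ((Complex.measurable_ofReal.comp h2).mul_const _)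

end Pool.Agent.MP_154433_an.T4S

end

end PkFac

section PkGood

/-! Row Good: the structured factor is good. -/

set_option autoImplicit false
set_option linter.unusedVariables false

open MeasureTheory ProbabilityTheory Filter Topology Function
open scoped BigOperators ComplexConjugate InnerProductSpace

noncomputable section

namespace Pool.Agent.MP_154433_an.T4S

open SG (ABM)
open T3S (B1 MB1 Bd norm_prod_le_one)
open T3S.GoodR (MB V V_of_sq clip rep prod_bd)

namespace GoodR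

variable {X : Type} [m0 : MeasurableSpace X] {μ : Measure X} {l : ℕ} {A : Gm l → X → X}

lemma mb_tz (hA : Act μ A) {f : X → ℂ} (hf : MB f) (v : Gm l) : MB fun x => f (A v x) := by
  obtain ⟨hf, C, h0, hC⟩ := hf
  exact ⟨hf.comp (hA.meas v), C, h0, fun x => hC _⟩

omit m0 in
/-- the average as a linear function of one slot -/
def op (A : Gm l → X → X) (w : ℕ → ℕ → ℝ) (a : Gm l) (R : ℕ → X → ℂ) (g : X → ℂ) (M : ℕ)
    (x : X) : ℂ :=
  ∑ d ∈ Finset.range M, (w M d : ℂ) * (g (A ((d : ℤ) • a) x) * R d x)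

section Slot

variable [IsProbabilityMeasure μ] {w : ℕ → ℕ → ℝ} {a : Gm l} {R : ℕ → X → ℂ} {K : ℝ}

omit [IsProbabilityMeasure μ] in
lemma op_MB (hA : Act μ A)
    (hK : 0 ≤ K) (hR : ∀ d, Measurable (R d)) (hb : ∀ d x, ‖R d x‖ ≤ K) {g : X → ℂ}
    (hg : MB g) (M : ℕ) : MB (op A w a R g M) :=
  MB.sum _ fun d _ => (MB.const _).mul ((mb_tz hA hg _).mul ⟨hR d, K, hK, hb d⟩)

lemma op_int (hA : Act μ A) (hK : 0 ≤ K) (hb : ∀ d x, ‖R d x‖ ≤ K) {g : X → ℂ}
    (hg : MB g) (M : ℕ) : ∫ x, ‖op A w a R g M x‖ ∂μ ≤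
      (∑ d ∈ Finset.range M, |w M d|) * (K * ∫ x, ‖g x‖ ∂μ) := by
  have hi : ∀ d ∈ Finset.range M,
      Integrable (fun x => |w M d| * (K * ‖g (A ((d : ℤ) • a) x)‖)) μ := fun d _ =>
    (((mb_tz hA hg _).intn μ).const_mul K).const_mul _
  have h1 : ∫ x, ‖op A w a R g M x‖ ∂μ ≤
      ∫ x, ∑ d ∈ Finset.range M, |w M d| * (K * ‖g (A ((d : ℤ) • a) x)‖) ∂μ := by
    refine integral_mono_of_nonneg (Eventually.of_forall fun x => norm_nonneg _)
      (integrable_finsetSum _ hi) (Eventually.of_forall fun x => ?_)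
    refine (norm_sum_le _ _).trans (Finset.sum_le_sum fun d _ => ?_)
    rw [norm_mul, norm_mul, Complex.norm_real, Real.norm_eq_abs, mul_comm K]
    exact mul_le_mul_of_nonneg_left (mul_le_mul_of_nonneg_left (hb d x) (norm_nonneg _))
      (abs_nonneg _)
  refine h1.trans (le_of_eq ?_)
  rw [integral_finsetSum _ hi, Finset.sum_mul]
  refine Finset.sum_congr rfl fun d _ => ?_
  rw [integral_const_mul, integral_const_mul,
    hA.integral ((d : ℤ) • a) (f := fun x => ‖g x‖) hg.1.norm.aestronglyMeasurable]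

omit m0 [IsProbabilityMeasure μ] in
lemma op_add (g g' : X → ℂ) (M : ℕ) (x : X) :
    op A w a R (fun x => g x + g' x) M x = op A w a R g M x + op A w a R g' M x := by
  simp only [op, ← Finset.sum_add_distrib]
  exact Finset.sum_congr rfl fun d _ => by ring

omit m0 [IsProbabilityMeasure μ] in
lemma op_mul (c : ℂ) (g : X → ℂ) (M : ℕ) (x : X) :
    op A w a R (fun x => c * g x) M x = c * op A w a R g M x := by
  simp only [op, Finset.mul_sum]
  exact Finset.sum_congr rfl fun d _ => by ring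

lemma int_add (hA : Act μ A)
    (hK : 0 ≤ K) (hR : ∀ d, Measurable (R d)) (hb : ∀ d x, ‖R d x‖ ≤ K) {g g' : X → ℂ}
    (hg : MB g) (hg' : MB g') (M : ℕ) : ∫ x, ‖op A w a R (fun x => g x + g' x) M x‖ ∂μ ≤
      ∫ x, ‖op A w a R g M x‖ ∂μ + ∫ x, ‖op A w a R g' M x‖ ∂μ := by
  have h1 := (op_MB (w := w) (a := a) hA hK hR hb hg M).intn μ
  have h2 := (op_MB (w := w) (a := a) hA hK hR hb hg' M).intn μ
  rw [← integral_add h1 h2]
  refine integral_mono_of_nonneg (Eventually.of_forall fun x => norm_nonneg _) (h1.add h2)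
    (Eventually.of_forall fun x => ?_)
  show ‖op A w a R (fun x => g x + g' x) M x‖ ≤ _
  rw [op_add]
  exact norm_add_le _ _

lemma V_add (hA : Act μ A)
    (hK : 0 ≤ K) (hR : ∀ d, Measurable (R d)) (hb : ∀ d x, ‖R d x‖ ≤ K) {g g' : X → ℂ}
    (hg : MB g) (hg' : MB g') (h : V μ (op A w a R g)) (h' : V μ (op A w a R g')) :
    V μ (op A w a R fun x => g x + g' x) := by
  have h3 := h.add h'
  rw [add_zero] at h3
  exact squeeze_zero (fun M => integral_nonneg fun x => norm_nonneg _)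
    (fun M => int_add hA hK hR hb hg hg' M) h3

omit [IsProbabilityMeasure μ] in
lemma V_mul (c : ℂ) {g : X → ℂ} (h : V μ (op A w a R g)) : V μ (op A w a R fun x => c * g x) := by
  have h3 := h.const_mul ‖c‖
  rw [mul_zero] at h3
  refine h3.congr fun M => ?_
  simp only [op_mul, norm_mul, integral_const_mul]

lemma V_apx (hA : Act μ A) (hw : Bd w) (hK : 0 ≤ K) (hR : ∀ d, Measurable (R d))
    (hb : ∀ d x, ‖R d x‖ ≤ K) {g : X → ℂ} (hg : MB g)
    (h : ∀ ε : ℝ, 0 < ε → ∃ g', MB g' ∧ V μ (op A w a R g') ∧ ∫ x, ‖g x - g' x‖ ∂μ ≤ ε) :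
    V μ (op A w a R g) := by
  refine tendsto_order.2 ⟨fun c hc => Eventually.of_forall fun M =>
    hc.trans_le (integral_nonneg fun x => norm_nonneg _), fun c hc => ?_⟩
  obtain ⟨g', hg', hV, hε⟩ := h (c / (2 * (3 * K + 1))) (by positivity)
  filter_upwards [hw, (tendsto_order.1 hV).2 (c / 2) (by positivity)] with M h1 h2
  have e : g = fun x => g' x + (g x - g' x) := funext fun x => by ring
  have h3 := int_add (w := w) (a := a) hA hK hR hb hg' (hg.sub hg') M
  rw [← e] at h3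
  have h4 := op_int (w := w) (a := a) hA hK hb (hg.sub hg') M
  have h5 : (∑ d ∈ Finset.range M, |w M d|) * (K * ∫ x, ‖g x - g' x‖ ∂μ) ≤
      3 * (K * (c / (2 * (3 * K + 1)))) :=
    mul_le_mul h1 (mul_le_mul_of_nonneg_left hε hK)
      (mul_nonneg hK (integral_nonneg fun x => norm_nonneg _)) (by norm_num)
  have h6 : 3 * (K * (c / (2 * (3 * K + 1)))) ≤ c / 2 := by
    rw [← mul_assoc, mul_div_assoc', div_le_div_iff₀ (by positivity) (by norm_num)]
    nlinarith
  linarith

lemma slot (hA : Act μ A) (hw : Bd w) (hK : 0 ≤ K) (hR : ∀ d, Measurable (R d))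
    (hb : ∀ d x, ‖R d x‖ ≤ K) (S : Set (X → ℝ)) (h1 : (1 : X → ℝ) ∈ S)
    (hm : ∀ φ ∈ S, ∀ φ' ∈ S, φ * φ' ∈ S) (hS : ∀ φ ∈ S, Measurable φ ∧ ∃ C : ℝ, ∀ x, |φ x| ≤ C)
    (hV : ∀ φ ∈ S, V μ (op A w a R fun x => (φ x : ℂ))) {g : X → ℂ} (hg : MB g)
    (hB : AEStronglyMeasurable[⨆ φ ∈ S, MeasurableSpace.comap φ inferInstance] g μ) :
    V μ (op A w a R g) := by
  have hsp : ∀ φ ∈ Submodule.span ℝ S, V μ (op A w a R fun x => (φ x : ℂ)) := by
    intro φ hφ
    induction hφ using Submodule.span_induction with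
    | mem x h => exact hV x h
    | zero =>
      have := V_mul 0 (hV 1 h1)
      simpa using this
    | add f g hf hg ihf ihg =>
      have := V_add hA hK hR hb (MB.ofReal (SG.Dens.span_bdd hS hf))
        (MB.ofReal (SG.Dens.span_bdd hS hg)) ihf ihg
      simpa using this
    | smul c f hf ihf =>
      have := V_mul (c : ℂ) ihf
      simpa using this
  have hre : ∀ ψ : X → ℝ, (Measurable ψ ∧ ∃ C : ℝ, ∀ x, |ψ x| ≤ C) →
      AEStronglyMeasurable[⨆ φ ∈ S, MeasurableSpace.comap φ inferInstance] ψ μ →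
      V μ (op A w a R fun x => (ψ x : ℂ)) := by
    intro ψ hψ hψB
    refine V_apx hA hw hK hR hb (MB.ofReal hψ) fun ε hε => ?_
    obtain ⟨C, hC⟩ := hψ.2
    obtain ⟨φ, hφ, hlt⟩ := SG.Dens.partB h1 hm hS μ ψ ⟨hψB, C, Eventually.of_forall hC⟩ ε hε
    refine ⟨fun x => (φ x : ℂ), MB.ofReal (SG.Dens.span_bdd hS hφ), hsp φ hφ, ?_⟩
    refine le_of_eq_of_le (integral_congr_ae (Eventually.of_forall fun x => ?_)) hlt.le
    show ‖(ψ x : ℂ) - (φ x : ℂ)‖ = |ψ x - φ x|
    rw [← Complex.ofReal_sub, Complex.norm_real, Real.norm_eq_abs]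
  obtain ⟨C, h0, hC⟩ := hg.2
  have b1 : Measurable (fun x => (g x).re) ∧ ∃ C : ℝ, ∀ x, |(g x).re| ≤ C :=
    ⟨Complex.measurable_re.comp hg.1, C, fun x => (Complex.abs_re_le_norm _).trans (hC x)⟩
  have b2 : Measurable (fun x => (g x).im) ∧ ∃ C : ℝ, ∀ x, |(g x).im| ≤ C :=
    ⟨Complex.measurable_im.comp hg.1, C, fun x => (Complex.abs_im_le_norm _).trans (hC x)⟩
  have v1 := hre _ b1 (Complex.continuous_re.comp_aestronglyMeasurable hB)
  have v2 := hre _ b2 (Complex.continuous_im.comp_aestronglyMeasurable hB)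
  have v3 := V_add hA hK hR hb (MB.ofReal b1) ((MB.const Complex.I).mul (MB.ofReal b2)) v1
    (V_mul Complex.I v2)
  have e : g = fun x => ((g x).re : ℂ) + Complex.I * ((g x).im : ℂ) := funext fun x => by
    rw [mul_comm, Complex.re_add_im]
  rw [← e] at v3
  exact v3

end Slot

omit m0 in
lemma wavg_update {ι : Type} [Fintype ι] [DecidableEq ι] (w : ℕ → ℕ → ℝ) (r : ι → Gm l)
    (f : ι → X → ℂ) (i : ι) (g : X → ℂ) : wavg A w r (update f i g) =
      op A w (r i) (fun d x => ∏ j ∈ Finset.univ.erase i, f j (A ((d : ℤ) • r j) x)) g := by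
  funext M x
  refine Finset.sum_congr rfl fun d _ => ?_
  rw [← Finset.mul_prod_erase _ _ (Finset.mem_univ i), update_self]
  congr 2
  exact Finset.prod_congr rfl fun j hj => by rw [update_of_ne (Finset.ne_of_mem_erase hj)]

/-- a product of dual functions -/
def Shape (k : ℕ) (μ : Measure X) (A : Gm l → X → X) (q : ℤ) (φ : X → ℝ) : Prop :=
  Measurable φ ∧ (∀ x, |φ x| ≤ 1) ∧ ∃ (κ : Type) (_ : Fintype κ) (D : κ → X → ℂ),
    (∀ t, D t ∈ DD (k + 1) μ A q) ∧ ∀ x, (φ x : ℂ) = ∏ t, D t x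

lemma shape (k : ℕ) (q : ℤ) {φ : X → ℝ} (h : φ ∈ Submonoid.closure (Gen k μ A q)) :
    Shape k μ A q φ := by
  induction h using Submonoid.closure_induction with
  | mem φ hD =>
    refine ⟨?_, fun x => ?_, Unit, inferInstance, fun _ x => (φ x : ℂ), fun _ => hD,
      fun x => by simp⟩
    · exact Complex.measurable_re.comp hD.1.1
    · have := hD.1.2 x
      rwa [Complex.norm_real, Real.norm_eq_abs] at this
  | one =>
    exact ⟨measurable_const, fun x => by simp, Empty, inferInstance, fun t => t.elim,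
      fun t => t.elim, fun x => by simp⟩
  | mul φ φ' _ _ h h' =>
    obtain ⟨a1, a2, κ, _, D, a5, a6⟩ := h
    obtain ⟨b1, b2, κ', _, D', b5, b6⟩ := h'
    refine ⟨a1.mul b1, fun x => ?_, κ ⊕ κ', inferInstance, Sum.elim D D', ?_, fun x => ?_⟩
    · rw [Pi.mul_apply, abs_mul]
      exact mul_le_one₀ (a2 x) (abs_nonneg _) (b2 x)
    · rintro (t | t)
      · exact a5 t
      · exact b5 t
    · rw [Pi.mul_apply, Complex.ofReal_mul, a6, b6, Fintype.prod_sum_type]
      simp only [Sum.elim_inl, Sum.elim_inr]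

lemma wavg_MB (hA : Act μ A) {ι : Type} [Fintype ι] (w : ℕ → ℕ → ℝ) (r : ι → Gm l)
    {f : ι → X → ℂ} (hf : ∀ i, MB1 (f i)) (M : ℕ) : MB (wavg A w r f M) :=
  ⟨hA.wavg_meas w r (fun i => (hf i).1) M, _, Finset.sum_nonneg fun d _ => abs_nonneg _,
    wavg_norm_le A w r (fun i => (hf i).2) M⟩

lemma base [IsProbabilityMeasure μ] (h : ProdS) {k : ℕ} {q : ℤ} {w : ℕ → ℕ → ℝ}
    (hs : Str k l q w) (hw : Bd w) (hA : Act μ A) {ι : Type} [Fintype ι] (r : ι → Gm l)
    (φ : ι → X → ℝ) (hφ : ∀ i, Shape k μ A q (φ i)) :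
    V μ (wavg A w r fun i x => (φ i x : ℂ)) := by
  choose a1 a2 κ inst D a5 a6 using hφ
  have h1 := V_of_sq (μ := μ)
    (fun M => wavg_MB hA w (fun s : Σ i, κ i => r s.1) (fun s => (a5 s.1 s.2).1) M)
    (h k l q w hs hw X μ A hA (Σ i, κ i) (fun s => r s.1) (fun s => D s.1 s.2)
      fun s => a5 s.1 s.2)
  have e : (wavg A w r fun i x => (φ i x : ℂ)) =
      wavg A w (fun s : Σ i, κ i => r s.1) fun s => D s.1 s.2 := by
    funext M x
    simp only [wavg, a6, Fintype.prod_sigma]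
  rw [e]
  exact h1

lemma all [IsProbabilityMeasure μ] (h : ProdS) {k : ℕ} {q : ℤ} {w : ℕ → ℕ → ℝ}
    (hs : Str k l q w) (hw : Bd w) (hA : Act μ A) {ι : Type} [Fintype ι] (r : ι → Gm l)
    (s : Finset ι) :
    ∀ f : ι → X → ℂ, (∀ i, MB (f i)) → (∀ i ∈ s, AEStronglyMeasurable[B0 k μ A q] (f i) μ) →
      (∀ i ∉ s, ∃ φ ∈ Submonoid.closure (Gen k μ A q), f i = fun x => (φ x : ℂ)) →
      V μ (wavg A w r f) := by
  classical
  induction s using Finset.induction_on with
  | empty =>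
    intro f _ _ h3
    choose φ hφ e using fun i => h3 i (Finset.notMem_empty i)
    rw [show f = fun i x => (φ i x : ℂ) from funext e]
    exact base h hs hw hA r φ fun i => shape k q (hφ i)
  | insert a s ha ih =>
    intro f h1 h2 h3
    obtain ⟨K, hK, hb⟩ := prod_bd (Finset.univ.erase a) h1
    have hS : ∀ φ ∈ (Submonoid.closure (Gen k μ A q) : Set (X → ℝ)),
        Measurable φ ∧ ∃ C : ℝ, ∀ x, |φ x| ≤ C := fun φ hφ =>
      ⟨(shape k q hφ).1, 1, (shape k q hφ).2.1⟩
    rw [← update_eq_self a f, wavg_update]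
    refine slot (R := fun d x => ∏ j ∈ Finset.univ.erase a, f j (A ((d : ℤ) • r j) x)) hA hw hK
      (fun d => Finset.measurable_prod _ fun j _ => (h1 j).1.comp (hA.meas _))
      (fun d x => hb _) (Submonoid.closure (Gen k μ A q) : Set (X → ℝ)) (one_mem _)
      (fun φ hφ φ' hφ' => mul_mem hφ hφ') hS (fun φ hφ => ?_) (h1 a) ?_
    · rw [← wavg_update]
      refine ih _ (fun i => ?_) (fun i hi => ?_) fun i hi => ?_
      · by_cases e : i = a
        · rw [e, update_self]
          exact MB.ofReal (hS φ hφ)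
        · rw [update_of_ne e]
          exact h1 i
      · rw [update_of_ne (ne_of_mem_of_not_mem hi ha)]
        exact h2 i (Finset.mem_insert_of_mem hi)
      · by_cases e : i = a
        · rw [e, update_self]
          exact ⟨φ, hφ, rfl⟩
        · rw [update_of_ne e]
          exact h3 i fun hi' => (Finset.mem_insert.1 hi').elim e hi
    · refine (h2 a (Finset.mem_insert_self _ _)).mono ?_
      exact iSup₂_le fun φ hφ => le_iSup₂_of_le φ (Submonoid.subset_closure hφ) le_rfl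

end GoodR

open GoodR in
theorem good (h : ProdS) : GoodS := by
  intro k l q w hs hw X m0 μ _ A hA ι _ r f hf
  have hB : B0 k μ A q ≤ m0 := iSup₂_le fun φ hφ =>
    (shape k q (Submonoid.subset_closure hφ)).1.comap_le
  choose g h1 h2 h3 using fun i => rep _ hB (hf i)
  have hV := all h hs hw hA r Finset.univ g h1 (fun i _ => h2 i)
    fun i hi => absurd (Finset.mem_univ i) hi
  obtain ⟨K, hK, hb⟩ := prod_bd Finset.univ h1
  have h4 : ∀ᵐ x ∂μ, ∀ (i : ι) (v : Gm l), f i (A v x) = g i (A v x) :=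
    ae_all_iff.2 fun i => ae_all_iff.2 fun v => (hA.mp v).quasiMeasurePreserving.ae (h3 i)
  have h5 := hV.const_mul (3 * K)
  rw [mul_zero] at h5
  refine squeeze_zero' (Eventually.of_forall fun M => integral_nonneg fun x => sq_nonneg _) ?_ h5
  filter_upwards [hw] with M hM
  have hn : ∀ x, ‖wavg A w r g M x‖ ≤ 3 * K := fun x => by
    refine (norm_sum_le _ _).trans (le_trans (Finset.sum_le_sum fun d _ => ?_)
      ((Finset.sum_mul _ _ K).ge.trans (mul_le_mul_of_nonneg_right hM hK)))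
    rw [norm_mul, Complex.norm_real, Real.norm_eq_abs]
    exact mul_le_mul_of_nonneg_left (hb _) (abs_nonneg _)
  have hi : Integrable (fun x => ‖wavg A w r g M x‖) μ :=
    MB.intn ⟨hA.wavg_meas w r (fun i => (h1 i).1) M, 3 * K, by positivity, hn⟩ μ
  rw [← integral_const_mul]
  refine integral_mono_of_nonneg (Eventually.of_forall fun x => sq_nonneg _) (hi.const_mul _) ?_
  filter_upwards [h4] with x hx
  have e : wavg A w r f M x = wavg A w r g M x := by simp only [wavg, hx]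
  rw [e, sq]
  exact mul_le_mul_of_nonneg_right (hn x) (norm_nonneg _)

end Pool.Agent.MP_154433_an.T4S

end

end PkGood
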