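import Pool.Agent.MP_154433_an.t4s.Basic
import Pool.Agent.MP_154433_an.t3s.Gvn

/-! Structured part for commuting maps, part two. -/

section PkGvn

/-! The generalized von Neumann inequality for weighted multiple averages of a lattice action. -/

set_option autoImplicit false
set_option linter.unusedVariables false

open MeasureTheory ProbabilityTheory Filter Topology Function
open scoped BigOperators ComplexConjugate InnerProductSpace

noncomputable section

namespace Pool.Agent.MP_154433_an.T4S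

open T3S (B1 MB1 PW AsInv norm_exp_le_of norm_prod_le_one meas_exp integral_exp re_exp
  exp_le_of_le)
open T3S.Gvn (pow_exp_le add_pow_le cs int_sq sq_le_one)

namespace Gvn

variable {l : ℕ} {X : Type} [MeasurableSpace X] {μ : Measure X} [IsProbabilityMeasure μ]
  {A : Gm l → X → X}

/-- the differenced functions -/
def FF {X : Type} {ι : Type} (A : Gm l → X → X) (r : ι → Gm l) (f : ι → X → ℂ) (h h' : ℕ) (i : ι)
    (y : X) : ℂ :=
  f i (A ((h' : ℤ) • r i) y) * conj (f i (A ((h : ℤ) • r i) y))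

omit [IsProbabilityMeasure μ] in
lemma FF_MB1 (hA : Act μ A) {ι : Type} (r : ι → Gm l) {f : ι → X → ℂ} (hf : ∀ i, MB1 (f i))
    (h h' : ℕ) (i : ι) : MB1 (FF A r f h h' i) :=
  (hA.tz (hf i) _).mul (hA.tz (hf i) _).cj

omit [IsProbabilityMeasure μ] in
lemma FF_eq (hA : Act μ A) {ι : Type} (r : ι → Gm l) (f : ι → X → ℂ) (h h' : ℕ) (i : ι) :
    FF A r f h h' i =
      fun x => ddX A (((h' : ℤ) - (h : ℤ)) • r i) (f i) (A ((h : ℤ) • r i) x) := by
  funext x
  simp only [FF, ddX, ← hA.add]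
  congr 3
  rw [sub_smul, sub_add_cancel]

omit [IsProbabilityMeasure μ] in
lemma wavg_MB1 (hA : Act μ A) {ι : Type} [Fintype ι] {w : ℕ → ℕ → ℝ} (hw : ∀ M d, 0 ≤ w M d)
    {M : ℕ} (h1 : ∑ d ∈ Finset.range M, w M d = 1) (r : ι → Gm l) {f : ι → X → ℂ}
    (hf : ∀ i, MB1 (f i)) : MB1 (wavg A w r f M) := by
  refine ⟨hA.wavg_meas w r (fun i => (hf i).1) M, fun x => ?_⟩
  refine (wavg_norm_le A w r (fun i => (hf i).2) M x).trans (le_of_eq ?_)
  rw [← h1]
  exact Finset.sum_congr rfl fun d _ => abs_of_nonneg (hw M d)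

lemma int_wavg (hA : Act μ A) {ι : Type} [Fintype ι] (w : ℕ → ℕ → ℝ) (M : ℕ) (r : ι → Gm l)
    {f : ι → X → ℂ} (hf : ∀ i, MB1 (f i)) : ∫ x, wavg A w r f M x ∂μ =
      ∑ d ∈ Finset.range M, (w M d : ℂ) * ∫ x, ∏ i, f i (A ((d : ℤ) • r i) x) ∂μ := by
  simp only [wavg]
  rw [integral_finsetSum _ fun d _ =>
    ((T3S.MB1.prod _ fun i _ => hA.tz (hf i) _).integrable μ).const_mul _]
  exact Finset.sum_congr rfl fun d _ => integral_const_mul _ _

/-- the van der Corput inequality, integrated -/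
lemma step (hA : Act μ A) (hv : T3S.VdcS) {w : ℕ → ℕ → ℝ} (hw : PW w) (ha : AsInv w) {H : ℕ}
    (hH : 1 ≤ H) {ι : Type} [Fintype ι] (r : ι → Gm l) {f : ι → X → ℂ} (hf : ∀ i, MB1 (f i))
    {η : ℝ} (hη : 0 < η) : ∀ᶠ M in atTop, ∫ x, ‖wavg A w r f M x‖ ^ 2 ∂μ ≤
      (𝔼 h : Fin H, 𝔼 h' : Fin H, (∫ x, wavg A w r (FF A r f h h') M x ∂μ).re) + η := by
  filter_upwards [hv w hw ha H hH η hη, hw.2] with M hM h1
  have mF : ∀ h h' : Fin H, MB1 (wavg A w r (FF A r f h h') M) := fun h h' =>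
    wavg_MB1 hA hw.1 h1 r (FF_MB1 hA r hf h h')
  have iF : ∀ h h' : Fin H, Integrable (wavg A w r (FF A r f h h') M) μ := fun h h' =>
    (mF h h').integrable μ
  have mE : MB1 fun x => 𝔼 h : Fin H, 𝔼 h' : Fin H, wavg A w r (FF A r f h h') M x :=
    ⟨meas_exp _ fun h _ => meas_exp _ fun h' _ => (mF h h').1,
      fun x => norm_exp_le_of zero_le_one fun h _ => norm_exp_le_of zero_le_one fun h' _ =>
        (mF h h').2 x⟩
  have mE' : ∀ h : Fin H, MB1 fun x => 𝔼 h' : Fin H, wavg A w r (FF A r f h h') M x := fun h =>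
    ⟨meas_exp _ fun h' _ => (mF h h').1,
      fun x => norm_exp_le_of zero_le_one fun h' _ => (mF h h').2 x⟩
  have key : ∀ x, ‖wavg A w r f M x‖ ^ 2 ≤
      (𝔼 h : Fin H, 𝔼 h' : Fin H, wavg A w r (FF A r f h h') M x).re + η := by
    intro x
    have h2 := hM (fun d => ∏ i, f i (A ((d : ℤ) • r i) x))
      (fun d => norm_prod_le_one _ fun i _ => (hf i).2 _)
    refine h2.trans (le_of_eq ?_)
    congr 2
    refine Finset.expect_congr rfl fun h _ => Finset.expect_congr rfl fun h' _ => ?_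
    refine Finset.sum_congr rfl fun d _ => ?_
    congr 1
    rw [map_prod, ← Finset.prod_mul_distrib]
    refine Finset.prod_congr rfl fun i _ => ?_
    have e : ∀ a : ℕ, ((d + a : ℕ) : ℤ) • r i = (a : ℤ) • r i + (d : ℤ) • r i := fun a => by
      rw [← add_smul, Nat.cast_add, add_comm]
    simp only [FF, ← hA.add, e]
  have iR : Integrable (fun x =>
      (𝔼 h : Fin H, 𝔼 h' : Fin H, wavg A w r (FF A r f h h') M x).re) μ := (mE.integrable μ).re
  refine (integral_mono (int_sq (wavg_MB1 hA hw.1 h1 r hf)) (iR.add (integrable_const η))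
    key).trans (le_of_eq ?_)
  simp only [Pi.add_apply]
  rw [integral_add iR (integrable_const η)]
  congr 1
  · have e := integral_re (𝕜 := ℂ) (mE.integrable μ)
    simp only [RCLike.re_to_complex] at e
    rw [e, integral_exp _ fun h _ => (mE' h).integrable μ, re_exp]
    refine Finset.expect_congr rfl fun h _ => ?_
    rw [integral_exp _ fun h' _ => iF h h', re_exp]
  · simp

/-- removing the slot one -/
lemma drop (hA : Act μ A) {w : ℕ → ℕ → ℝ} (hw : ∀ M d, 0 ≤ w M d) {M : ℕ}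
    (h1 : ∑ d ∈ Finset.range M, w M d = 1) {n : ℕ} (r : Fin (n + 2) → Gm l)
    {F : Fin (n + 2) → X → ℂ} (hF : ∀ i, MB1 (F i)) :
    (∫ x, wavg A w r F M x ∂μ).re ≤ √(∫ x, ‖wavg A w
      (fun j : Fin (n + 1) => r ((1 : Fin (n + 2)).succAbove j) - r 1)
      (fun j => F ((1 : Fin (n + 2)).succAbove j)) M x‖ ^ 2 ∂μ) := by
  set r' : Fin (n + 1) → Gm l := fun j => r ((1 : Fin (n + 2)).succAbove j) - r 1 with hr'
  set F' : Fin (n + 1) → X → ℂ := fun j => F ((1 : Fin (n + 2)).succAbove j) with hF'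
  have mF' : ∀ j, MB1 (F' j) := fun j => hF _
  have mW := wavg_MB1 hA hw h1 r' mF'
  have e : ∫ x, wavg A w r F M x ∂μ = ∫ x, F 1 x * wavg A w r' F' M x ∂μ := by
    rw [int_wavg hA w M r hF]
    simp only [wavg, Finset.mul_sum]
    rw [integral_finsetSum _ fun d _ => ?_]
    · refine Finset.sum_congr rfl fun d _ => ?_
      rw [← hA.integral (-((d : ℤ) • r 1))
        (T3S.MB1.prod _ fun i _ => hA.tz (hF i) _).1.aestronglyMeasurable, ← integral_const_mul]
      refine integral_congr_ae (Eventually.of_forall fun x => ?_)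
      simp only [← hA.add]
      rw [Fin.prod_univ_succAbove _ (1 : Fin (n + 2)), add_neg_cancel, hA.zero, mul_left_comm]
      congr 2
      refine Finset.prod_congr rfl fun j _ => ?_
      simp only [hF', hr']
      congr 2
      rw [smul_sub, sub_eq_add_neg]
    · simp only [mul_left_comm (F 1 _)]
      exact (((hF 1).mul (T3S.MB1.prod _ fun i _ => hA.tz (mF' i) _)).integrable μ).const_mul _
  refine le_trans ?_ (Real.le_sqrt_of_sq_le (cs mW))
  rw [e]
  refine (Complex.re_le_norm _).trans ((norm_integral_le_integral_norm _).trans ?_)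
  refine integral_mono (((hF 1).mul mW).integrable μ).norm (mW.integrable μ).norm fun x => ?_
  simp only [norm_mul]
  exact mul_le_of_le_one_left (norm_nonneg _) ((hF 1).2 x)

end Gvn

open Gvn in
theorem gvn (h : T3S.VdcS) : GvnS := by
  intro w hw ha l X _ μ _ A hA n
  induction n with
  | zero =>
    intro H hH r f hf η hη
    filter_upwards [step hA h hw ha (hH 0) r hf hη, hw.2] with M hM h1
    rw [pow_zero, pow_one]
    refine hM.trans (le_of_eq ?_)
    congr 1
    rw [List.ofFn_succ, List.ofFn_zero, QX_ln]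
    simp only [QX, Fin.cons_zero]
    refine Finset.expect_congr rfl fun a _ => Finset.expect_congr rfl fun a' _ => ?_
    rw [int_wavg hA w M r (FF_MB1 hA r hf a a')]
    have e : ∀ d : ℕ, ∫ x, ∏ i, FF A r f a a' i (A ((d : ℤ) • r i) x) ∂μ =
        ∫ x, ddX A ((((a' : ℕ) : ℤ) - ((a : ℕ) : ℤ)) • r 0) (f 0) x ∂μ := by
      intro d
      simp only [Fin.prod_univ_succ, Fin.prod_univ_zero, mul_one]
      rw [hA.integral _ (FF_MB1 hA r hf a a' 0).1.aestronglyMeasurable, FF_eq hA,
        hA.integral _ (hA.dd (hf 0) _).1.aestronglyMeasurable]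
    simp only [e, ← Finset.sum_mul]
    rw [← Complex.ofReal_sum, h1, Complex.ofReal_one, one_mul]
  | succ n ih =>
    intro H hH r f hf η hη
    have : Nonempty (Fin (H 0)) := ⟨⟨0, hH 0⟩⟩
    set m : ℕ := 2 ^ (n + 1) with hm
    have hK : (0 : ℝ) < m * 2 ^ (m - 1) := by positivity
    set e : ℝ := min 1 (η / 2 / (m * 2 ^ (m - 1))) with he
    have he0 : 0 < e := lt_min one_pos (by positivity)
    have he2 : e * (m * 2 ^ (m - 1)) ≤ η / 2 := (le_div_iff₀ hK).1 (min_le_right _ _)
    set r' : Fin (n + 1) → Gm l := fun j => r ((1 : Fin (n + 2)).succAbove j) - r 1 with hr'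
    set F' : Fin (H 0) → Fin (H 0) → Fin (n + 1) → X → ℂ :=
      fun a a' j => FF A r f a a' ((1 : Fin (n + 2)).succAbove j) with hF'
    have mF' : ∀ a a' j, MB1 (F' a a' j) := fun a a' j => FF_MB1 hA r hf a a' _
    have hI := eventually_all.2 fun a : Fin (H 0) => eventually_all.2 fun a' : Fin (H 0) =>
      ih (fun j => H j.succ) (fun j => hH _) r' (F' a a') (mF' a a') (η / 2) (half_pos hη)
    filter_upwards [step hA h hw ha (hH 0) r hf he0, hw.2, hI] with M hM h1 hI
    set s : Fin (H 0) → Fin (H 0) → ℝ :=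
      fun a a' => √(∫ x, ‖wavg A w r' (F' a a') M x‖ ^ 2 ∂μ) with hs
    have s0 : ∀ a a', 0 ≤ s a a' := fun a a' => Real.sqrt_nonneg _
    have s1 : ∀ a a', s a a' ≤ 1 := fun a a' =>
      Real.sqrt_le_one.2 (sq_le_one (wavg_MB1 hA hw.1 h1 r' (mF' a a')))
    have hA' : ∫ x, ‖wavg A w r f M x‖ ^ 2 ∂μ ≤ (𝔼 a, 𝔼 a', s a a') + e := by
      refine hM.trans (add_le_add_left ?_ _)
      exact Finset.expect_le_expect fun a _ => Finset.expect_le_expect fun a' _ =>
        drop hA hw.1 h1 r (FF_MB1 hA r hf a a')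
    have E0 : 0 ≤ 𝔼 a, 𝔼 a', s a a' :=
      Finset.expect_nonneg fun a _ => Finset.expect_nonneg fun a' _ => s0 a a'
    have E1 : 𝔼 a, 𝔼 a', s a a' ≤ 1 :=
      exp_le_of_le zero_le_one fun a _ => exp_le_of_le zero_le_one fun a' _ => s1 a a'
    have hB := (pow_le_pow_left₀ (integral_nonneg fun x => sq_nonneg _) hA' m).trans
      (add_pow_le E0 E1 he0.le (min_le_left _ _) m)
    have hC : (𝔼 a, 𝔼 a', s a a') ^ m ≤ 𝔼 a, 𝔼 a', s a a' ^ m :=
      (pow_exp_le _ (fun a => Finset.expect_nonneg fun a' _ => s0 a a') m).trans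
        (Finset.expect_le_expect fun a _ => pow_exp_le _ (s0 a) m)
    have hb : (Fin.cons (r' 0) fun j : Fin n => r' 0 - r' j.succ : Fin (n + 1) → Gm l) =
        fun j : Fin (n + 1) => r 0 - r j.succ := by
      funext j
      refine Fin.cases ?_ (fun j => ?_) j
      · simp [hr']
      · simp [hr']
    have hD : ∀ a a' : Fin (H 0), s a a' ^ m ≤
        QX μ A (List.ofFn fun j : Fin (n + 1) => ln (r 0 - r j.succ) (H j.succ))
          (ddX A ((((a' : ℕ) : ℤ) - ((a : ℕ) : ℤ)) • r 0) (f 0)) + η / 2 := by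
      intro a a'
      have h2 := hI a a'
      rw [hb] at h2
      have h3 : F' a a' 0 = fun x => ddX A ((((a' : ℕ) : ℤ) - ((a : ℕ) : ℤ)) • r 0) (f 0)
          (A (((a : ℕ) : ℤ) • r 0) x) := by
        simp only [hF', Fin.one_succAbove_zero, FF_eq hA]
      rw [h3, hA.QX_tz _ _ (hA.dd (hf 0) _)] at h2
      rw [hm, pow_succ', pow_mul, Real.sq_sqrt (integral_nonneg fun x => sq_nonneg _)]
      exact h2
    have hE : 𝔼 a, 𝔼 a', s a a' ^ m ≤ QX μ A (List.ofFn fun j : Fin (n + 1 + 1) =>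
        ln ((Fin.cons (r 0) fun i : Fin (n + 1) => r 0 - r i.succ : Fin (n + 1 + 1) → Gm l) j)
          (H j)) (f 0) + η / 2 := by
      refine (Finset.expect_le_expect fun a _ => Finset.expect_le_expect fun a' _ =>
        hD a a').trans (le_of_eq ?_)
      rw [List.ofFn_succ (n := n + 1), QX_ln]
      simp only [Finset.expect_add_distrib, Finset.expect_const Finset.univ_nonempty,
        Fin.cons_zero, Fin.cons_succ]
    linarith

end Pool.Agent.MP_154433_an.T4S

end

end PkGvn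

section PkInn

/-! Row Inn: long line averages are dominated by box averages. -/

set_option autoImplicit false
set_option linter.unusedVariables false

open MeasureTheory ProbabilityTheory Filter Topology Function
open scoped BigOperators ComplexConjugate InnerProductSpace

noncomputable section

namespace Pool.Agent.MP_154433_an.T4S

open T3S (B1 MB1)

namespace Inn

variable {l : ℕ} {X : Type} [MeasurableSpace X] {μ : Measure X} {A : Gm l → X → X}

/-- composition with one map of the action -/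
def V (hA : Act μ A) (v : Gm l) : Lp ℂ 2 μ →ₗᵢ[ℂ] Lp ℂ 2 μ :=
  Lp.compMeasurePreservingₗᵢ ℂ (A v) (hA.mp v)

lemma V_ae (hA : Act μ A) (v : Gm l) (f : Lp ℂ 2 μ) :
    (V hA v f : X → ℂ) =ᵐ[μ] fun x => f (A v x) :=
  Lp.coeFn_compMeasurePreserving f (hA.mp v)

lemma V_add (hA : Act μ A) (v w : Gm l) (f : Lp ℂ 2 μ) : V hA (v + w) f = V hA w (V hA v f) := by
  refine Lp.ext ?_
  have h1 := (hA.mp w).quasiMeasurePreserving.ae_eq_comp (V_ae hA v f)
  filter_upwards [V_ae hA (v + w) f, V_ae hA w (V hA v f), h1] with x e1 e2 e3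
  rw [e1, e2, hA.add]
  exact e3.symm

lemma V_zero (hA : Act μ A) (f : Lp ℂ 2 μ) : V hA 0 f = f := by
  refine Lp.ext ?_
  filter_upwards [V_ae hA 0 f] with x e1
  rw [e1, hA.zero]

lemma V_iter (hA : Act μ A) (u : Gm l) (f : Lp ℂ 2 μ) (k : ℕ) :
    (V hA u)^[k] f = V hA ((k : ℤ) • u) f := by
  induction k with
  | zero => simp [V_zero]
  | succ k ih =>
    rw [Function.iterate_succ_apply', ih, ← V_add]
    congr 2
    push_cast
    rw [add_smul, one_smul]

/-- the average over a family of steps -/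
def av (hA : Act μ A) (F : Fam l) (f : Lp ℂ 2 μ) : Lp ℂ 2 μ :=
  ((Fintype.card F.ι : ℂ))⁻¹ • ∑ h : F.ι, V hA (F.a h) f

lemma inner_V (hA : Act μ A) {g : X → ℂ} (hg : MB1 g) {G : Lp ℂ 2 μ} (hG : (G : X → ℂ) =ᵐ[μ] g)
    (v w : Gm l) : ⟪V hA v G, V hA w G⟫_ℂ = ∫ x, ddX A (w - v) g x ∂μ := by
  rw [← hA.integral v (hA.dd hg (w - v)).1.aestronglyMeasurable, L2.inner_def]
  refine integral_congr_ae ?_
  have h1 := (hA.mp v).quasiMeasurePreserving.ae_eq_comp hG
  have h2 := (hA.mp w).quasiMeasurePreserving.ae_eq_comp hG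
  filter_upwards [V_ae hA v G, V_ae hA w G, h1, h2] with x e1 e2 e3 e4
  simp only [Function.comp_apply] at e3 e4
  rw [e1, e2, e3, e4, ddX, ← hA.add, sub_add_cancel]
  simp

lemma QX_eq (hA : Act μ A) {g : X → ℂ} (hg : MB1 g) {G : Lp ℂ 2 μ} (hG : (G : X → ℂ) =ᵐ[μ] g)
    (F : Fam l) : QX μ A [F] g = ‖av hA F G‖ ^ 2 := by
  rw [← @inner_self_eq_norm_sq ℂ, av, inner_smul_left, inner_smul_right, sum_inner]
  simp only [inner_sum, inner_V hA hg hG, QX, Fintype.expect_eq_sum_div_card]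
  rw [← Finset.sum_div, div_div, ← mul_assoc]
  have : conj ((Fintype.card F.ι : ℂ))⁻¹ * ((Fintype.card F.ι : ℂ))⁻¹ =
      ((((Fintype.card F.ι : ℝ) * (Fintype.card F.ι : ℝ))⁻¹ : ℝ) : ℂ) := by
    rw [map_inv₀, Complex.conj_natCast]
    push_cast
    rw [mul_inv]
  rw [this, RCLike.re_to_complex, Complex.re_ofReal_mul, div_eq_inv_mul]
  simp only [Complex.re_sum]

lemma av_ln (hA : Act μ A) (u : Gm l) (G : Lp ℂ 2 μ) (H : ℕ) :
    av hA (ln u H) G =
      birkhoffAverage ℂ (V hA u).toContinuousLinearMap _root_.id H G := by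
  have h1 : ∑ h : Fin H, V hA (((h : ℕ) : ℤ) • u) G =
      ∑ k ∈ Finset.range H, (V hA u)^[k] G := by
    rw [Finset.sum_range]
    exact Finset.sum_congr rfl fun h _ => (V_iter hA u G h).symm
  have h2 : av hA (ln u H) G =
      ((Fintype.card (Fin H) : ℂ))⁻¹ • ∑ h : Fin H, V hA (((h : ℕ) : ℤ) • u) G := rfl
  rw [h2, h1, Fintype.card_fin]
  rfl

lemma le_av (hA : Act μ A) (F : Fam l) [Nonempty F.ι] (G P : Lp ℂ 2 μ)
    (hP : ∀ h, V hA (F.a h) P = P) (hG : ⟪P, G⟫_ℂ = ⟪P, P⟫_ℂ) : ‖P‖ ^ 2 ≤ ‖av hA F G‖ ^ 2 := by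
  have h1 : ⟪P, av hA F G⟫_ℂ = ⟪P, P⟫_ℂ := by
    have : ∀ h, ⟪P, V hA (F.a h) G⟫_ℂ = ⟪P, P⟫_ℂ := fun h => by
      rw [← hG, ← (V hA (F.a h)).inner_map_map P G, hP]
    rw [av, inner_smul_right, inner_sum]
    simp only [this, Finset.sum_const, Finset.card_univ, nsmul_eq_mul]
    rw [← mul_assoc, inv_mul_cancel₀ (by exact_mod_cast Fintype.card_ne_zero), one_mul]
  have h2 : ‖P‖ * ‖P‖ ≤ ‖P‖ * ‖av hA F G‖ := by
    have := norm_inner_le_norm (𝕜 := ℂ) P (av hA F G)
    rwa [h1, inner_self_eq_norm_sq_to_K, norm_pow, RCLike.norm_ofReal, abs_norm, sq] at this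
  rcases (norm_nonneg P).eq_or_lt with h0 | h0
  · rw [← h0]
    simp
  · exact pow_le_pow_left₀ h0.le (le_of_mul_le_mul_left h2 h0) 2

end Inn

open Inn in
theorem inn (h : InvFS) : InnS := by
  intro l X _ μ _ A hA u q hD K hK g hg ε hε
  have hm : MemLp g 2 μ := MemLp.of_bound hg.1.aestronglyMeasurable 1 (ae_of_all _ hg.2)
  have hG : ((hm.toLp g : Lp ℂ 2 μ) : X → ℂ) =ᵐ[μ] g := hm.coeFn_toLp
  have ht := ContinuousLinearMap.tendsto_birkhoffAverage_orthogonalProjection
    (V hA u).toContinuousLinearMap (V hA u).norm_toContinuousLinearMap_le (hm.toLp g)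
  set P := (((V hA u).toContinuousLinearMap.eqLocus
    (1 : Lp ℂ 2 μ →L[ℂ] Lp ℂ 2 μ)).orthogonalProjectionOnto (hm.toLp g)) with hPd
  have hfix : V hA u P.1 = P.1 := P.2
  have hin : ⟪P.1, hm.toLp g⟫_ℂ = ⟪P.1, P.1⟫_ℂ := by
    rw [← Submodule.inner_orthogonalProjectionOnto_eq_of_mem_left P (hm.toLp g)]
    rfl
  have hq : ∀ v, V hA (q • v) P.1 = P.1 := fun v => by
    refine Lp.ext ((V_ae hA _ _).trans ?_)
    refine h X μ (A u) (A (q • v)) (hA.mp _) (hA.mp _) (fun S hS hu => hD S hS hu v) _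
      (Lp.aestronglyMeasurable P.1) ?_
    have := V_ae hA u P.1
    rw [hfix] at this
    exact this.symm
  have : Nonempty (cu l q K).ι := ⟨fun _ => ⟨0, hK⟩⟩
  have hle := le_av hA (cu l q K) (hm.toLp g) P.1 (fun h => hq _) hin
  have ht2 := (ht.norm.pow 2).eventually (gt_mem_nhds (lt_add_of_pos_right _ hε))
  filter_upwards [ht2] with H hH
  rw [QX_eq hA hg hG, QX_eq hA hg hG, av_ln]
  exact hH.le.trans (by linarith)

end Pool.Agent.MP_154433_an.T4S

end

end PkInn

section PkLink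

/-! The box average is a correlation with a block; invariance of functions from invariance of
sets. -/

set_option autoImplicit false
set_option linter.unusedVariables false

open MeasureTheory ProbabilityTheory Filter Topology Function
open scoped BigOperators ComplexConjugate InnerProductSpace

noncomputable section

namespace Pool.Agent.MP_154433_an.T4S

open T3S (B1 MB1 norm_exp_le_of norm_prod_le_one meas_exp conj_exp re_exp)

namespace Link

lemma exp_cons {n : ℕ} {α : Type} [Fintype α] (F : (Fin (n + 1) → α) → ℂ) :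
    𝔼 h, F h = 𝔼 a, 𝔼 h : Fin n → α, F (Fin.cons a h) := by
  rw [← Finset.expect_product' _ _ fun a (h : Fin n → α) => F (Fin.cons a h),
    Finset.univ_product_univ]
  exact (Fintype.expect_equiv (Fin.consEquiv fun _ => α) _ _ fun _ => rfl).symm

lemma dif_cons {n l H : ℕ} (a a' : Fin l → Fin H) (h h' : Fin n → Fin l → Fin H) :
    dif (Fin.cons a h : Fin (n + 1) → Fin l → Fin H) (Fin.cons a' h') =
      Fin.cons (pt a' - pt a) (dif h h') := by
  funext j
  refine Fin.cases rfl (fun j => rfl) j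

lemma blk_cons {X : Type} {n l : ℕ} (A : Gm l → X → X) (q : ℤ) (H : ℕ) (g : X → ℂ)
    (γ : Gm l → Fin n → (Fin n → Gm l) → X → ℂ) (x : X) :
    blk A q H (Fin.cons (fun _ y => conj (g y))
      (fun j τ y => conj (γ (τ 0) j (Fin.tail τ) y)) :
        Fin (n + 1) → (Fin (n + 1) → Gm l) → X → ℂ) x =
    𝔼 a : Fin l → Fin H, 𝔼 a' : Fin l → Fin H, conj (g (A (q • (pt a' - pt a)) x) *
      blk A q H (γ (pt a' - pt a)) x) := by
  rw [blk, exp_cons]
  refine Finset.expect_congr rfl fun a _ => ?_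
  simp only [exp_cons (α := Fin l → Fin H)]
  rw [Finset.expect_comm]
  refine Finset.expect_congr rfl fun a' _ => ?_
  simp only [blk, Finset.mul_expect, conj_exp]
  refine Finset.expect_congr rfl fun h _ => Finset.expect_congr rfl fun h' _ => ?_
  rw [Fin.prod_univ_succ, map_mul, map_prod, dif_cons]
  simp only [Fin.cons_zero, Fin.cons_succ, ← Fin.cons_update, Fin.tail_cons]

end Link

open Link in
theorem link : LinkS := by
  intro l X _ μ _ A hA q H n
  induction n with
  | zero => exact fun g hg => ⟨Fin.elim0, fun i => i.elim0, by simp [QX, blk]⟩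
  | succ n ih =>
    intro g hg
    choose γ h1 h2 using fun t : Gm l => ih _ (hA.dd hg (q • t))
    refine ⟨Fin.cons (fun _ y => conj (g y)) fun j τ y => conj (γ (τ 0) j (Fin.tail τ) y),
      fun i τ => Fin.cases hg.cj (fun j => (h1 _ _ _).cj) i, ?_⟩
    have m : ∀ t : Gm l, MB1 fun x => conj (ddX A (q • t) g x * blk A q H (γ t) x) := fun t =>
      ((hA.dd hg _).mul (hA.blk_MB1 _ H (h1 t))).cj
    have e : ∀ x t, g x * conj (g (A (q • t) x) * blk A q H (γ t) x) =
        conj (ddX A (q • t) g x * blk A q H (γ t) x) := fun x t => by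
      simp only [ddX, map_mul, RCLike.conj_conj]
      ring
    rw [List.replicate_succ, QX_cu]
    simp only [h2, blk_cons, Finset.mul_expect, e]
    rw [T3S.integral_exp, re_exp]
    · refine Finset.expect_congr rfl fun a _ => ?_
      rw [T3S.integral_exp _ fun a' _ => (m _).integrable μ, re_exp]
      exact Finset.expect_congr rfl fun a' _ => by rw [integral_conj, Complex.conj_re]
    · exact fun a _ => MB1.integrable ⟨meas_exp _ fun a' _ => (m _).1,
        fun x => norm_exp_le_of zero_le_one fun a' _ => (m _).2 x⟩ μ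

theorem invF : InvFS := by
  intro X _ μ S T hS hT h f hf hfS
  set g := hf.mk f with hg
  have hm : Measurable g := hf.stronglyMeasurable_mk.measurable
  have hfg : f =ᵐ[μ] g := hf.ae_eq_mk
  have hgS : (fun x => g (S x)) =ᵐ[μ] g :=
    ((hS.quasiMeasurePreserving.ae_eq_comp hfg).symm.trans hfS).trans hfg
  have hgT : (fun x => g (T x)) =ᵐ[μ] g := by
    refine Filter.EventuallyEq.of_forall_separating_preimage MeasurableSet fun U hU => ?_
    refine h (g ⁻¹' U) (hm hU) ?_
    filter_upwards [hgS] with x hx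
    change (g (S x) ∈ U) = (g x ∈ U)
    rw [hx]
  exact ((hT.quasiMeasurePreserving.ae_eq_comp hfg).trans hgT).trans hfg.symm

end Pool.Agent.MP_154433_an.T4S

end

end PkLink

section PkNet

/-! Row Net: a small family of test sequences controls all products of blocks on the lattice. -/

set_option autoImplicit false
set_option linter.unusedVariables false

open Filter Topology Function
open scoped BigOperators

noncomputable section

namespace Pool.Agent.MP_154433_an.T4S

open T3S (B1 norm_prod_le_one norm_prod_sub_le)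

namespace Net

/-- reduction of a lattice point -/
def rd {l : ℕ} (N : ℕ) (m : Gm l) : Fin l → ZMod N := fun i => (m i : ZMod N)

lemma exp_le {l M C0 : ℕ} [NeZero (C0 * M)] (hC : 1 ≤ C0) (hM : 1 ≤ M) (c : Gm l)
    {F : (Fin l → ZMod (C0 * M)) → ℝ} (hF : ∀ x, 0 ≤ F x) :
    𝔼 n : Fin l → Fin M, F (rd (C0 * M) (pt n + c)) ≤ (C0 : ℝ) ^ l * 𝔼 x, F x := by
  classical
  have h : M ≤ C0 * M := Nat.le_mul_of_pos_left M hC
  have inj : Set.InjOn (fun n : Fin l → Fin M => rd (C0 * M) (pt n + c))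
      ((Finset.univ : Finset (Fin l → Fin M)) : Set (Fin l → Fin M)) := by
    intro n _ n' _ e
    funext i
    have e0 := congrFun e i
    simp only [rd, pt, Pi.add_apply] at e0
    push_cast at e0
    have e1 := (ZMod.natCast_eq_natCast_iff' (n i) (n' i) (C0 * M)).1 (add_right_cancel e0)
    have a1 := (n i).2
    have a2 := (n' i).2
    rw [Nat.mod_eq_of_lt (by omega), Nat.mod_eq_of_lt (by omega)] at e1
    exact Fin.ext e1
  have hMr : (0 : ℝ) < M := by exact_mod_cast hM
  have hCr : (0 : ℝ) < C0 := by exact_mod_cast hC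
  rw [Finset.expect_eq_sum_div_card, Finset.expect_eq_sum_div_card, ← Finset.sum_image (f := F) inj,
    Finset.card_univ, Finset.card_univ, Fintype.card_fun, Fintype.card_fun, ZMod.card,
    Fintype.card_fin, Fintype.card_fin]
  have s1 := Finset.sum_le_sum_of_subset_of_nonneg
    (Finset.subset_univ (Finset.univ.image fun n : Fin l → Fin M => rd (C0 * M) (pt n + c)))
    (f := F) fun x _ _ => hF x
  refine (div_le_div_of_nonneg_right s1 (Nat.cast_nonneg _)).trans (le_of_eq ?_)
  push_cast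
  rw [mul_pow]
  field_simp

lemma card_le {M C0 J l K : ℕ} {C1 : ℝ} (hM : 1 ≤ M) (hC : 1 ≤ C0) (h1 : 0 ≤ C1)
    (hK : (K : ℝ) ≤ Real.exp (C1 * (Real.log ((C0 * M : ℕ) : ℝ) + 1))) :
    ((M ^ l * K ^ J : ℕ) : ℝ) ≤
      Real.exp ((l + J * C1 * (Real.log C0 + 1)) * (Real.log M + 1) ^ 1) := by
  have hM0 : (0 : ℝ) < M := by exact_mod_cast hM
  have hC0 : (0 : ℝ) < C0 := by exact_mod_cast hC
  have a1 : 0 ≤ Real.log M := Real.log_natCast_nonneg _
  have a2 : 0 ≤ Real.log C0 := Real.log_natCast_nonneg _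
  have e1 : Real.log ((C0 * M : ℕ) : ℝ) + 1 ≤ (Real.log C0 + 1) * (Real.log M + 1) := by
    push_cast
    rw [Real.log_mul hC0.ne' hM0.ne']
    nlinarith [mul_nonneg a1 a2]
  have e2 : (K : ℝ) ≤ Real.exp (C1 * ((Real.log C0 + 1) * (Real.log M + 1))) :=
    hK.trans (Real.exp_le_exp.2 (mul_le_mul_of_nonneg_left e1 h1))
  have e3 : (M : ℝ) ≤ Real.exp (Real.log M + 1) := by
    conv_lhs => rw [← Real.exp_log hM0]
    exact Real.exp_le_exp.2 (by linarith)
  push_cast
  refine (mul_le_mul (pow_le_pow_left₀ hM0.le e3 l) (pow_le_pow_left₀ (Nat.cast_nonneg _) e2 J)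
    (by positivity) (by positivity)).trans (le_of_eq ?_)
  rw [← Real.exp_nat_mul, ← Real.exp_nat_mul, ← Real.exp_add]
  congr 1
  ring

lemma box {l M R : ℕ} {r : Gm l} (hR : ∀ i, 1 + |r i| ≤ R) (n : Fin l → Fin M) {d : ℕ}
    (hd : d < M) (i : Fin l) : |(pt n + (d : ℤ) • r) i| ≤ R * M := by
  have a1 : ((n i : ℕ) : ℤ) ≤ M := by exact_mod_cast (n i).2.le
  have a2 : (d : ℤ) ≤ M := by exact_mod_cast hd.le
  simp only [pt, Pi.add_apply, Pi.smul_apply, smul_eq_mul]
  refine (abs_add_le _ _).trans ?_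
  rw [abs_mul, Nat.abs_cast, Nat.abs_cast]
  have a3 := mul_le_mul_of_nonneg_right a2 (abs_nonneg (r i))
  have a4 := mul_le_mul_of_nonneg_right (hR i) (Int.natCast_nonneg M)
  linarith

end Net

open Net in
theorem net (h1 : ApxS) (h2 : CovS) : NetS := by
  classical
  intro k l hk q hq J r ε hε
  obtain ⟨R, hR⟩ : ∃ R : ℕ, ∀ t i, 1 + |r t i| ≤ R := by
    refine ⟨1 + ∑ p : Fin J × Fin l, (r p.1 p.2).natAbs, fun t i => ?_⟩
    have := Finset.single_le_sum (f := fun p : Fin J × Fin l => (r p.1 p.2).natAbs)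
      (fun _ _ => Nat.zero_le _) (Finset.mem_univ (t, i))
    rw [Int.abs_eq_natAbs]
    exact_mod_cast Nat.add_le_add_left this 1
  obtain ⟨C0, hC, hC0⟩ : ∃ C0 : ℕ, 1 ≤ C0 ∧ 2 * ((R : ℤ) + |q|) ≤ C0 := by
    refine ⟨2 * (R + q.natAbs) + 1, by omega, ?_⟩
    rw [Int.abs_eq_natAbs]
    omega
  have hCr : (0 : ℝ) < C0 := by exact_mod_cast hC
  obtain ⟨C1, hC1, hV⟩ := h2 k l ((((C0 : ℝ) ^ l) ^ (k + 1)) ^ 2 ^ (k + 1))
    (ε / (2 * (J + 1) * (C0 : ℝ) ^ l)) (by positivity) (by positivity)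
  have key : ∀ M : ℕ, ∃ S : Finset (ℕ → ℂ), (∀ c ∈ S, B1 c) ∧
      (1 ≤ M → (S.card : ℝ) ≤
        Real.exp ((l + J * C1 * (Real.log C0 + 1)) * (Real.log M + 1) ^ 1)) ∧
      (1 ≤ M → 8 * (J + 1) * ((k + 1) * l) / ε ≤ (M : ℝ) → ∀ (y : ℕ → ℝ) (τ : ℝ),
        (∀ c ∈ S, ‖∑ d ∈ Finset.range M, (y d : ℂ) * c d‖ ≤ τ) →
        ∀ u : Fin J → Gm l → ℂ, (∀ t, u t ∈ CZ (k + 1) l q (M ^ 2)) →
          𝔼 n : Fin l → Fin M,
            ‖∑ d ∈ Finset.range M, (y d : ℂ) * ∏ t, u t (pt n + (d : ℤ) • r t)‖ ≤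
            τ + ε * ∑ d ∈ Finset.range M, |y d|) := by
    intro M
    rcases Nat.eq_zero_or_pos M with rfl | hM
    · exact ⟨∅, by simp, fun h => absurd h (by omega), fun h => absurd h (by omega)⟩
    have : NeZero (C0 * M) := ⟨(Nat.mul_pos hC hM).ne'⟩
    obtain ⟨V, hV1, hV2, hV3⟩ := hV (C0 * M)
    have hMr : (0 : ℝ) < M := by exact_mod_cast hM
    refine ⟨((Finset.univ : Finset (Fin l → Fin M)) ×ˢ Fintype.piFinset fun _ : Fin J => V).image
      fun p d => ∏ t, p.2 t (rd (C0 * M) (pt p.1 + (d : ℤ) • r t)), fun c hc => ?_,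
      fun _ => ?_, fun _ hM1 y τ hτ u hu => ?_⟩
    · obtain ⟨p, hp, rfl⟩ := Finset.mem_image.1 hc
      exact fun d => norm_prod_le_one _ fun t _ =>
        hV1 _ (Fintype.mem_piFinset.1 (Finset.mem_product.1 hp).2 t) _
    · refine le_trans ?_ (card_le (J := J) (l := l) hM hC hC1 hV2)
      have := Finset.card_image_le
        (s := (Finset.univ : Finset (Fin l → Fin M)) ×ˢ Fintype.piFinset fun _ : Fin J => V)
        (f := fun p (d : ℕ) => ∏ t, p.2 t (rd (C0 * M) (pt p.1 + (d : ℤ) • r t)))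
      rw [Finset.card_product, Finset.card_univ, Fintype.card_fun, Fintype.card_fin,
        Fintype.card_fin, Fintype.card_piFinset_const] at this
      exact_mod_cast this
    · choose w hw1 hw2 using fun t => h1 k l hk q R C0 M (M ^ 2) hq hC0
        (Nat.one_le_pow _ _ hM) (u t) (hu t)
      choose v hv1 hv2 using fun t => hV3 (w t) (hw1 t)
      have hδ : (4 * ((k + 1) * l) * M / (M ^ 2 : ℕ) : ℝ) ≤ ε / (2 * (J + 1)) := by
        rw [div_le_iff₀ hε] at hM1
        push_cast
        rw [div_le_div_iff₀ (by positivity) (by positivity)]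
        nlinarith
      have step : ∀ n ∈ (Finset.univ : Finset (Fin l → Fin M)),
          ‖∑ d ∈ Finset.range M, (y d : ℂ) * ∏ t, u t (pt n + (d : ℤ) • r t)‖ ≤
          τ + ∑ d ∈ Finset.range M, |y d| * ∑ t, (ε / (2 * (J + 1)) +
            ‖w t (rd (C0 * M) (pt n + (d : ℤ) • r t)) -
              v t (rd (C0 * M) (pt n + (d : ℤ) • r t))‖) := by
        intro n hn
        have e0 := hτ _ (Finset.mem_image_of_mem _ (Finset.mem_product.2
          (⟨hn, Fintype.mem_piFinset.2 hv1⟩ : (n, v).1 ∈ _ ∧ (n, v).2 ∈ _)))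
        have e1 : ∑ d ∈ Finset.range M, (y d : ℂ) * ∏ t, u t (pt n + (d : ℤ) • r t) =
            ∑ d ∈ Finset.range M, (y d : ℂ) * ∏ t, v t (rd (C0 * M) (pt n + (d : ℤ) • r t)) +
            ∑ d ∈ Finset.range M, (y d : ℂ) * (∏ t, u t (pt n + (d : ℤ) • r t) -
              ∏ t, v t (rd (C0 * M) (pt n + (d : ℤ) • r t))) := by
          rw [← Finset.sum_add_distrib]
          exact Finset.sum_congr rfl fun d _ => by ring
        rw [e1]
        refine (norm_add_le _ _).trans (add_le_add e0 ((norm_sum_le _ _).trans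
          (Finset.sum_le_sum fun d hd => ?_)))
        rw [norm_mul, Complex.norm_real, Real.norm_eq_abs]
        refine mul_le_mul_of_nonneg_left ((norm_prod_sub_le _ (fun t => CZ_B1 (hu t) _)
          fun t => hV1 _ (hv1 t) _).trans (Finset.sum_le_sum fun t _ => ?_)) (abs_nonneg _)
        exact (norm_sub_le_norm_sub_add_norm_sub _ _ _).trans
          (add_le_add ((hw2 t _ (box (hR t) n (Finset.mem_range.1 hd))).trans hδ) le_rfl)
      have hne : (Finset.univ : Finset (Fin l → Fin M)).Nonempty := ⟨fun _ => ⟨0, hM⟩, by simp⟩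
      refine (Finset.expect_le_expect step).trans ?_
      rw [Finset.expect_add_distrib, Finset.expect_const hne, Finset.expect_sum_comm,
        Finset.mul_sum]
      refine add_le_add le_rfl (Finset.sum_le_sum fun d _ => ?_)
      rw [← Finset.mul_expect, Finset.expect_sum_comm, mul_comm ε]
      refine mul_le_mul_of_nonneg_left ?_ (abs_nonneg _)
      have e3 : ∀ t ∈ (Finset.univ : Finset (Fin J)), 𝔼 n : Fin l → Fin M, (ε / (2 * (J + 1)) +
          ‖w t (rd (C0 * M) (pt n + (d : ℤ) • r t)) -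
            v t (rd (C0 * M) (pt n + (d : ℤ) • r t))‖) ≤ ε / (J + 1) := fun t _ => by
        rw [Finset.expect_add_distrib, Finset.expect_const hne]
        have a1 := exp_le (M := M) hC hM ((d : ℤ) • r t)
          (F := fun x => ‖w t x - v t x‖) fun x => norm_nonneg _
        have a2 := mul_le_mul_of_nonneg_left (hv2 t) (pow_pos hCr l).le
        have a3 : (C0 : ℝ) ^ l * (ε / (2 * (J + 1) * (C0 : ℝ) ^ l)) = ε / (2 * (J + 1)) := by
          field_simp
        have a4 : ε / (J + 1) = ε / (2 * (J + 1)) + ε / (2 * (J + 1)) := by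
          field_simp
          ring
        rw [a4]
        exact add_le_add le_rfl (a1.trans (a2.trans a3.le))
      refine (Finset.sum_le_sum e3).trans ?_
      rw [Finset.sum_const, Finset.card_univ, Fintype.card_fin, nsmul_eq_mul, ← mul_div_assoc,
        div_le_iff₀ (by positivity)]
      nlinarith
  choose S hS1 hS2 hS3 using key
  refine ⟨_, S, hS1, hS2, ?_⟩
  filter_upwards [eventually_ge_atTop 1,
    (tendsto_natCast_atTop_atTop (R := ℝ)).eventually_ge_atTop (8 * (J + 1) * ((k + 1) * l) / ε)]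
    with M a1 a2
  exact hS3 M a1 a2

end Pool.Agent.MP_154433_an.T4S

end

end PkNet

section PkProd

/-! Row Prod: the weighted averages vanish on products of asymptotic dual functions. -/

set_option autoImplicit false
set_option linter.unusedVariables false

open MeasureTheory Filter Topology Function
open scoped BigOperators

noncomputable section

namespace Pool.Agent.MP_154433_an.T4S

open T3S (B1 MB1 norm_prod_sub_le)

namespace Prodr

variable {X : Type} [MeasurableSpace X] {μ : Measure X} [IsProbabilityMeasure μ] {l : ℕ}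
  {A : Gm l → X → X} {ι : Type} [Fintype ι]

omit [IsProbabilityMeasure μ] in
lemma orbit (hA : Act μ A) {k : ℕ} {q : ℤ} {H0 : ℕ} {u : X → ℂ} (hu : u ∈ CX k A q H0) (x : X) :
    (fun n => u (A n x)) ∈ CZ k l q H0 := by
  refine convexHull_min (t := (LinearMap.funLeft ℝ ℂ fun n : Gm l => A n x) ⁻¹' CZ k l q H0) ?_
    ((convex_convexHull ℝ _).linear_preimage _) hu
  rintro _ ⟨H, β, hH, hβ, rfl⟩
  refine subset_convexHull ℝ _ ⟨H, fun i τ m => β i τ (A m x), hH,
    fun i τ => (hβ i τ).2.comp _, funext fun n => ?_⟩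
  simp only [LinearMap.funLeft_apply, blk, sh, ← hA.add, add_comm n]

lemma int_norm (hA : Act μ A) (w : ℕ → ℕ → ℝ) (r : ι → Gm l) {f : ι → X → ℂ}
    (hf : ∀ i, MB1 (f i)) (M : ℕ) (v : Gm l) :
    Integrable (fun x => ‖wavg A w r f M (A v x)‖) μ :=
  Integrable.of_bound
    ((hA.wavg_meas w r (fun i => (hf i).1) M).comp (hA.meas v)).norm.aestronglyMeasurable _
    (Eventually.of_forall fun x => by
      rw [norm_norm]; exact wavg_norm_le A w r (fun i => (hf i).2) M _)

lemma small (hA : Act μ A) {w : ℕ → ℕ → ℝ} {r : ι → Gm l} {u : ι → X → ℂ}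
    (hu : ∀ i, MB1 (u i)) {M : ℕ} (hM : 1 ≤ M) {ε : ℝ}
    (h : ∀ x, 𝔼 n : Fin l → Fin M, ‖wavg A w r u M (A (pt n) x)‖ ≤ ε) :
    ∫ x, ‖wavg A w r u M x‖ ∂μ ≤ ε := by
  have : Nonempty (Fin M) := ⟨⟨0, hM⟩⟩
  have hc : (0 : ℝ) < (Finset.univ : Finset (Fin l → Fin M)).card := by
    exact_mod_cast Finset.card_pos.2 Finset.univ_nonempty
  have h0 : ∀ x, ∑ n : Fin l → Fin M, ‖wavg A w r u M (A (pt n) x)‖ ≤
      ε * (Finset.univ : Finset (Fin l → Fin M)).card := fun x => by
    have := h x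
    rwa [Finset.expect_eq_sum_div_card, div_le_iff₀ hc] at this
  have h1 := integral_mono (μ := μ)
    (integrable_finsetSum Finset.univ fun (n : Fin l → Fin M) _ => int_norm hA w r hu M (pt n))
    (integrable_const (ε * (Finset.univ : Finset (Fin l → Fin M)).card)) h0
  rw [integral_finsetSum _ fun (n : Fin l → Fin M) _ => int_norm hA w r hu M (pt n),
    integral_const, probReal_univ, one_smul,
    Finset.sum_congr rfl fun (n : Fin l → Fin M) _ => hA.integral (pt n)
      (f := fun x => ‖wavg A w r u M x‖)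
      (hA.wavg_meas w r (fun i => (hu i).1) M).norm.aestronglyMeasurable,
    Finset.sum_const, nsmul_eq_mul, mul_comm] at h1
  exact le_of_mul_le_mul_right h1 hc

lemma close (hA : Act μ A) (w : ℕ → ℕ → ℝ) (r : ι → Gm l) {D u : ι → X → ℂ}
    (hD : ∀ i, MB1 (D i)) (hu : ∀ i, MB1 (u i)) (M : ℕ) {δ : ℝ}
    (h : ∀ i, ∫ x, ‖D i x - u i x‖ ∂μ ≤ δ) :
    ∫ x, ‖wavg A w r D M x‖ ∂μ ≤ ∫ x, ‖wavg A w r u M x‖ ∂μ +
      (∑ d ∈ Finset.range M, |w M d|) * (Fintype.card ι * δ) := by
  have i0 : ∀ f : ι → X → ℂ, (∀ i, MB1 (f i)) → Integrable (fun x => ‖wavg A w r f M x‖) μ :=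
    fun f hf => by simpa only [hA.zero] using int_norm hA w r hf M 0
  have i1 : ∀ (i : ι) (v : Gm l), Integrable (fun x => ‖D i (A v x) - u i (A v x)‖) μ :=
    fun i v => (((hA.tz (hD i) v).integrable μ).sub ((hA.tz (hu i) v).integrable μ)).norm
  have i2 : ∀ d : ℕ, Integrable (fun x => |w M d| *
      ∑ i, ‖D i (A ((d : ℤ) • r i) x) - u i (A ((d : ℤ) • r i) x)‖) μ := fun d =>
    (integrable_finsetSum _ fun i _ => i1 i _).const_mul _
  have h1 := integral_mono (μ := μ) (i0 D hD)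
    ((i0 u hu).add (integrable_finsetSum (Finset.range M) fun d _ => i2 d)) (fun x => by
      have e : wavg A w r D M x = wavg A w r u M x + ∑ d ∈ Finset.range M, (w M d : ℂ) *
          (∏ i, D i (A ((d : ℤ) • r i) x) - ∏ i, u i (A ((d : ℤ) • r i) x)) := by
        simp only [wavg, ← Finset.sum_add_distrib]
        exact Finset.sum_congr rfl fun d _ => by ring
      simp only [Pi.add_apply]
      rw [e]
      refine (norm_add_le _ _).trans (add_le_add le_rfl ((norm_sum_le _ _).trans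
        (Finset.sum_le_sum fun d _ => ?_)))
      rw [norm_mul, Complex.norm_real, Real.norm_eq_abs]
      exact mul_le_mul_of_nonneg_left (norm_prod_sub_le _ (fun i => (hD i).2 _)
        fun i => (hu i).2 _) (abs_nonneg _))
  refine h1.trans ?_
  rw [integral_add' (i0 u hu) (integrable_finsetSum (Finset.range M) fun d _ => i2 d),
    integral_finsetSum _ fun d _ => i2 d, Finset.sum_mul]
  refine add_le_add le_rfl (Finset.sum_le_sum fun d _ => ?_)
  rw [integral_const_mul, integral_finsetSum _ fun i _ => i1 i _]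
  refine mul_le_mul_of_nonneg_left ?_ (abs_nonneg _)
  refine (Finset.sum_le_sum fun i _ => (hA.integral ((d : ℤ) • r i)
    (f := fun x => ‖D i x - u i x‖)
    ((hD i).1.sub (hu i).1).norm.aestronglyMeasurable).le.trans (h i)).trans ?_
  rw [Finset.sum_const, Finset.card_univ, nsmul_eq_mul]

end Prodr

theorem prodr : ProdS := by
  intro k l q w hS hB X _ μ _ A hA ι _ r D hD
  let e := Fintype.equivFin ι
  refine tendsto_order.2 ⟨fun a ha => Eventually.of_forall fun M =>
    ha.trans_le (integral_nonneg fun x => sq_nonneg _), fun a ha => ?_⟩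
  have hε : 0 < a / 13 := by positivity
  filter_upwards [hS _ (r ∘ e.symm) _ hε, hB, eventually_ge_atTop 1] with M h1 h2 h3
  have hJ : (0 : ℝ) < Fintype.card ι + 1 := by positivity
  choose u hu1 hu2 using fun t => (hD t).2 (M ^ 2) (a / 13 / (Fintype.card ι + 1))
    (div_pos hε hJ)
  have hu : ∀ i, MB1 (u i) := fun i => hA.CX_MB1 (hu1 i)
  have h4 := Prodr.small (μ := μ) (w := w) (r := r) hA hu h3 (ε := a / 13) fun x => by
    refine le_trans (le_of_eq (Finset.expect_congr rfl fun n _ => ?_))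
      (h1 (fun t n => u (e.symm t) (A n x)) fun t => Prodr.orbit hA (hu1 _) x)
    refine congrArg _ (Finset.sum_congr rfl fun d _ => congrArg _ ?_)
    rw [← e.symm.prod_comp]
    simp only [comp_apply, ← hA.add, add_comm (pt n)]
  have h5 := Prodr.close hA w r (fun i => (hD i).1) hu M hu2
  have h6 : (Fintype.card ι : ℝ) * (a / 13 / (Fintype.card ι + 1)) ≤ a / 13 := by
    rw [← mul_div_assoc, div_le_iff₀ hJ]
    nlinarith
  have h7 := mul_le_mul h2 h6 (by positivity) (by norm_num)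
  have i0 : Integrable (fun x => ‖wavg A w r D M x‖) μ := by
    simpa only [hA.zero] using Prodr.int_norm hA w r (fun i => (hD i).1) M 0
  have h8 : ∫ x, ‖wavg A w r D M x‖ ^ 2 ∂μ ≤ ∫ x, 3 * ‖wavg A w r D M x‖ ∂μ :=
    integral_mono_of_nonneg (Eventually.of_forall fun x => sq_nonneg _) (i0.const_mul _)
      (Eventually.of_forall fun x => by
        have := (wavg_norm_le A w r (fun i => (hD i).1.2) M x).trans h2
        simp only
        nlinarith [norm_nonneg (wavg A w r D M x)])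
  rw [integral_const_mul] at h8
  linarith

end Pool.Agent.MP_154433_an.T4S

end

end PkProd

section PkRed

/-! Reduction to distinct maps that are not the identity. -/

set_option autoImplicit false
set_option linter.unusedVariables false

open MeasureTheory ProbabilityTheory Filter Topology Function
open scoped BigOperators ComplexConjugate InnerProductSpace

noncomputable section

namespace Pool.Agent.MP_154433_an.T4S

open T3S (B1 MB1 Near)

namespace Red

variable {X ι : Type} [MeasurableSpace X] {μ : Measure X} [IsProbabilityMeasure μ] {l : ℕ}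
  {A : Gm l → X → X} [Fintype ι] {w w' : ℕ → ℕ → ℝ} {r : ι → Gm l} {f : ι → X → ℂ}

lemma intg (hA : Act μ A) (hf : ∀ i, MB1 (f i)) (M : ℕ) :
    Integrable (fun x => ‖wavg A w r f M x‖ ^ 2) μ :=
  Integrable.of_bound ((hA.wavg_meas w r (fun i => (hf i).1) M).norm.pow_const 2).aestronglyMeasurable
    ((∑ d ∈ Finset.range M, |w M d|) ^ 2) (Eventually.of_forall fun x => by
      rw [norm_pow, norm_norm]
      exact pow_le_pow_left₀ (norm_nonneg _) (wavg_norm_le A w r (fun i => (hf i).2) M x) 2)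

lemma near (hA : Act μ A) (hn : Near w w') (hf : ∀ i, MB1 (f i)) (h : Van μ A w r f) :
    Van μ A w' r f := by
  have l := (h.const_mul 2).add ((hn.pow 2).const_mul 2)
  simp only [mul_zero, zero_add, zero_pow two_ne_zero] at l
  refine squeeze_zero (fun M => integral_nonneg fun x => sq_nonneg _) (fun M => ?_) l
  refine (integral_mono (intg hA hf M) (((intg (w := w) (r := r) hA hf M).const_mul 2).add
    (integrable_const (2 * (∑ d ∈ Finset.range M, |w M d - w' M d|) ^ 2))) fun x => ?_).trans ?_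
  · have a := wavg_norm_le A (fun M d => w M d - w' M d) r (fun i => (hf i).2) M x
    have e : wavg A w' r f M x =
        wavg A w r f M x - wavg A (fun M d => w M d - w' M d) r f M x := by
      simp only [wavg, ← Finset.sum_sub_distrib, ← sub_mul, Complex.ofReal_sub, sub_sub_cancel]
    have b := pow_le_pow_left₀ (norm_nonneg _)
      (e ▸ (norm_sub_le _ _).trans (add_le_add le_rfl a)) 2
    simp only [Pi.add_apply]
    nlinarith [sq_nonneg (‖wavg A w r f M x‖ - ∑ d ∈ Finset.range M, |w M d - w' M d|)]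
  · simp only [Pi.add_apply]
    rw [integral_add ((intg hA hf M).const_mul 2) (integrable_const _), integral_const_mul]
    simp

omit [IsProbabilityMeasure μ] in
/-- one modulus that serves all directions -/
lemma modulus (T : Fin l → X ≃ᵐ X) (hE : HypE μ T)
    (h1 : ∀ i (d : ℕ), A ((d : ℤ) • Pi.single i 1) = (⇑(T i))^[d])
    (h2 : ∀ i j, A (Pi.single i 1 - Pi.single j 1) = fun x => T i ((T j).symm x))
    (h3 : ∀ (S : Set X) (q : ℕ) (c : ℤ), MeasurableSet S → (∀ k, (⇑(T k))^[q] ⁻¹' S =ᵐ[μ] S) →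
      ∀ v : Gm l, A (((q : ℤ) * c) • v) ⁻¹' S =ᵐ[μ] S) :
    ∃ q : ℤ, q ≠ 0 ∧ (∀ i, ⇑(T i) ≠ id → Dom μ A (Pi.single i 1) q) ∧
      ∀ i j, ⇑(T i) ≠ ⇑(T j) → Dom μ A (Pi.single i 1 - Pi.single j 1) q := by
  have a1 : ∀ i, ∃ q : ℕ, 1 ≤ q ∧ (⇑(T i) ≠ id → ∀ S, MeasurableSet S → T i ⁻¹' S =ᵐ[μ] S →
      ∀ k, (⇑(T k))^[q] ⁻¹' S =ᵐ[μ] S) := fun i =>
    (hE.1 i).elim (fun h => ⟨1, le_rfl, fun h' => absurd h h'⟩)
      fun ⟨q, hq, h⟩ => ⟨q, hq, fun _ => h⟩
  have a2 : ∀ i j, ∃ q : ℕ, 1 ≤ q ∧ (⇑(T i) ≠ ⇑(T j) → ∀ S, MeasurableSet S →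
      (fun x => T i ((T j).symm x)) ⁻¹' S =ᵐ[μ] S → ∀ k, (⇑(T k))^[q] ⁻¹' S =ᵐ[μ] S) :=
    fun i j => (hE.2 i j).elim (fun h => ⟨1, le_rfl, fun h' => absurd h h'⟩)
      fun ⟨q, hq, h⟩ => ⟨q, hq, fun _ => h⟩
  choose q1 p1 b1 using a1
  choose q2 p2 b2 using a2
  refine ⟨(∏ i, (q1 i : ℤ)) * ∏ i, ∏ j, (q2 i j : ℤ), ?_, fun i hi S hS h v => ?_,
    fun i j hij S hS h v => ?_⟩
  · refine mul_ne_zero (Finset.prod_ne_zero_iff.2 fun i _ => ?_)
      (Finset.prod_ne_zero_iff.2 fun i _ => Finset.prod_ne_zero_iff.2 fun j _ => ?_)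
    · exact Int.natCast_ne_zero.2 (Nat.one_le_iff_ne_zero.1 (p1 i))
    · exact Int.natCast_ne_zero.2 (Nat.one_le_iff_ne_zero.1 (p2 i j))
  · obtain ⟨c, hc⟩ : (q1 i : ℤ) ∣ (∏ i, (q1 i : ℤ)) * ∏ i, ∏ j, (q2 i j : ℤ) :=
      (Finset.dvd_prod_of_mem (fun i => (q1 i : ℤ)) (Finset.mem_univ i)).mul_right _
    have e := h1 i 1
    rw [Nat.cast_one, one_smul, iterate_one] at e
    rw [e] at h
    rw [hc]
    exact h3 S _ c hS (b1 i hi S hS h) v
  · obtain ⟨c, hc⟩ : (q2 i j : ℤ) ∣ (∏ i, (q1 i : ℤ)) * ∏ i, ∏ j, (q2 i j : ℤ) :=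
      ((Finset.dvd_prod_of_mem (fun j => (q2 i j : ℤ)) (Finset.mem_univ j)).trans
        (Finset.dvd_prod_of_mem (fun i => ∏ j, (q2 i j : ℤ)) (Finset.mem_univ i))).mul_left _
    rw [h2 i j] at h
    rw [hc]
    exact h3 S _ c hS (b2 i j hij S hS h) v

end Red

open Red in
theorem red (h : ActS) : RedS := by
  classical
  intro w w' hn h0 l X _ μ _ T hT hC hE hV f hf
  obtain ⟨A, hA, h1, h2, h3⟩ := h l X μ T hT hC
  obtain ⟨q, hq, d1, d2⟩ := modulus T hE h1 h2 h3
  let k : Fin l → X → X := fun i => ⇑(T i)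
  let s := (Finset.univ.image k).erase id
  have hs : ∀ v : s, ∃ i, k i = v.1 := fun v => by
    obtain ⟨i, -, hi⟩ := Finset.mem_image.1 (Finset.mem_erase.1 v.2).2
    exact ⟨i, hi⟩
  choose c hc using hs
  let r : Fin s.card → Gm l := fun j => Pi.single (c (s.equivFin.symm j)) 1
  let F : (X → X) → X → ℂ := fun v x => ∏ i ∈ Finset.univ.filter fun i => k i = v, f i x
  have hF : ∀ v, MB1 (F v) := fun v => MB1.prod _ fun i _ => hf i
  have e0 : ∀ M x, wavg A w' (fun i => Pi.single i 1) f M x =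
      ∑ d ∈ Finset.range M, (w' M d : ℂ) * ∏ i, f i ((k i)^[d] x) := fun M x => by
    simp only [wavg, h1, k]
  have e1 : ∀ M x, wavg A w' r (fun j => F (s.equivFin.symm j).1) M x =
      ∑ d ∈ Finset.range M, (w' M d : ℂ) * ∏ v ∈ s, F v (v^[d] x) := fun M x => by
    simp only [wavg, r, h1]
    refine Finset.sum_congr rfl fun d _ => congrArg _ ?_
    rw [← Finset.prod_coe_sort s fun v => F v (v^[d] x),
      ← Equiv.prod_comp s.equivFin.symm fun v : s => F v.1 (v.1^[d] x)]
    refine Finset.prod_congr rfl fun j _ => ?_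
    have := hc (s.equivFin.symm j)
    simp only [k] at this
    rw [this]
  have e : ∀ M x, wavg A w' (fun i => Pi.single i 1) f M x =
      F id x * wavg A w' r (fun j => F (s.equivFin.symm j).1) M x := fun M x => by
    rw [e0, e1, Finset.mul_sum]
    refine Finset.sum_congr rfl fun d _ => ?_
    rw [mul_left_comm, ← Finset.prod_fiberwise_of_maps_to (t := insert id s) (g := k) fun i _ => ?_,
      Finset.prod_insert (Finset.notMem_erase _ _)]
    · refine congrArg _ (congrArg₂ _ (Finset.prod_congr rfl fun i hi => ?_)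
        (Finset.prod_congr rfl fun v _ => Finset.prod_congr rfl fun i hi => ?_))
      · rw [(Finset.mem_filter.1 hi).2, iterate_id, id]
      · rw [(Finset.mem_filter.1 hi).2]
    · rw [Finset.mem_insert, Finset.mem_erase]
      exact (em _).imp_right fun c => ⟨c, Finset.mem_image_of_mem _ (Finset.mem_univ i)⟩
  have v : Van μ A w' r fun j => F (s.equivFin.symm j).1 := by
    rcases Nat.eq_zero_or_pos s.card with c0 | c0
    · have : IsEmpty (Fin s.card) := c0 ▸ inferInstanceAs (IsEmpty (Fin 0))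
      have l := h0.pow 2
      rw [zero_pow two_ne_zero] at l
      refine l.congr fun M => ?_
      simp only [wavg, Finset.univ_eq_empty, Finset.prod_empty, mul_one, ← Complex.ofReal_sum,
        Complex.norm_real, Real.norm_eq_abs, sq_abs]
      simp
    · refine near hA hn (fun j => hF _) (hV _ r q A c0 hq hA ?_ _ fun j => hF _)
      rintro u (⟨j, rfl⟩ | ⟨j, j', hj, rfl⟩)
      · refine d1 _ fun hid => (Finset.mem_erase.1 (s.equivFin.symm j).2).1 ?_
        exact (hc _).symm.trans hid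
      · refine d2 _ _ fun hid => hj (s.equivFin.symm.injective (Subtype.ext ?_))
        exact (hc _).symm.trans (hid.trans (hc _))
  have fin : Van μ A w' (fun i => Pi.single i 1) f := by
    refine squeeze_zero (fun M => integral_nonneg fun x => sq_nonneg _) (fun M => ?_) v
    refine integral_mono (intg hA hf M) (intg hA (fun j => hF _) M) fun x => ?_
    refine pow_le_pow_left₀ (norm_nonneg _) ?_ 2
    rw [e, norm_mul]
    exact mul_le_of_le_one_left (norm_nonneg _) ((hF id).2 x)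
  refine fin.congr fun M => ?_
  simp only [e0, k]

end Pool.Agent.MP_154433_an.T4S

end

end PkRed

section PkRep

/-! The order of the steps does not matter; boxes may be replaced by long lines. -/

set_option autoImplicit false
set_option linter.unusedVariables false

open MeasureTheory ProbabilityTheory Filter Topology Function
open scoped BigOperators ComplexConjugate InnerProductSpace

noncomputable section

namespace Pool.Agent.MP_154433_an.T4S

open T3S (B1 MB1)

namespace RepAux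

variable {l : ℕ}

lemma exp_le_add {ι : Type} [Fintype ι] {a b : ι → ℝ} {ε : ℝ} (hε : 0 ≤ ε)
    (h : ∀ i, a i ≤ b i + ε) : 𝔼 i, a i ≤ (𝔼 i, b i) + ε := by
  rcases isEmpty_or_nonempty ι with hι | hι
  · simp [hε]
  · calc 𝔼 i, a i ≤ 𝔼 i, (b i + ε) := Finset.expect_le_expect fun i _ => h i
      _ = (𝔼 i, b i) + ε := by
        rw [Finset.expect_add_distrib, Finset.expect_const Finset.univ_nonempty]

lemma comm4 {ι κ : Type} [Fintype ι] [Fintype κ] (F : ι → ι → κ → κ → ℝ) :
    𝔼 h, 𝔼 h', 𝔼 k, 𝔼 k', F h h' k k' = 𝔼 k, 𝔼 k', 𝔼 h, 𝔼 h', F h h' k k' := by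
  calc 𝔼 h, 𝔼 h', 𝔼 k, 𝔼 k', F h h' k k' = 𝔼 h, 𝔼 k, 𝔼 h', 𝔼 k', F h h' k k' :=
        Finset.expect_congr rfl fun h _ => Finset.expect_comm _ _ _
    _ = 𝔼 k, 𝔼 h, 𝔼 h', 𝔼 k', F h h' k k' := Finset.expect_comm _ _ _
    _ = 𝔼 k, 𝔼 h, 𝔼 k', 𝔼 h', F h h' k k' :=
        Finset.expect_congr rfl fun k _ => Finset.expect_congr rfl fun h _ =>
          Finset.expect_comm _ _ _
    _ = 𝔼 k, 𝔼 k', 𝔼 h, 𝔼 h', F h h' k k' :=
        Finset.expect_congr rfl fun k _ => Finset.expect_comm _ _ _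

variable {X : Type} [MeasurableSpace X] {μ : Measure X} {A : Gm l → X → X}

lemma dd_comm (hA : Act μ A) (v w : Gm l) (g : X → ℂ) :
    ddX A v (ddX A w g) = ddX A w (ddX A v g) := by
  funext x
  simp only [ddX, map_mul, Complex.conj_conj, hA.comm v w]
  ring

lemma last (h2 : InnS) [IsProbabilityMeasure μ] (hA : Act μ A) {u : Gm l} {q : ℤ}
    (hu : Dom μ A u q) {K : ℕ} (hK : 1 ≤ K) {ε : ℝ} (hε : 0 < ε) (L : List (Fam l)) :
    ∀ g : X → ℂ, MB1 g →
      ∀ᶠ H in atTop, QX μ A (L ++ [ln u H]) g ≤ QX μ A (L ++ [cu l q K]) g + ε := by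
  induction L with
  | nil => intro g hg; exact h2 l X μ A hA u q hu K hK g hg ε hε
  | cons F L ih =>
    intro g hg
    have h := eventually_all.2 fun h : F.ι => eventually_all.2 fun h' : F.ι =>
      ih _ (hA.dd hg (F.a h' - F.a h))
    filter_upwards [h] with H hH
    simp only [List.cons_append, QX]
    exact exp_le_add hε.le fun h => exp_le_add hε.le fun h' => hH h h'

lemma gen (h1 : PermS) (h2 : InnS) [IsProbabilityMeasure μ] (hA : Act μ A) {q : ℤ} {K : ℕ}
    (hK : 1 ≤ K) {g : X → ℂ} (hg : MB1 g) (n : ℕ) :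
    ∀ (u : Fin n → Gm l), (∀ j, Dom μ A (u j) q) → ∀ (L0 : List (Fam l)) (ε : ℝ), 0 < ε →
      ∃ H : Fin n → ℕ, (∀ j, 1 ≤ H j) ∧
        QX μ A (L0 ++ List.ofFn fun j => ln (u j) (H j)) g ≤
          QX μ A (L0 ++ List.replicate n (cu l q K)) g + ε := by
  induction n with
  | zero =>
    intro u _ L0 ε hε
    exact ⟨fun j => 1, fun j => le_rfl, by simp [hε.le]⟩
  | succ n ih =>
    intro u hu L0 ε hε
    obtain ⟨H0, hH0, hH1⟩ := ((last h2 hA (hu 0) hK (half_pos hε)
      (L0 ++ List.replicate n (cu l q K)) g hg).and (eventually_ge_atTop 1)).exists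
    obtain ⟨H, hH, hle⟩ := ih (fun j => u j.succ) (fun j => hu _) (L0 ++ [ln (u 0) H0]) (ε / 2)
      (half_pos hε)
    refine ⟨Fin.cons H0 H, fun j => Fin.cases hH1 hH j, ?_⟩
    have e1 : (L0 ++ List.ofFn fun j => ln (u j) ((Fin.cons H0 H : Fin (n + 1) → ℕ) j)) =
        L0 ++ [ln (u 0) H0] ++ List.ofFn fun j : Fin n => ln (u j.succ) (H j) := by
      simp [List.ofFn_succ]
    have e2 : L0 ++ List.replicate (n + 1) (cu l q K) =
        L0 ++ List.replicate n (cu l q K) ++ [cu l q K] := by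
      rw [List.replicate_succ', List.append_assoc]
    have e3 : QX μ A (L0 ++ [ln (u 0) H0] ++ List.replicate n (cu l q K)) g =
        QX μ A (L0 ++ List.replicate n (cu l q K) ++ [ln (u 0) H0]) g := by
      refine h1 l X μ A hA _ _ ?_ g
      rw [List.append_assoc, List.append_assoc]
      exact List.Perm.append_left _ List.perm_append_comm
    rw [e1, e2]
    linarith

end RepAux

theorem perm : PermS := by
  intro l X _ μ A hA L L' hp
  induction hp with
  | nil => intro g; rfl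
  | cons F _ ih =>
    intro g
    simp only [QX]
    exact Finset.expect_congr rfl fun h _ => Finset.expect_congr rfl fun h' _ => ih _
  | swap F G L =>
    intro g
    simp only [QX]
    rw [RepAux.comm4]
    refine Finset.expect_congr rfl fun k _ => Finset.expect_congr rfl fun k' _ =>
      Finset.expect_congr rfl fun h _ => Finset.expect_congr rfl fun h' _ => ?_
    rw [RepAux.dd_comm hA]
  | trans _ _ ih1 ih2 => intro g; rw [ih1, ih2]

theorem rep (h1 : PermS) (h2 : InnS) : RepS := by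
  intro l X _ μ _ A hA q K hK n u hu g hg ε hε
  simpa using RepAux.gen h1 h2 hA hK hg n u hu [] ε hε

end Pool.Agent.MP_154433_an.T4S

end

end PkRep
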