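import Pool.Agent.MP_154433_an.t4.SpecG

/-! Rows for commuting maps, part G1. -/

section PkGLn

/-! Families of sets that describe an event of the line. -/

set_option autoImplicit false
set_option linter.unusedVariables false
set_option linter.unusedSectionVars false
set_option warn.classDefReducibility false

open MeasureTheory ProbabilityTheory Filter Topology Function Finset ComplexConjugate
open scoped BigOperators
open Fib27 (BM sup pr Oc Orow F23 LInd Mem)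
open Pool.Agent.MP_154433_an.SG (Uni ufn)

noncomputable section

namespace T4x

open T3x

variable [Grp]

namespace GLn

variable {ν : Wt} {U : Ultrafilter ℕ} {X : Sys}

/-- the family `A` describes the event `E` -/
def Rp (L : Ln ν U X) (A : Lab → Set X.X) (E : Set L.W.X) : Prop :=
  (∀ l, MeasurableSet (A l)) ∧ ∀ᵐ w ∂L.W.μ, w ∈ L.hs A ↔ w ∈ E

theorem hs_meas (fd : Fd) (L : Ln ν U X) {A : Lab → Set X.X} (h : ∀ l, MeasurableSet (A l)) :
    MeasurableSet (L.hs A) := by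
  have := fd.lc.hs_meas L X.ms A (fd.t.top X) h
  rwa [fd.lb.top L] at this

theorem Rp.self (L : Ln ν U X) {A : Lab → Set X.X} (h : ∀ l, MeasurableSet (A l)) :
    Rp L A (L.hs A) := ⟨h, Eventually.of_forall fun _ => Iff.rfl⟩

theorem Rp.of_ae {L : Ln ν U X} {A : Lab → Set X.X} {E : Set L.W.X}
    (h : ∀ l, MeasurableSet (A l)) (e : E =ᵐ[L.W.μ] L.hs A) : Rp L A E :=
  ⟨h, (eventuallyEq_set.1 e).mono fun _ h => h.symm⟩

theorem Rp.ae {L : Ln ν U X} {A : Lab → Set X.X} {E : Set L.W.X} (h : Rp L A E) :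
    L.hs A =ᵐ[L.W.μ] E := eventuallyEq_set.2 h.2

theorem Rp.congr {L : Ln ν U X} {A A' : Lab → Set X.X} {E E' : Set L.W.X} (h : Rp L A E)
    (e : ∀ l, A' l = A l) (e' : ∀ᵐ w ∂L.W.μ, w ∈ E ↔ w ∈ E') : Rp L A' E' := by
  obtain rfl : A' = A := funext e
  refine ⟨h.1, ?_⟩
  filter_upwards [h.2, e'] with w h1 h2 using h1.trans h2

theorem Rp.inter (fd : Fd) {L : Ln ν U X} {A A' : Lab → Set X.X} {E E' : Set L.W.X}
    (h : Rp L A E) (h' : Rp L A' E') : Rp L (fun l => A l ∩ A' l) (E ∩ E') := by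
  refine ⟨fun l => (h.1 l).inter (h'.1 l), ?_⟩
  rw [fd.lc.hs_inter L A A' h.1 h'.1]
  filter_upwards [h.2, h'.2] with w h1 h2 using and_congr h1 h2

theorem Rp.compl (fd : Fd) {L : Ln ν U X} {A : Lab → Set X.X} {E : Set L.W.X} (h : Rp L A E) :
    Rp L (fun l => (A l)ᶜ) Eᶜ := by
  refine ⟨fun l => (h.1 l).compl, ?_⟩
  rw [fd.lc.hs_compl L A h.1]
  filter_upwards [h.2] with w h1 using not_congr h1

theorem Rp.diff (fd : Fd) {L : Ln ν U X} {A A' : Lab → Set X.X} {E E' : Set L.W.X}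
    (h : Rp L A E) (h' : Rp L A' E') : Rp L (fun l => A l \ A' l) (E \ E') :=
  h.inter fd (h'.compl fd)

theorem Rp.union (fd : Fd) {L : Ln ν U X} {A A' : Lab → Set X.X} {E E' : Set L.W.X}
    (h : Rp L A E) (h' : Rp L A' E') : Rp L (fun l => A l ∪ A' l) (E ∪ E') :=
  (((h.compl fd).inter fd (h'.compl fd)).compl fd).congr
    (fun l => by rw [Set.compl_inter, compl_compl, compl_compl])
    (Eventually.of_forall fun w => by rw [Set.compl_inter, compl_compl, compl_compl])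

theorem Rp.niff (fd : Fd) {L : Ln ν U X} {A A' : Lab → Set X.X} {E E' : Set L.W.X}
    (h : Rp L A E) (h' : Rp L A' E') :
    Rp L (fun l => {x | ¬ (x ∈ A l ↔ x ∈ A' l)}) {w | ¬ (w ∈ E ↔ w ∈ E')} :=
  ((h.diff fd h').union fd (h'.diff fd h)).congr
    (fun l => Set.ext fun x => by
      simp only [Set.mem_ofPred_eq, Set.mem_union, Set.mem_sdiff]; tauto)
    (Eventually.of_forall fun w => by
      simp only [Set.mem_ofPred_eq, Set.mem_union, Set.mem_sdiff]; tauto)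

theorem Rp.slot (fd : Fd) (L : Ln ν U X) (s : Slot) {A : Set X.X} (h : MeasurableSet A) :
    Rp L (fun l => X.Tz (rho s l) ⁻¹' A) (L.π s ⁻¹' A) :=
  Rp.of_ae (fun l => (fd.t.mp X _).measurable h) (fd.lc.hs_slot L s A h).symm

theorem Rp.empty (fd : Fd) (L : Ln ν U X) : Rp L (fun _ => ∅) ∅ :=
  (Rp.slot fd L (0, true) MeasurableSet.empty).congr (fun _ => rfl)
    (Eventually.of_forall fun _ => Iff.rfl)

theorem Rp.biUnion (fd : Fd) {L : Ln ν U X} {κ : Type} (F : Finset κ) {A : κ → Lab → Set X.X}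
    {E : κ → Set L.W.X} (h : ∀ k, Rp L (A k) (E k)) :
    Rp L (fun l => ⋃ k ∈ F, A k l) (⋃ k ∈ F, E k) := by
  classical
  induction F using Finset.induction_on with
  | empty => exact (Rp.empty fd L).congr (fun l => by simp) (Eventually.of_forall fun w => by simp)
  | insert a F ha ih =>
    exact ((h a).union fd ih).congr (fun l => Finset.set_biUnion_insert a F _)
      (Eventually.of_forall fun w => by rw [Finset.set_biUnion_insert])

theorem Rp.shift (fd : Fd) {L : Ln ν U X} (n : Γ) {A : Lab → Set X.X} {E : Set L.W.X}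
    (h : Rp L A E) : Rp L (fun l => X.Tz n ⁻¹' A l) (L.W.Tz n ⁻¹' E) := by
  refine ⟨fun l => (fd.t.mp X n).measurable (h.1 l), ?_⟩
  rw [fd.lc.hs_T L n A h.1]
  exact (fd.t.mp L.W n).quasiMeasurePreserving.ae h.2

theorem Rp.lift (fd : Fd) {X' : Sys} {L' : Ln ν U X'} {L : Ln ν U X} {p : X'.X → X.X}
    {Lp : L'.W.X → L.W.X} (hp : Emb X' X p) (hL : IsLift L' L p Lp) {A : Lab → Set X.X}
    {E : Set L.W.X} (h : Rp L A E) : Rp L' (fun l => p ⁻¹' A l) (Lp ⁻¹' E) := by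
  refine ⟨fun l => hp.mp.measurable (h.1 l), ?_⟩
  filter_upwards [eventuallyEq_set.1 (fd.lc.hs_lift L' L p Lp A hp hL h.1),
    hL.emb.mp.quasiMeasurePreserving.ae h.2] with w h1 h2 using h1.trans h2

theorem Rp.lim (fd : Fd) {L : Ln ν U X} {A : Lab → Set X.X} {E : Set L.W.X} (h : Rp L A E) :
    Tendsto (fun M => ν.av2 M fun l => X.μ.real (A l)) U (𝓝 (L.W.μ.real E)) := by
  rw [← measureReal_congr h.ae]
  exact fd.lc.hs_lim L A h.1

theorem real_Tz (fd : Fd) (n : Γ) {A : Set X.X} (h : MeasurableSet A) :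
    X.μ.real (X.Tz n ⁻¹' A) = X.μ.real A :=
  (fd.t.mp X n).measureReal_preimage h.nullMeasurableSet

theorem Tz_neg (fd : Fd) (n : Γ) (x : X.X) : X.Tz (-n) (X.Tz n x) = x := by
  rw [← fd.t.add, neg_add_cancel, fd.t.zero]

theorem Tz_neg' (fd : Fd) (n : Γ) (x : X.X) : X.Tz n (X.Tz (-n) x) = x := by
  rw [← fd.t.add, add_neg_cancel, fd.t.zero]

/-- the limit of a recentred family -/
theorem Rp.lim' (fd : Fd) {L : Ln ν U X} {A B : Lab → Set X.X} {E : Set L.W.X} (h : Rp L A E)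
    (m : Lab → Γ) (e : ∀ l x, X.Tz (m l) x ∈ B l ↔ x ∈ A l) :
    Tendsto (fun M => ν.av2 M fun l => X.μ.real (B l)) U (𝓝 (L.W.μ.real E)) := by
  have : ∀ l, X.μ.real (B l) = X.μ.real (A l) := fun l => by
    rw [← real_Tz fd (-m l) (h.1 l)]
    congr 1
    ext y
    rw [Set.mem_preimage, ← e l, Tz_neg' fd]
  simp only [this]
  exact h.lim fd

theorem Rp.nl (fd : Fd) {L : Ln ν U X} {A B : Lab → Set X.X} {E : Set L.W.X} (h : Rp L A E)
    (m : Lab → Γ) (e : ∀ l x, X.Tz (m l) x ∈ B l ↔ x ∈ A l) (h0 : ∀ᵐ w ∂L.W.μ, w ∉ E) :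
    Nl ν U X B := by
  have := h.lim' fd m e
  rwa [show L.W.μ.real E = 0 by
    rw [Measure.real, measure_eq_zero_iff_ae_notMem.2 h0]; rfl] at this

theorem Rp.of_nl (fd : Fd) {L : Ln ν U X} {A B : Lab → Set X.X} {E : Set L.W.X} (h : Rp L A E)
    (m : Lab → Γ) (e : ∀ l x, X.Tz (m l) x ∈ B l ↔ x ∈ A l) (h0 : Nl ν U X B) : L.W.μ E = 0 := by
  have := tendsto_nhds_unique (h.lim' fd m e) h0
  exact (measureReal_eq_zero_iff (measure_ne_top _ _)).1 this

theorem rec1_mem (fd : Fd) (c : Ctx) {V : Type} (A : V → V → Lab → Set c.X.X) (i1 : c.ι)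
    (l : Lab) (a a' : V) (x : c.X.X) :
    c.X.Tz (rho (c.sl i1) l) x ∈ rec1 c A i1 l a a' ↔ x ∈ A a a' l := by
  unfold rec1
  rw [Set.mem_preimage, Tz_neg fd]

theorem stp_Tz (fd : Fd) (c : Ctx) (i1 i2 : c.ι) (l : Lab) (x : c.X.X) :
    c.X.Tz (stp c i1 i2 l) (c.X.Tz (rho (c.sl i1) l) x) = c.X.Tz (rho (c.sl i2) l) x := by
  rw [← fd.t.add, stp, sub_add_cancel]

theorem rec1_meas (fd : Fd) (c : Ctx) {V : Type} {ψ : V → c.X.X → ℂ} {i1 i2 : c.ι}
    {A : V → V → Lab → Set c.X.X} (h : Desc c ψ i1 i2 A) (l : Lab) (a a' : V) :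
    MeasurableSet (rec1 c A i1 l a a') := (fd.t.mp c.X _).measurable (h.1 a a' l)

theorem desc_rp {c : Ctx} {V : Type} {ψ : V → c.X.X → ℂ} {i1 i2 : c.ι}
    {A : V → V → Lab → Set c.X.X} (h : Desc c ψ i1 i2 A) (a a' : V) :
    Rp c.L (A a a') (c.SV ψ i1 i2 a a') := Rp.of_ae (h.1 a a') (h.2 a a')

theorem th_meas (rc : Rc) (c : Ctx) (g : c.X.X → ℂ) : MeasurableSet (Th c.B c.X.μ g) :=
  c.kc.1.le _ (rc.meas c.B c.X.μ g)

theorem nt_iff (c : Ctx) (k : c.ι) (g : c.X.X → ℂ) (w : c.W.X) :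
    w ∈ c.Nt k g ↔ w ∉ c.L.π (c.sl k) ⁻¹' Th c.B c.X.μ g := Iff.rfl

end GLn

end T4x

end

end PkGLn

section PkGAlgA

/-! Finite-level properties of the steps. -/

set_option autoImplicit false
set_option linter.unusedVariables false
set_option warn.classDefReducibility false

open MeasureTheory ProbabilityTheory Filter Topology Function Finset ComplexConjugate
open scoped BigOperators
open Fib27 (BM sup pr Oc Orow F23 LInd Mem)
open Pool.Agent.MP_154433_an.SG (Uni ufn)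

noncomputable section

namespace T4x

open T3x

variable [Grp]

open GLn

theorem xAlgA : AlgA := by
  intro fd rc gc c V _ _ sg ψ i1 i2 A st hd
  have hr := desc_rp hd
  have hs := fun (k : c.ι) (a : V) => Rp.slot fd c.L (c.sl k) (th_meas rc c (ψ a))
  refine ⟨fun a a' b b' => ?_, fun a a' => ?_, fun a a' => ?_, fun n a a' => ?_⟩
  · refine (((hr a a').inter fd (hr b b')).diff fd (hr (a - b) (a' - b'))).nl fd
      (rho (c.sl i1)) (fun l x => ?_) ?_
    · simp only [Set.mem_sdiff, Set.mem_inter_iff, rec1_mem fd]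
    · filter_upwards [st.sub a a' b b'] with w hw h using h.2 (hw h.1)
  · refine ((((hr 0 0).inter fd (hs i1 a)).inter fd (hs i2 a')).diff fd (hr a a')).nl fd
      (rho (c.sl i1)) (fun l x => ?_) ?_
    · simp only [Set.mem_sdiff, Set.mem_inter_iff, rec1_mem fd, Set.mem_preimage, stp_Tz fd]
    · filter_upwards [st.triv a a', eventuallyEq_set.1 st.zero] with w hw h0 h
      exact h.2 (hw (h0.1 h.1.1.1) (fun hn => hn h.1.1.2) fun hn => hn h.1.2)
  · refine ((hr a a').inter fd ((hs i1 a).niff fd (hs i2 a'))).nl fd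
      (rho (c.sl i1)) (fun l x => ?_) ?_
    · simp only [Set.mem_inter_iff, rec1_mem fd, Set.mem_preimage, stp_Tz fd, Set.mem_ofPred_eq]
    · filter_upwards [ae_all_iff.2 fun v : c.ι → V => st.ker v i1 i2] with w hw h
      obtain ⟨⟨-, h1⟩, h2⟩ := h
      simp only [Set.mem_iUnion, Set.mem_ofPred_eq] at h1
      obtain ⟨v, ⟨rfl, rfl⟩, hv⟩ := h1
      exact h2 (not_iff_not.1 (hw v hv))
  · refine ((hr (sg n a) (sg n a')).niff fd ((hr a a').shift fd n)).nl fd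
      (rho (c.sl i1)) (fun l x => ?_) ?_
    · simp only [Set.mem_ofPred_eq, rec1_mem fd, Set.mem_preimage]
      rw [← fd.t.add, add_comm, fd.t.add, rec1_mem fd]
    · filter_upwards [eventuallyEq_set.1 (st.sh n a a')] with w hw h
      exact h hw

namespace GAlgA

omit [Grp] in
theorem small {Ω V : Type} [MeasurableSpace Ω] [Countable V] (μ : Measure Ω)
    [IsProbabilityMeasure μ] (E : Set Ω) (S : V → Set Ω) (hE : NullMeasurableSet E μ)
    (hS : ∀ v, NullMeasurableSet (S v) μ) (h : ∀ᵐ w ∂μ, w ∈ E → ∃ v, w ∈ S v) (ε : ℝ)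
    (hε : 0 < ε) : ∃ F : Finset V, ∀ F', F ⊆ F' → μ.real (E \ ⋃ v ∈ F', S v) < ε := by
  have h1 : Tendsto (fun F : Finset V => μ (E \ ⋃ v ∈ F, S v)) atTop
      (𝓝 (μ (⋂ F : Finset V, E \ ⋃ v ∈ F, S v))) := by
    refine tendsto_measure_iInter_atTop (fun F => hE.diff ?_) (fun F F' hF => ?_)
      ⟨∅, measure_ne_top _ _⟩
    · exact NullMeasurableSet.biUnion (Finset.countable_toSet F) fun v _ => hS v
    · exact Set.sdiff_subset_sdiff_right (Set.biUnion_subset_biUnion_left hF)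
  have h2 : μ (⋂ F : Finset V, E \ ⋃ v ∈ F, S v) = 0 := by
    refine measure_eq_zero_iff_ae_notMem.2 ?_
    filter_upwards [h] with w hw hm
    have hm' := Set.mem_iInter.1 hm
    obtain ⟨v, hv⟩ := hw (hm' ∅).1
    exact (hm' {v}).2 (by simpa using hv)
  rw [h2] at h1
  have h3 := (ENNReal.tendsto_toReal ENNReal.zero_ne_top).comp h1
  obtain ⟨F, hF⟩ := eventually_atTop.1 (h3.eventually (gt_mem_nhds (by simpa using hε)))
  exact ⟨F, fun F' hF' => hF F' hF'⟩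

end GAlgA

theorem xAlgT : AlgT := by
  classical
  intro fd rc gc c V _ _ sg ψ i1 i2 A st hd a ε hε
  have hr := desc_rp hd
  have hm : ∀ a a', NullMeasurableSet (c.SV ψ i1 i2 a a') c.W.μ := fun a a' =>
    (hs_meas fd c.L (hd.1 a a')).nullMeasurableSet.congr (hd.2 a a').symm
  have key : ∀ (w : c.W.X), w ∈ c.SV ψ i1 i2 0 0 → ∀ q, ∃ v : c.ι → V, v q = a ∧
      w ∈ c.SV ψ i1 i2 (v i1) (v i2) := fun w hw q => by
    have h1 := Set.mem_iInter.1 (Set.mem_iInter.1 hw.1 q) a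
    simp only [Set.mem_iUnion, Set.mem_ofPred_eq] at h1
    obtain ⟨v, hv, hv'⟩ := h1
    refine ⟨v, hv, hw.1, ?_⟩
    simp only [Set.mem_iUnion, Set.mem_ofPred_eq]
    exact ⟨v, ⟨rfl, rfl⟩, hv'⟩
  obtain ⟨F1, h1⟩ := GAlgA.small c.W.μ _ (fun a' => c.SV ψ i1 i2 a a') (hm 0 0) (hm a)
    (Eventually.of_forall fun w hw => by
      obtain ⟨v, hv, hv'⟩ := key w hw i1
      exact ⟨v i2, hv ▸ hv'⟩) ε hε
  obtain ⟨F2, h2⟩ := GAlgA.small c.W.μ _ (fun a' => c.SV ψ i1 i2 a' a) (hm 0 0) (fun a' => hm a' a)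
    (Eventually.of_forall fun w hw => by
      obtain ⟨v, hv, hv'⟩ := key w hw i2
      exact ⟨v i1, hv ▸ hv'⟩) ε hε
  refine ⟨F1 ∪ F2, Eventually.and ?_ ?_⟩
  · have := ((hr 0 0).diff fd (Rp.biUnion fd (F1 ∪ F2) fun a' => hr a a')).lim' fd
      (B := fun l => rec1 c A i1 l 0 0 \ ⋃ a' ∈ F1 ∪ F2, rec1 c A i1 l a a') (rho (c.sl i1))
      (fun l x => by simp only [Set.mem_sdiff, Set.mem_iUnion, rec1_mem fd])
    exact (this.eventually (gt_mem_nhds (h1 _ subset_union_left))).mono fun _ h => h.le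
  · have := ((hr 0 0).diff fd (Rp.biUnion fd (F1 ∪ F2) fun a' => hr a' a)).lim' fd
      (B := fun l => rec1 c A i1 l 0 0 \ ⋃ a' ∈ F1 ∪ F2, rec1 c A i1 l a' a) (rho (c.sl i1))
      (fun l x => by simp only [Set.mem_sdiff, Set.mem_iUnion, rec1_mem fd])
    exact (this.eventually (gt_mem_nhds (h2 _ subset_union_right))).mono fun _ h => h.le

end T4x

end

end PkGAlgA

section PkGAlgB

/-! Row GAlgB: flatness at the finite level. -/

set_option autoImplicit false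
set_option linter.unusedVariables false
set_option warn.classDefReducibility false

open MeasureTheory ProbabilityTheory Filter Topology Function Finset ComplexConjugate
open scoped BigOperators
open Fib27 (BM sup pr Oc Orow F23 LInd Mem)

noncomputable section

namespace T4x

open T3x

variable [Grp]

namespace GAlgB

def cmb {α : Type} (F1 F2 F3 F4 : Set α) : Set α :=
  F1 ∩ (F2 ∩ ((F3 ∩ F4)ᶜ ∩ (F3ᶜ ∩ F4ᶜ)ᶜ))

theorem mem_cmb {α : Type} (F1 F2 F3 F4 : Set α) (x : α) :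
    x ∈ cmb F1 F2 F3 F4 ↔ x ∈ F1 ∧ x ∈ F2 ∧ ¬ (x ∈ F3 ↔ x ∈ F4) := by
  simp only [cmb, Set.mem_inter_iff, Set.mem_compl_iff]
  tauto

theorem meas_cmb {α : Type} [MeasurableSpace α] {F1 F2 F3 F4 : Set α} (h1 : MeasurableSet F1)
    (h2 : MeasurableSet F2) (h3 : MeasurableSet F3) (h4 : MeasurableSet F4) :
    MeasurableSet (cmb F1 F2 F3 F4) :=
  h1.inter (h2.inter ((h3.inter h4).compl.inter (h3.compl.inter h4.compl).compl))

theorem hs_cmb (fd : Fd) {ν : Wt} {U : Ultrafilter ℕ} {X : Sys} (L : Ln ν U X)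
    {F1 F2 F3 F4 : Lab → Set X.X} (h1 : ∀ l, MeasurableSet (F1 l)) (h2 : ∀ l, MeasurableSet (F2 l))
    (h3 : ∀ l, MeasurableSet (F3 l)) (h4 : ∀ l, MeasurableSet (F4 l)) :
    L.hs (fun l => cmb (F1 l) (F2 l) (F3 l) (F4 l)) =
      cmb (L.hs F1) (L.hs F2) (L.hs F3) (L.hs F4) := by
  have a1 : ∀ l, MeasurableSet (F3 l ∩ F4 l) := fun l => (h3 l).inter (h4 l)
  have a2 : ∀ l, MeasurableSet ((F3 l)ᶜ ∩ (F4 l)ᶜ) := fun l => (h3 l).compl.inter (h4 l).compl
  unfold cmb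
  rw [fd.lc.hs_inter L F1 _ h1 fun l => (h2 l).inter ((a1 l).compl.inter (a2 l).compl),
    fd.lc.hs_inter L F2 _ h2 fun l => (a1 l).compl.inter (a2 l).compl,
    fd.lc.hs_inter L (fun l => (F3 l ∩ F4 l)ᶜ) _ (fun l => (a1 l).compl) fun l => (a2 l).compl,
    fd.lc.hs_compl L _ a1, fd.lc.hs_compl L _ a2, fd.lc.hs_inter L F3 F4 h3 h4,
    fd.lc.hs_inter L (fun l => (F3 l)ᶜ) (fun l => (F4 l)ᶜ) (fun l => (h3 l).compl)
      fun l => (h4 l).compl, fd.lc.hs_compl L F3 h3, fd.lc.hs_compl L F4 h4]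

theorem hs_ms (fd : Fd) {ν : Wt} {U : Ultrafilter ℕ} {X : Sys} (L : Ln ν U X)
    {F : Lab → Set X.X} (h : ∀ l, MeasurableSet (F l)) : MeasurableSet (L.hs F) := by
  have := fd.lc.hs_meas L X.ms F (fd.t.top X) h
  rwa [fd.lb.top L] at this

theorem real_pre (fd : Fd) (Y : Sys) (n : Γ) {E : Set Y.X} (hE : MeasurableSet E) :
    Y.μ.real (Y.Tz n ⁻¹' E) = Y.μ.real E := by
  unfold Measure.real
  rw [(fd.t.mp Y n).measure_preimage hE.nullMeasurableSet]

end GAlgB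

open GAlgB in
theorem xAlgB : AlgB := by
  intro fd rc gc c V _ _ sg ψ i1 i2 i3 A A' h13 st st' hD hD' a b a' b'
  obtain ⟨hA, hS⟩ := hD
  obtain ⟨hA', hS'⟩ := hD'
  have cx := gc.ctx c
  have mT : ∀ (Y : Sys) (n : Γ), Measurable (Y.Tz n) := fun Y n => (fd.t.mp Y n).measurable
  have hH : ∀ a a', MeasurableSet (c.L.hs (A' a a')) := fun a a' => hs_ms fd c.L (hA' a a')
  have mπ : ∀ k, Measurable (c.π k) := fun k => (cx.embπ k).mp.measurable
  let E : Lab → Set c.W.X := fun l =>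
    cmb (c.W.Tz (rho (c.sl i1) l) ⁻¹' c.L.hs (A' a b))
      (c.W.Tz (rho (c.sl i2) l) ⁻¹' c.L.hs (A' a' b'))
      (c.π i1 ⁻¹' A a a' l) (c.π i3 ⁻¹' A b b' l)
  have hE : ∀ l, MeasurableSet (E l) := fun l =>
    meas_cmb (mT _ _ (hH _ _)) (mT _ _ (hH _ _)) (mπ _ (hA _ _ _)) (mπ _ (hA _ _ _))
  refine ⟨fun l => c.W.μ.real (E l), ?_, fun l => ?_⟩
  · have h1 := fd.lc.hs_lim c.L2 E hE
    have h2 : c.L2.W.μ.real (c.L2.hs E) = 0 := by
      have h3 : c.L2.hs E = _ := hs_cmb fd c.L2 (fun l => mT _ _ (hH a b))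
        (fun l => mT _ _ (hH a' b')) (fun l => mπ i1 (hA a a' l)) fun l => mπ i3 (hA b b' l)
      rw [h3, measureReal_eq_zero_iff, measure_eq_zero_iff_ae_notMem]
      filter_upwards [st.flat i3 h13 a b a' b', fd.lc.hs_slot c.L2 (c.sl i1) _ (hH a b),
        fd.lc.hs_slot c.L2 (c.sl i2) _ (hH a' b'),
        fd.lc.hs_lift c.L2 c.L (c.π i1) (c.Bc i1) (A a a') (cx.embπ i1) (c.lift i1) (hA a a'),
        fd.lc.hs_lift c.L2 c.L (c.π i3) (c.Bc i3) (A b b') (cx.embπ i3) (c.lift i3) (hA b b'),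
        (cx.embA i1).mp.quasiMeasurePreserving.ae (hS' a b),
        (cx.embA i2).mp.quasiMeasurePreserving.ae (hS' a' b'),
        (cx.embB i1).mp.quasiMeasurePreserving.ae (hS a a'),
        (cx.embB i3).mp.quasiMeasurePreserving.ae (hS b b')] with x h0 h1 h2 h3 h4 h5 h6 h7 h8
      rw [mem_cmb]
      rintro ⟨k1, k2, k3⟩
      refine k3 ?_
      have := h0 ((iff_of_eq h5).2 ((iff_of_eq h1).1 k1)) ((iff_of_eq h6).2 ((iff_of_eq h2).1 k2))
      exact (iff_of_eq h3).trans ((iff_of_eq h7).symm.trans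
        (this.trans ((iff_of_eq h8).trans (iff_of_eq h4).symm)))
    rwa [h2] at h1
  · set n := stp c i1 i2 l with hn
    have mR : ∀ a a', MeasurableSet (rec1 c A i1 l a a') := fun a a' => mT _ _ (hA a a' l)
    let F : Lab → Set c.X.X := fun l' =>
      cmb (A' a b l') (A' (sg n a') (sg n b') l')
        (c.X.Tz (rho (c.sl i1) l') ⁻¹' rec1 c A i1 l a a')
        (c.X.Tz (rho (c.sl i3) l') ⁻¹' rec1 c A i1 l b b')
    have hF : ∀ l', MeasurableSet (F l') := fun l' =>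
      meas_cmb (hA' _ _ _) (hA' _ _ _) (mT _ _ (mR _ _)) (mT _ _ (mR _ _))
    have h1 := fd.lc.hs_lim c.L F hF
    have h2 : c.L.W.μ.real (c.L.hs F) = c.W.μ.real (E l) := by
      rw [← real_pre fd c.W (rho (c.sl i1) l) (hs_ms fd c.L hF)]
      refine measureReal_congr ?_
      have h3 : c.L.hs F = _ := hs_cmb fd c.L (hA' a b) (hA' (sg n a') (sg n b'))
        (fun l' => mT _ _ (mR a a')) fun l' => mT _ _ (mR b b')
      have q := (fd.t.mp c.W (rho (c.sl i1) l)).quasiMeasurePreserving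
      have e1 : ∀ w, c.W.Tz n (c.W.Tz (rho (c.sl i1) l) w) = c.W.Tz (rho (c.sl i2) l) w :=
        fun w => by rw [← fd.t.add, hn, stp, sub_add_cancel]
      have e2 : ∀ x, c.X.Tz (-rho (c.sl i1) l) (c.X.Tz (rho (c.sl i1) l) x) = x :=
        fun x => by rw [← fd.t.add, neg_add_cancel, fd.t.zero]
      filter_upwards [q.ae (fd.lc.hs_slot c.L (c.sl i1) _ (mR a a')),
        q.ae (fd.lc.hs_slot c.L (c.sl i3) _ (mR b b')), q.ae (hS' (sg n a') (sg n b')),
        q.ae (st'.sh n a' b'),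
        (fd.t.mp c.W (rho (c.sl i2) l)).quasiMeasurePreserving.ae (hS' a' b'),
        fd.t.emb_z c.W c.X (c.π i1) (rho (c.sl i1) l) (cx.embπ i1) _ (mR a a'),
        fd.t.emb_z c.W c.X (c.π i3) (rho (c.sl i1) l) (cx.embπ i3) _ (mR b b')]
        with w k1 k2 k3 k4 k5 k6 k7
      refine propext ?_
      change c.W.Tz (rho (c.sl i1) l) w ∈ c.L.hs F ↔ w ∈ E l
      rw [h3, mem_cmb, mem_cmb]
      have k4' : c.W.Tz (rho (c.sl i1) l) w ∈ c.SV ψ i1 i3 (sg n a') (sg n b') ↔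
          c.W.Tz (rho (c.sl i2) l) w ∈ c.SV ψ i1 i3 a' b' := by
        rw [← e1]
        exact iff_of_eq k4
      have j2 : c.W.Tz (rho (c.sl i1) l) w ∈ c.L.hs (A' (sg n a') (sg n b')) ↔
          w ∈ c.W.Tz (rho (c.sl i2) l) ⁻¹' c.L.hs (A' a' b') :=
        (iff_of_eq k3).symm.trans (k4'.trans (iff_of_eq k5))
      have j3 : c.W.Tz (rho (c.sl i1) l) w ∈
          (c.L.hs fun l' => c.X.Tz (rho (c.sl i1) l') ⁻¹' rec1 c A i1 l a a') ↔
          w ∈ c.π i1 ⁻¹' A a a' l := by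
        refine (iff_of_eq k1).trans ((iff_of_eq k6).trans ?_)
        change c.X.Tz (-rho (c.sl i1) l) (c.X.Tz (rho (c.sl i1) l) (c.π i1 w)) ∈ A a a' l ↔ _
        rw [e2]; rfl
      have j4 : c.W.Tz (rho (c.sl i1) l) w ∈
          (c.L.hs fun l' => c.X.Tz (rho (c.sl i3) l') ⁻¹' rec1 c A i1 l b b') ↔
          w ∈ c.π i3 ⁻¹' A b b' l := by
        refine (iff_of_eq k2).trans ((iff_of_eq k7).trans ?_)
        change c.X.Tz (-rho (c.sl i1) l) (c.X.Tz (rho (c.sl i1) l) (c.π i3 w)) ∈ A b b' l ↔ _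
        rw [e2]; rfl
      rw [j2, j3, j4]
      rfl
    rw [h2] at h1
    refine h1.congr fun M => ?_
    congr 1
    funext l'
    rw [← real_pre fd c.X (-rho (c.sl i1) l') (hF l')]
    congr 1
    ext y
    have e3 : c.X.Tz (rho (c.sl i1) l') (c.X.Tz (-rho (c.sl i1) l') y) = y := by
      rw [← fd.t.add, add_neg_cancel, fd.t.zero]
    have e4 : c.X.Tz (rho (c.sl i3) l') (c.X.Tz (-rho (c.sl i1) l') y) =
        c.X.Tz (stp c i1 i3 l') y := by
      rw [← fd.t.add, stp, sub_eq_add_neg]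
    rw [Set.mem_preimage, mem_cmb, Set.mem_preimage, Set.mem_preimage, e3, e4]
    rfl

end T4x

end

end PkGAlgB

section PkGAlgC

/-! Row GAlgC: assembly of the finite-level data of the algebraic step. -/

set_option autoImplicit false
set_option linter.unusedVariables false
set_option warn.classDefReducibility false

open MeasureTheory ProbabilityTheory Filter Topology Function Finset ComplexConjugate
open scoped BigOperators
open Fib27 (BM sup pr Oc Orow F23 LInd Mem)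

noncomputable section

namespace T4x

open T3x

variable [Grp]

namespace GAlgCx

theorem uu_meas (c : Ctx) {V : Type} [Countable V] (ψ : V → c.X.X → ℂ) (h : c.ONH ψ) :
    MeasurableSet[c.L.shp c.B] (c.UU ψ) :=
  MeasurableSet.iInter fun q => MeasurableSet.iInter fun x =>
    MeasurableSet.biUnion (Set.to_countable _) fun v _ => h v

theorem sv_meas (c : Ctx) {V : Type} [Countable V] (ψ : V → c.X.X → ℂ) (h : c.ONH ψ)
    (i1 i2 : c.ι) (a a' : V) : MeasurableSet[c.L.shp c.B] (c.SV ψ i1 i2 a a') :=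
  (uu_meas c ψ h).inter (MeasurableSet.biUnion (Set.to_countable _) fun v _ => h v)

theorem hs_all (lc : LfC) {ν : Wt} {U : Ultrafilter ℕ} {X : Sys} (L : Ln ν U X) {ι : Type}
    (A : ι → Lab → Set X.X) (hA : ∀ j l, MeasurableSet (A j l)) (S : Finset ι) :
    L.hs (fun l => ⋂ j ∈ S, A j l) = ⋂ j ∈ S, L.hs (A j) := by
  classical
  induction S using Finset.induction_on with
  | empty =>
    have h1 := lc.hs_compl L (fun _ => ∅) fun _ => MeasurableSet.empty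
    have h2 := lc.hs_inter L (fun _ => ∅) (fun _ => (∅ : Set X.X)ᶜ) (fun _ => MeasurableSet.empty)
      fun _ => MeasurableSet.empty.compl
    rw [h1, Set.inter_compl_self] at h2
    simp only [Set.empty_inter] at h2
    rw [h2] at h1
    simpa using h1
  | insert a S ha ih =>
    simp only [Finset.set_biInter_insert]
    rw [lc.hs_inter L _ _ (hA a) fun l => Finset.measurableSet_biInter S fun j _ => hA j l, ih]

end GAlgCx

theorem xAlgC : AlgC := by
  intro gc hA hT hB f r hS hR hAlg c V _ _ sg ψ gi hψ onh hi hbun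
  have cc := gc.ctx c
  obtain ⟨i1, h1⟩ := cc.one
  have st : ∀ j, j ≠ i1 → c.Stp sg ψ i1 j := fun j hj => hS f r c V sg ψ i1 j hj.symm gi hψ
  obtain ⟨r1, r2, r3, r4, r5⟩ := hR f r c V sg ψ hψ
  choose A hA1 hA2 using fun j a a' => f.lc.satu c.L c.B c.hU cc.facB _
    (GAlgCx.sv_meas c ψ onh i1 j a a')
  have hd : ∀ j, Desc c ψ i1 j (A j) := fun j =>
    ⟨fun a a' l => cc.facB.le _ (hA1 j a a' l), hA2 j⟩
  have aa := fun j hj => hA f r gc c V sg ψ i1 j (A j) (st j hj) (hd j)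
  have mN : ∀ v, MeasurableSet (Th c.B c.X.μ (ψ v)) := fun v =>
    cc.facB.le _ (r.meas c.B c.X.μ (ψ v))
  obtain ⟨v, j, hv⟩ := hbun
  have hv1 : c.W.μ (c.UU ψ ∩ c.ΘV ψ v ∩ c.Nt i1 (ψ (v i1))) ≠ 0 := by
    by_cases hj : j = i1
    · exact hj ▸ hv
    refine fun h0 => hv (measure_mono_null_ae ?_ h0)
    filter_upwards [(st j hj).ker v j i1] with w hw hm
    exact ⟨hm.1, (hw hm.1.2).1 hm.2⟩
  obtain ⟨v0, hv0⟩ : ∃ v0, c.W.μ (c.UU ψ ∩ Th (c.L.shp c.B) c.W.μ (c.FF ψ v0) ∩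
      c.Nt i1 (ψ (v0 i1))) ≠ 0 := by
    by_contra h
    exact hv1 (hi _ i1 (GAlgCx.uu_meas c ψ onh) (fun v => by
      by_contra h'
      exact h ⟨v, h'⟩) v)
  refine hAlg c.ν c.U c.X V sg (fun v => Th c.B c.X.μ (ψ v)) c.ι (fun j => rec1 c (A j) i1) c.sl i1
    (fun j => stp c i1 j) v0
    { hU := c.hU
      erg := c.erg
      spr := c.spr
      nrm := c.nrm
      h1 := h1
      hn := fun j l => rfl
      mN := mN
      mS := fun j l a a' => (f.t.mp c.X _).measurable ((hd j).1 a a' l)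
      n0 := r2
      nsub := r3
      nsh := r4
      sub := fun j hj => (aa j hj).1
      triv := fun j hj => (aa j hj).2.1
      ker := fun j hj => (aa j hj).2.2.1
      tot := fun j hj => hT f r gc c V sg ψ i1 j (A j) (st j hj) (hd j)
      sh := fun j hj => (aa j hj).2.2.2
      flat := fun j j' hj hj' => hB f r gc c V sg ψ i1 j j' (A j) (A j') hj'.symm (st j hj)
        (st j' hj') (hd j) (hd j')
      rel := fun hN => hv0 ?_
      dec := r5 }
  have m0 : ∀ l, MeasurableSet (⋂ j ∈ univ.erase i1, A j 0 0 l) := fun l =>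
    Finset.measurableSet_biInter _ fun j _ => (hd j).1 0 0 l
  have m1 : ∀ l, MeasurableSet (Th c.B c.X.μ (ψ (∑ k, sg (rho (c.sl k) l) (v0 k)))) :=
    fun l => mN _
  have m2 : ∀ l, MeasurableSet (c.X.Tz (rho (c.sl i1) l) ⁻¹' Th c.B c.X.μ (ψ (v0 i1))) :=
    fun l => (f.t.mp c.X _).measurable (mN _)
  have m3 : ∀ l, MeasurableSet ((⋂ j ∈ univ.erase i1, A j 0 0 l) ∩
      Th c.B c.X.μ (ψ (∑ k, sg (rho (c.sl k) l) (v0 k)))) := fun l => (m0 l).inter (m1 l)
  have hl := f.lc.hs_lim c.L _ fun l => (m3 l).inter (m2 l).compl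
  rw [f.lc.hs_inter c.L _ _ m3 fun l => (m2 l).compl, f.lc.hs_inter c.L _ _ m0 m1,
    f.lc.hs_compl c.L _ m2,
    GAlgCx.hs_all f.lc c.L (fun j => A j 0 0) (fun j => (hd j).1 0 0)] at hl
  have e : ∀ l, c.X.μ.real {x | (∀ j, j ≠ i1 → c.X.Tz (rho (c.sl i1) l) x ∈ rec1 c (A j) i1 l 0 0) ∧
      x ∈ Th c.B c.X.μ (ψ (∑ k, sg (rho (c.sl k) l) (v0 k))) ∧
      x ∉ Th c.B c.X.μ (ψ (sg (rho (c.sl i1) l) (v0 i1)))} =
      c.X.μ.real ((⋂ j ∈ univ.erase i1, A j 0 0 l) ∩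
        Th c.B c.X.μ (ψ (∑ k, sg (rho (c.sl k) l) (v0 k))) ∩
        (c.X.Tz (rho (c.sl i1) l) ⁻¹' Th c.B c.X.μ (ψ (v0 i1)))ᶜ) := fun l => by
    refine measureReal_congr ?_
    filter_upwards [r4 (rho (c.sl i1) l) (v0 i1)] with x hx
    refine propext ?_
    change ((∀ j, j ≠ i1 → c.X.Tz (-rho (c.sl i1) l) (c.X.Tz (rho (c.sl i1) l) x) ∈ A j 0 0 l) ∧
      _ ∧ ¬ _) ↔ (x ∈ (⋂ j ∈ univ.erase i1, A j 0 0 l) ∧ _) ∧
      ¬ c.X.Tz (rho (c.sl i1) l) x ∈ Th c.B c.X.μ (ψ (v0 i1))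
    rw [← f.t.add, neg_add_cancel, f.t.zero, ← hx, and_assoc]
    simp only [Set.mem_iInter, Finset.mem_erase, Finset.mem_univ, and_true]
  have hN' : Tendsto (fun M => c.ν.av2 M fun l => c.X.μ.real ((⋂ j ∈ univ.erase i1, A j 0 0 l) ∩
      Th c.B c.X.μ (ψ (∑ k, sg (rho (c.sl k) l) (v0 k))) ∩
        (c.X.Tz (rho (c.sl i1) l) ⁻¹' Th c.B c.X.μ (ψ (v0 i1)))ᶜ)) c.U (𝓝 0) := by
    simp only [← e]
    exact hN
  have h0 := (measureReal_eq_zero_iff (measure_ne_top _ _)).1 (tendsto_nhds_unique hl hN')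
  refine measure_mono_null_ae ?_ h0
  have hall : ∀ᵐ w ∂c.W.μ, ∀ j, j ≠ i1 → w ∈ c.UU ψ → w ∈ c.L.hs (A j 0 0) := by
    refine ae_all_iff.2 fun j => ?_
    by_cases hj : j = i1
    · exact Eventually.of_forall fun w h => absurd hj h
    filter_upwards [(st j hj).zero, hA2 j 0 0] with w e1 e2 _ hw
    exact e2.mp (e1.mpr hw)
  filter_upwards [hall, r1 v0, f.lc.hs_slot c.L (c.sl i1) _ (mN (v0 i1))] with w e1 e3 e4 hw
  exact ⟨⟨Set.mem_iInter₂.2 fun j hj => e1 j (Finset.ne_of_mem_erase hj) hw.1.1, e3.mp hw.1.2⟩,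
    fun h => hw.2 (e4.mp h)⟩

end T4x

end

end PkGAlgC

section PkGAt1

/-! Atoms of types: measurability, and coincidences happen on atoms. -/

set_option autoImplicit false
set_option linter.unusedVariables false
set_option warn.classDefReducibility false

open MeasureTheory ProbabilityTheory Filter Topology Function Finset ComplexConjugate
open scoped BigOperators
open Fib27 (BM sup pr Oc Orow F23 LInd Mem)

noncomputable section

namespace T4x

open T3x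

namespace At1

theorem cell_meas {Y κ : Type} {m0 : MeasurableSpace Y} (t : Y → κ → Prop)
    (ht : ∀ i, MeasurableSet {y | t y i}) (K c : Finset κ) : MeasurableSet (cell t K c) := by
  have h : cell t K c = ⋂ i ∈ K, {y | t y i ↔ i ∈ c} := by
    ext y
    simp [cell]
  rw [h]
  refine Finset.measurableSet_biInter K fun i _ => ?_
  by_cases hi : i ∈ c
  · simpa [hi] using ht i
  · have h2 : {y | t y i ↔ i ∈ c} = {y | t y i}ᶜ := by
      ext y
      simp [hi]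
    rw [h2]
    exact (ht i).compl

theorem ce_meas {Y : Type} (I : MeasurableSpace Y) {m0 : MeasurableSpace Y} (μ : Measure Y)
    (f : Y → ℂ) : Measurable[I] fun y => ((μ[f | I]) y).re :=
  Complex.measurable_re.comp (stronglyMeasurable_condExp (m := I) (μ := μ) (f := f)).measurable

theorem bm_ind {Y : Type} {m0 : MeasurableSpace Y} (μ : Measure Y) {A : Set Y}
    (hA : MeasurableSet A) : BM μ m0 (A.indicator fun _ => (1 : ℂ)) := by
  refine ⟨(aestronglyMeasurable_const.indicator hA), 1, Eventually.of_forall fun y => ?_⟩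
  by_cases hy : y ∈ A <;> simp [hy]

theorem ce_real {Y : Type} (I : MeasurableSpace Y) {m0 : MeasurableSpace Y} (μ : Measure Y)
    [IsProbabilityMeasure μ] {A : Set Y} (hA : MeasurableSet A) :
    μ[A.indicator fun _ => (1 : ℂ) | I] =ᵐ[μ]
      fun y => (((μ[A.indicator fun _ => (1 : ℝ) | I]) y : ℝ) : ℂ) := by
  have h1 := Complex.ofRealCLM.comp_condExp_comm (m := I) (μ := μ)
    (f := A.indicator fun _ => (1 : ℝ)) ((integrable_const (1 : ℝ)).indicator hA)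
  have h2 : (Complex.ofRealCLM ∘ A.indicator fun _ => (1 : ℝ)) = A.indicator fun _ => (1 : ℂ) := by
    funext y
    by_cases hy : y ∈ A <;> simp [hy]
  rw [h2] at h1
  filter_upwards [h1] with y hy
  rw [← hy]
  simp

theorem ce_mono {Y : Type} (I : MeasurableSpace Y) {m0 : MeasurableSpace Y} (μ : Measure Y)
    [IsProbabilityMeasure μ] {A B : Set Y} (hA : MeasurableSet A) (hB : MeasurableSet B)
    (h : A ⊆ B) : ∀ᵐ y ∂μ, ((μ[A.indicator fun _ => (1 : ℂ) | I]) y).re ≤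
      ((μ[B.indicator fun _ => (1 : ℂ) | I]) y).re := by
  have h1 := condExp_mono (m := I) (μ := μ) ((integrable_const (1 : ℝ)).indicator hA)
    ((integrable_const (1 : ℝ)).indicator hB)
    (Eventually.of_forall fun y => Set.indicator_le_indicator_of_subset h (fun _ => zero_le_one) y)
  filter_upwards [h1, ce_real I μ hA, ce_real I μ hB] with y h1 h2 h3
  rw [h2, h3]
  simpa using h1

theorem key {Ω Y : Type} (I : MeasurableSpace Y) {m0 : MeasurableSpace Y}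
    (μ : Measure Y) [IsProbabilityMeasure μ] {m1 : MeasurableSpace Ω} (μ' : Measure Ω)
    [IsProbabilityMeasure μ'] (a1 a2 : Ω → Y) (hI : I ≤ m0) (hS : Sq I μ μ' a1 a2)
    {A B : Set Y} (hA : MeasurableSet A) (hB : MeasurableSet B) (η : ℝ) (hη : 0 ≤ η) :
    μ'.real {x | a1 x ∈ A ∧ ((μ[A.indicator fun _ => (1 : ℂ) | I]) (a1 x)).re < η ∧ a2 x ∈ B} ≤
      η * μ.real B := by
  set D : Set Y := {y | ((μ[A.indicator fun _ => (1 : ℂ) | I]) y).re < η} with hD
  have hDI : MeasurableSet[I] D := measurableSet_lt (ce_meas I μ _) measurable_const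
  have hD0 : MeasurableSet D := hI _ hDI
  have h := hS.2.2 _ _ (bm_ind μ (hD0.inter hA)) (bm_ind μ hB)
  have hE : MeasurableSet (a1 ⁻¹' (D ∩ A) ∩ a2 ⁻¹' B) :=
    (hS.1.measurable (hD0.inter hA)).inter (hS.2.1.measurable hB)
  have hl : (fun x => (D ∩ A).indicator (fun _ => (1 : ℂ)) (a1 x) *
      B.indicator (fun _ => (1 : ℂ)) (a2 x)) =
      (a1 ⁻¹' (D ∩ A) ∩ a2 ⁻¹' B).indicator fun _ => (1 : ℂ) := by
    funext x
    by_cases h1 : a1 x ∈ D ∩ A <;> by_cases h2 : a2 x ∈ B <;>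
      simp only [Set.indicator, Set.mem_inter_iff (a := a1 ⁻¹' (D ∩ A)), Set.mem_preimage, h1, h2] <;>
      simp
  rw [hl, integral_indicator_const _ hE] at h
  have hc : μ[(D ∩ A).indicator fun _ => (1 : ℂ) | I] =ᵐ[μ]
      D.indicator (μ[A.indicator fun _ => (1 : ℂ) | I]) := by
    rw [← Set.indicator_indicator]
    exact condExp_indicator ((integrable_const (1 : ℂ)).indicator hA) hDI
  have hr : ∫ y, (μ[(D ∩ A).indicator fun _ => (1 : ℂ) | I]) y *
      (μ[B.indicator fun _ => (1 : ℂ) | I]) y ∂μ =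
      ((∫ y, D.indicator (μ[A.indicator fun _ => (1 : ℝ) | I]) y *
        (μ[B.indicator fun _ => (1 : ℝ) | I]) y ∂μ : ℝ) : ℂ) := by
    rw [← integral_complex_ofReal]
    refine integral_congr_ae ?_
    filter_upwards [hc, ce_real I μ hA, ce_real I μ hB] with y h1 h2 h3
    rw [h1, h3]
    by_cases hy : y ∈ D
    · simp [hy, h2]
    · simp [hy]
  rw [hr] at h
  have h' : μ'.real (a1 ⁻¹' (D ∩ A) ∩ a2 ⁻¹' B) =
      ∫ y, D.indicator (μ[A.indicator fun _ => (1 : ℝ) | I]) y *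
        (μ[B.indicator fun _ => (1 : ℝ) | I]) y ∂μ := by
    have h2 := congrArg Complex.re h
    simpa using h2
  have hset : {x | a1 x ∈ A ∧ ((μ[A.indicator fun _ => (1 : ℂ) | I]) (a1 x)).re < η ∧ a2 x ∈ B} =
      a1 ⁻¹' (D ∩ A) ∩ a2 ⁻¹' B := by
    ext x
    simp only [hD, Set.mem_ofPred_eq, Set.mem_inter_iff, Set.mem_preimage]
    tauto
  have nA : 0 ≤ᵐ[μ] μ[A.indicator fun _ => (1 : ℝ) | I] :=
    condExp_nonneg (Eventually.of_forall fun y => Set.indicator_nonneg (fun _ _ => zero_le_one) y)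
  have nB : 0 ≤ᵐ[μ] μ[B.indicator fun _ => (1 : ℝ) | I] :=
    condExp_nonneg (Eventually.of_forall fun y => Set.indicator_nonneg (fun _ _ => zero_le_one) y)
  rw [hset, h']
  calc ∫ y, D.indicator (μ[A.indicator fun _ => (1 : ℝ) | I]) y *
        (μ[B.indicator fun _ => (1 : ℝ) | I]) y ∂μ
      ≤ ∫ y, η * (μ[B.indicator fun _ => (1 : ℝ) | I]) y ∂μ := by
        refine integral_mono_of_nonneg ?_ (integrable_condExp.const_mul η) ?_
        · filter_upwards [nA, nB] with y h1 h2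
          refine mul_nonneg ?_ h2
          by_cases hy : y ∈ D
          · simpa [hy] using h1
          · simp [hy]
        · filter_upwards [nB, ce_real I μ hA] with y h1 h2
          refine mul_le_mul_of_nonneg_right ?_ h1
          by_cases hy : y ∈ D
          · have h3 : ((μ[A.indicator fun _ => (1 : ℂ) | I]) y).re < η := hy
            rw [h2] at h3
            simpa [hy] using h3.le
          · simpa [hy] using hη
    _ = η * μ.real B := by
        rw [integral_const_mul, integral_condExp hI, integral_indicator_const _ hB]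
        simp

theorem cell_congr {Y κ : Type} (t : Y → κ → Prop) {K c c' : Finset κ} {y : Y}
    (h : y ∈ cell t K c) (h' : y ∈ cell t K c') : cell t K c = cell t K c' := by
  ext z
  refine forall₂_congr fun i hi => ?_
  rw [← h i hi, ← h' i hi]

theorem level {Ω Y κ : Type} (I : MeasurableSpace Y) {m0 : MeasurableSpace Y}
    (μ : Measure Y) [IsProbabilityMeasure μ] {m1 : MeasurableSpace Ω} (μ' : Measure Ω)
    [IsProbabilityMeasure μ'] (a1 a2 : Ω → Y) (t t' : Y → κ → Prop) (hI : I ≤ m0)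
    (ht : ∀ i, MeasurableSet {y | t y i}) (ht' : ∀ i, MeasurableSet {y | t' y i})
    (hS : Sq I μ μ' a1 a2) (η : ℝ) (hη : 0 ≤ η) (K : Finset κ) :
    μ'.real {x | t (a1 x) = t' (a2 x) ∧ ∃ c, a1 x ∈ cell t K c ∧
      ((μ[(cell t K c).indicator fun _ => (1 : ℂ) | I]) (a1 x)).re < η} ≤ η := by
  classical
  have hsub : {x | t (a1 x) = t' (a2 x) ∧ ∃ c, a1 x ∈ cell t K c ∧
      ((μ[(cell t K c).indicator fun _ => (1 : ℂ) | I]) (a1 x)).re < η} ⊆
      ⋃ c ∈ K.powerset, {x | a1 x ∈ cell t K c ∧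
        ((μ[(cell t K c).indicator fun _ => (1 : ℂ) | I]) (a1 x)).re < η ∧ a2 x ∈ cell t' K c} := by
    rintro x ⟨h1, c, h2, h3⟩
    have h4 : a1 x ∈ cell t K (K.filter (t (a1 x))) := fun i hi => by simp [hi]
    refine Set.mem_iUnion₂.2 ⟨K.filter (t (a1 x)), mem_powerset.2 (filter_subset _ _), h4, ?_, ?_⟩
    · rw [← cell_congr t h2 h4]
      exact h3
    · intro i hi
      rw [← h1]
      exact h4 i hi
  have hd : Set.PairwiseDisjoint (↑K.powerset : Set (Finset κ)) fun c => cell t' K c := by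
    intro c hc c' hc' hne
    refine Set.disjoint_left.2 fun y h1 h2 => hne ?_
    have hc1 : c ⊆ K := mem_powerset.1 hc
    have hc2 : c' ⊆ K := mem_powerset.1 hc'
    ext i
    exact ⟨fun h => (h2 i (hc1 h)).1 ((h1 i (hc1 h)).2 h),
      fun h => (h1 i (hc2 h)).1 ((h2 i (hc2 h)).2 h)⟩
  calc _ ≤ _ := measureReal_mono hsub (measure_ne_top _ _)
    _ ≤ _ := measureReal_biUnion_finset_le _ _
    _ ≤ ∑ c ∈ K.powerset, η * μ.real (cell t' K c) :=
        sum_le_sum fun c _ => key I μ μ' a1 a2 hI hS (cell_meas t ht K c) (cell_meas t' ht' K c) η hη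
    _ = η * ∑ c ∈ K.powerset, μ.real (cell t' K c) := by rw [mul_sum]
    _ ≤ η * 1 := by
        refine mul_le_mul_of_nonneg_left ?_ hη
        simpa using sum_measureReal_le_measureReal_univ (μ := μ)
          (fun c _ => cell_meas t' ht' K c) hd
    _ = η := mul_one η

end At1

theorem xAtM : ∀ {Y κ : Type} [Countable κ] (I : MeasurableSpace Y) {m0 : MeasurableSpace Y}
    (μ : Measure Y) (t : Y → κ → Prop), I ≤ m0 → (∀ i, MeasurableSet {y | t y i}) →
    MeasurableSet (At I μ t) := by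
  intro Y κ _ I m0 μ t hI ht
  have h : At I μ t = ⋃ n : ℕ, ⋂ (K : Finset κ) (c : Finset κ), (cell t K c)ᶜ ∪
      {y | 1 / ((n : ℝ) + 1) ≤ ((μ[(cell t K c).indicator fun _ => (1 : ℂ) | I]) y).re} := by
    ext y
    simp only [At, Set.mem_ofPred_eq, Set.mem_iUnion, Set.mem_iInter, Set.mem_union,
      Set.mem_compl_iff, imp_iff_not_or]
  rw [h]
  refine MeasurableSet.iUnion fun n => MeasurableSet.iInter fun K => MeasurableSet.iInter fun c =>
    (At1.cell_meas t ht K c).compl.union ?_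
  exact hI _ (measurableSet_le measurable_const (At1.ce_meas I μ _))

theorem xAtO : ∀ {Ω Y κ : Type} [Countable κ] (I : MeasurableSpace Y) {m0 : MeasurableSpace Y}
    (μ : Measure Y) [IsProbabilityMeasure μ] {m1 : MeasurableSpace Ω} (μ' : Measure Ω)
    [IsProbabilityMeasure μ'] (a1 a2 : Ω → Y) (t t' : Y → κ → Prop), I ≤ m0 →
    (∀ i, MeasurableSet {y | t y i}) → (∀ i, MeasurableSet {y | t' y i}) → Sq I μ μ' a1 a2 →
    ∀ᵐ x ∂μ', t (a1 x) = t' (a2 x) → a1 x ∈ At I μ t := by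
  intro Ω Y κ _ I m0 μ _ m1 μ' _ a1 a2 t t' hI ht ht' hS
  classical
  have hN : ∀ᵐ y ∂μ, ∀ K K' c : Finset κ, K ⊆ K' →
      ((μ[(cell t K' c).indicator fun _ => (1 : ℂ) | I]) y).re ≤
        ((μ[(cell t K c).indicator fun _ => (1 : ℂ) | I]) y).re := by
    refine ae_all_iff.2 fun K => ae_all_iff.2 fun K' => ae_all_iff.2 fun c => ?_
    by_cases h : K ⊆ K'
    · filter_upwards [At1.ce_mono I μ (At1.cell_meas t ht K' c) (At1.cell_meas t ht K c)
        (fun y hy i hi => hy i (h hi))] with y hy _ using hy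
    · exact Eventually.of_forall fun y h' => absurd h' h
  have hN' := hS.1.quasiMeasurePreserving.ae hN
  set N : Set Ω := {x | ∀ K K' c : Finset κ, K ⊆ K' →
      ((μ[(cell t K' c).indicator fun _ => (1 : ℂ) | I]) (a1 x)).re ≤
        ((μ[(cell t K c).indicator fun _ => (1 : ℂ) | I]) (a1 x)).re} with hNd
  have hbad : μ' (N ∩ {x | ¬ (t (a1 x) = t' (a2 x) → a1 x ∈ At I μ t)}) = 0 := by
    have hb : ∀ n : ℕ, μ' (N ∩ {x | ¬ (t (a1 x) = t' (a2 x) → a1 x ∈ At I μ t)}) ≤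
        ENNReal.ofReal (1 / ((n : ℝ) + 1)) := by
      intro n
      set S : Finset κ → Set Ω := fun K => N ∩ {x | t (a1 x) = t' (a2 x) ∧ ∃ c,
        a1 x ∈ cell t K c ∧
          ((μ[(cell t K c).indicator fun _ => (1 : ℂ) | I]) (a1 x)).re < 1 / ((n : ℝ) + 1)} with hSd
      have hm : Monotone S := by
        rintro K K' hK x ⟨h0, h1, c, h2, h3⟩
        have h4 : a1 x ∈ cell t K' (K'.filter (t (a1 x))) := fun i hi => by simp [hi]
        have h5 : a1 x ∈ cell t K (K'.filter (t (a1 x))) := fun i hi => h4 i (hK hi)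
        refine ⟨h0, h1, _, h4, lt_of_le_of_lt (h0 K K' _ hK) ?_⟩
        rw [← At1.cell_congr t h2 h5]
        exact h3
      have hsub : N ∩ {x | ¬ (t (a1 x) = t' (a2 x) → a1 x ∈ At I μ t)} ⊆ ⋃ K, S K := by
        rintro x ⟨h0, h1⟩
        have h2 : t (a1 x) = t' (a2 x) := by
          by_contra h
          exact h1 fun h' => absurd h' h
        have h3 : ¬ ∀ K c : Finset κ, a1 x ∈ cell t K c → 1 / ((n : ℝ) + 1) ≤
            ((μ[(cell t K c).indicator fun _ => (1 : ℂ) | I]) (a1 x)).re :=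
          fun h => h1 fun _ => ⟨n, h⟩
        push Not at h3
        obtain ⟨K, c, h4, h5⟩ := h3
        exact Set.mem_iUnion.2 ⟨K, h0, h2, c, h4, h5⟩
      refine (measure_mono hsub).trans ?_
      rw [hm.directed_le.measure_iUnion]
      refine iSup_le fun K => (measure_mono Set.inter_subset_right).trans ?_
      rw [← ofReal_measureReal]
      exact ENNReal.ofReal_le_ofReal
        (At1.level I μ μ' a1 a2 t t' hI ht ht' hS _ (by positivity) K)
    have hl : Tendsto (fun n : ℕ => ENNReal.ofReal (1 / ((n : ℝ) + 1))) atTop (𝓝 0) := by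
      simpa using ENNReal.tendsto_ofReal tendsto_one_div_add_atTop_nhds_zero_nat
    exact le_antisymm (ge_of_tendsto' hl hb) bot_le
  filter_upwards [hN', measure_eq_zero_iff_ae_notMem.1 hbad] with x h1 h2
  by_contra h3
  exact h2 ⟨h1, h3⟩

end T4x

end

end PkGAt1

section PkGBun

/-! The bundle of groups over the extension. -/

set_option autoImplicit false
set_option linter.unusedVariables false
set_option warn.classDefReducibility false

open MeasureTheory ProbabilityTheory Filter Topology Function Finset ComplexConjugate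
open scoped BigOperators
open Fib27 (BM sup pr Oc Orow F23 LInd Mem)
open Pool.Agent.MP_154433_an.SG (Uni ufn)

noncomputable section

namespace T4x

open T3x

variable [Grp]

namespace GBun

/-- the context over the extension -/
abbrev ctx1 (c : Ctx) (H : c.Hat) (L2 : Ln c.ν c.U H.L1.W) (Bc : c.ι → L2.W.X → H.L1.W.X)
    (lift : ∀ j, IsLift L2 H.L1 (H.L1.π (c.sl j)) (Bc j)) : Ctx :=
  { ν := c.ν, U := c.U, hU := c.hU, erg := c.erg, spr := c.spr, ι := c.ι, sl := c.sl, nrm := c.nrm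
    three := c.three, ind := c.ind, X := H.X1, B := H.B1, nice := H.adm.nice, kc := H.adm.kc
    L := H.L1, L2 := L2, Bc := Bc, lift := lift }

variable {c : Ctx} {V : Type}

def FF (H : c.Hat) (ψ : V → H.X1.X → ℂ) (v : c.ι → V) : H.L1.W.X → ℂ :=
  fun w => ∏ k, ψ (v k) (H.π k w)

def TT (H : c.Hat) (ψ : V → H.X1.X → ℂ) (v : c.ι → V) : Set H.L1.W.X :=
  Th (H.L1.B2 H.B1) H.L1.W.μ (FF H ψ v)

lemma ufn_bm {X : Sys} (g : Uni X.X) : BM X.μ X.ms (ufn g) :=
  ⟨(show Measurable (ufn g) from g.2).aestronglyMeasurable, 1,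
    Eventually.of_forall fun x => (Circle.norm_coe (g.1 x)).le⟩

/-- functions on `X` seen from the line over the extension in two ways -/
lemma sq_fun (hf : Fd) (hx : CtxC c) {H : c.Hat} (ht : HtC H) (k : c.ι) {f : c.X.X → ℂ}
    (h : AEStronglyMeasurable f c.X.μ) :
    ∀ᵐ w ∂H.L1.W.μ, f (c.π k (H.Lp w)) = f (H.p (H.π k w)) :=
  hf.a.keq_fun c.X.ms H.L1.W.μ c.X.μ (c.π k ∘ H.Lp) (H.p ∘ H.π k) f
    ((hx.embπ k).mp.comp ht.embL.mp) (ht.embp.mp.comp (ht.embπ k).mp) (ht.sq k) h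

/-- a tuple downstairs gives a tuple upstairs where the functions agree -/
lemma tup (hf : Fd) (hr : Rc) (hx : CtxC c) {H : c.Hat} (ht : HtC H) (ψ : V → H.X1.X → ℂ)
    (hβ : H.L1.B2 H.B1 ≤ H.L1.W.ms)
    (pre : ∀ k (A : Set H.X1.X), MeasurableSet[H.B1] A → MeasurableSet[H.L1.B2 H.B1] (H.π k ⁻¹' A))
    (g : c.ι → Uni c.X.X) (hg : Um c.W.ms c.W.μ (pr (c.up g) univ)) (v : c.ι → V)
    (hv : Um H.L1.W.ms H.L1.W.μ (FF H ψ v)) (A : c.ι → Set H.X1.X)
    (hA : ∀ i, MeasurableSet[H.B1] (A i)) (hon : ∀ i x, x ∈ A i → ψ (v i) x = ufn (g i) (H.p x)) :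
    ∀ᵐ w ∂H.L1.W.μ, H.Lp w ∈ c.Θ (c.up g) → (∀ i, H.π i w ∈ A i) → w ∈ TT H ψ v := by
  have b1 : BM c.W.μ c.B2 (c.W.μ[pr (c.up g) univ | c.B2]) := (BM.of_uni hg.1 hg.2).ce _
  have b2 := (hf.a.bm_comp c.B2 H.L1.W.μ c.W.μ H.Lp _ ht.embL.mp b1).mono ht.b2
  have m1 : MeasurableSet[H.L1.B2 H.B1] (H.Lp ⁻¹' c.Θ (c.up g)) :=
    (le_sup_left.trans ht.b2 :) _ ⟨_, hr.meas c.B2 c.W.μ _, rfl⟩
  have m2 : MeasurableSet[H.L1.B2 H.B1] (⋂ i, H.π i ⁻¹' A i) :=
    MeasurableSet.iInter fun i => pre i _ (hA i)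
  have k1 := ht.embL.mp.quasiMeasurePreserving.ae (hr.eq c.B2 c.W.μ _ hx.kc2.1.le hg)
  have k2 : ∀ᵐ w ∂H.L1.W.μ, ∀ i, ufn (g i) (c.π i (H.Lp w)) = ufn (g i) (H.p (H.π i w)) :=
    ae_all_iff.2 fun i => sq_fun hf hx ht i (ufn_bm (g i)).1
  have key := hr.of (H.L1.B2 H.B1) H.L1.W.μ (FF H ψ v) _ _ hβ hv b2 (m1.inter m2) (by
    filter_upwards [k1, k2] with w h1 h2 hw
    rw [← h1 hw.1]
    exact Finset.prod_congr rfl fun i _ => (hon i _ (Set.mem_iInter.1 hw.2 i)).trans (h2 i).symm)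
  filter_upwards [key] with w hw h1 h2
  exact hw ⟨h1, Set.mem_iInter.2 h2⟩

/-- nontriviality passes to the extension -/
lemma nt (hf : Fd) (hr : Rc) (hx : CtxC c) {H : c.Hat} (ht : HtC H) (φ : H.X1.X → ℂ)
    (hφ : BM H.X1.μ H.X1.ms φ) (g : Uni c.X.X) (A : Set H.X1.X) (hA : MeasurableSet[H.B1] A)
    (hon : ∀ x, x ∈ A → φ x = ufn g (H.p x)) (j : c.ι) :
    ∀ᵐ w ∂H.L1.W.μ, H.π j w ∈ A → H.Lp w ∈ c.Nt j (ufn g) →
      ‖(H.X1.μ[φ | H.B1]) (H.π j w)‖ ≠ 1 := by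
  have b1 : BM H.X1.μ H.X1.ms fun x => ufn g (H.p x) :=
    (hf.a.bm_comp c.X.ms H.X1.μ c.X.μ H.p _ ht.embp.mp (ufn_bm g)).mono
      (hf.a.pull_le c.X.ms H.X1.μ c.X.μ H.p ht.embp.mp le_rfl)
  have k1 := hr.loc H.B1 H.X1.μ φ _ (fun _ => 1) A ht.fac1.le hφ b1 (BM.const 1) hA
    (Eventually.of_forall fun x hx => by rw [one_mul, hon x hx])
  have k2 := ht.ce _ (ufn_bm g)
  have k3 := sq_fun hf hx ht j (f := c.X.μ[ufn g | c.B])
    (stronglyMeasurable_condExp.mono hx.facB.le).aestronglyMeasurable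
  filter_upwards [(ht.embπ j).mp.quasiMeasurePreserving.ae k1,
    (ht.embπ j).mp.quasiMeasurePreserving.ae k2, k3] with w h1 h2 h3 hw hn
  rw [h1 hw, one_mul, h2, ← h3]
  exact hn

lemma mem_zv {𝒱 : Subgroup (Uni c.X.X)} {q : c.ι} {g : Uni c.X.X} {w : c.W.X} :
    w ∈ c.ZV 𝒱 q g ↔ ∃ g' : c.ι → Uni c.X.X, (∀ k, g' k ∈ 𝒱) ∧ g' q = g ∧ w ∈ c.Θ (c.up g') := by
  simp only [Ctx.ZV, Set.mem_iUnion, Set.mem_ofPred_eq, exists_prop, and_assoc]

/-- a subgroup that contains the generators is everything -/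
lemma all_of_gen {κ ι : Type} (q : ι) (P : (ι → κ →₀ ℤ) → Prop) (h0 : P 0)
    (hs : ∀ v v', P v → P v' → P (v - v'))
    (hg : ∀ h : κ, ∃ v, v q = Finsupp.single h 1 ∧ P v) (x : κ →₀ ℤ) : ∃ v, v q = x ∧ P v := by
  let S : AddSubgroup (κ →₀ ℤ) := AddSubgroup.ofSub {x | ∃ v, v q = x ∧ P v} ⟨0, 0, rfl, h0⟩ (by
    rintro _ ⟨v, rfl, h1⟩ _ ⟨v', rfl, h2⟩
    exact ⟨v - v', by simp [sub_eq_add_neg], hs v v' h1 h2⟩)
  have key : x ∈ S := by
    induction x using Finsupp.induction_linear with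
    | zero => exact S.zero_mem
    | add a b ha hb => exact S.add_mem ha hb
    | single a n =>
      have e : Finsupp.single a n = n • Finsupp.single a (1 : ℤ) := by simp
      rw [e]
      exact S.zsmul_mem (hg a) n
  exact key

end GBun

open GBun in
theorem xBunB : BunB := by
  intro gc zc hf hr _ hps _ c H 𝒱 s g j k hgi hex hty hg hpos
  have hx := gc.ctx c
  have hz := zc.zv c 𝒱 s hex
  have ht := zc.ht c H
  have hcnt : Countable 𝒱 := hex.cnt
  obtain ⟨L2⟩ := hf.line c.ν c.U H.L1.W H.L1.nice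
  choose Bc lift using fun i : c.ι => hf.la.ex L2 H.L1 (H.L1.π (c.sl i)) (H.L1.emb _)
  obtain ⟨HH, sg, ψ, hHH, mHH, hψ, hon, hoff⟩ := hps hf hr c H 𝒱 s (g k) hgi hex (hg k)
  refine ⟨ctx1 c H L2 Bc lift, 𝒱 →₀ ℤ, inferInstance, inferInstance, sg, ψ, hψ, ?_⟩
  have hx1 := gc.ctx (ctx1 c H L2 Bc lift)
  have hff := gc.ff (ctx1 c H L2 Bc lift) (𝒱 →₀ ℤ) sg ψ hψ
  have hβ : H.L1.B2 H.B1 ≤ H.L1.W.ms := hx1.kc2.1.le
  have pre : ∀ i (A : Set H.X1.X), MeasurableSet[H.B1] A →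
      MeasurableSet[H.L1.B2 H.B1] (H.π i ⁻¹' A) := fun i A hA => hx1.le2 _ (hx1.pre i A hA)
  have um : ∀ v, Um H.L1.W.ms H.L1.W.μ (FF H ψ v) := hff.um
  have t0 : ∀ᵐ w ∂H.L1.W.μ, w ∈ TT H ψ 0 := hff.t0
  have tsub : ∀ᵐ w ∂H.L1.W.μ, ∀ v v', w ∈ TT H ψ v → w ∈ TT H ψ v' → w ∈ TT H ψ (v - v') :=
    hff.tsub
  have sing : ∀ i a, FF H ψ (Pi.single i a) =ᵐ[H.L1.W.μ] fun w => ψ a (H.π i w) := hff.single
  have fA : ∀ᵐ w ∂H.L1.W.μ, ∀ i a, H.τ 𝒱 (g k) (H.p2 (H.π i w)) a ↔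
      H.τ 𝒱 (g k) (H.p2 (H.π j w)) a :=
    ae_all_iff.2 fun i => ae_all_iff.2 fun a => eventuallyEq_set.1
      (ht.frz i j _ ((H.rp.emb a).mp.measurable (hx.kc2.1.le _ (hz.meas a.2 (g k)))))
  have fB : ∀ᵐ w ∂H.L1.W.μ, ∀ (g' : c.ι → 𝒱) (i i' : c.ι), H.Lp w ∈ c.Θ (c.up fun n => (g' n).1) →
      H.τ 𝒱 (g' i).1 (H.p1 (H.π i w)) = H.τ 𝒱 (g' i').1 (H.p1 (H.π i' w)) :=
    ae_all_iff.2 fun g' => ae_all_iff.2 fun i => ae_all_iff.2 fun i' =>
      hty.ta (fun n => (g' n).1) i i' fun n => (g' n).2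
  have fC : ∀ᵐ w ∂H.L1.W.μ, ∀ (q : c.ι) (h : 𝒱),
      (∀ i, H.τ 𝒱 (g q) (H.p1 (H.π q w)) (i, q) → H.τ 𝒱 h.1 (H.p1 (H.π q w)) (i, q)) →
        H.Lp w ∈ c.ZV 𝒱 q (g q) → H.Lp w ∈ c.ZV 𝒱 q h.1 :=
    ae_all_iff.2 fun q => ae_all_iff.2 fun h => hty.tb q h.1 h.2 (g q) (hg q)
  have fD := hty.tc j (g j) (hg j)
  have fT : ∀ᵐ w ∂H.L1.W.μ, ∀ g' : c.ι → 𝒱, H.Lp w ∈ c.Θ (c.up fun n => (g' n).1) →
      (∀ i, H.π i w ∈ HH (g' i)) → w ∈ TT H ψ fun i => Finsupp.single (g' i) 1 :=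
    ae_all_iff.2 fun g' => tup hf hr hx ht ψ hβ pre _ (hz.umP _) _ (um _) (fun i => HH (g' i))
      (fun i => mHH _) fun i x h => hon _ x h
  have fO : ∀ᵐ w ∂H.L1.W.μ, ∀ (q : c.ι) (h : 𝒱), H.π q w ∉ HH h →
      w ∈ TT H ψ (Pi.single q (Finsupp.single h 1)) :=
    ae_all_iff.2 fun q => ae_all_iff.2 fun h =>
      hr.of (H.L1.B2 H.B1) H.L1.W.μ (FF H ψ _) (fun _ => 1) (H.π q ⁻¹' (HH h)ᶜ) hβ (um _)
        (BM.const 1) (pre q _ (mHH h).compl)
        ((sing q _).mono fun w hw hq => hw.trans (hoff h _ hq))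
  have fN := nt hf hr hx ht (ψ (Finsupp.single ⟨g j, hg j⟩ 1))
    (BM.of_uni (hψ.um _).1 (hψ.um _).2) (g j) (HH ⟨g j, hg j⟩) (mHH _) (fun x h => hon _ x h) j
  refine ⟨fun i => Finsupp.single ⟨g i, hg i⟩ 1, j, fun h0 => hpos (measure_mono_null_ae ?_ h0)⟩
  filter_upwards [t0, tsub, fA, fB, fC, fD, fT, fO, fN] with w t0 tsub fA fB fC fD fT fO fN hw
  obtain ⟨⟨w1, w2⟩, w3⟩ := hw
  have zq : ∀ q, H.Lp w ∈ c.ZV 𝒱 q (g q) := fun q => mem_zv.2 ⟨g, hg, rfl, w1⟩
  have e1 : ∀ i, H.τ 𝒱 (g i) (H.p1 (H.π i w)) = H.τ 𝒱 (g k) (H.p2 (H.π j w)) :=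
    fun i => (fB (fun n => ⟨g n, hg n⟩) i j w1).trans w3
  obtain ⟨i0, hi0⟩ := fD (zq j)
  rw [w3] at hi0
  have mem : ∀ i (h : 𝒱), H.π i w ∈ HH h ↔
      ∀ a, H.τ 𝒱 (g k) (H.p2 (H.π j w)) a → H.τ 𝒱 h.1 (H.p1 (H.π i w)) a := by
    intro i h
    rw [hHH]
    simp only [fA i]
    exact and_iff_right ⟨_, hi0⟩
  have m1 : ∀ i, H.π i w ∈ HH ⟨g i, hg i⟩ := fun i => (mem i _).2 fun a ha => by
    rw [← e1 i] at ha
    exact ha
  refine ⟨⟨?_, fT (fun n => ⟨g n, hg n⟩) w1 m1⟩, fN (m1 j) w2⟩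
  refine Set.mem_iInter.2 fun q => Set.mem_iInter.2 fun x => ?_
  obtain ⟨v, hv1, hv2⟩ := all_of_gen q (fun v => w ∈ TT H ψ v) t0 tsub (fun h => by
    by_cases hq : H.π q w ∈ HH h
    · have h1 := (mem q h).1 hq
      obtain ⟨g', hg', e', h2⟩ := mem_zv.1 (fC q h (fun i hi => h1 _ (by rwa [e1 q] at hi)) (zq q))
      have e2 : (⟨g' q, hg' q⟩ : 𝒱) = h := Subtype.ext e'
      refine ⟨fun i => Finsupp.single ⟨g' i, hg' i⟩ 1, by simp only [e2],
        fT (fun n => ⟨g' n, hg' n⟩) h2 fun i => (mem i _).2 fun a ha => ?_⟩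
      rw [fB (fun n => ⟨g' n, hg' n⟩) i q h2, e2]
      exact h1 a ha
    · exact ⟨_, Pi.single_eq_same _ _, fO q h hq⟩) x
  exact Set.mem_biUnion hv1 hv2

end T4x

end

end PkGBun

section PkGDec

/-! Decay of the approximate relations along a direction (row GDec). -/

set_option autoImplicit false
set_option linter.unusedVariables false
set_option warn.classDefReducibility false

open MeasureTheory ProbabilityTheory Filter Topology Function Finset ComplexConjugate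
open scoped BigOperators
open Fib27 (BM sup pr)

noncomputable section

namespace T4x

open T3x

namespace GDec

theorem real_le {Ω : Type} {m0 : MeasurableSpace Ω} (μ : Measure Ω) [IsProbabilityMeasure μ]
    (A : Set Ω) (hA : MeasurableSet A) (g : Ω → ℂ) (hg : BM μ m0 g)
    (h : ∀ᵐ x ∂μ, x ∈ A → ‖g x‖ = 1) : μ.real A ≤ ∫ x, ‖g x‖ ∂μ := by
  rw [← integral_indicator_one hA]
  refine integral_mono_ae ((integrable_const (1 : ℝ)).indicator hA) hg.integrable.norm ?_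
  filter_upwards [h] with x hx
  by_cases hxA : x ∈ A
  · rw [Set.indicator_of_mem hxA, hx hxA]; rfl
  · rw [Set.indicator_of_notMem hxA]; exact norm_nonneg _

variable [Grp]

variable {X : Sys} {B : MeasurableSpace X.X} {V : Type} [AddCommGroup V] {sg : Γ →+ AddAut V}
  {ψ : V → X.X → ℂ}

/-- the part of `ψ a` off the trivial set -/
def off (B : MeasurableSpace X.X) (ψ : V → X.X → ℂ) (a : V) : X.X → ℂ :=
  (Th B X.μ (ψ a))ᶜ.indicator (ψ a)

omit [AddCommGroup V] in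
theorem off_eq (a : V) : off B ψ a =
    fun x => (Th B X.μ (ψ a))ᶜ.indicator (fun _ => (1 : ℂ)) x * ψ a x := by
  funext x
  unfold off
  by_cases h : x ∈ (Th B X.μ (ψ a))ᶜ
  · rw [Set.indicator_of_mem h, Set.indicator_of_mem h, one_mul]
  · rw [Set.indicator_of_notMem h, Set.indicator_of_notMem h, zero_mul]

omit [AddCommGroup V] in
theorem ind_bm (R : Rc) (a : V) :
    BM X.μ B ((Th B X.μ (ψ a))ᶜ.indicator fun _ => (1 : ℂ)) :=
  Fib27.BM.indicator (R.meas B X.μ (ψ a)).compl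

theorem off_bm (R : Rc) (hB : Fac X B) (P : PsC X B sg ψ) (a : V) : BM X.μ X.ms (off B ψ a) := by
  rw [off_eq]
  exact ((ind_bm R a).mono hB.le).mul (P.bm a)

theorem off_sh (P : PsC X B sg ψ) (n : Γ) (a : V) :
    (fun y => off B ψ a (X.Tz n y)) =ᵐ[X.μ] off B ψ (sg n a) := by
  filter_upwards [P.shz n a, P.nsh n a] with y h1 h2
  unfold off
  by_cases h : y ∈ Th B X.μ (ψ (sg n a))
  · rw [Set.indicator_of_notMem (show X.Tz n y ∉ (Th B X.μ (ψ a))ᶜ from fun h' => h' (h2.1 h)),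
      Set.indicator_of_notMem (show y ∉ (Th B X.μ (ψ (sg n a)))ᶜ from fun h' => h' h)]
  · rw [Set.indicator_of_mem (show X.Tz n y ∈ (Th B X.μ (ψ a))ᶜ from fun h' => h (h2.2 h')),
      Set.indicator_of_mem (show y ∈ (Th B X.μ (ψ (sg n a)))ᶜ from h), h1]

theorem one (R : Rc) (hB : Fac X B) (P : PsC X B sg ψ) (b a' : V) :
    X.μ.real (Th B X.μ (ψ (b - a')) \ Th B X.μ (ψ a')) ≤
      ∫ x, ‖(X.μ[fun y => off B ψ b y * conj (ψ a' y) | B]) x‖ ∂X.μ := by
  have b1 := (off_bm R hB P b).mul (P.bm a').conj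
  refine real_le X.μ _ (hB.le _ ((R.meas B X.μ _).diff (R.meas B X.μ _))) _
    ((b1.ce B).mono hB.le) ?_
  have e1 : (fun y => off B ψ b y * conj (ψ a' y)) =ᵐ[X.μ]
      fun y => (Th B X.μ (ψ b))ᶜ.indicator (fun _ => (1 : ℂ)) y * ψ (b - a') y := by
    filter_upwards [P.sub b a'] with y hy
    rw [off_eq, hy, mul_assoc]
  filter_upwards [condExp_congr_ae (m := B) e1, Fib27.ce_mul hB.le (ind_bm R b) (P.bm (b - a')),
    P.nsub b (b - a')] with x h1 h2 h3 hx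
  have hb : x ∈ (Th B X.μ (ψ b))ᶜ := fun h => hx.2 (by
    have := h3 h hx.1
    rwa [sub_sub_cancel] at this)
  rw [h1, h2, Set.indicator_of_mem hb, one_mul]
  exact hx.1

theorem two (R : Rc) (hB : Fac X B) (P : PsC X B sg ψ) (n : Γ) (a a' : V) :
    X.μ.real (Th B X.μ (ψ (sg n a - a')) \ Th B X.μ (ψ a')) ≤
      ∫ x, ‖(X.μ[fun y => off B ψ a (X.Tz n y) * conj (ψ a' y) | B]) x‖ ∂X.μ := by
  refine (one R hB P _ a').trans (le_of_eq (integral_congr_ae ?_))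
  have e1 : (fun y => off B ψ a (X.Tz n y) * conj (ψ a' y)) =ᵐ[X.μ]
      fun y => off B ψ (sg n a) y * conj (ψ a' y) := by
    filter_upwards [off_sh P n a] with y hy
    rw [hy]
  filter_upwards [condExp_congr_ae (m := B) e1] with x hx
  rw [hx]

end GDec

open GDec

variable [Grp]

theorem xDec : DecS := by
  intro F R G X B V _ sg ψ hX hB hψ u hu a a'
  have P := G.ps X B V sg ψ hB.1 hψ
  have e : KK X u B = B := le_antisymm (hB.2 u hu) (F.kb.le X u B hX hB.1)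
  have b := off_bm R hB.1 P a
  have w : WM X u B (off B ψ a) :=
    (F.kb.wm X u B hX hB.1 _ (b.memLp 2)).2 (by rw [e]; exact P.off a)
  refine squeeze_zero (fun N => ?_) (fun N => ?_) (w.2 _ (P.bm a').conj)
  · exact mul_nonneg (inv_nonneg.2 (Nat.cast_nonneg N)) (sum_nonneg fun n _ => measureReal_nonneg)
  · exact mul_le_mul_of_nonneg_left (sum_le_sum fun n _ => two R hB.1 P _ a a')
      (inv_nonneg.2 (Nat.cast_nonneg N))

end T4x

end

end PkGDec
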