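import Pool.Agent.MP_154433_an.t4.SpecG

/-! Rows for commuting maps, part G2. -/

section PkGAt2

/-! Atoms of types: two algebras with commuting projections, and atoms are met. -/

set_option autoImplicit false
set_option linter.unusedVariables false
set_option linter.unusedSectionVars false
set_option warn.classDefReducibility false

open MeasureTheory ProbabilityTheory Filter Topology Function Finset ComplexConjugate
open scoped BigOperators
open Fib27 (BM sup pr Oc Orow F23 LInd Mem)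

noncomputable section

namespace T4x

open T3x

namespace At2

/-- the real conditional probability of a set -/
def rr {Y : Type} (I : MeasurableSpace Y) {m0 : MeasurableSpace Y} (μ : Measure Y) (A : Set Y) :
    Y → ℝ := μ[A.indicator fun _ => (1 : ℝ) | I]

section basic

variable {Y : Type} (I I' J : MeasurableSpace Y) {m0 : MeasurableSpace Y} (μ : Measure Y)
  [IsProbabilityMeasure μ]

theorem int_ind {A : Set Y} (hA : MeasurableSet A) :
    Integrable (A.indicator fun _ => (1 : ℝ)) μ := (integrable_const (1 : ℝ)).indicator hA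

theorem ind_eq (A : Set Y) :
    (A.indicator fun _ => (1 : ℂ)) = Complex.ofRealCLM ∘ (A.indicator fun _ => (1 : ℝ)) := by
  funext y
  by_cases h : y ∈ A <;> simp [h]

theorem cre {A : Set Y} (hA : MeasurableSet A) :
    μ[A.indicator fun _ => (1 : ℂ) | I] =ᵐ[μ] fun y => ((rr I μ A y : ℝ) : ℂ) := by
  rw [ind_eq]
  exact (Complex.ofRealCLM.comp_condExp_comm (int_ind μ hA) (m := I)).symm

theorem rr_nonneg (A : Set Y) : 0 ≤ᵐ[μ] rr I μ A :=
  condExp_nonneg (Eventually.of_forall fun y => Set.indicator_nonneg (fun _ _ => zero_le_one) y)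

theorem rr_le_one (hI : I ≤ m0) {A : Set Y} (hA : MeasurableSet A) :
    ∀ᵐ y ∂μ, rr I μ A y ≤ 1 := by
  have h1 : μ[A.indicator fun _ => (1 : ℝ) | I] ≤ᵐ[μ] μ[fun _ => (1 : ℝ) | I] :=
    condExp_mono (int_ind μ hA) (integrable_const 1)
      (Eventually.of_forall fun y => Set.indicator_le_self' (fun _ _ => zero_le_one) y)
  rw [condExp_const hI] at h1
  exact h1

theorem rr_mono {A B : Set Y} (hA : MeasurableSet A) (hB : MeasurableSet B) (h : A ⊆ B) :
    rr I μ A ≤ᵐ[μ] rr I μ B :=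
  condExp_mono (int_ind μ hA) (int_ind μ hB)
    (Eventually.of_forall fun y =>
      Set.indicator_le_indicator_of_subset h (fun _ => zero_le_one) y)

theorem rr_int (A : Set Y) : Integrable (rr I μ A) μ := integrable_condExp

theorem rr_sm (A : Set Y) : StronglyMeasurable[I] (rr I μ A) := stronglyMeasurable_condExp

theorem rr_integral (hI : I ≤ m0) {A : Set Y} (hA : MeasurableSet A) :
    ∫ y, rr I μ A y ∂μ = μ.real A := by
  unfold rr
  rw [integral_condExp hI, integral_indicator hA]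
  simp

theorem bm_ind {A : Set Y} (hA : MeasurableSet A) : BM μ m0 (A.indicator fun _ => (1 : ℂ)) := by
  refine ⟨(stronglyMeasurable_const.indicator hA).aestronglyMeasurable, 1,
    Eventually.of_forall fun y => ?_⟩
  by_cases h : y ∈ A <;> simp [h]

theorem int_mul {g f : Y → ℝ} (hg : AEStronglyMeasurable g μ) (hb : ∀ᵐ y ∂μ, ‖g y‖ ≤ 1)
    (hf : Integrable f μ) : Integrable (g * f) μ := hf.bdd_mul hg hb

/-- pulling a bounded factor through the projection -/
theorem pull_int (hI : I ≤ m0) {g f : Y → ℝ} (hg : StronglyMeasurable[I] g)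
    (hb : ∀ᵐ y ∂μ, ‖g y‖ ≤ 1) (hf : Integrable f μ) :
    ∫ y, g y * f y ∂μ = ∫ y, g y * (μ[f | I]) y ∂μ := by
  have hi : Integrable (g * f) μ := int_mul μ (hg.mono hI).aestronglyMeasurable hb hf
  have h1 : ∫ y, (μ[g * f | I]) y ∂μ = ∫ y, (g * f) y ∂μ := integral_condExp hI
  have h2 := integral_congr_ae (condExp_mul_of_stronglyMeasurable_left hg hi hf)
  exact (h1.symm.trans h2)

theorem rr_norm (hI : I ≤ m0) {A : Set Y} (hA : MeasurableSet A) :
    ∀ᵐ y ∂μ, ‖rr I μ A y‖ ≤ 1 := by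
  filter_upwards [rr_nonneg I μ A, rr_le_one I μ hI hA] with y h0 h1
  rw [Real.norm_eq_abs, abs_of_nonneg h0]
  exact h1

/-- the real form of the commuting projections -/
theorem rr_comm (hc : ∀ f : Y → ℂ, BM μ m0 f → μ[μ[f | I] | I'] =ᵐ[μ] μ[f | J])
    {A : Set Y} (hA : MeasurableSet A) : μ[rr I μ A | I'] =ᵐ[μ] rr J μ A := by
  have h1 := Complex.ofRealCLM.comp_condExp_comm (rr_int I μ A) (m := I')
  have h2 : μ[Complex.ofRealCLM ∘ rr I μ A | I'] =ᵐ[μ]
      μ[μ[A.indicator fun _ => (1 : ℂ) | I] | I'] := condExp_congr_ae (cre I μ hA).symm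
  have h3 := hc _ (bm_ind μ hA)
  filter_upwards [h1, h2, h3, cre J μ hA] with y a1 a2 a3 a4
  have : (((μ[rr I μ A | I']) y : ℝ) : ℂ) = ((rr J μ A y : ℝ) : ℂ) :=
    a1.trans (a2.trans (a3.trans a4))
  exact Complex.ofReal_injective this

/-- the estimate on one set -/
theorem one_set (hI : I ≤ m0) (hI' : I' ≤ m0) (hJ : J ≤ I')
    (hc : ∀ f : Y → ℂ, BM μ m0 f → μ[μ[f | I] | I'] =ᵐ[μ] μ[f | J])
    {A : Set Y} (hA : MeasurableSet A) {ε η : ℝ} (hε : 0 < ε) (hη : 0 < η) :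
    ε ^ 2 * μ.real {y | ε ≤ rr I μ A y ∧ ε ≤ rr I' μ A y ∧ rr J μ A y < η} ≤ η * μ.real A := by
  have hD : MeasurableSet[J] {y | rr J μ A y < η} :=
    (rr_sm J μ A).measurable measurableSet_Iio
  have hE : MeasurableSet {y | ε ≤ rr I μ A y ∧ ε ≤ rr I' μ A y ∧ rr J μ A y < η} :=
    (hI _ ((rr_sm I μ A).measurable measurableSet_Ici)).inter
      ((hI' _ ((rr_sm I' μ A).measurable measurableSet_Ici)).inter (hI' _ (hJ _ hD)))
  have hg : StronglyMeasurable[I'] ({y | rr J μ A y < η}.indicator (rr I' μ A)) :=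
    (rr_sm I' μ A).indicator (hJ _ hD)
  have hb : ∀ᵐ y ∂μ, ‖{y | rr J μ A y < η}.indicator (rr I' μ A) y‖ ≤ 1 := by
    filter_upwards [rr_norm I' μ hI' hA] with y hy
    exact (norm_indicator_le_norm_self _ _).trans hy
  have h1 := pull_int I' μ hI' hg hb (rr_int I μ A)
  have h2 : ∫ y, {y | rr J μ A y < η}.indicator (rr I' μ A) y * (μ[rr I μ A | I']) y ∂μ ≤
      ∫ y, η * rr I' μ A y ∂μ := by
    refine integral_mono_ae
      (int_mul μ (hg.mono hI').aestronglyMeasurable hb integrable_condExp)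
      ((rr_int I' μ A).const_mul η) ?_
    filter_upwards [rr_comm I I' J μ hc hA, rr_nonneg I' μ A] with y a1 a2
    have a2' : 0 ≤ rr I' μ A y := a2
    show {y | rr J μ A y < η}.indicator (rr I' μ A) y * (μ[rr I μ A | I']) y ≤ η * rr I' μ A y
    rw [a1]
    by_cases h : y ∈ {y | rr J μ A y < η}
    · rw [Set.indicator_of_mem h]
      have h' : rr J μ A y < η := h
      nlinarith
    · rw [Set.indicator_of_notMem h, zero_mul]
      positivity
  have h3 : ∫ y, {y | ε ≤ rr I μ A y ∧ ε ≤ rr I' μ A y ∧ rr J μ A y < η}.indicator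
      (fun _ => ε ^ 2) y ∂μ ≤
      ∫ y, {y | rr J μ A y < η}.indicator (rr I' μ A) y * rr I μ A y ∂μ := by
    refine integral_mono_ae ((integrable_const _).indicator hE)
      (int_mul μ (hg.mono hI').aestronglyMeasurable hb (rr_int I μ A)) ?_
    filter_upwards [rr_nonneg I μ A, rr_nonneg I' μ A] with y a1 a2
    have a1' : 0 ≤ rr I μ A y := a1
    have a2' : 0 ≤ rr I' μ A y := a2
    by_cases h : y ∈ {y | ε ≤ rr I μ A y ∧ ε ≤ rr I' μ A y ∧ rr J μ A y < η}
    · have h' : y ∈ {y | rr J μ A y < η} := h.2.2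
      rw [Set.indicator_of_mem h, Set.indicator_of_mem h', sq]
      exact mul_le_mul h.2.1 h.1 hε.le a2'
    · rw [Set.indicator_of_notMem h]
      exact mul_nonneg (Set.indicator_apply_nonneg fun _ => a2') a1'
  rw [integral_indicator hE] at h3
  rw [integral_const_mul, rr_integral I' μ hI' hA] at h2
  simp only [integral_const, smul_eq_mul, measureReal_restrict_apply_univ] at h3
  linarith

end basic

section cells

variable {Y κ : Type} (t : Y → κ → Prop)

theorem cell_meas {m0 : MeasurableSpace Y} (ht : ∀ i, MeasurableSet {y | t y i})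
    (K c : Finset κ) : MeasurableSet (cell t K c) := by
  have : cell t K c = ⋂ i ∈ K, {y | t y i ↔ i ∈ c} := by
    ext y
    simp [cell]
  rw [this]
  refine K.measurableSet_biInter fun i _ => ?_
  by_cases h : i ∈ c
  · simpa [h] using ht i
  · have := (ht i).compl
    simpa [h, Set.compl_setOf] using this

open Classical in
/-- the trace of the type on a finite set -/
def tr (K : Finset κ) (y : Y) : Finset κ := K.filter (t y)

theorem mem_tr (K : Finset κ) (y : Y) : y ∈ cell t K (tr t K y) := by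
  intro i hi
  simp [tr, hi]

theorem tr_mem (K : Finset κ) (y : Y) : tr t K y ∈ K.powerset := by
  rw [Finset.mem_powerset]
  intro i hi
  simp only [tr, Finset.mem_filter] at hi
  exact hi.1

theorem cell_sub {K K' c c' : Finset κ} (h : K ⊆ K') {y : Y} (hy : y ∈ cell t K c)
    (hy' : y ∈ cell t K' c') : cell t K' c' ⊆ cell t K c := fun z hz i hi =>
  (hz i (h hi)).trans ((hy' i (h hi)).symm.trans (hy i hi))

theorem cell_disj (K : Finset κ) : Set.PairwiseDisjoint (↑K.powerset : Set (Finset κ))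
    (fun c => cell t K c) := by
  intro c hc c' hc' hne
  refine Set.disjoint_left.2 fun y hy hy' => hne ?_
  have h1 : c ⊆ K := Finset.mem_powerset.1 hc
  have h2 : c' ⊆ K := Finset.mem_powerset.1 hc'
  ext i
  exact ⟨fun h => (hy' i (h1 h)).1 ((hy i (h1 h)).2 h),
    fun h => (hy i (h2 h)).1 ((hy' i (h2 h)).2 h)⟩

end cells

section main

variable {Y κ : Type} [Countable κ] (I I' J : MeasurableSpace Y) {m0 : MeasurableSpace Y}
  (μ : Measure Y) [IsProbabilityMeasure μ] (t : Y → κ → Prop)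

/-- the level set of the real conditional probabilities -/
def Lv (I : MeasurableSpace Y) {m0 : MeasurableSpace Y} (μ : Measure Y) (t : Y → κ → Prop)
    (ε : ℝ) : Set Y := {y | ∀ K c : Finset κ, y ∈ cell t K c → ε ≤ rr I μ (cell t K c) y}

theorem Lv_anti {ε ε' : ℝ} (h : ε ≤ ε') : Lv I μ t ε' ⊆ Lv I μ t ε :=
  fun y hy K c hc => h.trans (hy K c hc)

theorem Lv_meas (hI : I ≤ m0) (ht : ∀ i, MeasurableSet {y | t y i}) (ε : ℝ) :
    MeasurableSet (Lv I μ t ε) := by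
  have : Lv I μ t ε = ⋂ K : Finset κ, ⋂ c : Finset κ,
      ((cell t K c)ᶜ ∪ {y | ε ≤ rr I μ (cell t K c) y}) := by
    ext y
    simp only [Lv, Set.mem_setOf_eq, Set.mem_iInter, Set.mem_union, Set.mem_compl_iff,
      imp_iff_not_or]
  rw [this]
  exact MeasurableSet.iInter fun K => MeasurableSet.iInter fun c =>
    (cell_meas t ht K c).compl.union (hI _ ((rr_sm I μ _).measurable measurableSet_Ici))

theorem At_iff (ht : ∀ i, MeasurableSet {y | t y i}) :
    ∀ᵐ y ∂μ, (y ∈ At I μ t ↔ ∃ n : ℕ, y ∈ Lv I μ t (1 / ((n : ℝ) + 1))) := by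
  have h : ∀ᵐ y ∂μ, ∀ K c : Finset κ,
      (μ[(cell t K c).indicator fun _ => (1 : ℂ) | I]) y = ((rr I μ (cell t K c) y : ℝ) : ℂ) :=
    ae_all_iff.2 fun K => ae_all_iff.2 fun c => cre I μ (cell_meas t ht K c)
  filter_upwards [h] with y hy
  simp only [At, Lv, Set.mem_setOf_eq, hy, Complex.ofReal_re]

/-- the points that stay large over two algebras and get small over the third -/
theorem bad_le (hI : I ≤ m0) (hI' : I' ≤ m0) (hJ : J ≤ I')
    (hc : ∀ f : Y → ℂ, BM μ m0 f → μ[μ[f | I] | I'] =ᵐ[μ] μ[f | J])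
    (ht : ∀ i, MeasurableSet {y | t y i}) {ε η : ℝ} (hε : 0 < ε) (hη : 0 < η) :
    μ ((Lv I μ t ε ∩ Lv I' μ t ε) \ Lv J μ t η) ≤ ENNReal.ofReal (η / ε ^ 2) := by
  have hG : ∀ᵐ y ∂μ, ∀ K c K' c' : Finset κ, cell t K' c' ⊆ cell t K c →
      rr J μ (cell t K' c') y ≤ rr J μ (cell t K c) y := by
    refine ae_all_iff.2 fun K => ae_all_iff.2 fun c => ae_all_iff.2 fun K' =>
      ae_all_iff.2 fun c' => ?_
    by_cases h : cell t K' c' ⊆ cell t K c
    · filter_upwards [rr_mono J μ (cell_meas t ht K' c') (cell_meas t ht K c) h] with y hy _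
      exact hy
    · exact Eventually.of_forall fun y h' => absurd h' h
  let B : Finset κ → Set Y := fun K => {y | (∀ K c K' c' : Finset κ, cell t K' c' ⊆ cell t K c →
      rr J μ (cell t K' c') y ≤ rr J μ (cell t K c) y) ∧ y ∈ Lv I μ t ε ∧ y ∈ Lv I' μ t ε ∧
      rr J μ (cell t K (tr t K y)) y < η}
  have hmono : Monotone B := by
    intro K K' h y hy
    exact ⟨hy.1, hy.2.1, hy.2.2.1, lt_of_le_of_lt
      (hy.1 _ _ _ _ (cell_sub t h (mem_tr t K y) (mem_tr t K' y))) hy.2.2.2⟩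
  have hsub : ((Lv I μ t ε ∩ Lv I' μ t ε) \ Lv J μ t η : Set Y) ≤ᵐ[μ] (⋃ K, B K : Set Y) := by
    filter_upwards [hG] with y hy hy'
    obtain ⟨⟨h1, h2⟩, h3⟩ := hy'
    have h4 : ∃ K c : Finset κ, y ∈ cell t K c ∧ rr J μ (cell t K c) y < η := by
      by_contra hcon
      exact h3 fun K c hc' => not_lt.1 fun hlt => hcon ⟨K, c, hc', hlt⟩
    obtain ⟨K, c, h5, h6⟩ := h4
    exact Set.mem_iUnion.2 ⟨K, hy, h1, h2, lt_of_le_of_lt
      (hy _ _ _ _ (cell_sub t (Finset.Subset.refl K) h5 (mem_tr t K y))) h6⟩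
  refine (measure_mono_ae hsub).trans ?_
  rw [hmono.measure_iUnion]
  refine iSup_le fun K => ?_
  rw [ENNReal.le_ofReal_iff_toReal_le (measure_ne_top _ _) (by positivity), le_div_iff₀
    (by positivity)]
  have h1 : B K ⊆ ⋃ c ∈ K.powerset, {y | ε ≤ rr I μ (cell t K c) y ∧
      ε ≤ rr I' μ (cell t K c) y ∧ rr J μ (cell t K c) y < η} := fun y hy =>
    Set.mem_biUnion (tr_mem t K y)
      ⟨hy.2.1 _ _ (mem_tr t K y), hy.2.2.1 _ _ (mem_tr t K y), hy.2.2.2⟩
  have h2 : μ.real (B K) ≤ ∑ c ∈ K.powerset, μ.real {y | ε ≤ rr I μ (cell t K c) y ∧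
      ε ≤ rr I' μ (cell t K c) y ∧ rr J μ (cell t K c) y < η} :=
    (measureReal_mono h1 (measure_ne_top _ _)).trans (measureReal_biUnion_finset_le _ _)
  have h3 : ε ^ 2 * ∑ c ∈ K.powerset, μ.real {y | ε ≤ rr I μ (cell t K c) y ∧
      ε ≤ rr I' μ (cell t K c) y ∧ rr J μ (cell t K c) y < η} ≤
      η * ∑ c ∈ K.powerset, μ.real (cell t K c) := by
    rw [Finset.mul_sum, Finset.mul_sum]
    exact Finset.sum_le_sum fun c _ => one_set I I' J μ hI hI' hJ hc (cell_meas t ht K c) hε hη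
  have h4 : ∑ c ∈ K.powerset, μ.real (cell t K c) ≤ 1 := by
    have := sum_measureReal_le_measureReal_univ (μ := μ) (fun c _ => cell_meas t ht K c)
      (cell_disj t K)
    simpa using this
  have h5 : μ.real (B K) * ε ^ 2 ≤ η := by
    have e2 : 0 < ε ^ 2 := by positivity
    nlinarith
  exact h5

theorem two_lv (hI : I ≤ m0) (hI' : I' ≤ m0) (hJ : J ≤ I')
    (hc : ∀ f : Y → ℂ, BM μ m0 f → μ[μ[f | I] | I'] =ᵐ[μ] μ[f | J])
    (ht : ∀ i, MeasurableSet {y | t y i}) {ε : ℝ} (hε : 0 < ε) :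
    ∀ᵐ y ∂μ, y ∈ Lv I μ t ε → y ∈ Lv I' μ t ε → ∃ n : ℕ, y ∈ Lv J μ t (1 / ((n : ℝ) + 1)) := by
  rw [ae_iff]
  refine le_antisymm ?_ bot_le
  have hlim : Tendsto (fun n : ℕ => ENNReal.ofReal (1 / ((n : ℝ) + 1) / ε ^ 2)) atTop
      (𝓝 (ENNReal.ofReal (0 / ε ^ 2))) :=
    ENNReal.tendsto_ofReal (tendsto_one_div_add_atTop_nhds_zero_nat.div_const _)
  rw [zero_div, ENNReal.ofReal_zero] at hlim
  refine ge_of_tendsto' hlim fun n => ?_
  refine le_trans (measure_mono ?_) (bad_le I I' J μ t hI hI' hJ hc ht hε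
    (η := 1 / ((n : ℝ) + 1)) (by positivity))
  intro y hy
  by_contra hcon
  refine hy fun h1 h2 => ⟨n, ?_⟩
  by_contra h3
  exact hcon ⟨⟨h1, h2⟩, h3⟩

/-- the mass of a rectangle under the relative square -/
theorem rect {Ω : Type} {m1 : MeasurableSpace Ω} (μ' : Measure Ω) [IsProbabilityMeasure μ']
    (a1 a2 : Ω → Y) (hI : I ≤ m0) (hS : Sq I μ μ' a1 a2) {A C : Set Y} (hA : MeasurableSet A)
    (hC : MeasurableSet C) {ε : ℝ} (h : ∀ y ∈ A, ε ≤ rr I μ C y) :
    ε * μ.real A ≤ μ'.real (a1 ⁻¹' A ∩ a2 ⁻¹' C) := by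
  have hm : MeasurableSet (a1 ⁻¹' A ∩ a2 ⁻¹' C) :=
    (hS.1.measurable hA).inter (hS.2.1.measurable hC)
  have h1 := hS.2.2 _ _ (bm_ind μ hA) (bm_ind μ hC)
  have h2 : ∫ x, (A.indicator fun _ => (1 : ℂ)) (a1 x) * (C.indicator fun _ => (1 : ℂ)) (a2 x) ∂μ'
      = ((μ'.real (a1 ⁻¹' A ∩ a2 ⁻¹' C) : ℝ) : ℂ) := by
    have : (fun x => (A.indicator fun _ => (1 : ℂ)) (a1 x) * (C.indicator fun _ => (1 : ℂ)) (a2 x))
        = (a1 ⁻¹' A ∩ a2 ⁻¹' C).indicator fun _ => (1 : ℂ) := by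
      funext x
      by_cases p : a1 x ∈ A <;> by_cases p' : a2 x ∈ C <;> simp [p, p']
    rw [this, integral_indicator hm]
    simp
  have h3 : ∫ y, (μ[A.indicator fun _ => (1 : ℂ) | I]) y * (μ[C.indicator fun _ => (1 : ℂ) | I]) y ∂μ
      = ((∫ y, rr I μ C y * rr I μ A y ∂μ : ℝ) : ℂ) := by
    rw [← integral_complex_ofReal]
    refine integral_congr_ae ?_
    filter_upwards [cre I μ hA, cre I μ hC] with y b1 b2
    rw [b1, b2, mul_comm]
    exact (Complex.ofReal_mul _ _).symm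
  have h4 : μ'.real (a1 ⁻¹' A ∩ a2 ⁻¹' C) = ∫ y, rr I μ C y * rr I μ A y ∂μ :=
    Complex.ofReal_injective (h2.symm.trans (h1.trans h3))
  have h5 := pull_int I μ hI (rr_sm I μ C) (rr_norm I μ hI hC) (int_ind μ hA)
  have h6 : ∫ y, A.indicator (fun _ => ε) y ∂μ ≤
      ∫ y, rr I μ C y * (A.indicator fun _ => (1 : ℝ)) y ∂μ := by
    refine integral_mono ((integrable_const _).indicator hA)
      (int_mul μ ((rr_sm I μ C).mono hI).aestronglyMeasurable (rr_norm I μ hI hC)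
        (int_ind μ hA)) fun y => ?_
    by_cases p : y ∈ A
    · simpa [p] using h y p
    · simp [p]
  rw [integral_indicator hA] at h6
  simp only [integral_const, smul_eq_mul, measureReal_restrict_apply_univ] at h6
  rw [h4, mul_comm]
  exact h6.trans h5.le

theorem met_lv {Ω : Type} {m1 : MeasurableSpace Ω} (μ' : Measure Ω) [IsProbabilityMeasure μ']
    (a1 a2 : Ω → Y) (S : Set Y) (hI : I ≤ m0) (ht : ∀ i, MeasurableSet {y | t y i})
    (hSm : MeasurableSet S) (hS : Sq I μ μ' a1 a2)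
    (h0 : μ' {x | a1 x ∈ S ∧ t (a1 x) = t (a2 x)} = 0) {ε : ℝ} (hε : 0 < ε) :
    μ (S ∩ Lv I μ t ε) = 0 := by
  have hN : MeasurableSet (S ∩ Lv I μ t ε) := hSm.inter (Lv_meas I μ t hI ht ε)
  let T : Finset κ → Set Ω := fun K => ⋃ c ∈ K.powerset,
    (a1 ⁻¹' ((S ∩ Lv I μ t ε) ∩ cell t K c) ∩ a2 ⁻¹' (cell t K c))
  have hpm : ∀ K c : Finset κ, MeasurableSet
      (a1 ⁻¹' ((S ∩ Lv I μ t ε) ∩ cell t K c) ∩ a2 ⁻¹' (cell t K c)) := fun K c =>
    (hS.1.measurable (hN.inter (cell_meas t ht K c))).inter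
      (hS.2.1.measurable (cell_meas t ht K c))
  have hTm : ∀ K, MeasurableSet (T K) := fun K =>
    K.powerset.measurableSet_biUnion fun c _ => hpm K c
  have hT : ∀ K x, x ∈ T K ↔ a1 x ∈ S ∩ Lv I μ t ε ∧ ∀ i ∈ K, (t (a1 x) i ↔ t (a2 x) i) := by
    intro K x
    constructor
    · intro hx
      obtain ⟨c, hc, ⟨h1, h2⟩, h3⟩ := Set.mem_iUnion₂.1 hx
      exact ⟨h1, fun i hi => (h2 i hi).trans (h3 i hi).symm⟩
    · rintro ⟨h1, h2⟩
      exact Set.mem_biUnion (tr_mem t K (a1 x)) ⟨⟨h1, mem_tr t K _⟩,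
        fun i hi => (h2 i hi).symm.trans (mem_tr t K _ i hi)⟩
  have hanti : Antitone T := fun K K' h x hx =>
    (hT K x).2 ⟨((hT K' x).1 hx).1, fun i hi => ((hT K' x).1 hx).2 i (h hi)⟩
  have hlow : ∀ K, ENNReal.ofReal (ε * μ.real (S ∩ Lv I μ t ε)) ≤ μ' (T K) := by
    intro K
    rw [ENNReal.ofReal_le_iff_le_toReal (measure_ne_top _ _)]
    have h1 : μ'.real (T K) = ∑ c ∈ K.powerset,
        μ'.real (a1 ⁻¹' ((S ∩ Lv I μ t ε) ∩ cell t K c) ∩ a2 ⁻¹' (cell t K c)) := by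
      refine measureReal_biUnion_finset ?_ (fun c _ => hpm K c) (fun c _ => measure_ne_top _ _)
      intro c hc c' hc' hne
      exact Set.disjoint_left.2 fun x hx hx' =>
        Set.disjoint_left.1 (cell_disj t K hc hc' hne) hx.2 hx'.2
    have h2 : μ.real (S ∩ Lv I μ t ε) ≤
        ∑ c ∈ K.powerset, μ.real ((S ∩ Lv I μ t ε) ∩ cell t K c) := by
      have hsub : S ∩ Lv I μ t ε ⊆ ⋃ c ∈ K.powerset, ((S ∩ Lv I μ t ε) ∩ cell t K c) :=
        fun y hy => Set.mem_biUnion (tr_mem t K y) ⟨hy, mem_tr t K y⟩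
      exact (measureReal_mono hsub (measure_ne_top _ _)).trans
        (measureReal_biUnion_finset_le _ _)
    have h3 : ε * ∑ c ∈ K.powerset, μ.real ((S ∩ Lv I μ t ε) ∩ cell t K c) ≤ μ'.real (T K) := by
      rw [h1, Finset.mul_sum]
      exact Finset.sum_le_sum fun c _ => rect I μ μ' a1 a2 hI hS
        (hN.inter (cell_meas t ht K c)) (cell_meas t ht K c) fun y hy => hy.1.2 K c hy.2
    exact (mul_le_mul_of_nonneg_left h2 hε.le).trans h3
  have hz : μ' (⋂ K, T K) = 0 := by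
    refine measure_mono_null (fun x hx => ?_) h0
    have hx' := Set.mem_iInter.1 hx
    refine ⟨((hT ∅ x).1 (hx' ∅)).1.1, funext fun i => propext ?_⟩
    exact ((hT {i} x).1 (hx' {i})).2 i (Finset.mem_singleton_self i)
  rw [hanti.measure_iInter (fun K => (hTm K).nullMeasurableSet) ⟨∅, measure_ne_top _ _⟩] at hz
  have h7 : ENNReal.ofReal (ε * μ.real (S ∩ Lv I μ t ε)) ≤ 0 := hz ▸ le_iInf hlow
  have h8 : ε * μ.real (S ∩ Lv I μ t ε) ≤ 0 := ENNReal.ofReal_eq_zero.1 (le_antisymm h7 bot_le)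
  have h9 : μ.real (S ∩ Lv I μ t ε) = 0 :=
    le_antisymm (by nlinarith [measureReal_nonneg (μ := μ) (s := S ∩ Lv I μ t ε)])
      measureReal_nonneg
  exact (measureReal_eq_zero_iff (measure_ne_top _ _)).1 h9

end main

end At2

variable [Grp]

/-- atoms over two algebras with commuting projections are atoms over the intersection -/
theorem xAtT : ∀ {Y κ : Type} [Countable κ] (I I' J : MeasurableSpace Y) {m0 : MeasurableSpace Y}
    (μ : Measure Y) [IsProbabilityMeasure μ] (t : Y → κ → Prop), I ≤ m0 → I' ≤ m0 → J ≤ I →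
    J ≤ I' → (∀ f : Y → ℂ, BM μ m0 f → μ[μ[f | I] | I'] =ᵐ[μ] μ[f | J]) →
    (∀ i, MeasurableSet {y | t y i}) → ∀ᵐ y ∂μ, y ∈ At I μ t → y ∈ At I' μ t → y ∈ At J μ t := by
  intro Y κ _ I I' J m0 μ _ t hI hI' _ hJ hc ht
  have h : ∀ᵐ y ∂μ, ∀ n : ℕ, y ∈ At2.Lv I μ t (1 / ((n : ℝ) + 1)) →
      y ∈ At2.Lv I' μ t (1 / ((n : ℝ) + 1)) → ∃ n : ℕ, y ∈ At2.Lv J μ t (1 / ((n : ℝ) + 1)) :=
    ae_all_iff.2 fun n => At2.two_lv I I' J μ t hI hI' hJ hc ht (by positivity)
  filter_upwards [h, At2.At_iff I μ t ht, At2.At_iff I' μ t ht, At2.At_iff J μ t ht]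
    with y h1 b1 b2 b3 c1 c2
  obtain ⟨n, hn⟩ := b1.1 c1
  obtain ⟨n', hn'⟩ := b2.1 c2
  refine b3.2 (h1 (n + n') (At2.Lv_anti I μ t ?_ hn) (At2.Lv_anti I' μ t ?_ hn'))
  · exact Nat.one_div_le_one_div (Nat.le_add_right n n')
  · exact Nat.one_div_le_one_div (Nat.le_add_left n' n)

/-- atoms are met -/
theorem xAtE : ∀ {Ω Y κ : Type} [Countable κ] (I : MeasurableSpace Y) {m0 : MeasurableSpace Y}
    (μ : Measure Y) [IsProbabilityMeasure μ] {m1 : MeasurableSpace Ω} (μ' : Measure Ω)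
    [IsProbabilityMeasure μ'] (a1 a2 : Ω → Y) (t : Y → κ → Prop) (S : Set Y), I ≤ m0 →
    (∀ i, MeasurableSet {y | t y i}) → MeasurableSet S → Sq I μ μ' a1 a2 →
    μ' {x | a1 x ∈ S ∧ t (a1 x) = t (a2 x)} = 0 → μ (S ∩ At I μ t) = 0 := by
  intro Ω Y κ _ I m0 μ _ m1 μ' _ a1 a2 t S hI ht hSm hS h0
  have h : μ (⋃ n : ℕ, S ∩ At2.Lv I μ t (1 / ((n : ℝ) + 1))) = 0 :=
    measure_iUnion_null fun n => At2.met_lv I μ t μ' a1 a2 S hI ht hSm hS h0 (by positivity)
  refine le_antisymm (le_trans (measure_mono_ae ?_) h.le) bot_le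
  filter_upwards [At2.At_iff I μ t ht] with y b1 c1
  obtain ⟨n, hn⟩ := b1.1 c1.2
  exact Set.mem_iUnion.2 ⟨n, c1.1, hn⟩

end T4x

end

end PkGAt2

section PkGExh

/-! A countable invariant group that contains enough partners (commuting maps). -/

set_option autoImplicit false
set_option linter.unusedVariables false
set_option warn.classDefReducibility false

open MeasureTheory ProbabilityTheory Filter Topology Function Finset ComplexConjugate
open scoped BigOperators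
open Fib27 (BM sup pr Oc Orow F23 LInd Mem)
open Pool.Agent.MP_154433_an.SG (Uni ufn ucomap)

noncomputable section

namespace T4x

open T3x

variable [Grp]

namespace GExhL

def stg {G : Type} (S0 : Set G) (N : G → G → Set G) : ℕ → Set G
  | 0 => S0
  | n + 1 => stg S0 N n ∪ ⋃ a ∈ stg S0 N n, ⋃ b ∈ stg S0 N n, N a b

omit [Grp] in
lemma clos {G : Type} (S0 : Set G) (h0 : S0.Countable) (N : G → G → Set G)
    (hN : ∀ a b, (N a b).Countable) :
    ∃ S : Set G, S.Countable ∧ S0 ⊆ S ∧ ∀ a ∈ S, ∀ b ∈ S, N a b ⊆ S := by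
  have hc : ∀ n, (stg S0 N n).Countable := fun n => by
    induction n with
    | zero => exact h0
    | succ n ih => exact ih.union (ih.biUnion fun a _ => ih.biUnion fun b _ => hN a b)
  have hm : Monotone (stg S0 N) := monotone_nat_of_le_succ fun n => Set.subset_union_left
  refine ⟨⋃ n, stg S0 N n, Set.countable_iUnion hc, Set.subset_iUnion (stg S0 N) 0, ?_⟩
  intro a ha b hb x hx
  obtain ⟨n, hn⟩ := Set.mem_iUnion.1 ha
  obtain ⟨m, hm'⟩ := Set.mem_iUnion.1 hb
  refine Set.mem_iUnion.2 ⟨max n m + 1, Or.inr ?_⟩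
  exact Set.mem_biUnion (hm (le_max_left n m) hn) (Set.mem_biUnion (hm (le_max_right n m) hm') hx)

end GExhL

open GExhL

theorem xExh : ExhR := by
  intro fd rc c g
  have hB : c.B2 ≤ c.W.ms := (fd.h.kc c.W _ c.L.nice (fd.lb.fac c.L c.B c.kc.1)).1.le
  have hp : ∀ (q : c.ι) (a : Uni c.X.X), ∃ 𝒢 : Set (c.ι → Uni c.X.X), 𝒢.Countable ∧
      (∀ g' ∈ 𝒢, g' q = a) ∧ ∀ g' : c.ι → Uni c.X.X, g' q = a →
        c.Θ (c.up g') ≤ᵐ[c.W.μ] (⋃ g1 ∈ 𝒢, c.Θ (c.up g1) : Set c.W.X) := by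
    intro q a
    obtain ⟨𝒜, h1, h2, h3⟩ := fd.d.ess c.W.μ
      ((fun g' => c.Θ (c.up g')) '' {g' : c.ι → Uni c.X.X | g' q = a}) (by
        rintro _ ⟨g', _, rfl⟩
        exact hB _ (rc.meas c.B2 c.W.μ _))
    obtain ⟨𝒢0, h4, rfl⟩ := Set.subset_image_iff.1 h1
    obtain ⟨𝒢, h5, h6⟩ := Set.exists_subset_bijOn 𝒢0 fun g' => c.Θ (c.up g')
    refine ⟨𝒢, Set.countable_of_injective_of_countable_image h6.injOn (by rwa [h6.image_eq]),
      fun g' hg' => h4 (h5 hg'), fun g' hg' => ?_⟩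
    have h7 := h3 _ ⟨g', hg', rfl⟩
    rw [← h6.image_eq, Set.sUnion_image] at h7
    exact h7
  choose 𝒢 hc hq he using hp
  let σ : Γ → Uni c.X.X → Uni c.X.X := fun n => ucomap (c.X.Tz n) (c.X.mp n).measurable
  obtain ⟨S, s1, s2, s3⟩ := clos (insert 1 (Set.range g))
    ((Set.countable_range g).insert 1)
    (fun a b => ({a * b, a⁻¹} ∪ Set.range fun n => σ n a) ∪ ⋃ q, ⋃ g' ∈ 𝒢 q a, Set.range g')
    (fun a b => ((Set.to_countable _).union (Set.countable_range _)).union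
      (Set.countable_iUnion fun q => (hc q a).biUnion fun g' _ => Set.countable_range g'))
  let 𝒱 : Subgroup (Uni c.X.X) :=
    { carrier := S
      mul_mem' := fun {a b} ha hb => s3 a ha b hb (Or.inl (Or.inl (Or.inl rfl)))
      one_mem' := s2 (Or.inl rfl)
      inv_mem' := fun {a} ha => s3 a ha a ha (Or.inl (Or.inl (Or.inr rfl))) }
  have hσ : ∀ n, ∀ a ∈ 𝒱, σ n a ∈ 𝒱 := fun n a ha => s3 a ha a ha (Or.inl (Or.inr ⟨n, rfl⟩))
  have hadd : ∀ n m a, σ (n + m) a = σ n (σ m a) := fun n m a =>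
    Subtype.ext (funext fun x => by
      show a.1 (c.X.Tz (n + m) x) = a.1 (c.X.Tz m (c.X.Tz n x))
      rw [add_comm, c.X.add])
  have hzero : ∀ a, σ 0 a = a := fun a =>
    Subtype.ext (funext fun x => by
      show a.1 (c.X.Tz 0 x) = a.1 x
      rw [c.X.zero])
  let s : Γ → 𝒱 ≃* 𝒱 := fun n =>
    { toFun := fun a => ⟨σ n a.1, hσ n a.1 a.2⟩
      invFun := fun a => ⟨σ (-n) a.1, hσ (-n) a.1 a.2⟩
      left_inv := fun a => Subtype.ext (by
        show σ (-n) (σ n a.1) = a.1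
        rw [← hadd, neg_add_cancel, hzero])
      right_inv := fun a => Subtype.ext (by
        show σ n (σ (-n) a.1) = a.1
        rw [← hadd, add_neg_cancel, hzero])
      map_mul' := fun a b => rfl }
  refine ⟨𝒱, s, ⟨s1.to_subtype, fun n m a => Subtype.ext (hadd n m a.1), fun n a x => rfl,
    fun q g' hg' => ?_⟩, fun k => s2 (Or.inr ⟨k, rfl⟩)⟩
  refine (he q (g' q) g' rfl).trans (LE.le.eventuallyLE ?_)
  refine Set.biUnion_subset_biUnion_left fun g1 h1 => ⟨fun k => ?_, hq q _ g1 h1⟩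
  exact s3 _ hg' _ hg' (Or.inr (Set.mem_iUnion.2 ⟨q, Set.mem_biUnion h1 ⟨k, rfl⟩⟩))

end T4x

end

end PkGExh

section PkGFf

/-! Tuples of the functions `ψ` in the line. -/

set_option autoImplicit false
set_option linter.unusedVariables false
set_option warn.classDefReducibility false

open MeasureTheory ProbabilityTheory Filter Topology Function Finset ComplexConjugate
open scoped BigOperators
open Fib27 (BM sup pr Oc Orow F23 LInd Mem)
open Pool.Agent.MP_154433_an.SG (Uni ufn)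

noncomputable section

namespace T4x

open T3x

variable [Grp]

namespace GFf

lemma th_congr {Ω : Type} (β : MeasurableSpace Ω) {m0 : MeasurableSpace Ω} {μ : Measure Ω}
    {F F' : Ω → ℂ} (h : F =ᵐ[μ] F') : ∀ᵐ w ∂μ, w ∈ Th β μ F ↔ w ∈ Th β μ F' := by
  filter_upwards [condExp_congr_ae (m := β) h] with w e
  simp only [Th, Set.mem_setOf_eq, e]

end GFf

open GFf

theorem xFf : FfR := by
  intro fd rc c V _ _ sg ψ C P Ψ
  have q := fun k => (C.embπ k).mp.quasiMeasurePreserving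
  have le2 : c.B2 ≤ c.W.ms := C.kc2.1.le
  have um1 : ∀ k a, Um (c.P k) c.W.μ fun w => ψ a (c.π k w) := fun k a =>
    ⟨(fd.a.bm_comp c.X.ms c.W.μ c.X.μ (c.π k) (ψ a) (C.embπ k).mp (P.bm a)).1,
      (q k).ae (Ψ.um a).2⟩
  have um3 : ∀ k a, Um c.W.ms c.W.μ fun w => ψ a (c.π k w) := fun k a =>
    ⟨(um1 k a).1.mono (C.facP k).le, (um1 k a).2⟩
  have um : ∀ v, Um c.W.ms c.W.μ (c.FF ψ v) := fun v =>
    ⟨Finset.aestronglyMeasurable_fun_prod _ fun k _ => (um3 k (v k)).1, by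
      filter_upwards [ae_all_iff.2 fun k => (um3 k (v k)).2] with w h
      simp only [Ctx.FF, norm_prod, h, Finset.prod_const_one]⟩
  have z := ae_all_iff.2 fun k => (q k).ae P.zero
  have zero : c.FF ψ 0 =ᵐ[c.W.μ] fun _ => 1 := by
    filter_upwards [z] with w h
    exact Finset.prod_eq_one fun k _ => h k
  have add : ∀ v v', c.FF ψ (v + v') =ᵐ[c.W.μ] fun w => c.FF ψ v w * c.FF ψ v' w := fun v v' => by
    filter_upwards [ae_all_iff.2 fun k => (q k).ae (Ψ.add (v k) (v' k))] with w h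
    simp only [Ctx.FF, ← Finset.prod_mul_distrib]
    exact Finset.prod_congr rfl fun k _ => h k
  have sub : ∀ v v', c.FF ψ (v - v') =ᵐ[c.W.μ] fun w => c.FF ψ v w * conj (c.FF ψ v' w) :=
    fun v v' => by
    filter_upwards [ae_all_iff.2 fun k => (q k).ae (P.sub (v k) (v' k))] with w h
    simp only [Ctx.FF, map_prod, ← Finset.prod_mul_distrib]
    exact Finset.prod_congr rfl fun k _ => h k
  have single : ∀ k a, c.FF ψ (Pi.single k a) =ᵐ[c.W.μ] fun w => ψ a (c.π k w) := fun k a => by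
    filter_upwards [z] with w h
    rw [Ctx.FF, Finset.prod_eq_single k (fun j _ hj => by rw [Pi.single_eq_of_ne hj]; exact h j)
      (by simp), Pi.single_eq_same]
  have shz : ∀ (n : Γ) v, c.FF ψ (fun k => sg n (v k)) =ᵐ[c.W.μ]
      fun w => c.FF ψ v (c.W.Tz n w) := fun n v => by
    filter_upwards [ae_all_iff.2 fun k => (q k).ae (P.shz n (v k)), ae_all_iff.2 fun k =>
      fd.a.keq_fun c.X.ms c.W.μ c.X.μ _ _ (ψ (v k)) ((C.embπ k).mp.comp (fd.t.mp c.W n))
        ((fd.t.mp c.X n).comp (C.embπ k).mp) (fd.t.emb_z _ _ _ n (C.embπ k)) (Ψ.um _).1]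
      with w h h'
    exact Finset.prod_congr rfl fun k _ => (h k).trans (h' k).symm
  have tm : ∀ v, MeasurableSet[c.B2] (c.ΘV ψ v) := fun v => rc.meas _ _ _
  have tsh : ∀ n : Γ, ∀ᵐ w ∂c.W.μ, ∀ v,
      w ∈ c.ΘV ψ (fun k => sg n (v k)) ↔ c.W.Tz n w ∈ c.ΘV ψ v := fun n =>
    ae_all_iff.2 fun v => by
      filter_upwards [th_congr c.B2 (shz n v), fd.t.ce c.W c.B2 n (c.FF ψ v) C.kc2.1
        (Integrable.of_bound (um v).1 1 ((um v).2.mono fun w h => h.le))] with w h h'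
      refine h.trans ?_
      simp only [Ctx.ΘV, Th, Set.mem_setOf_eq, h']
  refine ⟨um1, fun k a => ⟨(um1 k a).1.mono le_sup_left, (um1 k a).2⟩, um3, um, zero, add, sub,
    single, shz, tm, ?_, ae_all_iff.2 fun v => ae_all_iff.2 fun v' => ?_,
    ae_all_iff.2 fun v => ae_all_iff.2 fun v' => ?_, tsh, ?_, fun n => ?_,
    fun gi => ae_all_iff.2 fun k => ae_all_iff.2 fun a => ?_⟩
  · filter_upwards [th_congr c.B2 zero] with w h
    refine h.2 ?_
    simp only [Th, Set.mem_setOf_eq, condExp_const le2, norm_one]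
  · filter_upwards [th_congr c.B2 (add v v'), rc.mul c.B2 c.W.μ _ _ le2 (um v) (um v')]
      with w h h' a b
    exact h.2 (h' ⟨a, b⟩)
  · have u : Um c.W.ms c.W.μ fun w => conj (c.FF ψ v' w) :=
      ⟨Complex.continuous_conj.comp_aestronglyMeasurable (um v').1,
        (um v').2.mono fun w h => by simpa using h⟩
    filter_upwards [th_congr c.B2 (sub v v'), rc.mul c.B2 c.W.μ _ _ le2 (um v) u,
      rc.cj c.B2 c.W.μ _ le2 (um v')] with w h h' h'' a b
    exact h.2 (h' ⟨a, (iff_of_eq h'').2 b⟩)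
  · exact MeasurableSet.iInter fun q => MeasurableSet.iInter fun x =>
      MeasurableSet.biUnion (Set.to_countable _) fun v _ => tm v
  · filter_upwards [tsh n] with w h
    simp only [Ctx.UU, Set.mem_iInter, Set.mem_iUnion, Set.mem_setOf_eq, exists_prop]
    refine ⟨fun H q x => ?_, fun H q x => ?_⟩
    · obtain ⟨v, e, hv⟩ := H q (sg n x)
      refine ⟨fun k => (sg n).symm (v k), by simp [e], (h _).1 ?_⟩
      simpa only [AddEquiv.apply_symm_apply] using hv
    · obtain ⟨v, e, hv⟩ := H q ((sg n).symm x)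
      exact ⟨_, by simp [e], (h v).2 hv⟩
  · filter_upwards [th_congr c.B2 (single k a), C.ce gi k (ψ a) (P.bm a)] with w h h'
    refine h.trans ?_
    simp only [Th, Ctx.Nt, Set.mem_setOf_eq, h', not_not]

end T4x

end

end PkGFf

section PkGFlat

/-! Row `GFlat`: all rows and one column are tuples, hence all columns. -/

set_option autoImplicit false
set_option linter.unusedVariables false
set_option warn.classDefReducibility false

open MeasureTheory ProbabilityTheory Filter Topology Function Finset ComplexConjugate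
open scoped BigOperators
open Fib27 (BM sup pr Oc Orow F23 LInd Mem)
open Pool.Agent.MP_154433_an.SG (Uni ufn)

noncomputable section

namespace T4x

open T3x

variable [Grp]

namespace GFlat

theorem um_comp {Ω Ω' : Type} {m0 : MeasurableSpace Ω} {m0' : MeasurableSpace Ω'} {μ : Measure Ω}
    {μ' : Measure Ω'} {p : Ω → Ω'} (hp : MeasurePreserving p μ μ') {f : Ω' → ℂ}
    (hf : Um m0' μ' f) : Um m0 μ fun x => f (p x) :=
  ⟨hf.1.comp_quasiMeasurePreserving hp.quasiMeasurePreserving, hp.quasiMeasurePreserving.ae hf.2⟩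

theorem um_pr {Ω ι : Type} {m m0 : MeasurableSpace Ω} {μ : Measure Ω} {F : ι → Ω → ℂ}
    (S : Finset ι) (hF : ∀ i, Um m μ (F i)) : Um m μ (pr F S) := by
  refine ⟨(BM.pr fun i _ => BM.of_uni (hF i).1 (hF i).2).1, ?_⟩
  filter_upwards [(Finset.eventually_all S).2 fun i _ => (hF i).2] with x hx
  simp only [pr, norm_prod]
  exact prod_eq_one hx

theorem um_conj {Ω : Type} {m m0 : MeasurableSpace Ω} {μ : Measure Ω} {F : Ω → ℂ}
    (hF : Um m μ F) : Um m μ fun x => conj (F x) :=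
  ⟨(BM.of_uni hF.1 hF.2).conj.1, hF.2.mono fun x hx => by simpa using hx⟩

theorem th_pr (rc : Rc) {Ω ι : Type} (β : MeasurableSpace Ω) {m0 : MeasurableSpace Ω}
    (μ : Measure Ω) [IsProbabilityMeasure μ] (hβ : β ≤ m0) {F : ι → Ω → ℂ}
    (hF : ∀ i, Um m0 μ (F i)) (S : Finset ι) :
    ∀ᵐ x ∂μ, (∀ i ∈ S, x ∈ Th β μ (F i)) → x ∈ Th β μ (pr F S) := by
  classical
  induction S using Finset.induction_on with
  | empty =>
    refine Eventually.of_forall fun x _ => ?_
    have : pr F ∅ = fun _ => (1 : ℂ) := funext fun x => prod_empty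
    show ‖(μ[pr F ∅ | β]) x‖ = 1
    rw [this, condExp_const hβ]
    simp
  | insert j S hj ih =>
    have : pr F (insert j S) = fun x => F j x * pr F S x := funext (Fib27.pr_insert F hj)
    rw [this]
    filter_upwards [ih, rc.mul β μ _ _ hβ (hF j) (um_pr S hF)] with x h1 h2 hx
    exact h2 ⟨hx j (mem_insert_self _ _), h1 fun i hi => hx i (mem_insert_of_mem hi)⟩

end GFlat

open GFlat in
theorem xFlat : FlatR := by
  intro fd rc gc c V _ _ sg ψ gi hψ m j0 j
  rcases eq_or_ne j j0 with rfl | hne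
  · exact Eventually.of_forall fun x _ h => h
  have cc := gc.ctx c
  have ff := gc.ff c V sg ψ hψ
  have hβ : c.β ≤ c.W2.ms := cc.kcβ.1.le
  have bF : ∀ v, BM c.W.μ c.W.ms (c.FF ψ v) := fun v => BM.of_uni (ff.um v).1 (ff.um v).2
  set Φ : c.ι → c.W2.X → ℂ := fun j x => c.FF ψ (fun k => m k j) (c.Bc j x) with hΦ
  set R : c.ι → c.W2.X → ℂ := fun k x => c.FF ψ (m k) (c.A k x) with hR
  have uΦ : ∀ j, Um c.W2.ms c.W2.μ (Φ j) := fun j => um_comp (cc.embB j).mp (ff.um _)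
  have uR : ∀ k, Um c.W2.ms c.W2.μ (R k) := fun k => um_comp (cc.embA k).mp (ff.um _)
  have sw : ∀ k j, (fun x => ψ (m k j) (c.π j (c.A k x))) =ᵐ[c.W2.μ]
      fun x => ψ (m k j) (c.π k (c.Bc j x)) := fun k j =>
    fd.a.keq_fun c.X.ms c.W2.μ c.X.μ (c.π j ∘ c.A k) (c.π k ∘ c.Bc j) (ψ (m k j))
      ((cc.embπ j).mp.comp (cc.embA k).mp) ((cc.embπ k).mp.comp (cc.embB j).mp) (gi.col k j)
      (hψ.um _).1
  have e1 : (fun x => pr R univ x * conj (Φ j0 x)) =ᵐ[c.W2.μ] pr Φ (univ.erase j0) := by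
    filter_upwards [ae_all_iff.2 fun k => ae_all_iff.2 (sw k), (uΦ j0).2] with x hx h1
    have a1 : pr R univ x = pr Φ univ x := by
      simp only [pr, hR, hΦ, Ctx.FF]
      rw [Finset.prod_comm]
      exact prod_congr rfl fun j _ => prod_congr rfl fun k _ => hx k j
    have a2 : Φ j0 x * conj (Φ j0 x) = 1 := by
      rw [Complex.mul_conj, Complex.normSq_eq_norm_sq, h1]; simp
    rw [a1, Fib27.pr_erase Φ (mem_univ j0)]
    linear_combination pr Φ (univ.erase j0) x * a2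
  have hq := rc.uniq c.β (fun j => pull c.W2.μ (c.Bc j) c.W.ms) (univ.erase j0) c.W2.μ Φ hβ
    (fun i => fd.a.pull_le _ _ _ _ (cc.embB i).mp le_rfl)
    (gi.cols _ fun h => notMem_erase j0 univ (h.symm ▸ mem_univ j0))
    (fun k _ => ⟨(fd.a.bm_comp c.W.ms c.W2.μ c.W.μ (c.Bc k) _ (cc.embB k).mp (bF _)).1.mono
      le_sup_left, (uΦ k).2⟩) j (mem_erase.2 ⟨hne, mem_univ j⟩)
  filter_upwards [hq, condExp_congr_ae (m := c.β) e1, th_pr rc c.β c.W2.μ hβ uR univ,
    rc.mul c.β c.W2.μ _ _ hβ (um_pr univ uR) (um_conj (uΦ j0)), rc.cj c.β c.W2.μ _ hβ (uΦ j0),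
    ae_all_iff.2 fun k => gi.rowE k _ (bF (m k)), gi.colE j0 _ (bF fun k => m k j0),
    gi.colE j _ (bF fun k => m k j)] with x a1 a2 a3 a4 a5 a6 a7 a8 h1 h2
  have b1 : x ∈ Th c.β c.W2.μ (pr R univ) := a3 fun k _ => by
    show ‖(c.W2.μ[fun x => c.FF ψ (m k) (c.A k x) | c.β]) x‖ = 1
    rw [a6 k]; exact h1 k
  have b2 : x ∈ Th c.β c.W2.μ (Φ j0) := by
    show ‖(c.W2.μ[fun x => c.FF ψ (fun k => m k j0) (c.Bc j0 x) | c.β]) x‖ = 1
    rw [a7]; exact h2
  have b3 : ‖(c.W2.μ[fun x => pr R univ x * conj (Φ j0 x) | c.β]) x‖ = 1 :=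
    a4 ⟨b1, a5.mpr b2⟩
  rw [a2] at b3
  have b4 : ‖(c.W2.μ[fun x => c.FF ψ (fun k => m k j) (c.Bc j x) | c.β]) x‖ = 1 := a1 b3
  rw [a8] at b4
  exact b4

end T4x

end

end PkGFlat

section PkGHatA

/-! Row GHatA: countably many independent samples of the line over the system. -/

set_option autoImplicit false
set_option linter.unusedVariables false
set_option warn.classDefReducibility false

open MeasureTheory ProbabilityTheory Filter Topology Function Finset ComplexConjugate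
open scoped BigOperators
open Fib27 (BM sup pr Oc Orow F23 LInd Mem)
open Pool.Agent.MP_154433_an.SG (Uni ufn)

noncomputable section

namespace T4x

open T3x

variable [Grp]

namespace GHatA

lemma fct (a : BasA) {Y X : Sys} (B : MeasurableSpace X.X) (hB : B ≤ X.ms) {p : Y.X → X.X}
    (hp : Emb Y X p) {f : Y.X → ℂ} (hf : BM Y.μ (pull Y.μ p B) f) :
    ∃ f' : X.X → ℂ, BM X.μ B f' ∧ f =ᵐ[Y.μ] fun x => f' (p x) := by
  obtain ⟨h1, C, hC⟩ := hf
  obtain ⟨f', m, b, e⟩ := a.fact B Y.μ p f (max C 0)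
    ((MeasurableSpace.comap_mono hB).trans (@Measurable.comap_le _ _ Y.ms X.ms p
      (@MeasurePreserving.measurable _ _ Y.ms X.ms p _ _ hp.mp))) (le_max_right _ _) h1
    (hC.mono fun x hx => hx.trans (le_max_left _ _))
  exact ⟨f', ⟨m.stronglyMeasurable.aestronglyMeasurable, _, Eventually.of_forall b⟩, e⟩

lemma pmono {Y X : Sys} {B B' : MeasurableSpace X.X} (h : B ≤ B') (p : Y.X → X.X) :
    pull Y.μ p B ≤ pull Y.μ p B' := sup_le_sup_right (MeasurableSpace.comap_mono h) _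

/-- the base of the line and a point are independent over the base of the point -/
lemma cpq (F : Fd) (c : Ctx) (cc : CtxC c) (gi : c.GI) (q : c.ι) :
    CP c.B2 (pull c.W.μ (c.π q) c.B) (pull c.W.μ (c.π q) c.X.ms) c.W.μ := by
  refine F.c.cp_symm _ _ _ c.W.μ (cc.facP q).le cc.kc2.1.le ((cc.slot q).trans cc.le2)
    (pmono cc.facB.le _) fun f hf => ?_
  obtain ⟨f0, b0, e0⟩ := fct F.a c.X.ms le_rfl (cc.embπ q) hf
  exact (condExp_congr_ae e0).trans ((cc.ce gi q f0 b0).trans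
    ((F.a.ce_comp c.B c.W.μ c.X.μ (c.π q) f0 (cc.embπ q).mp cc.facB.le b0.integrable).symm.trans
      (condExp_congr_ae e0).symm))

end GHatA

open GHatA in
theorem xHatA : HatA := by
  intro F gc c i0 gi
  have cc := gc.ctx c
  obtain ⟨Z, e, rp⟩ := F.rp (ℕ × c.ι) (fun _ => c.W) c.X c.X.ms (fun a => c.π a.2) (0, i0)
    (fun _ => c.L.nice) (F.t.top c.X) (fun a => (cc.embπ a.2).mp)
    (fun a n => F.t.emb_z c.W c.X _ n (cc.embπ a.2))
  have embq : ∀ a : ℕ × c.ι, Emb Z c.X (c.π a.2 ∘ e a) := fun a =>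
    F.t.emb_comp Z c.W c.X _ _ (rp.emb a) (cc.embπ a.2)
  have embp : Emb Z c.X (c.π i0 ∘ e (0, i0)) := embq (0, i0)
  have fD := F.t.fpull Z c.X _ c.B embp cc.facB
  have fY := F.t.fpull Z c.X _ c.X.ms embp (F.t.top c.X)
  have fE : ∀ a : ℕ × c.ι, Fac Z (pull Z.μ (e a) c.B2) := fun a =>
    F.t.fpull Z c.W _ c.B2 (rp.emb a) cc.kc2.1
  have fC := F.t.fisup Z (ℕ × c.ι) _ _ fD fE
  refine ⟨Z, e, hull Z (pull Z.μ (c.π i0 ∘ e (0, i0)) c.B ⊔ ⨆ a, pull Z.μ (e a) c.B2), rp,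
    F.h.adm Z c.X _ c.B _ rp.nice c.nice embp c.kc fC le_sup_left fun f hf => ?_,
    fun a => (le_sup_of_le_right (le_iSup (fun a => pull Z.μ (e a) c.B2) a)).trans (F.h.le Z _)⟩
  have hf0 := hf.mono fY.le
  have hDY := pmono (Y := Z) cc.facB.le (c.π i0 ∘ e (0, i0))
  have hg := hf.sub ((hf.ce (pull Z.μ (c.π i0 ∘ e (0, i0)) c.B)).mono hDY)
  have hE : (⨆ a, pull Z.μ (e a) c.B2) ≤ Z.ms := iSup_le fun a => (fE a).le
  refine Fib27.ce_eq_of_perp fC.le hf0 ((hf.ce _).mono le_sup_left)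
    (Fib27.perp_sup fD.le hE (hg.mono fY.le) fun a b ha hb => ?_)
  have hga := hg.mul (ha.mono hDY)
  have key := Fib27.perp_of_ce hE (hga.mono fY.le) (F.d.iperp (fun a => pull Z.μ (e a) c.B2) Z.μ
    (fun a => (fE a).le) _ (hga.mono fY.le).integrable fun S φ hφ => ?_) b hb
  · simpa only [mul_assoc] using key
  have h1 : ∀ i : ℕ × c.ι, ∃ φ' : c.W.X → ℂ, i ∈ S →
      BM c.W.μ c.B2 φ' ∧ φ i =ᵐ[Z.μ] fun z => φ' (e i z) := fun i => by
    by_cases hi : i ∈ S
    · obtain ⟨φ', h'⟩ := fct F.a c.B2 cc.kc2.1.le (rp.emb i) (hφ i hi)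
      exact ⟨φ', fun _ => h'⟩
    · exact ⟨0, fun h => absurd h hi⟩
  choose φ' hφ' using h1
  have e1 : pr φ S =ᵐ[Z.μ] fun z => ∏ i ∈ S, φ' i (e i z) :=
    Fib27.pr_congr_ae (ρ' := fun i z => φ' i (e i z)) fun i hi => (hφ' i hi).2
  have b1 : BM Z.μ Z.ms (pr φ S) := BM.pr fun i hi => (hφ i hi).mono (fE i).le
  have e2 := (condExp_congr_ae e1).trans
    (rp.ind S φ' fun i hi => (hφ' i hi).1.mono cc.kc2.1.le)
  have b2 : BM Z.μ (pull Z.μ (c.π i0 ∘ e (0, i0)) c.B)
      (pr (fun i z => (c.W.μ[φ' i | pull c.W.μ (c.π i.2) c.X.ms]) (e i z)) S) := by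
    refine BM.pr fun i hi => ?_
    obtain ⟨u, bu, eu⟩ := fct F.a c.B cc.facB.le (cc.embπ i.2)
      ((hφ' i hi).1.ce (pull c.W.μ (c.π i.2) c.B))
    have e3 := (rp.emb i).mp.quasiMeasurePreserving.ae_eq_comp
      ((cpq F c cc gi i.2 _ (hφ' i hi).1).trans eu)
    have e4 := F.a.keq_fun c.X.ms Z.μ c.X.μ _ _ u (embq i).mp embp.mp (rp.com i)
      (bu.mono cc.facB.le).1
    exact (F.a.bm_comp c.B Z.μ c.X.μ _ u embp.mp bu).congr (e3.trans e4).symm
  rw [← Fib27.int_mul_ce fY.le hga b1]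
  have := Fib27.perp_sub_ce fD.le hf0 _ (ha.mul b2)
  rw [← this]
  refine integral_congr_ae (e2.mono fun z hz => ?_)
  simp only [hz, pr, mul_assoc]

end T4x

end

end PkGHatA

section PkGHatB

/-! The extension with a frozen second copy. -/

set_option autoImplicit false
set_option linter.unusedVariables false
set_option warn.classDefReducibility false

open MeasureTheory ProbabilityTheory Filter Topology Function Finset ComplexConjugate
open scoped BigOperators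
open Fib27 (BM sup pr)

noncomputable section

namespace T4x

open T3x

variable [Grp]

namespace GHatB

/-- the system itself and its frozen copy -/
def two (Y : Sys) (i : Bool) : Sys :=
  { X := Y.X, μ := Y.μ, Tz := cond i (fun _ x => x) Y.Tz
    mp := by
      cases i
      · exact Y.mp
      · exact fun _ => MeasurePreserving.id _
    zero := by
      cases i
      · exact Y.zero
      · exact fun _ => rfl
    add := by
      cases i
      · exact Y.add
      · exact fun _ _ _ => rfl }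

omit [Grp] in
theorem pull_mono {Ω Ω' : Type} {B B' : MeasurableSpace Ω'} {m0 : MeasurableSpace Ω}
    (μ : Measure Ω) (p : Ω → Ω') (h : B ≤ B') : pull μ p B ≤ pull μ p B' :=
  sup_le_sup_right (MeasurableSpace.comap_mono h) _

omit [Grp] in
theorem fact_bm (b : BasA) {Ω Ω' : Type} {m0 : MeasurableSpace Ω} {m0' : MeasurableSpace Ω'}
    {μ : Measure Ω} {μ' : Measure Ω'} {p : Ω → Ω'} (hp : MeasurePreserving p μ μ') {f : Ω → ℂ}
    (hf : BM μ (pull μ p m0') f) : ∃ f' : Ω' → ℂ, BM μ' m0' f' ∧ f =ᵐ[μ] fun x => f' (p x) := by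
  obtain ⟨h1, C, hC⟩ := hf
  obtain ⟨f', a1, a2, a3⟩ := b.fact m0' μ p f (max C 0) hp.measurable.comap_le
    (le_max_right _ _) h1 (hC.mono fun x hx => hx.trans (le_max_left _ _))
  exact ⟨f', ⟨a1.stronglyMeasurable.aestronglyMeasurable, _, Eventually.of_forall a2⟩, a3⟩

theorem core (F : Fd) (Y Z : Sys) (p1 p2 : Z.X → Y.X) (hN : Nice Y) (hZ : Nice Z)
    (e1 : Emb Z Y p1) (e2 : Emb Z Y.frz p2) (com : KEq Z.μ (Inv Y Set.univ) p1 p2)
    (ind : ∀ f g, BM Y.μ Y.ms f → BM Y.μ Y.ms g →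
      Z.μ[fun z => f (p1 z) * g (p2 z) | pull Z.μ p1 (Inv Y Set.univ)] =ᵐ[Z.μ]
        fun z => (Y.μ[f | Inv Y Set.univ]) (p1 z) * (Y.μ[g | Inv Y Set.univ]) (p2 z)) :
    (∀ f g, BM Y.μ Y.ms f → BM Y.μ Y.ms g →
      ∫ x, f (p1 x) * g (p2 x) ∂Z.μ = ∫ y, (Y.μ[f | Inv Y Set.univ]) y * (Y.μ[g | Inv Y Set.univ]) y ∂Y.μ) ∧
    CP (pull Z.μ p1 Y.ms) (pull Z.μ p1 (Inv Y Set.univ)) (pull Z.μ p2 Y.ms) Z.μ := by
  have hD := F.t.finv Y Set.univ
  have m1 : MeasurePreserving p1 Z.μ Y.μ := e1.mp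
  have m2 : MeasurePreserving p2 Z.μ Y.μ := e2.mp
  have l0 : pull Z.μ p1 (Inv Y Set.univ) ≤ Z.ms := F.a.pull_le _ _ _ _ m1 hD.le
  have l0' : pull Z.μ p2 (Inv Y Set.univ) ≤ Z.ms := F.a.pull_le _ _ _ _ m2 hD.le
  have l1 : pull Z.μ p1 Y.ms ≤ Z.ms := F.a.pull_le _ _ _ _ m1 le_rfl
  have l2 : pull Z.μ p2 Y.ms ≤ Z.ms := F.a.pull_le _ _ _ _ m2 le_rfl
  have e : pull Z.μ p1 (Inv Y Set.univ) = pull Z.μ p2 (Inv Y Set.univ) :=
    F.a.keq_pull _ _ _ _ (le_sup_left.trans l0) (le_sup_left.trans l0') com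
  constructor
  · intro f g hf hg
    have h1 := F.a.keq_fun _ _ _ p1 p2 _ m1 m2 com (hg.ce (Inv Y Set.univ)).1
    have h2 := ((hf.ce (Inv Y Set.univ)).mul (hg.ce (Inv Y Set.univ))).mono hD.le
    rw [← integral_condExp l0, integral_congr_ae (ind f g hf hg), ← m1.map_eq,
      integral_map m1.measurable.aemeasurable (by rw [m1.map_eq]; exact h2.1), m1.map_eq]
    refine integral_congr_ae ?_
    filter_upwards [h1] with z hz
    rw [hz]
  · refine (F.c.cp_iff _ _ _ Z.μ l1 l2 (e.le.trans (pull_mono _ _ hD.le))).2 fun f g hf hg => ?_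
    obtain ⟨f0, a1, a2⟩ := fact_bm F.a m1 hf
    obtain ⟨g0, b1, b2⟩ := fact_bm F.a m2 hg
    have h1 := (condExp_congr_ae (m := pull Z.μ p1 (Inv Y Set.univ)) a2).trans
      (F.a.ce_comp _ _ _ p1 f0 m1 hD.le a1.integrable)
    have h2 := (condExp_congr_ae (m := pull Z.μ p2 (Inv Y Set.univ)) b2).trans
      (F.a.ce_comp _ _ _ p2 g0 m2 hD.le b1.integrable)
    rw [← e] at h2
    have h3 : (fun z => f z * g z) =ᵐ[Z.μ] fun z => f0 (p1 z) * g0 (p2 z) := by
      filter_upwards [a2, b2] with z c1 c2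
      rw [c1, c2]
    filter_upwards [h1, h2, (condExp_congr_ae h3).trans (ind f0 g0 a1 b1)] with z c1 c2 c3
    rw [c1, c2, c3]

end GHatB

open GHatB

theorem xHatB : HatB := by
  intro F Xh Bh hN hK ⟨u, hu⟩
  have hD := F.t.finv Xh Set.univ
  obtain ⟨Z, p, rp⟩ := F.rp Bool (two Xh) Xh (Inv Xh Set.univ) (fun _ => id) false (fun _ => hN) hD
    (fun _ => MeasurePreserving.id _) (fun i n A hA => by
      cases i
      · exact EventuallyEq.rfl
      · exact (hA.2 n trivial).symm)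
  have e1 : Emb Z Xh (p false) := rp.emb false
  have e2 : Emb Z Xh.frz (p true) := rp.emb true
  have com : KEq Z.μ (Inv Xh Set.univ) (p false) (p true) := fun A hA => (rp.com true A hA).symm
  have eD : pull Xh.μ id (Inv Xh Set.univ) = Inv Xh Set.univ := by
    rw [pull, MeasurableSpace.comap_id]
    exact sup_eq_left.2 hD.nl
  obtain ⟨h1, h2⟩ := core F Xh Z (p false) (p true) hN rp.nice e1 e2 com fun f g hf hg => by
    have h := rp.ind univ (fun i => cond i g f) fun i _ => by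
      cases i
      · exact hf
      · exact hg
    simp only [Fintype.prod_bool, mul_comm] at h
    rw [← eD]
    nth_rewrite 1 [eD]
    exact h
  have l1 := F.a.pull_le Xh.ms Z.μ Xh.μ (p false) e1.mp le_rfl
  have l2 := F.a.pull_le Xh.ms Z.μ Xh.μ (p true) e2.mp le_rfl
  have hIB : Inv Xh Set.univ ≤ Bh := fun A hA =>
    hK.2 u hu A (F.kb.inv Xh u Bh hN hK.1 A ⟨hA.1, fun h _ => hA.2 h trivial⟩)
  have e : pull Z.μ (p false) (Inv Xh Set.univ) = pull Z.μ (p true) (Inv Xh Set.univ) :=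
    F.a.keq_pull _ _ _ _ (le_sup_left.trans ((pull_mono _ _ hD.le).trans l1))
      (le_sup_left.trans ((pull_mono _ _ hD.le).trans l2)) com
  have h3 := F.c.drop _ _ _ (pull Z.μ (p false) Bh) Z.μ l1 l2 (e.le.trans (pull_mono _ _ hD.le))
    (pull_mono _ _ hD.le) (pull_mono _ _ hK.1.le) h2
  have h4 : pull Z.μ (p false) Bh ⊔ pull Z.μ (p false) (Inv Xh Set.univ) = pull Z.μ (p false) Bh :=
    sup_eq_left.2 (pull_mono _ _ hIB)
  have h5 := (congrArg (fun D => CP (pull Z.μ (p false) Xh.ms) D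
    (pull Z.μ (p false) Bh ⊔ pull Z.μ (p true) Xh.ms) Z.μ) h4).mp h3
  have hC : Fac Z (pull Z.μ (p false) Bh ⊔ pull Z.μ (p true) Xh.ms) :=
    F.t.fsup Z _ _ (F.t.fpull Z Xh _ Bh e1 hK.1) (F.t.fpull Z Xh.frz _ _ e2 (F.t.top _))
  exact ⟨Z, p false, p true, _, e2, com, h1,
    F.h.adm Z Xh _ Bh _ rp.nice hN e1 hK hC le_sup_left h5, le_sup_right.trans (F.h.le Z _)⟩

end T4x

end

end PkGHatB

section PkGHt

/-! Factors of a context and the maps of the extension. -/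

set_option autoImplicit false
set_option linter.unusedVariables false
set_option warn.classDefReducibility false

open MeasureTheory ProbabilityTheory Filter Topology Function Finset ComplexConjugate
open scoped BigOperators
open Fib27 (BM sup pr Oc Orow F23 LInd Mem)
open Pool.Agent.MP_154433_an.SG (Uni ufn)

noncomputable section

namespace T4x

open T3x

variable [Grp]

namespace GHt

theorem pre_slot (F : Fd) (c : Ctx) (k : c.ι) (A : Set c.X.X) (hA : MeasurableSet[c.B] A) :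
    MeasurableSet[c.L.shp c.B] (c.π k ⁻¹' A) :=
  (le_sup_left.trans (F.lb.slot c.L c.B (c.sl k) c.kc.1) : c.B.comap (c.π k) ≤ c.L.shp c.B) _
    ⟨A, hA, rfl⟩

omit [Grp] in
theorem meas_nt {Ω : Type} (B : MeasurableSpace Ω) {m0 : MeasurableSpace Ω} (μ : Measure Ω)
    (g : Ω → ℂ) : MeasurableSet[B] {x | ‖(μ[g | B]) x‖ ≠ 1} :=
  (stronglyMeasurable_condExp (m := B) (μ := μ) (f := g)).norm.measurable
    (measurableSet_singleton (1 : ℝ)).compl

/-- almost invariant sets have the same preimage in all slots -/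
theorem slot_inv (F : Fd) {ν : Wt} {U : Ultrafilter ℕ} {X : Sys} (L : Ln ν U X) (s s' : Slot)
    (D : Set X.X) (hD : MeasurableSet D) (h : ∀ n, X.Tz n ⁻¹' D =ᵐ[X.μ] D) :
    L.π s ⁻¹' D =ᵐ[L.W.μ] L.π s' ⁻¹' D :=
  F.lb.inv L s s' D ⟨hD, fun n _ => h n⟩

end GHt

open GHt in
theorem xCtx : CtxR := by
  intro F c
  have facS : Fac c.W (c.L.shp c.B) := F.lb.fac c.L c.B c.kc.1
  have kc2 : KC c.W c.B2 := F.h.kc c.W _ c.L.nice facS
  refine ⟨c.kc.1, facS, kc2, F.h.le _ _, F.h.kc c.W2 _ c.L2.nice (F.lb.fac c.L2 c.B2 kc2.1),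
    fun k => c.L.emb _, fun k => c.L2.emb _, fun k => (c.lift k).emb,
    fun k => F.t.fpull _ _ _ _ (c.L.emb _) (F.t.top _), fun k => F.lb.slot c.L c.B _ c.kc.1,
    pre_slot F c, fun k g => pre_slot F c k _ (meas_nt c.B c.X.μ g), ?_, fun gi k f hf => ?_⟩
  · obtain ⟨i, j, hij⟩ := Fintype.exists_pair_of_one_lt_card (α := c.ι) (by
      have := c.three
      omega)
    rcases c.nrm.nz j with hj | hj
    · exact ⟨j, hj⟩
    · have h := c.nrm.cov i (mem_univ _) j (mem_univ _) hij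
      by_cases e : (c.sl i).2 = (c.sl j).2
      · have h1 := h.1 e
        rw [hj, sub_zero] at h1
        exact ⟨i, h1⟩
      · exact ⟨i, h.2 e⟩
  · have ne : ({k} : Finset c.ι) ≠ univ := fun e => by
      have h1 := congrArg Finset.card e
      have := c.three
      rw [card_singleton, card_univ] at h1
      omega
    have := gi.line {k} ne (fun _ => f) fun _ _ => hf
    simp only [prod_singleton] at this
    exact this

open GHt in
theorem xHt : HtR := by
  intro F S G c H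
  have embp : Emb H.X1 c.X H.p := H.adm.emb
  have frzT : ∀ n, KEq H.X1.μ H.Xh.ms (H.p2 ∘ H.X1.Tz n) H.p2 := H.emb2.eqv
  refine ⟨embp, fun a => F.t.emb_comp _ _ _ _ _ H.emb1 (H.rp.emb a), fun a A hA => ?_, H.lift.emb,
    fun k => H.L1.emb _, fun k => F.la.slot H.L1 c.L _ H.Lp (c.sl k) embp H.lift, H.adm.kc.1,
    (S.ob H.L1 c.L H.B1 c.B H.p H.Lp c.sl H.i0 c.kc.1 H.adm.kc.1 embp H.adm.le H.lift).2,
    fun f hf => ?_, fun j k A hA => ?_, frzT⟩
  · exact H.emb1.mp.quasiMeasurePreserving.preimage_ae_eq (H.rp.com a A hA)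
  · exact (H.adm.cp _ (F.a.bm_comp c.X.ms H.X1.μ c.X.μ H.p f embp.mp hf)).trans
      (F.a.ce_comp c.B H.X1.μ c.X.μ H.p f embp.mp c.kc.1.le hf.integrable)
  · exact slot_inv F H.L1 (c.sl j) (c.sl k) (H.p2 ⁻¹' A) (H.emb2.mp.measurable hA)
      fun n => frzT n A hA

end T4x

end

end PkGHt
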