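import Pool.Agent.MP_154433_an.t4.SpecG

/-! Rows for commuting maps, part G3. -/

section PkGMix

/-! Row GMix: two slots of the line are coupled along the invariant factor of their group. -/

set_option autoImplicit false
set_option linter.unusedVariables false
set_option warn.classDefReducibility false

open MeasureTheory ProbabilityTheory Filter Topology Function Finset ComplexConjugate
open scoped BigOperators
open Fib27 (BM sup pr Oc Orow F23 LInd Mem)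

noncomputable section

namespace T4x

open T3x

variable [Grp]

namespace GMixx

omit [Grp] in
/-- an everywhere bounded measurable version -/
theorem ver {Ω : Type} [m : MeasurableSpace Ω] (μ : Measure Ω) (f : Ω → ℂ) (hf : BM μ m f) :
    ∃ f0 ∈ Bdd Ω, f =ᵐ[μ] f0 := by
  classical
  obtain ⟨h1, C, hC⟩ := hf
  have hm : Measurable (h1.mk f) := h1.stronglyMeasurable_mk.measurable
  refine ⟨fun x => if ‖h1.mk f x‖ ≤ C then h1.mk f x else 0, ⟨?_, max C 0, fun x => ?_⟩, ?_⟩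
  · exact Measurable.ite (measurableSet_le hm.norm measurable_const) hm measurable_const
  · by_cases hx : ‖h1.mk f x‖ ≤ C
    · simp only [if_pos hx]
      exact hx.trans (le_max_left _ _)
    · simp only [if_neg hx, norm_zero]
      exact le_max_right _ _
  · filter_upwards [h1.ae_eq_mk, hC] with x e hx
    rw [e] at hx
    simp only [if_pos hx]
    exact e

omit [Grp] in
theorem bm_of {Ω : Type} [m : MeasurableSpace Ω] (μ : Measure Ω) (f : Ω → ℂ) (hf : f ∈ Bdd Ω) :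
    BM μ m f := by
  obtain ⟨h1, C, hC⟩ := hf
  exact ⟨h1.aestronglyMeasurable, C, Eventually.of_forall hC⟩

theorem fam (X : Sys) (s : Slot) (f : X.X → ℂ) (hf : f ∈ Bdd X.X) :
    (fun z : Lab × X.X => f (X.Tz (rho s z.1) z.2)) ∈ FamS X.ms := by
  obtain ⟨h1, C, hC⟩ := hf
  exact ⟨fun l => h1.comp (X.mp (rho s l)).measurable, C, fun z => hC _⟩

omit [Grp] in
theorem fam_mul {Ω : Type} (B : MeasurableSpace Ω) {F G : Lab × Ω → ℂ} (hF : F ∈ FamS B)
    (hG : G ∈ FamS B) : (fun z => F z * G z) ∈ FamS B := by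
  obtain ⟨h1, C, hC⟩ := hF
  obtain ⟨h2, D, hD⟩ := hG
  refine ⟨fun l => (h1 l).mul (h2 l), C * D, fun z => ?_⟩
  rw [norm_mul]
  exact mul_le_mul (hC z) (hD z) (norm_nonneg _) ((norm_nonneg _).trans (hC z))

end GMixx

open GMixx in
theorem xMixL : MixL := by
  intro fd ν U X L s s' hU erg f g hf hg
  obtain ⟨f0, hf0, ef⟩ := ver X.μ f hf
  obtain ⟨g0, hg0, eg⟩ := ver X.μ g hg
  have hF := fam X s f0 hf0
  have hG := fam X s' g0 hg0
  have h1 := L.lim _ (fam_mul X.ms hF hG)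
  have h2 := ((fd.mix ν erg).pair X s s' f0 g0 (bm_of _ _ hf0) (bm_of _ _ hg0)).mono_left hU
  have e := tendsto_nhds_unique h1 h2
  have a1 : (fun w => f (L.π s w)) =ᵐ[L.W.μ] fun w => f0 (L.π s w) :=
    (L.emb s).mp.quasiMeasurePreserving.ae_eq_comp ef
  have a2 : (fun w => g (L.π s' w)) =ᵐ[L.W.μ] fun w => g0 (L.π s' w) :=
    (L.emb s').mp.quasiMeasurePreserving.ae_eq_comp eg
  have c1 : X.μ[f | Inv X (pg s s')] =ᵐ[X.μ] X.μ[f0 | Inv X (pg s s')] := condExp_congr_ae ef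
  have c2 : X.μ[g | Inv X (pg s s')] =ᵐ[X.μ] X.μ[g0 | Inv X (pg s s')] := condExp_congr_ae eg
  refine Eq.trans (integral_congr_ae ?_) (e.trans (integral_congr_ae ?_))
  · filter_upwards [a1, a2, L.slot s f0 hf0, L.slot s' g0 hg0] with w b1 b2 b3 b4
    rw [b1, b2, b3, b4]
    exact ((L.ch w).mul _ hF _ hG).symm
  · filter_upwards [c1, c2] with x b1 b2
    rw [b1, b2]

end T4x

end

end PkGMix

section PkGOnhB

/-! Row GOnhB: the properties ONH and HI pass to the hull. -/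

set_option autoImplicit false
set_option linter.unusedVariables false
set_option warn.classDefReducibility false

open MeasureTheory ProbabilityTheory Filter Topology Function Finset ComplexConjugate
open scoped BigOperators
open Fib27 (BM sup pr Oc Orow F23 LInd Mem)
open Pool.Agent.MP_154433_an.SG (Uni ufn)

noncomputable section

namespace T4x

open T3x

variable [Grp]

namespace GOnhB

lemma th_eq (Y : Sys) (C : MeasurableSpace Y.X) (F : Y.X → ℂ) (S : Set Y.X)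
    (hF : ∀ᵐ x ∂Y.μ, ‖F x‖ = 1) (h : Y.μ[F | C] =ᵐ[Y.μ] S.indicator F) :
    Th C Y.μ F =ᵐ[Y.μ] S := by
  refine Filter.eventuallyEq_set.2 ?_
  filter_upwards [hF, h] with x h1 h2
  show ‖(Y.μ[F | C]) x‖ = 1 ↔ x ∈ S
  rw [h2]
  by_cases hx : x ∈ S
  · simp [h1, hx]
  · simp [hx]

lemma meas_of_ae (Y : Sys) (D : MeasurableSpace Y.X) (hD : Fac Y D) (A S : Set Y.X)
    (hA : MeasurableSet[Y.ms] A) (hS : MeasurableSet[D] S) (h : A =ᵐ[Y.μ] S) :
    MeasurableSet[D] A := by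
  have hS' : MeasurableSet[Y.ms] S := hD.le _ hS
  obtain ⟨h1, h2⟩ := ae_eq_set.1 h
  have n1 : MeasurableSet[D] (A \ S) :=
    hD.nl _ (MeasurableSpace.measurableSet_generateFrom ⟨@MeasurableSet.diff _ Y.ms _ _ hA hS', h1⟩)
  have n2 : MeasurableSet[D] (S \ A) :=
    hD.nl _ (MeasurableSpace.measurableSet_generateFrom ⟨@MeasurableSet.diff _ Y.ms _ _ hS' hA, h2⟩)
  have e : A = (S \ (S \ A)) ∪ (A \ S) := by
    ext x
    simp only [Set.mem_union, Set.mem_sdiff]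
    tauto
  rw [e]
  exact @MeasurableSet.union _ D _ _ (@MeasurableSet.diff _ D _ _ hS n2) n1

/-- the shift difference of a tuple -/
def dd {ι V : Type} [AddCommGroup V] (sg : Γ →+ AddAut V) (u : Γ) (n : ℕ) (v : ι → V) : ι → V :=
  (fun k => sg ((n : ℤ) • u) (v k)) - v

lemma core (hK : OnhK) (hC : OnhC) (hA : RelA) (gc : GC) (fd : Fd) (rc : Rc) (c : Ctx) (V : Type)
    [AddCommGroup V] [Countable V] (sg : Γ →+ AddAut V) (ψ : V → c.X.X → ℂ)
    (hψ : Psi c.X c.B sg ψ)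
    (R : (c.ι → V) → Set c.W.X) (hR : ∀ v, MeasurableSet[c.L.shp c.B] (R v))
    (hdec : ∀ u ∈ 𝒰, ∀ v, Tendsto (fun N : ℕ => (N : ℝ)⁻¹ *
      ∑ n ∈ range N, c.W.μ.real (R v \ R (dd sg u n v))) atTop (𝓝 0))
    (h0 : ∀ v, c.W.μ (Th (c.L.shp c.B) c.W.μ (c.FF ψ v) ∩ R v) = 0) :
    ∀ v, ∃ S : Set c.W.X, MeasurableSet[c.L.shp c.B] S ∧ c.ΘV ψ v =ᵐ[c.W.μ] S ∧
      c.W.μ (S ∩ R v) = 0 := by
  have cc := gc.ctx c
  have ff := gc.ff c V sg ψ hψ
  have hd : ∀ (u : Γ) (n : ℕ) v, c.FF ψ (dd sg u n v) =ᵐ[c.W.μ]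
      fun y => c.FF ψ v (c.W.Tz ((n : ℤ) • u) y) * conj (c.FF ψ v y) := by
    intro u n v
    filter_upwards [ff.sub (fun k => sg ((n : ℤ) • u) (v k)) v, ff.shz ((n : ℤ) • u) v]
      with y h1 h2
    rw [← h2]
    exact h1
  have hP : PQ c.W (c.L.shp c.B) (c.FF ψ) R (hull c.W (c.L.shp c.B)) := by
    refine fd.h.ind c.W (c.L.shp c.B) (PQ c.W (c.L.shp c.B) (c.FF ψ) R) c.L.nice cc.facS ?_ ?_ ?_
    · intro v
      exact ⟨_, rc.meas _ _ _, (hA fd rc gc c V sg ψ hψ v).2, h0 v⟩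
    · intro u hu C h1 h2 h3
      exact hK fd c.W u _ C _ (c.FF ψ) R (dd sg u) c.L.nice cc.facS h1 h2 ff.um hR (hd u)
        (hdec u hu) h3
    · intro 𝒞 h1 h2 h3
      exact hC fd c.W _ _ (c.FF ψ) R 𝒞 cc.facS ff.um h1 h2 h3
  intro v
  obtain ⟨S, h1, h2, h3⟩ := hP v
  exact ⟨S, h1, th_eq c.W _ _ S (ff.um v).2 h2, h3⟩

end GOnhB

theorem xOnhB : OnhB := by
  intro gc hK hC hD hA fd rc _ c V _ _ sg ψ hψ
  have cc := gc.ctx c
  have ff := gc.ff c V sg ψ hψ
  constructor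
  · intro v
    obtain ⟨S, h1, h2, _⟩ := GOnhB.core hK hC hA gc fd rc c V sg ψ hψ (fun _ => ∅)
      (fun _ => @MeasurableSet.empty _ (c.L.shp c.B)) (fun _ _ _ => by simp) (fun _ => by simp) v
    exact GOnhB.meas_of_ae c.W _ cc.facS _ S (cc.kc2.1.le _ (ff.tm v)) h1 h2
  · intro Y j hY h0 v
    have hdec : ∀ u ∈ 𝒰, ∀ v : c.ι → V, Tendsto (fun N : ℕ => (N : ℝ)⁻¹ * ∑ n ∈ range N,
        c.W.μ.real ((Y ∩ c.Nt j (ψ (v j))) \ (Y ∩ c.Nt j (ψ (GOnhB.dd sg u n v j)))))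
        atTop (𝓝 0) := by
      intro u hu v
      refine squeeze_zero (fun N => by positivity) (fun N => ?_)
        (hD fd rc gc c.X c.B V sg ψ c.nice c.kc hψ u hu (v j) (v j))
      refine mul_le_mul_of_nonneg_left (sum_le_sum fun n _ => ?_) (by positivity)
      have hm : MeasurableSet[c.X.ms] (Th c.B c.X.μ (ψ (sg ((n : ℤ) • u) (v j) - v j)) \
          Th c.B c.X.μ (ψ (v j))) :=
        @MeasurableSet.diff _ c.X.ms _ _ (cc.facB.le _ (rc.meas _ _ _))
          (cc.facB.le _ (rc.meas _ _ _))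
      rw [← (cc.embπ j).mp.measureReal_preimage hm.nullMeasurableSet]
      refine measureReal_mono fun w hw => ?_
      refine ⟨?_, hw.1.2⟩
      by_contra hn
      exact hw.2 ⟨hw.1.1, hn⟩
    obtain ⟨S, _, h2, h3⟩ := GOnhB.core hK hC hA gc fd rc c V sg ψ hψ
      (fun v => Y ∩ c.Nt j (ψ (v j)))
      (fun v => @MeasurableSet.inter _ (c.L.shp c.B) _ _ hY (cc.nt j _)) hdec
      (fun v => by rw [← Set.inter_assoc, Set.inter_comm _ Y]; exact h0 v) v
    rw [Set.inter_comm Y, Set.inter_assoc, ← h3]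
    exact measure_congr (h2.inter (ae_eq_refl _))

end T4x

end

end PkGOnhB

section PkGOnhC

/-! The property `PQ` passes to the supremum of a chain. -/

set_option autoImplicit false

open MeasureTheory Filter
open Fib27 (BM)

noncomputable section

namespace T4x

open T3x

variable [Grp]

namespace GOnhC

omit [Grp] in
theorem main (hd : BasD) {Ω : Type} (D : MeasurableSpace Ω) (𝒞 : Set (MeasurableSpace Ω))
    {m0 : MeasurableSpace Ω} (μ : Measure Ω) [IsProbabilityMeasure μ] (f : Ω → ℂ) (R : Set Ω)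
    (hf : BM μ m0 f) (h1 : 𝒞.Nonempty) (h2 : DirectedOn (· ≤ ·) 𝒞)
    (h3 : ∀ C ∈ 𝒞, C ≤ m0 ∧ D ≤ C ∧
      ∃ S : Set Ω, MeasurableSet[D] S ∧ μ[f | C] =ᵐ[μ] S.indicator f ∧ μ (S ∩ R) = 0) :
    ∃ S : Set Ω, MeasurableSet[D] S ∧ μ[f | sSup 𝒞] =ᵐ[μ] S.indicator f ∧ μ (S ∩ R) = 0 := by
  obtain ⟨C0, hC0⟩ := id h1
  have hM : sSup 𝒞 ≤ m0 := sSup_le fun C hC => (h3 C hC).1
  have hD : D ≤ sSup 𝒞 := (h3 C0 hC0).2.1.trans (le_sSup hC0)
  obtain ⟨𝒜, a1, a2, a3⟩ := hd.ess μ {S | MeasurableSet[D] S ∧ μ (S ∩ R) = 0 ∧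
    ∃ C ∈ 𝒞, μ[f | C] =ᵐ[μ] S.indicator f} fun A hA => hD.trans hM _ hA.1
  have hS : MeasurableSet[D] (⋃₀ 𝒜) := MeasurableSet.sUnion a2 fun A hA => (a1 hA).1
  refine ⟨_, hS, ?_, ?_⟩
  · have b1 : ∀ᵐ x ∂μ, ∀ A ∈ 𝒜, x ∈ A → (μ[f | sSup 𝒞]) x = f x := by
      refine (ae_ball_iff a2).2 fun A hA => ?_
      obtain ⟨c1, -, C, c2, c3⟩ := a1 hA
      have c4 : BM μ (sSup 𝒞) (A.indicator f) := ((hf.ce C).congr c3).mono (le_sSup c2)
      filter_upwards [c4.ce_self hM, condExp_indicator hf.integrable (hD _ c1)] with x e1 e2 hx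
      rw [e2, Set.indicator_of_mem hx, Set.indicator_of_mem hx] at e1
      exact e1
    have g1 : BM μ m0 ((⋃₀ 𝒜)ᶜ.indicator f) :=
      ((BM.indicator (hD.trans hM _ hS.compl)).mul hf).congr (Eventually.of_forall fun x => by
        by_cases hx : x ∈ (⋃₀ 𝒜)ᶜ <;> simp [hx])
    have g2 : ∀ C ∈ 𝒞, μ[(⋃₀ 𝒜)ᶜ.indicator f | C] =ᵐ[μ] 0 := fun C hC => by
      obtain ⟨-, c1, A, c2, c3, c4⟩ := h3 C hC
      filter_upwards [condExp_indicator hf.integrable (c1 _ hS.compl), c3,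
        a3 A ⟨c2, c4, C, hC, c3⟩] with x e1 e2 e3
      rw [e1]
      by_cases hx : x ∈ (⋃₀ 𝒜)ᶜ
      · rw [Set.indicator_of_mem hx, e2, Set.indicator_of_notMem fun h => hx (e3 h)]
        rfl
      · exact Set.indicator_of_notMem hx _
    have g3 : ∫ x, ‖(μ[(⋃₀ 𝒜)ᶜ.indicator f | sSup 𝒞]) x‖ ^ 2 ∂μ = 0 := by
      refine le_antisymm (le_of_forall_pos_le_add fun ε hε => ?_)
        (integral_nonneg fun _ => sq_nonneg _)
      obtain ⟨C, c1, c2⟩ := hd.chain 𝒞 μ h1 h2 (fun C hC => (h3 C hC).1) _ (g1.memLp 2) ε hε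
      rw [zero_add]
      refine le_of_eq_of_le (integral_congr_ae ?_) (c2 C c1 le_rfl)
      filter_upwards [g2 C c1] with x e
      rw [e, Pi.zero_apply, sub_zero]
    rw [integral_eq_zero_iff_of_nonneg (fun _ => sq_nonneg _)
      ((((g1.ce _).mono hM).memLp 2).integrable_norm_pow two_ne_zero)] at g3
    filter_upwards [b1, g3, condExp_indicator hf.integrable (hD _ hS.compl)] with x e1 e2 e3
    by_cases hx : x ∈ ⋃₀ 𝒜
    · rw [Set.indicator_of_mem hx]
      obtain ⟨A, c1, c2⟩ := hx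
      exact e1 A c1 c2
    · rw [e3, Set.indicator_of_mem (Set.mem_compl hx)] at e2
      rw [Set.indicator_of_notMem hx]
      simpa using e2
  · rw [Set.sUnion_eq_biUnion, Set.iUnion₂_inter]
    exact (measure_biUnion_null_iff a2).2 fun A hA => (a1 hA).2.1

end GOnhC

theorem xOnhC : OnhC := fun h Y D _ F R 𝒞 _ hF h1 h2 h3 a =>
  GOnhC.main h.d D 𝒞 Y.μ (F a) (R a) (BM.of_uni (hF a).1 (hF a).2) h1 h2.directedOn
    fun C hC => ⟨(h3 C hC).1.le, (h3 C hC).2.1, (h3 C hC).2.2 a⟩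

end T4x

end

end PkGOnhC

section PkGOnhK

/-! The property `PQ` passes from `C` to `KK C`. -/

set_option autoImplicit false
set_option linter.unusedVariables false
set_option warn.classDefReducibility false

open MeasureTheory ProbabilityTheory Filter Topology Function Finset ComplexConjugate
open scoped BigOperators
open Fib27 (BM)

noncomputable section

namespace T4x

open T3x

variable [Grp]

namespace GOnhK

omit [Grp] in
lemma lower {Ω : Type} {C m0 : MeasurableSpace Ω} {μ : Measure Ω} [IsProbabilityMeasure μ]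
    (hC : C ≤ m0) {S : Set Ω} (hS : MeasurableSet S) {u f g : Ω → ℂ} (bu : BM μ C u)
    (bf : BM μ m0 f) (bg : BM μ m0 g)
    (h : ∀ᵐ x ∂μ, (x ∈ S → ‖u x‖ = 1 ∧ g x = u x * f x) ∧ (x ∉ S → u x = 0)) :
    ∫ x in S, ‖f x‖ ^ 2 ∂μ ≤ ∫ x, ‖(μ[fun y => g y * conj (f y) | C]) x‖ ∂μ := by
  have bh := bg.mul bf.conj
  have e1 := Fib27.int_mul_ce hC bu.conj bh
  have e2 : ∫ x, conj (u x) * (g x * conj (f x)) ∂μ = ((∫ x in S, ‖f x‖ ^ 2 ∂μ : ℝ) : ℂ) := by
    rw [← integral_indicator hS, ← integral_complex_ofReal]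
    refine integral_congr_ae ?_
    filter_upwards [h] with x ⟨h1, h2⟩
    by_cases e : x ∈ S
    · obtain ⟨k1, k2⟩ := h1 e
      have := Fib27.mul_conj_uni k1
      rw [Set.indicator_of_mem e, k2, ← Complex.normSq_eq_norm_sq, ← Complex.mul_conj]
      linear_combination f x * conj (f x) * this
    · simp [Set.indicator_of_notMem e, h2 e]
  refine (le_abs_self _).trans ?_
  rw [← Real.norm_eq_abs, ← Complex.norm_real, ← e2, ← e1]
  refine (norm_integral_le_integral_norm _).trans (integral_mono_of_nonneg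
    (Eventually.of_forall fun x => norm_nonneg _) integrable_condExp.norm ?_)
  filter_upwards [h] with x ⟨h1, h2⟩
  by_cases e : x ∈ S
  · rw [norm_mul, Complex.norm_conj, (h1 e).1, one_mul]
  · simp [h2 e]

end GOnhK

open GOnhK in
theorem xOnhK : OnhK := by
  intro fd Y u D C α F R d hY hD hC hDC hF hR hd hlim hPQ a
  have hK := fd.kb.fac Y u C hY hC
  have hCK := fd.kb.le Y u C hY hC
  choose S hS hu hn using fun n : ℕ => hPQ (d n a)
  have bF : ∀ a, BM Y.μ Y.ms (F a) := fun a => Fib27.BM.of_uni (hF a).1 (hF a).2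
  have sh : ∀ (n : ℕ) f, BM Y.μ Y.ms f → BM Y.μ Y.ms fun x => f (Y.Tz ((n : ℤ) • u) x) :=
    fun n f => fd.t.bm Y _ ((n : ℤ) • u) f (fd.t.top Y)
  have bG := (bF a).ce (KK Y u C)
  have bu := fun n : ℕ => (bF (d n a)).ce C
  have key : ∀ Q, MeasurableSet[D] Q → (∀ ε : ℝ, 0 < ε → ∀ᶠ N : ℕ in atTop,
      (N : ℝ)⁻¹ * ∑ n ∈ range N, Y.μ.real (Q ∩ S n) ≤ ε) →
      ∀ᵐ x ∂Y.μ, x ∈ Q → (Y.μ[F a | KK Y u C]) x = 0 := by
    intro Q hQ h
    have bQ : BM Y.μ C (Q.indicator fun _ => (1 : ℂ)) := Fib27.BM.indicator (hDC Q hQ)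
    have bf := (bQ.mono hC.le).mul (bF a)
    have wm := fd.ka.weak Y u C hY hC _ bf fun ε hε => ((h ε hε).mono fun N hN =>
      le_trans (mul_le_mul_of_nonneg_left (sum_le_sum fun n _ => ?_) (by positivity)) hN).frequently
    · filter_upwards [(fd.kb.wm Y u C hY hC _ (bf.memLp 2)).1 wm,
        Fib27.ce_mul hK.le (bQ.mono hCK) (bF a)] with x h1 h2 e
      rw [h1, Set.indicator_of_mem e, one_mul] at h2
      exact h2.symm
    have ms := hD.le _ (hQ.inter (hS n))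
    rw [← integral_indicator_one ms]
    refine integral_mono_of_nonneg (Eventually.of_forall fun x => norm_nonneg _)
      ((integrable_const _).indicator ms) ?_
    have e := (condExp_congr_ae (m := C) (f := fun y =>
      Q.indicator (fun _ => (1 : ℂ)) (Y.Tz ((n : ℤ) • u) y) * F a (Y.Tz ((n : ℤ) • u) y) *
        conj (Q.indicator (fun _ => (1 : ℂ)) y * F a y)) (by
      filter_upwards [hd n a] with x hx
      rw [hx]
      by_cases e : x ∈ Q <;> simp [e, mul_assoc])).trans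
      (Fib27.ce_mul hC.le ((fd.t.bm Y C ((n : ℤ) • u) _ hC bQ).mul bQ) (bF (d n a)))
    filter_upwards [e, hu n, (hF (d n a)).2] with x h1 h2 h3
    rw [h1, h2]
    by_cases e1 : x ∈ Q <;> by_cases e2 : x ∈ S n <;> by_cases e3 : Y.Tz ((n : ℤ) • u) x ∈ Q <;>
      simp [-natCast_zsmul, e1, e2, e3, h3]
  have b0 := (bF a).sub (bG.mono hK.le)
  have wm0 := ((fd.kb.wm Y u C hY hC _ (b0.memLp 2)).2
    ((Fib27.perp_sub_ce hK.le (bF a)).ce hK.le b0)).2 _ b0.conj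
  have e3 := fun n : ℕ => lower hC.le (hD.le _ (hS n)) (bu n) b0 (sh n _ b0) (by
    have bS : BM Y.μ (KK Y u C) ((S n).indicator fun _ => (1 : ℂ)) :=
      Fib27.BM.indicator (hCK _ (hDC _ (hS n)))
    have e1 : (fun x => (S n).indicator (fun _ => (1 : ℂ)) x * F a (Y.Tz ((n : ℤ) • u) x)) =ᵐ[Y.μ]
        fun x => (Y.μ[F (d n a) | C]) x * F a x := by
      filter_upwards [hu n, hd n a, (hF a).2] with x h1 h2 h3
      rw [h1]
      by_cases e : x ∈ S n
      · rw [Set.indicator_of_mem e, Set.indicator_of_mem e, h2]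
        linear_combination (-F a (Y.Tz ((n : ℤ) • u) x)) * Fib27.mul_conj_uni h3
      · simp [e]
    filter_upwards [e1, condExp_congr_ae (m := KK Y u C) e1,
      Fib27.ce_mul hK.le bS (sh n _ (bF a)), fd.t.ce Y _ ((n : ℤ) • u) (F a) hK (bF a).integrable,
      Fib27.ce_mul hK.le ((bu n).mono hCK) (bF a), hu n, (hF (d n a)).2]
      with x h1 h2 h3 h4 h5 h6 h7
    rw [h3, h4, h5] at h2
    refine ⟨fun e => ?_, fun e => by rw [h6, Set.indicator_of_notMem e]⟩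
    rw [Set.indicator_of_mem e, one_mul] at h1 h2
    exact ⟨by rw [h6, Set.indicator_of_mem e, h7], by rw [h1, h2, mul_sub]⟩)
  have i0 : Integrable (fun x => ‖F a x - (Y.μ[F a | KK Y u C]) x‖ ^ 2) Y.μ :=
    (b0.memLp 2).integrable_norm_pow two_ne_zero
  set φ := Y.μ[fun x => ‖F a x - (Y.μ[F a | KK Y u C]) x‖ ^ 2 | D] with hφ
  have mφ : Measurable[D] φ := stronglyMeasurable_condExp.measurable
  have k1 : ∀ m : ℕ, ∀ᵐ x ∂Y.μ, x ∈ φ ⁻¹' Set.Ici (1 / (m + 1 : ℝ)) →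
      (Y.μ[F a | KK Y u C]) x = 0 := fun m => by
    have hQ : MeasurableSet[D] (φ ⁻¹' Set.Ici (1 / (m + 1 : ℝ))) := mφ measurableSet_Ici
    have p : (0 : ℝ) < 1 / (m + 1 : ℝ) := by positivity
    refine key _ hQ fun ε hε => ?_
    filter_upwards [wm0.eventually (ge_mem_nhds (mul_pos p hε))] with N hN
    refine le_of_mul_le_mul_left (le_trans ?_ hN) p
    rw [mul_left_comm, mul_sum]
    refine mul_le_mul_of_nonneg_left (sum_le_sum fun n _ => le_trans ?_ (e3 n)) (by positivity)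
    have ms := hQ.inter (hS n)
    refine (setIntegral_ge_of_const_le_real (hD.le _ ms) (measure_ne_top _ _)
      (fun x hx => hx.1) integrable_condExp.integrableOn).trans ?_
    rw [setIntegral_condExp hD.le i0 ms]
    exact setIntegral_mono_set i0.integrableOn (Eventually.of_forall fun x => by positivity)
      (Eventually.of_forall fun x hx => hx.2)
  have hS0 : MeasurableSet[D] (φ ⁻¹' Set.Iic 0) := mφ measurableSet_Iic
  have k2 : ∀ᵐ x ∂Y.μ, x ∈ φ ⁻¹' Set.Iic 0 → (Y.μ[F a | KK Y u C]) x = F a x := by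
    have := (setIntegral_eq_zero_iff_of_nonneg_ae (Eventually.of_forall fun x => by positivity)
      i0.integrableOn).1 (le_antisymm ((setIntegral_condExp hD.le i0 hS0).symm.trans_le
        (setIntegral_nonpos (hD.le _ hS0) fun x hx => hx))
        (integral_nonneg fun x => by positivity))
    filter_upwards [(ae_restrict_iff' (hD.le _ hS0)).1 this] with x hx e
    have := hx e
    simp only [Pi.zero_apply, ne_eq, OfNat.ofNat_ne_zero, not_false_eq_true, pow_eq_zero_iff,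
      norm_eq_zero, sub_eq_zero] at this
    exact this.symm
  refine ⟨_, hS0, ?_, ?_⟩
  · filter_upwards [ae_all_iff.2 k1, k2] with x h1 h2
    by_cases e : x ∈ φ ⁻¹' Set.Iic 0
    · rw [Set.indicator_of_mem e, h2 e]
    · obtain ⟨m, hm⟩ := exists_nat_one_div_lt (not_le.1 (show ¬ φ x ≤ 0 from e))
      rw [Set.indicator_of_notMem e, h1 m hm.le]
  · have k3 := key _ (hS0.inter (hR a)) fun ε hε => by
      filter_upwards [(hlim a).eventually (ge_mem_nhds hε)] with N hN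
      refine le_trans (mul_le_mul_of_nonneg_left (sum_le_sum fun n _ => ?_) (by positivity)) hN
      refine ENNReal.toReal_mono (measure_ne_top _ _) (measure_mono_ae ?_)
      filter_upwards [measure_eq_zero_iff_ae_notMem.1 (hn n)] with x hx e
      exact ⟨e.1.2, fun h => hx ⟨e.2, h⟩⟩
    refine measure_eq_zero_iff_ae_notMem.2 ?_
    filter_upwards [k3, k2, (hF a).2] with x h1 h2 h3 e
    rw [← h2 e.1, h1 e] at h3
    simp at h3

end T4x

end

end PkGOnhK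

section PkGPosB

/-! The type of a nontrivial tuple meets the frozen type with positive probability. -/

set_option autoImplicit false
set_option linter.unusedVariables false
set_option warn.classDefReducibility false

open MeasureTheory ProbabilityTheory Filter Topology Function Finset ComplexConjugate
open scoped BigOperators
open Fib27 (BM sup pr)
open Pool.Agent.MP_154433_an.SG (Uni ufn)

noncomputable section

namespace T4x

open T3x

namespace GPosB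

theorem meas_eq {Ω Y κ : Type} [MeasurableSpace Ω] [MeasurableSpace Y] [Countable κ]
    {a1 a2 : Ω → Y} {t t' : Y → κ → Prop} (h1 : Measurable a1) (h2 : Measurable a2)
    (ht : ∀ i, MeasurableSet {y | t y i}) (ht' : ∀ i, MeasurableSet {y | t' y i}) :
    MeasurableSet {x | t (a1 x) = t' (a2 x)} := by
  have e : {x | t (a1 x) = t' (a2 x)} = ⋂ i, {x | t (a1 x) i ↔ t' (a2 x) i} := by
    ext x
    simp only [Set.mem_setOf_eq, Set.mem_iInter, funext_iff, eq_iff_iff]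
  rw [e]
  exact MeasurableSet.iInter fun i => MeasurableSet.iff (h1 (ht i)) (h2 (ht' i))

section

variable {Ω : Type} {m m0 : MeasurableSpace Ω} {μ : Measure Ω} [IsProbabilityMeasure μ]
  {A E : Set Ω}

theorem ind_mul (A E : Set Ω) (x : Ω) :
    A.indicator (fun _ => (1 : ℂ)) x * E.indicator (fun _ => (1 : ℂ)) x =
      (A ∩ E).indicator (fun _ => (1 : ℂ)) x := by
  by_cases h : x ∈ A <;> by_cases h' : x ∈ E <;> simp [h, h']

theorem int_ind (hA : MeasurableSet[m0] A) :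
    ∫ x, A.indicator (fun _ => (1 : ℂ)) x ∂μ = (μ.real A : ℂ) := by
  rw [integral_indicator hA]
  simp

theorem null_of_ce (hm : m ≤ m0) (hA : MeasurableSet[m] A) (hE : MeasurableSet[m0] E)
    (h : ∀ᵐ x ∂μ, x ∈ A → (μ[E.indicator fun _ => (1 : ℂ) | m]) x = 0) : μ (A ∩ E) = 0 := by
  have h1 := Fib27.int_mul_ce (κ := μ) hm (BM.indicator hA) (BM.indicator hE)
  have h2 : ∫ x, A.indicator (fun _ => (1 : ℂ)) x * (μ[E.indicator fun _ => (1 : ℂ) | m]) x ∂μ =
      0 := by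
    refine integral_eq_zero_of_ae ?_
    filter_upwards [h] with x hx
    by_cases hxA : x ∈ A
    · simp [hx hxA]
    · simp [hxA]
  rw [h2] at h1
  simp only [ind_mul] at h1
  rw [int_ind ((hm A hA).inter hE)] at h1
  exact (measureReal_eq_zero_iff (measure_ne_top _ _)).1 (by exact_mod_cast h1.symm)

theorem ce_of_null (hm : m ≤ m0) (hA : MeasurableSet[m] A) (hE : MeasurableSet[m0] E)
    (h : ∀ᵐ x ∂μ, x ∈ A → x ∉ E) :
    ∀ᵐ x ∂μ, x ∈ A → (μ[E.indicator fun _ => (1 : ℂ) | m]) x = 0 := by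
  have h1 := Fib27.ce_mul (κ := μ) hm (BM.indicator hA) (BM.indicator hE)
  have h2 : (fun x => A.indicator (fun _ => (1 : ℂ)) x * E.indicator (fun _ => (1 : ℂ)) x) =ᵐ[μ]
      0 := by
    filter_upwards [h] with x hx
    by_cases hxA : x ∈ A
    · simp [hx hxA]
    · simp [hxA]
  have h3 := condExp_congr_ae (m := m) h2
  rw [condExp_zero] at h3
  filter_upwards [h1, h3] with x a b hx
  rw [a] at b
  simpa [hx] using b

end

variable [Grp]

/-- atoms over the invariant algebras of a family of sets are atoms over that of the union -/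
theorem at_union (F : Fd) (at' : AtS) (X : Sys) {κ ι : Type} [Countable κ] [DecidableEq ι]
    (t : X.X → κ → Prop) (ht : ∀ i, MeasurableSet {y | t y i}) (h : ι → Set Γ) (j : ι)
    (S : Finset ι) : ∀ᵐ y ∂X.μ, y ∈ At (Inv X (h j)) X.μ t →
      (∀ k ∈ S, y ∈ At (Inv X (h k)) X.μ t) → y ∈ At (Inv X (h j ∪ ⋃ k ∈ S, h k)) X.μ t := by
  induction S using Finset.induction_on with
  | empty =>
    refine Eventually.of_forall fun y h1 _ => ?_
    simpa using h1
  | insert a S ha ih =>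
    have e : h j ∪ ⋃ k ∈ insert a S, h k = (h j ∪ ⋃ k ∈ S, h k) ∪ h a := by
      rw [Finset.set_biUnion_insert, Set.union_assoc, Set.union_comm (h a)]
    rw [e]
    filter_upwards [ih, at'.two (Inv X (h j ∪ ⋃ k ∈ S, h k)) (Inv X (h a))
      (Inv X ((h j ∪ ⋃ k ∈ S, h k) ∪ h a)) X.μ t (F.t.finv X _).le (F.t.finv X _).le
      (F.t.inv_anti X _ _ Set.subset_union_left) (F.t.inv_anti X _ _ Set.subset_union_right)
      (fun f hf => F.t.inv_ce X _ _ f hf) ht] with y b1 b2 h1 h2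
    exact b2 (b1 h1 fun k hk => h2 k (Finset.mem_insert_of_mem hk))
      (h2 a (Finset.mem_insert_self a S))

end GPosB

open GPosB

variable [Grp]

theorem xPosB : PosB := by
  intro F gc zc mx at' c H 𝒱 s g gi exh ty hg t5
  have cx := gc.ctx c
  have zv := zc.zv c 𝒱 s exh
  have ht := zc.ht c H
  obtain ⟨j, hj0⟩ := t5
  refine ⟨j, j, fun hnull => hj0 ?_⟩
  have hGm : MeasurableSet (c.Θ (c.up g) ∩ c.Nt j (ufn (g j))) :=
    (cx.kc2.1.le _ (zv.tm g)).inter (cx.facS.le _ (cx.nt j _))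
  have mt : ∀ (g' : Uni c.X.X) (a : ℕ × c.ι), MeasurableSet {y | H.τ 𝒱 g' y a} := fun g' a =>
    (H.rp.emb a).mp.measurable (cx.kc2.1.le _ (zv.meas a.2 g'))
  have mp2 : MeasurePreserving H.p2 H.X1.μ H.Xh.μ := H.emb2.mp
  have m1 : Measurable H.p1 := H.emb1.mp.measurable
  have m2 : Measurable H.p2 := mp2.measurable
  obtain ⟨E, hEd⟩ : ∃ E : Set H.X1.X,
      E = {x | H.τ 𝒱 (g j) (H.p1 x) = H.τ 𝒱 (g j) (H.p2 x)} := ⟨_, rfl⟩
  have hE : MeasurableSet E := hEd ▸ meas_eq m1 m2 (mt _) (mt _)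
  have hEb : BM H.X1.μ H.X1.ms (E.indicator fun _ => (1 : ℂ)) := BM.indicator hE
  have l1 : pull H.X1.μ H.p1 H.Xh.ms ≤ H.X1.ms := F.a.pull_le _ _ _ _ H.emb1.mp le_rfl
  obtain ⟨h1, C, hC⟩ := hEb.ce (pull H.X1.μ H.p1 H.Xh.ms)
  obtain ⟨α, a1, a2, a3⟩ := F.a.fact H.Xh.ms H.X1.μ H.p1 _ (max C 0) m1.comap_le
    (le_max_right _ _) h1 (hC.mono fun x hx => hx.trans (le_max_left _ _))
  have hαb : BM H.Xh.μ H.Xh.ms α :=
    ⟨a1.stronglyMeasurable.aestronglyMeasurable, _, Eventually.of_forall a2⟩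
  have hS : MeasurableSet {y | α y = 0} := a1 (measurableSet_singleton 0)
  have n1 : H.X1.μ {x | H.p1 x ∈ {y | α y = 0} ∧
      H.τ 𝒱 (g j) (H.p1 x) = H.τ 𝒱 (g j) (H.p2 x)} = 0 := by
    have h2 := null_of_ce (μ := H.X1.μ) l1 (A := H.p1 ⁻¹' {y | α y = 0})
      (le_sup_left (α := MeasurableSpace H.X1.X) _ ⟨_, hS, rfl⟩) hE
      (by filter_upwards [a3] with x hx h; rw [hx]; exact h)
    rw [hEd] at h2
    exact h2
  obtain ⟨Lh⟩ := F.line c.ν c.U H.Xh H.rp.nice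
  obtain ⟨Lq, hq⟩ := F.la.ex H.L1 Lh H.p1 H.emb1
  have m3 := at'.met (Inv H.Xh Set.univ) H.Xh.μ H.X1.μ H.p1 H.p2 (H.τ 𝒱 (g j)) {y | α y = 0}
    (F.t.finv _ _).le (mt _) hS ⟨H.emb1.mp, mp2, H.ind⟩ n1
  have m4 := at_union F at' H.Xh (H.τ 𝒱 (g j)) (mt _) (fun k => pg (c.sl j) (c.sl k)) j univ
  have e4 : Inv H.Xh (pg (c.sl j) (c.sl j) ∪ ⋃ k ∈ (univ : Finset c.ι), pg (c.sl j) (c.sl k)) =
      Inv H.Xh Set.univ := by
    have e5 : pg (c.sl j) (c.sl j) ∪ ⋃ k ∈ (univ : Finset c.ι), pg (c.sl j) (c.sl k) =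
        ⋃ k, pg (c.sl j) (c.sl k) := by
      simp only [Finset.mem_univ, Set.iUnion_true]
      exact Set.union_eq_right.2 (Set.subset_iUnion (fun k => pg (c.sl j) (c.sl k)) j)
    rw [e5, ← F.t.inv_cl, c.nrm.gen j, AddSubgroup.coe_top]
  rw [e4] at m4
  have m5 : ∀ k, ∀ᵐ v ∂Lh.W.μ, H.τ 𝒱 (g j) (Lh.π (c.sl j) v) = H.τ 𝒱 (g k) (Lh.π (c.sl k) v) →
      Lh.π (c.sl j) v ∈ At (Inv H.Xh (pg (c.sl j) (c.sl k))) H.Xh.μ (H.τ 𝒱 (g j)) := fun k =>
    at'.of _ H.Xh.μ Lh.W.μ _ _ _ _ (F.t.finv _ _).le (mt _) (mt _)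
      ⟨(Lh.emb _).mp, (Lh.emb _).mp, mx F c.ν c.U H.Xh Lh (c.sl j) (c.sl k) c.hU c.erg⟩
  have n2 : ∀ᵐ v ∂Lh.W.μ, ¬ (Lh.π (c.sl j) v ∈ {y | α y = 0} ∧
      ∀ k, H.τ 𝒱 (g j) (Lh.π (c.sl j) v) = H.τ 𝒱 (g k) (Lh.π (c.sl k) v)) := by
    filter_upwards [(Lh.emb (c.sl j)).mp.quasiMeasurePreserving.ae m4, ae_all_iff.2 m5,
      (Lh.emb (c.sl j)).mp.quasiMeasurePreserving.ae (measure_eq_zero_iff_ae_notMem.1 m3)]
      with v b1 b2 b3 h
    exact b3 ⟨h.1, b1 (b2 j (h.2 j)) fun k _ => b2 k (h.2 k)⟩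
  have n3 : ∀ᵐ w ∂H.L1.W.μ, ¬ (α (H.p1 (H.π j w)) = 0 ∧
      ∀ k, H.τ 𝒱 (g j) (H.p1 (H.π j w)) = H.τ 𝒱 (g k) (H.p1 (H.π k w))) := by
    have k1 := fun k => F.la.slot H.L1 Lh H.p1 Lq (c.sl k) H.emb1 hq
    filter_upwards [hq.emb.mp.quasiMeasurePreserving.ae n2, k1 j _ hS,
      ae_all_iff.2 fun k => ae_all_iff.2 fun a => k1 k _ (mt (g k) a)] with w b0 b1 b2 h
    refine b0 ⟨b1.mpr h.1, fun k => funext fun a => ?_⟩
    exact (b2 j a).trans ((congrFun (h.2 k) a).trans (b2 k a).symm)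
  have e0 := F.t.emb_comp _ _ _ _ _ (H.rp.emb (0, H.i0)) (cx.embπ H.i0)
  obtain ⟨Lph, hph⟩ := F.la.ex Lh c.L _ e0
  have k3 := F.la.uniq H.L1 c.L _ _ H.Lp (Lph ∘ Lq) ht.embp ht.embp
    (fun _ _ => EventuallyEq.rfl) H.lift (F.la.comp H.L1 Lh c.L _ _ Lq Lph H.emb1 e0 hq hph) _ hGm
  have l2 : pull H.L1.W.μ Lq Lh.W.ms ≤ H.L1.W.ms := F.a.pull_le _ _ _ _ hq.emb.mp le_rfl
  have hcs := F.ld.cs H.L1 Lh H.p1 Lq (c.sl j) H.emb1 hq _ α hEb hαb a3.symm
  have n4 := ce_of_null (μ := H.L1.W.μ) l2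
    (A := (Lph ∘ Lq) ⁻¹' (c.Θ (c.up g) ∩ c.Nt j (ufn (g j)))) (E := H.π j ⁻¹' E)
    (le_sup_left (α := MeasurableSpace H.L1.W.X) _ ⟨_, hph.emb.mp.measurable hGm, rfl⟩)
    ((ht.embπ j).mp.measurable hE) (by
      filter_upwards [k3, measure_eq_zero_iff_ae_notMem.1 hnull] with w b0 b1 h h'
      rw [hEd] at h'
      exact b1 ⟨b0.mpr h, h'⟩)
  rw [← ht.embL.mp.measure_preimage hGm.nullMeasurableSet, measure_eq_zero_iff_ae_notMem]
  filter_upwards [n3, n4, k3, hcs, ae_all_iff.2 fun k => ty.ta g j k hg] with w b0 b1 b2 b3 b4 h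
  exact b0 ⟨b3.symm.trans (b1 (b2.mp h)), fun k => b4 k h.1⟩

end T4x

end

end PkGPosB

section PkGPsc

/-! Calculus for the functions `ψ`. -/

set_option autoImplicit false

open MeasureTheory Filter ComplexConjugate
open Fib27 (BM)

noncomputable section

namespace T4x

open T3x

namespace GPsc

theorem th_congr {Ω : Type} (β : MeasurableSpace Ω) {m0 : MeasurableSpace Ω} {μ : Measure Ω}
    {F F' : Ω → ℂ} (h : F =ᵐ[μ] F') : ∀ᵐ x ∂μ, x ∈ Th β μ F ↔ x ∈ Th β μ F' := by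
  filter_upwards [condExp_congr_ae (m := β) h] with x e
  simp only [Th, Set.mem_ofPred_eq, e]

variable [Grp] {X : Sys} {B : MeasurableSpace X.X} {V : Type} [AddCommGroup V]
  {sg : Γ →+ AddAut V} {ψ : V → X.X → ℂ}

theorem zero (h : Psi X B sg ψ) : ψ 0 =ᵐ[X.μ] fun _ => 1 := by
  have h1 := h.add 0 0
  rw [add_zero] at h1
  filter_upwards [h1, (h.um 0).2] with x e1 e2
  have : ψ 0 x ≠ 0 := fun e => by simp [e] at e2
  exact (mul_eq_left₀ this).1 e1.symm

theorem neg (h : Psi X B sg ψ) (v : V) : ψ (-v) =ᵐ[X.μ] fun x => conj (ψ v x) := by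
  have h1 := h.add v (-v)
  rw [add_neg_cancel] at h1
  filter_upwards [h1, zero h, (h.um v).2] with x e1 e2 e3
  rw [← Complex.inv_eq_conj e3]
  exact eq_inv_of_mul_eq_one_right (e1.symm.trans e2)

theorem sub (h : Psi X B sg ψ) (v v' : V) :
    ψ (v - v') =ᵐ[X.μ] fun x => ψ v x * conj (ψ v' x) := by
  rw [sub_eq_add_neg]
  filter_upwards [h.add v (-v'), neg h v'] with x e1 e2
  rw [e1, e2]

end GPsc

variable [Grp]

open GPsc in
theorem xPsc : PscR := by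
  intro hF hR X B V _ sg ψ hB h
  have bm : ∀ v, BM X.μ X.ms (ψ v) := fun v => BM.of_uni (h.um v).1 (h.um v).2
  refine ⟨bm, zero h, neg h, sub h, fun κ S v => ?_, h.sh, ?_, fun v v' => ?_,
    fun n v => ?_, fun v => ?_⟩
  · classical
    induction S using Finset.induction_on with
    | empty => simpa using zero h
    | insert k S hk ih =>
      rw [Finset.sum_insert hk]
      filter_upwards [h.add (v k) (∑ k ∈ S, v k), ih] with x e1 e2
      rw [e1, e2, Finset.prod_insert hk]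
  · filter_upwards [th_congr B (zero h)] with x e
    rw [e, Th, condExp_const hB.le]
    exact norm_one
  · have u : Um X.ms X.μ fun x => conj (ψ v' x) := ⟨(bm v').conj.1, by simpa using (h.um v').2⟩
    filter_upwards [th_congr B (sub h v v'), hR.mul B X.μ _ _ hB.le (h.um v) u,
      hR.cj B X.μ _ hB.le (h.um v')] with x e1 e2 e3 a1 a2
    exact e1.2 (e2 ⟨a1, e3.mpr a2⟩)
  · filter_upwards [th_congr B (h.sh n v), hF.t.ce X B n _ hB (bm v).integrable]
      with x e1 e2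
    rw [e1, Th, Th, Set.mem_ofPred_eq, Set.mem_ofPred_eq, e2]
  · filter_upwards [condExp_indicator (bm v).integrable (hR.meas B X.μ (ψ v)).compl, h.onn v]
      with x e1 e2
    rw [e1]
    by_cases hx : x ∈ (Th B X.μ (ψ v))ᶜ
    · rw [Set.indicator_of_mem hx]
      exact norm_eq_zero.1 (e2.resolve_right hx)
    · exact Set.indicator_of_notMem hx _

end T4x

end

end PkGPsc

section PkGPsiA

/-! Row GPsiA: the functions `ψ` on the extension. -/

set_option autoImplicit false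
set_option linter.unusedVariables false
set_option warn.classDefReducibility false

open MeasureTheory ProbabilityTheory Filter Topology Function Finset ComplexConjugate
open scoped BigOperators
open Fib27 (BM sup pr Oc Orow F23 LInd Mem)
open Pool.Agent.MP_154433_an.SG (Uni ufn)

noncomputable section

namespace T4x

open T3x

namespace GPsiA

theorem meas_aux {Ω κ : Type} [MeasurableSpace Ω] [Countable κ] {P Q : κ → Set Ω}
    (hP : ∀ a, MeasurableSet (P a)) (hQ : ∀ a, MeasurableSet (Q a)) :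
    MeasurableSet {x | (∃ a, x ∈ P a) ∧ ∀ a, x ∈ P a → x ∈ Q a} := by
  have : {x | (∃ a, x ∈ P a) ∧ ∀ a, x ∈ P a → x ∈ Q a} = (⋃ a, P a) ∩ ⋂ a, ((P a)ᶜ ∪ Q a) := by
    ext x
    simp only [Set.mem_ofPred_eq, Set.mem_inter_iff, Set.mem_iUnion, Set.mem_iInter, Set.mem_union,
      Set.mem_compl_iff, imp_iff_not_or]
  rw [this]
  exact (MeasurableSet.iUnion hP).inter (MeasurableSet.iInter fun a => (hP a).compl.union (hQ a))

theorem norm_ufn {Ω : Type} {m0 : MeasurableSpace Ω} (g : Uni Ω) (x : Ω) : ‖ufn g x‖ = 1 :=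
  Circle.norm_coe _

theorem meas_ufn {Ω : Type} {m0 : MeasurableSpace Ω} (g : Uni Ω) : Measurable (ufn g) := g.2

end GPsiA

variable [Grp]

open GPsiA in
theorem xPsiA : PsiA := by
  classical
  intro fd gc zc c H 𝒱 s g0 ex
  have cx := gc.ctx c
  have zv := zc.zv c 𝒱 s ex
  have ht := zc.ht c H
  have mZ : ∀ q g, MeasurableSet (c.ZV 𝒱 q g) := fun q g => cx.kc2.1.le _ (zv.meas q g)
  have mE : ∀ (a : ℕ × c.ι) g, MeasurableSet (H.e a ⁻¹' c.ZV 𝒱 a.2 g) := fun a g =>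
    (H.rp.emb a).mp.measurable (mZ _ _)
  have m1 : ∀ g, MeasurableSet[H.B1] (H.HH 𝒱 g0 g) := fun g =>
    @meas_aux _ _ H.B1 _ (fun a => H.p2 ⁻¹' (H.e a ⁻¹' c.ZV 𝒱 a.2 g0))
      (fun a => (H.e a ∘ H.p1) ⁻¹' c.ZV 𝒱 a.2 g.1)
      (fun a => (le_sup_left.trans H.le2 :) _ ⟨_, mE a g0, rfl⟩)
      fun a => (le_sup_left.trans (H.le1 a) :) _ ⟨_, zv.meas a.2 g.1, rfl⟩
  have m2 : ∀ g, MeasurableSet (H.HH 𝒱 g0 g) := fun g => ht.fac1.le _ (m1 g)
  let u : 𝒱 → H.X1.X → ℂ := fun g x => if x ∈ H.HH 𝒱 g0 g then ufn g.1 (H.p x) else 1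
  have hu : ∀ v x, H.psi 𝒱 g0 v x = v.prod fun g n => u g x ^ n := fun v x => rfl
  have un : ∀ g x, ‖u g x‖ = 1 := fun g x => by
    simp only [u]
    split_ifs
    · exact norm_ufn _ _
    · exact norm_one
  have u0 : ∀ g x, u g x ≠ 0 := fun g x h => by
    have := un g x
    rw [h, norm_zero] at this
    exact zero_ne_one this
  have um : ∀ g, Measurable (u g) := fun g =>
    Measurable.ite (m2 g) ((meas_ufn g.1).comp ht.embp.mp.measurable) measurable_const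
  refine ⟨m1, fun v => ⟨?_, Eventually.of_forall fun x => ?_⟩, fun v v' x => ?_, fun n v => ?_⟩
  · refine Measurable.aestronglyMeasurable ?_
    have : H.psi 𝒱 g0 v = fun x => ∏ g ∈ v.support, u g x ^ v g := rfl
    rw [this]
    exact Finset.measurable_prod _ fun g _ => (um g).pow_const _
  · rw [hu, Finsupp.prod, norm_prod]
    exact prod_eq_one fun g _ => by rw [norm_zpow, un, one_zpow]
  · rw [hu, hu, hu]
    exact Finsupp.prod_add_index' (fun g => zpow_zero _) fun g n m => zpow_add₀ (u0 g x) n m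
  · have key : ∀ g : 𝒱, ∀ᵐ x ∂H.X1.μ, u (s n g) x = u g (H.X1.Tz n x) := by
      intro g
      have a1 : ∀ a : ℕ × c.ι, ∀ᵐ x ∂H.X1.μ,
          H.τ 𝒱 g0 (H.p2 (H.X1.Tz n x)) a ↔ H.τ 𝒱 g0 (H.p2 x) a := fun a =>
        (ht.frzT n _ (mE a g0)).mono fun x hx => iff_of_eq hx
      have a2 : ∀ a : ℕ × c.ι, ∀ᵐ x ∂H.X1.μ,
          H.τ 𝒱 g.1 (H.p1 (H.X1.Tz n x)) a ↔ H.τ 𝒱 (s n g).1 (H.p1 x) a := fun a => by
        filter_upwards [(ht.embe a).eqv n _ (mZ a.2 g.1),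
          (ht.embe a).mp.quasiMeasurePreserving.ae (zv.sh n a.2 g)] with x h1 h2
        exact (iff_of_eq h1).trans (iff_of_eq h2).symm
      have a3 := fd.a.keq_fun c.X.ms H.X1.μ c.X.μ (H.p ∘ H.X1.Tz n) (c.X.Tz n ∘ H.p) (ufn g.1)
        (ht.embp.mp.comp (H.X1.mp n)) ((c.X.mp n).comp ht.embp.mp) (ht.embp.eqv n)
        (meas_ufn g.1).aestronglyMeasurable
      filter_upwards [ae_all_iff.2 a1, ae_all_iff.2 a2, a3] with x h1 h2 h3
      have h4 : x ∈ H.HH 𝒱 g0 (s n g) ↔ H.X1.Tz n x ∈ H.HH 𝒱 g0 g := by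
        simp only [Ctx.Hat.HH, Set.mem_ofPred_eq, h1, h2]
      simp only [u, h4]
      rw [ex.sh n g (H.p x)]
      exact if_congr Iff.rfl h3.symm rfl
    filter_upwards [(Finset.eventually_all v.support).2 fun g _ => key g] with x hx
    rw [hu, hu, Finsupp.domCongr_apply, Finsupp.prod_equivMapDomain]
    exact prod_congr rfl fun g hg => congrArg (· ^ v g) (hx g hg)

end T4x

end

end PkGPsiA

section PkGPsiB

/-! Row GPsiB: the functions `psi` are constant or of mean zero on the fibres. -/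

set_option autoImplicit false
set_option linter.unusedVariables false

open MeasureTheory ProbabilityTheory Filter Topology Function Finset ComplexConjugate
open scoped BigOperators
open Fib27 (BM)
open Pool.Agent.MP_154433_an.SG (Uni ufn)

noncomputable section

namespace T4x

open T3x

variable [Grp]

namespace GPsiB

theorem bm_ufn {X : Sys} (g : Uni X.X) : BM X.μ X.ms (ufn g) :=
  BM.of_uni (Measurable.aestronglyMeasurable g.2)
    (Eventually.of_forall fun x => Circle.norm_coe _)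

omit [Grp] in
/-- the value of a product of powers -/
theorem ufn_prod {Ω : Type} [MeasurableSpace Ω] {𝒱 : Subgroup (Uni Ω)} (P : Finset 𝒱)
    (n : 𝒱 → ℤ) (y : Ω) : ufn (∏ g ∈ P, g ^ n g).1 y = ∏ g ∈ P, ufn g.1 y ^ n g := by
  classical
  induction P using Finset.induction_on with
  | empty => simp [ufn]
  | insert g P hg ih =>
    rw [Finset.prod_insert hg, Finset.prod_insert hg, ← ih]
    simp [ufn]

/-- products of powers of elements with partners are constant or of mean zero -/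
theorem line {c : Ctx} {𝒱 : Subgroup (Uni c.X.X)} {s : Γ → 𝒱 ≃* 𝒱} [Countable 𝒱] (Z : ZvC c 𝒱 s)
    (hG : c.GI) (q : c.ι) : ∀ᵐ w ∂c.W.μ, ∀ (P : Finset 𝒱) (n : 𝒱 → ℤ),
      (∀ g ∈ P, w ∈ c.ZV 𝒱 q g.1) →
      ‖(c.X.μ[ufn (∏ g ∈ P, g ^ n g).1 | c.B]) (c.π q w)‖ = 0 ∨
        ‖(c.X.μ[ufn (∏ g ∈ P, g ^ n g).1 | c.B]) (c.π q w)‖ = 1 := by
  filter_upwards [Z.one q, ae_all_iff.2 fun g : 𝒱 => ae_all_iff.2 fun g' : 𝒱 => Z.mul q g.1 g'.1,
    ae_all_iff.2 fun g : 𝒱 => Z.inv q g.1, ae_all_iff.2 fun g : 𝒱 => Z.onn hG q g.1]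
    with w h1 h2 h3 h4 P n hP
  let K : Subgroup 𝒱 :=
    { carrier := {g | w ∈ c.ZV 𝒱 q g.1}
      mul_mem' := fun {g g'} hg hg' => h2 g g' hg hg'
      one_mem' := h1
      inv_mem' := fun {g} hg => h3 g hg }
  exact h4 _ (K.prod_mem fun g hg => K.zpow_mem (hP g hg) _)

end GPsiB

open GPsiB in
theorem xPsiB : PsiB := by
  classical
  intro F R G Z A c H 𝒱 s g0 hG hE v
  have : Countable 𝒱 := hE.cnt
  obtain ⟨hm, hu, -, -⟩ := A F G Z c H 𝒱 s g0 hE
  have C := Z.ht c H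
  have hB : H.B1 ≤ H.X1.ms := C.fac1.le
  have e1 : ∀ a : ℕ × c.ι, ∀ᵐ x ∂H.X1.μ, ∀ (P : Finset 𝒱) (n : 𝒱 → ℤ),
      (∀ g ∈ P, H.τ 𝒱 g.1 (H.p1 x) a) →
      ‖(c.X.μ[ufn (∏ g ∈ P, g ^ n g).1 | c.B]) (c.π a.2 (H.e a (H.p1 x)))‖ = 0 ∨
        ‖(c.X.μ[ufn (∏ g ∈ P, g ^ n g).1 | c.B]) (c.π a.2 (H.e a (H.p1 x)))‖ = 1 := fun a =>
    (C.embe a).mp.quasiMeasurePreserving.ae (line (Z.zv c 𝒱 s hE) hG a.2)
  have e2 : ∀ (a : ℕ × c.ι) (γ : 𝒱), ∀ᵐ x ∂H.X1.μ,
      (c.X.μ[ufn γ.1 | c.B]) (c.π a.2 (H.e a (H.p1 x))) = (c.X.μ[ufn γ.1 | c.B]) (H.p x) :=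
    fun a γ => F.a.keq_fun c.X.ms H.X1.μ c.X.μ (c.π a.2 ∘ H.e a ∘ H.p1) H.p _
      (((G.ctx c).embπ a.2).mp.comp (C.embe a).mp) C.embp.mp (C.com a)
      (((bm_ufn γ.1).ce c.B).mono (G.ctx c).facB.le).1
  have e3 : ∀ P : Finset 𝒱, ∀ᵐ x ∂H.X1.μ, v.support.filter (fun g => x ∈ H.HH 𝒱 g0 g) = P →
      (H.X1.μ[H.psi 𝒱 g0 v | H.B1]) x =
        (c.X.μ[ufn (∏ g ∈ P, g ^ v g).1 | c.B]) (H.p x) := fun P => by
    have hP : MeasurableSet[H.B1] {x | v.support.filter (fun g => x ∈ H.HH 𝒱 g0 g) = P} := by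
      have : {x | v.support.filter (fun g => x ∈ H.HH 𝒱 g0 g) = P} =
          ⋂ g : 𝒱, {x | (g ∈ v.support ∧ x ∈ H.HH 𝒱 g0 g) ↔ g ∈ P} := by
        ext x
        simp only [Set.mem_ofPred_eq, Set.mem_iInter, Finset.ext_iff, Finset.mem_filter]
      rw [this]
      refine MeasurableSet.iInter fun g => ?_
      by_cases h1 : g ∈ v.support <;> by_cases h2 : g ∈ P
      · simpa only [h1, h2, true_and, iff_true, Set.ofPred_mem_eq] using hm g
      · simp only [h1, h2, true_and, iff_false]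
        exact (hm g).compl
      · simp only [h1, h2, false_and, false_iff, not_true, Set.ofPred_false]
        exact @MeasurableSet.empty _ H.B1
      · simp only [h1, h2, false_and, Set.ofPred_true]
        exact @MeasurableSet.univ _ H.B1
    have hb := bm_ufn (X := c.X) (∏ g ∈ P, g ^ v g).1
    have hb' : BM H.X1.μ H.X1.ms fun x => ufn (∏ g ∈ P, g ^ v g).1 (H.p x) :=
      (F.a.bm_comp c.X.ms _ _ H.p _ C.embp.mp hb).mono (F.a.pull_le _ _ _ _ C.embp.mp le_rfl)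
    have := R.loc H.B1 H.X1.μ _ _ (fun _ => 1) _ hB (BM.of_uni (hu v).1 (hu v).2) hb'
      (BM.const 1) hP (Eventually.of_forall fun x hx => by
        have hx' : v.support.filter (fun g => x ∈ H.HH 𝒱 g0 g) = P := hx
        rw [one_mul, ufn_prod, ← hx', Finset.prod_filter]
        refine Finset.prod_congr rfl fun g _ => ?_
        by_cases h : x ∈ H.HH 𝒱 g0 g <;> simp [h])
    filter_upwards [this, C.ce _ hb] with x h1 h2 hx
    rw [h1 hx, one_mul, h2]
  filter_upwards [ae_all_iff.2 e1, ae_all_iff.2 fun a => ae_all_iff.2 (e2 a), ae_all_iff.2 e3]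
    with x h1 h2 h3
  have ex : ∃ a : ℕ × c.ι, ∀ g ∈ v.support.filter (fun g => x ∈ H.HH 𝒱 g0 g),
      H.τ 𝒱 g.1 (H.p1 x) a := by
    by_cases h : ∃ a, H.τ 𝒱 g0 (H.p2 x) a
    · obtain ⟨a, ha⟩ := h
      exact ⟨a, fun g hg => (Finset.mem_filter.1 hg).2.2 a ha⟩
    · exact ⟨(0, H.i0), fun g hg => absurd (Finset.mem_filter.1 hg).2.1 h⟩
  obtain ⟨a, ha⟩ := ex
  rw [h3 _ rfl, ← h2 a]
  exact h1 a _ _ ha

end T4x

end

end PkGPsiB

section PkGRelA

/-! Row RelA: exact relations at the finite level. -/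

set_option autoImplicit false
set_option linter.unusedVariables false

open MeasureTheory ProbabilityTheory Filter Topology Function Finset ComplexConjugate
open scoped BigOperators
open Fib27 (BM sup pr Oc Orow F23 LInd Mem)

noncomputable section

namespace T4x

open T3x

variable [Grp]

namespace GRelA

lemma prod {ν : Wt} {U : Ultrafilter ℕ} {X : Sys} (L : Ln ν U X) {ι : Type}
    (F : ι → Lab × X.X → ℂ) (hF : ∀ k, F k ∈ FamS X.ms) (S : Finset ι) :
    (fun z => ∏ k ∈ S, F k z) ∈ FamS X.ms ∧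
      ∀ w, L.hat (fun z => ∏ k ∈ S, F k z) w = ∏ k ∈ S, L.hat (F k) w := by
  classical
  induction S using Finset.induction_on with
  | empty =>
    simp only [prod_empty]
    exact ⟨⟨fun _ => measurable_const, 1, fun _ => norm_one.le⟩, fun w => (L.ch w).const 1⟩
  | insert k S hk ih =>
    simp only [prod_insert hk]
    obtain ⟨m1, C1, b1⟩ := hF k
    obtain ⟨m2, C2, b2⟩ := ih.1
    refine ⟨⟨fun l => (m1 l).mul (m2 l), C1 * C2, fun z => ?_⟩, fun w => ?_⟩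
    · rw [norm_mul]
      exact mul_le_mul (b1 z) (b2 z) (norm_nonneg _) ((norm_nonneg _).trans (b1 z))
    · rw [← ih.2 w]
      exact (L.ch w).mul _ (hF k) _ ih.1

end GRelA

theorem xRelA : RelA := by
  intro F R hG c V _ _ sg ψ hψ v
  have cc := hG.ctx c
  have ps := hG.ps c.X c.B V sg ψ cc.facB hψ
  have ff := hG.ff c V sg ψ hψ
  choose ψ1 m1 b1 e1 using fun a => F.a.rep c.X.ms c.X.μ (ψ a) 1 zero_le_one (hψ.um a).1
    ((hψ.um a).2.mono fun x hx => hx.le)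
  let Fk : c.ι → Lab × c.X.X → ℂ := fun k z => ψ1 (v k) (c.X.Tz (rho (c.sl k) z.1) z.2)
  have hFk : ∀ k, Fk k ∈ FamS c.X.ms := fun k =>
    ⟨fun l => (m1 _).comp (F.t.mp c.X (rho (c.sl k) l)).measurable, 1, fun z => b1 _ _⟩
  obtain ⟨hP, eP⟩ := GRelA.prod c.L Fk hFk univ
  let s : Lab → V := fun l => ∑ k, sg (rho (c.sl k) l) (v k)
  let A : Lab → Set c.X.X := fun l => Th c.B c.X.μ (ψ (s l))
  have mA : ∀ l, MeasurableSet (A l) := fun l => cc.facB.le _ (R.meas c.B c.X.μ _)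
  have e2 : c.FF ψ v =ᵐ[c.W.μ] c.L.hat fun z => ∏ k, Fk k z := by
    filter_upwards [ae_all_iff.2 fun k => (cc.embπ k).mp.quasiMeasurePreserving.ae (e1 (v k)),
      ae_all_iff.2 fun k => c.L.slot (c.sl k) (ψ1 (v k)) ⟨m1 _, 1, b1 _⟩] with w a1 a2
    rw [eP]
    exact prod_congr rfl fun k _ => (a1 k).trans (a2 k)
  have e3 : ∀ l, (fun x => ∏ k, Fk k (l, x)) =ᵐ[c.X.μ] ψ (s l) := fun l => by
    filter_upwards [ps.sum c.ι univ fun k => sg (rho (c.sl k) l) (v k),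
      ae_all_iff.2 fun k => ps.shz (rho (c.sl k) l) (v k),
      ae_all_iff.2 fun k => (F.t.mp c.X (rho (c.sl k) l)).quasiMeasurePreserving.ae (e1 (v k))]
      with x a1 a2 a3
    rw [a1]
    exact prod_congr rfl fun k _ => ((a2 k).trans (a3 k)).symm
  obtain ⟨F1, hF1, eF1⟩ := F.lb.cex c.X c.B cc.facB _ hP
  have hF1' : F1 ∈ FamS c.X.ms := ⟨fun l => (hF1.1 l).mono cc.facB.le le_rfl, hF1.2⟩
  have e4 := (condExp_congr_ae (m := c.L.shp c.B) e2).trans
    (F.lb.ce c.L c.B cc.facB _ hP F1 hF1 eF1)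
  have hN : (fun z => ((‖F1 z‖ : ℝ) : ℂ)) ∈ FamS c.X.ms := by
    obtain ⟨m, C, b⟩ := hF1'
    exact ⟨fun l => Complex.measurable_ofReal.comp (m l).norm, C, fun z => by simpa using b z⟩
  have hI : (fun z : Lab × c.X.X => (A z.1).indicator (fun _ => (1 : ℂ)) z.2) ∈ FamS c.X.ms :=
    ⟨fun l => measurable_const.indicator (mA l), 1, fun z => by
      by_cases h : z.2 ∈ A z.1 <;> simp [h]⟩
  have e5 := F.lb.congr c.L _ hN _ hI fun l => by
    filter_upwards [eF1 l, condExp_congr_ae (m := c.B) (e3 l), hψ.onn (s l)] with x a1 a2 a3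
    rw [a1, a2]
    by_cases h : x ∈ A l
    · rw [Set.indicator_of_mem h, show ‖(c.X.μ[ψ (s l) | c.B]) x‖ = 1 from h]
      simp
    · rw [Set.indicator_of_notMem h, a3.resolve_right h]
      simp
  have e6 : ∀ᵐ w ∂c.W.μ, ((‖(c.W.μ[c.FF ψ v | c.L.shp c.B]) w‖ : ℝ) : ℂ) =
      (c.L.hs A).indicator (fun _ => (1 : ℂ)) w := by
    filter_upwards [e4, e5] with w a1 a2
    rw [a1, ← F.lb.nrm c.L F1 hF1' w, a2, F.lc.hs_ind c.L A mA w]
  refine ⟨?_, ?_⟩
  · filter_upwards [e6] with w a1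
    show (‖(c.W.μ[c.FF ψ v | c.L.shp c.B]) w‖ = 1) = (w ∈ c.L.hs A)
    refine propext ⟨fun h => ?_, fun h => ?_⟩
    · by_contra h'
      rw [Set.indicator_of_notMem h', h] at a1
      simp at a1
    · rw [Set.indicator_of_mem h] at a1
      exact Complex.ofReal_eq_one.1 a1
  · filter_upwards [e6, R.eq (c.L.shp c.B) c.W.μ _ cc.facS.le (ff.um v)] with w a1 a2
    by_cases h : w ∈ Th (c.L.shp c.B) c.W.μ (c.FF ψ v)
    · rw [Set.indicator_of_mem h, ← a2 h]
    · rw [Set.indicator_of_notMem h]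
      by_cases h' : w ∈ c.L.hs A
      · rw [Set.indicator_of_mem h'] at a1
        exact absurd (Complex.ofReal_eq_one.1 a1) h
      · rw [Set.indicator_of_notMem h'] at a1
        simpa using a1

end T4x

end

end PkGRelA
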