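import Pool.Agent.MP_154433_an.t3.BasA
import Pool.Agent.MP_154433_an.t3.BasT
import Pool.Agent.MP_154433_an.t3.BasD
import Pool.Agent.MP_154433_an.t3.BasC
import Pool.Agent.MP_154433_an.t3.Met
import Pool.Agent.MP_154433_an.t3.Real
import Pool.Agent.MP_154433_an.t3.RP
import Pool.Agent.MP_154433_an.t3.KfA
import Pool.Agent.MP_154433_an.t3.KfB
import Pool.Agent.MP_154433_an.t3.Rc
import Pool.Agent.MP_154433_an.t3.Sel
import Pool.Agent.MP_154433_an.t3.Apx
import Pool.Agent.MP_154433_an.t3.HGX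
import Pool.Agent.MP_154433_an.t3.GGall
import Pool.Agent.MP_154433_an.p4.A1
import Pool.Agent.MP_154433_an.p4.A2
import Pool.Agent.MP_154433_an.p4.A3
import Pool.Agent.MP_154433_an.p4.A4
import Pool.Agent.MP_154433_an.p4.A5
import Pool.Agent.MP_154433_an.p4.A6
import Pool.Agent.MP_154433_an.p4.A7
import Pool.Agent.MP_154433_an.p4.A8
import Pool.Agent.MP_154433_an.p4.G1
import Pool.Agent.MP_154433_an.p4.G2
import Pool.Agent.MP_154433_an.p4.G3
import Pool.Agent.MP_154433_an.p4.G4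

/-! Assembly of the rows for commuting maps. -/

section PkInd24

/-! Rows Ind and Top. -/

set_option autoImplicit false
set_option linter.unusedVariables false
set_option linter.unusedSectionVars false
set_option warn.classDefReducibility false

open MeasureTheory ProbabilityTheory Filter Topology Function Finset ComplexConjugate
open scoped BigOperators
open Fib27 (BM sup pr Oc Orow F23 LInd Mem)

noncomputable section

namespace T4x

open T3x

theorem indR : IndR := by
  intro fd ind2 sa st step res G ν U hU erg spr n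
  revert G
  induction n with
  | zero =>
    intro G X B L ι sl S h1 h2 h3 h5
    exact ind2 G (fd G) ν U hU erg X B L ι sl S h1 h2 h3 (h5.trans (by norm_num))
  | succ n ih =>
    intro G X B L ι sl S h1 h2 h3 h5
    by_cases h6 : S.card ≤ 2
    · exact ind2 G (fd G) ν U hU erg X B L ι sl S h1 h2 h3 h6
    by_cases h7 : S.card ≤ n
    · exact ih G X B L ι sl S h1 h2 h3 h7
    refine res ν U (n + 1) (by omega) (fun G' => ?_) X B L ι sl S h1 h2 h3 (by omega)
    intro X B L ι _ sl h1 h2 h3 hc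
    classical
    obtain ⟨X', B', p, L', adm, sat⟩ := st G' ν U X B ι sl h1 h2
    obtain ⟨L2⟩ := (fd G').line ν U L'.W L'.nice
    choose Bc hB using fun j : ι => (fd G').la.ex L2 L' (L'.π (sl j)) (L'.emb _)
    let c : Ctx :=
      { ν := ν, U := U, hU := hU, erg := erg, spr := spr, ι := ι, sl := sl, nrm := h3
        three := by omega
        ind := by rw [hc]; exact ih G'
        X := X', B := B', nice := adm.nice, kc := adm.kc, L := L', L2 := L2, Bc := Bc, lift := hB }
    exact (sa G').fail L' L B' B p sl h1 h2 adm (not_not.1 (step G' c sat))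

variable [Grp]

namespace Top

theorem bm_sum {Ω κ : Type} {m m0 : MeasurableSpace Ω} {μ : Measure Ω} (s : Finset κ)
    (a : κ → Ω → ℂ) (h : ∀ i ∈ s, BM μ m (a i)) : BM μ m fun x => ∑ i ∈ s, a i x := by
  classical
  induction s using Finset.induction_on with
  | empty => simpa using BM.const 0
  | insert j s hj ih =>
    simp only [sum_insert hj]
    exact (h j (mem_insert_self _ _)).add (ih fun i hi => h i (mem_insert_of_mem hi))

theorem bm_prod (t : BasT) (X : Sys) {ι : Type} [Fintype ι] (n : ι → Γ) (f : ι → X.X → ℂ)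
    (hf : ∀ i, BM X.μ X.ms (f i)) : BM X.μ X.ms fun x => ∏ i, f i (X.Tz (n i) x) :=
  BM.pr (ρ := fun i x => f i (X.Tz (n i) x)) fun i _ => t.bm X _ _ _ (t.top X) (hf i)

theorem bm_avg (t : BasT) (ν : Wt) (M : ℕ) (X : Sys) {ι : Type} [Fintype ι] (r : ι → Γ)
    (f : ι → X.X → ℂ) (hf : ∀ i, BM X.μ X.ms (f i)) : BM X.μ X.ms (avg ν M X r f) := by
  have e : avg ν M X r f = fun x => ∑ d ∈ ν.sp M, (ν.w M d : ℂ) * ∏ i, f i (X.Tz (d • r i) x) := by
    funext x
    simp only [avg, Wt.av, Complex.real_smul]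
  rw [e]
  exact bm_sum _ _ fun d _ => (bm_prod t X _ f hf).cmul _

/-- the square of the norm of an average is a double average -/
theorem sq_avg (t : BasT) (ν : Wt) (M : ℕ) (X : Sys) {ι : Type} [Fintype ι] (r : ι → Γ)
    (f : ι → X.X → ℂ) (hf : ∀ i, BM X.μ X.ms (f i)) :
    ((∫ x, ‖avg ν M X r f x‖ ^ 2 ∂X.μ : ℝ) : ℂ) = ν.av2 M fun l => ∫ x,
      (∏ i, f i (X.Tz (l.2.1 • r i) x)) * conj (∏ i, f i (X.Tz (l.2.2 • r i) x)) ∂X.μ := by
  have hb : ∀ d d' : ℤ, BM X.μ X.ms fun x =>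
      (∏ i, f i (X.Tz (d • r i) x)) * conj (∏ i, f i (X.Tz (d' • r i) x)) := fun d d' =>
    (bm_prod t X _ f hf).mul (bm_prod t X _ f hf).conj
  rw [← integral_complex_ofReal]
  simp only [Wt.av2, Wt.av, Complex.real_smul, mul_sum]
  simp only [← integral_const_mul]
  rw [sum_congr rfl fun d _ => (integral_finsetSum _ fun d' _ =>
    (((hb d d').cmul _).cmul _).integrable).symm, ← integral_finsetSum _ fun d _ =>
      (bm_sum _ _ fun d' _ => ((hb d d').cmul _).cmul _).integrable]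
  refine integral_congr_ae (Eventually.of_forall fun x => ?_)
  simp only [avg, Wt.av, Complex.real_smul]
  rw [← Complex.normSq_eq_norm_sq, ← Complex.mul_conj, map_sum, sum_mul_sum]
  refine sum_congr rfl fun d _ => sum_congr rfl fun d' _ => ?_
  rw [map_mul, Complex.conj_ofReal]
  ring

theorem fam_mul {Ω : Type} {B : MeasurableSpace Ω} {F G : Lab × Ω → ℂ} (hF : F ∈ FamS B)
    (hG : G ∈ FamS B) : (fun s => F s * G s) ∈ FamS B := by
  obtain ⟨h1, C, hC⟩ := hF
  obtain ⟨h2, D, hD⟩ := hG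
  refine ⟨fun l => (h1 l).mul (h2 l), C * D, fun s => ?_⟩
  rw [norm_mul]
  exact mul_le_mul (hC s) (hD s) (norm_nonneg _) ((norm_nonneg _).trans (hC s))

theorem char_prod {Ω κ : Type} {B : MeasurableSpace Ω} {χ : (Lab × Ω → ℂ) → ℂ}
    (h : IsChar (FamS B) χ) (s : Finset κ) (F : κ → Lab × Ω → ℂ) (hF : ∀ k, F k ∈ FamS B) :
    (fun z => ∏ k ∈ s, F k z) ∈ FamS B ∧ χ (fun z => ∏ k ∈ s, F k z) = ∏ k ∈ s, χ (F k) := by
  classical
  induction s using Finset.induction_on with
  | empty =>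
    simp only [prod_empty]
    exact ⟨⟨fun l => measurable_const, 1, fun s => by simp⟩, h.const 1⟩
  | insert j s hj ih =>
    simp only [prod_insert hj]
    exact ⟨fam_mul (hF j) ih.1, by rw [h.mul _ (hF j) _ ih.1, ih.2]⟩

theorem ae_comp {Ω Ω' : Type} {m : MeasurableSpace Ω} {m' : MeasurableSpace Ω'} {μ : Measure Ω}
    {μ' : Measure Ω'} {p : Ω → Ω'} (h : MeasurePreserving p μ μ') {f g : Ω' → ℂ}
    (e : f =ᵐ[μ'] g) : ∀ᵐ x ∂μ, f (p x) = g (p x) := h.quasiMeasurePreserving.ae_eq_comp e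

theorem fam_of (t : BasT) (X : Sys) (n : Lab → Γ) {g : X.X → ℂ} (hg : g ∈ Bdd X.X) :
    (fun z : Lab × X.X => g (X.Tz (n z.1) z.2)) ∈ FamS X.ms := by
  obtain ⟨m, D, b⟩ := hg
  exact ⟨fun l => m.comp (t.mp X (n l)).measurable, D, fun z => b _⟩

/-- averages vanish when one function is orthogonal to the base -/
theorem van (fd : Fd) (ind : IndS) (ν : Wt) (X : Sys) {ι : Type} [Fintype ι] (r : ι → Γ)
    (C : MeasurableSpace X.X) (erg : ERG ν) (spr : SPR ν) (hr : CovR r) (hn : Nice X)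
    (hC : KC X C) (f : ι → X.X → ℂ) (hf : ∀ i, BM X.μ X.ms (f i)) (i0 : ι)
    (hz : X.μ[f i0 | C] =ᵐ[X.μ] 0) :
    Tendsto (fun M => ∫ x, ‖avg ν M X r f x‖ ^ 2 ∂X.μ) atTop (𝓝 0) := by
  have hrep : ∀ i, ∃ f' ∈ @Bdd X.X X.ms, f i =ᵐ[X.μ] f' := fun i => by
    obtain ⟨h1, D, hD⟩ := hf i
    obtain ⟨f', m, b, e⟩ := fd.a.rep X.ms X.μ (f i) (max D 0) (le_max_right _ _) h1
      (hD.mono fun x hx => hx.trans (le_max_left _ _))
    exact ⟨f', ⟨m, _, b⟩, e⟩
  choose f' hf' he using hrep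
  let g : ι × Bool → X.X → ℂ := fun s x => if s.2 then f' s.1 x else conj (f' s.1 x)
  let sl : ι × Bool → Slot := fun s => (r s.1, s.2)
  have hg : ∀ s, g s ∈ @Bdd X.X X.ms := by
    rintro ⟨i, _ | _⟩
    · obtain ⟨m, D, b⟩ := hf' i
      exact ⟨Complex.continuous_conj.measurable.comp m, D, fun x => by simpa [g] using b x⟩
    · exact hf' i
  have hgb : ∀ s, BM X.μ X.ms (g s) := fun s => by
    obtain ⟨m, D, b⟩ := hg s
    exact ⟨m.aestronglyMeasurable, D, Eventually.of_forall b⟩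
  have hF : ∀ s, (fun z : Lab × X.X => g s (X.Tz (rho (sl s) z.1) z.2)) ∈ FamS X.ms := fun s =>
    fam_of fd.t X (rho (sl s)) (hg s)
  rw [tendsto_iff_ultrafilter]
  intro U hU
  obtain ⟨L⟩ := fd.line ν U X hn
  have k := ind ν U hU erg spr _ X C L (ι × Bool) sl univ hn hC
    (fun s _ s' _ e => ⟨fun e2 => hr.2 _ _ fun e1 => e (Prod.ext e1 e2), fun _ => hr.1 _⟩)
    le_rfl g fun s _ => hgb s
  obtain ⟨w0⟩ : Nonempty L.W.X := L.W.μ.nonempty_of_neZero
  have lim := L.lim _ (char_prod (L.ch w0) univ _ hF).1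
  have e0 : ∫ w, L.hat (fun z => ∏ s, g s (X.Tz (rho (sl s) z.1) z.2)) w ∂L.W.μ = 0 := by
    have e1 : L.hat (fun z => ∏ s, g s (X.Tz (rho (sl s) z.1) z.2)) =ᵐ[L.W.μ]
        fun w => ∏ s, g s (L.π (sl s) w) := by
      filter_upwards [ae_all_iff.2 fun s => L.slot (sl s) (g s) (hg s)] with w hw
      rw [(char_prod (L.ch w) univ _ hF).2]
      exact prod_congr rfl fun s _ => (hw s).symm
    rw [integral_congr_ae e1, ← integral_condExp (fd.lb.fac L C hC.1).le, integral_congr_ae k]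
    refine integral_eq_zero_of_ae ?_
    have e2 : X.μ[g (i0, true) | C] =ᵐ[X.μ] 0 := (condExp_congr_ae (he i0).symm).trans hz
    filter_upwards [ae_comp (L.emb (sl (i0, true))).mp e2] with w hw
    exact prod_eq_zero (mem_univ (i0, true)) hw
  rw [e0] at lim
  have e3 : ∀ M, ((∫ x, ‖avg ν M X r f x‖ ^ 2 ∂X.μ : ℝ) : ℂ) =
      ν.av2 M fun l => ∫ x, ∏ s, g s (X.Tz (rho (sl s) l) x) ∂X.μ := fun M => by
    rw [sq_avg fd.t ν M X r f hf]
    congr 1
    funext l
    refine integral_congr_ae ?_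
    filter_upwards [ae_all_iff.2 fun i => ae_comp (fd.t.mp X (l.2.1 • r i)) (he i),
      ae_all_iff.2 fun i => ae_comp (fd.t.mp X (l.2.2 • r i)) (he i)] with x h1 h2
    rw [Fintype.prod_prod_type, map_prod, ← prod_mul_distrib]
    refine prod_congr rfl fun i _ => ?_
    rw [Fintype.prod_bool]
    exact congrArg₂ (· * ·) (h1 i) (congrArg conj (h2 i))
  have lim2 := (Complex.continuous_re.tendsto _).comp lim
  refine lim2.congr fun M => ?_
  exact (congrArg Complex.re (e3 M)).symm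

end Top

theorem top : TopR := by
  intro fd gf ind ν ν' X ι _ _ r C erg erg' spr spr' hr hn hC good
  refine gf.dense ν ν' X ι r X.ms
    {φ | BM X.μ C φ ∨ BM X.μ X.ms φ ∧ X.μ[φ | C] =ᵐ[X.μ] 0} (fd.t.top X)
    (fun φ h => h.elim (fun k => k.mono hC.1.le) fun k => k.1) (fun g hg ε hε => ?_) fun f hf => ?_
  · refine ⟨2, ![X.μ[g | C], fun x => g x - (X.μ[g | C]) x], fun i => ?_, ?_⟩
    · fin_cases i
      · exact Or.inl (hg.ce C)
      · exact Or.inr ⟨hg.sub ((hg.ce C).mono hC.1.le),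
          (Fib27.perp_sub_ce hC.1.le hg).ce hC.1.le (hg.sub ((hg.ce C).mono hC.1.le))⟩
    · simp [Fin.sum_univ_two, hε.le]
  by_cases h : ∀ i, BM X.μ C (f i)
  · exact good f h
  obtain ⟨i0, hi⟩ := not_forall.1 h
  have hz := ((hf i0).resolve_left hi).2
  have hb : ∀ i, BM X.μ X.ms (f i) := fun i =>
    (hf i).elim (fun k => k.mono hC.1.le) fun k => k.1
  have l1 := Top.van fd ind ν X r C erg spr hr hn hC f hb i0 hz
  have l2 := Top.van fd ind ν' X r C erg' spr' hr hn hC f hb i0 hz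
  have l3 := (l1.const_mul 2).add (l2.const_mul 2)
  rw [mul_zero, add_zero] at l3
  refine squeeze_zero (fun M => integral_nonneg fun x => by positivity) (fun M => ?_) l3
  have i1 := ((Top.bm_avg fd.t ν M X r f hb).memLp 2).integrable_norm_pow (by norm_num)
  have i2 := ((Top.bm_avg fd.t ν' M X r f hb).memLp 2).integrable_norm_pow (by norm_num)
  rw [← integral_const_mul, ← integral_const_mul, ← integral_add (i1.const_mul 2) (i2.const_mul 2)]
  refine integral_mono_of_nonneg (Eventually.of_forall fun x => by positivity)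
    ((i1.const_mul 2).add (i2.const_mul 2)) (Eventually.of_forall fun x => ?_)
  have := norm_sub_le (avg ν M X r f x) (avg ν' M X r f x)
  have h2 := norm_nonneg (avg ν M X r f x - avg ν' M X r f x)
  nlinarith [sq_nonneg (‖avg ν M X r f x‖ - ‖avg ν' M X r f x‖)]

end T4x

end

end PkInd24

section PkAsm

/-! Assembly of the rows. -/

set_option autoImplicit false
set_option linter.unusedVariables false
set_option linter.unusedSectionVars false

open MeasureTheory ProbabilityTheory Filter Topology Function Finset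
open Pool.Agent.MP_154433_an.SG (Uni ufn)

noncomputable section

namespace T4x

open T3x

section

variable [Grp]

theorem bas_of (o : One) (t : BasTS) : Bas := ⟨o.b.a, t o.b.a o.b.t, o.b.d, o.b.c⟩

theorem fd_of (o : One) (b : Bas) (met : MetR) (mix : MixR) (real : RealR) (n0 : Nice0R)
    (lim : LimR) (rp : RPR) (line : LineR) (lb : LfBR) (la : LfAR) (lc : LfCR) (ld : LfDR)
    (ka : KfAR) (kb : KfBR) (hf : HfR) (pd : ProdR) : Fd :=
  have hr := real b
  have hlb := lb b
  have hla := la b hlb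
  have hka := ka b o
  have hkb := kb b o
  have hh := hf b hka hkb
  { a := b.a, t := b.t, d := b.d, c := b.c, met := met b o, mix := mix b o, nice0 := n0 b hr,
    lim := lim b hr, rp := rp b hr, line := line b hr, la := hla, lb := hlb, lc := lc b hlb,
    ld := ld b hla hlb, ka := hka, kb := hkb, h := hh, prod := pd b hka hkb hh }

theorem tupU_tup1 (c : Ctx) (φ : c.ι → c.W.X → ℂ) (h : c.TupU φ) : c.Tup1 φ := by
  obtain ⟨g, rfl⟩ := h
  intro k
  refine ⟨?_, Eventually.of_forall fun x => Circle.norm_coe _⟩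
  have h1 : Measurable[MeasurableSpace.comap (c.π k) c.X.ms] (c.up g k) :=
    Measurable.comp (g := fun ω => ((g k).1 ω : ℂ)) (g k).2 (comap_measurable _)
  have h2 : MeasurableSpace.comap (c.π k) c.X.ms ≤ c.P k ⊔ c.B2 :=
    le_trans (le_sup_left (b := nul c.W.μ)) le_sup_left
  exact (h1.mono h2 le_rfl).stronglyMeasurable.aestronglyMeasurable

theorem step_of (fd : Fd) (rc : Rc) (sel : SelS) (apx : ApxS) (hgx : HGXS) (gg : GGS)
    (sa : SatA) (alg : AlgS) (gi : GIR) (f3 : F3R) (r2p : R2PR) (f2 : F2R) (hg : HGR)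
    (gsp1 : GSp1R) (full : FullR) (rep : RepR) (gspU : GSpUR) (t5 : T5R) (exh : ExhR)
    (hat : HatR) (ty : TyR) (pos : PosR) (psi : PsiR) (bun : BunR) (stp : StpR) (rel : RelR)
    (onh : OnhR) (algI : AlgIR) : StepS := by
  intro c hs hf
  have hgi := gi fd c
  have h2 := f2 fd c hgi hs (r2p fd c hgi)
  obtain ⟨hH, hh⟩ := hg fd hgx c hgi h2 (f3 fd c hgi hs)
  have g1 := gsp1 fd rc sel gg c hgi hH
  have fu1 := full fd rc hgx c c.Tup1 hgi hH (fun _ h => h) g1
  have gU := gspU fd rc c hgi hH g1 fu1 (rep fd rc sel apx c hgi fu1)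
  have fuU := full fd rc hgx c c.TupU hgi hH (tupU_tup1 c) gU
  obtain ⟨hcl, h5⟩ := t5 fd rc c hgi gU fuU
  obtain ⟨g, hg5⟩ := h5 (hh hf)
  obtain ⟨𝒱, s, hx, hg𝒱⟩ := exh fd rc c g
  obtain ⟨H⟩ := hat fd c hgi
  have hty := ty fd rc c H 𝒱 s hcl hx
  obtain ⟨j, k, hp⟩ := pos fd rc c H 𝒱 s g hgi hx hty hg𝒱 hg5
  obtain ⟨c1, V, _, _, sg, ψ, hψ, hb⟩ := bun fd rc sa psi gi c H 𝒱 s g j k hgi hx hty hg𝒱 hp
  obtain ⟨ho, hi⟩ := onh fd rc rel c1 V sg ψ hψ
  exact algI fd rc stp rel alg c1 V sg ψ (gi fd c1) hψ ho hi hb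

theorem det_of (b : Bas) (fd : Fd) (ind : IndS) (gf : GfR) (cptA : CptAR) (cpt : CptR)
    (top : TopR) (det : DetR) : DET :=
  det fd (gf b) (cpt fd (gf b) (cptA fd)) (top fd (gf b) ind)

end

theorem ind_of (fd : ∀ G : Grp, @Fd G) (ind2 : ∀ G : Grp, @Ind2R G) (sa : ∀ G : Grp, @SatAR G)
    (sat : ∀ G : Grp, @SatR G) (step : ∀ G : Grp, @StepS G) (indF : ∀ G : Grp, @IndFR G)
    (res : ResR) (ind : IndR) : ∀ G : Grp, @IndS G :=
  ind fd ind2 (fun G => sa G (fd G)) (fun G => sat G (fd G) (sa G (fd G))) step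
    (res fd fun G => indF G (fd G))

end T4x

end

end PkAsm

section PkOneX

/-! What is taken from the case of one map. -/

set_option autoImplicit false

namespace T4x

theorem bas3 : T3x.Bas := ⟨T3x.basA, T3x.basT T3x.basA, T3x.basD T3x.basA,
  T3x.basC T3x.basA (T3x.basD T3x.basA)⟩

theorem oneX : One :=
  have b := bas3
  have hm := T3x.met b
  have hrp := T3x.rp b (T3x.real b)
  have hka := T3x.kfA b hm hrp
  ⟨b, hm, T3x.mix b hm, hka, T3x.kfB b hm hrp hka⟩

theorem rcX : T3x.Rc := T3x.rc bas3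
theorem selX : T3x.SelS := T3x.sel bas3 rcX
theorem apxX : T3x.ApxS := T3x.apx bas3 rcX
theorem hgxX : T3x.HGXS := T3x.hgx bas3
theorem ggX : T3x.GGS := T3x.ggS bas3

end T4x

end PkOneX

section PkSec4

/-! Section 4: all sub-rows. -/

namespace T4x

open T3x

variable [Grp]

theorem sec4 : Sec4A.Rows :=
  ⟨xCtx, xPsc, xFf, xZv, xHt, xExh, xHatA, xHatB, xTyA, xTyB, xMixL, ⟨xAtM, xAtO, xAtT, xAtE⟩, xPosB,
    xPsiA, xPsiB, xBunB, xOnhK, xOnhC, xDec, xRelA, xOnhB, xStpA, xFlat, xStpB, xAlgA, xAlgT,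
    xAlgB, xAlgC⟩

theorem sec4out (hRc : Rc) (hSat : SatAR) : Sec4A.Out := Sec4A.out sec4 hRc hSat

end T4x

end PkSec4

section PkDetX

/-! Assembly of all rows: the deterministic statement for commuting maps. -/

set_option autoImplicit false

namespace T4x

section

variable [Grp]

theorem basX : Bas := bas_of oneX basT

theorem fdX : Fd := fd_of oneX basX met mix real nice0 limS rp line lfB lfA lfC lfD kfA kfB hf prodS

theorem stepX (alg : AlgS) : StepS :=
  have fd := fdX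
  have o := sec4out rcX satA
  step_of fd rcX selX apxX hgxX ggX (satA fd) alg gi f3 r2p f2 hg gsp1 full rep gspU t5 o.exh o.hat
    o.ty o.pos o.psi o.bun o.stp o.rel o.onh o.algI

end

theorem indX (alg : ∀ G : Grp, @AlgS G) : ∀ G : Grp, @IndS G :=
  ind_of (fun G => @fdX G) (fun G => @ind2 G) (fun G => @satA G) (fun G => @sat G)
    (fun G => @stepX G (alg G)) (fun G => @indF G) res indR

theorem detX (alg : ∀ G : Grp, @AlgS G) (G : Grp) : @DET G :=
  det_of basX fdX (indX alg G) gf cptA cpt top det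

end T4x

end PkDetX
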