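import Pool.Agent.MP_154433_an.t3u.Sp
import Pool.Agent.MP_154433_an.t3u.P99
import Pool.Agent.MP_154433_an.t3u.Exh
import Pool.Agent.MP_154433_an.t3u.FA
import Pool.Agent.MP_154433_an.t3u.Net
import Pool.Agent.MP_154433_an.t3u.UC
import Pool.Agent.MP_154433_an.t3u.Typ
import Pool.Agent.MP_154433_an.t3u.Uni
import Pool.Agent.MP_154433_an.t3u.Stc
import Pool.Agent.MP_154433_an.t3u.Stb
import Pool.Agent.MP_154433_an.t3u.CO
import Pool.Agent.MP_154433_an.t3u.Ker
import Pool.Agent.MP_154433_an.t3u.Int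
import Pool.Agent.MP_154433_an.t3u.UA
import Pool.Agent.MP_154433_an.t3u.UB
import Pool.Agent.MP_154433_an.t3u.Sat
import Pool.Agent.MP_154433_an.t3u.SpA
import Pool.Agent.MP_154433_an.t3u.Ds
import Pool.Agent.MP_154433_an.t3u.Cp
import Pool.Agent.MP_154433_an.t3u.Eig
import Pool.Agent.MP_154433_an.t3u.Gap
import Pool.Agent.MP_154433_an.t3u.Sta
import Pool.Agent.MP_154433_an.t3u.Vp
import Pool.Agent.MP_154433_an.t3u.Po
import Pool.Agent.MP_154433_an.t3u.Cnt
import Pool.Agent.MP_154433_an.t3u.Rep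
import Pool.Agent.MP_154433_an.t3u.Ind
import Pool.Agent.MP_154433_an.t3u.Gr
import Pool.Agent.MP_154433_an.t3a.Lim
import Pool.Agent.MP_154433_an.t3a.Mk
import Pool.Agent.MP_154433_an.p4.Top
import Pool.Agent.MP_154433_an.p4.B1
import Pool.Agent.MP_154433_an.p4.B2
import Pool.Agent.MP_154433_an.p4.B3
import Pool.Agent.MP_154433_an.p4.B4
import Pool.Agent.MP_154433_an.p4.B5
import Pool.Agent.MP_154433_an.p4.S1
import Pool.Agent.MP_154433_an.p4.S2
import Pool.Agent.MP_154433_an.p4.S3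

/-! The theorem for commuting maps. -/

section PkTopA

set_option autoImplicit false

namespace Pool.Agent.MP_154433_an.T4A

theorem rows : Rows :=
  ⟨xKex, xKa, xKb, xKc, xKd, T3A.xLim, xW1, xW2, xPhb, xKw, xWk, xWa, xCe, xCi, xTri, xCis, xCfl,
    xCit, xCpo, xCpr, xPk, xLam, xLae, xPha, xPhc, xF2, xF3, xF4b, xIid, xXi, xPull, xPush, xInt, xPrj,
    xG5, xG3, xG4, xRli, xT1, xT2, xSel, xSub, xTau, T3A.xMk, xTh, xPsi, xPsr, xSd, xCt,
    xFin (xCore (xSp (xZl xPig) xQh))⟩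

theorem algS : AlgS := algS_of_rows rows

theorem xAlg [T4x.Grp] (bt : T4x.BasT) (hm : T4x.MixS) : T4x.AlgS := bridge algS xExa bt hm

end Pool.Agent.MP_154433_an.T4A

end PkTopA

section PkAllS

/-! Assembly: the main statement for commuting maps follows from the deterministic theorem. -/

set_option autoImplicit false

namespace Pool.Agent.MP_154433_an.T4S

theorem invG : T3u.InvG :=
  T3u.invG_of T3u.ua T3u.ub T3u.sat T3u.cfc T3u.uc T3u.exh T3u.spA T3u.ds T3u.cpA T3u.fa T3u.co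
    T3u.eig T3u.ker T3u.gap T3u.sp T3u.sta T3u.stb T3u.joint T3u.stc T3u.st T3u.uni T3u.typ T3u.vp
    T3u.po T3u.int T3u.sym T3u.p99 T3u.cnt T3u.rep T3u.net T3u.ent T3u.ind T3u.inv

theorem aeAll : AeS :=
  ae (net (apx (shift T3S.shift) (T3S.dual T3S.gcs T3S.win)) (cov invG)) T3S.ub T3S.nrm T3S.aeAll

theorem mainAll (h : ∀ G : T4x.Grp, @T4x.DET G) : MainS :=
  mainOf fac (good prodr)
    (unif fac (zero T3S.nest link) (rep perm (inn invF)) (gvn T3S.vdc)) aeAll T3S.aeAll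
    (clsr T3S.ub cnt) spr near T3S.nrm (T3S.erg T3S.vn) (red act) endr (detOf h)

end Pool.Agent.MP_154433_an.T4S

end PkAllS

section PkFin

set_option autoImplicit false

namespace Pool.Agent.MP_154433_an.T4S

theorem detAll (G : T4x.Grp) : @T4x.DET G :=
  T4x.detX (fun G => @T4A.xAlg G (@T4x.basX G).t (@T4x.fdX G).mix) G

theorem mainEC : MainS := mainAll detAll

end Pool.Agent.MP_154433_an.T4S

end PkFin
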