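import Pool.Agent.MP_154433_an.t4.SpecG

/-! Rows for commuting maps, part G4. -/

section PkGStpA

set_option autoImplicit false
set_option linter.unusedVariables false
set_option warn.classDefReducibility false

open MeasureTheory ProbabilityTheory Filter Topology Function Finset ComplexConjugate
open scoped BigOperators
open Fib27 (BM sup pr Oc Orow F23 LInd Mem)
open Pool.Agent.MP_154433_an.SG (Uni ufn)

noncomputable section

namespace T4x

open T3x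

variable [Grp]

namespace GStpA4

lemma mem_SV (c : Ctx) {V : Type} (ψ : V → c.X.X → ℂ) (i1 i2 : c.ι) (a a' : V) (w : c.W.X) :
    w ∈ c.SV ψ i1 i2 a a' ↔
      w ∈ c.UU ψ ∧ ∃ v : c.ι → V, (v i1 = a ∧ v i2 = a') ∧ w ∈ c.ΘV ψ v := by
  simp only [Ctx.SV, Set.mem_inter_iff, Set.mem_iUnion, Set.mem_ofPred_eq, exists_prop]

omit [Grp] in
lemma two {ι V : Type} [DecidableEq ι] [AddCommGroup V] (i1 i2 : ι) (h : i1 ≠ i2) (a a' : V) :
    ((Pi.single i1 a : ι → V) + (Pi.single i2 a' : ι → V)) i1 = a ∧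
      ((Pi.single i1 a : ι → V) + (Pi.single i2 a' : ι → V)) i2 = a' := by
  constructor
  · simp [h]
  · simp [h.symm]

end GStpA4

theorem xStpA : StpA := by
  intro fd rc gc c V _ _ sg ψ i1 i2 hne gi hψ
  have cx := gc.ctx c
  have ff := gc.ff c V sg ψ hψ
  have ps := gc.ps c.X c.B V sg ψ cx.facB hψ
  refine ⟨fun a a' b b' => ?_, ?_, fun a a' => ?_, fun v j k => ?_, fun n a a' => ?_⟩
  · filter_upwards [ff.tsub] with w hw hm
    have hm' : w ∈ c.SV ψ i1 i2 a a' ∧ w ∈ c.SV ψ i1 i2 b b' := hm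
    obtain ⟨h1, h2⟩ := hm'
    rw [GStpA4.mem_SV] at h1 h2
    obtain ⟨hu, v, ⟨e1, e2⟩, hv⟩ := h1
    obtain ⟨-, v', ⟨e1', e2'⟩, hv'⟩ := h2
    exact (GStpA4.mem_SV c ψ i1 i2 _ _ w).2 ⟨hu, v - v',
      ⟨by rw [Pi.sub_apply, e1, e1'], by rw [Pi.sub_apply, e2, e2']⟩, hw v v' hv hv'⟩
  · rw [Filter.eventuallyEq_set]
    filter_upwards [ff.t0] with w hw
    rw [GStpA4.mem_SV]
    exact ⟨fun h => h.1, fun h => ⟨h, 0, ⟨rfl, rfl⟩, hw⟩⟩
  · filter_upwards [ff.tadd, ff.tsingle gi] with w hw hs hu h1 h2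
    exact (GStpA4.mem_SV c ψ i1 i2 _ _ w).2 ⟨hu, _, GStpA4.two i1 i2 hne a a',
      hw _ _ ((hs i1 a).2 h1) ((hs i2 a').2 h2)⟩
  · have hcm := rc.cm c.B2 c.P c.W.μ (fun k w => ψ (v k) (c.π k w)) cx.kc2.1.le
      (fun i => (cx.facP i).le) c.three gi.cline (fun k => ff.um2 k (v k))
    filter_upwards [hcm j, hcm k, cx.ce gi j _ (ps.bm (v j)), cx.ce gi k _ (ps.bm (v k))]
      with w h1 h2 e1 e2 hv
    have hv' : w ∈ Th c.B2 c.W.μ (pr (fun k w => ψ (v k) (c.π k w)) univ) := hv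
    simp only [Ctx.Nt, Set.mem_ofPred_eq, ne_eq]
    refine not_congr ⟨fun h => ?_, fun h => ?_⟩
    · have h0 : (c.W.μ[fun w => ψ (v j) (c.π j w) | c.B2]) w ≠ 0 := by
        rw [e1]; intro h0; rw [h0] at h; simp at h
      have := h1 hv' h0 k
      simp only [Th, Set.mem_ofPred_eq] at this
      rwa [e2] at this
    · have h0 : (c.W.μ[fun w => ψ (v k) (c.π k w) | c.B2]) w ≠ 0 := by
        rw [e2]; intro h0; rw [h0] at h; simp at h
      have := h2 hv' h0 j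
      simp only [Th, Set.mem_ofPred_eq] at this
      rwa [e1] at this
  · rw [Filter.eventuallyEq_set]
    filter_upwards [ff.tsh n, ff.ush n] with w hw hu
    rw [Set.mem_preimage, GStpA4.mem_SV, GStpA4.mem_SV, hu]
    refine and_congr_right fun _ => ⟨?_, ?_⟩
    · rintro ⟨v, ⟨e1, e2⟩, hv⟩
      refine ⟨fun k => (sg n).symm (v k), ⟨by simp [e1], by simp [e2]⟩, (hw _).1 ?_⟩
      simpa using hv
    · rintro ⟨v, ⟨e1, e2⟩, hv⟩
      exact ⟨fun k => sg n (v k), ⟨by simp [e1], by simp [e2]⟩, (hw v).2 hv⟩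

end T4x

end

end PkGStpA

section PkGStpB

/-! Row GStpB: the steps commute in the grid. -/

set_option autoImplicit false
set_option linter.unusedVariables false
set_option warn.classDefReducibility false

open MeasureTheory ProbabilityTheory Filter Topology Function Finset ComplexConjugate
open scoped BigOperators
open Fib27 (BM sup pr Oc Orow F23 LInd Mem)
open Pool.Agent.MP_154433_an.SG (Uni ufn)

noncomputable section

namespace T4x

open T3x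

namespace GStpB

variable {ι V : Type} {R C : ι → (ι → V) → Prop}

lemma core (hf : ∀ (m : ι → ι → V) (j0 j : ι), (∀ k, R k (m k)) → C j0 (fun k => m k j0) →
      C j fun k => m k j) (j0 j : ι) (u : ι → V) (hu : C j0 u) (P : ι → (ι → V) → Prop)
    (h : ∀ k, ∃ v, R k v ∧ v j0 = u k ∧ P k v) :
    ∃ m : ι → ι → V, (∀ k, P k (m k)) ∧ C j fun k => m k j := by
  choose m h1 h2 h3 using h
  refine ⟨m, h3, hf m j0 j h1 ?_⟩
  have : (fun k => m k j0) = u := funext h2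
  rw [this]
  exact hu

lemma colU (hf : ∀ (m : ι → ι → V) (j0 j : ι), (∀ k, R k (m k)) → C j0 (fun k => m k j0) →
      C j fun k => m k j) (hR : ∀ k q y, ∃ v, v q = y ∧ R k v) (j0 j : ι)
    (h0 : ∀ q y, ∃ v, v q = y ∧ C j0 v) (q : ι) (y : V) : ∃ v, v q = y ∧ C j v := by
  obtain ⟨r, hr, hRr⟩ := hR q j y
  obtain ⟨u, hu, hCu⟩ := h0 q (r j0)
  obtain ⟨m, h1, h2⟩ := core hf j0 j u hCu (fun k v => k = q → v j = y) fun k => by
    by_cases hk : k = q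
    · subst hk
      exact ⟨r, hRr, hu.symm, fun _ => hr⟩
    · obtain ⟨v, hv, hRv⟩ := hR k j0 (u k)
      exact ⟨v, hRv, hv, fun h => absurd h hk⟩
  exact ⟨fun k => m k j, h1 q rfl, h2⟩

lemma colS (hf : ∀ (m : ι → ι → V) (j0 j : ι), (∀ k, R k (m k)) → C j0 (fun k => m k j0) →
      C j fun k => m k j) (hR : ∀ k q y, ∃ v, v q = y ∧ R k v) {i1 i2 : ι} (h12 : i1 ≠ i2)
    (j0 j : ι) {r1 r2 u : ι → V} (h1 : R i1 r1) (h2 : R i2 r2) (hu : C j0 u)
    (e1 : u i1 = r1 j0) (e2 : u i2 = r2 j0) : ∃ v, (v i1 = r1 j ∧ v i2 = r2 j) ∧ C j v := by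
  obtain ⟨m, g1, g2⟩ := core hf j0 j u hu
    (fun k v => (k = i1 → v j = r1 j) ∧ (k = i2 → v j = r2 j)) fun k => by
    by_cases hk : k = i1
    · subst hk
      exact ⟨r1, h1, e1.symm, fun _ => rfl, fun h => absurd h h12⟩
    · by_cases hk' : k = i2
      · subst hk'
        exact ⟨r2, h2, e2.symm, fun h => absurd h hk, fun _ => rfl⟩
      · obtain ⟨v, hv, hRv⟩ := hR k j0 (u k)
        exact ⟨v, hRv, hv, fun h => absurd h hk, fun h => absurd h hk'⟩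
  exact ⟨fun k => m k j, ⟨(g1 i1).1 rfl, (g1 i2).2 rfl⟩, g2⟩

variable [Grp]

lemma memU (c : Ctx) {V : Type} (ψ : V → c.X.X → ℂ) (w : c.W.X) :
    w ∈ c.UU ψ ↔ ∀ q y, ∃ v : c.ι → V, v q = y ∧ w ∈ c.ΘV ψ v := by
  simp only [Ctx.UU, Set.mem_iInter, Set.mem_iUnion, Set.mem_ofPred_eq, exists_prop]

lemma memS (c : Ctx) {V : Type} (ψ : V → c.X.X → ℂ) (i1 i2 : c.ι) (a a' : V) (w : c.W.X) :
    w ∈ c.SV ψ i1 i2 a a' ↔
      w ∈ c.UU ψ ∧ ∃ v : c.ι → V, (v i1 = a ∧ v i2 = a') ∧ w ∈ c.ΘV ψ v := by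
  simp only [Ctx.SV, Set.mem_inter_iff, Set.mem_iUnion, Set.mem_ofPred_eq, exists_prop]

/-- an almost invariant set is seen in the same way from all rows -/
lemma rows (hF : Fd) (c : Ctx) (hc : CtxC c) (S : Set c.W.X) (hS : MeasurableSet S)
    (hT : ∀ n : Γ, ∀ᵐ w ∂c.W.μ, w ∈ S ↔ c.W.Tz n w ∈ S) (k k' : c.ι) :
    ∀ᵐ x ∂c.W2.μ, c.A k x ∈ S ↔ c.A k' x ∈ S := by
  have m1 : AEStronglyMeasurable (S.indicator fun _ => (1 : ℂ)) c.W.μ :=
    (stronglyMeasurable_const.indicator hS).aestronglyMeasurable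
  have m2 := (hF.t.inv_iff c.W Set.univ _ m1).2 (fun n _ => by
    filter_upwards [hT n] with w hw
    by_cases h : w ∈ S
    · rw [Set.indicator_of_mem h, Set.indicator_of_mem (hw.1 h)]
    · rw [Set.indicator_of_notMem h, Set.indicator_of_notMem fun h' => h (hw.2 h')])
  have m3 := hF.a.keq_fun (Inv c.W Set.univ) c.W2.μ c.W.μ (c.A k) (c.A k') _ (hc.embA k).mp
    (hc.embA k').mp (hF.lb.inv c.L2 (c.sl k) (c.sl k')) m2
  filter_upwards [m3] with x hx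
  by_cases h : c.A k x ∈ S <;> by_cases h' : c.A k' x ∈ S
  · exact iff_of_true h h'
  · rw [Set.indicator_of_mem h, Set.indicator_of_notMem h'] at hx
    exact absurd hx one_ne_zero
  · rw [Set.indicator_of_notMem h, Set.indicator_of_mem h'] at hx
    exact absurd hx zero_ne_one
  · exact iff_of_false h h'

end GStpB

variable [Grp]

open GStpB in
theorem xStpB : StpB := by
  intro hF hG c V _ _ sg ψ i1 i2 h12 hψ hfl i3 h13 a b a' b'
  have hc := hG.ctx c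
  have hf := hG.ff c V sg ψ hψ
  have hU : ∀ᵐ x ∂c.W2.μ, ∀ k, c.A i1 x ∈ c.UU ψ ↔ c.A k x ∈ c.UU ψ :=
    ae_all_iff.2 fun k => rows hF c hc _ (hc.kc2.1.le _ hf.um') hf.ush i1 k
  have hA : ∀ᵐ x ∂c.W2.μ, ∀ (m : c.ι → c.ι → V) (j0 j : c.ι), (∀ k, c.A k x ∈ c.ΘV ψ (m k)) →
      c.Bc j0 x ∈ c.ΘV ψ (fun k => m k j0) → c.Bc j x ∈ c.ΘV ψ fun k => m k j :=
    ae_all_iff.2 fun m => ae_all_iff.2 fun j0 => ae_all_iff.2 fun j => hfl m j0 j
  filter_upwards [hU, hA] with x hU hA s1 s2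
  rw [memS] at s1 s2
  obtain ⟨u1, r1, ⟨e1, e2⟩, hr1⟩ := s1
  obtain ⟨-, r2, ⟨e3, e4⟩, hr2⟩ := s2
  have hR : ∀ k q y, ∃ v : c.ι → V, v q = y ∧ c.A k x ∈ c.ΘV ψ v :=
    fun k => (memU c ψ _).1 ((hU k).1 u1)
  subst e1 e2 e3 e4
  rw [memS, memS, memU, memU]
  constructor
  · rintro ⟨h0, u, ⟨f1, f2⟩, hu⟩
    exact ⟨colU (R := fun k v => c.A k x ∈ c.ΘV ψ v) (C := fun j v => c.Bc j x ∈ c.ΘV ψ v)
      hA hR i1 i3 h0, colS (R := fun k v => c.A k x ∈ c.ΘV ψ v)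
        (C := fun j v => c.Bc j x ∈ c.ΘV ψ v) hA hR h12 i1 i3 hr1 hr2 hu f1 f2⟩
  · rintro ⟨h0, u, ⟨f1, f2⟩, hu⟩
    exact ⟨colU (R := fun k v => c.A k x ∈ c.ΘV ψ v) (C := fun j v => c.Bc j x ∈ c.ΘV ψ v)
      hA hR i3 i1 h0, colS (R := fun k v => c.A k x ∈ c.ΘV ψ v)
        (C := fun j v => c.Bc j x ∈ c.ΘV ψ v) hA hR h12 i3 i1 hr1 hr2 hu f1 f2⟩

end T4x

end

end PkGStpB

section PkGTyA

/-! Row GTyA: the members of a tuple have the same type. -/

set_option autoImplicit false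
set_option linter.unusedVariables false
set_option warn.classDefReducibility false

open MeasureTheory ProbabilityTheory Filter Topology Function Finset ComplexConjugate
open scoped BigOperators
open Fib27 (BM sup pr Oc Orow F23 LInd Mem)
open Pool.Agent.MP_154433_an.SG (Uni ufn)

noncomputable section

namespace T4x

open T3x

variable [Grp]

namespace GTyA

theorem one_way (fd : Fd) (gc : GC) (zc : ZC) (c : Ctx) (H : c.Hat) (𝒱 : Subgroup (Uni c.X.X))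
    (s : Γ → 𝒱 ≃* 𝒱) (cl : c.CL) (ex : c.Exh 𝒱 s) (g : c.ι → Uni c.X.X) (j k : c.ι)
    (hg : ∀ i, g i ∈ 𝒱) (a : ℕ × c.ι) : ∀ᵐ w ∂H.L1.W.μ, H.Lp w ∈ c.Θ (c.up g) →
      H.τ 𝒱 (g j) (H.p1 (H.π j w)) a → H.τ 𝒱 (g k) (H.p1 (H.π k w)) a := by
  have hc := gc.ctx c
  have ht := zc.ht c H
  have hz := zc.zv c 𝒱 s ex
  have hle : c.B2 ≤ c.W.ms := hc.kc2.1.le
  obtain ⟨LP, hLP⟩ := fd.la.ex H.L1 c.L2 _ (ht.embe a)
  have hs : ∀ i, KEq H.L1.W.μ c.W.ms (c.A i ∘ LP) ((H.e a ∘ H.p1) ∘ H.π i) := fun i =>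
    fd.la.slot H.L1 c.L2 _ LP (c.sl i) (ht.embe a) hLP
  have hl := fd.la.comp H.L1 c.L2 c.L _ _ LP (c.Bc a.2) (ht.embe a) (hc.embπ a.2) hLP (c.lift a.2)
  have hu : KEq H.L1.W.μ c.W.ms (c.Bc a.2 ∘ LP) H.Lp :=
    fd.la.uniq H.L1 c.L _ _ _ _ (fd.t.emb_comp _ _ _ _ _ (ht.embe a) (hc.embπ a.2)) ht.embp
      (ht.com a) hl H.lift
  have h1 : ∀ᵐ w ∂H.L1.W.μ, ∀ h ∈ {g' : c.ι → Uni c.X.X | ∀ k, g' k ∈ 𝒱}, h a.2 = g j →
      H.Lp w ∈ c.Θ (c.up g) → H.e a (H.p1 (H.π j w)) ∈ c.Θ (c.up h) →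
      H.e a (H.p1 (H.π k w)) ∈ c.ZV 𝒱 a.2 (g k) := by
    rw [ae_ball_iff hz.cnt]
    intro h hh
    by_cases e : h a.2 = g j
    · have h2 := cl a.2 j k g h (c.ZV 𝒱 a.2 (g k)) e (hz.meas _ _) fun g' e' => by
        have := ex.exh a.2 g' (by rw [e']; exact hg k)
        rwa [e'] at this
      filter_upwards [hLP.emb.mp.quasiMeasurePreserving.ae h2, hu _ (hle _ (hz.tm g)),
        hs j _ (hle _ (hz.tm h)), hs k _ (hle _ (hz.meas a.2 (g k)))] with w a1 a2 a3 a4 _ b1 b2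
      exact a4.mp (a1 ⟨a2.mpr b1, a3.mpr b2⟩)
    · exact Eventually.of_forall fun w e' => absurd e' e
  filter_upwards [h1] with w hw b1 b2
  obtain ⟨h, hh, b3⟩ := Set.mem_iUnion₂.1 b2
  exact hw h hh.1 hh.2 b1 b3

end GTyA

open GTyA in
theorem xTyA : TyA := by
  intro fd gc zc c H 𝒱 s cl ex g j k hg
  filter_upwards [ae_all_iff.2 (one_way fd gc zc c H 𝒱 s cl ex g j k hg),
    ae_all_iff.2 (one_way fd gc zc c H 𝒱 s cl ex g k j hg)] with w h1 h2 hw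
  funext a
  exact propext ⟨h1 a hw, h2 a hw⟩

end T4x

end

end PkGTyA

section PkGTyB

/-! Row GTyB: a set that no sample meets is not met by the line. -/

set_option autoImplicit false
set_option linter.unusedVariables false
set_option warn.classDefReducibility false
set_option linter.unusedSectionVars false

open MeasureTheory ProbabilityTheory Filter Topology Function Finset ComplexConjugate
open scoped BigOperators
open Fib27 (BM sup pr Oc Orow F23 LInd Mem)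

noncomputable section

namespace T4x

open T3x

variable [Grp]

namespace GTyB

variable {Ω : Type} {m m0 : MeasurableSpace Ω} {μ : Measure Ω} [IsProbabilityMeasure μ]

theorem int_ind {E : Set Ω} (hE : MeasurableSet E) :
    ∫ x, E.indicator (fun _ => (1 : ℝ)) x ∂μ = μ.real E := by
  rw [integral_indicator hE]
  simp

/-- where the conditional probability of the complement has modulus one, the set is null -/
theorem full (hm : m ≤ m0) {D E : Set Ω} (hD : MeasurableSet D) (hE : MeasurableSet[m] E)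
    {b : Ω → ℂ} (hb : μ[Dᶜ.indicator fun _ => (1 : ℂ) | m] =ᵐ[μ] b)
    (h1 : ∀ x ∈ E, ‖b x‖ = 1) : ∀ᵐ x ∂μ, x ∈ D → x ∉ E := by
  have hE' : MeasurableSet E := hm E hE
  have hI : BM μ m0 (Dᶜ.indicator fun _ => (1 : ℂ)) := BM.indicator hD.compl
  have hg : BM μ m fun x => E.indicator (fun _ => (1 : ℂ)) x * conj (b x) :=
    (BM.indicator hE).mul ((hI.ce m).congr hb).conj
  have e1 := Fib27.int_ce_mul hm hI hg
  have e2 : ∫ x, (μ[Dᶜ.indicator fun _ => (1 : ℂ) | m]) x *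
      (E.indicator (fun _ => (1 : ℂ)) x * conj (b x)) ∂μ = (μ.real E : ℂ) := by
    rw [← int_ind hE', ← integral_complex_ofReal]
    refine integral_congr_ae ?_
    filter_upwards [hb] with x hx
    rw [hx]
    by_cases h : x ∈ E
    · simp only [Set.indicator_of_mem h, one_mul, Complex.ofReal_one]
      exact Fib27.mul_conj_uni (h1 x h)
    · simp [h]
  have e3 : ‖∫ x, Dᶜ.indicator (fun _ => (1 : ℂ)) x *
      (E.indicator (fun _ => (1 : ℂ)) x * conj (b x)) ∂μ‖ ≤ μ.real (E \ D) := by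
    rw [← int_ind (hE'.diff hD)]
    refine norm_integral_le_of_norm_le ((integrable_const _).indicator (hE'.diff hD))
      (Eventually.of_forall fun x => ?_)
    by_cases h : x ∈ E
    · by_cases h' : x ∈ D
      · simp [h, h']
      · simp [h, h', h1 x h]
    · simp [h]
  rw [← e1, e2, Complex.norm_real, Real.norm_of_nonneg measureReal_nonneg] at e3
  have e4 := measureReal_inter_add_sdiff (μ := μ) (s := E) hD
  have e5 : μ.real (E ∩ D) = 0 := le_antisymm (by linarith) measureReal_nonneg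
  rw [measureReal_eq_zero_iff] at e5
  filter_upwards [measure_eq_zero_iff_ae_notMem.1 e5] with x hx h h'
  exact hx ⟨h', h⟩

/-- independent samples miss a set of positive conditional probability with probability zero -/
theorem miss (hm : m ≤ m0) {D : ℕ → Set Ω} (hD : ∀ i, MeasurableSet (D i)) {b : Ω → ℂ}
    (hb : Measurable[m] b)
    (h : ∀ n, μ[fun x => ∏ i ∈ range n, (D i)ᶜ.indicator (fun _ => (1 : ℂ)) x | m] =ᵐ[μ]
      fun x => b x ^ n) : ∀ᵐ x ∂μ, ‖b x‖ < 1 → ∃ i, x ∈ D i := by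
  have key : ∀ r : ℝ, 0 ≤ r → r < 1 → μ ({x | ‖b x‖ ≤ r} ∩ ⋂ i, (D i)ᶜ) = 0 := by
    intro r hr0 hr
    have hA : MeasurableSet[m] {x | ‖b x‖ ≤ r} :=
      hb (measurableSet_le measurable_norm (measurable_const (a := r)))
    have hle : ∀ n : ℕ, μ.real ({x | ‖b x‖ ≤ r} ∩ ⋂ i, (D i)ᶜ) ≤ r ^ n := by
      intro n
      have hM : MeasurableSet ({x | ‖b x‖ ≤ r} ∩ ⋂ i ∈ range n, (D i)ᶜ) :=
        (hm _ hA).inter (Finset.measurableSet_biInter _ fun i _ => (hD i).compl)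
      have hP : BM μ m0 fun x => ∏ i ∈ range n, (D i)ᶜ.indicator (fun _ => (1 : ℂ)) x :=
        BM.pr (ρ := fun i => (D i)ᶜ.indicator fun _ => (1 : ℂ)) fun i _ =>
          BM.indicator (hD i).compl
      have e1 := Fib27.int_ce_mul hm hP (BM.indicator hA)
      have e2 : ∫ x, (∏ i ∈ range n, (D i)ᶜ.indicator (fun _ => (1 : ℂ)) x) *
          {x | ‖b x‖ ≤ r}.indicator (fun _ => (1 : ℂ)) x ∂μ =
          (μ.real ({x | ‖b x‖ ≤ r} ∩ ⋂ i ∈ range n, (D i)ᶜ) : ℂ) := by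
        rw [← int_ind hM, ← integral_complex_ofReal]
        refine integral_congr_ae (Eventually.of_forall fun x => ?_)
        by_cases h1 : x ∈ {x | ‖b x‖ ≤ r} ∩ ⋂ i ∈ range n, (D i)ᶜ
        · simp only [Set.indicator_of_mem h1, Set.indicator_of_mem h1.1, mul_one,
            Complex.ofReal_one]
          exact prod_eq_one fun i hi => Set.indicator_of_mem (Set.mem_iInter₂.1 h1.2 i hi) _
        · simp only [Set.indicator_of_notMem h1, Complex.ofReal_zero]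
          by_cases h2 : x ∈ {x | ‖b x‖ ≤ r}
          · have h3 : ¬ ∀ i ∈ range n, x ∈ (D i)ᶜ := fun h3 => h1 ⟨h2, Set.mem_iInter₂.2 h3⟩
            push Not at h3
            obtain ⟨i, hi, h3⟩ := h3
            rw [prod_eq_zero hi (Set.indicator_of_notMem h3 _), zero_mul]
          · rw [Set.indicator_of_notMem h2, mul_zero]
      have e3 : ‖∫ x, (μ[fun x => ∏ i ∈ range n, (D i)ᶜ.indicator (fun _ => (1 : ℂ)) x | m]) x *
          {x | ‖b x‖ ≤ r}.indicator (fun _ => (1 : ℂ)) x ∂μ‖ ≤ r ^ n := by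
        have := norm_integral_le_of_norm_le_const (μ := μ) (C := r ^ n) (f := fun x =>
          (μ[fun x => ∏ i ∈ range n, (D i)ᶜ.indicator (fun _ => (1 : ℂ)) x | m]) x *
          {x | ‖b x‖ ≤ r}.indicator (fun _ => (1 : ℂ)) x) (by
            filter_upwards [h n] with x hx
            rw [hx]
            by_cases h2 : x ∈ {x | ‖b x‖ ≤ r}
            · rw [Set.indicator_of_mem h2, mul_one, norm_pow]
              exact pow_le_pow_left₀ (norm_nonneg _) h2 n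
            · rw [Set.indicator_of_notMem h2, mul_zero, norm_zero]
              positivity)
        simpa using this
      rw [e1, e2, Complex.norm_real, Real.norm_of_nonneg measureReal_nonneg] at e3
      refine le_trans (measureReal_mono ?_) e3
      exact Set.inter_subset_inter_right _
        fun x hx => Set.mem_iInter₂.2 fun i _ => Set.mem_iInter.1 hx i
    rw [← measureReal_eq_zero_iff]
    exact le_antisymm (ge_of_tendsto' (tendsto_pow_atTop_nhds_zero_of_lt_one hr0 hr) hle)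
      measureReal_nonneg
  have key2 : ∀ k : ℕ, ∀ᵐ x ∂μ, x ∉ {x | ‖b x‖ ≤ 1 - 1 / ((k : ℝ) + 1)} ∩ ⋂ i, (D i)ᶜ := by
    intro k
    have h1 : (0 : ℝ) < 1 / ((k : ℝ) + 1) := Nat.one_div_pos_of_nat
    have h2 : 1 / ((k : ℝ) + 1) ≤ 1 := by
      rw [div_le_one (by positivity)]
      linarith [(Nat.cast_nonneg k : (0 : ℝ) ≤ k)]
    exact measure_eq_zero_iff_ae_notMem.1 (key _ (by linarith) (by linarith))
  filter_upwards [ae_all_iff.2 key2] with x hx hlt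
  obtain ⟨k, hk⟩ := exists_nat_one_div_lt (sub_pos.2 hlt)
  by_contra hno
  push Not at hno
  exact hx k ⟨by show ‖b x‖ ≤ _; linarith, Set.mem_iInter.2 hno⟩

end GTyB

open GTyB in
theorem xTyB : TyB := by
  intro fd gc zc c H q D hD
  have hc := gc.ctx c
  have ht := zc.ht c H
  have hI : BM c.W.μ c.W.ms (Dᶜ.indicator fun _ => (1 : ℂ)) := BM.indicator hD.compl
  have hbd : ∀ᵐ w ∂c.W.μ, ‖(c.W.μ[Dᶜ.indicator fun _ => (1 : ℂ) | c.P q]) w‖ ≤ 1 :=
    ae_bdd_norm_condExp_of_ae_bdd_norm (Eventually.of_forall fun w => by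
      by_cases h : w ∈ D <;> simp [h])
  obtain ⟨b, hb, hb1, eb⟩ := fd.a.fact c.X.ms c.W.μ (c.π q) _ 1
    (hc.embπ q).mp.measurable.comap_le zero_le_one (hI.ce (c.P q)).1 hbd
  have hA : MeasurableSet {x | ‖b x‖ = 1} := measurableSet_eq_fun hb.norm measurable_const
  have h1 : ∀ᵐ w ∂c.W.μ, w ∈ D → w ∉ c.π q ⁻¹' {x | ‖b x‖ = 1} :=
    full (hc.facP q).le hD ((le_sup_left : _ ≤ c.P q) _ ⟨_, hA, rfl⟩) eb fun x hx => hx
  have he : ∀ a, MeasurePreserving (H.e a) H.Xh.μ c.W.μ := fun a => (H.rp.emb a).mp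
  have hp0 : MeasurePreserving (c.π H.i0 ∘ H.e (0, H.i0)) H.Xh.μ c.X.μ :=
    (hc.embπ H.i0).mp.comp (he _)
  have h2 : ∀ᵐ y ∂H.Xh.μ, ‖b (c.π H.i0 (H.e (0, H.i0) y))‖ < 1 → ∃ i, y ∈ H.e (i, q) ⁻¹' D := by
    refine miss (fd.a.pull_le c.X.ms H.Xh.μ c.X.μ _ hp0 le_rfl)
      (fun i => (he _).measurable hD)
      ((hb.comp (comap_measurable (c.π H.i0 ∘ H.e (0, H.i0)))).mono le_sup_left le_rfl) fun n => ?_
    classical
    have hinj : ∀ i ∈ range n, ∀ j ∈ range n, ((i, q) : ℕ × c.ι) = (j, q) → i = j :=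
      fun i _ j _ h => congrArg Prod.fst h
    have h3 : ∀ i : ℕ, (fun y => (c.W.μ[Dᶜ.indicator fun _ => (1 : ℂ) | c.P q]) (H.e (i, q) y))
        =ᵐ[H.Xh.μ] fun y => b (c.π H.i0 (H.e (0, H.i0) y)) := fun i =>
      ((he (i, q)).quasiMeasurePreserving.ae_eq_comp eb).trans
        (fd.a.keq_fun c.X.ms H.Xh.μ c.X.μ _ _ b ((hc.embπ q).mp.comp (he (i, q))) hp0
          (H.rp.com (i, q)) hb.aestronglyMeasurable)
    have h4 := H.rp.ind ((range n).image fun i => (i, q)) (fun _ => Dᶜ.indicator fun _ => (1 : ℂ))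
      fun _ _ => hI
    simp only [prod_image hinj] at h4
    refine h4.trans ?_
    filter_upwards [ae_all_iff.2 h3] with y hy
    exact (prod_congr rfl fun i _ => hy i).trans (by rw [prod_const, card_range])
  filter_upwards [ht.embL.mp.quasiMeasurePreserving.ae h1,
    (H.emb1.mp.comp (ht.embπ q).mp).quasiMeasurePreserving.ae h2, ht.sq q _ hA]
    with w a1 a2 a3 hw
  refine a2 (lt_of_le_of_ne (hb1 _) fun h => a1 hw ?_)
  exact a3.mpr h

end T4x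

end

end PkGTyB

section PkGZv

/-! Calculus for partners: the sets `ZV`. -/

set_option autoImplicit false
set_option linter.unusedVariables false
set_option linter.unusedSectionVars false
set_option warn.classDefReducibility false

open MeasureTheory ProbabilityTheory Filter Topology Function Finset ComplexConjugate
open scoped BigOperators
open Fib27 (BM sup pr Oc Orow F23 LInd Mem)
open Pool.Agent.MP_154433_an.SG (Uni ufn)

noncomputable section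

namespace T4x

open T3x

variable [Grp]

namespace GZv

theorem ufn_meas {Ω : Type} {m0 : MeasurableSpace Ω} (φ : Uni Ω) : Measurable (ufn φ) := φ.2

theorem ufn_norm {Ω : Type} {m0 : MeasurableSpace Ω} (φ : Uni Ω) (x : Ω) : ‖ufn φ x‖ = 1 :=
  Circle.norm_coe _

theorem ufn_mul {Ω : Type} {m0 : MeasurableSpace Ω} (φ ψ : Uni Ω) (x : Ω) :
    ufn (φ * ψ) x = ufn φ x * ufn ψ x := Circle.coe_mul _ _

theorem ufn_one {Ω : Type} {m0 : MeasurableSpace Ω} (x : Ω) : ufn (1 : Uni Ω) x = 1 := rfl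

theorem ufn_inv {Ω : Type} {m0 : MeasurableSpace Ω} (φ : Uni Ω) (x : Ω) :
    ufn φ⁻¹ x = conj (ufn φ x) := Circle.coe_inv_eq_conj _

theorem ufn_bm (X : Sys) (φ : Uni X.X) : BM X.μ X.ms (ufn φ) :=
  ⟨(ufn_meas φ).aestronglyMeasurable, 1, Eventually.of_forall fun x => (ufn_norm φ x).le⟩

variable {c : Ctx}

theorem um (g : c.ι → Uni c.X.X) (k : c.ι) : Um (c.P k ⊔ c.B2) c.W.μ (c.up g k) := by
  refine ⟨?_, Eventually.of_forall fun w => ufn_norm _ _⟩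
  have h1 : Measurable[c.X.ms.comap (c.π k)] (c.up g k) :=
    (ufn_meas (g k)).comp (comap_measurable (c.π k))
  have h2 : c.X.ms.comap (c.π k) ≤ c.P k ⊔ c.B2 := le_sup_of_le_left le_sup_left
  exact (h1.mono h2 le_rfl).stronglyMeasurable.aestronglyMeasurable

theorem pr_meas (hC : CtxC c) (g : c.ι → Uni c.X.X) : Measurable (pr (c.up g) univ) :=
  Finset.measurable_prod _ fun k _ => (ufn_meas (g k)).comp (hC.embπ k).mp.measurable

theorem pr_norm (g : c.ι → Uni c.X.X) (w : c.W.X) : ‖pr (c.up g) univ w‖ = 1 := by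
  show ‖∏ k, ufn (g k) (c.π k w)‖ = 1
  rw [norm_prod]
  exact prod_eq_one fun k _ => ufn_norm _ _

theorem umP (hC : CtxC c) (g : c.ι → Uni c.X.X) : Um c.W.ms c.W.μ (pr (c.up g) univ) :=
  ⟨(pr_meas hC g).aestronglyMeasurable, Eventually.of_forall (pr_norm g)⟩

theorem pr_int (hC : CtxC c) (g : c.ι → Uni c.X.X) : Integrable (pr (c.up g) univ) c.W.μ :=
  Integrable.of_bound (pr_meas hC g).aestronglyMeasurable 1
    (Eventually.of_forall fun w => (pr_norm g w).le)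

theorem pr_mul (g g' : c.ι → Uni c.X.X) :
    pr (c.up (g * g')) univ = fun w => pr (c.up g) univ w * pr (c.up g') univ w := by
  funext w
  show ∏ k, ufn (g k * g' k) (c.π k w) = (∏ k, ufn (g k) (c.π k w)) * ∏ k, ufn (g' k) (c.π k w)
  rw [← prod_mul_distrib]
  exact prod_congr rfl fun k _ => ufn_mul _ _ _

theorem pr_inv (g : c.ι → Uni c.X.X) :
    pr (c.up g⁻¹) univ = fun w => conj (pr (c.up g) univ w) := by
  funext w
  show ∏ k, ufn (g k)⁻¹ (c.π k w) = conj (∏ k, ufn (g k) (c.π k w))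
  rw [map_prod]
  exact prod_congr rfl fun k _ => ufn_inv _ _

theorem pr_one : pr (c.up 1) univ = fun _ => (1 : ℂ) := by
  funext w
  show ∏ k, ufn (1 : Uni c.X.X) (c.π k w) = 1
  exact prod_eq_one fun k _ => ufn_one _

/-- the tuple of values -/
def vl {𝒱 : Subgroup (Uni c.X.X)} (h : c.ι → 𝒱) : c.ι → Uni c.X.X := fun k => (h k).1

theorem mem_ZV {𝒱 : Subgroup (Uni c.X.X)} {q : c.ι} {g : Uni c.X.X} {w : c.W.X} :
    w ∈ c.ZV 𝒱 q g ↔ ∃ h : c.ι → 𝒱, (h q).1 = g ∧ w ∈ c.Θ (c.up (vl h)) := by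
  unfold Ctx.ZV
  simp only [Set.mem_iUnion, Set.mem_setOf_eq, exists_prop]
  constructor
  · rintro ⟨g', ⟨h1, h2⟩, h3⟩
    exact ⟨fun k => ⟨g' k, h1 k⟩, h2, h3⟩
  · rintro ⟨h, h1, h2⟩
    exact ⟨vl h, ⟨fun k => (h k).2, h1⟩, h2⟩

theorem cnt {𝒱 : Subgroup (Uni c.X.X)} (h : Countable 𝒱) :
    {g' : c.ι → Uni c.X.X | ∀ k, g' k ∈ 𝒱}.Countable := by
  refine (Set.countable_range (vl (c := c) (𝒱 := 𝒱))).mono fun g' hg => ?_
  exact ⟨fun k => ⟨g' k, hg k⟩, rfl⟩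

/-- the shift of a tuple -/
theorem th_sh (hF : Fd) (hC : CtxC c) (n : Γ) (g g' : c.ι → Uni c.X.X)
    (h : ∀ k x, ufn (g' k) x = ufn (g k) (c.X.Tz n x)) :
    ∀ᵐ w ∂c.W.μ, w ∈ c.Θ (c.up g') ↔ c.W.Tz n w ∈ c.Θ (c.up g) := by
  have h1 : ∀ k, (fun w => ufn (g k) ((c.π k ∘ c.W.Tz n) w)) =ᵐ[c.W.μ]
      fun w => ufn (g k) ((c.X.Tz n ∘ c.π k) w) := fun k =>
    hF.a.keq_fun c.X.ms c.W.μ c.X.μ _ _ _ ((hC.embπ k).mp.comp (c.W.mp n))
      ((c.X.mp n).comp (hC.embπ k).mp) ((hC.embπ k).eqv n) (ufn_meas (g k)).aestronglyMeasurable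
  have h2 : pr (c.up g') univ =ᵐ[c.W.μ] fun w => pr (c.up g) univ (c.W.Tz n w) := by
    filter_upwards [ae_all_iff.2 h1] with w hw
    show ∏ k, ufn (g' k) (c.π k w) = ∏ k, ufn (g k) (c.π k (c.W.Tz n w))
    exact prod_congr rfl fun k _ => (h k _).trans (hw k).symm
  have h3 := hF.t.ce c.W c.B2 n (pr (c.up g) univ) hC.kc2.1 (pr_int hC g)
  filter_upwards [(condExp_congr_ae (m := c.B2) h2).trans h3] with w hw
  show ‖(c.W.μ[pr (c.up g') univ | c.B2]) w‖ = 1 ↔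
    ‖(c.W.μ[pr (c.up g) univ | c.B2]) (c.W.Tz n w)‖ = 1
  rw [hw]

/-- one entry with nonzero mean makes all entries determined -/
theorem cm (hR : Rc) (hC : CtxC c) (hI : c.GI) (g : c.ι → Uni c.X.X) :
    ∀ᵐ w ∂c.W.μ, w ∈ c.Θ (c.up g) → ∀ q, (c.X.μ[ufn (g q) | c.B]) (c.π q w) ≠ 0 →
      ∀ k, ‖(c.X.μ[ufn (g k) | c.B]) (c.π k w)‖ = 1 := by
  have h1 := hR.cm c.B2 c.P c.W.μ (c.up g) hC.kc2.1.le (fun k => (hC.facP k).le) c.three hI.cline
    (um g)
  have h2 : ∀ k, c.W.μ[c.up g k | c.B2] =ᵐ[c.W.μ]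
      fun w => (c.X.μ[ufn (g k) | c.B]) (c.π k w) := fun k => hC.ce hI k _ (ufn_bm _ (g k))
  filter_upwards [ae_all_iff.2 h1, ae_all_iff.2 h2] with w a1 a2 hw q hq k
  have := a1 q hw (by rw [a2 q]; exact hq) k
  rw [← a2 k]
  exact this

end GZv

open GZv in
theorem xZv : ZvR := by
  intro hF hR hG c 𝒱 s hE
  have hC := hG.ctx c
  haveI := hE.cnt
  have hle : c.B2 ≤ c.W.ms := hC.kc2.1.le
  refine ⟨um, umP hC, cnt hE.cnt, fun g => hR.meas _ _ _, fun q g => ?_, fun n q g => ?_,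
    fun q => ?_, fun q g g' => ?_, fun q g => ?_, fun hI q g => ?_, fun hI g j k => ?_⟩
  · exact MeasurableSet.biUnion ((cnt hE.cnt).mono fun g' hg => hg.1) fun g' _ => hR.meas _ _ _
  · have h1 : ∀ h : c.ι → 𝒱, ∀ᵐ w ∂c.W.μ,
        w ∈ c.Θ (c.up (vl fun k => s n (h k))) ↔ c.W.Tz n w ∈ c.Θ (c.up (vl h)) := fun h =>
      th_sh hF hC n _ _ fun k x => hE.sh n (h k) x
    filter_upwards [ae_all_iff.2 h1] with w hw
    refine propext ?_
    show w ∈ c.ZV 𝒱 q (s n g).1 ↔ c.W.Tz n w ∈ c.ZV 𝒱 q g.1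
    rw [mem_ZV, mem_ZV]
    constructor
    · rintro ⟨h, e, hh⟩
      refine ⟨fun k => (s n).symm (h k), ?_, (hw _).1 ?_⟩
      · show ((s n).symm (h q)).1 = g.1
        rw [Subtype.ext e, MulEquiv.symm_apply_apply]
      · simpa only [MulEquiv.apply_symm_apply] using hh
    · rintro ⟨h, e, hh⟩
      refine ⟨fun k => s n (h k), ?_, (hw _).2 hh⟩
      show (s n (h q)).1 = (s n g).1
      rw [Subtype.ext e]
  · have h1 : (Set.univ : Set c.W.X) ≤ᵐ[c.W.μ] Th c.B2 c.W.μ (pr (c.up 1) univ) :=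
      hR.of c.B2 c.W.μ _ (fun _ => 1) Set.univ hle (umP hC 1)
        ⟨aestronglyMeasurable_const, 1, Eventually.of_forall fun _ => by simp⟩ MeasurableSet.univ
        (Eventually.of_forall fun w _ => by rw [pr_one])
    filter_upwards [h1] with w hw
    exact mem_ZV.2 ⟨1, rfl, hw trivial⟩
  · have h1 : ∀ h h' : c.ι → 𝒱, ∀ᵐ w ∂c.W.μ, w ∈ c.Θ (c.up (vl h)) → w ∈ c.Θ (c.up (vl h')) →
        w ∈ c.Θ (c.up (vl (h * h'))) := fun h h' => by
      filter_upwards [hR.mul c.B2 c.W.μ _ _ hle (umP hC (vl h)) (umP hC (vl h'))] with w hw a b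
      have := hw ⟨a, b⟩
      rw [← pr_mul] at this
      exact this
    filter_upwards [ae_all_iff.2 fun h => ae_all_iff.2 (h1 h)] with w hw a b
    obtain ⟨h, e, a⟩ := mem_ZV.1 a
    obtain ⟨h', e', b⟩ := mem_ZV.1 b
    exact mem_ZV.2 ⟨h * h', by rw [← e, ← e']; rfl, hw h h' a b⟩
  · have h1 : ∀ h : c.ι → 𝒱, ∀ᵐ w ∂c.W.μ, w ∈ c.Θ (c.up (vl h)) →
        w ∈ c.Θ (c.up (vl h⁻¹)) := fun h => by
      filter_upwards [hR.cj c.B2 c.W.μ _ hle (umP hC (vl h))] with w hw a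
      rw [← pr_inv] at hw
      exact hw.mpr a
    filter_upwards [ae_all_iff.2 h1] with w hw a
    obtain ⟨h, e, a⟩ := mem_ZV.1 a
    exact mem_ZV.2 ⟨h⁻¹, by rw [← e]; rfl, hw h a⟩
  · filter_upwards [ae_all_iff.2 fun h : c.ι → 𝒱 => cm hR hC hI (vl h)] with w hw a
    obtain ⟨h, e, a'⟩ := mem_ZV.1 a
    rw [← e]
    by_cases h0 : (c.X.μ[ufn (h q).1 | c.B]) (c.π q w) = 0
    · exact Or.inl (norm_eq_zero.2 h0)
    · exact Or.inr (hw h a' q h0 q)
  · filter_upwards [cm hR hC hI g] with w hw a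
    have key : ∀ j k, w ∉ c.Nt j (ufn (g j)) → w ∉ c.Nt k (ufn (g k)) := fun j k hj hk => by
      have h1 : ‖(c.X.μ[ufn (g j) | c.B]) (c.π j w)‖ = 1 := not_not.1 hj
      refine hk (hw a j (fun h0 => ?_) k)
      rw [h0, norm_zero] at h1
      exact zero_ne_one h1
    exact not_iff_not.1 ⟨key j k, key k j⟩

end T4x

end

end PkGZv

section PkSec4A

/-! Section 4: the rows of the specification follow from the sub-rows. -/

set_option autoImplicit false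
set_option linter.unusedVariables false
set_option warn.classDefReducibility false

open MeasureTheory ProbabilityTheory Filter Topology Function Finset ComplexConjugate
open scoped BigOperators
open Fib27 (BM sup pr Oc Orow F23 LInd Mem)
open Pool.Agent.MP_154433_an.SG (Uni ufn)

noncomputable section

namespace T4x

open T3x

variable [Grp]

namespace Sec4A

theorem gc (h1 : CtxR) (h2 : PscR) (h3 : FfR) (fd : Fd) (rc : Rc) : GC where
  ctx := h1 fd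
  ps := h2 fd rc
  ff := fun c V _ _ sg ψ h => h3 fd rc c V sg ψ (h1 fd c) (h2 fd rc _ _ V sg ψ c.kc.1 h) h

theorem zc (h1 : ZvR) (h2 : HtR) (fd : Fd) (rc : Rc) (sa : SatA) (g : GC) : ZC where
  zv := h1 fd rc g
  ht := h2 fd sa g

theorem hat (hA : HatA) (hB : HatB) (fd : Fd) (g : GC) (c : Ctx) (gi : c.GI) :
    Nonempty c.Hat := by
  obtain ⟨i0, h0⟩ := (g.ctx c).one
  obtain ⟨Xh, e, Bh, rp, adm, hle⟩ := hA fd g c i0 gi
  obtain ⟨X1, p1, p2, B1, e2, com, ind, adm1, le2⟩ := hB fd Xh Bh adm.nice adm.kc ⟨_, h0⟩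
  have adm2 := fd.h.trans X1 Xh c.X B1 Bh c.B p1 _ c.kc.1 adm1 adm
  obtain ⟨L1⟩ := fd.line c.ν c.U X1 adm1.nice
  obtain ⟨Lp, hLp⟩ := fd.la.ex L1 c.L _ adm2.emb
  refine ⟨⟨Xh, e, i0, rp, X1, p1, p2, adm1.emb, e2, com, ind, B1, adm2, fun a => ?_, le2, L1, Lp,
    hLp⟩⟩
  refine le_trans ?_ adm1.le
  refine sup_le_sup_right ?_ _
  rw [← MeasurableSpace.comap_comp]
  exact MeasurableSpace.comap_mono (le_trans le_sup_left (hle a))

theorem ty (hA : TyA) (hB : TyB) (fd : Fd) (g : GC) (z : ZC) (c : Ctx) (H : c.Hat)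
    (𝒱 : Subgroup (Uni c.X.X)) (s : Γ → 𝒱 ≃* 𝒱) (cl : c.CL) (ex : c.Exh 𝒱 s) : H.Ty 𝒱 := by
  have hm : ∀ q u, MeasurableSet (c.ZV 𝒱 q u) := fun q u =>
    (g.ctx c).kc2.1.le _ ((z.zv c 𝒱 s ex).meas q u)
  refine ⟨hA fd g z c H 𝒱 s cl ex, fun q u _ u' _ => ?_, fun q u _ => hB fd g z c H q _ (hm q u)⟩
  filter_upwards [hB fd g z c H q _ ((hm q u').diff (hm q u))] with w hw h1 h2
  by_contra h3
  obtain ⟨i, hi⟩ := hw ⟨h2, h3⟩
  exact hi.2 (h1 i hi.1)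

theorem psi (hA : PsiA) (hB : PsiB) (fd : Fd) (rc : Rc) (g : GC) (z : ZC) (c : Ctx) (H : c.Hat)
    (𝒱 : Subgroup (Uni c.X.X)) (s : Γ → 𝒱 ≃* 𝒱) (g0 : Uni c.X.X) (gi : c.GI) (ex : c.Exh 𝒱 s) :
    ∃ (HH : 𝒱 → Set H.X1.X) (sg : Γ →+ AddAut (𝒱 →₀ ℤ)) (ψ : (𝒱 →₀ ℤ) → H.X1.X → ℂ),
    (∀ g x, x ∈ HH g ↔ (∃ a, H.τ 𝒱 g0 (H.p2 x) a) ∧
      ∀ a, H.τ 𝒱 g0 (H.p2 x) a → H.τ 𝒱 g.1 (H.p1 x) a) ∧
    (∀ g, MeasurableSet[H.B1] (HH g)) ∧ Psi H.X1 H.B1 sg ψ ∧
    (∀ g x, x ∈ HH g → ψ (Finsupp.single g 1) x = ufn g.1 (H.p x)) ∧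
    ∀ g x, x ∉ HH g → ψ (Finsupp.single g 1) x = 1 := by
  obtain ⟨h1, h2, h3, h4⟩ := hA fd g z c H 𝒱 s g0 ex
  have hadd : ∀ n m : Γ, (Finsupp.domCongr (s (n + m)).toEquiv : AddAut (𝒱 →₀ ℤ)) =
      (Finsupp.domCongr (s n).toEquiv : AddAut (𝒱 →₀ ℤ)) +
        (Finsupp.domCongr (s m).toEquiv : AddAut (𝒱 →₀ ℤ)) := by
    intro n m
    have e : (s (n + m)).toEquiv = (s m).toEquiv.trans (s n).toEquiv :=
      Equiv.ext fun u => ex.sadd n m u
    rw [e, ← Finsupp.domCongr_trans]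
    rfl
  refine ⟨H.HH 𝒱 g0, AddMonoidHom.mk' (fun n => (Finsupp.domCongr (s n).toEquiv :
    AddAut (𝒱 →₀ ℤ))) hadd, H.psi 𝒱 g0, fun _ _ => Iff.rfl, h1,
    ⟨h2, fun v v' => Eventually.of_forall (h3 v v'), h4, hB fd rc g z hA c H 𝒱 s g0 gi ex⟩,
    fun u x hx => ?_, fun u x hx => ?_⟩
  · unfold Ctx.Hat.psi
    rw [Finsupp.prod_single_index (by simp), if_pos hx, zpow_one]
  · unfold Ctx.Hat.psi
    rw [Finsupp.prod_single_index (by simp), if_neg hx, zpow_one]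

theorem stp (hA : StpA) (hF : FlatR) (hB : StpB) (fd : Fd) (rc : Rc) (g : GC) (c : Ctx) (V : Type)
    [AddCommGroup V] [Countable V] (sg : Γ →+ AddAut V) (ψ : V → c.X.X → ℂ) (i1 i2 : c.ι)
    (h12 : i1 ≠ i2) (gi : c.GI) (h : Psi c.X c.B sg ψ) : c.Stp sg ψ i1 i2 := by
  obtain ⟨h1, h2, h3, h4, h5⟩ := hA fd rc g c V sg ψ i1 i2 h12 gi h
  exact ⟨h1, h2, h3, h4, h5, hB fd g c V sg ψ i1 i2 h12 h (hF fd rc g c V sg ψ gi h)⟩

theorem rel (hA : RelA) (hC : DecS) (g : Fd → Rc → GC) : RelR := by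
  intro fd rc c V _ _ sg ψ h
  have p := (g fd rc).ps c.X c.B V sg ψ c.kc.1 h
  exact ⟨fun v => (hA fd rc (g fd rc) c V sg ψ h v).1, p.n0, p.nsub, p.nsh,
    hC fd rc (g fd rc) c.X c.B V sg ψ c.nice c.kc h⟩

/-- all sub-rows -/
structure Rows : Prop where
  ctx : CtxR
  psc : PscR
  ff : FfR
  zv : ZvR
  ht : HtR
  exh : ExhR
  hatA : HatA
  hatB : HatB
  tyA : TyA
  tyB : TyB
  mixL : MixL
  ats : AtS
  posB : PosB
  psiA : PsiA
  psiB : PsiB
  bunB : BunB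
  onhK : OnhK
  onhC : OnhC
  dec : DecS
  relA : RelA
  onhB : OnhB
  stpA : StpA
  flat : FlatR
  stpB : StpB
  algA : AlgA
  algT : AlgT
  algB : AlgB
  algC : AlgC

/-- the rows of section 4 in the specification -/
structure Out : Prop where
  exh : ExhR
  hat : HatR
  ty : TyR
  pos : PosR
  psi : PsiR
  bun : BunR
  onh : OnhR
  stp : StpR
  rel : RelR
  algI : AlgIR

theorem out (r : Rows) (hRc : Rc) (hSat : SatAR) : Out := by
  have G : Fd → Rc → GC := gc r.ctx r.psc r.ff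
  have Z : Fd → Rc → ZC := fun fd rc => zc r.zv r.ht fd rc (hSat fd) (G fd rc)
  exact
    { exh := r.exh
      hat := fun fd c gi => hat r.hatA r.hatB fd (G fd hRc) c gi
      ty := fun fd rc c H 𝒱 s cl ex => ty r.tyA r.tyB fd (G fd rc) (Z fd rc) c H 𝒱 s cl ex
      pos := fun fd rc => r.posB fd (G fd rc) (Z fd rc) r.mixL r.ats
      psi := fun fd rc c H 𝒱 s g0 gi ex _ =>
        psi r.psiA r.psiB fd rc (G fd rc) (Z fd rc) c H 𝒱 s g0 gi ex
      bun := fun fd rc => r.bunB (G fd rc) (Z fd rc) fd rc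
      onh := fun fd rc => r.onhB (G fd rc) r.onhK r.onhC r.dec r.relA fd rc
      stp := fun fd rc c V _ _ sg ψ i1 i2 h12 gi h =>
        stp r.stpA r.flat r.stpB fd rc (G fd rc) c V sg ψ i1 i2 h12 gi h
      rel := rel r.relA r.dec G
      algI := fun fd rc => r.algC (G fd rc) r.algA r.algT r.algB fd rc }

/-- section 4 in one statement: a context with a nontrivial tuple and coherent labels is
impossible -/
theorem step (o : Out) (fd : Fd) (rc : Rc) (sa : SatA) (hgi : GIR) (alg : AlgS) (c : Ctx)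
    (cl : c.CL) (g : c.ι → Uni c.X.X) (t5 : c.T5 g) : False := by
  have gi := hgi fd c
  obtain ⟨𝒱, s, ex, hg⟩ := o.exh fd rc c g
  obtain ⟨H⟩ := o.hat fd c gi
  have ty := o.ty fd rc c H 𝒱 s cl ex
  obtain ⟨j, k, pos⟩ := o.pos fd rc c H 𝒱 s g gi ex ty hg t5
  obtain ⟨c1, V, i1, i2, sg, ψ, hψ, bun⟩ :=
    o.bun fd rc sa o.psi hgi c H 𝒱 s g j k gi ex ty hg pos
  obtain ⟨h1, h2⟩ := o.onh fd rc o.rel c1 V sg ψ hψ
  exact o.algI fd rc o.stp o.rel alg c1 V sg ψ (hgi fd c1) hψ h1 h2 bun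

end Sec4A

end T4x

end

end PkSec4A
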