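import Pool.Agent.MP_154433_an.t4s.Basic
import Pool.Agent.MP_154433_an.t4.Spec
import Pool.Agent.MP_154433_an.t3s.Unif
import Pool.Agent.MP_154433_an.t3s.Zero
import Pool.Agent.MP_154433_an.t3s.Asm
import Pool.Agent.MP_154433_an.t3s.Bridge

/-! Structured part for commuting maps, part three. -/

section PkSpr

/-! Thin classes have small weight; change of the weights. -/

set_option autoImplicit false
set_option linter.unusedVariables false

open MeasureTheory ProbabilityTheory Filter Topology Function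
open scoped BigOperators ComplexConjugate InnerProductSpace

noncomputable section

namespace Pool.Agent.MP_154433_an.T4S

open T3S (B1 PW AsInv Near norm_prod_le_one)
open T4x (Thin Lau cls)

namespace SprL

/-- the indicator function -/
def io (A : Set ℤ) (d : ℤ) : ℝ := A.indicator (fun _ => (1 : ℝ)) d

lemma io_mem (A : Set ℤ) (d : ℤ) : 0 ≤ io A d ∧ io A d ≤ 1 := by
  unfold io
  by_cases h : d ∈ A <;> simp [h]

lemma io_abs (A : Set ℤ) (d : ℤ) : |io A d| ≤ 1 :=
  abs_le.2 ⟨by linarith [(io_mem A d).1], (io_mem A d).2⟩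

lemma thin_sum {ε : ℝ} {H : ℕ} {A : Set ℤ} (h : Thin ε H A) (n : ℤ) :
    ∑ k ∈ Finset.range H, io A (n + k) ≤ ε * H := by
  classical
  refine le_trans (le_of_eq ?_) (h n)
  rw [Finset.card_filter]
  push_cast
  refine Finset.sum_congr rfl fun k _ => ?_
  unfold io
  by_cases hk : n + k ∈ A <;> simp [hk]

lemma thin_wt {w : ℕ → ℕ → ℝ} (hw : PW w) (ha : AsInv w) {H : ℕ} (hH : 1 ≤ H) {η : ℝ}
    (hη : 0 < η) : ∀ᶠ M in atTop, ∀ (ε : ℝ) (A : Set ℤ), Thin ε H A → wt w M A ≤ ε + η := by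
  filter_upwards [hw.2, (Finset.eventually_all (Finset.range H)).2 fun h _ => ha h η hη]
    with M h1 h2 ε A hA
  have hp : (0 : ℝ) < H := by exact_mod_cast hH
  have h3 : ∀ h ∈ Finset.range H, wt w M A ≤
      ∑ d ∈ Finset.range M, w M d * io A ((d : ℤ) + h) + η := fun h hh => by
    have h4 := h2 h hh ℝ (fun d => io A d) fun d => io_abs A d
    simp only [smul_eq_mul, mul_sub, Finset.sum_sub_distrib, Real.norm_eq_abs, Nat.cast_add] at h4
    have h5 := (abs_le.1 h4).1
    have h6 : wt w M A = ∑ d ∈ Finset.range M, w M d * io A d := rfl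
    linarith
  have h7 := Finset.sum_le_sum h3
  rw [Finset.sum_const, Finset.card_range, Finset.sum_add_distrib, Finset.sum_const,
    Finset.card_range, Finset.sum_comm, nsmul_eq_mul, nsmul_eq_mul] at h7
  have h8 : ∑ d ∈ Finset.range M, ∑ h ∈ Finset.range H, w M d * io A ((d : ℤ) + h) ≤ ε * H := by
    calc _ ≤ ∑ d ∈ Finset.range M, w M d * (ε * H) := Finset.sum_le_sum fun d _ => by
          rw [← Finset.mul_sum]
          exact mul_le_mul_of_nonneg_left (thin_sum hA d) (hw.1 M d)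
      _ = ε * H := by rw [← Finset.sum_mul, h1, one_mul]
  refine le_of_mul_le_mul_left ?_ hp
  nlinarith

lemma wt_split (ν ν' y : ℕ → ℕ → ℝ) (M : ℕ) (A : Set ℤ) :
    wt ν M A ≤ wt ν' M A + wt y M A + ∑ d ∈ Finset.range M, |ν M d - ν' M d - y M d| := by
  unfold wt
  rw [← Finset.sum_add_distrib, ← Finset.sum_add_distrib]
  refine Finset.sum_le_sum fun d _ => ?_
  have h1 := io_mem A d
  have h2 : (ν M d - ν' M d - y M d) * io A d ≤ |ν M d - ν' M d - y M d| :=
    (mul_le_mul_of_nonneg_right (le_abs_self _) h1.1).trans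
      (mul_le_of_le_one_right (abs_nonneg _) h1.2)
  change ν M d * io A d ≤ ν' M d * io A d + y M d * io A d + _
  linarith

lemma tv (M : ℕ) (w w' : ℕ → ℝ) (c : ℕ → ℂ) (hc : ∀ d, ‖c d‖ ≤ 1) :
    ‖∑ d ∈ Finset.range M, (w d : ℂ) * c d‖ ≤
      ‖∑ d ∈ Finset.range M, (w' d : ℂ) * c d‖ + ∑ d ∈ Finset.range M, |w d - w' d| := by
  have e : ∑ d ∈ Finset.range M, (w d : ℂ) * c d = ∑ d ∈ Finset.range M, (w' d : ℂ) * c d +
      ∑ d ∈ Finset.range M, ((w d - w' d : ℝ) : ℂ) * c d := by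
    rw [← Finset.sum_add_distrib]
    refine Finset.sum_congr rfl fun d _ => ?_
    push_cast
    ring
  rw [e]
  refine (norm_add_le _ _).trans (add_le_add le_rfl ((norm_sum_le _ _).trans
    (Finset.sum_le_sum fun d _ => ?_)))
  rw [norm_mul, Complex.norm_real, Real.norm_eq_abs]
  exact mul_le_of_le_one_right (abs_nonneg _) (hc d)

end SprL

open SprL in
theorem spr : SprS := by
  intro ν ν' y hw ha hn hc
  refine ⟨fun r s L N ε H hε hH => ?_, fun r s L N ε H hε hH => ?_⟩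
  · filter_upwards [thin_wt hw ha hH (show 0 < ε / 3 by positivity),
      hc r s L N (ε / 3) (by positivity),
      Tendsto.eventually_lt_const (show 0 < ε / 3 by positivity) hn] with M h1 h2 h3 m d0 hm hd hT
    have h4 := wt_split ν ν' y M (cls N m M d0)
    have h5 := (abs_le.1 (h2 m d0 hm hd)).2
    linarith [h1 ε _ hT]
  · filter_upwards [thin_wt hw ha hH hε] with M h1 m d0 hm hd hT
    linarith [h1 ε _ hT]

open SprL in
theorem near : NearS := by
  intro k l q w w' hn hS J r ε hε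
  filter_upwards [hS J r (ε / 2) (half_pos hε),
    Tendsto.eventually_lt_const (half_pos hε) hn] with M h1 h2 u hu
  have h3 : ∀ n : Fin l → Fin M,
      ‖∑ d ∈ Finset.range M, (w M d : ℂ) * ∏ t, u t (pt n + (d : ℤ) • r t)‖ ≤
        ‖∑ d ∈ Finset.range M, (w' M d : ℂ) * ∏ t, u t (pt n + (d : ℤ) • r t)‖ + ε / 2 := fun n =>
    (tv M (w M) (w' M) _ fun d => norm_prod_le_one _ fun t _ => CZ_B1 (hu t) _).trans
      (add_le_add le_rfl h2.le)
  refine (Finset.expect_le_expect fun n _ => h3 n).trans ?_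
  rw [Finset.expect_add_distrib]
  have h4 : 𝔼 n : Fin l → Fin M, ε / 2 ≤ ε / 2 := by
    rcases (Finset.univ : Finset (Fin l → Fin M)).eq_empty_or_nonempty with h | h
    · rw [h, Finset.expect_empty]
      exact (half_pos hε).le
    · rw [Finset.expect_const h]
  linarith [h1 u hu]

end Pool.Agent.MP_154433_an.T4S

end

end PkSpr

section PkUnif

/-! The factor generated by dual functions has the uniformity property (commuting maps). -/

set_option autoImplicit false
set_option linter.unusedVariables false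

open MeasureTheory ProbabilityTheory Filter Topology Function
open scoped BigOperators ComplexConjugate InnerProductSpace

noncomputable section

namespace Pool.Agent.MP_154433_an.T4S

open T3S (B1 MB1)
open T3S.UnifAux (int_zero le_pow_div sum_eq)

namespace UnifB

lemma wavg_eq {X : Type} {l : ℕ} (A : Gm l → X → X) (w : ℕ → ℕ → ℝ) {n : ℕ}
    (r : Fin (n + 1) → Gm l) (i0 : Fin (n + 1)) (c : Fin (n + 1) → X → ℂ) (F : X → ℂ) (M : ℕ) :
    wavg A w r (update c i0 F) M =
      wavg A w (Fin.cons (r i0) fun j : Fin n => r (i0.succAbove j) : Fin (n + 1) → Gm l)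
        (Fin.cons F fun j : Fin n => c (i0.succAbove j) : Fin (n + 1) → X → ℂ) M := by
  funext x
  simp only [wavg]
  refine Finset.sum_congr rfl fun d _ => ?_
  rw [Fin.prod_univ_succAbove _ i0, Fin.prod_univ_succ]
  simp only [update_self, Fin.cons_zero, Fin.cons_succ,
    update_of_ne (Fin.succAbove_ne i0 _)]

end UnifB

open UnifB

theorem unif (h1 : FacS) (h2 : ZeroS) (h3 : RepS) (h4 : GvnS) : UnifS := by
  intro w hw hinv l X _ μ _ A hA q n r hE u hu i0 g hg h0 ε hε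
  obtain ⟨n, rfl⟩ : ∃ n', n = n' + 1 := ⟨n - 1, by have := i0.pos; omega⟩
  obtain ⟨m, hm⟩ : ∃ m, 2 ^ n = m + 1 := ⟨2 ^ n - 1, by have := Nat.two_pow_pos n; omega⟩
  obtain ⟨hF, hD⟩ := h1 (n + 1) l q X μ A hA
  let b' : Fin (n + 1) → Gm l := Fin.cons (r i0) fun j : Fin n => r i0 - r (i0.succAbove j)
  let b : Fin (n + 1 + 1) → Gm l := Fin.cons u b'
  have hb : ∀ i, Dom μ A (b i) q := by
    intro i
    refine hE _ ?_
    refine Fin.cases ?_ (fun i => ?_) i
    · exact hu
    · refine Fin.cases ?_ (fun j => ?_) i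
      · exact Or.inl ⟨i0, rfl⟩
      · exact Or.inr ⟨i0, i0.succAbove j, (Fin.succAbove_ne i0 j).symm, rfl⟩
  have hs : 0 < ε / 2 := by positivity
  have hsm : 0 < (ε / 2) ^ m := by positivity
  obtain ⟨K, hK, hQ⟩ := h2 l X μ A hA q (n + 1 + 1) g hg
    (fun D hD' => int_zero hF.1 hg hD'.1 (hD D hD') h0) (ε / 4 * (ε / 2) ^ m) (by positivity)
  obtain ⟨H, hH, hR⟩ := h3 l X μ A hA q K hK (n + 1 + 1) b hb g hg (ε / 4 * (ε / 2) ^ m)
    (by positivity)
  let L : List (Fam l) := List.ofFn fun j : Fin (n + 1) => ln (b' j) (H j.succ)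
  let p : ℕ → ℕ → ℝ := fun a a' => QX μ A L (ddX A (((a : ℤ) - (a' : ℤ)) • u) g)
  have hq : QX μ A (List.ofFn fun j => ln (b j) (H j)) g =
      𝔼 h : Fin (H 0), 𝔼 h' : Fin (H 0), p h' h := by
    rw [List.ofFn_succ]
    exact QX_ln μ A u (H 0) L g
  refine ⟨H 0, fun a a' => ε / 2 + p a a' / (ε / 2) ^ m, hH 0, ?_, ?_⟩
  · simp only [Finset.sum_add_distrib, Finset.sum_const, Finset.card_range, nsmul_eq_mul,
      ← Finset.sum_div]
    rw [sum_eq (H 0) (hH 0) p, ← hq]
    have h5 : QX μ A (List.ofFn fun j => ln (b j) (H j)) g * (H 0 : ℝ) ^ 2 / (ε / 2) ^ m ≤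
        ε / 2 * (H 0 : ℝ) ^ 2 := by
      rw [div_le_iff₀ hsm]
      have h6 : QX μ A (List.ofFn fun j => ln (b j) (H j)) g ≤ ε / 2 * (ε / 2) ^ m := by
        linarith
      have := mul_le_mul_of_nonneg_right h6 (sq_nonneg (H 0 : ℝ))
      linarith
    linarith
  · intro a a' c hc η hη
    let F : X → ℂ := fun y => g (A ((a : ℤ) • u) y) * conj (g (A ((a' : ℤ) • u) y))
    have hFm : MB1 F := (hA.tz hg _).mul (hA.tz hg _).cj
    have hFe : F = fun y => ddX A (((a : ℤ) - (a' : ℤ)) • u) g (A ((a' : ℤ) • u) y) := by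
      funext y
      simp only [F, ddX, ← hA.add, ← add_smul, sub_add_cancel]
    have hf : ∀ i, MB1 ((Fin.cons F fun j : Fin n => c (i0.succAbove j) :
        Fin (n + 1) → X → ℂ) i) := by
      intro i
      refine Fin.cases ?_ (fun j => ?_) i
      · exact hFm
      · exact hc _
    filter_upwards [h4 w hw hinv l X μ A hA n (fun j => H j.succ) (fun j => hH _)
      (Fin.cons (r i0) fun j : Fin n => r (i0.succAbove j) : Fin (n + 1) → Gm l) _ hf
      (η * (ε / 2) ^ m) (by positivity)] with M hM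
    simp only [Fin.cons_zero, Fin.cons_succ] at hM
    rw [← wavg_eq, hm] at hM
    have h5 : QX μ A L F = p a a' := by
      rw [hFe]
      exact hA.QX_tz L _ (hA.dd hg _)
    have h6 := le_pow_div (t := ∫ x, ‖wavg A w r (update c i0 F) M x‖ ^ 2 ∂μ)
      (integral_nonneg fun x => sq_nonneg _) hs m
    have h7 : (∫ x, ‖wavg A w r (update c i0 F) M x‖ ^ 2 ∂μ) ^ (m + 1) / (ε / 2) ^ m ≤
        p a a' / (ε / 2) ^ m + η := by
      rw [div_le_iff₀ hsm, add_mul, div_mul_cancel₀ _ hsm.ne', ← h5]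
      exact hM
    exact h6.trans (by linarith)

end Pool.Agent.MP_154433_an.T4S

end

end PkUnif

section PkZero

/-! A function orthogonal to all limits of blocks has small box averages (commuting case). -/

set_option autoImplicit false
set_option linter.unusedVariables false

open MeasureTheory ProbabilityTheory Filter Topology Function
open scoped BigOperators ComplexConjugate InnerProductSpace

noncomputable section

namespace Pool.Agent.MP_154433_an.T4S

open T3S (B1 MB1)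

open T3S.Zero in
theorem zero (h1 : T3S.NestS) (h2 : LinkS) : ZeroS := by
  intro l X _ μ _ A hA q n g hg h0 ε hε
  by_contra hn
  push Not at hn
  obtain ⟨F, hF⟩ := h1 (Lp ℂ 2 μ)
    (fun H0 => {F | ∃ u ∈ CX n A q H0, ε ≤ (∫ x, g x * u x ∂μ).re ∧ F =ᵐ[μ] u}) 1
    (fun H0 H1 hH F ⟨u, hu, h⟩ => by
      refine ⟨u, convexHull_mono ?_ hu, h⟩
      rintro v ⟨H, β, a, c⟩
      exact ⟨H, β, hH.trans a, c⟩)
    (fun H0 => by
      obtain ⟨β, hβ, e⟩ := h2 l X μ A hA q (H0 + 1) n g hg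
      have m := hA.blk_MB1 q (H0 + 1) hβ
      exact ⟨(MemLp.of_bound m.1.aestronglyMeasurable 1 (Eventually.of_forall m.2)).toLp _, _,
        subset_convexHull ℝ _ ⟨H0 + 1, β, Nat.le_succ _, hβ, rfl⟩,
        e ▸ (hn _ (Nat.le_add_left _ _)).le, MemLp.coeFn_toLp _⟩)
    (fun H0 F ⟨u, hu, e1, e2⟩ F' ⟨u', hu', e1', e2'⟩ a c ha hc hac => by
      refine ⟨a • u + c • u', convex_convexHull ℝ _ hu hu' ha hc hac, ?_, ?_⟩
      · have e : ∀ x, g x * (a • u + c • u') x = a * (g x * u x) + c * (g x * u' x) := fun x => by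
          simp only [Pi.add_apply, Pi.smul_apply, Complex.real_smul]
          ring
        simp only [e]
        rw [integral_add (((hg.mul (hA.CX_MB1 hu)).integrable μ).const_mul _)
          (((hg.mul (hA.CX_MB1 hu')).integrable μ).const_mul _), integral_const_mul,
          integral_const_mul, Complex.add_re, Complex.re_ofReal_mul, Complex.re_ofReal_mul]
        have := mul_le_mul_of_nonneg_left e1 ha
        have := mul_le_mul_of_nonneg_left e1' hc
        calc ε = a * ε + c * ε := by rw [← add_mul, hac, one_mul]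
          _ ≤ _ := by linarith
      · filter_upwards [Lp.coeFn_add (a • F) (c • F'), Lp.coeFn_smul a F, Lp.coeFn_smul c F', e2, e2']
          with x p1 p2 p3 p4 p5
        simp only [p1, Pi.add_apply, p2, p3, Pi.smul_apply, p4, p5])
    (fun H0 F ⟨u, hu, _, e⟩ => by
      have := Lp.norm_le_of_ae_bound (f := F) zero_le_one (by
        filter_upwards [e] with x h
        rw [h]
        exact (hA.CX_MB1 hu).2 x)
      simpa [measureUnivNNReal] using this)
  have key : ∀ H0 δ, 0 < δ → ∃ u ∈ CX n A q H0, ε ≤ (∫ x, g x * u x ∂μ).re ∧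
      ∫ x, ‖clip (F x) - u x‖ ∂μ ≤ δ := fun H0 δ hδ => by
    obtain ⟨F', ⟨u, hu, e1, e2⟩, hd⟩ := Metric.mem_closure_iff.1 (hF H0) (δ / 2) (half_pos hδ)
    exact ⟨u, hu, e1, (close F F' (hA.CX_MB1 hu) e2).trans (by linarith)⟩
  have m : MB1 fun x => clip (F x) :=
    ⟨clip_meas.comp (Lp.stronglyMeasurable F).measurable, fun x => norm_clip _⟩
  have z := h0 _ ⟨m, fun H0 δ hδ => (key H0 δ hδ).imp fun u h => ⟨h.1, h.2.2⟩⟩
  obtain ⟨u, hu, e1, e2⟩ := key 0 (ε / 2) (half_pos hε)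
  have mu := hA.CX_MB1 hu
  have e3 : ‖∫ x, g x * clip (F x) - g x * u x ∂μ‖ ≤ ∫ x, ‖clip (F x) - u x‖ ∂μ :=
    norm_integral_le_of_norm_le ((m.integrable μ).sub (mu.integrable μ)).norm
      (Eventually.of_forall fun x => by
        rw [← mul_sub, norm_mul]
        exact mul_le_of_le_one_left (norm_nonneg _) (hg.2 x))
  rw [integral_sub ((hg.mul m).integrable μ) ((hg.mul mu).integrable μ), z, zero_sub, norm_neg] at e3
  linarith [Complex.re_le_norm (∫ x, g x * u x ∂μ)]

end Pool.Agent.MP_154433_an.T4S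

end

end PkZero

section PkAsm

/-! From the rows and the deterministic theorem to the main statement. -/

set_option autoImplicit false
set_option linter.unusedVariables false

open MeasureTheory ProbabilityTheory Filter Topology Function
open scoped BigOperators

noncomputable section

namespace Pool.Agent.MP_154433_an.T4S

open T3S (PW AsInv Erg nu nb)

theorem hasB0 (h1 : FacS) (h2 : GoodS) (h3 : UnifS) {ν ν' : ℕ → ℕ → ℝ} (hν : PW ν) (hν' : PW ν')
    (hi : AsInv ν') {l n : ℕ} {q : ℤ} (hs : Str n l q fun M d => ν M d - ν' M d)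
    (r : Fin n → Gm l) : HasB0 ν ν' r q := fun X _ μ _ A hA hE =>
  ⟨B0 n μ A q, (h1 n l q X μ A hA).1, h2 n l q _ hs (T3S.Asm.bd_sub hν hν') X μ A hA _ r,
    h3 ν' hν' hi l X μ A hA q n r hE⟩

theorem mainOf (h1 : FacS) (h2 : GoodS) (h3 : UnifS) (h4 : AeS) (h4' : T3S.AeS) (hc : ClsS)
    (hs : SprS) (hn : NearS) (h5 : T3S.NormS) (h6 : T3S.ErgS) (h7 : RedS) (h8 : EndS)
    (hD : DetS) : MainS := by
  intro σ hσ ha hg Ω _ P _ E hE hind hP
  have h0 : ∀ n, 0 ≤ σ n := fun n => (hσ n).1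
  have hW := T3S.Asm.wt_tendsto h0 hg
  filter_upwards [h4 σ hσ Ω P E hE hind hP hg, h4' σ hσ Ω P E hE hind hP hg,
    hc σ hσ Ω P E hE hind hP hg] with ω hω hω' hω'' X _ μ _ l T f hT hC hH hf
  obtain ⟨a1, a2, a3, a4, a5⟩ := h5.1 σ _ h0 hW hω'.1
  have hi := h5.2.2.2 σ h0 ha hW
  have e2 : Erg (nb σ) := h6.1 _ a2 hi
  have e1 : Erg (nu fun m => ω ∈ E m) := h6.2 _ _ e2 (h5.2.1 _ _ a4 hω'.1)
  obtain ⟨s1, s2⟩ := hs _ _ _ a2 hi a4 hω''
  refine h8 σ _ h0 ha hW a5 l X μ T hT hC (h7 _ _ a4 a5 l X μ T hT hC hH ?_) f hf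
  intro n r q A hn1 hq hA hEE
  exact hD _ _ a1 a2 e1 e2 s1 s2 l n r q
    (hasB0 h1 h2 h3 a1 a2 hi (hn n l q _ _ a4 (hω n l q hn1 hq)) r) X μ A hA hEE

end Pool.Agent.MP_154433_an.T4S

end

end PkAsm

section PkBridge

/-! The deterministic theorem in the vocabulary of the probabilistic part. -/

set_option autoImplicit false
set_option linter.unusedVariables false
set_option warn.classDefReducibility false

open MeasureTheory ProbabilityTheory Filter Topology Function
open scoped BigOperators ComplexConjugate InnerProductSpace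

noncomputable section

namespace Pool.Agent.MP_154433_an.T4S

open T3S (PW MB1 Erg)
open T3S.Bridge (toWt av_eq erg_to exists_MB1)

namespace Bridge

/-- the lattice with the directions of `r` -/
@[reducible] def grp {l n : ℕ} (r : Fin n → Gm l) : T4x.Grp := { Γ := Gm l, 𝒰 := UU r }

lemma spr_to {ν : ℕ → ℕ → ℝ} (h : PW ν) (hs : Spr ν) : T4x.SPR (toWt ν h) := by
  refine ⟨?_, fun r s L N ε H hε hH => ?_⟩
  · filter_upwards [h.2] with M e d hd
    simp only [toWt, if_pos e, Finset.mem_image, Finset.mem_range] at hd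
    obtain ⟨a, ha, rfl⟩ := hd
    rw [Nat.abs_cast]
    exact_mod_cast ha.le
  · filter_upwards [hs r s L N ε H hε hH, h.2] with M hM e m d0 h1 h2 h3
    rw [av_eq h e]
    exact hM m d0 h1 h2 h3

lemma wavg_sub {l : ℕ} {X : Type} (A : Gm l → X → X) (ν ν' : ℕ → ℕ → ℝ) {ι : Type}
    [Fintype ι] (r : ι → Gm l) (f : ι → X → ℂ) (M : ℕ) (x : X) :
    wavg A (fun M d => ν M d - ν' M d) r f M x = wavg A ν r f M x - wavg A ν' r f M x := by
  simp only [wavg, ← Finset.sum_sub_distrib]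
  refine Finset.sum_congr rfl fun d _ => ?_
  push_cast
  ring

lemma wavg_congr {l : ℕ} {X : Type} [MeasurableSpace X] {μ : Measure X} {A : Gm l → X → X}
    (hA : Act μ A) (w : ℕ → ℕ → ℝ) {ι : Type} [Fintype ι] (r : ι → Gm l)
    {f f' : ι → X → ℂ} (h : ∀ i, f i =ᵐ[μ] f' i) (M : ℕ) :
    wavg A w r f M =ᵐ[μ] wavg A w r f' M := by
  have : ∀ᵐ x ∂μ, ∀ (i : ι) (v : Gm l), f i (A v x) = f' i (A v x) :=
    ae_all_iff.2 fun i => ae_all_iff.2 fun v =>
      (hA.mp v).quasiMeasurePreserving.ae_eq_comp (h i)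
  filter_upwards [this] with x hx
  simp only [wavg, hx]

variable {l n : ℕ} (r : Fin n → Gm l)

lemma act (X : @T4x.Sys (grp r)) :
    @Act (@T4x.Sys.X (grp r) X) (@T4x.Sys.ms (grp r) X) l (@T4x.Sys.μ (grp r) X)
      (@T4x.Sys.Tz (grp r) X) :=
  letI := grp r
  ⟨X.mp, X.zero, X.add⟩

end Bridge

open Bridge

theorem detOf (h : ∀ G : T4x.Grp, @T4x.DET G) : DetS := by
  intro ν ν' h1 h2 e1 e2 s1 s2 l n r q hB X _ μ _ A hA hE f hf
  let _ := grp r
  have avg_eq : ∀ {w : ℕ → ℕ → ℝ} (hw : PW w) {M : ℕ}, ∑ d ∈ Finset.range M, w M d = 1 →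
      ∀ (Z : T4x.Sys) (g : Fin n → Z.X → ℂ) (x : Z.X),
      T4x.avg (toWt w hw) M Z r g x = wavg Z.Tz w r g M x := fun hw M e Z g x => by
    rw [T4x.avg, av_eq hw e]
    exact Finset.sum_congr rfl fun d _ => Complex.real_smul
  have van_iff : ∀ (Z : T4x.Sys) (g : Fin n → Z.X → ℂ),
      Van Z.μ Z.Tz (fun M d => ν M d - ν' M d) r g ↔ Tendsto (fun M => ∫ x,
        ‖T4x.avg (toWt ν h1) M Z r g x - T4x.avg (toWt ν' h2) M Z r g x‖ ^ 2 ∂Z.μ)
        atTop (𝓝 0) := fun Z g => by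
    refine tendsto_congr' ?_
    filter_upwards [h1.2, h2.2] with M e e'
    simp only [avg_eq h1 e, avg_eq h2 e', wavg_sub]
  have ee : ∀ Z : T4x.Sys, T4x.EE Z (Set.range fun v : Gm l => q • v) ↔ EE Z.μ Z.Tz r q := by
    intro Z
    constructor
    · intro H u hu S hS hI v
      exact (H u hu S ⟨hS, fun a ha => by rw [Set.mem_singleton_iff.1 ha]; exact hI⟩).2 _ ⟨v, rfl⟩
    · intro H u hu S hS
      refine ⟨hS.1, ?_⟩
      rintro _ ⟨v, rfl⟩
      exact H u hu S hS.1 (hS.2 u rfl) v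
  let Y : T4x.Sys := { X := X, μ := μ, Tz := A, mp := hA.mp, zero := hA.zero, add := hA.add }
  refine (van_iff Y f).2 (h (grp r) _ _ (Fin n) r (Set.range fun v : Gm l => q • v)
    (erg_to h1 e1) (erg_to h2 e2) (spr_to h1 s1) (spr_to h2 s2)
    ⟨fun i => Or.inl ⟨i, rfl⟩, fun i j hij => Or.inr ⟨i, j, hij, rfl⟩⟩ ?_ Y ((ee Y).2 hE) f
    fun i => ⟨(hf i).1.aestronglyMeasurable, 1, Eventually.of_forall (hf i).2⟩)
  intro Z hZ
  have hZA := act r Z
  have hZE := (ee Z).1 hZ
  have hnull : ∀ (S : Set Z.X) (v : Gm l), MeasurableSet S → Z.μ S = 0 →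
      Z.Tz v ⁻¹' S =ᵐ[Z.μ] S := fun S v k1 k2 => by
    have h3 : Z.μ (Z.Tz v ⁻¹' S) = 0 := by
      rw [(Z.mp _).measure_preimage k1.nullMeasurableSet]
      exact k2
    exact (ae_eq_empty.2 h3).trans (ae_eq_empty.2 k2).symm
  have hcong : ∀ (g g' : Z.X → ℂ) (v : Gm l), g =ᵐ[Z.μ] g' →
      ∀ᵐ y ∂Z.μ, g (Z.Tz v y) = g' (Z.Tz v y) := fun g g' v k =>
    (Z.mp v).quasiMeasurePreserving.ae_eq_comp k
  obtain ⟨B, b1, b2, b3⟩ := hB Z.X Z.μ Z.Tz hZA hZE
  refine ⟨B, ⟨b1.1, MeasurableSpace.generateFrom_le fun S hS => b1.2.2 S hS.1 fun v =>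
    hnull S _ hS.1 hS.2, ?_⟩,
    fun u hu S hS => b1.2.2 S hS.1 (hZE u hu S hS.1 (hS.2 u rfl)),
    fun g hg => (van_iff Z g).1 (b2 g hg), ?_⟩
  · rintro v _ ⟨S, hS, rfl⟩
    exact b1.2.1 v S hS
  · intro u hu g hg hg1 hg0 i0 ε hε
    obtain ⟨g', m1, a1⟩ := @exists_MB1 Z.X Z.ms Z.μ g hg.1 hg1
    obtain ⟨H, a, hH, ha, hb⟩ := b3 u hu i0 g' m1 ((condExp_congr_ae a1).symm.trans hg0) ε hε
    refine ⟨H, a, hH, ha, fun m m' c η hc hc1 hη => ?_⟩
    choose c' m2 a2 using fun i => @exists_MB1 Z.X Z.ms Z.μ (c i) (hc i).1 (hc1 i)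
    filter_upwards [hb m m' c' m2 η hη, h2.2] with M hM e
    refine le_of_eq_of_le (integral_congr_ae ?_) hM
    have key := @wavg_congr l Z.X Z.ms Z.μ Z.Tz hZA ν' (Fin n) _ r
      (update c i0 fun y => g (Z.Tz ((m : ℤ) • u) y) * conj (g (Z.Tz ((m' : ℤ) • u) y)))
      (update c' i0 fun y => g' (Z.Tz ((m : ℤ) • u) y) * conj (g' (Z.Tz ((m' : ℤ) • u) y)))
      (fun i => ?_) M
    · filter_upwards [key] with x hx
      rw [avg_eq h2 e, hx]
    · by_cases hi : i = i0
      · subst hi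
        simp only [update_self]
        filter_upwards [hcong g g' ((m : ℤ) • u) a1, hcong g g' ((m' : ℤ) • u) a1] with y k1 k2
        exact congrArg₂ (fun a b => a * conj b) k1 k2
      · simp only [update_of_ne hi]
        exact a2 i

end Pool.Agent.MP_154433_an.T4S

end

end PkBridge
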